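import Pool.Agent.H904R2.Base

/-! Cochain basics. -/

set_option autoImplicit false

namespace Pool.Agent.H904R2

open Finsupp
open Pool.Agent.Helper922.HB.Sc (Sing sface altd bd sbd)

universe u v w

section General

variable {M : Type v} [AddCommGroup M] {M' : Type w} [AddCommGroup M'] {S : ℕ → Type u}
  (face : ∀ n, Fin (n + 2) → S (n + 1) → S n)

theorem dlt_add (n : ℕ) (f g : S n → M) : dlt face n (f + g) = dlt face n f + dlt face n g := by
  funext σ
  simp only [dlt, Pi.add_apply, smul_add, Finset.sum_add_distrib]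

theorem dlt_neg (n : ℕ) (f : S n → M) : dlt face n (-f) = -dlt face n f := by
  funext σ
  simp only [dlt, Pi.neg_apply, smul_neg, Finset.sum_neg_distrib]

theorem dlt_sub (n : ℕ) (f g : S n → M) : dlt face n (f - g) = dlt face n f - dlt face n g := by
  rw [sub_eq_add_neg, dlt_add, dlt_neg, sub_eq_add_neg]

theorem dlt_zero (n : ℕ) : dlt face n (0 : S n → M) = 0 := by
  funext σ
  simp [dlt]

theorem dlt_smul (n : ℕ) (c : ℤ) (f : S n → M) : dlt face n (c • f) = c • dlt face n f := by
  funext σ
  simp only [dlt, Pi.smul_apply, Finset.smul_sum]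
  exact Finset.sum_congr rfl fun i _ => smul_comm _ _ _

theorem dlt_map (n : ℕ) (φ : M →+ M') (f : S n → M) (σ : S (n + 1)) :
    dlt face n (fun τ => φ (f τ)) σ = φ (dlt face n f σ) := by
  simp only [dlt, map_sum, map_zsmul]

theorem dlt_sum {ι : Type*} (s : Finset ι) (n : ℕ) (f : ι → S n → M) :
    dlt face n (∑ i ∈ s, f i) = ∑ i ∈ s, dlt face n (f i) := by
  classical
  induction s using Finset.induction_on with
  | empty => simp [dlt_zero]
  | insert a s ha ih => rw [Finset.sum_insert ha, Finset.sum_insert ha, dlt_add, ih]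

theorem dlt_eq_evm (n : ℕ) (f : S n → M) (σ : S (n + 1)) :
    dlt face n f σ = evm f (bd face n (single σ 1)) := by
  rw [Pool.Agent.Helper922.HB.Sc.bd_single, map_sum]
  refine Finset.sum_congr rfl fun i _ => ?_
  rw [map_smul, linearCombination_single, one_smul]

theorem evm_dlt (n : ℕ) (f : S n → M) (z : S (n + 1) →₀ ℤ) :
    evm (dlt face n f) z = evm f (bd face n z) := by
  have : evm (dlt face n f) = (evm f).comp (bd face n) := by
    apply Finsupp.lhom_ext'
    intro σ
    apply LinearMap.ext_ring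
    simp only [LinearMap.comp_apply, lsingle_apply, linearCombination_single, one_smul]
    exact dlt_eq_evm face n f σ
  exact LinearMap.congr_fun this z

theorem dlt_dlt (h : ∀ n (i j : Fin (n + 2)) (σ : S (n + 2)), i ≤ j →
      face n i (face (n + 1) j.succ σ) = face n j (face (n + 1) i.castSucc σ))
    (n : ℕ) (f : S n → M) : dlt face (n + 1) (dlt face n f) = 0 := by
  funext σ
  rw [dlt_eq_evm, evm_dlt, Pool.Agent.Helper922.HB.Sc.bd_bd face h, map_zero]
  rfl

theorem altd_eq_dlt (n : ℕ) (f : S n → ℤ) : altd ℤ face n f = dlt face n f := by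
  funext σ
  rw [Pool.Agent.Helper922.HB.Sc.altd_apply]
  unfold dlt
  exact Finset.sum_congr rfl fun i _ => by rw [zsmul_eq_mul]; push_cast; rfl

end General

section Sp

variable {X : Type u} [TopologicalSpace X] {M : Type v} [AddCommGroup M]

theorem dltX_dltX (n : ℕ) (f : Sing X n → M) : dlt Pool.Agent.Helper922.HB.Sc.sface (n + 1) (dlt Pool.Agent.Helper922.HB.Sc.sface n f) = 0 :=
  dlt_dlt (sface (X := X))
    (fun n i j σ h => Pool.Agent.Helper922.HB.Sc.sface_sface n i j σ h) n f

/-- constant simplices -/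
noncomputable def cst (n : ℕ) (x : X) : Sing X n := ContinuousMap.const _ x

theorem sface_cst (n : ℕ) (i : Fin (n + 2)) (x : X) : sface n i (cst (n + 1) x) = cst n x := rfl

theorem sum_alt (n : ℕ) (c : M) : ∑ i : Fin (n + 2), ((-1 : ℤ) ^ (i : ℕ)) • c =
    if Odd n then c else 0 := by
  rw [← Finset.sum_smul, Fin.sum_univ_eq_sum_range (fun i => (-1 : ℤ) ^ i) (n + 2)]
  have h : ∀ k : ℕ, ∑ i ∈ Finset.range k, (-1 : ℤ) ^ i = if Odd k then 1 else 0 := by
    intro k
    induction k with
    | zero => simp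
    | succ k ih =>
      rw [Finset.sum_range_succ, ih]
      rcases Nat.even_or_odd k with hk | hk
      · have h1 : ¬ Odd k := Nat.not_odd_iff_even.2 hk
        have h2 : Odd (k + 1) := hk.add_one
        rw [if_neg h1, if_pos h2, hk.neg_one_pow]
        simp
      · have h2 : ¬ Odd (k + 1) := Nat.not_odd_iff_even.2 hk.add_one
        rw [if_pos hk, if_neg h2, hk.neg_one_pow]
        simp
  rw [h]
  have e : Odd (n + 2) ↔ Odd n := by
    rw [Nat.odd_iff, Nat.odd_iff]
    omega
  by_cases hn : Odd n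
  · rw [if_pos (e.2 hn), if_pos hn, one_smul]
  · rw [if_neg (fun h => hn (e.1 h)), if_neg hn, zero_smul]

theorem dltX_cst (n : ℕ) (f : Sing X n → M) (x : X) :
    dlt Pool.Agent.Helper922.HB.Sc.sface n f (cst (n + 1) x) = if Odd n then f (cst n x) else 0 := by
  change ∑ i : Fin (n + 2), ((-1 : ℤ) ^ (i : ℕ)) • f (cst n x) = _
  rw [sum_alt]

end Sp

end Pool.Agent.H904R2
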