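import Pool.Agent.H904R2.Base

set_option autoImplicit false

namespace Pool.Agent.H904R2

open Finsupp
open Pool.Agent.Helper922.HB.Sc (Sing sface altd bd sbd)

namespace Prd

open Pool.Agent.Helper922.HB.Sc

variable {X Y Z V : Type} [TopologicalSpace X] [TopologicalSpace Y] [TopologicalSpace Z]
  [TopologicalSpace V]

theorem psh_single (f : C(X, Y)) (m : ℕ) (σ : Sing X m) (a : ℤ) :
    psh f m (single σ a) = single (f.comp σ) a := by simp [psh]

theorem ext_ch {M : Type} [AddCommGroup M] {m : ℕ} {L L' : Ch X m →ₗ[ℤ] M}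
    (h : ∀ σ : Sing X m, L (single σ 1) = L' (single σ 1)) (z : Ch X m) : L z = L' z := by
  have : L = L' := by
    apply Finsupp.lhom_ext'
    intro σ
    apply LinearMap.ext_ring
    exact h σ
  rw [this]

theorem sbd_psh (f : C(X, Y)) (m : ℕ) (z : Ch X (m + 1)) :
    sbd Y m (psh f (m + 1) z) = psh f m (sbd X m z) := by
  refine ext_ch (L := (sbd Y m).comp (psh f (m + 1))) (L' := (psh f m).comp (sbd X m)) ?_ z
  intro σ
  simp only [LinearMap.comp_apply]
  rw [psh_single, sbd, sbd, bd_single, bd_single, map_sum]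
  refine Finset.sum_congr rfl fun i _ => ?_
  rw [map_smul, psh_single, sface_comp]

theorem psh_psh (f : C(X, Y)) (g : C(Y, Z)) (m : ℕ) (z : Ch X m) :
    psh g m (psh f m z) = psh (g.comp f) m z := by
  refine ext_ch (L := (psh g m).comp (psh f m)) (L' := psh (g.comp f) m) ?_ z
  intro σ
  simp only [LinearMap.comp_apply, psh_single, ContinuousMap.comp_assoc]

theorem psh_id (m : ℕ) (z : Ch X m) : psh (ContinuousMap.id X) m z = z := by
  refine ext_ch (L := psh (ContinuousMap.id X) m) (L' := LinearMap.id) ?_ z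
  intro σ
  simp only [psh_single, ContinuousMap.id_comp, LinearMap.id_apply]

theorem isCyc_psh (f : C(X, Y)) (m : ℕ) (z : Ch X m) (hz : IsCyc m z) :
    IsCyc m (psh f m z) := by
  cases m with
  | zero =>
    change (psh f 0 z).sum (fun _ a => a) = 0
    rw [psh, Finsupp.lmapDomain_apply, Finsupp.sum_mapDomain_index (by simp) (by simp)]
    exact hz
  | succ m =>
    change sbd Y m (psh f (m + 1) z) = 0
    rw [sbd_psh, show sbd X m z = 0 from hz, map_zero]

theorem isBdy_psh (f : C(X, Y)) (m : ℕ) (z : Ch X m) (hz : IsBdy m z) :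
    IsBdy m (psh f m z) := by
  obtain ⟨y, rfl⟩ := hz
  exact ⟨psh f (m + 1) y, sbd_psh f m y⟩

theorem isBdy_add {m : ℕ} {z z' : Ch X m} (hz : IsBdy m z) (hz' : IsBdy m z') :
    IsBdy m (z + z') := by
  obtain ⟨y, rfl⟩ := hz
  obtain ⟨y', rfl⟩ := hz'
  exact ⟨y + y', map_add _ _ _⟩

/-- homotopic maps: difference of push forwards of a cycle bounds -/
theorem htpy_bdy (H : C(X × unitInterval, Y)) (m : ℕ) (z : Ch X m) (hz : IsCyc m z) :
    IsBdy m (psh (slice H 1) m z - psh (slice H 0) m z) := by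
  cases m with
  | zero => exact ⟨PD H 0 z, sbd_PD_zero H z⟩
  | succ m =>
    refine ⟨PD H (m + 1) z, ?_⟩
    have := sbd_PD H m z
    rw [show sbd X m z = 0 from hz, map_zero, add_zero] at this
    exact this

/-- the straight homotopy contracting the simplex factor -/
noncomputable def contr (q : ℕ) (V : Type) [TopologicalSpace V] :
    C((Dl q × V) × unitInterval, Dl q × V) :=
  ⟨fun p => (⟨(p.2 : ℝ) • p.1.1.1 + (1 - (p.2 : ℝ)) • (vert q 0).1,
      convex_stdSimplex ℝ (Fin (q + 1)) p.1.1.2 (vert q 0).2 p.2.2.1 (by linarith [p.2.2.2])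
        (by ring)⟩, p.1.2), by
    apply Continuous.prodMk
    · apply Continuous.subtype_mk
      fun_prop
    · fun_prop⟩

theorem slice_contr_one (q : ℕ) : slice (contr q V) 1 = ContinuousMap.id _ := by
  apply ContinuousMap.ext
  rintro ⟨t, v⟩
  apply Prod.ext
  · apply Subtype.ext
    simp [slice, contr]
  · rfl

theorem slice_contr_zero (q : ℕ) : slice (contr q V) 0 =
    ((ContinuousMap.const V (vert q 0)).prodMk (ContinuousMap.id V)).comp ContinuousMap.snd := by
  apply ContinuousMap.ext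
  rintro ⟨t, v⟩
  apply Prod.ext
  · apply Subtype.ext
    simp [slice, contr]
  · rfl

theorem hom_contr (q m : ℕ) (z : Ch (Dl q × V) m) (hz : IsCyc m z) :
    IsBdy m (z - psh ((ContinuousMap.const V (vert q 0)).prodMk (ContinuousMap.id V)) m
      (psh ContinuousMap.snd m z)) := by
  have := htpy_bdy (contr q V) m z hz
  rwa [slice_contr_one, slice_contr_zero, psh_id, ← psh_psh] at this

theorem racyc_contr (q m : ℕ) (hV : RAcyc V m) : RAcyc (Dl q × V) m := by
  intro z hz
  have h1 := hom_contr q m z hz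
  have h2 := isBdy_psh ((ContinuousMap.const V (vert q 0)).prodMk (ContinuousMap.id V)) m _
    (hV _ (isCyc_psh ContinuousMap.snd m z hz))
  have := isBdy_add h1 h2
  rwa [sub_add_cancel] at this

/-! the acyclic model construction -/

/-- `(id, τ)` -/
noncomputable def ee (q : ℕ) (τ : Sing V q) : Ch (Dl q × V) q :=
  single ((ContinuousMap.id _).prodMk τ) 1

/-- `(pr_X, v0)` -/
def PP (X : Type) {V : Type} [TopologicalSpace X] [TopologicalSpace V] (v0 : V) :
    C(X × V, X × V) :=
  ContinuousMap.fst.prodMk (ContinuousMap.const _ v0)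

/-- extension of a family of model chains to all spaces -/
noncomputable def ext (h : ∀ q : ℕ, Sing V q → Ch (Dl q × V) (q + 1)) (X : Type)
    [TopologicalSpace X] (q : ℕ) : Ch (X × V) q →ₗ[ℤ] Ch (X × V) (q + 1) :=
  Finsupp.linearCombination ℤ (fun σ : Sing (X × V) q =>
    psh ((ContinuousMap.fst.comp σ).prodMap (ContinuousMap.id V)) (q + 1)
      (h q (ContinuousMap.snd.comp σ)))

theorem ext_single (h : ∀ q : ℕ, Sing V q → Ch (Dl q × V) (q + 1)) (q : ℕ)
    (σ : Sing (X × V) q) : ext h X q (single σ 1) =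
      psh ((ContinuousMap.fst.comp σ).prodMap (ContinuousMap.id V)) (q + 1)
        (h q (ContinuousMap.snd.comp σ)) := by
  rw [ext, linearCombination_single, one_smul]

theorem ext_nat (h : ∀ q : ℕ, Sing V q → Ch (Dl q × V) (q + 1)) (q : ℕ) (f : C(X, Y))
    (z : Ch (X × V) q) : ext h Y q (psh (f.prodMap (ContinuousMap.id V)) q z) =
      psh (f.prodMap (ContinuousMap.id V)) (q + 1) (ext h X q z) := by
  refine ext_ch (L := (ext h Y q).comp (psh (f.prodMap (ContinuousMap.id V)) q))
    (L' := (psh (f.prodMap (ContinuousMap.id V)) (q + 1)).comp (ext h X q)) ?_ z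
  intro σ
  simp only [LinearMap.comp_apply]
  rw [psh_single, ext_single, ext_single, psh_psh]
  rfl

theorem psh_ee (q : ℕ) (σ : Sing (X × V) q) :
    psh ((ContinuousMap.fst.comp σ).prodMap (ContinuousMap.id V)) q
      (ee q (ContinuousMap.snd.comp σ)) = single σ 1 := by
  rw [ee, psh_single]
  rfl

theorem PP_nat (v0 : V) (f : C(X, Y)) (q : ℕ) (z : Ch (X × V) q) :
    psh (PP Y v0) q (psh (f.prodMap (ContinuousMap.id V)) q z) =
      psh (f.prodMap (ContinuousMap.id V)) q (psh (PP X v0) q z) := by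
  rw [psh_psh, psh_psh]
  rfl

/-- the specification at level `q` -/
def Spec (v0 : V) (h : ∀ q : ℕ, Sing V q → Ch (Dl q × V) (q + 1)) : ℕ → Prop
  | 0 => ∀ τ : Sing V 0, sbd _ 0 (h 0 τ) = ee 0 τ - psh (PP (Dl 0) v0) 0 (ee 0 τ)
  | (q + 1) => ∀ τ : Sing V (q + 1), sbd _ (q + 1) (h (q + 1) τ) =
      ee (q + 1) τ - psh (PP (Dl (q + 1)) v0) (q + 1) (ee (q + 1) τ) -
        ext h (Dl (q + 1)) q (sbd _ q (ee (q + 1) τ))

theorem spec_zero (v0 : V) (h : ∀ q : ℕ, Sing V q → Ch (Dl q × V) (q + 1))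
    (hs : Spec v0 h 0) (z : Ch (X × V) 0) :
    sbd _ 0 (ext h X 0 z) = z - psh (PP X v0) 0 z := by
  refine ext_ch (L := (sbd _ 0).comp (ext h X 0))
    (L' := LinearMap.id - psh (PP X v0) 0) ?_ z
  intro σ
  simp only [LinearMap.comp_apply, LinearMap.sub_apply, LinearMap.id_apply]
  rw [ext_single, sbd_psh, hs, map_sub, ← PP_nat, psh_ee]

theorem spec_succ (v0 : V) (h : ∀ q : ℕ, Sing V q → Ch (Dl q × V) (q + 1)) (q : ℕ)
    (hs : Spec v0 h (q + 1)) (z : Ch (X × V) (q + 1)) :
    sbd _ (q + 1) (ext h X (q + 1) z) = z - psh (PP X v0) (q + 1) z -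
      ext h X q (sbd _ q z) := by
  refine ext_ch (L := (sbd _ (q + 1)).comp (ext h X (q + 1)))
    (L' := LinearMap.id - psh (PP X v0) (q + 1) - (ext h X q).comp (sbd _ q)) ?_ z
  intro σ
  simp only [LinearMap.comp_apply, LinearMap.sub_apply, LinearMap.id_apply]
  rw [ext_single, sbd_psh, hs, map_sub, map_sub, ← PP_nat, psh_ee, ← ext_nat, ← sbd_psh, psh_ee]

/-- the defect is a cycle -/
theorem defect_cyc (v0 : V) (h : ∀ q : ℕ, Sing V q → Ch (Dl q × V) (q + 1)) (q : ℕ)
    (hs : Spec v0 h q) (hs' : ∀ p, p + 1 = q → Spec v0 h p) (z : Ch (X × V) (q + 1)) :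
    IsCyc (q + 1) (z - psh (PP X v0) (q + 1) z - ext h X q (sbd _ q z)) := by
  change sbd _ q (z - psh (PP X v0) (q + 1) z - ext h X q (sbd _ q z)) = 0
  rw [map_sub, map_sub, sbd_psh]
  cases q with
  | zero => rw [spec_zero v0 h hs]; abel
  | succ q =>
    rw [spec_succ v0 h q hs, sbd_sbd, map_zero]; abel

theorem ext_congr (h h' : ∀ q : ℕ, Sing V q → Ch (Dl q × V) (q + 1)) (q : ℕ)
    (hh : h q = h' q) : ext h X q = ext h' X q := by
  rw [ext, ext, hh]

theorem spec_congr (v0 : V) (h h' : ∀ q : ℕ, Sing V q → Ch (Dl q × V) (q + 1)) (q : ℕ)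
    (hh : ∀ p ≤ q, h p = h' p) (hs : Spec v0 h q) : Spec v0 h' q := by
  cases q with
  | zero =>
    intro τ
    rw [← hh 0 le_rfl]
    exact hs τ
  | succ q =>
    intro τ
    rw [← hh (q + 1) le_rfl, ← ext_congr h h' q (hh q (Nat.le_succ q))]
    exact hs τ

theorem exists_spec (v0 : V) (m : ℕ) (hV : ∀ j < m, RAcyc V j) :
    ∃ h : ∀ q : ℕ, Sing V q → Ch (Dl q × V) (q + 1), ∀ q < m, Spec v0 h q := by
  induction m with
  | zero => exact ⟨fun _ _ => 0, fun q hq => absurd hq (Nat.not_lt_zero q)⟩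
  | succ m ih =>
    obtain ⟨h, hs⟩ := ih fun j hj => hV j (hj.trans (Nat.lt_succ_self m))
    have hac : RAcyc (Dl m × V) m := racyc_contr m m (hV m (Nat.lt_succ_self m))
    -- the new function
    obtain ⟨g, hg⟩ : ∃ g : Sing V m → Ch (Dl m × V) (m + 1),
        Spec v0 (Function.update h m g) m := by
      cases m with
      | zero =>
        have h1 : ∀ τ : Sing V 0, ∃ y, sbd _ 0 y = ee 0 τ - psh (PP (Dl 0) v0) 0 (ee 0 τ) := by
          intro τ
          apply hac
          change (ee 0 τ - psh (PP (Dl 0) v0) 0 (ee 0 τ)).sum (fun _ a => a) = 0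
          rw [Finsupp.sum_sub_index (by simp), ee, psh_single,
            Finsupp.sum_single_index rfl, Finsupp.sum_single_index rfl, sub_self]
        choose g hg using h1
        refine ⟨g, ?_⟩
        intro τ
        rw [Function.update_self]
        exact hg τ
      | succ m =>
        have h1 : ∀ τ : Sing V (m + 1), ∃ y, sbd _ (m + 1) y =
            ee (m + 1) τ - psh (PP (Dl (m + 1)) v0) (m + 1) (ee (m + 1) τ) -
              ext h (Dl (m + 1)) m (sbd _ m (ee (m + 1) τ)) := by
          intro τ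
          apply hac
          exact defect_cyc v0 h m (hs m (Nat.lt_succ_self m)) (fun p hp => hs p (by omega)) _
        choose g hg using h1
        refine ⟨g, ?_⟩
        intro τ
        rw [Function.update_self, ← ext_congr h (Function.update h (m + 1) g) m
          (by rw [Function.update_of_ne (by omega)])]
        exact hg τ
    refine ⟨Function.update h m g, fun q hq => ?_⟩
    rcases Nat.lt_succ_iff_lt_or_eq.1 hq with hq | rfl
    · refine spec_congr v0 h _ q (fun p hp => ?_) (hs q hq)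
      rw [Function.update_of_ne (by omega)]
    · exact hg

end Prd

open Prd Pool.Agent.Helper922.HB.Sc

theorem prod_acyc (X V : Type) [TopologicalSpace X] [TopologicalSpace V] (v0 : V) (m j : ℕ)
    (hV : ∀ j < m, RAcyc V j) (hj : j < m) (hX : RAcyc X j) : RAcyc (X × V) j := by
  obtain ⟨h, hs⟩ := exists_spec v0 m hV
  intro z hz
  have h1 : IsBdy j (z - psh (PP X v0) j z) := by
    cases j with
    | zero => exact ⟨_, spec_zero v0 h (hs 0 hj) z⟩
    | succ j =>
      refine ⟨ext h X (j + 1) z, ?_⟩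
      rw [spec_succ v0 h j (hs (j + 1) hj), show sbd _ j z = 0 from hz, map_zero, sub_zero]
  have h2 : IsBdy j (psh (PP X v0) j z) := by
    have h3 := isBdy_psh ((ContinuousMap.id X).prodMk (ContinuousMap.const X v0)) j _
      (hX _ (isCyc_psh ContinuousMap.fst j z hz))
    rw [psh_psh] at h3
    exact h3
  have := isBdy_add h1 h2
  rwa [sub_add_cancel] at this

theorem ev_sbd {X : Type} [TopologicalSpace X] {m : ℕ} (D : Sing X m → ℤ) (z : Ch X (m + 1)) :
    evm D (sbd X m z) = evm (altd ℤ (sface (X := X)) m D) z :=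
  (ev_altd (sface (X := X)) m D z).symm

theorem evm_single {X : Type} [TopologicalSpace X] {m : ℕ} (D : Sing X m → ℤ) (σ : Sing X m) :
    evm D (single σ 1) = D σ := by
  rw [evm, linearCombination_single, one_smul]

theorem evm_psh {X Y : Type} [TopologicalSpace X] [TopologicalSpace Y] (f : C(X, Y)) {m : ℕ}
    (D : Sing Y m → ℤ) (z : Ch X m) : evm D (psh f m z) = evm (pb f D) z := by
  refine ext_ch (L := (evm D).comp (psh f m)) (L' := evm (pb f D)) ?_ z
  intro σ
  simp only [LinearMap.comp_apply]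
  rw [psh_single, evm_single, evm_single]
  rfl

/-- `δ ε (σ) = ev ε (∂ σ)` in a convenient form -/
theorem exists_of_ev {X : Type} [TopologicalSpace X] {m : ℕ} (D : Sing X (m + 1) → ℤ)
    (L : Ch X m →ₗ[ℤ] ℤ) (h : ∀ σ : Sing X (m + 1), D σ = L (sbd X m (single σ 1))) :
    ∃ ε : Sing X m → ℤ, D = altd ℤ (sface (X := X)) m ε := by
  refine ⟨fun τ => L (single τ 1), ?_⟩
  funext σ
  rw [h σ, ← evm_single (altd ℤ (sface (X := X)) m _) σ, ← ev_sbd]
  refine ext_ch (L := L) (L' := evm (fun τ => L (single τ 1))) ?_ _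
  intro τ
  rw [evm_single]

theorem prod_coc (X V : Type) [TopologicalSpace X] [TopologicalSpace V] (v0 : V) (m j : ℕ)
    (hV : ∀ j < m, RAcyc V j) (hj : j + 1 < m) (D : Sing (X × V) (j + 1) → ℤ)
    (hD : altd ℤ (sface (X := X × V)) (j + 1) D = 0)
    (hD0 : ∃ η : Sing X j → ℤ, ∀ σ : Sing X (j + 1),
      D (σ.prodMk (ContinuousMap.const _ v0)) = altd ℤ (sface (X := X)) j η σ) :
    ∃ ε : Sing (X × V) j → ℤ, D = altd ℤ (sface (X := X × V)) j ε := by
  obtain ⟨h, hs⟩ := exists_spec v0 m hV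
  obtain ⟨η, hη⟩ := hD0
  refine exists_of_ev D ((evm D).comp (ext h X j) +
    (evm η).comp (psh ContinuousMap.fst j)) ?_
  intro σ
  have h1 := congrArg (evm D) (spec_succ v0 h j (hs (j + 1) hj) (single σ 1))
  rw [ev_sbd, hD, map_sub, map_sub, evm_single, psh_single, evm_single] at h1
  have h2 : D ((PP X v0).comp σ) = evm η (psh ContinuousMap.fst j (sbd _ j (single σ 1))) := by
    rw [← sbd_psh, psh_single, ev_sbd, evm_single, ← hη]
    rfl
  simp only [LinearMap.add_apply, LinearMap.comp_apply]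
  rw [← h2]
  have h3 : evm (0 : Sing (X × V) (j + 1 + 1) → ℤ) (ext h X (j + 1) (single σ 1)) = 0 := by
    simp [evm]
  rw [h3] at h1
  linarith

theorem prod_H (X V : Type) [TopologicalSpace X] [TopologicalSpace V] (v0 : V) (m : ℕ)
    (hV : ∀ j < m + 1, RAcyc V j) (D : Sing (X × V) (m + 1) → ℤ)
    (hD : altd ℤ (sface (X := X × V)) (m + 1) D = 0)
    (h0 : ∀ σ : Sing X (m + 1), D (σ.prodMk (ContinuousMap.const _ v0)) = 0)
    (hfib : ∀ (x : X) (z : Ch V (m + 1)), IsCyc (m + 1) z →
      evm D (psh ((ContinuousMap.const V x).prodMk (ContinuousMap.id V)) (m + 1) z) = 0) :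
    ∃ ε : Sing (X × V) m → ℤ, D = altd ℤ (sface (X := X × V)) m ε := by
  obtain ⟨h, hs⟩ := exists_spec v0 (m + 1) hV
  refine exists_of_ev D ((evm D).comp (ext h X m)) ?_
  intro σ
  -- the model defect
  set f : C(Dl (m + 1) × V, X × V) :=
    (ContinuousMap.fst.comp σ).prodMap (ContinuousMap.id V) with hf
  set e : Ch (Dl (m + 1) × V) (m + 1) := ee (m + 1) (ContinuousMap.snd.comp σ) with he
  set R := e - psh (PP (Dl (m + 1)) v0) (m + 1) e - ext h (Dl (m + 1)) m (sbd _ m e) with hR
  have hRc : IsCyc (m + 1) R := defect_cyc v0 h m (hs m (Nat.lt_succ_self m))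
    (fun p hp => hs p (by omega)) e
  have hfR : psh f (m + 1) R = single σ 1 - psh (PP X v0) (m + 1) (single σ 1) -
      ext h X m (sbd _ m (single σ 1)) := by
    rw [hR, map_sub, map_sub, ← PP_nat, ← Prd.ext_nat, ← sbd_psh, psh_ee]
  have hz : evm D (psh f (m + 1) R) = 0 := by
    obtain ⟨y, hy⟩ := hom_contr (m + 1) (m + 1) R hRc
    have h1 := congrArg (fun w => evm D (psh f (m + 1) w)) hy
    rw [← sbd_psh, ev_sbd, hD, map_sub, map_sub, psh_psh] at h1
    have h3 : evm (0 : Sing (X × V) (m + 1 + 1) → ℤ) (psh f (m + 1 + 1) y) = 0 := by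
      simp [evm]
    rw [h3] at h1
    have h2 := hfib (σ (vert (m + 1) 0)).1 _ (isCyc_psh (Y := V) ContinuousMap.snd (m + 1) R hRc)
    have h4 : f.comp ((ContinuousMap.const V (vert (m + 1) 0)).prodMk (ContinuousMap.id V)) =
      (ContinuousMap.const V (σ (vert (m + 1) 0)).1).prodMk (ContinuousMap.id V) := rfl
    rw [h4, h2] at h1
    linarith
  rw [hfR, map_sub, map_sub, evm_single, psh_single, evm_single] at hz
  have h5 : D ((PP X v0).comp σ) = 0 := h0 (ContinuousMap.fst.comp σ)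
  rw [h5] at hz
  simp only [LinearMap.comp_apply]
  linarith

end Pool.Agent.H904R2
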