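import Pool.Agent.H904R2.Sphere
import Pool.Agent.H904R2.Prod

/-! Task T7: the degree of the coordinatewise power map. -/

set_option autoImplicit false

namespace Pool.Agent.H904R2

namespace Deg

open Finsupp Pool.Agent.H904R2.Sph
open Pool.Agent.Helper922.HB.Sc (Sing sface altd bd sbd sbd_sbd slice pb altd_pb supported_map
  single_mem_supported')

/-! ### degrees -/

/-- `f` has degree `c` -/
def HasDeg (n : ℕ) (f : C(Pc (n + 1), Pc (n + 1))) (c : ℤ) : Prop :=
  IsBdy n (psh f n (fund n) - c • fund n)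

theorem exists_deg (n : ℕ) (f : C(Pc (n + 1), Pc (n + 1))) : ∃ c, HasDeg n f c :=
  pc_gen n _ (cyc_psh f (fund_cyc n))

theorem deg_eq {n : ℕ} {f : C(Pc (n + 1), Pc (n + 1))} {c : ℤ} (h : HasDeg n f c)
    {ω : Sing (Pc (n + 1)) n → ℤ} (hω : altd ℤ (sface (X := Pc (n + 1))) n ω = 0)
    (h1 : evm ω (fund n) = 1) : c = evm ω (psh f n (fund n)) := by
  obtain ⟨y, hy⟩ := h
  have h2 := evm_sbd hω y
  rw [hy, map_sub, map_smul, h1, smul_eq_mul, mul_one] at h2
  linarith

theorem deg_unique {n : ℕ} {f : C(Pc (n + 1), Pc (n + 1))} {c d : ℤ} (hc : HasDeg n f c)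
    (hd : HasDeg n f d) : c = d := by
  obtain ⟨ω, hω, h1⟩ := pc_coc n
  rw [deg_eq hc hω h1, deg_eq hd hω h1]

theorem deg_id (n : ℕ) : HasDeg n (ContinuousMap.id _) 1 := by
  unfold HasDeg
  rw [psh_id, one_smul, sub_self]
  exact ⟨0, map_zero _⟩

theorem deg_comp {n : ℕ} {f g : C(Pc (n + 1), Pc (n + 1))} {c d : ℤ} (hf : HasDeg n f c)
    (hg : HasDeg n g d) : HasDeg n (g.comp f) (d * c) := by
  have h1 := bdy_add (bdy_psh g hf) (bdy_smul hg c)
  unfold HasDeg
  have e : psh (g.comp f) n (fund n) - (d * c) • fund n =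
      psh g n (psh f n (fund n) - c • fund n) + c • (psh g n (fund n) - d • fund n) := by
    rw [map_sub, map_smul, psh_comp, smul_sub, smul_smul, mul_comm c d]
    abel
  rw [e]
  exact h1

theorem deg_invol {n : ℕ} {f : C(Pc (n + 1), Pc (n + 1))} (hf : f.comp f = ContinuousMap.id _)
    {c : ℤ} (h : HasDeg n f c) : c ≠ 0 := by
  rintro rfl
  have h1 := deg_comp h h
  rw [hf] at h1
  have h2 := deg_unique h1 (deg_id n)
  simp at h2

/-! ### suspension -/

theorem psh_mem_sup {X : Type} [TopologicalSpace X] {O : Set X} (H : C(X, X))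
    (hH : ∀ x ∈ O, H x ∈ O) {m : ℕ} {z : Ch X m} (hz : z ∈ sup O m) : psh H m z ∈ sup O m := by
  refine supported_map _ (psh H m) _ ?_ z hz
  intro σ hσ
  rw [Sph.psh_single]
  apply single_mem_sup
  rintro _ ⟨t, rfl⟩
  exact hH _ (hσ ⟨t, rfl⟩)

theorem deg_susp (n : ℕ) (h : C(Pc (n + 1), Pc (n + 1))) (H : C(Pc (n + 2), Pc (n + 2)))
    (hlast : ∀ v, (H v).1 (Fin.last (n + 1)) = v.1 (Fin.last (n + 1)))
    (hini : ∀ v, ∀ hv : ini v.1 ≠ 0, ini (H v).1 = (h ⟨ini v.1, hv⟩).1) (c : ℤ)
    (hc : HasDeg n h c) : HasDeg (n + 1) H c := by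
  have hW : ∀ v ∈ WW (n + 1), H v ∈ WW (n + 1) := by
    intro v hv
    change ini (H v).1 ≠ 0
    rw [hini v hv]
    exact (h _).2
  have hO : ∀ s : ℝ, ∀ v ∈ OO (n + 1) s, H v ∈ OO (n + 1) s := by
    intro s v hv
    rcases hv with hv | hv
    · left; exact hW v hv
    · right; rw [hlast]; exact hv
  let HW : C(WW (n + 1), WW (n + 1)) := ⟨fun v => ⟨H v.1, hW v.1 v.2⟩, by
    apply Continuous.subtype_mk
    exact H.continuous.comp continuous_subtype_val⟩
  have hpW : (pW (n + 1)).comp HW = h.comp (pW (n + 1)) := by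
    apply ContinuousMap.ext
    intro v
    apply Subtype.ext
    exact hini v.1 v.2
  have hinc : (inc (WW (n + 1))).comp HW = H.comp (inc (WW (n + 1))) := rfl
  have hFc : IsCyc n (F2' n) := isCyc_of_psh _ (inc_injective _) (by
    rw [inc_F2']; exact isCyc_sbd _)
  have hyc : IsCyc n (psh HW n (F2' n) - c • F2' n) := cyc_sub (cyc_psh _ hFc) (cyc_smul hFc _)
  obtain ⟨w', hw'⟩ := W_bdy (n + 1) hyc (by
    rw [map_sub, map_smul, psh_comp, hpW, ← psh_comp, pW_F2', map_smul, smul_comm c, ← smul_sub]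
    exact bdy_smul hc _)
  have e : psh H (n + 1) (fund (n + 1)) - c • fund (n + 1) =
      (psh H (n + 1) (F1 (n + 1)) - c • F1 (n + 1)) +
      (psh H (n + 1) (F2 (n + 1)) - c • F2 (n + 1)) := by
    rw [fund_eq, map_add, smul_add]; abel
  have hs : sbd _ n ((psh H (n + 1) (F1 (n + 1)) - c • F1 (n + 1)) +
      (psh H (n + 1) (F2 (n + 1)) - c • F2 (n + 1))) = 0 := by
    rw [← e]
    exact cyc_sub (cyc_psh H (fund_cyc (n + 1))) (cyc_smul (fund_cyc (n + 1)) c)
  unfold HasDeg
  rw [e]
  refine mv_glue (OO (n + 1) 1) (OO (n + 1) (-1)) (OO_acyc (n + 1) 1 (by norm_num) _)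
      (OO_acyc (n + 1) (-1) (by norm_num) _)
      (Submodule.sub_mem _ (psh_mem_sup H (hO 1) (F1_mem (n + 1)))
        (Submodule.smul_mem _ c (F1_mem (n + 1))))
      (Submodule.sub_mem _ (psh_mem_sup H (hO (-1)) (F2_mem (n + 1)))
        (Submodule.smul_mem _ c (F2_mem (n + 1)))) hs
      (w := -psh (inc (WW (n + 1))) (n + 1) w') ?_ ?_
  · rw [OO_inter]; exact Submodule.neg_mem _ (psh_inc_mem _ _)
  · have r : sbd _ n (-psh (inc (WW (n + 1))) (n + 1) w') =
        -(psh H n (sbd _ n (F2 (n + 1))) - c • sbd _ n (F2 (n + 1))) := by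
      rw [map_neg, Sph.sbd_psh, hw', map_sub, map_smul, psh_comp, hinc, ← psh_comp, inc_F2']
    rw [r, map_sub, map_smul, Sph.sbd_psh, sbd_F1, map_neg, smul_neg]
    abel

/-! ### power maps in the plane -/

/-- the complex number attached to the first two coordinates -/
noncomputable def c2 {N : ℕ} (v : Fin (N + 2) → ℝ) : ℂ := (v 0 : ℂ) + (v 1 : ℂ) * Complex.I

theorem continuous_c2 (N : ℕ) : Continuous (c2 (N := N)) := by
  unfold c2; fun_prop

theorem c2_re {N : ℕ} (v : Fin (N + 2) → ℝ) : (c2 v).re = v 0 := by simp [c2]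

theorem c2_im {N : ℕ} (v : Fin (N + 2) → ℝ) : (c2 v).im = v 1 := by simp [c2]

/-- replace the first two coordinates -/
noncomputable def put {N : ℕ} (z : ℂ) (v : Fin (N + 2) → ℝ) : Fin (N + 2) → ℝ := fun m =>
  if (m : ℕ) = 0 then z.re else if (m : ℕ) = 1 then z.im else v m

theorem c2_put {N : ℕ} (z : ℂ) (v : Fin (N + 2) → ℝ) : c2 (put z v) = z := by
  apply Complex.ext
  · rw [c2_re]; simp [put]
  · rw [c2_im]; simp [put]

theorem put_c2 {N : ℕ} (v : Fin (N + 2) → ℝ) : put (c2 v) v = v := by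
  funext m
  unfold put
  by_cases h0 : (m : ℕ) = 0
  · rw [if_pos h0, c2_re]
    congr 1
    exact (Fin.ext h0).symm
  · by_cases h1 : (m : ℕ) = 1
    · rw [if_neg h0, if_pos h1, c2_im]
      congr 1
      apply Fin.ext
      rw [h1]
      rfl
    · rw [if_neg h0, if_neg h1]

theorem continuous_put (N : ℕ) :
    Continuous (fun p : ℂ × (Fin (N + 2) → ℝ) => put p.1 p.2) := by
  refine continuous_pi fun m => ?_
  unfold put
  by_cases h0 : (m : ℕ) = 0
  · simp only [h0, if_true]
    exact Complex.continuous_re.comp continuous_fst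
  · by_cases h1 : (m : ℕ) = 1
    · simp only [h1, if_true]
      exact Complex.continuous_im.comp continuous_fst
    · simp only [h0, h1, if_false]
      fun_prop

theorem put_ne_zero {N : ℕ} (z : ℂ) (v : Fin (N + 2) → ℝ) (h : z = 0 → c2 v = 0) (hv : v ≠ 0) :
    put z v ≠ 0 := by
  intro h0
  apply hv
  have h1 : z = 0 := by
    rw [← c2_put z v, h0]
    simp [c2]
  rw [← put_c2 v, h h1, ← h1]
  exact h0

/-- the `k`-th power map on the first two coordinates -/
noncomputable def pf (N k : ℕ) (hk : 0 < k) : C(Pc (N + 2), Pc (N + 2)) :=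
  ⟨fun v => ⟨put ((c2 v.1) ^ k) v.1, put_ne_zero _ _ (fun h => by
    simpa using (pow_eq_zero_iff hk.ne').mp h) v.2⟩, by
    apply Continuous.subtype_mk
    exact (continuous_put N).comp ((((continuous_c2 N).comp continuous_subtype_val).pow k).prodMk
      continuous_subtype_val)⟩

theorem pf_susp (N k : ℕ) (hk : 0 < k) (c : ℤ) (hc : HasDeg (N + 1) (pf N k hk) c) :
    HasDeg (N + 2) (pf (N + 1) k hk) c := by
  apply deg_susp (N + 1) (pf N k hk) (pf (N + 1) k hk) ?_ ?_ c hc
  · intro v
    change put ((c2 v.1) ^ k) v.1 (Fin.last (N + 2)) = v.1 (Fin.last (N + 2))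
    unfold put
    rw [if_neg (by simp), if_neg (by simp)]
  · intro v hv
    funext m
    change put ((c2 v.1) ^ k) v.1 m.castSucc = put ((c2 (ini v.1)) ^ k) (ini v.1) m
    have h1 : c2 (ini v.1) = c2 v.1 := by
      unfold c2 ini
      rfl
    rw [h1]
    unfold put
    rfl

/-- multiplication on the punctured plane -/
noncomputable def mu : C(Pc 2 × Pc 2, Pc 2) :=
  ⟨fun p => ⟨put (c2 p.1.1 * c2 p.2.1) p.2.1, by
    apply put_ne_zero _ _ _ p.2.2
    intro h
    rcases mul_eq_zero.mp h with h | h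
    · exfalso
      apply p.1.2
      rw [← put_c2 p.1.1, h]
      funext m
      unfold put
      have := m.2
      by_cases h0 : (m : ℕ) = 0
      · rw [if_pos h0]; rfl
      · rw [if_neg h0, if_pos (by omega)]; rfl
    · exact h⟩, by
    apply Continuous.subtype_mk
    exact (continuous_put 0).comp
      ((((continuous_c2 0).comp (continuous_subtype_val.comp continuous_fst)).mul
        ((continuous_c2 0).comp (continuous_subtype_val.comp continuous_snd))).prodMk
      (continuous_subtype_val.comp continuous_snd))⟩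

theorem pc2_ext {v w : Pc 2} (h : c2 v.1 = c2 w.1) : v = w := by
  apply Subtype.ext
  rw [← put_c2 v.1, ← put_c2 w.1, h]
  funext m
  unfold put
  have := m.2
  by_cases h0 : (m : ℕ) = 0
  · rw [if_pos h0, if_pos h0]
  · rw [if_neg h0, if_pos (by omega), if_neg h0, if_pos (by omega)]

theorem c2_mu (p : Pc 2 × Pc 2) : c2 (mu p).1 = c2 p.1.1 * c2 p.2.1 := c2_put _ _

theorem c2_ne_zero (v : Pc 2) : c2 v.1 ≠ 0 := by
  intro h
  apply v.2
  rw [← put_c2 v.1, h]
  funext m
  unfold put
  have := m.2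
  by_cases h0 : (m : ℕ) = 0
  · rw [if_pos h0]; rfl
  · rw [if_neg h0, if_pos (by omega)]; rfl

/-- the unit -/
noncomputable def one2 : Pc 2 := ⟨put 1 0, by
  intro h
  have := c2_put (N := 0) 1 0
  rw [h] at this
  simp [c2] at this⟩

theorem c2_one2 : c2 one2.1 = 1 := c2_put _ _

theorem mu_one (v : Pc 2) : mu (v, one2) = v := by
  apply pc2_ext
  rw [c2_mu, c2_one2, mul_one]

/-- homotopy between multiplication by `x` and the identity -/
noncomputable def Hx (x : Pc 2) : C(Pc 2 × unitInterval, Pc 2) :=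
  ⟨fun p => ⟨put (Complex.exp ((p.2.1 : ℂ) * Complex.log (c2 x.1)) * c2 p.1.1) p.1.1, by
    apply put_ne_zero _ _ _ p.1.2
    intro h
    rcases mul_eq_zero.mp h with h | h
    · exact absurd h (Complex.exp_ne_zero _)
    · exact h⟩, by
    apply Continuous.subtype_mk
    refine (continuous_put 0).comp (Continuous.prodMk ?_ (continuous_subtype_val.comp continuous_fst))
    refine Continuous.mul ?_ ((continuous_c2 0).comp (continuous_subtype_val.comp continuous_fst))
    refine Complex.continuous_exp.comp ?_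
    exact (Complex.continuous_ofReal.comp (continuous_subtype_val.comp continuous_snd)).mul
      continuous_const⟩

theorem Hx_zero (x : Pc 2) : slice (Hx x) 0 = ContinuousMap.id _ := by
  apply ContinuousMap.ext
  intro v
  apply pc2_ext
  change c2 (put (Complex.exp ((((0 : unitInterval) : ℝ) : ℂ) * Complex.log (c2 x.1)) * c2 v.1) v.1) = c2 v.1
  rw [c2_put]
  simp

theorem Hx_one (x : Pc 2) : slice (Hx x) 1 = mu.comp ((ContinuousMap.const _ x).prodMk
    (ContinuousMap.id _)) := by
  apply ContinuousMap.ext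
  intro v
  apply pc2_ext
  change c2 (put (Complex.exp ((((1 : unitInterval) : ℝ) : ℂ) * Complex.log (c2 x.1)) * c2 v.1) v.1) =
    c2 (mu (x, v)).1
  rw [c2_put, c2_mu]
  simp only [Set.Icc.coe_one, Complex.ofReal_one, one_mul]
  rw [Complex.exp_log (c2_ne_zero x)]

theorem evm_bdy {X : Type} [TopologicalSpace X] {m : ℕ} {ω : Sing X m → ℤ}
    (hω : altd ℤ (sface (X := X)) m ω = 0) {z : Ch X m} (hz : IsBdy m z) : evm ω z = 0 := by
  obtain ⟨y, rfl⟩ := hz
  exact evm_sbd hω y

/-- additivity of a cocycle under multiplication -/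
theorem mu_add (ω : Sing (Pc 2) 1 → ℤ) (hω : altd ℤ (sface (X := Pc 2)) 1 ω = 0)
    (f g : C(Pc 2, Pc 2)) (z : Ch (Pc 2) 1) (hz : IsCyc 1 z) :
    evm ω (psh (mu.comp (f.prodMk g)) 1 z) = evm ω (psh f 1 z) + evm ω (psh g 1 z) := by
  let D : Sing (Pc 2 × Pc 2) 1 → ℤ := fun σ => ω (mu.comp σ) - ω (ContinuousMap.fst.comp σ) -
    ω (ContinuousMap.snd.comp σ)
  have hDe : ∀ z : Ch (Pc 2 × Pc 2) 1, evm D z = evm ω (psh mu 1 z) -
      evm ω (psh ContinuousMap.fst 1 z) - evm ω (psh ContinuousMap.snd 1 z) := by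
    intro z
    refine Prd.ext_ch (L := evm D) (L' := (evm ω).comp (psh mu 1) -
      (evm ω).comp (psh ContinuousMap.fst 1) - (evm ω).comp (psh ContinuousMap.snd 1)) ?_ z
    intro σ
    simp only [LinearMap.sub_apply, LinearMap.comp_apply]
    rw [Sph.psh_single, Sph.psh_single, Sph.psh_single, evm_single, evm_single, evm_single,
      evm_single]
  have hD : altd ℤ (sface (X := Pc 2 × Pc 2)) 1 D = 0 := by
    have e : D = pb mu ω - pb ContinuousMap.fst ω - pb ContinuousMap.snd ω := rfl
    funext σ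
    rw [← evm_single (altd ℤ (sface (X := Pc 2 × Pc 2)) 1 D) σ, ← ev_sbd, hDe, ← Sph.sbd_psh,
      ← Sph.sbd_psh, ← Sph.sbd_psh, evm_sbd hω, evm_sbd hω, evm_sbd hω]
    simp
  have hcst : ∀ x : Pc 2, ω (ContinuousMap.const _ x) = 0 := by
    intro x
    have h1 := congrFun hω (cs x 2)
    rw [Pool.Agent.Helper922.HB.Sc.altd_apply, Fin.sum_univ_three] at h1
    simp only [sface_cs] at h1
    change ω (cs x 1) = 0
    simpa using h1
  obtain ⟨ε, hε⟩ := prod_H (Pc 2) (Pc 2) one2 0 (by
      intro j hj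
      have : j = 0 := by omega
      subst this
      exact pc_acyc 1 0 (by norm_num)) D hD (by
      intro σ
      change ω (mu.comp (σ.prodMk (ContinuousMap.const _ one2))) - ω σ -
        ω (ContinuousMap.const _ one2) = 0
      rw [hcst, sub_zero, sub_eq_zero]
      congr 1
      apply ContinuousMap.ext
      intro t
      exact mu_one _) (by
      intro x z hz
      rw [hDe, psh_comp, psh_comp, psh_comp]
      have h1 : evm ω (psh ((ContinuousMap.fst).comp ((ContinuousMap.const (Pc 2) x).prodMk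
          (ContinuousMap.id (Pc 2)))) 1 z) = 0 := evm_bdy hω (const_bdy x hz)
      have h2 := evm_bdy hω (homotopy_bdy (Hx x) hz)
      rw [Hx_zero, Hx_one, map_sub] at h2
      have h3 : (ContinuousMap.snd).comp ((ContinuousMap.const (Pc 2) x).prodMk
          (ContinuousMap.id (Pc 2))) = ContinuousMap.id (Pc 2) := rfl
      have h4 : (0 : ℕ) + 1 = 1 := rfl
      rw [h3]
      simp only [h4] at *
      rw [h1, sub_zero]
      exact h2)
  have hc : IsCyc 1 (psh (f.prodMk g) 1 z) := cyc_psh _ hz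
  have h5 : evm D (psh (f.prodMk g) 1 z) = 0 := by
    rw [hε, ← ev_sbd]
    have : sbd _ 0 (psh (f.prodMk g) 1 z) = 0 := hc
    rw [this, map_zero]
  rw [hDe, psh_comp, psh_comp, psh_comp] at h5
  have h6 : (ContinuousMap.fst).comp (f.prodMk g) = f := rfl
  have h7 : (ContinuousMap.snd).comp (f.prodMk g) = g := rfl
  rw [h6, h7] at h5
  linarith

theorem pf_zero_deg (k : ℕ) (hk : 0 < k) : HasDeg 1 (pf 0 k hk) k := by
  obtain ⟨ω, hω, h1⟩ := pc_coc 1
  have key : ∀ k : ℕ, ∀ hk : 0 < k, evm ω (psh (pf 0 k hk) 1 (fund 1)) = k := by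
    intro k
    induction k with
    | zero => intro hk; omega
    | succ k ih =>
      intro hk
      rcases Nat.eq_zero_or_pos k with h0 | h0
      · subst h0
        have : pf 0 (0 + 1) hk = ContinuousMap.id _ := by
          apply ContinuousMap.ext
          intro v
          apply pc2_ext
          change c2 (put ((c2 v.1) ^ (0 + 1)) v.1) = c2 v.1
          rw [c2_put]
          simp
        rw [this, Sph.psh_id, h1]
        simp
      · have : pf 0 (k + 1) hk = mu.comp ((pf 0 k h0).prodMk (ContinuousMap.id _)) := by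
          apply ContinuousMap.ext
          intro v
          apply pc2_ext
          change c2 (put ((c2 v.1) ^ (k + 1)) v.1) = c2 (mu (pf 0 k h0 v, v)).1
          rw [c2_put, c2_mu]
          change _ = c2 (put ((c2 v.1) ^ k) v.1) * c2 v.1
          rw [c2_put, pow_succ]
        rw [this, mu_add ω hω _ _ _ (fund_cyc 1), ih h0, Sph.psh_id, h1]
        push_cast
        ring
  obtain ⟨c, hc⟩ := exists_deg 1 (pf 0 k hk)
  have h2 := deg_eq hc hω h1
  rw [key k hk] at h2
  rw [← h2]
  exact hc

theorem pf_deg (N k : ℕ) (hk : 0 < k) : HasDeg (N + 1) (pf N k hk) k := by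
  induction N with
  | zero => exact pf_zero_deg k hk
  | succ N ih => exact pf_susp N k hk k ih

/-! ### maps in complex coordinates -/

/-- real coordinates, inverse of `toC` -/
noncomputable def fromC (i : ℕ) (w : Fin i → ℂ) : Fin (2 * i) → ℝ :=
  fun m => if (m : ℕ) % 2 = 0 then (w ⟨m / 2, by omega⟩).re else (w ⟨m / 2, by omega⟩).im

theorem toC_fromC (i : ℕ) (w : Fin i → ℂ) : toC i (fromC i w) = w := by
  funext l
  apply Complex.ext
  · simp [toC, fromC]
  · have h1 : (2 * (l : ℕ) + 1) % 2 ≠ 0 := by omega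
    have h2 : (2 * (l : ℕ) + 1) / 2 = l := by omega
    simp [toC, fromC, h2]

theorem continuous_fromC (i : ℕ) : Continuous (fromC i) := by
  refine continuous_pi fun m => ?_
  unfold fromC
  by_cases h : (m : ℕ) % 2 = 0
  · simp only [h, if_true]
    exact Complex.continuous_re.comp (continuous_apply _)
  · simp only [h, if_false]
    exact Complex.continuous_im.comp (continuous_apply _)

theorem toC_inj {i : ℕ} {v w : Fin (2 * i) → ℝ} (h : toC i v = toC i w) : v = w := by
  have h1 : toC i (v - w) = 0 := by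
    funext l
    have h2 := congrFun h l
    simp only [toC] at h2
    simp only [toC, Pi.sub_apply, Pi.zero_apply, Complex.ofReal_sub]
    linear_combination h2
  exact sub_eq_zero.mp (toC_eq_zero i _ h1)

theorem pc_ext {i : ℕ} {p q : C(Pc (2 * i), Pc (2 * i))}
    (h : ∀ v, toC i (p v).1 = toC i (q v).1) : p = q := by
  apply ContinuousMap.ext
  intro v
  apply Subtype.ext
  exact toC_inj (h v)

/-- self maps given in complex coordinates -/
noncomputable def mk (i : ℕ) (F : (Fin i → ℂ) → (Fin i → ℂ)) (hF : Continuous F)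
    (h0 : ∀ w, F w = 0 → w = 0) : C(Pc (2 * i), Pc (2 * i)) :=
  ⟨fun v => ⟨fromC i (F (toC i v.1)), fun h => v.2 (toC_eq_zero i _ (h0 _ (by
    rw [← toC_fromC i (F (toC i v.1)), h]
    funext l
    simp [toC])))⟩, by
    apply Continuous.subtype_mk
    exact (continuous_fromC i).comp (hF.comp ((continuous_toC i).comp continuous_subtype_val))⟩

theorem toC_mk (i : ℕ) (F : (Fin i → ℂ) → (Fin i → ℂ)) (hF : Continuous F)
    (h0 : ∀ w, F w = 0 → w = 0) (v : Pc (2 * i)) : toC i (mk i F hF h0 v).1 = F (toC i v.1) :=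
  toC_fromC _ _

/-- power maps -/
noncomputable def pw (i : ℕ) (e : Fin i → ℕ) (he : ∀ j, 0 < e j) : C(Pc (2 * i), Pc (2 * i)) :=
  mk i (fun w j => w j ^ e j) (by fun_prop) (fun w hw => by
    funext j
    have := congrFun hw j
    exact (pow_eq_zero_iff (he j).ne').mp this)

theorem toC_pw (i : ℕ) (e : Fin i → ℕ) (he : ∀ j, 0 < e j) (v : Pc (2 * i)) (j : Fin i) :
    toC i (pw i e he v).1 j = (toC i v.1 j) ^ e j := by
  rw [pw, toC_mk]

/-- permutations of the coordinates -/
noncomputable def pm (i : ℕ) (s : Equiv.Perm (Fin i)) : C(Pc (2 * i), Pc (2 * i)) :=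
  mk i (fun w j => w (s j)) (by fun_prop) (fun w hw => by
    funext j
    have := congrFun hw (s.symm j)
    simpa using this)

theorem toC_pm (i : ℕ) (s : Equiv.Perm (Fin i)) (v : Pc (2 * i)) (j : Fin i) :
    toC i (pm i s v).1 j = toC i v.1 (s j) := by
  rw [pm, toC_mk]

theorem single_zero (i k : ℕ) (hk : 0 < k) :
    HasDeg (2 * i + 1) (pw (i + 1) (Function.update (fun _ => 1) 0 k) (by
      intro j
      by_cases hj : j = 0
      · subst hj; simpa using hk
      · rw [Function.update_of_ne hj]; norm_num)) k := by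
  have h : pf (2 * i) k hk = pw (i + 1) (Function.update (fun _ => 1) 0 k) (by
      intro j
      by_cases hj : j = 0
      · subst hj; simpa using hk
      · rw [Function.update_of_ne hj]; norm_num) := by
    refine pc_ext (i := i + 1) ?_
    intro v
    funext j
    rw [toC_pw]
    by_cases hj : j = 0
    · subst hj
      rw [Function.update_self]
      exact c2_put (N := 2 * i) ((c2 (N := 2 * i) v.1) ^ k) v.1
    · rw [Function.update_of_ne hj, pow_one]
      have h1 : (j : ℕ) ≠ 0 := fun h => hj (Fin.ext h)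
      have h2 : ∀ (m : Fin (2 * i + 2)), 2 ≤ (m : ℕ) →
          (pf (2 * i) k hk v).1 m = v.1 m := by
        intro m hm
        change put (N := 2 * i) _ v.1 m = v.1 m
        unfold put
        rw [if_neg (by omega), if_neg (by omega)]
      unfold toC
      have h3 := h2 ⟨2 * j, by omega⟩ (by simp; omega)
      have h4 := h2 ⟨2 * j + 1, by omega⟩ (by simp; omega)
      rw [← h3, ← h4]
  rw [← h]
  exact pf_deg (2 * i) k hk

theorem single_any (i k : ℕ) (hk : 0 < k) (a : Fin (i + 1))
    (he : ∀ j, 0 < (Function.update (fun _ => 1) a k : Fin (i + 1) → ℕ) j) :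
    ∃ c : ℤ, c ≠ 0 ∧ HasDeg (2 * i + 1) (pw (i + 1) (Function.update (fun _ => 1) a k) he) c := by
  set s : Equiv.Perm (Fin (i + 1)) := Equiv.swap 0 a with hs
  obtain ⟨d, hd⟩ := exists_deg (2 * i + 1) (pm (i + 1) s)
  have hinv : (pm (i + 1) s).comp (pm (i + 1) s) = ContinuousMap.id _ := by
    apply pc_ext
    intro v
    funext j
    rw [ContinuousMap.comp_apply, toC_pm, toC_pm, hs, Equiv.swap_apply_self]
    rfl
  have hd0 := deg_invol hinv hd
  have h0 := single_zero i k hk
  have h1 := deg_comp (deg_comp hd h0) hd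
  refine ⟨d * (k * d), by positivity, ?_⟩
  have e : (pm (i + 1) s).comp ((pw (i + 1) (Function.update (fun _ => 1) 0 k) (by
      intro j
      by_cases hj : j = 0
      · subst hj; simpa using hk
      · rw [Function.update_of_ne hj]; norm_num)).comp (pm (i + 1) s)) =
      pw (i + 1) (Function.update (fun _ => 1) a k) he := by
    apply pc_ext
    intro v
    funext j
    rw [ContinuousMap.comp_apply, toC_pm, ContinuousMap.comp_apply, toC_pw, toC_pm, toC_pw, hs,
      Equiv.swap_apply_self]
    congr 1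
    by_cases hj : j = a
    · subst hj
      rw [Equiv.swap_apply_right, Function.update_self, Function.update_self]
    · rw [Function.update_of_ne hj, Function.update_of_ne]
      intro h
      apply hj
      have := congrArg (Equiv.swap 0 a) h
      rw [Equiv.swap_apply_self, Equiv.swap_apply_left] at this
      exact this
  rw [← e]
  exact h1

theorem pw_deg (i : ℕ) (S : Finset (Fin (i + 1))) : ∀ (e : Fin (i + 1) → ℕ) (he : ∀ j, 0 < e j),
    (∀ j, j ∉ S → e j = 1) →
    ∃ c : ℤ, c ≠ 0 ∧ HasDeg (2 * i + 1) (pw (i + 1) e he) c := by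
  classical
  induction S using Finset.induction_on with
  | empty =>
    intro e he h
    refine ⟨1, one_ne_zero, ?_⟩
    have : pw (i + 1) e he = ContinuousMap.id _ := by
      apply pc_ext
      intro v
      funext j
      rw [toC_pw, h j (Finset.notMem_empty j), pow_one]
      rfl
    rw [this]
    exact deg_id _
  | insert a S ha ih =>
    intro e he h
    have he1 : ∀ j, 0 < (Function.update (fun _ => 1) a (e a) : Fin (i + 1) → ℕ) j := by
      intro j
      by_cases hj : j = a
      · subst hj; rw [Function.update_self]; exact he j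
      · rw [Function.update_of_ne hj]; norm_num
    have he2 : ∀ j, 0 < (Function.update e a 1 : Fin (i + 1) → ℕ) j := by
      intro j
      by_cases hj : j = a
      · subst hj; rw [Function.update_self]; norm_num
      · rw [Function.update_of_ne hj]; exact he j
    obtain ⟨c, hc0, hc⟩ := single_any i (e a) (he a) a he1
    obtain ⟨d, hd0, hd⟩ := ih (Function.update e a 1) he2 (by
      intro j hj
      by_cases hja : j = a
      · subst hja; rw [Function.update_self]
      · rw [Function.update_of_ne hja]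
        apply h
        rw [Finset.mem_insert]
        push Not
        exact ⟨hja, hj⟩)
    refine ⟨d * c, mul_ne_zero hd0 hc0, ?_⟩
    have : pw (i + 1) e he = (pw (i + 1) (Function.update e a 1) he2).comp
        (pw (i + 1) (Function.update (fun _ => 1) a (e a)) he1) := by
      apply pc_ext
      intro v
      funext j
      rw [ContinuousMap.comp_apply, toC_pw, toC_pw, toC_pw]
      by_cases hj : j = a
      · subst hj
        rw [Function.update_self, Function.update_self, pow_one]
      · rw [Function.update_of_ne hj, Function.update_of_ne hj, pow_one]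
    rw [this]
    exact deg_comp hc hd

end Deg

open Pool.Agent.Helper922.HB.Sc (Sing sface altd bd sbd)

/-- degree of the coordinatewise power map `ℂ^{i+1} ∖ 0 → ℂ^{i+1} ∖ 0` is not zero -/
theorem deg_pow (i : ℕ) (e : Fin (i + 1) → ℕ) (he : ∀ j, 0 < e j)
    (p : C(Pc (2 * (i + 1)), Pc (2 * (i + 1))))
    (hp : ∀ v j, toC (i + 1) (p v).1 j = (toC (i + 1) v.1 j) ^ e j) :
    ∃ c : ℤ, c ≠ 0 ∧
      IsBdy (2 * i + 1) (psh p (2 * i + 1) (fund (2 * i + 1)) - c • fund (2 * i + 1)) := by
  obtain ⟨c, hc, h⟩ := Deg.pw_deg i Finset.univ e he (fun j hj => absurd (Finset.mem_univ j) hj)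
  refine ⟨c, hc, ?_⟩
  have : p = Deg.pw (i + 1) e he := by
    apply Deg.pc_ext
    intro v
    funext j
    rw [hp, Deg.toC_pw]
  rw [this]
  exact h

end Pool.Agent.H904R2
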