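import Pool.Agent.Helper922.HB.Sc.Prism

/-! Basic definitions for MP_904b2a_gt: singular chains, reduced cycles, cochains with values in an
abelian group, punctured Euclidean spaces and their fundamental cycles, Stiefel manifolds. -/

set_option autoImplicit false

namespace Pool.Agent.H904R2

open Finsupp
open Pool.Agent.Helper922.HB.Sc (Sing sface altd bd sbd)

universe u v w

/-- singular chains -/
abbrev Ch (X : Type u) [TopologicalSpace X] (n : ℕ) : Type u := Sing X n →₀ ℤ

/-- coboundary of cochains with values in an abelian group, on any family of simplices with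
face maps -/
def dlt {M : Type v} [AddCommGroup M] {S : ℕ → Type u} (face : ∀ n, Fin (n + 2) → S (n + 1) → S n)
    (n : ℕ) (f : S n → M) (σ : S (n + 1)) : M :=
  ∑ i : Fin (n + 2), ((-1 : ℤ) ^ (i : ℕ)) • f (face n i σ)

/-- the chain is a (reduced) cycle -/
def IsCyc {X : Type u} [TopologicalSpace X] : ∀ m : ℕ, Ch X m → Prop
  | 0, z => z.sum (fun _ a => a) = 0
  | (m + 1), z => sbd X m z = 0

/-- the chain is a boundary -/
def IsBdy {X : Type u} [TopologicalSpace X] (m : ℕ) (z : Ch X m) : Prop :=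
  ∃ y : Ch X (m + 1), sbd X m y = z

/-- reduced homology of `X` vanishes in degree `m` -/
def RAcyc (X : Type u) [TopologicalSpace X] (m : ℕ) : Prop :=
  ∀ z : Ch X m, IsCyc m z → IsBdy m z

/-- push forward of chains -/
noncomputable def psh {X : Type u} {Y : Type v} [TopologicalSpace X] [TopologicalSpace Y]
    (f : C(X, Y)) (m : ℕ) : Ch X m →ₗ[ℤ] Ch Y m :=
  Finsupp.lmapDomain ℤ ℤ (fun σ => f.comp σ)

/-- evaluation of a cochain on a chain -/
noncomputable abbrev evm {M : Type v} [AddCommGroup M] {S : Type u} (f : S → M) :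
    (S →₀ ℤ) →ₗ[ℤ] M :=
  Finsupp.linearCombination ℤ f

/-- punctured Euclidean space `ℝ^N ∖ 0` -/
abbrev Pc (N : ℕ) : Type := {v : Fin N → ℝ // v ≠ 0}

/-- The affine map `Δ^{N} → ℝ^N` sending the vertices to `w₀ = (-1, …, -1)`, `w_j = e_j`
(`j = 1, …, N`), in coordinates `t ↦ (t_j - t_0)_{j=1..N}`. It only vanishes at the barycentre. -/
def Lmap (N : ℕ) (t : stdSimplex ℝ (Fin (N + 1))) : Fin N → ℝ := fun j => t.1 j.succ - t.1 0

theorem Lmap_face_ne (n : ℕ) (i : Fin (n + 2)) (t : stdSimplex ℝ (Fin (n + 1))) :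
    Lmap (n + 1) (stdSimplex.map i.succAbove t) ≠ 0 := by
  intro h
  have hi : (stdSimplex.map i.succAbove t).1 i = 0 := by
    change (FunOnFinite.linearMap ℝ ℝ i.succAbove t.1) i = 0
    rw [FunOnFinite.linearMap_apply_apply]
    apply Finset.sum_eq_zero
    intro j hj
    simp only [Finset.mem_filter] at hj
    exact absurd hj.2 (Fin.succAbove_ne i j)
  have hall : ∀ k : Fin (n + 2), (stdSimplex.map i.succAbove t).1 k =
      (stdSimplex.map i.succAbove t).1 0 := by
    intro k
    refine Fin.cases rfl (fun k => ?_) k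
    have := congrFun h k
    simp only [Lmap, Pi.zero_apply, sub_eq_zero] at this
    exact this
  have h0 : ∀ k : Fin (n + 2), (stdSimplex.map i.succAbove t).1 k = 0 := by
    intro k
    rw [hall k, ← hall i, hi]
  have hs := (stdSimplex.map i.succAbove t).2.2
  simp only [h0, Finset.sum_const_zero] at hs
  exact zero_ne_one hs

theorem continuous_Lmap (N : ℕ) : Continuous (Lmap N) := by
  unfold Lmap
  refine continuous_pi fun j => ?_
  exact ((continuous_apply _).comp continuous_subtype_val).sub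
    ((continuous_apply _).comp continuous_subtype_val)

/-- the faces of the standard simplex around `0` -/
noncomputable def sphF (n : ℕ) (i : Fin (n + 2)) : Sing (Pc (n + 1)) n :=
  ⟨fun t => ⟨Lmap (n + 1) (stdSimplex.map i.succAbove t), Lmap_face_ne n i t⟩,
    ((continuous_Lmap (n + 1)).comp (stdSimplex.continuous_map _)).subtype_mk _⟩

/-- the fundamental cycle of `ℝ^{n+1} ∖ 0` -/
noncomputable def fund (n : ℕ) : Ch (Pc (n + 1)) n :=
  ∑ i : Fin (n + 2), ((-1 : ℤ) ^ (i : ℕ)) • single (sphF n i) (1 : ℤ)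

/-- linearly independent `k`-tuples in `ℂ^r` -/
abbrev St (k r : ℕ) : Type := {w : Fin k → (Fin r → ℂ) // LinearIndependent ℂ w}

/-- the real coordinates `ℝ^{2i} → ℂ^i`, `(x_{0}, x_{1}, …) ↦ (x_{0} + I x_{1}, …)` -/
noncomputable def toC (i : ℕ) (v : Fin (2 * i) → ℝ) : Fin i → ℂ :=
  fun l => (v ⟨2 * l, by omega⟩ : ℂ) + (v ⟨2 * l + 1, by omega⟩ : ℂ) * Complex.I

theorem continuous_toC (i : ℕ) : Continuous (toC i) := by
  unfold toC
  fun_prop

theorem toC_eq_zero (i : ℕ) (v : Fin (2 * i) → ℝ) (h : toC i v = 0) : v = 0 := by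
  funext m
  have h1 : ∀ l : Fin i, v ⟨2 * l, by omega⟩ = 0 ∧ v ⟨2 * l + 1, by omega⟩ = 0 := by
    intro l
    have h2 := congrFun h l
    simp only [toC, Pi.zero_apply] at h2
    have h3 := congrArg Complex.re h2
    have h4 := congrArg Complex.im h2
    simp at h3 h4
    exact ⟨h3, h4⟩
  rcases Nat.even_or_odd' (m : ℕ) with ⟨c, hc | hc⟩
  · have := (h1 ⟨c, by omega⟩).1
    have he : m = ⟨2 * c, by omega⟩ := Fin.ext hc
    rw [he]
    exact this
  · have := (h1 ⟨c, by omega⟩).2
    have he : m = ⟨2 * c + 1, by omega⟩ := Fin.ext hc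
    rw [he]
    exact this

/-- extension of a vector of `ℂ^i` by zero to `ℂ^r` -/
noncomputable def jvec (i r : ℕ) (w : Fin i → ℂ) : Fin r → ℂ :=
  fun l => if h : (l : ℕ) < i then w ⟨l, h⟩ else 0

theorem continuous_jvec (i r : ℕ) : Continuous (jvec i r) := by
  refine continuous_pi fun l => ?_
  unfold jvec
  by_cases h : (l : ℕ) < i
  · simp only [h, dif_pos]
    exact continuous_apply _
  · simp only [h, dif_neg, not_false_eq_true]
    exact continuous_const

/-- `w ↦ (w, e_i, …, e_{r-1})` where `r = i + k` -/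
noncomputable def jmap (i k r : ℕ) (hr : i + k = r) (w : Fin i → ℂ) : Fin (k + 1) → Fin r → ℂ :=
  Fin.cons (jvec i r w) fun j => Pi.single ⟨i + j, by omega⟩ 1

theorem jmap_li (i k r : ℕ) (hr : i + k = r) (w : Fin i → ℂ) (hw : w ≠ 0) :
    LinearIndependent ℂ (jmap i k r hr w) := by
  rw [Fintype.linearIndependent_iff]
  intro g hg
  have h0 : g 0 = 0 := by
    by_contra hne
    apply hw
    funext l
    have h1 := congrFun hg ⟨l, by omega⟩
    simp only [Finset.sum_apply, Pi.smul_apply, smul_eq_mul, Pi.zero_apply, Fin.sum_univ_succ,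
      jmap, Fin.cons_zero, Fin.cons_succ, jvec] at h1
    rw [Finset.sum_eq_zero] at h1
    · simp only [Fin.is_lt, dif_pos, add_zero, mul_eq_zero, hne, false_or] at h1
      exact h1
    · intro j _
      rw [Pi.single_eq_of_ne, mul_zero]
      intro he
      have := congrArg Fin.val he
      simp at this
      omega
  intro m
  refine Fin.cases h0 (fun j => ?_) m
  have h1 := congrFun hg ⟨i + j, by omega⟩
  simp only [Finset.sum_apply, Pi.smul_apply, smul_eq_mul, Pi.zero_apply, Fin.sum_univ_succ,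
    jmap, Fin.cons_zero, Fin.cons_succ, h0, zero_mul, zero_add] at h1
  rw [Finset.sum_eq_single j] at h1
  · simpa using h1
  · intro b _ hb
    rw [Pi.single_eq_of_ne, mul_zero]
    intro he
    have := congrArg Fin.val he
    simp at this
    exact hb (Fin.ext (by omega))
  · simp

theorem continuous_jmap (i k r : ℕ) (hr : i + k = r) : Continuous (jmap i k r hr) := by
  refine continuous_pi fun m => ?_
  refine Fin.cases ?_ (fun j => ?_) m
  · simp only [jmap, Fin.cons_zero]
    exact continuous_jvec i r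
  · simp only [jmap, Fin.cons_succ]
    exact continuous_const

/-- the standard sphere `ℝ^{2i} ∖ 0 → St (k+1) r`, `w ↦ (w, e_i, …, e_{r-1})`, `r = i + k`. -/
noncomputable def jC (i k r : ℕ) (hr : i + k = r) : C(Pc (2 * i), St (k + 1) r) :=
  ⟨fun v => ⟨jmap i k r hr (toC i v.1), jmap_li i k r hr _ fun h => v.2 (toC_eq_zero i _ h)⟩,
    ((continuous_jmap i k r hr).comp ((continuous_toC i).comp continuous_subtype_val)).subtype_mk _⟩

end Pool.Agent.H904R2
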