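import Pool.Agent.H904R2.SG
import Pool.Agent.H904R2.Base

/-! The simplicial group of a path connected topological group; `GL_r(ℂ)`. -/

set_option autoImplicit false

namespace Pool.Agent.H904R2

open Pool.Agent.Helper922.HB.Sc (Sing sface altd bd sbd)

/-- affine map of simplices induced by a map of vertices -/
noncomputable def vmap {m n : ℕ} (θ : Fin (m + 1) → Fin (n + 1)) :
    C(stdSimplex ℝ (Fin (m + 1)), stdSimplex ℝ (Fin (n + 1))) :=
  ⟨stdSimplex.map θ, stdSimplex.continuous_map θ⟩

theorem vmap_id {n : ℕ} : vmap (id : Fin (n + 1) → Fin (n + 1)) = ContinuousMap.id _ := by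
  ext x i
  change (stdSimplex.map id x).1 i = x.1 i
  rw [stdSimplex.map_id_apply]

theorem vmap_comp {l m n : ℕ} (f : Fin (l + 1) → Fin (m + 1)) (g : Fin (m + 1) → Fin (n + 1)) :
    (vmap g).comp (vmap f) = vmap (g ∘ f) := by
  ext x i
  change (stdSimplex.map g (stdSimplex.map f x)).1 i = (stdSimplex.map (g ∘ f) x).1 i
  rw [stdSimplex.map_comp_apply]

/-- pull back of a singular simplex along a map of vertices -/
noncomputable def spull {X : Type*} [TopologicalSpace X] {m n : ℕ}
    (θ : Fin (m + 1) → Fin (n + 1)) (σ : Sing X n) : Sing X m := σ.comp (vmap θ)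

theorem spull_id {X : Type*} [TopologicalSpace X] {n : ℕ} (σ : Sing X n) : spull id σ = σ := by
  unfold spull
  rw [vmap_id, ContinuousMap.comp_id]

theorem spull_spull {X : Type*} [TopologicalSpace X] {l m n : ℕ} (f : Fin (l + 1) → Fin (m + 1))
    (g : Fin (m + 1) → Fin (n + 1)) (σ : Sing X n) :
    spull f (spull g σ) = spull (g ∘ f) σ := by
  unfold spull
  rw [ContinuousMap.comp_assoc, vmap_comp]

theorem sface_eq_spull {X : Type*} [TopologicalSpace X] (n : ℕ) (i : Fin (n + 2))
    (σ : Sing X (n + 1)) : sface n i σ = spull i.succAbove σ := rfl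

/-- the unique coordinate on the `0`-simplex -/
theorem dl0 (t : stdSimplex ℝ (Fin (0 + 1))) (i : Fin 1) : t.1 i = 1 := by
  have h := t.2.2
  have : i = 0 := Subsingleton.elim _ _
  subst this
  simpa using h

/-- the simplicial group of a path connected topological group -/
noncomputable def SingG (G : Type) [Group G] [TopologicalSpace G] [IsTopologicalGroup G]
    [PathConnectedSpace G] : SymGrp where
  Γ n := Sing G n
  grp n := inferInstanceAs (Group C(stdSimplex ℝ (Fin (n + 1)), G))
  pull θ := ContinuousMap.compMonoidHom' (vmap θ)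
  pull_id x := spull_id x
  pull_comp f g x := spull_spull f g x
  conn := by
    intro c
    let v0 : stdSimplex ℝ (Fin (0 + 1)) := stdSimplex.vertex 0
    obtain ⟨γ⟩ := (PathConnectedSpace.joined (c v0) (1 : G))
    let e : C(stdSimplex ℝ (Fin (1 + 1)), unitInterval) :=
      ⟨fun t => ⟨t.1 1, t.2.1 1, by
        have h := t.2.2
        have h0 := t.2.1 0
        rw [Fin.sum_univ_two] at h
        linarith⟩, by
        apply Continuous.subtype_mk
        exact (continuous_apply 1).comp continuous_subtype_val⟩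
    refine ⟨(γ.toContinuousMap).comp e, ?_, ?_⟩
    · ext x
      change γ (e (stdSimplex.map (fun _ : Fin 1 => (0 : Fin 2)) x)) = c x
      have h1 : e (stdSimplex.map (fun _ : Fin 1 => (0 : Fin 2)) x) = 0 := by
        apply Subtype.ext
        change (FunOnFinite.linearMap ℝ ℝ (fun _ : Fin 1 => (0 : Fin 2)) x.1) 1 = 0
        rw [FunOnFinite.linearMap_apply_apply]
        simp
      rw [h1, γ.source]
      congr 1
      exact Subsingleton.elim (α := stdSimplex ℝ (Fin 1)) _ _
    · ext x
      change γ (e (stdSimplex.map (fun _ : Fin 1 => (1 : Fin 2)) x)) = 1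
      have h1 : e (stdSimplex.map (fun _ : Fin 1 => (1 : Fin 2)) x) = 1 := by
        apply Subtype.ext
        change (FunOnFinite.linearMap ℝ ℝ (fun _ : Fin 1 => (1 : Fin 2)) x.1) 1 = 1
        rw [FunOnFinite.linearMap_apply_apply]
        have := dl0 x 0
        simpa using this
      rw [h1, γ.target]

theorem SingG_d (G : Type) [Group G] [TopologicalSpace G] [IsTopologicalGroup G]
    [PathConnectedSpace G] (n : ℕ) (i : Fin (n + 2)) (σ : Sing G (n + 1)) :
    (SingG G).d n i σ = sface n i σ := rfl

/-- the group `GL_r(ℂ)` -/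
abbrev GLr (r : ℕ) : Type := (Matrix (Fin r) (Fin r) ℂ)ˣ

theorem continuous_GLr {X : Type*} [TopologicalSpace X] {r : ℕ} {f : X → GLr r}
    (h : Continuous fun x => (f x : Matrix (Fin r) (Fin r) ℂ)) : Continuous f := by
  rw [Units.continuous_iff]
  refine ⟨h, ?_⟩
  have e : (fun x => ((f x)⁻¹ : GLr r).val) = fun x => ((f x : Matrix (Fin r) (Fin r) ℂ).det)⁻¹ •
      (f x : Matrix (Fin r) (Fin r) ℂ).adjugate := by
    funext x
    rw [Matrix.coe_units_inv, Matrix.inv_def, Ring.inverse_eq_inv']
  rw [e]
  refine (Continuous.inv₀ h.matrix_det ?_).smul h.matrix_adjugate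
  intro x
  have := (Matrix.isUnit_iff_isUnit_det _).1 (f x).isUnit
  exact this.ne_zero

/-- a continuous family of matrices with nonzero determinant -/
noncomputable def toGL {X : Type*} [TopologicalSpace X] {r : ℕ}
    (f : C(X, Matrix (Fin r) (Fin r) ℂ)) (h : ∀ x, (f x).det ≠ 0) : C(X, GLr r) :=
  ⟨fun x => Matrix.nonsingInvUnit (f x) (isUnit_iff_ne_zero.2 (h x)), continuous_GLr f.continuous⟩

theorem toGL_val {X : Type*} [TopologicalSpace X] {r : ℕ}
    (f : C(X, Matrix (Fin r) (Fin r) ℂ)) (h : ∀ x, (f x).det ≠ 0) (x : X) :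
    (toGL f h x : Matrix (Fin r) (Fin r) ℂ) = f x := rfl

instance (r : ℕ) : PathConnectedSpace (GLr r) := by
  refine ⟨⟨1⟩, ?_⟩
  have key : ∀ A : GLr r, Joined (1 : GLr r) A := by
    intro A
    let P : Polynomial ℂ := Matrix.det ((Polynomial.X : Polynomial ℂ) •
      ((A : Matrix (Fin r) (Fin r) ℂ) - 1).map Polynomial.C + (1 : Matrix (Fin r) (Fin r) (Polynomial ℂ)))
    have hP : ∀ z : ℂ, P.eval z = (z • ((A : Matrix (Fin r) (Fin r) ℂ) - 1) + 1).det := by
      intro z
      change Polynomial.evalRingHom z P = _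
      rw [RingHom.map_det]
      congr 1
      ext i j
      change Polynomial.eval z (((Polynomial.X : Polynomial ℂ) •
        ((A : Matrix (Fin r) (Fin r) ℂ) - 1).map Polynomial.C +
          (1 : Matrix (Fin r) (Fin r) (Polynomial ℂ))) i j) =
        (z • ((A : Matrix (Fin r) (Fin r) ℂ) - 1) + 1) i j
      rw [Matrix.add_apply, Matrix.smul_apply, smul_eq_mul, Matrix.map_apply, Polynomial.eval_add,
        Polynomial.eval_mul, Polynomial.eval_X, Polynomial.eval_C, Matrix.add_apply,
        Matrix.smul_apply, smul_eq_mul]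
      congr 1
      by_cases h : i = j
      · subst h
        rw [Matrix.one_apply_eq, Matrix.one_apply_eq, Polynomial.eval_one]
      · rw [Matrix.one_apply_ne h, Matrix.one_apply_ne h, Polynomial.eval_zero]
    have h0 : P.eval 0 ≠ 0 := by
      rw [hP]
      simp
    have h1 : P.eval 1 ≠ 0 := by
      rw [hP]
      simp only [one_smul, sub_add_cancel]
      exact ((Matrix.isUnit_iff_isUnit_det _).1 A.isUnit).ne_zero
    have hne : P ≠ 0 := by
      rintro h
      rw [h] at h0
      simp at h0
    have hfin : ({z : ℂ | P.eval z = 0}).Finite := by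
      have := P.roots.toFinset.finite_toSet
      refine this.subset ?_
      intro z hz
      simp only [Finset.mem_coe, Multiset.mem_toFinset]
      exact (Polynomial.mem_roots hne).2 hz
    have hpc : IsPathConnected ({z : ℂ | P.eval z = 0}ᶜ) := by
      apply Set.Countable.isPathConnected_compl_of_one_lt_rank _ hfin.countable
      rw [Complex.rank_real_complex]
      norm_num
    obtain ⟨γ, hγ⟩ := hpc.joinedIn 0 h0 1 h1
    let f : C(unitInterval, Matrix (Fin r) (Fin r) ℂ) :=
      ⟨fun t => (γ t) • ((A : Matrix (Fin r) (Fin r) ℂ) - 1) + 1, by fun_prop⟩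
    have hf : ∀ t, (f t).det ≠ 0 := by
      intro t
      have := hγ t
      simp only [Set.mem_compl_iff, Set.mem_ofPred_eq, hP] at this
      exact this
    refine ⟨⟨toGL f hf, ?_, ?_⟩⟩
    · apply Units.ext
      change (γ 0) • ((A : Matrix (Fin r) (Fin r) ℂ) - 1) + 1 = 1
      rw [γ.source]
      simp
    · apply Units.ext
      change (γ 1) • ((A : Matrix (Fin r) (Fin r) ℂ) - 1) + 1 = A
      rw [γ.target]
      simp
  intro A B
  exact (key A).symm.trans (key B)

end Pool.Agent.H904R2
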