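import Mathlib

set_option autoImplicit false

namespace Pool.Agent.H904R2

universe u

namespace SuslinAux

open Matrix

variable {R : Type u} [CommRing R] {n : ℕ}

/-- the matrix `[[p,q],[r,s]]` placed in the rows and columns `none`, `some i` -/
def E (i : Fin n) (p q r s : R) : Matrix (Option (Fin n)) (Option (Fin n)) R :=
  fun x y => match x, y with
  | none, none => p
  | none, some j => if j = i then q else 0
  | some k, none => if k = i then r else 0
  | some k, some j => if k = i then (if j = i then s else 0) else (if k = j then 1 else 0)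

lemma E_mul (i : Fin n) (p q r s p' q' r' s' : R) :
    E i p q r s * E i p' q' r' s' =
      E i (p * p' + q * r') (p * q' + q * s') (r * p' + s * r') (r * q' + s * s') := by
  ext x y
  rw [Matrix.mul_apply, Fintype.sum_option]
  rcases x with _ | k
  · rw [Finset.sum_eq_single i (by
        intro l _ hl; simp [E, hl]) (by simp)]
    rcases y with _ | j
    · simp [E]
    · by_cases h : j = i
      · subst h; simp [E]
      · simp [E, h]
  · by_cases h : k = i
    · subst h
      rw [Finset.sum_eq_single k (by
        intro l _ hl; simp [E, hl]) (by simp)]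
      rcases y with _ | j
      · simp [E]
      · by_cases h : j = k
        · subst h; simp [E]
        · simp [E, h]
    · rw [Finset.sum_eq_single k (by
        intro l _ hl; simp [E, h, Ne.symm hl]) (by simp)]
      rcases y with _ | j
      · simp [E, h]
      · simp [E, h]

lemma E_one (i : Fin n) : E i (1 : R) 0 0 1 = 1 := by
  ext x y
  rcases x with _ | k <;> rcases y with _ | j
  · simp [E]
  · simp [E]
  · simp [E]
  · by_cases h : k = i
    · subst h; simp [E, Matrix.one_apply, eq_comm]
    · simp [E, h, Matrix.one_apply]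

lemma E_unit (i : Fin n) (p q r s : R) (h : p * s - q * r = 1) : IsUnit (E i p q r s) := by
  refine isUnit_iff_exists.2 ⟨E i s (-q) (-r) p, ?_, ?_⟩
  · rw [E_mul, ← E_one i]
    congr 1
    · linear_combination h
    · ring
    · ring
    · linear_combination h
  · rw [E_mul, ← E_one i]
    congr 1
    · linear_combination h
    · ring
    · ring
    · linear_combination h

/-- the diagonal matrix with entries `a^(|s|+1)`, `1` on `s`, `a` outside `s` -/
def D (a : R) (s : Finset (Fin n)) : Matrix (Option (Fin n)) (Option (Fin n)) R :=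
  Matrix.diagonal (fun x => match x with
    | none => a ^ (s.card + 1)
    | some i => if i ∈ s then 1 else a)

lemma exists_Y (a c d : R) (b : R) (h : d * b + a * c = 1) (s : Finset (Fin n)) :
    ∃ Y Z : Matrix (Option (Fin n)) (Option (Fin n)) R, IsUnit Y ∧ a • Y + d • Z = D a s := by
  classical
  induction s using Finset.induction_on with
  | empty =>
    refine ⟨1, 0, isUnit_one, ?_⟩
    ext x y
    rcases x with _ | k <;> rcases y with _ | j <;> simp [D, Matrix.one_apply, Matrix.diagonal]
  | insert i s hi ih =>
    obtain ⟨Y, Z, hY, hYZ⟩ := ih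
    let e := E i a (a * c - 1) (1 - a * c) (c * (2 - a * c))
    have he : IsUnit e := E_unit _ _ _ _ _ (by ring)
    obtain ⟨W, hW⟩ : ∃ W : Matrix (Option (Fin n)) (Option (Fin n)) R,
        D a s * e = D a (insert i s) + d • W := by
      refine ⟨E i 0 (-(a ^ (s.card + 1) * b)) (a * b) (- (d * b * b)) -
        Matrix.diagonal (fun x : Option (Fin n) => match x with
          | none => (0 : R)
          | some j => if j = i then (0 : R) else 1), ?_⟩
      ext x y
      rw [D, Matrix.diagonal_mul]
      rcases x with _ | k <;> rcases y with _ | j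
      · simp [e, E, D, hi]; ring
      · by_cases hj : j = i
        · subst hj; simp [e, E, D]; linear_combination (a ^ (s.card + 1)) * h
        · simp [e, E, D, hj]
      · by_cases hj : k = i
        · subst hj; simp [e, E, D, hi]; linear_combination (-a) * h
        · simp [e, E, D, hj]
      · by_cases hk : k = i
        · subst hk
          by_cases hj : j = k
          · subst hj; simp [e, E, D, hi]; linear_combination ((1 - a * c) + d * b) * h
          · simp [e, E, D, hj, Matrix.diagonal, Ne.symm hj]
        · by_cases hkj : k = j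
          · subst hkj; simp [e, E, D, hk]
          · simp [e, E, D, hk, hkj, Matrix.diagonal]
    refine ⟨Y * e, Z * e - W, hY.mul he, ?_⟩
    rw [← Matrix.smul_mul, smul_sub, ← Matrix.smul_mul, add_sub, ← Matrix.add_mul, hYZ, hW,
      add_sub_cancel_right]

/-- key lemma -/
lemma key (α : Matrix (Option (Fin n)) (Option (Fin n)) R) (a b c : R)
    (h : α.det * b + a * c = 1) :
    ∃ S : Matrix (Option (Option (Fin n))) (Option (Option (Fin n))) R, IsUnit S.det ∧
      (∀ j, S none (some j) = α none j) ∧ S none none = a ^ (n + 1) := by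
  classical
  obtain ⟨Y, Z, hY, hYZ⟩ := exists_Y (n := n) a c α.det b h Finset.univ
  set X := α.adjugate * Z with hX
  -- the big invertible matrix
  let M₀ : Matrix (Option (Fin n) ⊕ Option (Fin n)) (Option (Fin n) ⊕ Option (Fin n)) R :=
    fromBlocks α (a • 1) ((-c) • 1) (b • α.adjugate)
  have hM₀ : IsUnit M₀ := by
    have h1 : M₀ * fromBlocks (b • α.adjugate) ((-a) • 1) (c • 1) α = 1 := by
      rw [fromBlocks_multiply, ← fromBlocks_one]
      congr 1
      · simp only [Matrix.mul_smul, Matrix.mul_adjugate, Matrix.mul_one, smul_smul]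
        rw [← add_smul]
        rw [show b * α.det + c * a = 1 by linear_combination h, one_smul]
      · simp
      · simp [smul_smul, mul_comm]
      · simp only [Matrix.mul_smul, Matrix.smul_mul, Matrix.adjugate_mul, Matrix.mul_one, smul_smul]
        rw [← add_smul]
        rw [show -a * -c + b * α.det = 1 by linear_combination h, one_smul]
    have h2 := (Matrix.isUnit_iff_isUnit_det _).2 (IsUnit.of_mul_eq_one _
      (by rw [← Matrix.det_mul, h1, Matrix.det_one] : M₀.det * _ = 1))
    exact h2
  let V : Matrix (Option (Fin n) ⊕ Option (Fin n)) (Option (Fin n) ⊕ Option (Fin n)) R :=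
    fromBlocks 1 X 0 Y
  have hV : IsUnit V := by
    rw [Matrix.isUnit_iff_isUnit_det, Matrix.det_fromBlocks_zero₂₁, Matrix.det_one, one_mul]
    exact (Matrix.isUnit_iff_isUnit_det _).1 hY
  let γ := ((-c) • (1 : Matrix (Option (Fin n)) (Option (Fin n)) R))
  let δ := ((-c) • X + b • α.adjugate * Y)
  have hM : M₀ * V = fromBlocks α (D a Finset.univ) γ δ := by
    rw [fromBlocks_multiply]
    congr 1
    · simp
    · rw [hX, ← Matrix.mul_assoc, Matrix.mul_adjugate, ← hYZ]
      simp [add_comm]
    · simp [γ]
    · simp [δ]
  let er : Option (Option (Fin n)) ⊕ Fin n ≃ Option (Fin n) ⊕ Option (Fin n) :=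
    { toFun := fun x => match x with
        | Sum.inl none => Sum.inl none
        | Sum.inl (some t) => Sum.inr t
        | Sum.inr j => Sum.inl (some j)
      invFun := fun x => match x with
        | Sum.inl none => Sum.inl none
        | Sum.inl (some j) => Sum.inr j
        | Sum.inr t => Sum.inl (some t)
      left_inv := by rintro ((_ | t) | j) <;> rfl
      right_inv := by rintro ((_ | t) | j) <;> rfl }
  let ec : Option (Option (Fin n)) ⊕ Fin n ≃ Option (Fin n) ⊕ Option (Fin n) :=
    { toFun := fun x => match x with
        | Sum.inl none => Sum.inr none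
        | Sum.inl (some t) => Sum.inl t
        | Sum.inr j => Sum.inr (some j)
      invFun := fun x => match x with
        | Sum.inr none => Sum.inl none
        | Sum.inr (some j) => Sum.inr j
        | Sum.inl t => Sum.inl (some t)
      left_inv := by rintro ((_ | t) | j) <;> rfl
      right_inv := by rintro (t | (_ | j)) <;> rfl }
  let M := (M₀ * V).submatrix er ec
  have hMu : IsUnit M := (Matrix.isUnit_submatrix_equiv er ec).2 (hM₀.mul hV)
  have hM22 : M.toBlocks₂₂ = 1 := by
    ext i j
    simp only [M, hM, Matrix.toBlocks₂₂, Matrix.of_apply, Matrix.submatrix_apply, er, ec,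
      Equiv.coe_fn_mk, Matrix.fromBlocks_apply₁₂, D]
    by_cases hij : i = j
    · subst hij; simp
    · simp [hij]
  refine ⟨M.toBlocks₁₁ - M.toBlocks₁₂ * M.toBlocks₂₁, ?_, ?_, ?_⟩
  · rw [← Matrix.det_fromBlocks_one₂₂, ← hM22, Matrix.fromBlocks_toBlocks]
    exact (Matrix.isUnit_iff_isUnit_det _).1 hMu
  · intro j
    simp [M, hM, Matrix.toBlocks₁₁, Matrix.toBlocks₁₂, Matrix.toBlocks₂₁, Matrix.mul_apply, er, ec, D]
  · simp [M, hM, Matrix.toBlocks₁₁, Matrix.toBlocks₁₂, Matrix.toBlocks₂₁, Matrix.mul_apply, er, ec, D]

end SuslinAux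

open SuslinAux in
theorem suslin {R : Type u} [CommRing R] (n : ℕ) (a b : Fin (n + 1) → R)
    (h : ∑ i, a i * b i = 1) : ∃ A : Matrix (Fin (n + 1)) (Fin (n + 1)) R,
      IsUnit A.det ∧ ∀ j, A 0 j = a j ^ max 1 (j : ℕ) := by
  induction n generalizing R with
  | zero =>
    refine ⟨Matrix.of (fun _ _ => a 0), ?_, ?_⟩
    · rw [Matrix.det_fin_one, Matrix.of_apply]
      rw [Fin.sum_univ_one] at h
      exact IsUnit.of_mul_eq_one _ h
    · intro j
      obtain rfl : j = 0 := Fin.fin_one_eq_zero j
      simp
  | succ n ih =>
    let I : Ideal R := Ideal.span {a (Fin.last (n + 1))}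
    let π := Ideal.Quotient.mk I
    have hπ : π (a (Fin.last (n + 1))) = 0 :=
      Ideal.Quotient.eq_zero_iff_mem.2 (Ideal.mem_span_singleton_self _)
    obtain ⟨A', hA', hA0⟩ := ih (R := R ⧸ I) (fun i => π (a i.castSucc))
      (fun i => π (b i.castSucc)) (by
        have := congrArg π h
        rw [Fin.sum_univ_castSucc, map_add, map_mul π (a (Fin.last _)), hπ, zero_mul, add_zero,
          map_sum, map_one] at this
        simpa using this)
    -- lift
    have hsurj : Function.Surjective π := Ideal.Quotient.mk_surjective
    choose l hl using hsurj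
    let B : Matrix (Fin (n + 1)) (Fin (n + 1)) R := Matrix.of (fun i j =>
      if i = 0 then a j.castSucc ^ max 1 (j : ℕ) else l (A' i j))
    have hB : B.map π = A' := by
      ext i j
      by_cases hi : i = 0
      · subst hi; simp [B, hA0]
      · simp [B, hi, hl]
    have hdet : π B.det = A'.det := by
      rw [RingHom.map_det]; rw [← hB]; rfl
    obtain ⟨u, hu⟩ := hA'
    obtain ⟨b', hb'⟩ : ∃ b', π b' = (u⁻¹ : (R ⧸ I)ˣ) := ⟨l _, hl _⟩
    have h1 : 1 - B.det * b' ∈ I := by
      rw [← Ideal.Quotient.eq_zero_iff_mem, map_sub, map_mul, map_one]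
      change 1 - π B.det * π b' = 0
      rw [hdet, hb', ← hu]; simp
    obtain ⟨c, hc⟩ := Ideal.mem_span_singleton'.1 h1
    let e : Option (Fin n) ≃ Fin (n + 1) := (finSuccEquiv n).symm
    obtain ⟨S, hS, hS1, hS2⟩ := key (B.submatrix e e) (a (Fin.last (n + 1))) b' c (by
      rw [Matrix.det_submatrix_equiv_self]; linear_combination hc)
    let r : Fin (n + 1 + 1) ≃ Option (Option (Fin n)) :=
      (finSuccEquiv (n + 1)).trans (Equiv.optionCongr e.symm)
    let cc : Fin (n + 1 + 1) ≃ Option (Option (Fin n)) :=
      (finSuccEquivLast).trans (Equiv.optionCongr e.symm)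
    refine ⟨S.submatrix r cc, ?_, ?_⟩
    · rw [← Matrix.isUnit_iff_isUnit_det, Matrix.isUnit_submatrix_equiv,
        Matrix.isUnit_iff_isUnit_det]
      exact hS
    · have hr : r 0 = none := by simp [r]
      have he : e none = 0 := by simp [e]
      intro j
      rw [Matrix.submatrix_apply, hr]
      refine Fin.lastCases ?_ (fun j => ?_) j
      · have : cc (Fin.last (n + 1)) = none := by simp [cc]
        rw [this, hS2]; simp
      · have : cc j.castSucc = some (e.symm j) := by
          simp only [cc, Equiv.trans_apply, finSuccEquivLast_castSucc]; rfl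
        rw [this, hS1, Matrix.submatrix_apply, he, Equiv.apply_symm_apply]
        simp [B]

end Pool.Agent.H904R2
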