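import Pool.Agent.H904R2.Sphere
import Pool.Agent.H904R2.Prod
import Pool.Agent.H904R2.Degree
import Pool.Agent.H904R2.Suslin
import Pool.Agent.H904R2.SingG
import Pool.Agent.H904R2.Cc

/-! # Task T8 (helper143): product formula for actions; a spherical element of `GL_{i+1}(ℂ)` of
nonzero degree. -/

set_option autoImplicit false

namespace Pool.Agent.H904R2

open Finsupp
open Pool.Agent.Helper922.HB.Sc (Sing sface altd bd sbd)

/-- real coordinates, inverse of `toC` -/
noncomputable def ofC (i : ℕ) (w : Fin i → ℂ) : Fin (2 * i) → ℝ :=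
  fun m => if (m : ℕ) % 2 = 0 then (w ⟨m / 2, by omega⟩).re else (w ⟨m / 2, by omega⟩).im

theorem toC_ofC (i : ℕ) (w : Fin i → ℂ) : toC i (ofC i w) = w := by
  funext l
  apply Complex.ext
  · simp [toC, ofC]
  · have h1 : (2 * (l : ℕ) + 1) % 2 ≠ 0 := by omega
    have h2 : (2 * (l : ℕ) + 1) / 2 = l := by omega
    simp [toC, ofC, h2]

/-- last column of an invertible matrix, in real coordinates -/
noncomputable def lcol (i : ℕ) : C(GLr (i + 1), Pc (2 * (i + 1))) where
  toFun g := ⟨ofC (i + 1) fun l => (g : Matrix (Fin (i + 1)) (Fin (i + 1)) ℂ) l (Fin.last i), by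
    intro h
    have h1 : (fun l => (g : Matrix (Fin (i + 1)) (Fin (i + 1)) ℂ) l (Fin.last i)) = 0 := by
      rw [← toC_ofC (i + 1) fun l => (g : Matrix (Fin (i + 1)) (Fin (i + 1)) ℂ) l (Fin.last i), h]
      funext l
      simp [toC]
    have h2 : (g : Matrix (Fin (i + 1)) (Fin (i + 1)) ℂ).det = 0 :=
      Matrix.det_eq_zero_of_column_eq_zero (Fin.last i) fun l => congrFun h1 l
    exact ((Matrix.isUnit_iff_isUnit_det _).1 g.isUnit).ne_zero h2⟩
  continuous_toFun := by
    apply Continuous.subtype_mk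
    unfold ofC
    refine continuous_pi fun m => ?_
    have hc : Continuous fun g : GLr (i + 1) => (g : Matrix (Fin (i + 1)) (Fin (i + 1)) ℂ) :=
      Units.continuous_val
    split_ifs
    · exact Complex.continuous_re.comp ((continuous_apply _).comp ((continuous_apply _).comp hc))
    · exact Complex.continuous_im.comp ((continuous_apply _).comp ((continuous_apply _).comp hc))

/-! ## The product formula -/

namespace Alp

open Pool.Agent.Helper922.HB.Sc

variable {X Y : Type} [TopologicalSpace X] [TopologicalSpace Y]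

theorem evm_psh' (f : C(X, Y)) {m : ℕ} (D : Sing Y m → ℤ) (z : Ch X m) :
    evm (fun σ : Sing X m => D (f.comp σ)) z = evm D (psh f m z) := (evm_psh f D z).symm

theorem evm_sub' {S : Type} (f g : S → ℤ) (z : S →₀ ℤ) :
    evm (fun s => f s - g s) z = evm f z - evm g z := by
  simp only [evm, Finsupp.linearCombination_apply, Finsupp.sum, smul_sub, Finset.sum_sub_distrib]

theorem evm_bdy {m : ℕ} (D : Sing X (m + 1) → ℤ) (hD : dlt Pool.Agent.Helper922.HB.Sc.sface (m + 1) D = 0) (z : Ch X (m + 1))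
    (hz : IsBdy (m + 1) z) : evm D z = 0 := by
  obtain ⟨y, rfl⟩ := hz
  rw [ev_sbd, altd_eq_dlt, hD]
  simp [evm]

end Alp

open Alp in
/-- product formula -/
theorem prod_formula (G V : Type) [TopologicalSpace G] [PathConnectedSpace G]
    [TopologicalSpace V] (g0 : G) (v0 : V) (act : C(G × V, V)) (h1 : ∀ v, act (g0, v) = v)
    (m : ℕ) (hm : Even m) (hV : ∀ j < m + 1, RAcyc V j) (ι : Sing V (m + 1) → ℤ)
    (hι : dlt Pool.Agent.Helper922.HB.Sc.sface (m + 1) ι = 0) :
    ∃ ε : Sing G m → Sing V m → ℤ, (∀ (g : Sing G (m + 1)) (τ : Sing V (m + 1)),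
      ι (act.comp (g.prodMk τ)) = ι τ + ι (act.comp (g.prodMk (ContinuousMap.const _ v0))) +
        ∑ k : Fin (m + 2), (-1 : ℤ) ^ (k : ℕ) * ε (sface m k g) (sface m k τ)) ∧
      ∀ g, ε g (ContinuousMap.const _ v0) = 0 := by
  -- the constant simplex
  have hcst : ∀ x : V, ι (ContinuousMap.const _ x) = 0 := by
    intro x
    have h2 := dltX_cst (m + 1) ι x
    rw [if_pos hm.add_one, hι] at h2
    exact h2.symm
  set D : Sing (G × V) (m + 1) → ℤ := fun σ =>
    ι (act.comp σ) - ι (ContinuousMap.snd.comp σ) -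
      ι ((act.comp (ContinuousMap.fst.prodMk (ContinuousMap.const _ v0))).comp σ) with hDdef
  have hD : altd ℤ (sface (X := G × V)) (m + 1) D = 0 := by
    rw [altd_eq_dlt]
    funext σ
    have e : ∀ f : C(G × V, V), dlt Pool.Agent.Helper922.HB.Sc.sface (m + 1) (fun σ : Sing (G × V) (m + 1) => ι (f.comp σ)) σ = 0 :=
      fun f => congrFun hι (f.comp σ)
    have h3 : dlt Pool.Agent.Helper922.HB.Sc.sface (m + 1) D = dlt Pool.Agent.Helper922.HB.Sc.sface (m + 1) (fun σ => ι (act.comp σ)) -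
        dlt Pool.Agent.Helper922.HB.Sc.sface (m + 1) (fun σ => ι (ContinuousMap.snd.comp σ)) -
        dlt Pool.Agent.Helper922.HB.Sc.sface (m + 1) (fun σ =>
          ι ((act.comp (ContinuousMap.fst.prodMk (ContinuousMap.const _ v0))).comp σ)) := by
      rw [← dlt_sub, ← dlt_sub]
      rfl
    rw [h3, Pi.sub_apply, Pi.sub_apply, e, e, e]
    simp
  have h0 : ∀ σ : Sing G (m + 1), D (σ.prodMk (ContinuousMap.const _ v0)) = 0 := by
    intro σ
    have e1 : ι (ContinuousMap.snd.comp (σ.prodMk (ContinuousMap.const _ v0))) = 0 := hcst v0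
    have e2 : (act.comp (ContinuousMap.fst.prodMk (ContinuousMap.const _ v0))).comp
      (σ.prodMk (ContinuousMap.const _ v0)) = act.comp (σ.prodMk (ContinuousMap.const _ v0)) := rfl
    simp only [hDdef, e2]
    rw [e1]
    ring
  have hfib : ∀ (x : G) (z : Ch V (m + 1)), IsCyc (m + 1) z →
      evm D (psh ((ContinuousMap.const V x).prodMk (ContinuousMap.id V)) (m + 1) z) = 0 := by
    intro x z hz
    rw [hDdef, evm_sub', evm_sub', evm_psh', evm_psh', evm_psh', Prd.psh_psh, Prd.psh_psh,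
      Prd.psh_psh]
    have e1 : (ContinuousMap.snd : C(G × V, V)).comp
      ((ContinuousMap.const V x).prodMk (ContinuousMap.id V)) = ContinuousMap.id V := rfl
    have e2 : (act.comp (ContinuousMap.fst.prodMk (ContinuousMap.const _ v0))).comp
      ((ContinuousMap.const V x).prodMk (ContinuousMap.id V)) =
        ContinuousMap.const V (act (x, v0)) := rfl
    rw [e1, e2]
    have e3 : evm ι (psh (ContinuousMap.const V (act (x, v0))) (m + 1) z) = 0 :=
      evm_bdy ι hι _ (Sph.const_bdy _ hz)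
    rw [e3, sub_zero]
    obtain ⟨γ⟩ := PathConnectedSpace.joined g0 x
    let H : C(V × unitInterval, V) := act.comp
      (((γ.toContinuousMap).comp ContinuousMap.snd).prodMk ContinuousMap.fst)
    have h2 := evm_bdy ι hι _ (Sph.homotopy_bdy H hz)
    have e4 : Pool.Agent.Helper922.HB.Sc.slice H 1 =
        act.comp ((ContinuousMap.const V x).prodMk (ContinuousMap.id V)) := by
      ext v
      change act (γ 1, v) = act (x, v)
      rw [γ.target]
    have e5 : Pool.Agent.Helper922.HB.Sc.slice H 0 = ContinuousMap.id V := by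
      ext v
      change act (γ 0, v) = v
      rw [γ.source, h1]
    rw [e4, e5, map_sub] at h2
    exact h2
  obtain ⟨ε, hε⟩ := prod_H G V v0 m hV D hD h0 hfib
  refine ⟨fun g τ => ε (g.prodMk τ) - ε (g.prodMk (ContinuousMap.const _ v0)), ?_, ?_⟩
  · intro g τ
    have h2 := congrFun hε (g.prodMk τ)
    have h3 := congrFun hε (g.prodMk (ContinuousMap.const _ v0))
    rw [h0 g] at h3
    rw [altd_eq_dlt] at h2 h3
    have h4 : ∑ k : Fin (m + 2), (-1 : ℤ) ^ (k : ℕ) * (ε ((sface m k g).prodMk (sface m k τ)) -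
        ε ((sface m k g).prodMk (ContinuousMap.const _ v0))) = D (g.prodMk τ) := by
      rw [h2]
      have h5 : dlt Pool.Agent.Helper922.HB.Sc.sface m ε (g.prodMk τ) = dlt Pool.Agent.Helper922.HB.Sc.sface m ε (g.prodMk τ) -
        dlt Pool.Agent.Helper922.HB.Sc.sface m ε (g.prodMk (ContinuousMap.const _ v0)) := by rw [← h3, sub_zero]
      rw [h5]
      unfold dlt
      rw [← Finset.sum_sub_distrib]
      refine Finset.sum_congr rfl fun k _ => ?_
      rw [← smul_sub, smul_eq_mul]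
      rfl
    change _ = _ + _ + ∑ k : Fin (m + 2), (-1 : ℤ) ^ (k : ℕ) *
      (ε ((sface m k g).prodMk (sface m k τ)) -
        ε ((sface m k g).prodMk (ContinuousMap.const _ v0)))
    rw [h4]
    have e1 : ContinuousMap.snd.comp (g.prodMk τ) = τ := rfl
    have e2 : (act.comp (ContinuousMap.fst.prodMk (ContinuousMap.const _ v0))).comp
      (g.prodMk τ) = act.comp (g.prodMk (ContinuousMap.const _ v0)) := rfl
    simp only [hDdef, e1, e2]
    ring
  · intro g
    simp

/-! ## The action of `GL_{i+1}(ℂ)` on the punctured space -/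

theorem continuous_ofC (i : ℕ) : Continuous (ofC i) := by
  unfold ofC
  refine continuous_pi fun m => ?_
  split_ifs
  · exact Complex.continuous_re.comp (continuous_apply _)
  · exact Complex.continuous_im.comp (continuous_apply _)

theorem toC_inj (i : ℕ) {v w : Fin (2 * i) → ℝ} (h : toC i v = toC i w) : v = w := by
  rw [← sub_eq_zero]
  apply toC_eq_zero
  funext l
  have h1 := congrFun h l
  have h2 := congrArg Complex.re h1
  have h3 := congrArg Complex.im h1
  simp only [toC] at h2 h3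
  simp at h2 h3
  apply Complex.ext
  · simp [toC, h2]
  · simp [toC, h3]

/-- the action of `GL` on the punctured space -/
noncomputable def actGL (i : ℕ) : C(GLr (i + 1) × Pc (2 * (i + 1)), Pc (2 * (i + 1))) where
  toFun x := ⟨ofC (i + 1)
      ((x.1 : Matrix (Fin (i + 1)) (Fin (i + 1)) ℂ).mulVec (toC (i + 1) x.2.1)), by
    intro h
    apply x.2.2
    apply toC_eq_zero
    have h1 : (x.1 : Matrix (Fin (i + 1)) (Fin (i + 1)) ℂ).mulVec (toC (i + 1) x.2.1) = 0 := by
      rw [← toC_ofC (i + 1)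
        ((x.1 : Matrix (Fin (i + 1)) (Fin (i + 1)) ℂ).mulVec (toC (i + 1) x.2.1)), h]
      funext l
      simp [toC]
    have h2 : toC (i + 1) x.2.1 = ((x.1⁻¹ : GLr (i + 1)) :
        Matrix (Fin (i + 1)) (Fin (i + 1)) ℂ).mulVec
          ((x.1 : Matrix (Fin (i + 1)) (Fin (i + 1)) ℂ).mulVec (toC (i + 1) x.2.1)) := by
      rw [Matrix.mulVec_mulVec, Units.inv_mul, Matrix.one_mulVec]
    rw [h2, h1, Matrix.mulVec_zero]⟩
  continuous_toFun := by
    apply Continuous.subtype_mk
    apply (continuous_ofC _).comp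
    exact (Units.continuous_val.comp continuous_fst).matrix_mulVec
      ((continuous_toC _).comp (continuous_subtype_val.comp continuous_snd))

theorem toC_actGL (i : ℕ) (g : GLr (i + 1)) (v : Pc (2 * (i + 1))) :
    toC (i + 1) (actGL i (g, v)).1 =
      (g : Matrix (Fin (i + 1)) (Fin (i + 1)) ℂ).mulVec (toC (i + 1) v.1) :=
  toC_ofC _ _

theorem actGL_one (i : ℕ) (v : Pc (2 * (i + 1))) : actGL i (1, v) = v := by
  apply Subtype.ext
  apply toC_inj
  rw [toC_actGL, Units.val_one, Matrix.one_mulVec]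

theorem actGL_mul (i : ℕ) (g h : GLr (i + 1)) (v : Pc (2 * (i + 1))) :
    actGL i (g * h, v) = actGL i (g, actGL i (h, v)) := by
  apply Subtype.ext
  apply toC_inj
  rw [toC_actGL, toC_actGL, toC_actGL, Units.val_mul, Matrix.mulVec_mulVec]

/-- the last basis vector -/
noncomputable def elast (i : ℕ) : Pc (2 * (i + 1)) :=
  ⟨ofC (i + 1) (Pi.single (Fin.last i) 1), by
    intro h
    have h1 := congrArg (toC (i + 1)) h
    rw [toC_ofC] at h1
    have h2 := congrFun h1 (Fin.last i)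
    simp [toC] at h2⟩

theorem lcol_eq (i : ℕ) (g : GLr (i + 1)) : lcol i g = actGL i (g, elast i) := by
  apply Subtype.ext
  apply toC_inj
  rw [toC_actGL]
  have e1 : toC (i + 1) (elast i).1 = Pi.single (Fin.last i) 1 := toC_ofC _ _
  have e2 : toC (i + 1) (lcol i g).1 =
      fun l => (g : Matrix (Fin (i + 1)) (Fin (i + 1)) ℂ) l (Fin.last i) :=
    toC_ofC (i + 1) fun l => (g : Matrix (Fin (i + 1)) (Fin (i + 1)) ℂ) l (Fin.last i)
  rw [e1, e2, Matrix.mulVec_single_one]
  rfl

theorem toC_lcol (i : ℕ) (g : GLr (i + 1)) (l : Fin (i + 1)) : toC (i + 1) (lcol i g).1 l =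
    (g : Matrix (Fin (i + 1)) (Fin (i + 1)) ℂ) l (Fin.last i) :=
  congrFun (toC_ofC (i + 1) fun l => (g : Matrix (Fin (i + 1)) (Fin (i + 1)) ℂ) l (Fin.last i)) l

theorem lcol_one (i : ℕ) : lcol i 1 = elast i := by rw [lcol_eq, actGL_one]

/-! ## Suslin's matrix over the ring of continuous functions -/

theorem exists_g0 (i : ℕ) : ∃ g0 : C(Pc (2 * (i + 1)), GLr (i + 1)), ∀ v l,
    (g0 v : Matrix (Fin (i + 1)) (Fin (i + 1)) ℂ) l (Fin.last i) =
      (toC (i + 1) v.1 l) ^ max 1 (l : ℕ) := by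
  have hS : ∀ v : Pc (2 * (i + 1)), ∑ k, toC (i + 1) v.1 k * star (toC (i + 1) v.1 k) ≠ 0 := by
    intro v h
    apply v.2
    apply toC_eq_zero
    have h1 : ∑ k, (Complex.normSq (toC (i + 1) v.1 k)) = 0 := by
      have h2 := congrArg Complex.re h
      rw [Complex.re_sum, Complex.zero_re] at h2
      rw [← h2]
      refine Finset.sum_congr rfl fun k _ => ?_
      have : toC (i + 1) v.1 k * star (toC (i + 1) v.1 k) =
        (Complex.normSq (toC (i + 1) v.1 k) : ℂ) := Complex.mul_conj _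
      rw [this, Complex.ofReal_re]
    funext k
    have h3 := (Finset.sum_eq_zero_iff_of_nonneg fun k _ => Complex.normSq_nonneg _).1 h1 k
      (Finset.mem_univ k)
    exact Complex.normSq_eq_zero.1 h3
  have hc : ∀ k, Continuous fun v : Pc (2 * (i + 1)) => toC (i + 1) v.1 k := fun k =>
    (continuous_apply k).comp ((continuous_toC _).comp continuous_subtype_val)
  let a : Fin (i + 1) → C(Pc (2 * (i + 1)), ℂ) := fun j => ⟨fun v => toC (i + 1) v.1 j, hc j⟩
  let b : Fin (i + 1) → C(Pc (2 * (i + 1)), ℂ) := fun j =>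
    ⟨fun v => star (toC (i + 1) v.1 j) /
      ∑ k, toC (i + 1) v.1 k * star (toC (i + 1) v.1 k),
      ((hc j).star).div (continuous_finsetSum _ fun k _ => (hc k).mul (hc k).star) hS⟩
  have hab : ∑ j, a j * b j = 1 := by
    ext v
    rw [ContinuousMap.sum_apply]
    change ∑ j, toC (i + 1) v.1 j * (star (toC (i + 1) v.1 j) /
      ∑ k, toC (i + 1) v.1 k * star (toC (i + 1) v.1 k)) = 1
    simp only [mul_div_assoc']
    rw [← Finset.sum_div, div_self (hS v)]
  obtain ⟨A, hA, hA0⟩ := suslin i a b hab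
  let ev : ∀ v : Pc (2 * (i + 1)), C(Pc (2 * (i + 1)), ℂ) →+* ℂ := fun v =>
    (Pi.evalRingHom (fun _ : Pc (2 * (i + 1)) => ℂ) v).comp ContinuousMap.coeFnRingHom
  have hev : ∀ v f, ev v f = f v := fun v f => rfl
  let M : C(Pc (2 * (i + 1)), Matrix (Fin (i + 1)) (Fin (i + 1)) ℂ) :=
    ⟨fun v => ((A.map (ev v)).transpose).submatrix id (Equiv.swap 0 (Fin.last i)), by
      refine continuous_matrix fun l c => ?_
      exact (A (Equiv.swap 0 (Fin.last i) c) l).continuous⟩
  have hM : ∀ v, (M v).det ≠ 0 := by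
    intro v
    change (((A.map (ev v)).transpose).submatrix id (Equiv.swap 0 (Fin.last i))).det ≠ 0
    rw [Matrix.det_permute', Matrix.det_transpose]
    apply mul_ne_zero
    · have := (Equiv.Perm.sign (Equiv.swap (0 : Fin (i + 1)) (Fin.last i))).isUnit
      exact_mod_cast this.ne_zero
    · have h2 : (A.map (ev v)).det = ev v A.det := ((ev v).map_det A).symm
      rw [h2]
      exact (hA.map (ev v)).ne_zero
  refine ⟨toGL M hM, fun v l => ?_⟩
  rw [toGL_val]
  change (A.map (ev v)) (Equiv.swap 0 (Fin.last i) (Fin.last i)) l = _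
  rw [Equiv.swap_apply_right, Matrix.map_apply, hA0, map_pow]
  rfl

/-! ## Faces of the fundamental cycle -/

theorem sface_sphF (n : ℕ) (i j : Fin (n + 2)) (h : i ≤ j) :
    sface n i (sphF (n + 1) j.succ) = sface n j (sphF (n + 1) i.castSucc) := by
  apply ContinuousMap.ext
  intro x
  apply Subtype.ext
  change Lmap (n + 1 + 1) (stdSimplex.map j.succ.succAbove (stdSimplex.map i.succAbove x)) =
    Lmap (n + 1 + 1) (stdSimplex.map i.castSucc.succAbove (stdSimplex.map j.succAbove x))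
  rw [stdSimplex.map_comp_apply, stdSimplex.map_comp_apply]
  congr 2
  funext k
  exact SymGrp.succAbove_comm' i j h k

theorem evm_fund (n : ℕ) (ω : Sing (Pc (n + 1)) n → ℤ) (p : C(Pc (n + 1), Pc (n + 1))) :
    evm ω (psh p n (fund n)) = ∑ k : Fin (n + 2), (-1 : ℤ) ^ (k : ℕ) * ω (p.comp (sphF n k)) := by
  unfold fund
  rw [map_sum, map_sum]
  refine Finset.sum_congr rfl fun k _ => ?_
  rw [map_smul, map_smul, Sph.psh_single, evm, linearCombination_single, one_smul, smul_eq_mul]

theorem exists_alpha_of (i : ℕ) (hdeg : ∀ p : C(Pc (2 * (i + 1)), Pc (2 * (i + 1))),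
      (∀ v j, toC (i + 1) (p v).1 j = (toC (i + 1) v.1 j) ^ max 1 (j : ℕ)) →
      ∃ c : ℤ, c ≠ 0 ∧
        IsBdy (2 * i + 1) (psh p (2 * i + 1) (fund (2 * i + 1)) - c • fund (2 * i + 1)))
    (ω : Sing (Pc (2 * (i + 1))) (2 * i + 1) → ℤ)
    (hω : dlt Pool.Agent.Helper922.HB.Sc.sface (2 * i + 1) ω = 0) (h1 : evm ω (fund (2 * i + 1)) = 1) :
    ∃ α : Sing (GLr (i + 1)) (2 * i + 1), α ∈ (SingG (GLr (i + 1))).N (2 * i) ∧
      ω ((lcol i).comp α) ≠ 0 := by
  obtain ⟨g0, hg0⟩ := exists_g0 i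
  obtain ⟨c, hc, hcb⟩ := hdeg ((lcol i).comp g0) (fun v j => by
    change toC (i + 1) (lcol i (g0 v)).1 j = _
    rw [toC_lcol, hg0])
  obtain ⟨ε, hε, hε0⟩ := prod_formula (GLr (i + 1)) (Pc (2 * (i + 1))) 1 (elast i) (actGL i)
    (actGL_one i) (2 * i) (even_two_mul i) (fun j hj => pc_acyc (2 * i + 1) j (by omega)) ω hω
  -- additivity
  have hadd : ∀ h ψ : (SingG (GLr (i + 1))).Γ (2 * i + 1), ψ ∈ (SingG (GLr (i + 1))).N (2 * i) →
      ω ((lcol i).comp (show Sing (GLr (i + 1)) (2 * i + 1) from h * ψ)) =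
        ω ((lcol i).comp (show Sing (GLr (i + 1)) (2 * i + 1) from h)) +
          ω ((lcol i).comp (show Sing (GLr (i + 1)) (2 * i + 1) from ψ)) := by
    intro h ψ hψ
    rw [SymGrp.mem_N] at hψ
    have e1 : (lcol i).comp (show Sing (GLr (i + 1)) (2 * i + 1) from h * ψ) =
        (actGL i).comp (ContinuousMap.prodMk (show Sing (GLr (i + 1)) (2 * i + 1) from h)
          ((lcol i).comp (show Sing (GLr (i + 1)) (2 * i + 1) from ψ))) := by
      apply ContinuousMap.ext
      intro x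
      change lcol i ((show Sing (GLr (i + 1)) (2 * i + 1) from h) x *
        (show Sing (GLr (i + 1)) (2 * i + 1) from ψ) x) = actGL i
          ((show Sing (GLr (i + 1)) (2 * i + 1) from h) x,
            lcol i ((show Sing (GLr (i + 1)) (2 * i + 1) from ψ) x))
      rw [lcol_eq, actGL_mul, ← lcol_eq]
    have e2 : (actGL i).comp (ContinuousMap.prodMk (show Sing (GLr (i + 1)) (2 * i + 1) from h)
        (ContinuousMap.const _ (elast i))) =
          (lcol i).comp (show Sing (GLr (i + 1)) (2 * i + 1) from h) := by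
      apply ContinuousMap.ext
      intro x
      exact (lcol_eq i _).symm
    rw [e1, hε, e2, Finset.sum_eq_zero]
    · ring
    · intro k _
      have e3 : sface (2 * i) k ((lcol i).comp (show Sing (GLr (i + 1)) (2 * i + 1) from ψ)) =
          ContinuousMap.const _ (elast i) := by
        have h2 : sface (2 * i) k (show Sing (GLr (i + 1)) (2 * i + 1) from ψ) =
          (1 : (SingG (GLr (i + 1))).Γ (2 * i)) := hψ k
        change (lcol i).comp (sface (2 * i) k (show Sing (GLr (i + 1)) (2 * i + 1) from ψ)) = _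
        rw [h2]
        apply ContinuousMap.ext
        intro x
        change lcol i 1 = elast i
        exact lcol_one i
      rw [e3, hε0, mul_zero]
  -- the matching family
  let t : Fin (2 * i + 3) → (SingG (GLr (i + 1))).Γ (2 * i + 1) :=
    fun k => g0.comp (sphF (2 * i + 1) k)
  have ht : (SingG (GLr (i + 1))).Mat (2 * i) t := by
    intro a b hab
    change g0.comp (sface (2 * i) a (sphF (2 * i + 1) b.succ)) =
      g0.comp (sface (2 * i) b (sphF (2 * i + 1) a.castSucc))
    rw [sface_sphF (2 * i) a b hab]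
  let w : Sing (GLr (i + 1)) (2 * i + 2) := (SingG (GLr (i + 1))).flr t ht
  have hw : ∀ k : Fin (2 * i + 2), sface (2 * i + 1) k.succ w = t k.succ := fun k =>
    (SingG (GLr (i + 1))).flr_spec t ht k
  let w0 : (SingG (GLr (i + 1))).Γ (2 * i + 1) := sface (2 * i + 1) 0 w
  have hN : w0⁻¹ * t 0 ∈ (SingG (GLr (i + 1))).N (2 * i) := by
    have h2 := (SingG (GLr (i + 1))).res_mem_N t ht _ ((SingG (GLr (i + 1))).flr_spec t ht)
    have h3 := (inferInstance : ((SingG (GLr (i + 1))).N (2 * i)).Normal).conj_mem _ h2 w0⁻¹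
    have h4 : w0⁻¹ * (t 0 * ((SingG (GLr (i + 1))).d (2 * i + 1) 0
      ((SingG (GLr (i + 1))).flr t ht))⁻¹) * w0⁻¹⁻¹ = w0⁻¹ * t 0 := by
      change w0⁻¹ * (t 0 * w0⁻¹) * w0⁻¹⁻¹ = w0⁻¹ * t 0
      group
    rw [h4] at h3
    exact h3
  refine ⟨w0⁻¹ * t 0, hN, ?_⟩
  have h2 := hadd w0 (w0⁻¹ * t 0) hN
  have h3 : w0 * (w0⁻¹ * t 0) = t 0 := by group
  rw [h3] at h2
  -- the cocycle condition
  have h4 : ∑ k : Fin (2 * i + 3), (-1 : ℤ) ^ (k : ℕ) *
      ω ((lcol i).comp (sface (2 * i + 1) k w)) = 0 := by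
    have h5 : dlt Pool.Agent.Helper922.HB.Sc.sface (2 * i + 1) ω ((lcol i).comp w) = 0 := by
      rw [hω]
      rfl
    refine (Finset.sum_congr rfl fun k _ => ?_).trans h5
    rw [smul_eq_mul]
    rfl
  have h5 : evm ω (psh ((lcol i).comp g0) (2 * i + 1) (fund (2 * i + 1))) = c := by
    have h6 := Alp.evm_bdy ω hω _ hcb
    rw [map_sub, map_smul, h1, sub_eq_zero] at h6
    rw [h6]
    simp
  have h6 : ∑ k : Fin (2 * i + 3), (-1 : ℤ) ^ (k : ℕ) *
      ω ((lcol i).comp (show Sing (GLr (i + 1)) (2 * i + 1) from t k)) = c := by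
    exact (evm_fund (2 * i + 1) ω ((lcol i).comp g0)).symm.trans h5
  rw [Fin.sum_univ_succ] at h4 h6
  have h7 : ∀ k : Fin (2 * i + 2), (-1 : ℤ) ^ (k.succ : ℕ) *
      ω ((lcol i).comp (sface (2 * i + 1) k.succ w)) = (-1 : ℤ) ^ (k.succ : ℕ) *
      ω ((lcol i).comp (show Sing (GLr (i + 1)) (2 * i + 1) from t k.succ)) := by
    intro k
    rw [hw k]
  rw [Finset.sum_congr rfl fun k _ => h7 k] at h4
  intro h8
  apply hc
  rw [h8, add_zero] at h2
  rw [h2] at h6
  rw [← h6]
  exact h4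

/-- spherical element of `GL_{i+1}(ℂ)` of nonzero degree -/
theorem exists_alpha (i : ℕ) (ω : Sing (Pc (2 * (i + 1))) (2 * i + 1) → ℤ)
    (hω : dlt Pool.Agent.Helper922.HB.Sc.sface (2 * i + 1) ω = 0) (h1 : evm ω (fund (2 * i + 1)) = 1) :
    ∃ α : Sing (GLr (i + 1)) (2 * i + 1), α ∈ (SingG (GLr (i + 1))).N (2 * i) ∧
      ω ((lcol i).comp α) ≠ 0 :=
  exists_alpha_of i (fun p hp => deg_pow i (fun j => max 1 (j : ℕ))
    (fun _ => lt_of_lt_of_le Nat.zero_lt_one (le_max_left _ _)) p hp) ω hω h1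

end Pool.Agent.H904R2
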