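import Mathlib

set_option autoImplicit false

namespace Pool.Agent.H904R2

open Topology

namespace BallAux

/-- the corner simplex -/
def S (n : ℕ) : Set (Fin n → ℝ) := {v | (∀ j, 0 ≤ v j) ∧ ∑ j, v j ≤ 1}

lemma S_closed (n : ℕ) : IsClosed (S n) := by
  have h1 : S n = (⋂ j, {v : Fin n → ℝ | 0 ≤ v j}) ∩ {v | ∑ j, v j ≤ 1} := by
    ext v; simp [S]
  rw [h1]
  refine IsClosed.inter (isClosed_iInter fun j => ?_) ?_
  · exact isClosed_le continuous_const (continuous_apply j)
  · exact isClosed_le (continuous_finsetSum _ fun j _ => continuous_apply j) continuous_const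

lemma S_convex (n : ℕ) : Convex ℝ (S n) := by
  intro x hx y hy a b ha hb hab
  refine ⟨fun j => ?_, ?_⟩
  · have := hx.1 j
    have := hy.1 j
    simp only [Pi.add_apply, Pi.smul_apply, smul_eq_mul]
    positivity
  · simp only [Pi.add_apply, Pi.smul_apply, smul_eq_mul, Finset.sum_add_distrib, ← Finset.mul_sum]
    have h1 := hx.2
    have h2 := hy.2
    nlinarith

lemma S_bounded (n : ℕ) : Bornology.IsBounded (S n) := by
  refine (Metric.isBounded_closedBall (x := (0 : Fin n → ℝ)) (r := 1)).subset ?_
  intro v hv
  rw [mem_closedBall_zero_iff, pi_norm_le_iff_of_nonneg zero_le_one]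
  intro j
  rw [Real.norm_eq_abs, abs_of_nonneg (hv.1 j)]
  exact (Finset.single_le_sum (fun i _ => hv.1 i) (Finset.mem_univ j)).trans hv.2

lemma S_interior (n : ℕ) : interior (S n) = {v | (∀ j, 0 < v j) ∧ ∑ j, v j < 1} := by
  apply Set.Subset.antisymm
  · intro v hv
    obtain ⟨ε, hε, hball⟩ := Metric.isOpen_iff.mp isOpen_interior v hv
    have hball' : Metric.ball v ε ⊆ S n := hball.trans interior_subset
    have key : ∀ (j : Fin n) (s : ℝ), |s| < ε → Function.update v j (v j + s) ∈ S n := by
      intro j s hs
      apply hball'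
      rw [Metric.mem_ball, dist_pi_lt_iff hε]
      intro i
      by_cases h : i = j
      · subst h
        rw [Function.update_self, Real.dist_eq]
        simpa using hs
      · rw [Function.update_of_ne h, dist_self]
        exact hε
    refine ⟨fun j => ?_, ?_⟩
    · have h1 := (key j (-(ε / 2)) (by rw [abs_neg, abs_of_pos (by positivity)]; linarith)).1 j
      rw [Function.update_self] at h1
      linarith
    · rcases Nat.eq_zero_or_pos n with h0 | h0
      · subst h0
        simp
      · have h1 := (key ⟨0, h0⟩ (ε / 2) (by rw [abs_of_pos (by positivity)]; linarith)).2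
        rw [Finset.sum_update_of_mem (Finset.mem_univ _)] at h1
        have h2 : ∑ j, v j = v ⟨0, h0⟩ + ∑ x ∈ Finset.univ \ {⟨0, h0⟩}, v x := by
          rw [add_comm, Finset.sum_eq_sum_sdiff_singleton_add (Finset.mem_univ _)]
        linarith
  · have hopen : IsOpen {v : Fin n → ℝ | (∀ j, 0 < v j) ∧ ∑ j, v j < 1} := by
      have h1 : {v : Fin n → ℝ | (∀ j, 0 < v j) ∧ ∑ j, v j < 1} =
          (⋂ j, {v : Fin n → ℝ | 0 < v j}) ∩ {v | ∑ j, v j < 1} := by
        ext v; simp
      rw [h1]
      refine IsOpen.inter (isOpen_iInter_of_finite fun j => ?_) ?_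
      · exact isOpen_lt continuous_const (continuous_apply j)
      · exact isOpen_lt (continuous_finsetSum _ fun j _ => continuous_apply j) continuous_const
    refine interior_maximal ?_ hopen
    intro v hv
    exact ⟨fun j => (hv.1 j).le, hv.2.le⟩

lemma S_interior_nonempty (n : ℕ) : (interior (S n)).Nonempty := by
  refine ⟨fun _ => 1 / (n + 1), ?_⟩
  rw [S_interior]
  refine ⟨fun j => by positivity, ?_⟩
  rw [Finset.sum_const, Finset.card_univ, Fintype.card_fin, nsmul_eq_mul, mul_one_div,
    div_lt_one (by positivity)]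
  linarith

end BallAux

open BallAux in
/-- the simplex is homeomorphic to the closed unit ball of `ℝ^n` (sup norm) -/
theorem exists_simplex_ball (n : ℕ) : ∃ φ : C(stdSimplex ℝ (Fin (n + 1)), Fin n → ℝ),
    Function.Injective φ ∧ Set.range φ = Metric.closedBall (0 : Fin n → ℝ) 1 ∧
      ∀ t, (∃ i, t.1 i = 0) ↔ φ t ∈ Metric.sphere (0 : Fin n → ℝ) 1 := by
  obtain ⟨h, h1, h2, h3⟩ := exists_homeomorph_image_interior_closure_frontier_eq_unitBall
    (S_convex n) (S_interior_nonempty n) (S_bounded n)
  let p : C(stdSimplex ℝ (Fin (n + 1)), Fin n → ℝ) :=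
    ⟨fun t j => t.1 j.succ,
      continuous_pi fun j => (continuous_apply j.succ).comp continuous_subtype_val⟩
  have hsum : ∀ t : stdSimplex ℝ (Fin (n + 1)), t.1 0 + ∑ j, p t j = 1 := by
    intro t
    have := t.2.2
    rw [Fin.sum_univ_succ] at this
    exact this
  have hpinj : Function.Injective p := by
    intro s t hst
    apply Subtype.ext
    funext i
    refine Fin.cases ?_ (fun j => ?_) i
    · have e1 := hsum s
      have e2 := hsum t
      rw [hst] at e1
      linarith
    · exact congrFun hst j
  have hprange : Set.range p = S n := by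
    apply Set.Subset.antisymm
    · rintro _ ⟨t, rfl⟩
      refine ⟨fun j => t.2.1 _, ?_⟩
      have := hsum t
      have h0 := t.2.1 0
      linarith
    · intro v hv
      refine ⟨⟨Fin.cons (1 - ∑ j, v j) v, ?_, ?_⟩, ?_⟩
      · intro i
        refine Fin.cases ?_ (fun j => ?_) i
        · rw [Fin.cons_zero]
          linarith [hv.2]
        · rw [Fin.cons_succ]
          exact hv.1 j
      · rw [Fin.sum_univ_succ]
        simp
      · funext j
        simp [p]
  refine ⟨⟨fun t => h (p t), h.continuous.comp p.continuous⟩, ?_, ?_, ?_⟩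
  · exact h.injective.comp hpinj
  · have : Set.range (fun t => h (p t)) = h '' (Set.range p) := by
      rw [← Set.range_comp]
      rfl
    show Set.range (fun t => h (p t)) = _
    rw [this, hprange, ← (S_closed n).closure_eq]
    exact h2
  · intro t
    show _ ↔ h (p t) ∈ _
    rw [← h3, h.injective.mem_set_image, (S_closed n).frontier_eq, Set.mem_sdiff, S_interior]
    constructor
    · rintro ⟨i, hi⟩
      refine ⟨by rw [← hprange]; exact ⟨t, rfl⟩, ?_⟩
      rintro ⟨ha, hb⟩
      revert hi
      refine Fin.cases ?_ (fun j => ?_) i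
      · intro hi
        have := hsum t
        rw [hi] at this
        linarith
      · intro hi
        have := ha j
        have h5 : p t j = t.1 j.succ := rfl
        rw [h5, hi] at this
        exact lt_irrefl _ this
    · rintro ⟨_, hno⟩
      by_contra hcon
      push Not at hcon
      apply hno
      have hpos : ∀ i, 0 < t.1 i := fun i => lt_of_le_of_ne (t.2.1 i) (hcon i).symm
      refine ⟨fun j => hpos _, ?_⟩
      have := hsum t
      have := hpos 0
      linarith

end Pool.Agent.H904R2
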