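import Pool.Agent.H904R2.Defs2

/-! Vector bundle from an idempotent-valued map. -/

set_option autoImplicit false

namespace Pool.Agent.H904R2

open Pool.Agent.Helper922.HB.Sc (Sing sface altd bd sbd)
open Topology

section T13

open Bundle

variable {κ : Type} [Fintype κ] {r : ℕ}

/-- the local coordinate matrix -/
def locM (p : PF κ r) (A : Matrix κ κ ℂ) : Matrix (Fin r) (Fin r) ℂ := p.1.2 * A * p.1.1

theorem locM_eq (p a : PF κ r) : locM p a.P = (p.1.2 * a.1.1) * (a.1.2 * p.1.1) := by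
  unfold locM PF.P
  simp only [Matrix.mul_assoc]

theorem locM_self (a : PF κ r) : locM a a.P = 1 := by
  rw [locM_eq, a.2, Matrix.one_mul]

theorem locM_det (p a : PF κ r) (h : (locM p a.P).det ≠ 0) :
    IsUnit (p.1.2 * a.1.1).det ∧ IsUnit (a.1.2 * p.1.1).det := by
  rw [locM_eq, Matrix.det_mul] at h
  exact ⟨isUnit_iff_ne_zero.2 (left_ne_zero_of_mul h), isUnit_iff_ne_zero.2 (right_ne_zero_of_mul h)⟩

/-- matrix of the change of coordinates -/
noncomputable def chM (p p' : PF κ r) (A : Matrix κ κ ℂ) : Matrix (Fin r) (Fin r) ℂ :=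
  p'.1.2 * A * p.1.1 * (locM p A)⁻¹

theorem chM_eq (p p' a : PF κ r) (h : (locM p a.P).det ≠ 0) :
    chM p p' a.P = (p'.1.2 * a.1.1) * (p.1.2 * a.1.1)⁻¹ := by
  obtain ⟨h1, h2⟩ := locM_det p a h
  have h3 : p'.1.2 * a.P * p.1.1 = (p'.1.2 * a.1.1) * (a.1.2 * p.1.1) := by
    unfold PF.P
    simp only [Matrix.mul_assoc]
  rw [chM, h3, locM_eq, Matrix.mul_inv_rev, Matrix.mul_assoc, ← Matrix.mul_assoc (a.1.2 * p.1.1),
    Matrix.mul_nonsing_inv _ h2, Matrix.one_mul]

/-- matrix to continuous linear map -/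
noncomputable def matC : Matrix (Fin r) (Fin r) ℂ →ₗ[ℂ] ((Fin r → ℂ) →L[ℂ] (Fin r → ℂ)) :=
  (LinearMap.toContinuousLinearMap :
    ((Fin r → ℂ) →ₗ[ℂ] (Fin r → ℂ)) ≃ₗ[ℂ] ((Fin r → ℂ) →L[ℂ] (Fin r → ℂ))).toLinearMap ∘ₗ
    (Matrix.toLin' : Matrix (Fin r) (Fin r) ℂ ≃ₗ[ℂ] ((Fin r → ℂ) →ₗ[ℂ] (Fin r → ℂ))).toLinearMap

theorem matC_apply (M : Matrix (Fin r) (Fin r) ℂ) (v : Fin r → ℂ) : matC M v = M.mulVec v := rfl

theorem continuous_matC : Continuous (matC (r := r)) :=
  LinearMap.continuous_of_finiteDimensional _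

theorem continuousOn_inv {X : Type} [TopologicalSpace X] (g : X → Matrix (Fin r) (Fin r) ℂ)
    (hg : Continuous g) : ContinuousOn (fun x => (g x)⁻¹) {x | (g x).det ≠ 0} := by
  have e : (fun x => (g x)⁻¹) = fun x => ((g x).det)⁻¹ • (g x).adjugate := by
    funext x
    rw [Matrix.inv_def, Ring.inverse_eq_inv']
  rw [e]
  exact (ContinuousOn.inv₀ hg.matrix_det.continuousOn (fun x hx => hx)).smul
    hg.matrix_adjugate.continuousOn

variable {X : Type} [TopologicalSpace X]

theorem continuous_locM (f : C(X, Matrix κ κ ℂ)) (p : PF κ r) :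
    Continuous (fun x => locM p (f x)) :=
  (continuous_const.matrix_mul f.continuous).matrix_mul continuous_const

/-- the vector bundle core -/
noncomputable def vcore (f : C(X, Matrix κ κ ℂ)) (hf : ∀ x, ∃ p : PF κ r, p.P = f x) :
    VectorBundleCore ℂ X (Fin r → ℂ) (PF κ r) where
  baseSet p := {x | (locM p (f x)).det ≠ 0}
  isOpen_baseSet p := isOpen_ne_fun (continuous_locM f p).matrix_det continuous_const
  indexAt x := (hf x).choose
  mem_baseSet_at x := by
    change (locM (hf x).choose (f x)).det ≠ 0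
    nth_rewrite 2 [← (hf x).choose_spec]
    rw [locM_self, Matrix.det_one]
    exact one_ne_zero
  coordChange p p' x := matC (chM p p' (f x))
  coordChange_self p x hx v := by
    obtain ⟨a, ha⟩ := hf x
    rw [Set.mem_ofPred_eq, ← ha] at hx
    rw [matC_apply, ← ha, chM_eq p p a hx, Matrix.mul_nonsing_inv _ (locM_det p a hx).1,
      Matrix.one_mulVec]
  continuousOn_coordChange p p' := by
    refine continuous_matC.comp_continuousOn ?_
    refine ContinuousOn.mono ?_ Set.inter_subset_left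
    have h1 : ContinuousOn (fun x => p'.1.2 * f x * p.1.1) {x | (locM p (f x)).det ≠ 0} :=
      ((continuous_const.matrix_mul f.continuous).matrix_mul continuous_const).continuousOn
    exact h1.mul (continuousOn_inv _ (continuous_locM f p))
  coordChange_comp p p' p'' x hx v := by
    obtain ⟨a, ha⟩ := hf x
    obtain ⟨⟨h1, h2⟩, h3⟩ := hx
    rw [Set.mem_ofPred_eq, ← ha] at h1 h2 h3
    rw [matC_apply, matC_apply, matC_apply, ← ha, chM_eq _ _ a h1, chM_eq _ _ a h2, chM_eq _ _ a h1,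
      Matrix.mulVec_mulVec, Matrix.mul_assoc, ← Matrix.mul_assoc (p'.1.2 * a.1.1)⁻¹,
      Matrix.nonsing_inv_mul _ (locM_det p' a h2).1, Matrix.one_mul]

/-- the map from the total space to `κ`-vectors -/
noncomputable def tot (f : C(X, Matrix κ κ ℂ)) (hf : ∀ x, ∃ p : PF κ r, p.P = f x)
    (z : TotalSpace (Fin r → ℂ) (vcore f hf).Fiber) : κ → ℂ :=
  (hf z.1).choose.1.1.mulVec z.2

theorem fix_aux (a : PF κ r) (A : Matrix κ κ ℂ) (ha : a.P = A) (v : Fin r → ℂ) :
    A.mulVec (a.1.1.mulVec v) = a.1.1.mulVec v := by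
  rw [← ha, Matrix.mulVec_mulVec, a.P_mul_fst]

theorem tot_aux (a p : PF κ r) (A : Matrix κ κ ℂ) (ha : a.P = A) (hz : (locM p A).det ≠ 0)
    (v : Fin r → ℂ) :
    a.1.1.mulVec v = (A * p.1.1 * (locM p A)⁻¹).mulVec (matC (chM a p A) v) := by
  rw [matC_apply, ← ha, Matrix.mulVec_mulVec]
  rw [← ha] at hz
  have h1 : (locM a a.P).det ≠ 0 := by
    rw [locM_self, Matrix.det_one]
    exact one_ne_zero
  obtain ⟨h2, h3⟩ := locM_det p a hz
  rw [chM_eq a p a h1, a.2, inv_one, Matrix.mul_one, locM_eq, Matrix.mul_inv_rev]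
  have h4 : a.P * p.1.1 * ((a.1.2 * p.1.1)⁻¹ * (p.1.2 * a.1.1)⁻¹) * (p.1.2 * a.1.1) = a.1.1 := by
    have h5 : a.P * p.1.1 = a.1.1 * (a.1.2 * p.1.1) := by
      unfold PF.P
      simp only [Matrix.mul_assoc]
    rw [h5, Matrix.mul_assoc a.1.1, ← Matrix.mul_assoc (a.1.2 * p.1.1),
      Matrix.mul_nonsing_inv _ h3, Matrix.one_mul, Matrix.mul_assoc,
      Matrix.nonsing_inv_mul _ h2, Matrix.mul_one]
  rw [h4]

theorem tot_eq (f : C(X, Matrix κ κ ℂ)) (hf : ∀ x, ∃ p : PF κ r, p.P = f x)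
    (z : TotalSpace (Fin r → ℂ) (vcore f hf).Fiber) (p : PF κ r)
    (hz : (locM p (f z.1)).det ≠ 0) :
    tot f hf z = (f z.1 * p.1.1 * (locM p (f z.1))⁻¹).mulVec (((vcore f hf).localTriv p z).2) :=
  tot_aux _ _ _ (hf z.1).choose_spec hz z.2

theorem continuous_tot (f : C(X, Matrix κ κ ℂ)) (hf : ∀ x, ∃ p : PF κ r, p.P = f x) :
    Continuous (tot f hf) := by
  rw [continuous_iff_continuousAt]
  intro z
  let p := (vcore f hf).indexAt z.1
  have hz : z ∈ ((vcore f hf).localTriv p).source := (vcore f hf).mem_source_at z.1 z.2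
  have ho : ((vcore f hf).localTriv p).source ∈ 𝓝 z := ((vcore f hf).localTriv p).open_source.mem_nhds hz
  have hc : ContinuousOn (fun z : TotalSpace (Fin r → ℂ) (vcore f hf).Fiber =>
      (f z.1 * p.1.1 * (locM p (f z.1))⁻¹).mulVec (((vcore f hf).localTriv p z).2))
      ((vcore f hf).localTriv p).source := by
    have h1 : Continuous (fun z : TotalSpace (Fin r → ℂ) (vcore f hf).Fiber => z.1) :=
      FiberBundle.continuous_proj (Fin r → ℂ) (vcore f hf).Fiber
    have h2 : ContinuousOn (fun z : TotalSpace (Fin r → ℂ) (vcore f hf).Fiber => (locM p (f z.1))⁻¹)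
        ((vcore f hf).localTriv p).source := by
      refine (continuousOn_inv _ (continuous_locM f p)).comp h1.continuousOn ?_
      intro w hw
      exact hw
    have h3 : Continuous (fun z : TotalSpace (Fin r → ℂ) (vcore f hf).Fiber => f z.1 * p.1.1) :=
      (f.continuous.comp h1).matrix_mul continuous_const
    have h4 : ContinuousOn (fun z : TotalSpace (Fin r → ℂ) (vcore f hf).Fiber => ((vcore f hf).localTriv p z).2)
        ((vcore f hf).localTriv p).source :=
      continuous_snd.comp_continuousOn ((vcore f hf).localTriv p).continuousOn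
    have h5 : ContinuousOn (fun z : TotalSpace (Fin r → ℂ) (vcore f hf).Fiber =>
        f z.1 * p.1.1 * (locM p (f z.1))⁻¹) ((vcore f hf).localTriv p).source := by
      refine continuousOn_iff_continuous_domRestrict.2 ?_
      exact (continuousOn_iff_continuous_domRestrict.1 h3.continuousOn).matrix_mul
        (continuousOn_iff_continuous_domRestrict.1 h2)
    refine continuousOn_iff_continuous_domRestrict.2 ?_
    exact (continuousOn_iff_continuous_domRestrict.1 h5).matrix_mulVec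
      (continuousOn_iff_continuous_domRestrict.1 h4)
  refine (hc.continuousAt ho).congr ?_
  filter_upwards [ho] with w hw
  exact (tot_eq f hf w p hw).symm

theorem bundle_main {X : Type} [TopologicalSpace X] {κ : Type} [Fintype κ] [DecidableEq κ] {r : ℕ}
    (f : C(X, Matrix κ κ ℂ)) (hf : ∀ x, ∃ p : PF κ r, p.P = f x) :
    ∃ (E : X → Type) (_ : TopologicalSpace (TotalSpace (Fin r → ℂ) E))
      (_ : ∀ x, AddCommGroup (E x)) (_ : ∀ x, Module ℂ (E x)) (_ : ∀ x, TopologicalSpace (E x))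
      (_ : FiberBundle (Fin r → ℂ) E) (_ : VectorBundle ℂ (Fin r → ℂ) E),
      ∀ k : ℕ, ∃ h : C(FrE r E (k + 1), WF (k + 1) f), (∀ w, prW f (h w) = prE r E k w) ∧
        ∀ (x : X) (φ : (Fin r → ℂ) ≃L[ℂ] E x), ∃ (p : PF κ r) (hp : p.P = f x),
          ∀ w, h (fibE r E k x φ w) = fibW f x p hp (k + 1) w := by
  refine ⟨(vcore f hf).Fiber, inferInstance, inferInstance, inferInstance, inferInstance,
    inferInstance, inferInstance, ?_⟩
  intro k
  refine ⟨⟨fun w => ⟨(w.1.1, fun j => (hf w.1.1).choose.1.1.mulVec (w.1.2 j)), ?_, ?_⟩, ?_⟩,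
    fun w => rfl, ?_⟩
  · exact li_mulVec (hf w.1.1).choose.1.1 (hf w.1.1).choose.1.2 (hf w.1.1).choose.2 w.1.2 w.2
  · intro j
    exact fix_aux (hf w.1.1).choose (f w.1.1) (hf w.1.1).choose_spec (w.1.2 j)
  · apply Continuous.subtype_mk
    have h0 : Continuous (fun (w : FrE r (vcore f hf).Fiber (k + 1)) (j : Fin (k + 1)) =>
        (⟨w.1.1, w.1.2 j⟩ : TotalSpace (Fin r → ℂ) (vcore f hf).Fiber)) := continuous_induced_dom
    refine Continuous.prodMk (prE r (vcore f hf).Fiber k).continuous (continuous_pi fun j => ?_)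
    exact (continuous_tot f hf).comp ((continuous_apply j).comp h0)
  · intro x φ
    have ha := (hf x).choose_spec
    let φ' : (Fin r → ℂ) ≃ₗ[ℂ] (Fin r → ℂ) := φ.toLinearEquiv
    let g : GLr r := ⟨LinearMap.toMatrix' φ'.toLinearMap, LinearMap.toMatrix' φ'.symm.toLinearMap,
      by rw [← LinearMap.toMatrix'_comp, LinearEquiv.comp_coe, LinearEquiv.symm_trans_self]
         exact LinearMap.toMatrix'_id,
      by rw [← LinearMap.toMatrix'_comp, LinearEquiv.comp_coe, LinearEquiv.self_trans_symm]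
         exact LinearMap.toMatrix'_id⟩
    refine ⟨(hf x).choose.act g, by rw [PF.P_act, ha], ?_⟩
    intro w
    apply Subtype.ext
    refine Prod.ext rfl ?_
    funext j
    change (hf x).choose.1.1.mulVec (φ' (w.1 j)) =
      ((hf x).choose.1.1 * LinearMap.toMatrix' φ'.toLinearMap).mulVec (w.1 j)
    rw [← Matrix.mulVec_mulVec]
    congr 1
    exact (LinearMap.toMatrix'_mulVec φ'.toLinearMap (w.1 j)).symm

end T13

end Pool.Agent.H904R2
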