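import Pool.Agent.H904R2.CellC

/-! Task 6: relative homology of attaching a cell. -/

set_option autoImplicit false

namespace Pool.Agent.H904R2

open Finsupp
open Pool.Agent.Helper922.HB.Sc (Sing sface altd bd sbd)

universe u v w

/-- simplices in `Y`, together with the simplex `Φ` -/
def cellSet {X : Type u} [TopologicalSpace X] (Y : Set X) {n : ℕ} (Φ : Sing X n) (m : ℕ) :
    Set (Sing X m) :=
  {σ | Set.range σ ⊆ Y ∨ (⟨m, σ⟩ : Σ q, Sing X q) = ⟨n, Φ⟩}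

namespace Cell

open Prd Pool.Agent.Helper922.HB.Sc

variable {X : Type} [TopologicalSpace X] {Y : Set X} {n : ℕ} {Φ : Sing X n}

theorem Cs_cellSet {m : ℕ} {z : Ch X m} (hz : z ∈ Cs Y m) :
    z ∈ supported ℤ ℤ (cellSet Y Φ m) :=
  Finsupp.supported_mono (fun _ hσ => Or.inl hσ) hz

/-- push forward of `AA` -/
theorem psh_AA {m : ℕ} {A : Ch (Dl n) m} (hA : A ∈ AA n m) :
    psh Φ m A ∈ supported ℤ ℤ (cellSet Y Φ m) := by
  refine supported_map _ (psh Φ m) _ ?_ A hA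
  intro σ hσ
  rw [psh_single]
  apply Finsupp.single_mem_supported
  right
  cases hσ
  rfl

theorem Att.face_Y (h : Att Y n Φ) {m : ℕ} {A : Ch (Dl n) (m + 1)} (hA : A ∈ AA n (m + 1)) :
    sbd X m (psh Φ (m + 1) A) ∈ Cs Y m := by
  refine supported_map _ ((sbd X m).comp (psh Φ (m + 1))) _ ?_ A hA
  intro σ hσ
  rw [LinearMap.comp_apply, psh_single, sbd, bd_single]
  cases hσ
  refine Submodule.sum_mem _ fun i _ => Submodule.smul_mem _ _ (single_mem_Cs ?_ 1)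
  rintro _ ⟨t, rfl⟩
  apply h.hbd
  refine ⟨i, ?_⟩
  change (FunOnFinite.linearMap ℝ ℝ i.succAbove t.1) i = 0
  rw [FunOnFinite.linearMap_apply_apply]
  apply Finset.sum_eq_zero
  intro j hj
  simp only [Finset.mem_filter] at hj
  exact absurd hj.2 (Fin.succAbove_ne i j)

/-- decomposition of a chain supported in `cellSet` -/
theorem cell_decomp {m : ℕ} {z : Ch X m} (hz : z ∈ supported ℤ ℤ (cellSet Y Φ m)) :
    z ∈ Cs Y m ∨ m = n := by
  by_cases hmn : m = n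
  · exact Or.inr hmn
  · left
    refine Finsupp.supported_mono ?_ hz
    rintro σ (hσ | hσ)
    · exact hσ
    · exact absurd (congrArg Sigma.fst hσ) hmn

theorem cell_decomp_n {z : Ch X n} (hz : z ∈ supported ℤ ℤ (cellSet Y Φ n)) :
    ∃ y ∈ Cs Y n, ∃ a : ℤ, z = y + a • single Φ 1 := by
  have h1 : cellSet Y Φ n ⊆ {σ | Set.range σ ⊆ Y} ∪ {Φ} := by
    rintro σ (hσ | hσ)
    · exact Or.inl hσ
    · right
      cases hσ
      rfl
  have h2 := Finsupp.supported_mono (R := ℤ) (M := ℤ) h1 hz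
  rw [Finsupp.supported_union, Submodule.mem_sup] at h2
  obtain ⟨y, hy, b, hb, rfl⟩ := h2
  refine ⟨y, hy, b Φ, ?_⟩
  congr 1
  rw [Finsupp.mem_supported] at hb
  ext σ
  by_cases hσ : σ = Φ
  · subst hσ; simp
  · rw [Finsupp.smul_apply, Finsupp.single_eq_of_ne hσ, smul_zero]
    by_contra hne
    exact hσ (hb (Finsupp.mem_support_iff.2 hne))

/-- decomposition of the identity simplex -/
theorem id_decomp (n : ℕ) : ∃ e ∈ Cs (Di n) n, ∃ e' ∈ Cs (Db n) n, ∃ v : Ch (Dl n) (n + 1),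
    idc n = e + e' + sbd _ n v := by
  cases n with
  | zero =>
    refine ⟨idc 0, ?_, 0, Submodule.zero_mem _, 0, by simp⟩
    refine single_mem_Cs ?_ 1
    rintro _ ⟨t, rfl⟩
    change t ∈ Di 0
    have : t = bc 0 := Subsingleton.elim (α := stdSimplex ℝ (Fin 1)) _ _
    rw [this]
    exact bc_mem_Di 0
  | succ n =>
    have hd : sbd _ n (idc (n + 1)) ∈ Cs (Db (n + 1)) n := by
      rw [← inc_dl]
      exact psh_inc_mem _ _ _
    exact excise (isOpen_Db _) (isOpen_Di _) (cover_Dl _) n _ hd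

theorem Att.coef_zero [T2Space X] (h : Att Y n Φ) (z : Ch X (n + 1)) (y : Ch X n)
    (hy : y ∈ Cs Y n) (a : ℤ) (hz : sbd X n z = y + a • single Φ 1) : a = 0 := by
  obtain ⟨θ, h1, h2, h3⟩ := rel_coc n
  obtain ⟨e, he, e', he', v, hv⟩ := id_decomp n
  have hΦ : (single Φ 1 : Ch X n) = psh Φ n (idc n) := by
    rw [idc, psh_single]
    rfl
  have hθ : θ e = 1 := by
    rw [← h3, hv, map_add, map_add, h1 _ he', h2]
    simp
  obtain ⟨c1, c2⟩ := cover_two (W := WW Φ) (U := Yᶜ) Att.isOpen_WW h.hY.isOpen_compl h.cover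
  set z' : Ch X (n + 1) := z - a • psh Φ (n + 1) v with hz'
  set q : Ch X n := y + a • psh Φ n e' with hq
  have hqW : q ∈ Cs (WW Φ) n := Submodule.add_mem _ (Cs_mono h.sub n hy)
    (Submodule.smul_mem _ _ (h.psh_W he'))
  have heU : a • psh Φ n e ∈ Cs Yᶜ n :=
    Submodule.smul_mem _ _ (psh_Cs Φ (fun t ht => (h.mem_Di_iff t).1 ht) he)
  have hsb : sbd X n z' = q + a • psh Φ n e := by
    rw [hz', map_sub, map_smul, hz, hΦ, sbd_psh, hv, map_add, map_add, hq, smul_add, smul_add]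
    abel
  have hsm : sbd X n z' ∈ Finsupp.supported ℤ ℤ (smallSet {WW Φ, Yᶜ} n) := by
    rw [hsb]
    exact Submodule.add_mem _ (Cs_small_left hqW) (Cs_small_right heU)
  have hrho : sbd X n (rho {WW Φ, Yᶜ} (n + 1) z') = q + a • psh Φ n e := by
    rw [sbd_rho, rho_id _ _ _ hsm, hsb]
  obtain ⟨uU, hU, uW, hW, hu⟩ := small_decomp (n + 1) (rho_small {WW Φ, Yᶜ} c1 c2 (n + 1) z')
  rw [hu, map_add] at hrho
  obtain ⟨p, hp, rfl⟩ := h.lift_U hU
  have hmem : psh Φ n (a • e - sbd _ n p) ∈ Cs (WW Φ) n := by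
    have : psh Φ n (a • e - sbd _ n p) = sbd X n uW - q := by
      rw [map_sub, map_smul, ← sbd_psh]
      rw [← sub_eq_iff_eq_add'] at hrho
      rw [sub_eq_iff_eq_add, ← hrho]
      abel
    rw [this]
    exact Submodule.sub_mem _ (sbd_Cs hW) hqW
  have hin : a • e - sbd _ n p ∈ Cs (Di n) n :=
    Submodule.sub_mem _ (Submodule.smul_mem _ _ he) (sbd_Cs hp)
  have h5 := h1 _ (h.inj_W hin hmem)
  rw [map_sub, map_smul, hθ, h2] at h5
  simpa using h5

theorem Att.main_zero [T2Space X] (h : Att Y n Φ) (z : Ch X 0) :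
    ∃ y : Ch X 1, z - sbd X 0 y ∈ supported ℤ ℤ (cellSet Y Φ 0) := by
  obtain ⟨zU, hU, zW, hW, rfl⟩ := excise_zero (W := WW Φ) (U := Yᶜ) Att.isOpen_WW
    h.hY.isOpen_compl h.cover z
  obtain ⟨w, _, rfl⟩ := h.lift_U hU
  obtain ⟨y, u, hu, A, hA, rfl⟩ := rel_zero n w
  obtain ⟨y', hy'⟩ := h.retr_zero (psh Φ 0 u + zW) (Submodule.add_mem _ (h.psh_W hu) hW)
  refine ⟨psh Φ 1 y + y', ?_⟩
  have : psh Φ 0 (u + A + sbd _ 0 y) + zW - sbd X 0 (psh Φ 1 y + y') =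
      (psh Φ 0 u + zW - sbd X 0 y') + psh Φ 0 A := by
    rw [map_add, map_add, map_add, sbd_psh]
    abel
  rw [this]
  exact Submodule.add_mem _ (Cs_cellSet hy') (psh_AA hA)

theorem Att.main_succ [T2Space X] (h : Att Y n Φ) (m : ℕ) (z : Ch X (m + 1))
    (hz : sbd X m z ∈ supported ℤ ℤ (cellSet Y Φ m)) :
    ∃ y : Ch X (m + 2), z - sbd X (m + 1) y ∈ supported ℤ ℤ (cellSet Y Φ (m + 1)) := by
  have hzY : sbd X m z ∈ Cs Y m := by
    rcases cell_decomp hz with h1 | rfl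
    · exact h1
    · obtain ⟨y, hy, a, ha⟩ := cell_decomp_n hz
      have := h.coef_zero z y hy a ha
      rw [ha, this, zero_smul, add_zero]
      exact hy
  obtain ⟨zU, hU, zW, hW, y, rfl⟩ := excise (W := WW Φ) (U := Yᶜ) Att.isOpen_WW
    h.hY.isOpen_compl h.cover m z (Cs_mono h.sub m hzY)
  obtain ⟨w, hw, rfl⟩ := h.lift_U hU
  rw [map_add, map_add, sbd_sbd, add_zero] at hzY
  have hdw : sbd _ m w ∈ Cs (Db n) m := by
    apply h.inj_W (sbd_Cs hw)
    rw [← sbd_psh]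
    have := Submodule.sub_mem _ (Cs_mono h.sub m hzY) (sbd_Cs hW)
    rwa [add_sub_cancel_right] at this
  obtain ⟨y2, u, hu, A, hA, rfl⟩ := rel_succ n m w hdw
  have hq : sbd X m (psh Φ (m + 1) u + zW) ∈ Cs Y m := by
    have : sbd X m (psh Φ (m + 1) u + zW) =
        (sbd X m (psh Φ (m + 1) (u + A + sbd _ (m + 1) y2)) + sbd X m zW) -
          sbd X m (psh Φ (m + 1) A) := by
      rw [map_add (psh Φ (m + 1)), map_add (psh Φ (m + 1)), ← sbd_psh Φ (m + 1), map_add (sbd X m),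
        map_add (sbd X m), map_add (sbd X m), sbd_sbd]
      abel
    rw [this]
    exact Submodule.sub_mem _ hzY (h.face_Y hA)
  obtain ⟨y3, hy3⟩ := h.retr_succ m _ (Submodule.add_mem _ (h.psh_W hu) hW) hq
  refine ⟨y + psh Φ (m + 2) y2 + y3, ?_⟩
  have : psh Φ (m + 1) (u + A + sbd _ (m + 1) y2) + zW + sbd X (m + 1) y -
      sbd X (m + 1) (y + psh Φ (m + 2) y2 + y3) =
      (psh Φ (m + 1) u + zW - sbd X (m + 1) y3) + psh Φ (m + 1) A := by
    rw [map_add (psh Φ (m + 1)), map_add (psh Φ (m + 1)), ← sbd_psh Φ (m + 1),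
      map_add (sbd X (m + 1)), map_add (sbd X (m + 1))]
    abel
  rw [this]
  exact Submodule.add_mem _ (Cs_cellSet hy3) (psh_AA hA)

end Cell

/-- `X = Y ∪ (one n-cell)`: the relative homology of `(Sing X, Sing Y ∪ {Φ})` vanishes. -/
theorem cell_acyc {X : Type} [TopologicalSpace X] [T2Space X] (Y : Set X) (hY : IsClosed Y)
    (n : ℕ) (Φ : Sing X n) (hcov : Y ∪ Set.range Φ = Set.univ)
    (hbd : ∀ t : stdSimplex ℝ (Fin (n + 1)), (∃ i, t.1 i = 0) → Φ t ∈ Y)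
    (hint : ∀ t : stdSimplex ℝ (Fin (n + 1)), (∀ i, t.1 i ≠ 0) → Φ t ∉ Y)
    (hinj : ∀ s t : stdSimplex ℝ (Fin (n + 1)), (∀ i, s.1 i ≠ 0) → (∀ i, t.1 i ≠ 0) →
      Φ s = Φ t → s = t) :
    (∀ z : Ch X 0, ∃ y : Ch X 1, z - sbd X 0 y ∈ supported ℤ ℤ (cellSet Y Φ 0)) ∧
    ∀ (m : ℕ) (z : Ch X (m + 1)), sbd X m z ∈ supported ℤ ℤ (cellSet Y Φ m) →
      ∃ y : Ch X (m + 2), z - sbd X (m + 1) y ∈ supported ℤ ℤ (cellSet Y Φ (m + 1)) := by
  have h : Cell.Att Y n Φ := ⟨hY, hcov, hbd, hint, hinj⟩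
  exact ⟨h.main_zero, h.main_succ⟩

end Pool.Agent.H904R2
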