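import Pool.Agent.H904R2.Prod

/-! Task 6, part A: chains supported in subsets, excision, homology of simplices. -/

set_option autoImplicit false

namespace Pool.Agent.H904R2

open Finsupp
open Pool.Agent.Helper922.HB.Sc (Sing sface altd bd sbd)

namespace Cell

open Prd Pool.Agent.Helper922.HB.Sc

variable {X Y : Type} [TopologicalSpace X] [TopologicalSpace Y]

/-- chains supported in a subset -/
noncomputable def Cs (S : Set X) (m : ℕ) : Submodule ℤ (Ch X m) :=
  Finsupp.supported ℤ ℤ {σ : Sing X m | Set.range σ ⊆ S}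

theorem single_mem_Cs {S : Set X} {m : ℕ} {σ : Sing X m} (h : Set.range σ ⊆ S) (a : ℤ) :
    single σ a ∈ Cs S m := Finsupp.single_mem_supported ℤ _ h

theorem Cs_mono {S T : Set X} (h : S ⊆ T) (m : ℕ) : Cs S m ≤ Cs T m :=
  Finsupp.supported_mono fun _ hσ => hσ.trans h

theorem Cs_inter {S T : Set X} {m : ℕ} {z : Ch X m} (h1 : z ∈ Cs S m) (h2 : z ∈ Cs T m) :
    z ∈ Cs (S ∩ T) m := by
  rw [Cs, Finsupp.mem_supported] at *
  intro σ hσ
  exact Set.subset_inter (h1 hσ) (h2 hσ)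

theorem map_Cs {M : Type} [AddCommGroup M] {S : Set X} {m : ℕ} (L : Ch X m →ₗ[ℤ] M)
    (N : Submodule ℤ M) (h : ∀ σ : Sing X m, Set.range σ ⊆ S → L (single σ 1) ∈ N)
    {z : Ch X m} (hz : z ∈ Cs S m) : L z ∈ N :=
  supported_map _ L N h z hz

theorem sbd_Cs {S : Set X} {m : ℕ} {z : Ch X (m + 1)} (hz : z ∈ Cs S (m + 1)) :
    sbd X m z ∈ Cs S m := by
  refine map_Cs (sbd X m) _ ?_ hz
  intro σ hσ
  rw [sbd, bd_single]
  refine Submodule.sum_mem _ fun i _ => Submodule.smul_mem _ _ (single_mem_Cs ?_ 1)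
  exact (range_sface m i σ).trans hσ

theorem psh_Cs (f : C(X, Y)) {S : Set X} {T : Set Y} (hf : ∀ x ∈ S, f x ∈ T) {m : ℕ}
    {z : Ch X m} (hz : z ∈ Cs S m) : psh f m z ∈ Cs T m := by
  refine map_Cs (psh f m) _ ?_ hz
  intro σ hσ
  rw [psh_single]
  refine single_mem_Cs ?_ 1
  rintro _ ⟨x, rfl⟩
  exact hf _ (hσ ⟨x, rfl⟩)

theorem smallSet_single (S : Set X) (m : ℕ) :
    smallSet {S} m = {σ : Sing X m | Set.range σ ⊆ S} := by
  ext σ
  simp [smallSet]

theorem DD_Cs (𝒞 : Set (Set X)) {S : Set X} {m : ℕ} {z : Ch X m} (hz : z ∈ Cs S m) :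
    DD 𝒞 m z ∈ Cs S (m + 1) := by
  refine map_Cs (DD 𝒞 m) _ ?_ hz
  intro σ hσ
  rw [DD_single]
  refine Submodule.sum_mem _ fun i _ => ?_
  rw [Cs, ← smallSet_single]
  apply TS_small
  apply Sd_iter_small
  rw [smallSet_single]
  exact Finsupp.single_mem_supported ℤ _ hσ

/-- inclusion of a subset -/
def inc (S : Set X) : C(S, X) := ⟨Subtype.val, continuous_subtype_val⟩

theorem psh_inc_mem (S : Set X) (m : ℕ) (w : Ch S m) : psh (inc S) m w ∈ Cs S m := by
  refine psh_Cs (inc S) (S := Set.univ) (fun x _ => x.2) ?_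
  rw [Cs, Finsupp.mem_supported]
  intro σ _
  exact Set.subset_univ _

theorem psh_inc_inj (S : Set X) (m : ℕ) : Function.Injective (psh (inc S) m) := by
  apply Finsupp.mapDomain_injective
  intro σ τ h
  apply ContinuousMap.ext
  intro x
  exact Subtype.ext (congrArg (fun f : C(Dl m, X) => f x) h)

theorem exists_lift {S : Set X} {m : ℕ} {z : Ch X m} (hz : z ∈ Cs S m) :
    ∃ w : Ch S m, psh (inc S) m w = z := by
  have : z ∈ LinearMap.range (psh (inc S) m) := by
    refine map_Cs LinearMap.id (LinearMap.range (psh (inc S) m)) ?_ hz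
    intro σ hσ
    refine ⟨single (⟨fun x => ⟨σ x, hσ ⟨x, rfl⟩⟩, by fun_prop⟩ : Sing S m) 1, ?_⟩
    rw [psh_single]
    rfl
  exact this

/-- decomposition of small chains -/
theorem small_decomp {W U : Set X} (m : ℕ) {z : Ch X m}
    (hz : z ∈ Finsupp.supported ℤ ℤ (smallSet {W, U} m)) :
    ∃ zU ∈ Cs U m, ∃ zW ∈ Cs W m, z = zU + zW := by
  have h1 : (smallSet {W, U} m : Set (Sing X m)) ⊆
      {σ | Set.range σ ⊆ U} ∪ {σ | Set.range σ ⊆ W} := by
    rintro σ ⟨C, hC, h⟩
    rcases hC with rfl | hC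
    · exact Or.inr h
    · rw [Set.mem_singleton_iff] at hC
      subst hC
      exact Or.inl h
  have h2 := Finsupp.supported_mono (R := ℤ) (M := ℤ) h1 hz
  rw [Finsupp.supported_union, Submodule.mem_sup] at h2
  obtain ⟨a, ha, b, hb, hab⟩ := h2
  exact ⟨a, ha, b, hb, hab.symm⟩

theorem Cs_small_left {W U : Set X} {m : ℕ} {z : Ch X m} (hz : z ∈ Cs W m) :
    z ∈ Finsupp.supported ℤ ℤ (smallSet {W, U} m) := by
  refine Finsupp.supported_mono (R := ℤ) (M := ℤ) ?_ hz
  intro σ hσ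
  exact ⟨W, by simp, hσ⟩

theorem Cs_small_right {W U : Set X} {m : ℕ} {z : Ch X m} (hz : z ∈ Cs U m) :
    z ∈ Finsupp.supported ℤ ℤ (smallSet {W, U} m) := by
  refine Finsupp.supported_mono (R := ℤ) (M := ℤ) ?_ hz
  intro σ hσ
  exact ⟨U, by simp, hσ⟩

theorem cover_two {W U : Set X} (hW : IsOpen W) (hU : IsOpen U) (hWU : W ∪ U = Set.univ) :
    (∀ C ∈ ({W, U} : Set (Set X)), IsOpen C) ∧
      ∀ x : X, ∃ C ∈ ({W, U} : Set (Set X)), x ∈ C := by
  constructor
  · rintro C (rfl | hC)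
    · exact hW
    · rw [Set.mem_singleton_iff] at hC
      subst hC
      exact hU
  · intro x
    have : x ∈ W ∪ U := hWU ▸ Set.mem_univ x
    rcases this with h | h
    · exact ⟨W, by simp, h⟩
    · exact ⟨U, by simp, h⟩

/-- excision decomposition of a relative cycle -/
theorem excise {W U : Set X} (hW : IsOpen W) (hU : IsOpen U) (hWU : W ∪ U = Set.univ) (m : ℕ)
    (z : Ch X (m + 1)) (hz : sbd X m z ∈ Cs W m) :
    ∃ zU ∈ Cs U (m + 1), ∃ zW ∈ Cs W (m + 1), ∃ y : Ch X (m + 2),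
      z = zU + zW + sbd X (m + 1) y := by
  obtain ⟨h1, h2⟩ := cover_two hW hU hWU
  obtain ⟨zU, hzU, zW, hzW, h⟩ := small_decomp (m + 1) (rho_small {W, U} h1 h2 (m + 1) z)
  refine ⟨zU, hzU, zW + DD {W, U} m (sbd X m z), Submodule.add_mem _ hzW (DD_Cs _ hz),
    DD {W, U} (m + 1) z, ?_⟩
  rw [rho_succ] at h
  rw [← add_assoc, ← h]
  abel

theorem excise_zero {W U : Set X} (hW : IsOpen W) (hU : IsOpen U) (hWU : W ∪ U = Set.univ)
    (z : Ch X 0) : ∃ zU ∈ Cs U 0, ∃ zW ∈ Cs W 0, z = zU + zW := by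
  obtain ⟨h1, h2⟩ := cover_two hW hU hWU
  exact small_decomp 0 (rho_small {W, U} h1 h2 0 z)

/-! acyclicity of simplices -/

theorem sub_sbd {V : Type} [TopologicalSpace V] [Subsingleton V] (v : V) (m : ℕ) :
    sbd V m (single (ContinuousMap.const _ v) 1) =
      (if Even m then (0 : ℤ) else 1) • single (ContinuousMap.const _ v) 1 := by
  rw [sbd, bd_single]
  have h : ∀ i : Fin (m + 2), sface m i (ContinuousMap.const _ v : Sing V (m + 1)) =
      ContinuousMap.const _ v := fun i => rfl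
  simp only [h]
  rw [← Finset.sum_smul, Fin.sum_univ_eq_sum_range (fun i => (-1 : ℤ) ^ i) (m + 2),
    neg_one_geom_sum]
  congr 1
  simp only [Nat.even_add, even_two, iff_true]

theorem racyc_sub {V : Type} [TopologicalSpace V] [Subsingleton V] (m : ℕ) :
    RAcyc V m := by
  intro z hz
  rcases isEmpty_or_nonempty V with hV | ⟨⟨v⟩⟩
  · have : z = 0 := by
      ext σ
      exact hV.elim (σ (vert m 0))
    exact ⟨0, by rw [map_zero, this]⟩
  have hall : ∀ (m : ℕ) (z : Ch V m), ∃ k : ℤ, z = k • single (ContinuousMap.const _ v) 1 := by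
    intro m z
    refine ⟨z (ContinuousMap.const _ v), ?_⟩
    ext σ
    have : σ = ContinuousMap.const _ v := by
      apply ContinuousMap.ext
      intro x
      exact Subsingleton.elim _ _
    rw [this]
    simp
  obtain ⟨k, hk⟩ := hall m z
  cases m with
  | zero =>
    change z.sum (fun _ a => a) = 0 at hz
    rw [hk, Finsupp.smul_single, Finsupp.sum_single_index rfl] at hz
    simp only [smul_eq_mul, mul_one] at hz
    exact ⟨0, by rw [map_zero, hk, hz, zero_smul]⟩
  | succ m =>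
    change sbd V m z = 0 at hz
    rw [hk, map_smul, sub_sbd] at hz
    by_cases hm : Even m
    · refine ⟨k • single (ContinuousMap.const _ v) 1, ?_⟩
      rw [map_smul, sub_sbd, if_neg (by simp [Nat.even_add_one, hm]), one_smul, hk]
    · rw [if_neg hm, one_smul] at hz
      have h2 := DFunLike.congr_fun hz (ContinuousMap.const _ v)
      simp only [Finsupp.smul_apply, Finsupp.single_eq_same, smul_eq_mul, mul_one,
        Finsupp.coe_zero, Pi.zero_apply] at h2
      exact ⟨0, by rw [map_zero, hk, h2, zero_smul]⟩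

theorem racyc_Dl (n m : ℕ) : RAcyc (Dl n) m := by
  intro z hz
  have h1 := racyc_contr (V := Unit) n m (racyc_sub m) _
    (isCyc_psh ((ContinuousMap.id (Dl n)).prodMk (ContinuousMap.const _ ())) m z hz)
  have h2 := isBdy_psh (Y := Dl n) ContinuousMap.fst m _ h1
  rw [psh_psh] at h2
  have h3 : (ContinuousMap.fst : C(Dl n × Unit, Dl n)).comp
    ((ContinuousMap.id (Dl n)).prodMk (ContinuousMap.const _ ())) = ContinuousMap.id _ := rfl
  rwa [h3, psh_id] at h2

end Cell

end Pool.Agent.H904R2
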