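import Pool.Agent.H904R2.Base

/-!
# Task T3 (helper461): singular homology of punctured Euclidean spaces
-/

set_option autoImplicit false

namespace Pool.Agent.H904R2.Sph

open Finsupp
open Pool.Agent.Helper922.HB.Sc (Sing sface altd bd sbd bd_single bd_bd sface_sface sbd_sbd
  supported_map single_mem_supported' ev_altd altd_eq_ev rho rho_small rho_id sbd_rho rho_succ DD
  smallSet PD sbd_PD sbd_PD_zero slice cpush)

universe u v w

section general

variable {X : Type u} {Y : Type v} {Z : Type w} [TopologicalSpace X] [TopologicalSpace Y]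
  [TopologicalSpace Z]

theorem psh_single (f : C(X, Y)) (m : ℕ) (σ : Sing X m) (a : ℤ) :
    psh f m (single σ a) = single (f.comp σ) a := by
  simp [psh]

theorem sbd_single (m : ℕ) (σ : Sing X (m + 1)) : sbd X m (single σ 1) =
    ∑ i : Fin (m + 2), ((-1 : ℤ) ^ (i : ℕ)) • single (sface m i σ) (1 : ℤ) := bd_single _ m σ

theorem sbd_psh (f : C(X, Y)) (m : ℕ) (z : Ch X (m + 1)) :
    sbd Y m (psh f (m + 1) z) = psh f m (sbd X m z) := by
  have : (sbd Y m).comp (psh f (m + 1)) = (psh f m).comp (sbd X m) := by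
    apply Finsupp.lhom_ext'
    intro σ
    apply LinearMap.ext_ring
    simp only [LinearMap.comp_apply, lsingle_apply]
    rw [psh_single, sbd_single, sbd_single, map_sum]
    refine Finset.sum_congr rfl fun i _ => ?_
    rw [map_smul, psh_single]
    rfl
  exact LinearMap.congr_fun this z

theorem psh_comp (f : C(X, Y)) (g : C(Y, Z)) (m : ℕ) (z : Ch X m) :
    psh g m (psh f m z) = psh (g.comp f) m z := by
  have : (psh g m).comp (psh f m) = psh (g.comp f) m := by
    apply Finsupp.lhom_ext'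
    intro σ
    apply LinearMap.ext_ring
    simp only [LinearMap.comp_apply, lsingle_apply]
    rw [psh_single, psh_single, psh_single]
    rfl
  exact LinearMap.congr_fun this z

theorem psh_id (m : ℕ) (z : Ch X m) : psh (ContinuousMap.id X) m z = z := by
  have : psh (ContinuousMap.id X) m = LinearMap.id := by
    apply Finsupp.lhom_ext'
    intro σ
    apply LinearMap.ext_ring
    simp only [LinearMap.comp_apply, lsingle_apply]
    rw [psh_single]
    rfl
  rw [this]; rfl

/-- augmentation -/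
noncomputable def aug (X : Type u) [TopologicalSpace X] (m : ℕ) : Ch X m →ₗ[ℤ] ℤ :=
  Finsupp.linearCombination ℤ (fun _ => (1 : ℤ))

theorem aug_single (m : ℕ) (σ : Sing X m) (a : ℤ) : aug X m (single σ a) = a := by
  simp [aug]

theorem sum_eq_aug (m : ℕ) (z : Ch X m) : z.sum (fun _ a => a) = aug X m z := by
  simp [aug, Finsupp.linearCombination_apply]

theorem aug_sbd (z : Ch X 1) : aug X 0 (sbd X 0 z) = 0 := by
  have : (aug X 0).comp (sbd X 0) = 0 := by
    apply Finsupp.lhom_ext'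
    intro σ
    apply LinearMap.ext_ring
    simp only [LinearMap.comp_apply, lsingle_apply]
    rw [sbd_single, Fin.sum_univ_two, map_add, map_smul, map_smul, aug_single, aug_single]
    simp
  exact LinearMap.congr_fun this z

theorem aug_psh (f : C(X, Y)) (m : ℕ) (z : Ch X m) : aug Y m (psh f m z) = aug X m z := by
  have : (aug Y m).comp (psh f m) = aug X m := by
    apply Finsupp.lhom_ext'
    intro σ
    apply LinearMap.ext_ring
    simp only [LinearMap.comp_apply, lsingle_apply]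
    rw [psh_single, aug_single, aug_single]
  exact LinearMap.congr_fun this z

/-- the submodule of reduced cycles -/
noncomputable def cyc (X : Type u) [TopologicalSpace X] : ∀ m : ℕ, Submodule ℤ (Ch X m)
  | 0 => LinearMap.ker (aug X 0)
  | (m + 1) => LinearMap.ker (sbd X m)

theorem isCyc_iff {m : ℕ} {z : Ch X m} : IsCyc m z ↔ z ∈ cyc X m := by
  cases m with
  | zero =>
    change z.sum (fun _ a => a) = 0 ↔ aug X 0 z = 0
    rw [sum_eq_aug]
  | succ m => exact Iff.rfl

theorem isBdy_iff {m : ℕ} {z : Ch X m} : IsBdy m z ↔ z ∈ LinearMap.range (sbd X m) := Iff.rfl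

theorem cyc_add {m : ℕ} {z w : Ch X m} (hz : IsCyc m z) (hw : IsCyc m w) : IsCyc m (z + w) := by
  rw [isCyc_iff] at *; exact Submodule.add_mem _ hz hw

theorem cyc_sub {m : ℕ} {z w : Ch X m} (hz : IsCyc m z) (hw : IsCyc m w) : IsCyc m (z - w) := by
  rw [isCyc_iff] at *; exact Submodule.sub_mem _ hz hw

theorem cyc_neg {m : ℕ} {z : Ch X m} (hz : IsCyc m z) : IsCyc m (-z) := by
  rw [isCyc_iff] at *; exact Submodule.neg_mem _ hz

theorem cyc_smul {m : ℕ} {z : Ch X m} (hz : IsCyc m z) (a : ℤ) : IsCyc m (a • z) := by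
  rw [isCyc_iff] at *; exact Submodule.smul_mem _ a hz

theorem bdy_add {m : ℕ} {z w : Ch X m} (hz : IsBdy m z) (hw : IsBdy m w) : IsBdy m (z + w) := by
  rw [isBdy_iff] at *; exact Submodule.add_mem _ hz hw

theorem bdy_sub {m : ℕ} {z w : Ch X m} (hz : IsBdy m z) (hw : IsBdy m w) : IsBdy m (z - w) := by
  rw [isBdy_iff] at *; exact Submodule.sub_mem _ hz hw

theorem bdy_neg {m : ℕ} {z : Ch X m} (hz : IsBdy m z) : IsBdy m (-z) := by
  rw [isBdy_iff] at *; exact Submodule.neg_mem _ hz

theorem bdy_smul {m : ℕ} {z : Ch X m} (hz : IsBdy m z) (a : ℤ) : IsBdy m (a • z) := by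
  rw [isBdy_iff] at *; exact Submodule.smul_mem _ a hz

theorem isBdy_sbd {m : ℕ} (w : Ch X (m + 1)) : IsBdy m (sbd X m w) := ⟨w, rfl⟩

theorem isCyc_sbd {m : ℕ} (w : Ch X (m + 1)) : IsCyc m (sbd X m w) := by
  cases m with
  | zero =>
    rw [isCyc_iff]
    exact aug_sbd w
  | succ m => exact sbd_sbd m w

theorem bdy_cyc {m : ℕ} {z : Ch X m} (hz : IsBdy m z) : IsCyc m z := by
  obtain ⟨w, rfl⟩ := hz
  exact isCyc_sbd w

theorem cyc_psh {m : ℕ} {z : Ch X m} (f : C(X, Y)) (hz : IsCyc m z) :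
    IsCyc m (psh f m z) := by
  cases m with
  | zero =>
    rw [isCyc_iff] at *
    change aug Y 0 _ = 0
    rw [aug_psh]
    exact hz
  | succ m =>
    change sbd Y m _ = 0
    rw [sbd_psh]
    have : sbd X m z = 0 := hz
    rw [this, map_zero]

theorem bdy_psh {m : ℕ} {z : Ch X m} (f : C(X, Y)) (hz : IsBdy m z) :
    IsBdy m (psh f m z) := by
  obtain ⟨w, rfl⟩ := hz
  rw [← sbd_psh]
  exact isBdy_sbd _

theorem psh_injective (f : C(X, Y)) (hf : Function.Injective f) (m : ℕ) :
    Function.Injective (psh f m) := by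
  apply Finsupp.mapDomain_injective
  intro σ τ h
  apply ContinuousMap.ext
  intro t
  apply hf
  exact congrArg (fun g : Sing Y m => g t) h

theorem isCyc_of_psh (f : C(X, Y)) (hf : Function.Injective f) {m : ℕ} {z : Ch X m}
    (hz : IsCyc m (psh f m z)) : IsCyc m z := by
  cases m with
  | zero =>
    rw [isCyc_iff] at *
    change aug Y 0 _ = 0 at hz
    rw [aug_psh] at hz
    exact hz
  | succ m =>
    change sbd Y m _ = 0 at hz
    rw [sbd_psh] at hz
    change sbd X m z = 0
    apply psh_injective f hf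
    rw [hz, map_zero]

/-- homotopic maps have homologous push forwards on cycles -/
theorem homotopy_bdy (H : C(X × unitInterval, Y)) {m : ℕ} {z : Ch X m} (hz : IsCyc m z) :
    IsBdy m (psh (slice H 1) m z - psh (slice H 0) m z) := by
  cases m with
  | zero => exact ⟨PD H 0 z, sbd_PD_zero H z⟩
  | succ m =>
    refine ⟨PD H (m + 1) z, ?_⟩
    have h1 := sbd_PD H m z
    have h2 : sbd X m z = 0 := hz
    rw [h2, map_zero, add_zero] at h1
    exact h1

/-- the constant simplex -/
def cs (x : X) (m : ℕ) : Sing X m := ContinuousMap.const _ x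

theorem sface_cs (x : X) (m : ℕ) (i : Fin (m + 2)) : sface m i (cs x (m + 1)) = cs x m := rfl

theorem sum_signs (n : ℕ) : ∑ i : Fin n, (-1 : ℤ) ^ (i : ℕ) = if Even n then 0 else 1 := by
  induction n with
  | zero => simp
  | succ n ih =>
    rw [Fin.sum_univ_castSucc]
    simp only [Fin.val_castSucc, Fin.val_last, ih]
    rcases Nat.even_or_odd n with h | h
    · rw [if_pos h, h.neg_one_pow, if_neg (by simpa [Nat.even_add_one] using h)]
      simp
    · rw [if_neg (by simpa using h), h.neg_one_pow,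
        if_pos (by simpa [Nat.even_add_one] using h)]
      simp

theorem sbd_cs (x : X) (m : ℕ) : sbd X m (single (cs x (m + 1)) 1) =
    (if Even m then (0 : ℤ) else 1) • single (cs x m) 1 := by
  rw [sbd_single]
  simp only [sface_cs]
  rw [← Finset.sum_smul, sum_signs]
  congr 1
  simp [Nat.even_add]

theorem psh_const (x : X) (m : ℕ) (z : Ch Y m) :
    psh (ContinuousMap.const Y x) m z = aug Y m z • single (cs x m) 1 := by
  have : psh (ContinuousMap.const Y x) m =
      (LinearMap.toSpanSingleton ℤ (Ch X m) (single (cs x m) 1)).comp (aug Y m) := by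
    apply Finsupp.lhom_ext'
    intro σ
    apply LinearMap.ext_ring
    simp only [LinearMap.comp_apply, lsingle_apply]
    rw [psh_single, aug_single, LinearMap.toSpanSingleton_apply, one_smul]
    rfl
  rw [this]
  rfl

/-- the push forward of a cycle to a point bounds -/
theorem const_bdy (x : X) {m : ℕ} {z : Ch Y m} (hz : IsCyc m z) :
    IsBdy m (psh (ContinuousMap.const Y x) m z) := by
  rw [psh_const]
  cases m with
  | zero =>
    have : aug Y 0 z = 0 := isCyc_iff.mp hz
    rw [this, zero_smul]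
    exact ⟨0, map_zero _⟩
  | succ m =>
    rcases Nat.even_or_odd m with h | h
    · -- degree `m+1` odd: the next constant simplex has boundary `cs`
      refine ⟨aug Y (m + 1) z • single (cs x (m + 2)) 1, ?_⟩
      rw [map_smul, sbd_cs, if_neg (by simpa [Nat.even_add_one] using h), one_smul]
    · have h1 : sbd X m (psh (ContinuousMap.const Y x) (m + 1) z) = 0 := by
        rw [sbd_psh]
        have : sbd Y m z = 0 := hz
        rw [this, map_zero]
      rw [psh_const, map_smul, sbd_cs, if_neg (by simpa using h), one_smul] at h1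
      have h2 : aug Y (m + 1) z = 0 := by
        have h3 := congrArg (fun c : Ch X m => c (cs x m)) h1
        simpa using h3
      rw [h2, zero_smul]
      exact ⟨0, map_zero _⟩

/-- contractible spaces are acyclic -/
theorem contr_acyc (H : C(X × unitInterval, X)) (x : X) (h0 : slice H 0 = ContinuousMap.id X)
    (h1 : slice H 1 = ContinuousMap.const X x) (m : ℕ) : RAcyc X m := by
  intro z hz
  have h2 := homotopy_bdy H hz
  rw [h0, h1, psh_id] at h2
  have h3 := const_bdy x hz
  have h4 : z = psh (ContinuousMap.const X x) m z - (psh (ContinuousMap.const X x) m z - z) := by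
    abel
  rw [h4]
  exact bdy_sub h3 h2

/-- chains supported in a subset -/
noncomputable def sup (O : Set X) (m : ℕ) : Submodule ℤ (Ch X m) :=
  Finsupp.supported ℤ ℤ {σ : Sing X m | Set.range σ ⊆ O}

theorem single_mem_sup {O : Set X} {m : ℕ} {σ : Sing X m} (h : Set.range σ ⊆ O) :
    single σ (1 : ℤ) ∈ sup O m := single_mem_supported' h

theorem sbd_mem_sup {O : Set X} {m : ℕ} {z : Ch X (m + 1)} (hz : z ∈ sup O (m + 1)) :
    sbd X m z ∈ sup O m := by
  refine supported_map _ (sbd X m) _ ?_ z hz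
  intro σ hσ
  rw [sbd_single]
  apply Submodule.sum_mem
  intro i _
  apply Submodule.smul_mem
  apply single_mem_sup
  exact (Pool.Agent.Helper922.HB.Sc.range_sface m i σ).trans hσ

/-- inclusion of a subset -/
def inc (O : Set X) : C(O, X) := ⟨Subtype.val, continuous_subtype_val⟩

theorem inc_injective (O : Set X) : Function.Injective (inc O) := Subtype.val_injective

/-- restrict a simplex to a subset -/
def liftS {O : Set X} {m : ℕ} (σ : Sing X m) (h : Set.range σ ⊆ O) : Sing O m :=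
  ⟨fun t => ⟨σ t, h ⟨t, rfl⟩⟩, σ.continuous.subtype_mk _⟩

theorem inc_liftS {O : Set X} {m : ℕ} (σ : Sing X m) (h : Set.range σ ⊆ O) :
    (inc O).comp (liftS σ h) = σ := rfl

theorem exists_lift {O : Set X} {m : ℕ} {z : Ch X m} (hz : z ∈ sup O m) :
    ∃ z' : Ch O m, psh (inc O) m z' = z := by
  have := supported_map {σ : Sing X m | Set.range σ ⊆ O} LinearMap.id
    (LinearMap.range (psh (inc O) m)) (by
      intro σ hσ
      refine ⟨single (liftS σ hσ) 1, ?_⟩
      rw [psh_single, inc_liftS]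
      rfl) z hz
  exact this

theorem psh_inc_mem (O : Set X) {m : ℕ} (z : Ch O m) : psh (inc O) m z ∈ sup O m := by
  have hz : z ∈ Finsupp.supported ℤ ℤ (Set.univ : Set (Sing O m)) := by simp
  refine supported_map _ (psh (inc O) m) _ ?_ z hz
  intro σ _
  rw [psh_single]
  apply single_mem_sup
  rintro _ ⟨t, rfl⟩
  exact (σ t).2

/-- acyclicity of a subset, in terms of chains of the ambient space -/
theorem acyc_in {O : Set X} {m : ℕ} (h : RAcyc O m) {z : Ch X m} (hz : z ∈ sup O m)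
    (hc : IsCyc m z) : ∃ y ∈ sup O (m + 1), sbd X m y = z := by
  obtain ⟨z', rfl⟩ := exists_lift hz
  obtain ⟨y', hy'⟩ := h z' (isCyc_of_psh _ (inc_injective O) hc)
  refine ⟨psh (inc O) (m + 1) y', psh_inc_mem O y', ?_⟩
  rw [sbd_psh, hy']

/-- restriction of chains to the simplices inside `O` -/
noncomputable def res (O : Set X) (m : ℕ) : Ch X m →ₗ[ℤ] Ch X m := by
  classical
  exact Finsupp.linearCombination ℤ (fun σ => if Set.range σ ⊆ O then single σ (1 : ℤ) else 0)

theorem res_single_of {O : Set X} {m : ℕ} {σ : Sing X m} (h : Set.range σ ⊆ O) :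
    res O m (single σ 1) = single σ 1 := by
  classical
  rw [res, linearCombination_single, one_smul, if_pos h]

theorem res_single_of_not {O : Set X} {m : ℕ} {σ : Sing X m} (h : ¬ Set.range σ ⊆ O) :
    res O m (single σ 1) = 0 := by
  classical
  rw [res, linearCombination_single, one_smul, if_neg h]

theorem res_mem (O : Set X) {m : ℕ} (z : Ch X m) : res O m z ∈ sup O m := by
  have hz : z ∈ Finsupp.supported ℤ ℤ (Set.univ : Set (Sing X m)) := by simp
  refine supported_map _ (res O m) _ ?_ z hz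
  intro σ _
  by_cases h : Set.range σ ⊆ O
  · rw [res_single_of h]; exact single_mem_sup h
  · rw [res_single_of_not h]; exact Submodule.zero_mem _

theorem res_of_mem {O : Set X} {m : ℕ} {z : Ch X m} (hz : z ∈ sup O m) : res O m z = z := by
  have := supported_map {σ : Sing X m | Set.range σ ⊆ O} (res O m - LinearMap.id) ⊥ (by
    intro σ hσ
    rw [LinearMap.sub_apply, res_single_of hσ]
    simp) z hz
  rw [Submodule.mem_bot, LinearMap.sub_apply, sub_eq_zero] at this
  exact this

theorem sub_res_mem (O₁ O₂ : Set X) {m : ℕ} {z : Ch X m}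
    (hz : z ∈ Finsupp.supported ℤ ℤ (smallSet ({O₁, O₂} : Set (Set X)) m)) :
    z - res O₁ m z ∈ sup O₂ m := by
  have := supported_map (smallSet ({O₁, O₂} : Set (Set X)) m) (LinearMap.id - res O₁ m)
    (sup O₂ m) (by
      intro σ hσ
      rw [LinearMap.sub_apply]
      by_cases h : Set.range σ ⊆ O₁
      · rw [res_single_of h]
        simp
      · rw [res_single_of_not h]
        obtain ⟨C, hC, hr⟩ := hσ
        simp only [Set.mem_insert_iff, Set.mem_singleton_iff] at hC
        rcases hC with rfl | rfl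
        · exact absurd hr h
        · rw [sub_zero]
          exact single_mem_sup hr) z hz
  exact this

theorem sup_mono {O O' : Set X} (h : O ⊆ O') (m : ℕ) : sup O m ≤ sup O' m :=
  Finsupp.supported_mono fun _ hσ => Set.Subset.trans hσ h

theorem sup_inter {O₁ O₂ : Set X} {m : ℕ} {z : Ch X m} (h1 : z ∈ sup O₁ m) (h2 : z ∈ sup O₂ m) :
    z ∈ sup (O₁ ∩ O₂) m := by
  unfold sup at *
  rw [Finsupp.mem_supported] at *
  intro σ hσ
  exact Set.subset_inter (h1 hσ) (h2 hσ)

theorem res_inter {O₁ O₂ : Set X} {m : ℕ} {z : Ch X m} (h2 : z ∈ sup O₂ m) :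
    res O₁ m z ∈ sup (O₁ ∩ O₂) m := by
  refine supported_map _ (res O₁ m) _ ?_ z h2
  intro σ hσ
  by_cases h : Set.range σ ⊆ O₁
  · rw [res_single_of h]
    exact single_mem_sup (Set.subset_inter h hσ)
  · rw [res_single_of_not h]; exact Submodule.zero_mem _

end general

section MV

variable {X : Type u} [TopologicalSpace X]

/-- every cycle is homologous to a sum of chains in the members of an open cover -/
theorem mv_split (O₁ O₂ : Set X) (h₁ : IsOpen O₁) (h₂ : IsOpen O₂) (hc : ∀ x, x ∈ O₁ ∨ x ∈ O₂)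
    {m : ℕ} {z : Ch X m} (hz : IsCyc m z) :
    ∃ z1 ∈ sup O₁ m, ∃ z2 ∈ sup O₂ m, IsBdy m (z - (z1 + z2)) := by
  have hopen : ∀ C ∈ ({O₁, O₂} : Set (Set X)), IsOpen C := by
    intro C hC
    simp only [Set.mem_insert_iff, Set.mem_singleton_iff] at hC
    rcases hC with rfl | rfl
    · exact h₁
    · exact h₂
  have hcov : ∀ x : X, ∃ C ∈ ({O₁, O₂} : Set (Set X)), x ∈ C := by
    intro x
    rcases hc x with h | h
    · exact ⟨O₁, by simp, h⟩
    · exact ⟨O₂, by simp, h⟩
  have hsm := rho_small {O₁, O₂} hopen hcov m z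
  refine ⟨res O₁ m (rho {O₁, O₂} m z), res_mem _ _, _, sub_res_mem O₁ O₂ hsm, ?_⟩
  rw [add_sub_cancel]
  cases m with
  | zero =>
    change IsBdy 0 (z - z)
    rw [sub_self]
    exact ⟨0, map_zero _⟩
  | succ m =>
    have h1 : sbd X m z = 0 := hz
    rw [rho_succ, h1, map_zero, sub_zero, sub_sub_cancel]
    exact isBdy_sbd _

/-- the glueing step of the Mayer-Vietoris argument -/
theorem mv_glue (O₁ O₂ : Set X) {m : ℕ} (a1 : RAcyc O₁ (m + 1)) (a2 : RAcyc O₂ (m + 1))
    {z1 z2 : Ch X (m + 1)} (h1 : z1 ∈ sup O₁ (m + 1)) (h2 : z2 ∈ sup O₂ (m + 1))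
    (hs : sbd X m (z1 + z2) = 0) {w : Ch X (m + 1)} (hw : w ∈ sup (O₁ ∩ O₂) (m + 1))
    (hzw : sbd X m z1 = sbd X m w) : IsBdy (m + 1) (z1 + z2) := by
  obtain ⟨u1, _, hu1⟩ := acyc_in a1
    (Submodule.sub_mem _ h1 (sup_mono Set.inter_subset_left _ hw))
    (show sbd X m (z1 - w) = 0 by rw [map_sub, hzw, sub_self])
  obtain ⟨u2, _, hu2⟩ := acyc_in a2
    (Submodule.add_mem _ h2 (sup_mono Set.inter_subset_right _ hw))
    (show sbd X m (z2 + w) = 0 by rw [map_add, ← hzw, ← map_add, add_comm z2 z1, hs])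
  refine ⟨u1 + u2, ?_⟩
  rw [map_add, hu1, hu2]
  abel

theorem mv_bd_mem (O₁ O₂ : Set X) {m : ℕ} {z1 z2 : Ch X (m + 1)} (h1 : z1 ∈ sup O₁ (m + 1))
    (h2 : z2 ∈ sup O₂ (m + 1)) (hs : sbd X m (z1 + z2) = 0) :
    sbd X m z1 ∈ sup (O₁ ∩ O₂) m := by
  apply sup_inter (sbd_mem_sup h1)
  have : sbd X m z1 = - sbd X m z2 := by
    rw [map_add] at hs
    exact eq_neg_of_add_eq_zero_left hs
  rw [this]
  exact Submodule.neg_mem _ (sbd_mem_sup h2)

end MV

section geom

/-- drop the last coordinate -/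
def ini {n : ℕ} (v : Fin (n + 1) → ℝ) : Fin n → ℝ := fun i => v i.castSucc

theorem continuous_ini (n : ℕ) : Continuous (ini (n := n)) := by
  unfold ini; fun_prop

/-- vectors off the last coordinate axis -/
def WW (n : ℕ) : Set (Pc (n + 1)) := {v | ini v.1 ≠ 0}

/-- complement of a closed half axis -/
def OO (n : ℕ) (s : ℝ) : Set (Pc (n + 1)) := {v | ini v.1 ≠ 0 ∨ 0 < s * v.1 (Fin.last n)}

theorem OO_inter (n : ℕ) : OO n 1 ∩ OO n (-1) = WW n := by
  ext v
  simp only [OO, WW, Set.mem_inter_iff, Set.mem_ofPred_eq]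
  constructor
  · rintro ⟨h1 | h1, h2 | h2⟩
    · exact h1
    · exact h1
    · exact h2
    · linarith
  · intro h
    exact ⟨Or.inl h, Or.inl h⟩

theorem eq_zero_of {n : ℕ} {v : Fin (n + 1) → ℝ} (h1 : ini v = 0) (h2 : v (Fin.last n) = 0) :
    v = 0 := by
  funext i
  refine Fin.lastCases h2 (fun j => ?_) i
  exact congrFun h1 j

theorem ne_zero_of {n : ℕ} {v : Fin (n + 1) → ℝ} {s : ℝ}
    (h : ini v ≠ 0 ∨ 0 < s * v (Fin.last n)) : v ≠ 0 := by
  rintro rfl
  rcases h with h | h
  · exact h rfl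
  · simp at h

theorem OO_cover (n : ℕ) (v : Pc (n + 1)) : v ∈ OO n 1 ∨ v ∈ OO n (-1) := by
  by_cases h1 : ini v.1 = 0
  · have h2 : v.1 (Fin.last n) ≠ 0 := fun h2 => v.2 (eq_zero_of h1 h2)
    rcases lt_or_gt_of_ne h2 with h | h
    · right; right; linarith
    · left; right; linarith
  · left; left; exact h1

theorem isOpen_OO (n : ℕ) (s : ℝ) : IsOpen (OO n s) := by
  have h1 : IsOpen {v : Pc (n + 1) | ini v.1 ≠ 0} :=
    isOpen_ne.preimage ((continuous_ini n).comp continuous_subtype_val)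
  have h2 : IsOpen {v : Pc (n + 1) | 0 < s * v.1 (Fin.last n)} := by
    apply isOpen_lt continuous_const
    exact continuous_const.mul ((continuous_apply _).comp continuous_subtype_val)
  exact h1.union h2

/-- the straight line homotopy to `s e` -/
noncomputable def hl {n : ℕ} (s t : ℝ) (v : Fin (n + 1) → ℝ) : Fin (n + 1) → ℝ :=
  fun i => (1 - t) * v i + t * (if i = Fin.last n then s else 0)

theorem hl_mem {n : ℕ} {s t : ℝ} {v : Fin (n + 1) → ℝ} (hs : s * s = 1) (h0 : 0 ≤ t) (h1 : t ≤ 1)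
    (h : ini v ≠ 0 ∨ 0 < s * v (Fin.last n)) :
    ini (hl s t v) ≠ 0 ∨ 0 < s * (hl s t v) (Fin.last n) := by
  have e1 : s * (hl s t v) (Fin.last n) = (1 - t) * (s * v (Fin.last n)) + t := by
    unfold hl
    rw [if_pos rfl]
    linear_combination t * hs
  rcases h1.eq_or_lt with rfl | h1
  · right
    rw [e1]; simp
  · rcases h with h | h
    · left
      intro h2
      apply h
      funext i
      have h3 := congrFun h2 i
      simp only [ini, hl, Pi.zero_apply] at h3 ⊢
      rw [if_neg (Fin.castSucc_lt_last i).ne, mul_zero, add_zero] at h3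
      rcases mul_eq_zero.mp h3 with h4 | h4
      · linarith
      · exact h4
    · right
      rw [e1]
      have : 0 < 1 - t := by linarith
      positivity

theorem continuous_hl {n : ℕ} (s : ℝ) :
    Continuous (fun p : (Fin (n + 1) → ℝ) × ℝ => hl s p.2 p.1) := by
  unfold hl
  fun_prop

noncomputable def hO {n : ℕ} (s : ℝ) (hs : s * s = 1) : C(OO n s × unitInterval, OO n s) :=
  ⟨fun p => ⟨⟨hl s p.2.1 p.1.1.1, ne_zero_of (hl_mem hs p.2.2.1 p.2.2.2 p.1.2)⟩,
    hl_mem hs p.2.2.1 p.2.2.2 p.1.2⟩, by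
    apply Continuous.subtype_mk
    apply Continuous.subtype_mk
    exact (continuous_hl s).comp
      (((continuous_subtype_val.comp continuous_subtype_val).comp continuous_fst).prodMk
        (continuous_subtype_val.comp continuous_snd))⟩

noncomputable def ptO (n : ℕ) (s : ℝ) (hs : s * s = 1) : OO n s :=
  ⟨⟨fun i => if i = Fin.last n then s else 0, by
    intro h
    have := congrFun h (Fin.last n)
    simp only [if_pos, Pi.zero_apply] at this
    rw [this] at hs
    norm_num at hs⟩, by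
    right
    change 0 < s * (if Fin.last n = Fin.last n then s else 0)
    rw [if_pos rfl, hs]
    norm_num⟩

theorem OO_acyc (n : ℕ) (s : ℝ) (hs : s * s = 1) (m : ℕ) : RAcyc (OO n s) m := by
  apply contr_acyc (hO s hs) (ptO n s hs)
  · apply ContinuousMap.ext
    intro v
    apply Subtype.ext
    apply Subtype.ext
    funext i
    change (1 - (0 : ℝ)) * v.1.1 i + 0 * _ = v.1.1 i
    ring
  · apply ContinuousMap.ext
    intro v
    apply Subtype.ext
    apply Subtype.ext
    funext i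
    change (1 - (1 : ℝ)) * v.1.1 i + 1 * (if i = Fin.last n then s else 0) =
      if i = Fin.last n then s else 0
    ring

/-- projection of `WW n` -/
def pW (n : ℕ) : C(WW n, Pc n) :=
  ⟨fun v => ⟨ini v.1.1, v.2⟩, by
    apply Continuous.subtype_mk
    exact (continuous_ini n).comp (continuous_subtype_val.comp continuous_subtype_val)⟩

/-- extension by a zero coordinate -/
noncomputable def ex {n : ℕ} (u : Fin n → ℝ) : Fin (n + 1) → ℝ :=
  fun i => if h : (i : ℕ) < n then u ⟨i, h⟩ else 0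

theorem ini_ex {n : ℕ} (u : Fin n → ℝ) : ini (ex u) = u := by
  funext i
  simp [ini, ex]

theorem continuous_ex (n : ℕ) : Continuous (ex (n := n)) := by
  refine continuous_pi fun i => ?_
  unfold ex
  by_cases h : (i : ℕ) < n
  · simp only [h, dif_pos]
    exact continuous_apply _
  · simp only [h, dif_neg, not_false_eq_true]
    exact continuous_const

/-- zero section -/
noncomputable def iW (n : ℕ) : C(Pc n, WW n) :=
  ⟨fun u => ⟨⟨ex u.1, fun h => u.2 (by rw [← ini_ex u.1, h]; rfl)⟩, by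
      change ini (ex u.1) ≠ 0
      rw [ini_ex]; exact u.2⟩, by
    apply Continuous.subtype_mk
    apply Continuous.subtype_mk
    exact (continuous_ex n).comp continuous_subtype_val⟩

noncomputable def hw {n : ℕ} (t : ℝ) (v : Fin (n + 1) → ℝ) : Fin (n + 1) → ℝ :=
  fun i => v i * (if i = Fin.last n then 1 - t else 1)

theorem ini_hw {n : ℕ} (t : ℝ) (v : Fin (n + 1) → ℝ) : ini (hw t v) = ini v := by
  funext i
  simp only [ini, hw]
  rw [if_neg (Fin.castSucc_lt_last i).ne, mul_one]

theorem continuous_hw {n : ℕ} :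
    Continuous (fun p : (Fin (n + 1) → ℝ) × ℝ => hw p.2 p.1) := by
  refine continuous_pi fun i => ?_
  unfold hw
  by_cases h : i = Fin.last n
  · simp only [h, if_true]
    fun_prop
  · simp only [h, if_false]
    fun_prop

noncomputable def hW (n : ℕ) : C(WW n × unitInterval, WW n) :=
  ⟨fun p => ⟨⟨hw p.2.1 p.1.1.1, fun h => p.1.2 (by
      rw [← ini_hw p.2.1 p.1.1.1, h]; rfl)⟩, by
      change ini (hw p.2.1 p.1.1.1) ≠ 0
      rw [ini_hw]; exact p.1.2⟩, by
    apply Continuous.subtype_mk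
    apply Continuous.subtype_mk
    exact continuous_hw.comp
      (((continuous_subtype_val.comp continuous_subtype_val).comp continuous_fst).prodMk
        (continuous_subtype_val.comp continuous_snd))⟩

theorem slice_hW_zero (n : ℕ) : slice (hW n) 0 = ContinuousMap.id _ := by
  apply ContinuousMap.ext
  intro v
  apply Subtype.ext
  apply Subtype.ext
  funext i
  change v.1.1 i * (if i = Fin.last n then 1 - (0 : ℝ) else 1) = v.1.1 i
  simp

theorem slice_hW_one (n : ℕ) : slice (hW n) 1 = (iW n).comp (pW n) := by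
  apply ContinuousMap.ext
  intro v
  apply Subtype.ext
  apply Subtype.ext
  funext i
  change v.1.1 i * (if i = Fin.last n then 1 - (1 : ℝ) else 1) = ex (ini v.1.1) i
  refine Fin.lastCases ?_ (fun j => ?_) i
  · simp [ex]
  · rw [if_neg (Fin.castSucc_lt_last j).ne, mul_one]
    have := congrFun (ini_ex (ini v.1.1)) j
    exact this.symm

theorem W_bdy (n : ℕ) {m : ℕ} {y : Ch (WW n) m} (hy : IsCyc m y)
    (hb : IsBdy m (psh (pW n) m y)) : IsBdy m y := by
  have h1 := homotopy_bdy (hW n) hy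
  rw [slice_hW_zero, slice_hW_one, psh_id, ← psh_comp] at h1
  have h2 : y = psh (iW n) m (psh (pW n) m y) - (psh (iW n) m (psh (pW n) m y) - y) := by abel
  rw [h2]
  exact bdy_sub (bdy_psh (iW n) hb) h1

theorem step_acyc (n m : ℕ) (h : RAcyc (Pc n) m) : RAcyc (Pc (n + 1)) (m + 1) := by
  intro z hz
  obtain ⟨z1, h1, z2, h2, hb⟩ := mv_split (OO n 1) (OO n (-1)) (isOpen_OO _ _) (isOpen_OO _ _)
    (OO_cover n) hz
  have hs : sbd _ m (z1 + z2) = 0 := by
    have h3 := bdy_cyc hb
    have h4 : sbd _ m (z - (z1 + z2)) = 0 := h3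
    have h5 : sbd _ m z = 0 := hz
    rw [map_sub, h5, zero_sub, neg_eq_zero] at h4
    exact h4
  have hm := mv_bd_mem _ _ h1 h2 hs
  rw [OO_inter] at hm
  obtain ⟨y', hy'⟩ := exists_lift hm
  have hyc : IsCyc m y' := isCyc_of_psh _ (inc_injective _) (by rw [hy']; exact isCyc_sbd z1)
  obtain ⟨w', hw'⟩ := W_bdy n hyc (h _ (cyc_psh (pW n) hyc))
  have h6 : IsBdy (m + 1) (z1 + z2) := by
    apply mv_glue (OO n 1) (OO n (-1)) (OO_acyc n 1 (by norm_num) _)
      (OO_acyc n (-1) (by norm_num) _) h1 h2 hs (w := psh (inc (WW n)) (m + 1) w')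
    · rw [OO_inter]; exact psh_inc_mem _ _
    · rw [sbd_psh, hw', hy']
  have h7 : z = (z - (z1 + z2)) + (z1 + z2) := by abel
  rw [h7]
  exact bdy_add hb h6

theorem zero_acyc (n : ℕ) : RAcyc (Pc (n + 2)) 0 := by
  intro z hz
  obtain ⟨z1, h1, z2, h2, hb⟩ := mv_split (OO (n + 1) 1) (OO (n + 1) (-1)) (isOpen_OO _ _)
    (isOpen_OO _ _) (OO_cover (n + 1)) hz
  have ha : aug _ 0 z1 + aug _ 0 z2 = 0 := by
    have h3 : aug _ 0 (z - (z1 + z2)) = 0 := isCyc_iff.mp (bdy_cyc hb)
    have h5 : aug _ 0 z = 0 := isCyc_iff.mp hz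
    rw [map_sub, h5, zero_sub, neg_eq_zero, map_add] at h3
    exact h3
  let x0 : Pc (n + 2) := ⟨fun _ => 1, fun h => by
    have := congrFun h 0
    simp at this⟩
  have hx0 : x0 ∈ WW (n + 1) := by
    intro h
    have := congrFun h 0
    simp [x0, ini] at this
  have hc : single (cs x0 0) (1 : ℤ) ∈ sup (WW (n + 1)) 0 := by
    apply single_mem_sup
    rintro _ ⟨t, rfl⟩
    exact hx0
  rw [← OO_inter] at hc
  have hc1 := sup_mono Set.inter_subset_left 0 hc
  have hc2 := sup_mono Set.inter_subset_right 0 hc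
  obtain ⟨u1, _, hu1⟩ := acyc_in (OO_acyc (n + 1) 1 (by norm_num) 0)
    (Submodule.sub_mem _ h1 (Submodule.smul_mem _ (aug _ 0 z1) hc1))
    (isCyc_iff.mpr (by
      change aug _ 0 _ = 0
      rw [map_sub, map_smul, aug_single]; simp))
  obtain ⟨u2, _, hu2⟩ := acyc_in (OO_acyc (n + 1) (-1) (by norm_num) 0)
    (Submodule.add_mem _ h2 (Submodule.smul_mem _ (aug _ 0 z1) hc2))
    (isCyc_iff.mpr (by
      change aug _ 0 _ = 0
      rw [map_add, map_smul, aug_single]
      simp only [smul_eq_mul, mul_one]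
      rw [add_comm]; exact ha))
  have h6 : IsBdy 0 (z1 + z2) := by
    refine ⟨u1 + u2, ?_⟩
    rw [map_add, hu1, hu2]
    abel
  have h7 : z = (z - (z1 + z2)) + (z1 + z2) := by abel
  rw [h7]
  exact bdy_add hb h6

end geom

section fundamental

theorem map_apply {a b : ℕ} (f : Fin (a + 1) → Fin (b + 1)) (hf : Function.Injective f)
    (t : stdSimplex ℝ (Fin (a + 1))) (k : Fin (a + 1)) :
    (stdSimplex.map f t).1 (f k) = t.1 k := by
  change (FunOnFinite.linearMap ℝ ℝ f t.1) (f k) = _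
  rw [FunOnFinite.linearMap_apply_apply]
  rw [Finset.sum_eq_single k]
  · intro j hj hne
    simp only [Finset.mem_filter] at hj
    exact absurd (hf hj.2) hne
  · intro h
    simp at h

theorem map_apply_zero {a : ℕ} (i : Fin (a + 2)) (t : stdSimplex ℝ (Fin (a + 1))) :
    (stdSimplex.map i.succAbove t).1 i = 0 := by
  change (FunOnFinite.linearMap ℝ ℝ i.succAbove t.1) i = 0
  rw [FunOnFinite.linearMap_apply_apply]
  apply Finset.sum_eq_zero
  intro j hj
  simp only [Finset.mem_filter] at hj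
  exact absurd hj.2 (Fin.succAbove_ne i j)

/-- points of the standard simplex around `0` lying on the last axis -/
theorem axis_eq {n : ℕ} (T : stdSimplex ℝ (Fin (n + 2))) (h : ini (Lmap (n + 1) T) = 0)
    (k : Fin (n + 1)) : T.1 k.castSucc = T.1 0 := by
  refine Fin.cases rfl (fun j => ?_) k
  have h1 := congrFun h j
  simp only [ini, Lmap, Pi.zero_apply, sub_eq_zero] at h1
  rw [Fin.succ_castSucc] at h1
  exact h1

theorem sum_axis {n : ℕ} (T : stdSimplex ℝ (Fin (n + 2))) (h : ini (Lmap (n + 1) T) = 0) :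
    (n + 1) * T.1 0 + T.1 (Fin.last (n + 1)) = 1 := by
  have h1 := T.2.2
  rw [Fin.sum_univ_castSucc] at h1
  rw [Finset.sum_congr rfl fun k _ => axis_eq T h k] at h1
  simpa using h1

theorem range_sphF_castSucc (n : ℕ) (i : Fin (n + 1)) :
    Set.range (sphF n i.castSucc) ⊆ OO n 1 := by
  rintro _ ⟨t, rfl⟩
  by_cases h : ini (Lmap (n + 1) (stdSimplex.map i.castSucc.succAbove t)) = 0
  · right
    change 0 < 1 * ((stdSimplex.map i.castSucc.succAbove t).1 (Fin.last n).succ -
      (stdSimplex.map i.castSucc.succAbove t).1 0)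
    have h1 := map_apply_zero i.castSucc t
    have h2 := axis_eq _ h i
    rw [h1] at h2
    have h3 := sum_axis _ h
    rw [← h2] at h3
    rw [← h2, Fin.succ_last]
    linarith
  · left; exact h

theorem range_sphF_last (n : ℕ) : Set.range (sphF n (Fin.last (n + 1))) ⊆ OO n (-1) := by
  rintro _ ⟨t, rfl⟩
  by_cases h : ini (Lmap (n + 1) (stdSimplex.map (Fin.last (n + 1)).succAbove t)) = 0
  · right
    change 0 < (-1) * ((stdSimplex.map (Fin.last (n + 1)).succAbove t).1 (Fin.last n).succ -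
      (stdSimplex.map (Fin.last (n + 1)).succAbove t).1 0)
    have h1 := map_apply_zero (Fin.last (n + 1)) t
    have h3 := sum_axis _ h
    rw [h1, add_zero] at h3
    rw [Fin.succ_last, h1]
    have h4 : (0 : ℝ) < (n : ℝ) + 1 := by positivity
    have h5 : 0 < (stdSimplex.map (Fin.last (n + 1)).succAbove t).1 0 := by
      by_contra hc
      push Not at hc
      nlinarith
    linarith
  · left; exact h

noncomputable def F1 (n : ℕ) : Ch (Pc (n + 1)) n :=
  ∑ i : Fin (n + 1), ((-1 : ℤ) ^ (i : ℕ)) • single (sphF n i.castSucc) (1 : ℤ)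

noncomputable def F2 (n : ℕ) : Ch (Pc (n + 1)) n :=
  ((-1 : ℤ) ^ (n + 1)) • single (sphF n (Fin.last (n + 1))) (1 : ℤ)

theorem fund_eq (n : ℕ) : fund n = F1 n + F2 n := by
  rw [fund, Fin.sum_univ_castSucc]
  rfl

theorem F1_mem (n : ℕ) : F1 n ∈ sup (OO n 1) n := by
  apply Submodule.sum_mem
  intro i _
  apply Submodule.smul_mem
  exact single_mem_sup (range_sphF_castSucc n i)

theorem F2_mem (n : ℕ) : F2 n ∈ sup (OO n (-1)) n := by
  apply Submodule.smul_mem
  exact single_mem_sup (range_sphF_last n)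

/-- inclusion into the full space -/
def iPc (N : ℕ) : C(Pc N, Fin N → ℝ) := ⟨Subtype.val, continuous_subtype_val⟩

theorem fund_isCyc (n : ℕ) : IsCyc n (fund n) := by
  apply isCyc_of_psh (iPc (n + 1)) Subtype.val_injective
  have h : psh (iPc (n + 1)) n (fund n) =
      sbd (Fin (n + 1) → ℝ) n (single (⟨Lmap (n + 1), continuous_Lmap (n + 1)⟩ :
        Sing (Fin (n + 1) → ℝ) (n + 1)) 1) := by
    rw [sbd_single, fund, map_sum]
    refine Finset.sum_congr rfl fun i _ => ?_
    rw [map_smul, psh_single]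
    rfl
  rw [h]
  exact isCyc_sbd _

/-- the faces of the last piece -/
theorem face_last (n : ℕ) (i : Fin (n + 2)) (t : stdSimplex ℝ (Fin (n + 1))) :
    ini ((sface n i (sphF (n + 1) (Fin.last (n + 2)))) t).1 = ((sphF n i) t).1 := by
  funext j
  change (stdSimplex.map (Fin.last (n + 2)).succAbove (stdSimplex.map i.succAbove t)).1
      j.castSucc.succ -
    (stdSimplex.map (Fin.last (n + 2)).succAbove (stdSimplex.map i.succAbove t)).1 0 =
    (stdSimplex.map i.succAbove t).1 j.succ - (stdSimplex.map i.succAbove t).1 0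
  have h1 : ∀ k : Fin (n + 2), (stdSimplex.map (Fin.last (n + 2)).succAbove
      (stdSimplex.map i.succAbove t)).1 k.castSucc = (stdSimplex.map i.succAbove t).1 k := by
    intro k
    have := map_apply (Fin.last (n + 2)).succAbove Fin.succAbove_right_injective
      (stdSimplex.map i.succAbove t) k
    rw [Fin.succAbove_last_apply] at this
    exact this
  have h2 := h1 j.succ
  have h3 := h1 0
  rw [Fin.castSucc_zero] at h3
  rw [Fin.succ_castSucc, h2, h3]

theorem face_last_range (n : ℕ) (i : Fin (n + 2)) :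
    Set.range (sface n i (sphF (n + 1) (Fin.last (n + 2)))) ⊆ WW (n + 1) := by
  rintro _ ⟨t, rfl⟩
  change ini _ ≠ 0
  rw [face_last]
  exact ((sphF n i) t).2

/-- the boundary of the last piece, as a chain in `WW` -/
noncomputable def F2' (n : ℕ) : Ch (WW (n + 1)) n :=
  ((-1 : ℤ) ^ (n + 2)) • ∑ i : Fin (n + 2), ((-1 : ℤ) ^ (i : ℕ)) •
    single (liftS (sface n i (sphF (n + 1) (Fin.last (n + 2)))) (face_last_range n i)) (1 : ℤ)

theorem inc_F2' (n : ℕ) : psh (inc (WW (n + 1))) n (F2' n) = sbd _ n (F2 (n + 1)) := by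
  rw [F2', F2, map_smul, map_smul, map_sum, sbd_single]
  congr 1
  refine Finset.sum_congr rfl fun i _ => ?_
  rw [map_smul, psh_single, inc_liftS]

theorem pW_F2' (n : ℕ) : psh (pW (n + 1)) n (F2' n) = ((-1 : ℤ) ^ (n + 2)) • fund n := by
  rw [F2', fund, map_smul, map_sum]
  congr 1
  refine Finset.sum_congr rfl fun i _ => ?_
  rw [map_smul, psh_single]
  congr 2
  apply ContinuousMap.ext
  intro t
  apply Subtype.ext
  exact face_last n i t

theorem sbd_F1 (n : ℕ) : sbd _ n (F1 (n + 1)) = - sbd _ n (F2 (n + 1)) := by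
  have h : sbd _ n (fund (n + 1)) = 0 := fund_isCyc (n + 1)
  rw [fund_eq, map_add] at h
  exact eq_neg_of_add_eq_zero_left h

theorem sign_sq (n : ℕ) : ((-1 : ℤ) ^ n) * (-1) ^ n = 1 := by
  rw [← pow_add, ← two_mul, pow_mul]
  norm_num

theorem gen_zero (z : Ch (Pc 1) 0) (hz : IsCyc 0 z) : ∃ a : ℤ, IsBdy 0 (z - a • fund 0) := by
  obtain ⟨z1, h1, z2, h2, hb⟩ := mv_split (OO 0 1) (OO 0 (-1)) (isOpen_OO _ _)
    (isOpen_OO _ _) (OO_cover 0) hz
  have ha : aug _ 0 z1 + aug _ 0 z2 = 0 := by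
    have h3 : aug _ 0 (z - (z1 + z2)) = 0 := isCyc_iff.mp (bdy_cyc hb)
    have h5 : aug _ 0 z = 0 := isCyc_iff.mp hz
    rw [map_sub, h5, zero_sub, neg_eq_zero, map_add] at h3
    exact h3
  have g1 : aug _ 0 (F1 0) = 1 := by
    rw [F1, map_sum]
    simp only [map_smul, aug_single]
    simp
  have g2 : aug _ 0 (F2 0) = -1 := by
    rw [F2, map_smul, aug_single]
    simp
  refine ⟨aug _ 0 z1, ?_⟩
  obtain ⟨u1, _, hu1⟩ := acyc_in (OO_acyc 0 1 (by norm_num) 0)
    (Submodule.sub_mem _ h1 (Submodule.smul_mem _ (aug _ 0 z1) (F1_mem 0)))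
    (isCyc_iff.mpr (by
      change aug _ 0 _ = 0
      rw [map_sub, map_smul, g1]; simp))
  obtain ⟨u2, _, hu2⟩ := acyc_in (OO_acyc 0 (-1) (by norm_num) 0)
    (Submodule.sub_mem _ h2 (Submodule.smul_mem _ (aug _ 0 z1) (F2_mem 0)))
    (isCyc_iff.mpr (by
      change aug _ 0 _ = 0
      rw [map_sub, map_smul, g2]
      simp only [smul_eq_mul, mul_neg, mul_one, sub_neg_eq_add]
      rw [add_comm]; exact ha))
  have h6 : z - aug _ 0 z1 • fund 0 = (z - (z1 + z2)) + sbd _ 0 (u1 + u2) := by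
    rw [map_add, hu1, hu2, fund_eq, smul_add]
    abel
  rw [h6]
  exact bdy_add hb (isBdy_sbd _)

theorem gen_step (n : ℕ) (ih : ∀ z : Ch (Pc (n + 1)) n, IsCyc n z → ∃ a : ℤ,
    IsBdy n (z - a • fund n)) (z : Ch (Pc (n + 2)) (n + 1)) (hz : IsCyc (n + 1) z) :
    ∃ a : ℤ, IsBdy (n + 1) (z - a • fund (n + 1)) := by
  obtain ⟨z1, h1, z2, h2, hb⟩ := mv_split (OO (n + 1) 1) (OO (n + 1) (-1)) (isOpen_OO _ _)
    (isOpen_OO _ _) (OO_cover (n + 1)) hz
  have hs : sbd _ n (z1 + z2) = 0 := by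
    have h3 := bdy_cyc hb
    have h4 : sbd _ n (z - (z1 + z2)) = 0 := h3
    have h5 : sbd _ n z = 0 := hz
    rw [map_sub, h5, zero_sub, neg_eq_zero] at h4
    exact h4
  have hm := mv_bd_mem _ _ h1 h2 hs
  rw [OO_inter] at hm
  obtain ⟨y', hy'⟩ := exists_lift hm
  have hyc : IsCyc n y' := isCyc_of_psh _ (inc_injective _) (by rw [hy']; exact isCyc_sbd z1)
  obtain ⟨a, ha⟩ := ih _ (cyc_psh (pW (n + 1)) hyc)
  -- sign
  set ε : ℤ := -(-1 : ℤ) ^ (n + 2) with hε
  have hεε : ε * (-1 : ℤ) ^ (n + 2) = -1 := by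
    rw [hε, neg_mul, sign_sq]
  refine ⟨a * ε, ?_⟩
  -- the corrected chains
  have hF : sbd _ n (F1 (n + 1) + F2 (n + 1)) = 0 := by
    rw [← fund_eq]
    exact fund_isCyc (n + 1)
  have hs' : sbd _ n ((z1 - (a * ε) • F1 (n + 1)) + (z2 - (a * ε) • F2 (n + 1))) = 0 := by
    have e : (z1 - (a * ε) • F1 (n + 1)) + (z2 - (a * ε) • F2 (n + 1)) =
        (z1 + z2) - (a * ε) • (F1 (n + 1) + F2 (n + 1)) := by
      rw [smul_add]; abel
    rw [e, map_sub, map_smul, hs, hF, smul_zero, sub_zero]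
  have hFc : IsCyc n (F2' n) := isCyc_of_psh _ (inc_injective _) (by
    rw [inc_F2']; exact isCyc_sbd _)
  have hyc2 : IsCyc n (y' + (a * ε) • F2' n) := cyc_add hyc (cyc_smul hFc _)
  obtain ⟨w', hw'⟩ := W_bdy (n + 1) hyc2 (by
    rw [map_add, map_smul, pW_F2', smul_smul, mul_assoc, hεε]
    have e : psh (pW (n + 1)) n y' + (a * -1) • fund n = psh (pW (n + 1)) n y' - a • fund n := by
      rw [mul_neg_one, neg_smul]; abel
    rw [e]
    exact ha)
  have h6 := mv_glue (OO (n + 1) 1) (OO (n + 1) (-1)) (OO_acyc (n + 1) 1 (by norm_num) _)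
      (OO_acyc (n + 1) (-1) (by norm_num) _)
      (Submodule.sub_mem _ h1 (Submodule.smul_mem _ (a * ε) (F1_mem (n + 1))))
      (Submodule.sub_mem _ h2 (Submodule.smul_mem _ (a * ε) (F2_mem (n + 1)))) hs'
      (w := psh (inc (WW (n + 1))) (n + 1) w')
      (by rw [OO_inter]; exact psh_inc_mem _ _)
      (by
        rw [sbd_psh, hw', map_add, map_smul, hy', inc_F2', map_sub, map_smul, sbd_F1]
        rw [smul_neg, sub_neg_eq_add])
  have h7 : z - (a * ε) • fund (n + 1) = (z - (z1 + z2)) +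
      ((z1 - (a * ε) • F1 (n + 1)) + (z2 - (a * ε) • F2 (n + 1))) := by
    rw [fund_eq, smul_add]; abel
  rw [h7]
  exact bdy_add hb h6

/-! ### cocycles -/

/-- a linear functional vanishing on boundaries gives a cocycle -/
theorem coc_of_lin {X : Type u} [TopologicalSpace X] {m : ℕ} (L : Ch X m →ₗ[ℤ] ℤ)
    (hL : ∀ c : Ch X (m + 1), L (sbd X m c) = 0) :
    altd ℤ (sface (X := X)) m (fun σ => L (single σ 1)) = 0 ∧
      ∀ z : Ch X m, evm (fun σ => L (single σ 1)) z = L z := by
  have h1 : evm (fun σ : Sing X m => L (single σ 1)) = L := by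
    apply Finsupp.lhom_ext'
    intro σ
    apply LinearMap.ext_ring
    simp only [LinearMap.comp_apply, lsingle_apply, linearCombination_single, one_smul]
  refine ⟨?_, fun z => by rw [h1]⟩
  funext σ
  rw [altd_eq_ev]
  change evm (fun σ : Sing X m => L (single σ 1)) (sbd X m (single σ 1)) = 0
  rw [h1]
  exact hL _

theorem evm_sbd {X : Type u} [TopologicalSpace X] {m : ℕ} {ω : Sing X m → ℤ}
    (hω : altd ℤ (sface (X := X)) m ω = 0) (c : Ch X (m + 1)) : evm ω (sbd X m c) = 0 := by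
  have := ev_altd (sface (X := X)) m ω c
  rw [hω] at this
  rw [← this]
  simp

/-- rewriting a small chain -/
theorem OO_small (n m : ℕ) (c : Ch (Pc (n + 1)) m) :
    rho {OO n 1, OO n (-1)} m c ∈ Finsupp.supported ℤ ℤ
      (smallSet ({OO n 1, OO n (-1)} : Set (Set (Pc (n + 1)))) m) := by
  apply rho_small
  · intro C hC
    simp only [Set.mem_insert_iff, Set.mem_singleton_iff] at hC
    rcases hC with rfl | rfl
    · exact isOpen_OO _ _
    · exact isOpen_OO _ _
  · intro x
    rcases OO_cover n x with h | h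
    · exact ⟨OO n 1, by simp, h⟩
    · exact ⟨OO n (-1), by simp, h⟩

theorem coc_zero : ∃ ω : Sing (Pc 1) 0 → ℤ,
    altd ℤ (sface (X := Pc 1)) 0 ω = 0 ∧ evm ω (fund 0) = 1 := by
  have hW : ∀ e ∈ sup (WW 0) 0, aug (Pc 1) 0 e = 0 := by
    intro e he
    have := supported_map {σ : Sing (Pc 1) 0 | Set.range σ ⊆ WW 0} (aug (Pc 1) 0) ⊥ (by
      intro σ hσ
      exfalso
      have h1 : σ (stdSimplex.vertex 0) ∈ WW 0 := hσ ⟨_, rfl⟩
      exact h1 (Subsingleton.elim _ _)) e he
    simpa using this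
  obtain ⟨h1, h2⟩ := coc_of_lin ((aug (Pc 1) 0).comp (res (OO 0 1) 0)) (by
    intro c
    have e1 : sbd (Pc 1) 0 c = sbd (Pc 1) 0 (rho {OO 0 1, OO 0 (-1)} 1 c) := by
      rw [sbd_rho]; rfl
    rw [LinearMap.comp_apply, e1]
    have hsm := OO_small 0 1 c
    set c' := rho {OO 0 1, OO 0 (-1)} 1 c with hc'
    have hd := sub_res_mem (OO 0 1) (OO 0 (-1)) hsm
    have hr := res_mem (OO 0 1) c'
    have e2 : c' = res (OO 0 1) 1 c' + (c' - res (OO 0 1) 1 c') := by abel
    rw [e2, map_add, map_add, map_add, res_of_mem (sbd_mem_sup hr)]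
    have h3 : aug (Pc 1) 0 (sbd (Pc 1) 0 (res (OO 0 1) 1 c')) = 0 := aug_sbd _
    have h4 : aug (Pc 1) 0 (res (OO 0 1) 0 (sbd (Pc 1) 0 (c' - res (OO 0 1) 1 c'))) = 0 := by
      apply hW
      rw [← OO_inter]
      exact res_inter (sbd_mem_sup hd)
    rw [h3, h4, add_zero])
  refine ⟨_, h1, ?_⟩
  rw [h2, fund_eq, LinearMap.comp_apply, map_add, map_add, res_of_mem (F1_mem 0)]
  have h3 : aug (Pc 1) 0 (res (OO 0 1) 0 (F2 0)) = 0 := by
    apply hW
    rw [← OO_inter]
    exact res_inter (F2_mem 0)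
  rw [h3, add_zero, F1, map_sum]
  simp only [map_smul, aug_single]
  simp

open Classical in
/-- pull back of a cochain to `WW`, extended by zero -/
noncomputable def tl {n m : ℕ} (ω : Sing (Pc n) m → ℤ) : Sing (Pc (n + 1)) m → ℤ :=
  fun σ => if h : Set.range σ ⊆ WW n then ω ((pW n).comp (liftS σ h)) else 0

theorem ev_tl {n m : ℕ} (ω : Sing (Pc n) m → ℤ) (e : Ch (WW n) m) :
    evm (tl ω) (psh (inc (WW n)) m e) = evm ω (psh (pW n) m e) := by
  have : (evm (tl ω)).comp (psh (inc (WW n)) m) = (evm ω).comp (psh (pW n) m) := by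
    apply Finsupp.lhom_ext'
    intro σ
    apply LinearMap.ext_ring
    simp only [LinearMap.comp_apply, lsingle_apply]
    rw [psh_single, psh_single, linearCombination_single, linearCombination_single, one_smul,
      one_smul]
    have h : Set.range ((inc (WW n)).comp σ) ⊆ WW n := by
      rintro _ ⟨t, rfl⟩
      exact (σ t).2
    rw [tl, dif_pos h]
    rfl
  exact LinearMap.congr_fun this e

theorem coc_step (n : ℕ) (ih : ∃ ω : Sing (Pc (n + 1)) n → ℤ,
    altd ℤ (sface (X := Pc (n + 1))) n ω = 0 ∧ evm ω (fund n) = 1) :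
    ∃ ω : Sing (Pc (n + 2)) (n + 1) → ℤ,
    altd ℤ (sface (X := Pc (n + 2))) (n + 1) ω = 0 ∧ evm ω (fund (n + 1)) = 1 := by
  obtain ⟨ω, hω, hω1⟩ := ih
  have hW : ∀ e ∈ sup (WW (n + 1)) (n + 1), evm (tl ω) (sbd _ n e) = 0 := by
    intro e he
    obtain ⟨e', rfl⟩ := exists_lift he
    rw [sbd_psh, ev_tl, ← sbd_psh]
    exact evm_sbd hω _
  set ε : ℤ := -(-1 : ℤ) ^ (n + 2) with hε
  let L0 : Ch (Pc (n + 2)) (n + 1) →ₗ[ℤ] ℤ := (evm (tl ω)).comp ((sbd _ n).comp
    ((res (OO (n + 1) 1) (n + 1)).comp (rho {OO (n + 1) 1, OO (n + 1) (-1)} (n + 1))))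
  obtain ⟨h1, h2⟩ := coc_of_lin (ε • L0) (by
    intro c
    rw [LinearMap.smul_apply]
    change ε • evm (tl ω) (sbd _ n (res (OO (n + 1) 1) (n + 1)
      (rho {OO (n + 1) 1, OO (n + 1) (-1)} (n + 1) (sbd _ (n + 1) c)))) = 0
    rw [← sbd_rho]
    have hsm := OO_small (n + 1) (n + 1 + 1) c
    set c' := rho {OO (n + 1) 1, OO (n + 1) (-1)} (n + 1 + 1) c with hc'
    have hd := sub_res_mem (OO (n + 1) 1) (OO (n + 1) (-1)) hsm
    have hr := res_mem (OO (n + 1) 1) c'
    have e2 : c' = res (OO (n + 1) 1) (n + 1 + 1) c' + (c' - res (OO (n + 1) 1) (n + 1 + 1) c') := by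
      abel
    rw [e2, map_add, map_add, map_add, map_add, res_of_mem (sbd_mem_sup hr), sbd_sbd, map_zero,
      zero_add]
    rw [hW _ (by rw [← OO_inter]; exact res_inter (sbd_mem_sup hd)), smul_zero])
  refine ⟨_, h1, ?_⟩
  rw [h2, LinearMap.smul_apply]
  change ε • evm (tl ω) (sbd _ n (res (OO (n + 1) 1) (n + 1)
      (rho {OO (n + 1) 1, OO (n + 1) (-1)} (n + 1) (fund (n + 1))))) = 1
  have hsmall : fund (n + 1) ∈ Finsupp.supported ℤ ℤ
      (smallSet ({OO (n + 1) 1, OO (n + 1) (-1)} : Set (Set (Pc (n + 1 + 1)))) (n + 1)) := by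
    rw [fund_eq]
    apply Submodule.add_mem
    · refine Finsupp.supported_mono ?_ (F1_mem (n + 1))
      intro σ hσ
      exact ⟨OO (n + 1) 1, by simp, hσ⟩
    · refine Finsupp.supported_mono ?_ (F2_mem (n + 1))
      intro σ hσ
      exact ⟨OO (n + 1) (-1), by simp, hσ⟩
  have h3 : evm (tl ω) (sbd _ n (res (OO (n + 1) 1) (n + 1) (F2 (n + 1)))) = 0 :=
    hW _ (by rw [← OO_inter]; exact res_inter (F2_mem (n + 1)))
  rw [rho_id _ _ _ hsmall, fund_eq, map_add, res_of_mem (F1_mem (n + 1)), map_add, map_add,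
    h3, add_zero, sbd_F1, ← inc_F2', map_neg, ev_tl, pW_F2', map_smul, hω1, hε]
  simp only [smul_eq_mul, mul_one]
  rw [neg_mul_neg, sign_sq]

end fundamental

end Pool.Agent.H904R2.Sph

namespace Pool.Agent.H904R2

open Pool.Agent.Helper922.HB.Sc (Sing sface altd bd sbd)

theorem fund_cyc (n : ℕ) : IsCyc n (fund n) := Sph.fund_isCyc n

theorem pc_acyc (n m : ℕ) (h : m ≠ n) : RAcyc (Pc (n + 1)) m := by
  induction n generalizing m with
  | zero =>
    cases m with
    | zero => exact absurd rfl h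
    | succ m =>
      apply Sph.step_acyc
      intro z _
      have : IsEmpty (Pc 0) := ⟨fun v => v.2 (Subsingleton.elim _ _)⟩
      have hS : IsEmpty (Sing (Pc 0) m) := ⟨fun σ => this.false (σ (stdSimplex.vertex 0))⟩
      exact ⟨0, Subsingleton.elim _ _⟩
  | succ n ih =>
    cases m with
    | zero => exact Sph.zero_acyc n
    | succ m => exact Sph.step_acyc (n + 1) m (ih m (by omega))

theorem pc_gen (n : ℕ) (z : Ch (Pc (n + 1)) n) (hz : IsCyc n z) :
    ∃ a : ℤ, IsBdy n (z - a • fund n) := by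
  induction n with
  | zero => exact Sph.gen_zero z hz
  | succ n ih => exact Sph.gen_step n ih z hz

theorem pc_coc (n : ℕ) : ∃ ω : Sing (Pc (n + 1)) n → ℤ,
    altd ℤ (sface (X := Pc (n + 1))) n ω = 0 ∧ evm ω (fund n) = 1 := by
  induction n with
  | zero => exact Sph.coc_zero
  | succ n ih => exact Sph.coc_step n ih

end Pool.Agent.H904R2
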