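import Pool.Agent.H904R2.CellA
import Pool.Agent.H904R2.Sphere

/-! Task 6, part B: relative homology of a simplex modulo the complement of its barycentre. -/

set_option autoImplicit false

namespace Pool.Agent.H904R2

open Finsupp
open Pool.Agent.Helper922.HB.Sc (Sing sface altd bd sbd)

namespace Cell

open Prd Pool.Agent.Helper922.HB.Sc

/-- barycentre -/
noncomputable def bc (n : ℕ) : Dl n := stdSimplex.barycenter

theorem bc_coe (n : ℕ) (i : Fin (n + 1)) : (bc n).1 i = 1 / ((n : ℝ) + 1) := by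
  simp [bc, stdSimplex.barycenter]

/-- the punctured simplex -/
def Db (n : ℕ) : Set (Dl n) := {t | t ≠ bc n}

theorem Lmap_bc (n : ℕ) : Lmap n (bc n) = 0 := by
  funext j
  simp [Lmap, bc_coe]

theorem eq_bc (n : ℕ) (t : Dl n) (h : ∀ i, t.1 i = t.1 0) : t = bc n := by
  apply Subtype.ext
  funext i
  rw [bc_coe]
  have h1 := t.2.2
  rw [Finset.sum_congr rfl (fun i _ => h i), Finset.sum_const, Finset.card_univ,
    Fintype.card_fin, nsmul_eq_mul] at h1
  push_cast at h1
  rw [h i]
  field_simp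
  linarith

theorem Lmap_ne (n : ℕ) (t : Dl n) (ht : t ≠ bc n) : Lmap n t ≠ 0 := by
  intro h
  apply ht
  apply eq_bc
  intro i
  refine Fin.cases rfl (fun j => ?_) i
  have := congrFun h j
  simp only [Lmap, Pi.zero_apply, sub_eq_zero] at this
  exact this

/-- `L : Δ ∖ b → ℝ^n ∖ 0` -/
noncomputable def LL (n : ℕ) : C(Db n, Pc n) :=
  ⟨fun t => ⟨Lmap n t.1, Lmap_ne n t.1 t.2⟩,
    ((continuous_Lmap n).comp continuous_subtype_val).subtype_mk _⟩

/-- the scaling factor -/
noncomputable def sc (n : ℕ) (v : Fin n → ℝ) : ℝ := 1 / (2 * ((n : ℝ) + 1) * (1 + ∑ j, |v j|))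

theorem sc_pos (n : ℕ) (v : Fin n → ℝ) : 0 < sc n v := by
  unfold sc
  have : 0 ≤ ∑ j, |v j| := Finset.sum_nonneg fun j _ => abs_nonneg _
  positivity

/-- the displacement -/
noncomputable def dsp (n : ℕ) (v : Fin n → ℝ) (i : Fin (n + 1)) : ℝ :=
  (Fin.cons 0 v : Fin (n + 1) → ℝ) i - (∑ j, v j) / ((n : ℝ) + 1)

theorem dsp_sum (n : ℕ) (v : Fin n → ℝ) : ∑ i, dsp n v i = 0 := by
  unfold dsp
  rw [Finset.sum_sub_distrib, Fin.sum_univ_succ]
  simp only [Fin.cons_zero, Fin.cons_succ, Finset.sum_const, Finset.card_univ, Fintype.card_fin,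
    nsmul_eq_mul]
  push_cast
  field_simp
  ring

theorem dsp_abs (n : ℕ) (v : Fin n → ℝ) (i : Fin (n + 1)) : |dsp n v i| ≤ 2 * ∑ j, |v j| := by
  unfold dsp
  have h1 : |(Fin.cons 0 v : Fin (n + 1) → ℝ) i| ≤ ∑ j, |v j| := by
    refine Fin.cases ?_ (fun j => ?_) i
    · simp only [Fin.cons_zero, abs_zero]
      exact Finset.sum_nonneg fun j _ => abs_nonneg _
    · simp only [Fin.cons_succ]
      exact Finset.single_le_sum (f := fun j => |v j|) (fun j _ => abs_nonneg _)
        (Finset.mem_univ j)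
  have h2 : |(∑ j, v j) / ((n : ℝ) + 1)| ≤ ∑ j, |v j| := by
    rw [abs_div, abs_of_pos (by positivity : (0 : ℝ) < (n : ℝ) + 1)]
    have h3 : |∑ j, v j| ≤ ∑ j, |v j| := Finset.abs_sum_le_sum_abs _ _
    have h4 : 0 ≤ ∑ j, |v j| := Finset.sum_nonneg fun j _ => abs_nonneg _
    rw [div_le_iff₀ (by positivity)]
    nlinarith [Nat.cast_nonneg (α := ℝ) n]
  calc _ ≤ |(Fin.cons 0 v : Fin (n + 1) → ℝ) i| + |(∑ j, v j) / ((n : ℝ) + 1)| := abs_sub _ _
    _ ≤ _ := by linarith

theorem gmem (n : ℕ) (v : Fin n → ℝ) :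
    (fun i => 1 / ((n : ℝ) + 1) + sc n v * dsp n v i) ∈ stdSimplex ℝ (Fin (n + 1)) := by
  constructor
  · intro i
    have h1 := dsp_abs n v i
    have h2 := sc_pos n v
    have h0 : 0 ≤ ∑ j, |v j| := Finset.sum_nonneg fun j _ => abs_nonneg _
    have h3 : sc n v * |dsp n v i| ≤ 1 / ((n : ℝ) + 1) := by
      calc _ ≤ sc n v * (2 * ∑ j, |v j|) := by gcongr
        _ ≤ sc n v * (2 * (1 + ∑ j, |v j|)) := by gcongr; linarith
        _ = 1 / ((n : ℝ) + 1) := by
          unfold sc
          field_simp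
    have h4 := neg_abs_le (sc n v * dsp n v i)
    rw [abs_mul, abs_of_pos h2] at h4
    linarith
  · rw [Finset.sum_add_distrib, ← Finset.mul_sum, dsp_sum]
    simp only [Finset.sum_const, Finset.card_univ, Fintype.card_fin, nsmul_eq_mul]
    push_cast
    field_simp
    ring

theorem dsp_ne (n : ℕ) (v : Fin n → ℝ) (hv : v ≠ 0) : ∃ i, dsp n v i ≠ 0 := by
  by_contra h
  push Not at h
  apply hv
  funext j
  have h1 := h j.succ
  have h2 := h 0
  simp only [dsp, Fin.cons_zero, Fin.cons_succ] at h1 h2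
  simp only [Pi.zero_apply]
  linarith

theorem continuous_sc (n : ℕ) : Continuous (sc n) := by
  unfold sc
  apply Continuous.div continuous_const (by fun_prop)
  intro v
  have : 0 ≤ ∑ j, |v j| := Finset.sum_nonneg fun j _ => abs_nonneg _
  positivity

theorem continuous_dsp (n : ℕ) (i : Fin (n + 1)) : Continuous (fun v => dsp n v i) := by
  unfold dsp
  apply Continuous.sub
  · refine Fin.cases ?_ (fun j => ?_) i
    · simp only [Fin.cons_zero]; exact continuous_const
    · simp only [Fin.cons_succ]; exact continuous_apply j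
  · fun_prop

/-- the map back -/
noncomputable def gg (n : ℕ) : C(Pc n, Db n) :=
  ⟨fun v => ⟨⟨_, gmem n v.1⟩, by
      intro h
      obtain ⟨i, hi⟩ := dsp_ne n v.1 v.2
      have h1 := congrFun (congrArg Subtype.val h) i
      simp only [bc_coe] at h1
      have h2 := sc_pos n v.1
      apply hi
      have : sc n v.1 * dsp n v.1 i = 0 := by linarith
      exact (mul_eq_zero.1 this).resolve_left h2.ne'⟩, by
    apply Continuous.subtype_mk
    apply Continuous.subtype_mk
    refine continuous_pi fun i => ?_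
    exact continuous_const.add (((continuous_sc n).comp continuous_subtype_val).mul
      ((continuous_dsp n i).comp continuous_subtype_val))⟩

theorem dsp_Lmap (n : ℕ) (t : Dl n) (i : Fin (n + 1)) :
    dsp n (Lmap n t) i = t.1 i - 1 / ((n : ℝ) + 1) := by
  have h1 : ∑ j, Lmap n t j = 1 - ((n : ℝ) + 1) * t.1 0 := by
    have := t.2.2
    rw [Fin.sum_univ_succ] at this
    simp only [Lmap, Finset.sum_sub_distrib, Finset.sum_const, Finset.card_univ,
      Fintype.card_fin, nsmul_eq_mul]
    linarith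
  have h2 : (Fin.cons 0 (Lmap n t) : Fin (n + 1) → ℝ) i = t.1 i - t.1 0 := by
    refine Fin.cases ?_ (fun j => ?_) i
    · simp
    · simp [Lmap]
  unfold dsp
  rw [h1, h2]
  field_simp
  ring

theorem gg_LL (n : ℕ) (t : Db n) (i : Fin (n + 1)) :
    (gg n (LL n t)).1.1 i = 1 / ((n : ℝ) + 1) +
      sc n (Lmap n t.1) * (t.1.1 i - 1 / ((n : ℝ) + 1)) := by
  change 1 / ((n : ℝ) + 1) + sc n (Lmap n t.1) * dsp n (Lmap n t.1) i = _
  rw [dsp_Lmap]

/-- the homotopy between `gg ∘ LL` and the identity -/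
noncomputable def GH (n : ℕ) : C(Db n × unitInterval, Db n) :=
  ⟨fun p => ⟨⟨(p.2 : ℝ) • p.1.1.1 + (1 - (p.2 : ℝ)) • (gg n (LL n p.1)).1.1,
      convex_stdSimplex ℝ (Fin (n + 1)) p.1.1.2 (gg n (LL n p.1)).1.2 p.2.2.1
        (by linarith [p.2.2.2]) (by ring)⟩, by
      intro h
      apply p.1.2
      apply Subtype.ext
      funext i
      have h1 := congrFun (congrArg Subtype.val h) i
      simp only [Pi.add_apply, Pi.smul_apply, smul_eq_mul, gg_LL, bc_coe] at h1
      rw [bc_coe]
      have h2 := sc_pos n (Lmap n p.1.1)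
      have h3 : ((p.2 : ℝ) + (1 - p.2) * sc n (Lmap n p.1.1)) * (p.1.1.1 i - 1 / ((n : ℝ) + 1)) = 0 := by
        linarith
      rcases mul_eq_zero.1 h3 with h4 | h4
      · have h5 := p.2.2.1
        have h6 := p.2.2.2
        exfalso
        rcases h5.eq_or_lt with h7 | h7
        · rw [← h7] at h4
          linarith
        · have : 0 ≤ (1 - (p.2 : ℝ)) * sc n (Lmap n p.1.1) :=
            mul_nonneg (by linarith) h2.le
          linarith
      · linarith⟩, by
    apply Continuous.subtype_mk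
    apply Continuous.subtype_mk
    have h1 : Continuous fun p : Db n × unitInterval => (gg n (LL n p.1)).1.1 :=
      continuous_subtype_val.comp (continuous_subtype_val.comp
        ((gg n).continuous.comp ((LL n).continuous.comp continuous_fst)))
    have h2 : Continuous fun p : Db n × unitInterval => p.1.1.1 :=
      continuous_subtype_val.comp (continuous_subtype_val.comp continuous_fst)
    have h3 : Continuous fun p : Db n × unitInterval => (p.2 : ℝ) :=
      continuous_subtype_val.comp continuous_snd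
    exact (h3.smul h2).add ((continuous_const.sub h3).smul h1)⟩

theorem slice_GH_one (n : ℕ) : slice (GH n) 1 = ContinuousMap.id _ := by
  apply ContinuousMap.ext
  intro t
  apply Subtype.ext
  apply Subtype.ext
  simp [slice, GH]

theorem slice_GH_zero (n : ℕ) : slice (GH n) 0 = (gg n).comp (LL n) := by
  apply ContinuousMap.ext
  intro t
  apply Subtype.ext
  apply Subtype.ext
  simp [slice, GH]

theorem Db_htpy (n m : ℕ) (z : Ch (Db n) m) (hz : IsCyc m z) :
    IsBdy m (z - psh (gg n) m (psh (LL n) m z)) := by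
  have := htpy_bdy (GH n) m z hz
  rwa [slice_GH_one, slice_GH_zero, psh_id, ← psh_psh] at this

/-- the identity simplex -/
noncomputable def idc (n : ℕ) : Ch (Dl n) n := single (ContinuousMap.id _) 1

/-- multiples of the identity simplex, in degree `n` only -/
noncomputable def AA (n m : ℕ) : Submodule ℤ (Ch (Dl n) m) :=
  Finsupp.supported ℤ ℤ {σ : Sing (Dl n) m |
    (⟨m, σ⟩ : Σ q, Sing (Dl n) q) = ⟨n, ContinuousMap.id _⟩}

theorem idc_mem (n : ℕ) (a : ℤ) : a • idc n ∈ AA n n :=
  Submodule.smul_mem _ _ (Finsupp.single_mem_supported ℤ _ rfl)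

/-- the faces of the simplex avoid the barycentre -/
noncomputable def faceD (n : ℕ) (i : Fin (n + 2)) : Sing (Db (n + 1)) n :=
  ⟨fun t => ⟨stdSimplex.map i.succAbove t, by
    intro h
    exact Lmap_face_ne n i t (by rw [h, Lmap_bc])⟩,
    (stdSimplex.continuous_map _).subtype_mk _⟩

noncomputable def dl (n : ℕ) : Ch (Db (n + 1)) n :=
  ∑ i : Fin (n + 2), ((-1 : ℤ) ^ (i : ℕ)) • single (faceD n i) (1 : ℤ)

theorem inc_dl (n : ℕ) : psh (inc (Db (n + 1))) n (dl n) = sbd _ n (idc (n + 1)) := by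
  rw [idc, sbd, bd_single, dl, map_sum]
  refine Finset.sum_congr rfl fun i _ => ?_
  rw [map_smul, psh_single]
  rfl

theorem LL_dl (n : ℕ) : psh (LL (n + 1)) n (dl n) = fund n := by
  rw [dl, fund, map_sum]
  refine Finset.sum_congr rfl fun i _ => ?_
  rw [map_smul, psh_single]
  rfl

theorem Db_zero : Db 0 = ∅ := by
  ext t
  simp only [Db, Set.mem_setOf_eq, Set.mem_empty_iff_false, iff_false, not_not]
  exact Subsingleton.elim (α := stdSimplex ℝ (Fin 1)) _ _

theorem Cs_empty {X : Type} [TopologicalSpace X] (m : ℕ) {z : Ch X m}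
    (h : z ∈ Cs (∅ : Set X) m) : z = 0 := by
  have : z ∈ (⊥ : Submodule ℤ (Ch X m)) := by
    refine map_Cs LinearMap.id ⊥ ?_ h
    intro σ hσ
    exact absurd (hσ ⟨vert m 0, rfl⟩) (Set.notMem_empty _)
  simpa using this

theorem evm_one_psh {X Y : Type} [TopologicalSpace X] [TopologicalSpace Y] (f : C(X, Y)) {m : ℕ}
    (z : Ch X m) : evm (fun _ => (1 : ℤ)) (psh f m z) = evm (fun _ => (1 : ℤ)) z :=
  evm_psh f _ z

theorem evm_one {X : Type} [TopologicalSpace X] {m : ℕ} (z : Ch X m) :
    evm (fun _ => (1 : ℤ)) z = z.sum (fun _ a => a) := by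
  rw [evm, Finsupp.linearCombination_apply]
  simp

theorem evm_one_sbd {X : Type} [TopologicalSpace X] (z : Ch X 1) :
    evm (fun _ => (1 : ℤ)) (sbd X 0 z) = 0 := by
  rw [ev_sbd]
  have : altd ℤ (sface (X := X)) 0 (fun _ => (1 : ℤ)) = 0 := by
    funext σ
    simp [altd, Fin.sum_univ_two]
  rw [this]
  simp [evm]

theorem rel_zero (n : ℕ) (w : Ch (Dl n) 0) : ∃ y : Ch (Dl n) 1, ∃ u ∈ Cs (Db n) 0,
    ∃ A ∈ AA n 0, w = u + A + sbd _ 0 y := by
  cases n with
  | zero =>
    refine ⟨0, 0, Submodule.zero_mem _, w, ?_, by simp⟩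
    rw [AA, Finsupp.mem_supported]
    intro σ _
    have : σ = ContinuousMap.id _ := by
      apply ContinuousMap.ext
      intro x
      exact Subsingleton.elim (α := stdSimplex ℝ (Fin 1)) _ _
    rw [this]
    rfl
  | succ n =>
    have hv : vert (n + 1) 0 ≠ bc (n + 1) := by
      intro h
      have h1 := congrFun (congrArg Subtype.val h) 1
      rw [vert_ne _ _ _ (by simp), bc_coe] at h1
      have : (0 : ℝ) < 1 / (((n + 1 : ℕ) : ℝ) + 1) := by positivity
      linarith
    set k := evm (fun _ => (1 : ℤ)) w with hk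
    set u : Ch (Dl (n + 1)) 0 := single (ContinuousMap.const _ (vert (n + 1) 0)) k with hu
    have hc : IsCyc 0 (w - u) := by
      change (w - u).sum (fun _ a => a) = 0
      rw [← evm_one, map_sub, ← hk, hu]
      simp [evm]
    obtain ⟨y, hy⟩ := racyc_Dl (n + 1) 0 _ hc
    refine ⟨y, u, ?_, 0, Submodule.zero_mem _, by rw [hy]; abel⟩
    refine single_mem_Cs ?_ _
    rintro _ ⟨x, rfl⟩
    exact hv

theorem rel_succ (n m : ℕ) (w : Ch (Dl n) (m + 1)) (hw : sbd _ m w ∈ Cs (Db n) m) :
    ∃ y : Ch (Dl n) (m + 2), ∃ u ∈ Cs (Db n) (m + 1),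
    ∃ A ∈ AA n (m + 1), w = u + A + sbd _ (m + 1) y := by
  cases n with
  | zero =>
    rw [Db_zero] at hw
    obtain ⟨y, hy⟩ := racyc_Dl 0 (m + 1) w (Cs_empty _ hw)
    exact ⟨y, 0, Submodule.zero_mem _, 0, Submodule.zero_mem _, by rw [hy]; simp⟩
  | succ n =>
    obtain ⟨y, hy⟩ := exists_lift hw
    have hyc : IsCyc m y := by
      cases m with
      | zero =>
        change y.sum (fun _ a => a) = 0
        rw [← evm_one, ← evm_one_psh (inc (Db (n + 1))), hy, evm_one_sbd]
      | succ m =>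
        change sbd _ m y = 0
        apply psh_inc_inj
        rw [← sbd_psh, hy, sbd_sbd, map_zero]
    -- the key claim
    have key : ∃ A ∈ AA (n + 1) (m + 1), ∃ y' : Ch (Db (n + 1)) (m + 1),
        sbd _ m (w - A - psh (inc (Db (n + 1))) (m + 1) y') = 0 := by
      by_cases hmn : m = n
      · subst hmn
        obtain ⟨a, ha⟩ := pc_gen m _ (isCyc_psh (LL (m + 1)) m y hyc)
        have h1 : IsCyc m (y - a • dl m) := by
          have h2 : ∀ (m : ℕ) (z z' : Ch (Db (m + 1)) m), IsCyc m z → IsCyc m z' →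
              IsCyc m (z - a • z') := by
            intro m z z' hz hz'
            cases m with
            | zero =>
              change (z - a • z').sum (fun _ a => a) = 0
              rw [← evm_one, map_sub, map_smul, evm_one, evm_one, show z.sum (fun _ a => a) = 0 from hz,
                show z'.sum (fun _ a => a) = 0 from hz']
              simp
            | succ m =>
              change sbd _ m (z - a • z') = 0
              rw [map_sub, map_smul, show sbd _ m z = 0 from hz, show sbd _ m z' = 0 from hz']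
              simp
          apply h2 m y (dl m) hyc
          cases m with
          | zero =>
            change (dl 0).sum (fun _ a => a) = 0
            rw [← evm_one, ← evm_one_psh (inc (Db (0 + 1))), inc_dl, evm_one_sbd]
          | succ m =>
            change sbd _ m (dl (m + 1)) = 0
            apply psh_inc_inj
            rw [← sbd_psh, inc_dl, sbd_sbd, map_zero]
        have h2 : IsBdy m (y - a • dl m) := by
          have h3 := Db_htpy (m + 1) m _ h1
          have h4 : IsBdy m (psh (LL (m + 1)) m (y - a • dl m)) := by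
            rw [map_sub, map_smul, LL_dl]
            exact ha
          have h5 := isBdy_add h3 (isBdy_psh (gg (m + 1)) m _ h4)
          rwa [sub_add_cancel] at h5
        obtain ⟨y', hy'⟩ := h2
        refine ⟨a • idc (m + 1), idc_mem _ a, y', ?_⟩
        rw [map_sub, map_sub, map_smul, sbd_psh, hy', map_sub, map_smul, inc_dl, hy]
        abel
      · have h1 := pc_acyc n m hmn _ (isCyc_psh (LL (n + 1)) m y hyc)
        have h2 : IsBdy m y := by
          have h5 := isBdy_add (Db_htpy (n + 1) m y hyc) (isBdy_psh (gg (n + 1)) m _ h1)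
          rwa [sub_add_cancel] at h5
        obtain ⟨y', hy'⟩ := h2
        refine ⟨0, Submodule.zero_mem _, y', ?_⟩
        rw [map_sub, map_sub, sbd_psh, hy', hy]
        simp
    obtain ⟨A, hA, y', hy'⟩ := key
    obtain ⟨y2, hy2⟩ := racyc_Dl (n + 1) (m + 1) _ hy'
    refine ⟨y2, psh (inc (Db (n + 1))) (m + 1) y', psh_inc_mem _ _ _, A, hA, ?_⟩
    rw [hy2]
    abel

theorem rel_coc (n : ℕ) : ∃ θ : Ch (Dl n) n →ₗ[ℤ] ℤ, (∀ u ∈ Cs (Db n) n, θ u = 0) ∧
    (∀ y, θ (sbd _ n y) = 0) ∧ θ (idc n) = 1 := by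
  classical
  cases n with
  | zero =>
    refine ⟨evm (fun _ => 1), ?_, evm_one_sbd, ?_⟩
    · intro u hu
      rw [Db_zero] at hu
      rw [Cs_empty _ hu, map_zero]
    · rw [idc, evm_single]
  | succ n =>
    obtain ⟨ω, h1, h2⟩ := pc_coc n
    let ω' : Sing (Dl (n + 1)) n → ℤ := fun σ =>
      if h : Set.range σ ⊆ Db (n + 1) then
        ω ((LL (n + 1)).comp ⟨fun x => ⟨σ x, h ⟨x, rfl⟩⟩, by fun_prop⟩) else 0
    have h3 : ∀ u : Ch (Db (n + 1)) n, evm ω' (psh (inc (Db (n + 1))) n u) =
        evm ω (psh (LL (n + 1)) n u) := by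
      intro u
      rw [evm_psh, evm_psh]
      have : pb (inc (Db (n + 1))) ω' = pb (LL (n + 1)) ω := by
        funext σ
        have hr : Set.range ((inc (Db (n + 1))).comp σ) ⊆ Db (n + 1) := by
          rintro _ ⟨x, rfl⟩
          exact (σ x).2
        simp only [pb, ω']
        rw [dif_pos hr]
        rfl
      rw [this]
    refine ⟨(evm ω').comp (sbd _ n), ?_, ?_, ?_⟩
    · intro u hu
      obtain ⟨u', rfl⟩ := exists_lift hu
      rw [LinearMap.comp_apply, sbd_psh, h3, ← sbd_psh, ev_sbd, h1]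
      simp [evm]
    · intro y
      rw [LinearMap.comp_apply, sbd_sbd, map_zero]
    · rw [LinearMap.comp_apply, ← inc_dl, h3, LL_dl, h2]

end Cell

end Pool.Agent.H904R2
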