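import Pool.Agent.H904R2.CellB

/-! Task 6, part C: topology of a cell attachment. -/

set_option autoImplicit false

namespace Pool.Agent.H904R2

open Finsupp
open Pool.Agent.Helper922.HB.Sc (Sing sface altd bd sbd)

namespace Cell

open Prd Pool.Agent.Helper922.HB.Sc

/-- `X = Y ∪ Φ(Δⁿ)` -/
structure Att {X : Type} [TopologicalSpace X] (Y : Set X) (n : ℕ) (Φ : Sing X n) : Prop where
  hY : IsClosed Y
  hcov : Y ∪ Set.range Φ = Set.univ
  hbd : ∀ t : Dl n, (∃ i, t.1 i = 0) → Φ t ∈ Y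
  hint : ∀ t : Dl n, (∀ i, t.1 i ≠ 0) → Φ t ∉ Y
  hinj : ∀ s t : Dl n, (∀ i, s.1 i ≠ 0) → (∀ i, t.1 i ≠ 0) → Φ s = Φ t → s = t

/-- the interior of the simplex -/
def Di (n : ℕ) : Set (Dl n) := {t | ∀ i, t.1 i ≠ 0}

theorem isOpen_Di (n : ℕ) : IsOpen (Di n) := by
  have : Di n = ⋂ i, {t : Dl n | t.1 i ≠ 0} := by
    ext t
    simp [Di]
  rw [this]
  refine isOpen_iInter_of_finite fun i => ?_
  exact isOpen_ne_fun ((continuous_apply i).comp continuous_subtype_val) continuous_const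

theorem isOpen_Db (n : ℕ) : IsOpen (Db n) := isOpen_ne

theorem bc_mem_Di (n : ℕ) : bc n ∈ Di n := by
  intro i
  rw [bc_coe]
  positivity

theorem cover_Dl (n : ℕ) : Db n ∪ Di n = Set.univ := by
  ext t
  simp only [Set.mem_union, Set.mem_univ, iff_true]
  by_cases h : t = bc n
  · right; rw [h]; exact bc_mem_Di n
  · left; exact h

/-! the homotopy on the simplex -/

/-- the minimum of the coordinates -/
noncomputable def mu {n : ℕ} (t : Dl n) : ℝ :=
  Finset.univ.inf' ⟨0, Finset.mem_univ 0⟩ (fun i : Fin (n + 1) => t.1 i)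

theorem mu_le {n : ℕ} (t : Dl n) (i : Fin (n + 1)) : mu t ≤ t.1 i :=
  Finset.inf'_le _ (Finset.mem_univ i)

theorem exists_mu {n : ℕ} (t : Dl n) : ∃ i, mu t = t.1 i := by
  obtain ⟨i, _, h⟩ := Finset.exists_mem_eq_inf' (s := Finset.univ) ⟨0, Finset.mem_univ 0⟩
    (fun i : Fin (n + 1) => t.1 i)
  exact ⟨i, h⟩

theorem mu_nonneg {n : ℕ} (t : Dl n) : 0 ≤ mu t := by
  obtain ⟨i, h⟩ := exists_mu t
  rw [h]
  exact t.2.1 i

theorem continuous_mu (n : ℕ) : Continuous (mu (n := n)) := by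
  unfold mu
  apply Continuous.finset_inf'_apply
  intro i _
  exact (continuous_apply i).comp continuous_subtype_val

theorem mu_lt {n : ℕ} (t : Dl n) (ht : t ∈ Db n) : ((n : ℝ) + 1) * mu t < 1 := by
  have h1 : ∑ i, (t.1 i - mu t) = 1 - ((n : ℝ) + 1) * mu t := by
    rw [Finset.sum_sub_distrib, t.2.2]
    simp
  have h2 : ∀ i ∈ Finset.univ, 0 ≤ t.1 i - mu t := fun i _ => by linarith [mu_le t i]
  by_contra h
  push Not at h
  have h3 : ∑ i, (t.1 i - mu t) = 0 := le_antisymm (by rw [h1]; linarith) (Finset.sum_nonneg h2)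
  rw [Finset.sum_eq_zero_iff_of_nonneg h2] at h3
  apply ht
  apply eq_bc
  intro i
  linarith [h3 i (Finset.mem_univ i), h3 0 (Finset.mem_univ 0)]

theorem den_pos {n : ℕ} (t : Dl n) (ht : t ∈ Db n) (τ : unitInterval) :
    0 < 1 - ((n : ℝ) + 1) * ((τ : ℝ) * mu t) := by
  have h1 := mu_lt t ht
  have h2 := mu_nonneg t
  have h3 : (τ : ℝ) * mu t ≤ mu t := by
    have := mul_le_mul_of_nonneg_right τ.2.2 h2
    linarith
  have h4 : ((n : ℝ) + 1) * ((τ : ℝ) * mu t) ≤ ((n : ℝ) + 1) * mu t := by gcongr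
  linarith

/-- the deformation of the punctured simplex to the boundary -/
noncomputable def RR (n : ℕ) : C(Db n × unitInterval, Dl n) :=
  ⟨fun p => ⟨fun i => (p.1.1.1 i - (p.2 : ℝ) * mu p.1.1) / (1 - ((n : ℝ) + 1) * ((p.2 : ℝ) * mu p.1.1)),
    by
      have hd := den_pos p.1.1 p.1.2 p.2
      constructor
      · intro i
        apply div_nonneg _ hd.le
        have h2 := mu_nonneg p.1.1
        have h3 : (p.2 : ℝ) * mu p.1.1 ≤ mu p.1.1 := by
          have := mul_le_mul_of_nonneg_right p.2.2.2 h2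
          linarith
        linarith [mu_le p.1.1 i]
      · rw [← Finset.sum_div, Finset.sum_sub_distrib, p.1.1.2.2]
        simp only [Finset.sum_const, Finset.card_univ, Fintype.card_fin, nsmul_eq_mul]
        push_cast
        exact div_self hd.ne'⟩, by
    apply Continuous.subtype_mk
    refine continuous_pi fun i => ?_
    have h1 : Continuous fun p : Db n × unitInterval => p.1.1.1 i :=
      (continuous_apply i).comp (continuous_subtype_val.comp
        (continuous_subtype_val.comp continuous_fst))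
    have h2 : Continuous fun p : Db n × unitInterval => mu p.1.1 :=
      (continuous_mu n).comp (continuous_subtype_val.comp continuous_fst)
    have h3 : Continuous fun p : Db n × unitInterval => (p.2 : ℝ) :=
      continuous_subtype_val.comp continuous_snd
    refine Continuous.div (h1.sub (h3.mul h2)) (by fun_prop) ?_
    intro p
    exact (den_pos p.1.1 p.1.2 p.2).ne'⟩

theorem RR_coe (n : ℕ) (t : Db n) (τ : unitInterval) (i : Fin (n + 1)) :
    (RR n (t, τ)).1 i = (t.1.1 i - (τ : ℝ) * mu t.1) / (1 - ((n : ℝ) + 1) * ((τ : ℝ) * mu t.1)) := rfl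

theorem RR_zero (n : ℕ) (t : Db n) : RR n (t, 0) = t.1 := by
  apply Subtype.ext
  funext i
  rw [RR_coe]
  simp

theorem RR_bd (n : ℕ) (t : Db n) (h : ∃ i, t.1.1 i = 0) (τ : unitInterval) :
    RR n (t, τ) = t.1 := by
  have hm : mu t.1 = 0 := by
    obtain ⟨i, hi⟩ := h
    exact le_antisymm (hi ▸ mu_le t.1 i) (mu_nonneg _)
  apply Subtype.ext
  funext i
  rw [RR_coe, hm]
  simp

theorem RR_one (n : ℕ) (t : Db n) : ∃ i, (RR n (t, 1)).1 i = 0 := by
  obtain ⟨i, hi⟩ := exists_mu t.1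
  refine ⟨i, ?_⟩
  rw [RR_coe, hi]
  simp

variable {X : Type} [TopologicalSpace X] {Y : Set X} {n : ℕ} {Φ : Sing X n}

/-- the complement of the centre -/
def WW (Φ : Sing X n) : Set X := {x | x ≠ Φ (bc n)}

namespace Att

theorem mem_Di_iff (h : Att Y n Φ) (t : Dl n) : t ∈ Di n ↔ Φ t ∉ Y := by
  constructor
  · exact h.hint t
  · intro h1 i hi
    exact h1 (h.hbd t ⟨i, hi⟩)

theorem mem_Db_iff (h : Att Y n Φ) (t : Dl n) : t ∈ Db n ↔ Φ t ∈ WW Φ := by
  constructor
  · intro ht h1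
    apply ht
    refine h.hinj _ _ ?_ (bc_mem_Di n) h1
    have : Φ t ∉ Y := by
      rw [show Φ t = Φ (bc n) from h1]
      exact h.hint _ (bc_mem_Di n)
    exact (h.mem_Di_iff t).2 this
  · rintro h1 rfl
    exact h1 rfl

theorem cover (h : Att Y n Φ) : WW Φ ∪ Yᶜ = Set.univ := by
  ext x
  simp only [Set.mem_union, Set.mem_univ, iff_true]
  by_cases hx : x ∈ Y
  · left
    rintro rfl
    exact h.hint _ (bc_mem_Di n) hx
  · right; exact hx

theorem sub (h : Att Y n Φ) : Y ⊆ WW Φ := by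
  rintro x hx rfl
  exact h.hint _ (bc_mem_Di n) hx

theorem exists_pre (h : Att Y n Φ) (x : X) (hx : x ∉ Y) : ∃ t, Φ t = x := by
  have : x ∈ Y ∪ Set.range Φ := h.hcov ▸ Set.mem_univ x
  exact this.resolve_left hx

theorem isOpen_WW [T2Space X] : IsOpen (WW Φ) := isOpen_ne

theorem closedMap [T2Space X] : IsClosedMap Φ := Φ.continuous.isClosedMap

/-- the inverse of `Φ` on the open cell -/
noncomputable def psi (h : Att Y n Φ) (x : X) (hx : x ∉ Y) : Dl n := (h.exists_pre x hx).choose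

theorem psi_spec (h : Att Y n Φ) (x : X) (hx : x ∉ Y) : Φ (h.psi x hx) = x :=
  (h.exists_pre x hx).choose_spec

theorem psi_Di (h : Att Y n Φ) (x : X) (hx : x ∉ Y) : h.psi x hx ∈ Di n := by
  rw [h.mem_Di_iff, psi_spec]
  exact hx

theorem eq_psi (h : Att Y n Φ) (t : Dl n) (ht : Φ t ∉ Y) : t = h.psi (Φ t) ht := by
  apply h.hinj _ _ ((h.mem_Di_iff t).2 ht) (h.psi_Di _ _)
  rw [psi_spec]

theorem continuous_psi [T2Space X] (h : Att Y n Φ) :
    Continuous fun x : (Yᶜ : Set X) => h.psi x.1 x.2 := by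
  rw [continuous_iff_isClosed]
  intro C hC
  have : (fun x : (Yᶜ : Set X) => h.psi x.1 x.2) ⁻¹' C = Subtype.val ⁻¹' (Φ '' C) := by
    ext x
    simp only [Set.mem_preimage, Set.mem_image]
    constructor
    · intro hx
      exact ⟨_, hx, h.psi_spec _ _⟩
    · rintro ⟨t, ht, hx⟩
      have h1 : Φ t ∉ Y := by rw [hx]; exact x.2
      have h2 := h.eq_psi t h1
      have h3 : h.psi (Φ t) h1 = h.psi x.1 x.2 := by congr
      rw [← h3, ← h2]
      exact ht
  rw [this]
  exact (closedMap C hC).preimage continuous_subtype_val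

theorem lift_U [T2Space X] (h : Att Y n Φ) {m : ℕ} {z : Ch X m} (hz : z ∈ Cs Yᶜ m) :
    ∃ w ∈ Cs (Di n) m, psh Φ m w = z := by
  have : z ∈ (Cs (Di n) m).map (psh Φ m) := by
    refine map_Cs LinearMap.id _ ?_ hz
    intro σ hσ
    refine ⟨single (⟨fun x => h.psi (σ x) (hσ ⟨x, rfl⟩), ?_⟩ : Sing (Dl n) m) 1, ?_, ?_⟩
    · exact h.continuous_psi.comp (Continuous.subtype_mk σ.continuous fun x => hσ ⟨x, rfl⟩)
    · apply single_mem_Cs
      rintro _ ⟨x, rfl⟩
      exact h.psi_Di (σ x) (hσ ⟨x, rfl⟩)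
    · rw [psh_single]
      simp only [LinearMap.id_coe, id_eq]
      congr 1
      apply ContinuousMap.ext
      intro x
      exact h.psi_spec (σ x) (hσ ⟨x, rfl⟩)
  exact this

end Att

theorem inj_Cs {A B : Type} [TopologicalSpace A] [TopologicalSpace B] (f : C(A, B))
    (hf : Function.Injective f) {T : Set B} {m : ℕ} {z : Ch A m} (hz : psh f m z ∈ Cs T m) :
    z ∈ Cs (f ⁻¹' T) m := by
  classical
  have hinj : Function.Injective (fun σ : Sing A m => (f.comp σ : Sing B m)) := by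
    intro σ τ h
    apply ContinuousMap.ext
    intro x
    exact hf (congrArg (fun g : C(Dl m, B) => g x) h)
  rw [Cs, Finsupp.mem_supported] at hz ⊢
  intro σ hσ
  have h1 : (psh f m z).support = z.support.image (fun σ => f.comp σ) :=
    Finsupp.mapDomain_support_of_injective hinj z
  rw [h1] at hz
  have h2 := hz (Finset.mem_coe.2 (Finset.mem_image_of_mem _ hσ))
  rintro _ ⟨x, rfl⟩
  exact h2 ⟨x, rfl⟩

theorem Att.inj_W (h : Att Y n Φ) {m : ℕ} {w : Ch (Dl n) m} (hw : w ∈ Cs (Di n) m)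
    (hw2 : psh Φ m w ∈ Cs (WW Φ) m) : w ∈ Cs (Db n) m := by
  obtain ⟨w', rfl⟩ := exists_lift hw
  rw [psh_psh] at hw2
  have h1 := inj_Cs (Φ.comp (inc (Di n))) (by
    intro s t hst
    exact Subtype.ext (h.hinj _ _ s.2 t.2 hst)) hw2
  refine psh_Cs _ ?_ h1
  intro x hx
  exact (h.mem_Db_iff _).2 hx

theorem Att.psh_W (h : Att Y n Φ) {m : ℕ} {w : Ch (Dl n) m} (hw : w ∈ Cs (Db n) m) :
    psh Φ m w ∈ Cs (WW Φ) m :=
  psh_Cs _ (fun _ ht => (h.mem_Db_iff _).1 ht) hw

/-! the deformation of `W` onto `Y` -/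

open Classical in
/-- the deformation as a function -/
noncomputable def Att.hh (h : Att Y n Φ) (p : WW Φ × unitInterval) : X :=
  if hx : p.1.1 ∈ Y then p.1.1 else
    Φ (RR n (⟨h.psi p.1.1 hx, (h.mem_Db_iff _).2 (by rw [h.psi_spec]; exact p.1.2)⟩, p.2))

theorem Att.hh_Y (h : Att Y n Φ) (x : WW Φ) (hx : x.1 ∈ Y) (τ : unitInterval) :
    h.hh (x, τ) = x.1 := by
  simp only [hh]
  rw [dif_pos hx]

theorem Att.hh_Φ (h : Att Y n Φ) (t : Db n) (τ : unitInterval) :
    h.hh (⟨Φ t.1, (h.mem_Db_iff _).1 t.2⟩, τ) = Φ (RR n (t, τ)) := by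
  by_cases hx : Φ t.1 ∈ Y
  · rw [h.hh_Y _ hx]
    have : ∃ i, t.1.1 i = 0 := by
      by_contra hc
      push Not at hc
      exact h.hint _ hc hx
    rw [RR_bd _ _ this]
  · simp only [hh]
    rw [dif_neg hx]
    congr 3
    apply Subtype.ext
    exact (h.eq_psi _ hx).symm

theorem Att.hh_cases (h : Att Y n Φ) (x : WW Φ) : x.1 ∈ Y ∨ ∃ t : Db n,
    x = ⟨Φ t.1, (h.mem_Db_iff _).1 t.2⟩ := by
  by_cases hx : x.1 ∈ Y
  · exact Or.inl hx
  · right
    have h1 : h.psi x.1 hx ∈ Db n := (h.mem_Db_iff _).2 (by rw [h.psi_spec]; exact x.2)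
    refine ⟨⟨h.psi x.1 hx, h1⟩, ?_⟩
    apply Subtype.ext
    exact (h.psi_spec x.1 hx).symm

theorem Att.continuous_hh [T2Space X] (h : Att Y n Φ) : Continuous h.hh := by
  rw [continuous_iff_isClosed]
  intro C hC
  have hE : IsClosed ((fun p : Db n × unitInterval => Φ (RR n p)) ⁻¹' C) :=
    hC.preimage (Φ.continuous.comp (RR n).continuous)
  have hind : Topology.IsInducing (Prod.map Subtype.val id : Db n × unitInterval →
      Dl n × unitInterval) := Topology.IsInducing.subtypeVal.prodMap Topology.IsInducing.id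
  rw [hind.isClosed_iff] at hE
  obtain ⟨E, hE1, hE2⟩ := hE
  have hcl : IsClosedMap (Prod.map Φ id : Dl n × unitInterval → X × unitInterval) :=
    (Φ.continuous.prodMap continuous_id).isClosedMap
  have hcont : Continuous (Prod.map Subtype.val id : WW Φ × unitInterval → X × unitInterval) :=
    continuous_subtype_val.prodMap continuous_id
  have : h.hh ⁻¹' C = (fun p : WW Φ × unitInterval => p.1.1) ⁻¹' (Y ∩ C) ∪
      (Prod.map Subtype.val id : WW Φ × unitInterval → X × unitInterval) ⁻¹'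
        ((Prod.map Φ id : Dl n × unitInterval → X × unitInterval) '' E) := by
    ext ⟨x, τ⟩
    simp only [Set.mem_preimage, Set.mem_union, Set.mem_inter_iff, Set.mem_image]
    constructor
    · intro hx
      rcases h.hh_cases x with h1 | ⟨t, rfl⟩
      · left
        rw [h.hh_Y _ h1] at hx
        exact ⟨h1, hx⟩
      · right
        rw [h.hh_Φ] at hx
        refine ⟨(t.1, τ), ?_, rfl⟩
        have : (t, τ) ∈ (Prod.map Subtype.val id : Db n × unitInterval →
            Dl n × unitInterval) ⁻¹' E := by rw [hE2]; exact hx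
        exact this
    · rintro (⟨h1, h2⟩ | ⟨⟨t, τ'⟩, h1, h2⟩)
      · rw [h.hh_Y _ h1]
        exact h2
      · have h3 : Φ t = x.1 := congrArg Prod.fst h2
        have h4 : τ' = τ := congrArg Prod.snd h2
        subst h4
        have h5 : t ∈ Db n := (h.mem_Db_iff _).2 (by rw [h3]; exact x.2)
        have h6 : ((⟨t, h5⟩ : Db n), τ') ∈ (Prod.map Subtype.val id : Db n × unitInterval →
            Dl n × unitInterval) ⁻¹' E := h1
        rw [hE2] at h6
        have h7 : x = ⟨Φ t, (h.mem_Db_iff _).1 h5⟩ := Subtype.ext h3.symm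
        rw [h7, h.hh_Φ ⟨t, h5⟩ τ']
        exact h6
  rw [this]
  exact ((h.hY.inter hC).preimage (continuous_subtype_val.comp continuous_fst)).union
    ((hcl _ hE1).preimage hcont)

/-- the deformation -/
noncomputable def Att.HH [T2Space X] (h : Att Y n Φ) : C(WW Φ × unitInterval, X) :=
  ⟨h.hh, h.continuous_hh⟩

theorem Att.slice_zero [T2Space X] (h : Att Y n Φ) : slice h.HH 0 = inc (WW Φ) := by
  apply ContinuousMap.ext
  intro x
  change h.hh (x, 0) = x.1
  rcases h.hh_cases x with h1 | ⟨t, rfl⟩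
  · rw [h.hh_Y _ h1]
  · rw [h.hh_Φ, RR_zero]

theorem Att.slice_one [T2Space X] (h : Att Y n Φ) (x : WW Φ) : slice h.HH 1 x ∈ Y := by
  change h.hh (x, 1) ∈ Y
  rcases h.hh_cases x with h1 | ⟨t, rfl⟩
  · rw [h.hh_Y _ h1]
    exact h1
  · rw [h.hh_Φ]
    exact h.hbd _ (RR_one n t)

theorem PD_Cs {A B : Type} [TopologicalSpace A] [TopologicalSpace B] (H : C(A × unitInterval, B))
    {S : Set A} {T : Set B} (hH : ∀ a ∈ S, ∀ τ, H (a, τ) ∈ T) {k : ℕ} {z : Ch A k}
    (hz : z ∈ Cs S k) : PD H k z ∈ Cs T (k + 1) := by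
  refine map_Cs (PD H k) _ ?_ hz
  intro σ hσ
  rw [PD_single]
  have : ∀ w, ppush (GG H σ) (k + 1) w ∈ Cs T (k + 1) := by
    intro w
    have hw : w ∈ Finsupp.supported ℤ ℤ (Set.univ : Set (Fin (k + 1 + 1) → Dl k × Bool)) := by simp
    refine supported_map _ (ppush (GG H σ) (k + 1)) _ ?_ w hw
    intro a _
    rw [ppush_single]
    apply single_mem_Cs
    rintro _ ⟨x, rfl⟩
    exact hH _ (hσ ⟨_, rfl⟩) _
  exact this _

theorem mem_univ_Cs {A : Type} [TopologicalSpace A] {k : ℕ} (z : Ch A k) :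
    z ∈ Cs (Set.univ : Set A) k := by
  rw [Cs, Finsupp.mem_supported]
  intro σ _
  exact Set.subset_univ _

theorem Att.retr_zero [T2Space X] (h : Att Y n Φ) (z : Ch X 0) (hz : z ∈ Cs (WW Φ) 0) :
    ∃ y, z - sbd X 0 y ∈ Cs Y 0 := by
  obtain ⟨z', rfl⟩ := exists_lift hz
  refine ⟨-PD h.HH 0 z', ?_⟩
  have h1 := sbd_PD_zero h.HH z'
  have h2 : cpush (slice h.HH 0) 0 z' = psh (inc (WW Φ)) 0 z' := by rw [h.slice_zero]; rfl
  have h3 : cpush (slice h.HH 1) 0 z' ∈ Cs Y 0 :=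
    psh_Cs (slice h.HH 1) (fun x _ => h.slice_one x) (mem_univ_Cs z')
  rw [map_neg, h1, h2]
  convert h3 using 1
  abel

theorem Att.retr_succ [T2Space X] (h : Att Y n Φ) (m : ℕ) (z : Ch X (m + 1))
    (hz : z ∈ Cs (WW Φ) (m + 1)) (hd : sbd X m z ∈ Cs Y m) :
    ∃ y, z - sbd X (m + 1) y ∈ Cs Y (m + 1) := by
  obtain ⟨z', rfl⟩ := exists_lift hz
  refine ⟨-PD h.HH (m + 1) z', ?_⟩
  have h1 := sbd_PD h.HH m z'
  have h2 : cpush (slice h.HH 0) (m + 1) z' = psh (inc (WW Φ)) (m + 1) z' := by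
    rw [h.slice_zero]; rfl
  have h3 : cpush (slice h.HH 1) (m + 1) z' ∈ Cs Y (m + 1) :=
    psh_Cs (slice h.HH 1) (fun x _ => h.slice_one x) (mem_univ_Cs z')
  have h4 : PD h.HH m (sbd _ m z') ∈ Cs Y (m + 1) := by
    rw [sbd_psh] at hd
    refine PD_Cs h.HH ?_ (inj_Cs (inc (WW Φ)) Subtype.val_injective hd)
    intro a ha τ
    change h.hh (a, τ) ∈ Y
    rw [h.hh_Y a ha]
    exact ha
  rw [map_neg]
  have h5 : psh (inc (WW Φ)) (m + 1) z' - -sbd X (m + 1) (PD h.HH (m + 1) z') =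
      cpush (slice h.HH 1) (m + 1) z' - PD h.HH m (sbd _ m z') := by
    rw [← h2]
    have := h1
    rw [eq_sub_iff_add_eq] at this
    rw [← this]
    abel
  rw [h5]
  exact Submodule.sub_mem _ h3 h4

end Cell

end Pool.Agent.H904R2
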