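import Pool.Agent.Helper922.HB.Sc.Nerve

/-! Reduction of coefficients in singular cohomology. -/

set_option autoImplicit false

namespace Pool.Agent.H904R2

open Pool.Agent.Helper922.HB.Sc (Sing sface altd cocycles coboundaries SingularCohomology)

section Reduction

variable {X : Type} [TopologicalSpace X]

theorem altd_cast (m n : ℕ) (z : Sing X n → ℤ) (σ : Sing X (n + 1)) :
    altd (ZMod m) (sface (X := X)) n (fun σ => ((z σ : ℤ) : ZMod m)) σ =
      ((altd ℤ (sface (X := X)) n z σ : ℤ) : ZMod m) := by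
  rw [Pool.Agent.Helper922.HB.Sc.altd_apply, Pool.Agent.Helper922.HB.Sc.altd_apply]
  simp only [Int.cast_sum, Int.cast_mul, Int.cast_pow, Int.cast_neg, Int.cast_one]

theorem red_mem (m n : ℕ) (z : cocycles ℤ X n) :
    (fun σ => ((z.1 σ : ℤ) : ZMod m)) ∈ cocycles (ZMod m) X n := by
  have hz : altd ℤ (sface (X := X)) n z.1 = 0 := z.2
  change altd (ZMod m) (sface (X := X)) n _ = 0
  funext σ
  rw [altd_cast, hz]
  exact Int.cast_zero

/-- reduction modulo `m` of integral cocycles -/
noncomputable def redC (m n : ℕ) (z : cocycles ℤ X n) : cocycles (ZMod m) X n :=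
  ⟨fun σ => ((z.1 σ : ℤ) : ZMod m), red_mem m n z⟩

theorem redC_sub (m n : ℕ) (a b : cocycles ℤ X n) :
    redC m n (a - b) = redC m n a - redC m n b := by
  apply Subtype.ext
  funext σ
  exact Int.cast_sub _ _

theorem redC_mem (m n : ℕ) (z : cocycles ℤ X n) (hz : z.1 ∈ coboundaries ℤ X n) :
    (redC m n z).1 ∈ coboundaries (ZMod m) X n := by
  cases n with
  | zero =>
    have h1 : z.1 = 0 := hz
    change (fun σ => ((z.1 σ : ℤ) : ZMod m)) = 0
    rw [h1]
    funext σ
    exact Int.cast_zero
  | succ n =>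
    obtain ⟨a, ha⟩ := hz
    refine ⟨fun σ => ((a σ : ℤ) : ZMod m), ?_⟩
    funext σ
    rw [altd_cast, ha]
    rfl

/-- the cohomology class of a cocycle -/
noncomputable def cls (k : Type) [CommRing k] (n : ℕ) (z : cocycles k X n) :
    SingularCohomology k X n := Submodule.Quotient.mk z

theorem red_rel (m n : ℕ) (a b : cocycles ℤ X n)
    (h : Submodule.quotientRel ((coboundaries ℤ X n).submoduleOf (cocycles ℤ X n)) a b) :
    cls (ZMod m) n (redC m n a) = cls (ZMod m) n (redC m n b) := by
  rw [Submodule.quotientRel_def] at h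
  refine (Submodule.Quotient.eq _).2 ?_
  rw [← redC_sub]
  exact redC_mem m n _ h

/-- reduction of coefficients `ρ_m : H^n(X; ℤ) → H^n(X; ℤ/m)`, induced by the reduction of
cocycles modulo `m` -/
noncomputable def rho (m n : ℕ) : SingularCohomology ℤ X n → SingularCohomology (ZMod m) X n :=
  Quotient.lift (fun z => cls (ZMod m) n (redC m n z)) (red_rel m n)

theorem rho_mk (m n : ℕ) (z : cocycles ℤ X n) :
    rho m n (cls ℤ n z) = cls (ZMod m) n (redC m n z) := rfl

end Reduction

end Pool.Agent.H904R2
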