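import Pool.Agent.H904R2.FrBundle
import Pool.Agent.H904R2.Rho

/-!
# Complex vector bundles and their Chern classes

`CVB X r`: complex vector bundles of rank `r` over `X` (Mathlib vector bundles with fibre `ℂ^r`).
`CVB.IsChern`: the Chern classes, defined as primary obstructions, in transgression form.
-/

set_option autoImplicit false

namespace Pool.Agent.H904R2

open Pool.Agent.Helper922.HB.Sc (Sing sface altd cocycles coboundaries SingularCohomology)
open Bundle

/-- A complex vector bundle of rank `r` over `X`, in the sense of Mathlib: a family of complex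
vector spaces with a topology on the total space, locally trivial with fibre `ℂ^r`, the transition
functions being continuous families of linear isomorphisms. -/
structure CVB (X : Type) [TopologicalSpace X] (r : ℕ) where
  E : X → Type
  [top : TopologicalSpace (TotalSpace (Fin r → ℂ) E)]
  [acg : ∀ x, AddCommGroup (E x)]
  [mod : ∀ x, Module ℂ (E x)]
  [topf : ∀ x, TopologicalSpace (E x)]
  [fb : FiberBundle (Fin r → ℂ) E]
  [vb : VectorBundle ℂ (Fin r → ℂ) E]

namespace CVB

attribute [instance] CVB.top CVB.acg CVB.mod CVB.topf CVB.fb CVB.vb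

variable {X : Type} [TopologicalSpace X] {r : ℕ} (V : CVB X r)

/-- the space of `k`-frames of the bundle (linearly independent `k`-tuples in the fibres) -/
def Fr (k : ℕ) : Type := FrE r V.E k

instance (k : ℕ) : TopologicalSpace (V.Fr k) := instTopologicalSpaceFrE r V.E k

/-- the projection of the bundle of `(k+1)`-frames to the base -/
def pr (k : ℕ) : C(V.Fr (k + 1), X) := prE r V.E k

/-- linear isomorphisms of `ℂ^r` with the fibre over `x` -/
def Iso (x : X) : Type := (Fin r → ℂ) ≃L[ℂ] V.E x

/-- the fibre over `x` of the bundle of `(k+1)`-frames, through a linear isomorphism -/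
noncomputable def fib (k : ℕ) (x : X) (φ : V.Iso x) : C(St (k + 1) r, V.Fr (k + 1)) :=
  fibE r V.E k x φ

/-- the sphere `v ↦ (φ v, φ e_{i+1}, …, φ e_{r-1})`, `v ∈ ℂ^{i+1} ∖ 0` (in real coordinates), in the
fibre over `x` of the bundle of `(k+1)`-frames, `r = i + 1 + k` -/
noncomputable def sph (i k : ℕ) (hr : i + 1 + k = r) (x : X) (φ : V.Iso x) :
    C(Pc (2 * i + 1 + 1), V.Fr (k + 1)) :=
  (V.fib k x φ).comp (jC (i + 1) k r hr)

end CVB

/-- push-forward of singular chains along a continuous map -/
noncomputable def pushc {X Y : Type} [TopologicalSpace X] [TopologicalSpace Y] (f : C(X, Y)) (n : ℕ)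
    (z : Ch X n) : Ch Y n := Finsupp.mapDomain (fun σ => f.comp σ) z

/-- coboundary of integral singular cochains -/
noncomputable def cobd {X : Type} [TopologicalSpace X] (n : ℕ) (f : Sing X n → ℤ) :
    Sing X (n + 1) → ℤ :=
  fun σ => ∑ i : Fin (n + 2), (-1) ^ (i : ℕ) * f (sface n i σ)

/-- value of an integral singular cochain on a singular chain -/
noncomputable def evl {X : Type} [TopologicalSpace X] {n : ℕ} (f : Sing X n → ℤ) (z : Ch X n) : ℤ :=
  z.sum fun σ a => a * f σ

/-- `z` is a cocycle and represents the cohomology class `c` -/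
def Reps {X : Type} [TopologicalSpace X] {n : ℕ} (z : Sing X n → ℤ)
    (c : SingularCohomology ℤ X n) : Prop := ∃ h : z ∈ cocycles ℤ X n, cls ℤ n ⟨z, h⟩ = c

/-- the fundamental cycle of `ℝ^{n+1} ∖ 0`: the boundary of an affine `(n+1)`-simplex around `0`,
compatible with the standard orientation -/
noncomputable def fundc (n : ℕ) : Ch (Pc (n + 1)) n :=
  ∑ i : Fin (n + 2), Finsupp.single (sphF n i) ((-1) ^ (i : ℕ))

/-- the fundamental cycle of the sphere `v ↦ (φ v, φ e_{i+1}, …, φ e_{r-1})` in the bundle of
`(k+1)`-frames -/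
noncomputable def CVB.cyc {X : Type} [TopologicalSpace X] {r : ℕ} (V : CVB X r) (i k : ℕ)
    (hr : i + 1 + k = r) (x : X) (φ : V.Iso x) : Ch (V.Fr (k + 1)) (2 * i + 1) :=
  pushc (V.sph i k hr x φ) (2 * i + 1) (fundc (2 * i + 1))

/-- `z` is zero on constant simplices -/
def Nrm {X : Type} [TopologicalSpace X] {n : ℕ} (z : Sing X n → ℤ) : Prop :=
  ∀ x : X, z (ContinuousMap.const _ x) = 0

/-- `z` is transgressive: there is a cochain `κ` on the bundle of `(k+1)`-frames with
`δκ = - p^* z`, with value `1` on the fundamental cycles of the spheres in the fibres -/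
def CVB.Tr {X : Type} [TopologicalSpace X] {r : ℕ} (V : CVB X r) (i k : ℕ) (hr : i + 1 + k = r)
    (z : Sing X (2 * i + 2) → ℤ) : Prop :=
  ∃ κ : Sing (V.Fr (k + 1)) (2 * i + 1) → ℤ,
    (∀ τ, cobd (2 * i + 1) κ τ = - z ((V.pr k).comp τ)) ∧
    ∀ (x : X) (φ : V.Iso x), evl κ (V.cyc i k hr x φ) = 1

/-- `V.IsChern i k hr c`: the class `c ∈ H^{2(i+1)}(X; ℤ)` is the Chern class `c_{i+1}(V)` of the
complex vector bundle `V` of rank `r = i + 1 + k`.

This is the definition of Chern classes as primary obstructions, in transgression form. Let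
`p : W → X` be the bundle of `(k+1)`-frames of `V`, `k + 1 = r - (i+1) + 1`; its fibre, the Stiefel
manifold of `(k+1)`-frames in `ℂ^r`, is `2i`-connected, and its homology in degree `2i+1` is
infinite cyclic, generated by the sphere `v ↦ (v, e_{i+1}, …, e_{r-1})`, `v ∈ ℂ^{i+1} ∖ 0`.
Then `c` is the Chern class if the generator of the cohomology of the fibre in degree `2i+1`
transgresses to `-c`: there are a cocycle `z` representing `c`, zero on constant simplices, and a
cochain `κ` of degree `2i+1` on `W` with `δκ = - p^* z`, taking the value `1` on the fundamental cycle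
of the sphere `v ↦ (φ v, φ e_{i+1}, …, φ e_{r-1})` in the fibre over `x`, for all `x : X` and all
linear isomorphisms `φ` of `ℂ^r` with the fibre. For `i + 1 = r` (`W` is the complement of the zero
section) this says that `c` is the Euler class of `V` with its complex orientation: if `u` is a Thom
cocycle, `z` its restriction to the zero section and `u - π^* z = δβ`, take for `κ` the restriction of
`β`. -/
def CVB.IsChern {X : Type} [TopologicalSpace X] {r : ℕ} (V : CVB X r) (i k : ℕ)
    (hr : i + 1 + k = r) (c : SingularCohomology ℤ X (2 * i + 2)) : Prop :=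
  ∃ z : Sing X (2 * i + 2) → ℤ, Reps z c ∧ Nrm z ∧ V.Tr i k hr z

end Pool.Agent.H904R2
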