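import Mathlib

/-! Symmetric simplicial groups: horns, homotopy groups, homotopy addition lemma. -/

set_option autoImplicit false

namespace Pool.Agent.H904R2

open scoped commutatorElement

/-- a connected symmetric simplicial group -/
structure SymGrp where
  Γ : ℕ → Type
  [grp : ∀ n, Group (Γ n)]
  pull : ∀ {m n : ℕ}, (Fin (m + 1) → Fin (n + 1)) → Γ n →* Γ m
  pull_id : ∀ {n : ℕ} (x : Γ n), pull id x = x
  pull_comp : ∀ {l m n : ℕ} (f : Fin (l + 1) → Fin (m + 1)) (g : Fin (m + 1) → Fin (n + 1))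
    (x : Γ n), pull f (pull g x) = pull (g ∘ f) x
  conn : ∀ c : Γ 0, ∃ p : Γ 1, pull (fun _ : Fin 1 => (0 : Fin 2)) p = c ∧
    pull (fun _ : Fin 1 => (1 : Fin 2)) p = 1

attribute [instance] SymGrp.grp

namespace SymGrp

variable (S : SymGrp)

/-- faces -/
def d (n : ℕ) (i : Fin (n + 2)) : S.Γ (n + 1) →* S.Γ n := S.pull i.succAbove

/-- degeneracies -/
def s (n : ℕ) (j : Fin (n + 1)) : S.Γ n →* S.Γ (n + 1) := S.pull j.predAbove

theorem d_apply (n : ℕ) (i : Fin (n + 2)) (x : S.Γ (n + 1)) : S.d n i x = S.pull i.succAbove x := rfl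

theorem val_succAbove {n : ℕ} (i : Fin (n + 1)) (k : Fin n) :
    (i.succAbove k : ℕ) = if (k : ℕ) < i then (k : ℕ) else k + 1 := by
  unfold Fin.succAbove
  split_ifs with h1 h2 h2
  · rfl
  · rw [Fin.lt_def] at h1
    exact absurd h1 h2
  · rw [Fin.lt_def] at h1
    exact absurd h2 h1
  · rfl

theorem val_predAbove {n : ℕ} (j : Fin n) (k : Fin (n + 1)) :
    (j.predAbove k : ℕ) = if (j : ℕ) < k then (k : ℕ) - 1 else k := by
  unfold Fin.predAbove
  split_ifs with h1 h2 h2
  · rfl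
  · rw [Fin.lt_def] at h1
    exact absurd h1 h2
  · rw [Fin.lt_def] at h1
    exact absurd h2 h1
  · rfl

theorem succAbove_comm' {n : ℕ} (i j : Fin (n + 2)) (h : i ≤ j) (x : Fin (n + 1)) :
    j.succ.succAbove (i.succAbove x) = i.castSucc.succAbove (j.succAbove x) := by
  rw [Fin.le_def] at h
  apply Fin.ext
  simp only [val_succAbove, Fin.val_succ, Fin.val_castSucc]
  split_ifs <;> omega

theorem dd (n : ℕ) (i j : Fin (n + 2)) (h : i ≤ j) (x : S.Γ (n + 2)) :
    S.d n i (S.d (n + 1) j.succ x) = S.d n j (S.d (n + 1) i.castSucc x) := by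
  simp only [d_apply, pull_comp]
  congr 2
  funext k
  exact succAbove_comm' i j h k

theorem ds_self (n : ℕ) (j : Fin (n + 1)) (x : S.Γ n) : S.d n j.castSucc (S.s n j x) = x := by
  simp only [d, s, pull_comp]
  have : j.predAbove ∘ j.castSucc.succAbove = id := by
    funext k
    apply Fin.ext
    simp only [Function.comp_apply, val_succAbove, val_predAbove, Fin.val_castSucc, id]
    split_ifs <;> omega
  rw [this, S.pull_id]

theorem ds_succ (n : ℕ) (j : Fin (n + 1)) (x : S.Γ n) : S.d n j.succ (S.s n j x) = x := by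
  simp only [d, s, pull_comp]
  have : j.predAbove ∘ j.succ.succAbove = id := by
    funext k
    apply Fin.ext
    simp only [Function.comp_apply, val_succAbove, val_predAbove, Fin.val_succ, id]
    split_ifs <;> omega
  rw [this, S.pull_id]

theorem ds_lt (n : ℕ) (i : Fin (n + 2)) (j : Fin (n + 1)) (h : i ≤ j.castSucc) (x : S.Γ (n + 1)) :
    S.d (n + 1) i.castSucc (S.s (n + 1) j.succ x) = S.s n j (S.d n i x) := by
  simp only [d, s, pull_comp]
  congr 2
  funext k
  rw [Fin.le_def, Fin.val_castSucc] at h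
  apply Fin.ext
  simp only [Function.comp_apply, val_succAbove, val_predAbove, Fin.val_succ, Fin.val_castSucc]
  split_ifs <;> omega

theorem ds_gt (n : ℕ) (i : Fin (n + 2)) (j : Fin (n + 1)) (h : j.castSucc < i) (x : S.Γ (n + 1)) :
    S.d (n + 1) i.succ (S.s (n + 1) j.castSucc x) = S.s n j (S.d n i x) := by
  simp only [d, s, pull_comp]
  congr 2
  funext k
  rw [Fin.lt_def, Fin.val_castSucc] at h
  apply Fin.ext
  simp only [Function.comp_apply, val_succAbove, val_predAbove, Fin.val_succ, Fin.val_castSucc]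
  split_ifs <;> omega

/-- horn (faces `1, …, q+2`) -/
def Horn (q : ℕ) (u : Fin (q + 2) → S.Γ (q + 1)) : Prop :=
  ∀ (a : Fin (q + 1)) (b : Fin (q + 2)), a.castSucc < b →
    S.d q a.succ (u b) = S.d q b (u a.castSucc)

theorem fill (q : ℕ) (u : Fin (q + 2) → S.Γ (q + 1)) (hu : S.Horn q u) :
    ∃ w : S.Γ (q + 2), ∀ i : Fin (q + 2), S.d (q + 1) i.succ w = u i := by
  have key : ∀ k : ℕ, k ≤ q + 2 → ∃ w : S.Γ (q + 2), ∀ i : Fin (q + 2), q + 2 - k ≤ (i : ℕ) →
      S.d (q + 1) i.succ w = u i := by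
    intro k
    induction k with
    | zero =>
      intro _
      exact ⟨1, fun i hi => by have := i.2; omega⟩
    | succ k ih =>
      intro hk
      obtain ⟨w, hw⟩ := ih (by omega)
      have hi0 : q + 1 - k < q + 2 := by omega
      let i0 : Fin (q + 2) := ⟨q + 1 - k, hi0⟩
      refine ⟨w * S.s (q + 1) i0 ((S.d (q + 1) i0.succ w)⁻¹ * u i0), ?_⟩
      intro i hi
      rcases eq_or_lt_of_le (show q + 1 - k ≤ (i : ℕ) by omega) with h | h
      · have : i = i0 := Fin.ext h.symm
        rw [this, map_mul, ds_succ]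
        group
      · have hi' : q + 2 - k ≤ (i : ℕ) := by omega
        have hj : q + 1 - k < q + 1 := by have := i.2; omega
        have e0 : i0 = (⟨q + 1 - k, hj⟩ : Fin (q + 1)).castSucc := rfl
        rw [map_mul, hw i hi', e0, ds_gt _ _ _ _ (by rw [Fin.lt_def]; exact h)]
        have e1 : (⟨q + 1 - k, hj⟩ : Fin (q + 1)).castSucc.succ =
          (⟨q + 1 - k, hj⟩ : Fin (q + 1)).succ.castSucc := rfl
        have h1 : S.d q i (S.d (q + 1) (⟨q + 1 - k, hj⟩ : Fin (q + 1)).castSucc.succ w) =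
            S.d q (⟨q + 1 - k, hj⟩ : Fin (q + 1)).succ (u i) := by
          rw [e1, ← S.dd q _ i (by rw [Fin.le_def]; exact h), hw i hi']
        rw [map_mul, map_inv, h1, hu ⟨q + 1 - k, hj⟩ i (by rw [Fin.lt_def]; exact h)]
        simp
  obtain ⟨w, hw⟩ := key (q + 2) le_rfl
  exact ⟨w, fun i => hw i (by omega)⟩

/-- elements of degree `q+1` with trivial faces -/
def N (q : ℕ) : Subgroup (S.Γ (q + 1)) := ⨅ i : Fin (q + 2), (S.d q i).ker

theorem mem_N (q : ℕ) (x : S.Γ (q + 1)) : x ∈ S.N q ↔ ∀ i, S.d q i x = 1 := by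
  simp [N, Subgroup.mem_iInf, MonoidHom.mem_ker]

instance (q : ℕ) : (S.N q).Normal := by
  constructor
  intro x hx g
  rw [mem_N] at hx ⊢
  intro i
  rw [map_mul, map_mul, hx i, map_inv]
  group

/-- elements of degree `q+2` whose faces `1, …, q+2` are trivial -/
def K (q : ℕ) : Subgroup (S.Γ (q + 2)) := ⨅ i : Fin (q + 2), (S.d (q + 1) i.succ).ker

theorem mem_K (q : ℕ) (x : S.Γ (q + 2)) : x ∈ S.K q ↔ ∀ i : Fin (q + 2), S.d (q + 1) i.succ x = 1 := by
  simp [K, Subgroup.mem_iInf, MonoidHom.mem_ker]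

/-- null homotopic elements -/
def Bd (q : ℕ) : Subgroup (S.Γ (q + 1)) := (S.K q).map (S.d (q + 1) 0)

theorem mem_Bd (q : ℕ) (x : S.Γ (q + 1)) : x ∈ S.Bd q ↔
    ∃ y : S.Γ (q + 2), (∀ i : Fin (q + 2), S.d (q + 1) i.succ y = 1) ∧ S.d (q + 1) 0 y = x := by
  simp only [Bd, Subgroup.mem_map, mem_K]

instance (q : ℕ) : (S.Bd q).Normal := by
  constructor
  intro x hx g
  rw [mem_Bd] at hx ⊢
  obtain ⟨y, hy, hyx⟩ := hx
  refine ⟨S.s (q + 1) 0 g * y * (S.s (q + 1) 0 g)⁻¹, ?_, ?_⟩
  · intro i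
    rw [map_mul, map_mul, hy i, map_inv]
    group
  · have : S.d (q + 1) 0 (S.s (q + 1) 0 g) = g := S.ds_self (q + 1) 0 g
    rw [map_mul, map_mul, hyx, map_inv, this]

theorem Bd_le_N (q : ℕ) : S.Bd q ≤ S.N q := by
  intro x hx
  rw [mem_Bd] at hx
  obtain ⟨y, hy, hyx⟩ := hx
  rw [mem_N]
  intro i
  have h := S.dd q 0 i (Fin.zero_le _) y
  rw [hy i, map_one] at h
  rw [← hyx]
  exact h.symm

/-- faces of a degenerate spherical element -/
theorem d_s_N (q : ℕ) (j : Fin (q + 2)) (x : S.Γ (q + 1)) (hx : x ∈ S.N q) (k : Fin (q + 3))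
    (h1 : k ≠ j.castSucc) (h2 : k ≠ j.succ) : S.d (q + 1) k (S.s (q + 1) j x) = 1 := by
  rw [mem_N] at hx
  rcases lt_or_gt_of_ne h1 with h | h
  · -- k < j
    have hj : j ≠ 0 := by
      rintro rfl
      simp at h
    obtain ⟨j', rfl⟩ := Fin.exists_succ_eq.2 hj
    have hk : k ≠ Fin.last _ := by
      rintro rfl
      have := Fin.le_last (j'.succ.castSucc)
      exact absurd h (not_lt.2 this)
    obtain ⟨k', rfl⟩ := Fin.exists_castSucc_eq.2 hk
    rw [ds_lt, hx, map_one]
    rw [Fin.lt_def] at h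
    rw [Fin.le_def]
    simp at h ⊢
    omega
  · have h' : j.succ < k := by
      rcases lt_or_gt_of_ne h2 with h3 | h3
      · rw [Fin.lt_def] at h h3
        simp at h h3
        omega
      · exact h3
    have hk : k ≠ 0 := by
      rintro rfl
      simp at h'
    obtain ⟨k', rfl⟩ := Fin.exists_succ_eq.2 hk
    have hj : j ≠ Fin.last _ := by
      rintro rfl
      rw [Fin.lt_def] at h'
      simp at h'
      omega
    obtain ⟨j', rfl⟩ := Fin.exists_castSucc_eq.2 hj
    rw [ds_gt, hx, map_one]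
    rw [Fin.lt_def] at h' ⊢
    simp at h' ⊢
    omega

/-- an element of degree `q+2` with one nontrivial face -/
theorem one_face (q : ℕ) (k : ℕ) : ∀ (k' : Fin (q + 3)), (k' : ℕ) = k → ∀ z : S.Γ (q + 2),
    (∀ i, i ≠ k' → S.d (q + 1) i z = 1) → S.d (q + 1) k' z ∈ S.Bd q := by
  induction k with
  | zero =>
    intro k' hk' z hz
    have : k' = 0 := Fin.ext hk'
    subst this
    rw [mem_Bd]
    exact ⟨z, fun i => hz _ (Fin.succ_ne_zero i), rfl⟩
  | succ k ih =>
    intro k' hk' z hz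
    have h0 : k' ≠ 0 := by
      rintro rfl
      simp at hk'
    obtain ⟨i, rfl⟩ := Fin.exists_succ_eq.2 h0
    have hN : S.d (q + 1) i.succ z ∈ S.N q := by
      rw [mem_N]
      intro a
      rcases le_or_gt a i with h | h
      · rw [S.dd q a i h, hz, map_one]
        intro he
        rw [Fin.le_def] at h
        rw [Fin.ext_iff] at he
        simp at he
        omega
      · have h1 : i ≠ Fin.last _ := by
          rintro rfl
          exact absurd h (not_lt.2 (Fin.le_last a))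
        obtain ⟨i', rfl⟩ := Fin.exists_castSucc_eq.2 h1
        have e : i'.castSucc.succ = i'.succ.castSucc := rfl
        have hle : i'.succ ≤ a := by
          rw [Fin.lt_def] at h
          rw [Fin.le_def]
          simp at h ⊢
          omega
        rw [e, ← S.dd q i'.succ a hle, hz, map_one]
        intro he
        rw [Fin.lt_def] at h
        rw [Fin.ext_iff] at he
        simp at he h
        omega
    have h1 := ih i.castSucc (by simp at hk' ⊢; omega)
      (z * (S.s (q + 1) i (S.d (q + 1) i.succ z))⁻¹) (by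
        intro a ha
        rw [map_mul, map_inv]
        by_cases h : a = i.succ
        · rw [h, ds_succ]
          group
        · rw [hz a h, S.d_s_N q i _ hN a ha h]
          group)
    rw [map_mul, map_inv, ds_self, hz] at h1
    · rw [one_mul] at h1
      exact (Subgroup.inv_mem_iff _).1 h1
    · intro he
      rw [Fin.ext_iff] at he
      simp at he

/-- an element of degree `q+2` with two consecutive nontrivial faces -/
theorem two_face (q : ℕ) (i : Fin (q + 2)) (z : S.Γ (q + 2))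
    (hz : ∀ k, k ≠ i.castSucc → k ≠ i.succ → S.d (q + 1) k z = 1)
    (hN : S.d (q + 1) i.succ z ∈ S.N q) :
    S.d (q + 1) i.castSucc z * (S.d (q + 1) i.succ z)⁻¹ ∈ S.Bd q := by
  have h1 := S.one_face q _ i.castSucc rfl (z * (S.s (q + 1) i (S.d (q + 1) i.succ z))⁻¹) (by
    intro a ha
    rw [map_mul, map_inv]
    by_cases h : a = i.succ
    · rw [h, ds_succ]
      group
    · rw [hz a ha h, S.d_s_N q i _ hN a ha h]
      group)
  rw [map_mul, map_inv, ds_self] at h1
  exact h1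

theorem comm_step (q : ℕ) (x : S.Γ (q + 1)) (hx : x ∈ S.N q) (y : S.Γ (q + 2))
    (i : Fin (q + 2)) : ⁅x, S.d (q + 1) i.castSucc y⁆ ∈ S.Bd q ↔
      ⁅x, S.d (q + 1) i.succ y⁆ ∈ S.Bd q := by
  have h := S.two_face q i ⁅S.s (q + 1) i x, y⁆ (by
    intro k h1 h2
    rw [map_commutatorElement, S.d_s_N q i x hx k h1 h2, commutatorElement_one_left]) (by
    rw [map_commutatorElement, ds_succ]
    exact Subgroup.commutator_le_left (S.N q) ⊤ (Subgroup.commutator_mem_commutator hx trivial))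
  rw [map_commutatorElement, map_commutatorElement, ds_self, ds_succ] at h
  have h1 := Subgroup.mul_mem_cancel_left (S.Bd q) (y := ⁅x, S.d (q + 1) i.succ y⁆) h
  rw [inv_mul_cancel_right] at h1
  exact h1

theorem comm_update (q n : ℕ) (x : S.Γ (q + 1)) (hx : x ∈ S.N q) (g : S.Γ n)
    (f : Fin (q + 2) → Fin (n + 1)) (i : Fin (q + 2)) (a : Fin (n + 1)) :
    ⁅x, S.pull f g⁆ ∈ S.Bd q ↔ ⁅x, S.pull (Function.update f i a) g⁆ ∈ S.Bd q := by
  have h := S.comm_step q x hx (S.pull (Fin.insertNth (α := fun _ => Fin (n + 1)) i.succ a f) g) i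
  rw [d_apply, d_apply, pull_comp, pull_comp] at h
  have e1 : Fin.insertNth (α := fun _ => Fin (n + 1)) i.succ a f ∘ i.succ.succAbove = f := by
    funext k
    simp
  have e2 : Fin.insertNth (α := fun _ => Fin (n + 1)) i.succ a f ∘ i.castSucc.succAbove =
      Function.update f i a := by
    funext k
    simp only [Function.comp_apply]
    by_cases hk : k = i
    · subst hk
      rw [Function.update_self]
      have : k.castSucc.succAbove k = k.succ := by
        apply Fin.ext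
        simp [val_succAbove]
      rw [this, Fin.insertNth_apply_same]
    · rw [Function.update_of_ne hk]
      have : i.castSucc.succAbove k = i.succ.succAbove k := by
        rw [Fin.ext_iff] at hk
        apply Fin.ext
        simp only [val_succAbove, Fin.val_succ, Fin.val_castSucc]
        split_ifs <;> omega
      rw [this, Fin.insertNth_apply_succAbove]
  rw [e1, e2] at h
  exact h.symm

theorem comm_any (q n : ℕ) (x : S.Γ (q + 1)) (hx : x ∈ S.N q) (g : S.Γ n)
    (f f' : Fin (q + 2) → Fin (n + 1)) :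
    ⁅x, S.pull f g⁆ ∈ S.Bd q ↔ ⁅x, S.pull f' g⁆ ∈ S.Bd q := by
  classical
  have key : ∀ t : Finset (Fin (q + 2)), ⁅x, S.pull f g⁆ ∈ S.Bd q ↔
      ⁅x, S.pull (fun i => if i ∈ t then f' i else f i) g⁆ ∈ S.Bd q := by
    intro t
    induction t using Finset.induction_on with
    | empty => simp
    | insert a t ha ih =>
      rw [ih, S.comm_update q n x hx g _ a (f' a)]
      have : Function.update (fun i => if i ∈ t then f' i else f i) a (f' a) =
          fun i => if i ∈ insert a t then f' i else f i := by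
        funext k
        by_cases hk : k = a
        · subst hk
          simp
        · simp [Function.update_of_ne hk, hk]
      rw [this]
  simpa using key Finset.univ

theorem comm_mem (q : ℕ) (x : S.Γ (q + 1)) (hx : x ∈ S.N q) (g : S.Γ (q + 1)) :
    ⁅x, g⁆ ∈ S.Bd q := by
  have h1 := S.comm_any q (q + 1) x hx g id (fun _ => 0)
  rw [S.pull_id] at h1
  rw [h1]
  obtain ⟨p, hp0, hp1⟩ := S.conn (S.pull (fun _ : Fin 1 => (0 : Fin (q + 2))) g)
  have h2 := S.comm_any q 1 x hx p (fun _ => 0) (fun _ => 1)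
  have e1 : S.pull (fun _ : Fin (q + 2) => (0 : Fin (q + 2))) g =
      S.pull (fun _ : Fin (q + 2) => (0 : Fin 2)) p := by
    have : (fun _ : Fin (q + 2) => (0 : Fin (q + 2))) =
      (fun _ : Fin 1 => (0 : Fin (q + 2))) ∘ (fun _ : Fin (q + 2) => (0 : Fin 1)) := rfl
    rw [this, ← S.pull_comp, ← hp0, S.pull_comp]
    rfl
  have e2 : S.pull (fun _ : Fin (q + 2) => (1 : Fin 2)) p = 1 := by
    have : (fun _ : Fin (q + 2) => (1 : Fin 2)) =
      (fun _ : Fin 1 => (1 : Fin 2)) ∘ (fun _ : Fin (q + 2) => (0 : Fin 1)) := rfl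
    rw [this, ← S.pull_comp, hp1, map_one]
  rw [e1, h2, e2, commutatorElement_one_right]
  exact one_mem _

/-- the homotopy group of degree `q+1` -/
def Pg (q : ℕ) : Type := S.N q ⧸ (S.Bd q).subgroupOf (S.N q)

instance (q : ℕ) : Group (S.Pg q) := inferInstanceAs (Group (S.N q ⧸ (S.Bd q).subgroupOf (S.N q)))

/-- class of a spherical element -/
def cls (q : ℕ) : S.N q →* S.Pg q := QuotientGroup.mk' ((S.Bd q).subgroupOf (S.N q))

theorem cls_surj (q : ℕ) : Function.Surjective (S.cls q) := QuotientGroup.mk'_surjective _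

theorem cls_eq_one (q : ℕ) (x : S.N q) : S.cls q x = 1 ↔ (x : S.Γ (q + 1)) ∈ S.Bd q := by
  change (QuotientGroup.mk x : S.N q ⧸ (S.Bd q).subgroupOf (S.N q)) = 1 ↔ _
  rw [QuotientGroup.eq_one_iff, Subgroup.mem_subgroupOf]

theorem cls_eq_of (q : ℕ) (x y : S.N q) (h : (x : S.Γ (q + 1)) * (y : S.Γ (q + 1))⁻¹ ∈ S.Bd q) :
    S.cls q x = S.cls q y := by
  rw [← mul_inv_eq_one, ← map_inv, ← map_mul, cls_eq_one]
  exact h

instance (q : ℕ) : CommGroup (S.Pg q) where
  mul_comm := by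
    intro a b
    obtain ⟨x, rfl⟩ := S.cls_surj q a
    obtain ⟨y, rfl⟩ := S.cls_surj q b
    rw [← map_mul, ← map_mul]
    apply S.cls_eq_of
    have := S.comm_mem q x x.2 y
    rw [commutatorElement_def] at this
    simpa [mul_assoc] using this

/-- matching families on the boundary of a `(q+2)`-simplex -/
def Mat (q : ℕ) (t : Fin (q + 3) → S.Γ (q + 1)) : Prop :=
  ∀ i j : Fin (q + 2), i ≤ j → S.d q i (t j.succ) = S.d q j (t i.castSucc)

theorem Mat.horn {S : SymGrp} {q : ℕ} {t : Fin (q + 3) → S.Γ (q + 1)} (ht : S.Mat q t) :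
    S.Horn q (fun i => t i.succ) := by
  intro a b h
  have := ht a.succ b (by
    rw [Fin.lt_def] at h
    rw [Fin.le_def]
    simp at h ⊢
    omega)
  exact this

/-- a filler of the horn of a matching family -/
noncomputable def flr {q : ℕ} (t : Fin (q + 3) → S.Γ (q + 1)) (ht : S.Mat q t) : S.Γ (q + 2) :=
  (S.fill q _ ht.horn).choose

theorem flr_spec {q : ℕ} (t : Fin (q + 3) → S.Γ (q + 1)) (ht : S.Mat q t) (i : Fin (q + 2)) :
    S.d (q + 1) i.succ (S.flr t ht) = t i.succ := (S.fill q _ ht.horn).choose_spec i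

theorem res_mem_N {q : ℕ} (t : Fin (q + 3) → S.Γ (q + 1)) (ht : S.Mat q t) (w : S.Γ (q + 2))
    (hw : ∀ i : Fin (q + 2), S.d (q + 1) i.succ w = t i.succ) :
    t 0 * (S.d (q + 1) 0 w)⁻¹ ∈ S.N q := by
  rw [mem_N]
  intro i
  have h1 := S.dd q 0 i (Fin.zero_le _) w
  rw [hw i] at h1
  have h2 := ht 0 i (Fin.zero_le _)
  rw [map_mul, map_inv]
  have e : (0 : Fin (q + 2)).castSucc = 0 := rfl
  rw [e] at h1 h2
  rw [← h1, ← h2]
  group

/-- class of a matching family -/
noncomputable def cl {q : ℕ} (t : Fin (q + 3) → S.Γ (q + 1)) (ht : S.Mat q t) : S.Pg q :=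
  S.cls q ⟨t 0 * (S.d (q + 1) 0 (S.flr t ht))⁻¹, S.res_mem_N t ht _ (S.flr_spec t ht)⟩

theorem cl_eq {q : ℕ} (t : Fin (q + 3) → S.Γ (q + 1)) (ht : S.Mat q t) (w : S.Γ (q + 2))
    (hw : ∀ i : Fin (q + 2), S.d (q + 1) i.succ w = t i.succ) :
    S.cl t ht = S.cls q ⟨t 0 * (S.d (q + 1) 0 w)⁻¹, S.res_mem_N t ht _ hw⟩ := by
  apply S.cls_eq_of
  rw [mem_Bd]
  refine ⟨S.s (q + 1) 0 (t 0) * ((S.flr t ht)⁻¹ * w) * (S.s (q + 1) 0 (t 0))⁻¹, ?_, ?_⟩
  · intro i
    rw [map_mul, map_mul, map_mul, map_inv, map_inv, S.flr_spec, hw]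
    group
  · have : S.d (q + 1) 0 (S.s (q + 1) 0 (t 0)) = t 0 := S.ds_self (q + 1) 0 (t 0)
    simp only [map_mul, map_inv, this]
    group

theorem Mat.mul {S : SymGrp} {q : ℕ} {t t' : Fin (q + 3) → S.Γ (q + 1)} (ht : S.Mat q t)
    (ht' : S.Mat q t') : S.Mat q (t * t') := by
  intro i j h
  simp only [Pi.mul_apply, map_mul, ht i j h, ht' i j h]

theorem cl_mul {q : ℕ} (t t' : Fin (q + 3) → S.Γ (q + 1)) (ht : S.Mat q t) (ht' : S.Mat q t') :
    S.cl (t * t') (ht.mul ht') = S.cl t ht * S.cl t' ht' := by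
  rw [S.cl_eq (t * t') _ (S.flr t ht * S.flr t' ht') (by
    intro i
    rw [map_mul, S.flr_spec, S.flr_spec, Pi.mul_apply]), cl, cl, ← map_mul]
  apply S.cls_eq_of
  have h := S.comm_mem q (t' 0 * (S.d (q + 1) 0 (S.flr t' ht'))⁻¹)
    (S.res_mem_N t' ht' _ (S.flr_spec t' ht')) (S.d (q + 1) 0 (S.flr t ht))⁻¹
  rw [commutatorElement_def] at h
  have h' := (inferInstance : (S.Bd q).Normal).conj_mem _ h (t 0)
  convert h' using 1
  simp only [Pi.mul_apply, map_mul, Subgroup.coe_mul]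
  group

theorem Mat.bdy {S : SymGrp} {q : ℕ} (y : S.Γ (q + 2)) :
    S.Mat q (fun i => S.d (q + 1) i y) := fun i j h => S.dd q i j h y

theorem cl_bdy {q : ℕ} (y : S.Γ (q + 2)) : S.cl (fun i => S.d (q + 1) i y) (Mat.bdy y) = 1 := by
  rw [S.cl_eq _ _ y (fun i => rfl), cls_eq_one]
  simp

theorem cl_congr {q : ℕ} {t t' : Fin (q + 3) → S.Γ (q + 1)} (ht : S.Mat q t) (h : t = t') :
    S.cl t ht = S.cl t' (h ▸ ht) := by
  subst h
  rfl

theorem exists_of_cl {q : ℕ} (t : Fin (q + 3) → S.Γ (q + 1)) (ht : S.Mat q t)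
    (h : S.cl t ht = 1) : ∃ y : S.Γ (q + 2), ∀ i, S.d (q + 1) i y = t i := by
  rw [cl, cls_eq_one, mem_Bd] at h
  obtain ⟨y, hy, hy0⟩ := h
  refine ⟨y * S.flr t ht, ?_⟩
  intro i
  rw [map_mul]
  refine Fin.cases ?_ (fun i => ?_) i
  · rw [hy0]
    group
  · rw [hy i, S.flr_spec, one_mul]

theorem Mat.sph {S : SymGrp} {q : ℕ} (χ : Fin (q + 3) → S.N q) :
    S.Mat q (fun i => (χ i : S.Γ (q + 1))) := by
  intro i j _
  have h1 := (S.mem_N q _).1 (χ j.succ).2 i
  have h2 := (S.mem_N q _).1 (χ i.castSucc).2 j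
  rw [h1, h2]

theorem cl_single {q : ℕ} (x : S.N q) (k : ℕ) : ∀ i : Fin (q + 3), (i : ℕ) = k →
    S.cl (fun j => ((if j = i then x else 1 : S.N q) : S.Γ (q + 1)))
      (Mat.sph fun j => if j = i then x else 1) = S.cls q x ^ ((-1 : ℤ) ^ k) := by
  induction k with
  | zero =>
    intro i hi
    have : i = 0 := Fin.ext hi
    subst this
    rw [S.cl_eq _ _ 1 (by
      intro i
      rw [map_one, if_neg (Fin.succ_ne_zero i)]
      rfl), pow_zero, zpow_one]
    congr 1
    apply Subtype.ext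
    simp
  | succ k ih =>
    intro i hi
    have h0 : i ≠ 0 := by
      rintro rfl
      simp at hi
    obtain ⟨j, rfl⟩ := Fin.exists_succ_eq.2 h0
    have h1 := ih j.castSucc (by simp at hi ⊢; omega)
    have h2 := S.cl_bdy (q := q) (S.s (q + 1) j x)
    have h3 : (fun i => S.d (q + 1) i (S.s (q + 1) j (x : S.Γ (q + 1)))) =
        (fun i => ((if i = j.castSucc then x else 1 : S.N q) : S.Γ (q + 1))) *
          (fun i => ((if i = j.succ then x else 1 : S.N q) : S.Γ (q + 1))) := by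
      funext a
      rw [Pi.mul_apply]
      by_cases ha : a = j.castSucc
      · subst ha
        have : j.castSucc ≠ j.succ := by
          intro he
          rw [Fin.ext_iff] at he
          simp at he
        rw [ds_self, if_pos rfl, if_neg this]
        simp
      · by_cases ha' : a = j.succ
        · subst ha'
          rw [ds_succ, if_pos rfl, if_neg ha]
          simp
        · rw [S.d_s_N q j x x.2 a ha ha', if_neg ha, if_neg ha']
          simp
    rw [S.cl_congr _ h3, S.cl_mul _ _ (Mat.sph fun i => if i = j.castSucc then x else 1)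
      (Mat.sph fun i => if i = j.succ then x else 1), h1] at h2
    rw [eq_comm, pow_succ, mul_neg_one, zpow_neg, inv_eq_iff_mul_eq_one]
    exact h2

theorem cl_sph {q : ℕ} (χ : Fin (q + 3) → S.N q) :
    S.cl (fun i => (χ i : S.Γ (q + 1))) (Mat.sph χ) =
      ∏ i : Fin (q + 3), S.cls q (χ i) ^ ((-1 : ℤ) ^ (i : ℕ)) := by
  classical
  have key : ∀ t : Finset (Fin (q + 3)),
      S.cl (fun i => ((if i ∈ t then χ i else 1 : S.N q) : S.Γ (q + 1)))
        (Mat.sph fun i => if i ∈ t then χ i else 1) =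
      ∏ i ∈ t, S.cls q (χ i) ^ ((-1 : ℤ) ^ (i : ℕ)) := by
    intro t
    induction t using Finset.induction_on with
    | empty =>
      rw [Finset.prod_empty]
      have h3 : (fun i : Fin (q + 3) => ((if i ∈ (∅ : Finset (Fin (q + 3))) then χ i else 1 : S.N q) :
          S.Γ (q + 1))) = fun i => S.d (q + 1) i (1 : S.Γ (q + 2)) := by
        funext i
        simp
      rw [S.cl_congr _ h3, S.cl_bdy]
    | insert a t ha ih =>
      rw [Finset.prod_insert ha, ← ih, ← S.cl_single (χ a) a a rfl, ← S.cl_mul]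
      apply S.cl_congr
      funext i
      rw [Pi.mul_apply]
      by_cases hi : i = a
      · subst hi
        simp [ha]
      · simp [hi]
  have := key Finset.univ
  simp only [Finset.mem_univ, if_true] at this
  exact this

/-- homotopy addition lemma -/
theorem hal {q : ℕ} (t : Fin (q + 4) → Fin (q + 3) → S.Γ (q + 1)) (ht : ∀ j, S.Mat q (t j))
    (hc : ∀ i j : Fin (q + 3), i ≤ j → t j.succ i = t i.castSucc j) :
    ∏ j : Fin (q + 4), S.cl (t j) (ht j) ^ ((-1 : ℤ) ^ (j : ℕ)) = 1 := by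
  let w : Fin (q + 4) → S.Γ (q + 2) := fun j => S.flr (t j) (ht j)
  have hw : ∀ (j : Fin (q + 4)) (i : Fin (q + 2)), S.d (q + 1) i.succ (w j) = t j i.succ :=
    fun j i => S.flr_spec (t j) (ht j) i
  obtain ⟨Y, hY⟩ := S.fill (q + 1) (fun b => w b.succ) (by
    intro a b h
    have h0 : b ≠ 0 := by
      rintro rfl
      simp at h
    obtain ⟨b', rfl⟩ := Fin.exists_succ_eq.2 h0
    change S.d (q + 1) a.succ (w b'.succ.succ) = S.d (q + 1) b'.succ (w a.castSucc.succ)
    rw [hw, hw]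
    have := hc a.succ b'.succ (by
      rw [Fin.lt_def] at h
      rw [Fin.le_def]
      simp at h ⊢
      omega)
    rw [this]
    rfl)
  let ψ : Fin (q + 3) → S.N q := fun b =>
    ⟨t b.succ 0 * (S.d (q + 1) 0 (w b.succ))⁻¹, S.res_mem_N _ (ht b.succ) _ (hw b.succ)⟩
  have h1 : ∀ b : Fin (q + 3), S.cl (t b.succ) (ht b.succ) = S.cls q (ψ b) := fun b => rfl
  have h0 : S.cl (t 0) (ht 0) = ∏ i : Fin (q + 3), S.cls q (ψ i) ^ ((-1 : ℤ) ^ (i : ℕ)) := by
    rw [← S.cl_sph ψ]
    have e : t 0 = (fun i => (ψ i : S.Γ (q + 1))) *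
        (fun i => S.d (q + 1) i (S.d (q + 2) 0 Y)) := by
      funext i
      rw [Pi.mul_apply]
      have h2 := S.dd (q + 1) 0 i (Fin.zero_le _) Y
      rw [hY i] at h2
      have h3 := hc 0 i (Fin.zero_le _)
      change t 0 i = t i.succ 0 * (S.d (q + 1) 0 (w i.succ))⁻¹ *
        S.d (q + 1) i (S.d (q + 2) (0 : Fin (q + 3)).castSucc Y)
      rw [← h2, h3]
      simp
    rw [S.cl_congr (ht 0) e, S.cl_mul _ _ (Mat.sph ψ) (Mat.bdy _), S.cl_bdy, mul_one]
  rw [Fin.prod_univ_succ, h0]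
  simp only [Fin.val_zero, pow_zero, zpow_one, h1, Fin.val_succ, pow_succ, mul_neg_one, zpow_neg]
  rw [Finset.prod_inv_distrib, mul_inv_cancel]

end SymGrp

end Pool.Agent.H904R2
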