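import Pool.Agent.H904R2.Base
import Pool.Agent.H904R2.SG

/-! Twisted obstruction theory with values in a connected symmetric simplicial group. -/

set_option autoImplicit false

namespace Pool.Agent.H904R2

namespace SymGrp

variable (S : SymGrp)

open Classical in
/-- class of a matching family, additively, total function -/
noncomputable def clp {q : ℕ} (t : Fin (q + 3) → S.Γ (q + 1)) : Additive (S.Pg q) :=
  if h : S.Mat q t then Additive.ofMul (S.cl t h) else 0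

theorem clp_eq {q : ℕ} {t : Fin (q + 3) → S.Γ (q + 1)} (ht : S.Mat q t) :
    S.clp t = Additive.ofMul (S.cl t ht) := dif_pos ht

theorem clp_mul {q : ℕ} {t t' : Fin (q + 3) → S.Γ (q + 1)} (ht : S.Mat q t) (ht' : S.Mat q t') :
    S.clp (t * t') = S.clp t + S.clp t' := by
  rw [S.clp_eq ht, S.clp_eq ht', S.clp_eq (ht.mul ht'), S.cl_mul t t' ht ht', ofMul_mul]

theorem clp_bdy {q : ℕ} (y : S.Γ (q + 2)) : S.clp (fun i => S.d (q + 1) i y) = 0 := by
  rw [S.clp_eq (Mat.bdy y), S.cl_bdy, ofMul_one]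

theorem clp_bdy_mul {q : ℕ} {t : Fin (q + 3) → S.Γ (q + 1)} (ht : S.Mat q t) (y z : S.Γ (q + 2)) :
    S.clp (fun i => S.d (q + 1) i y * t i * S.d (q + 1) i z) = S.clp t := by
  have e : (fun i => S.d (q + 1) i y * t i * S.d (q + 1) i z) =
      (fun i => S.d (q + 1) i y) * t * (fun i => S.d (q + 1) i z) := rfl
  rw [e, S.clp_mul ((Mat.bdy y).mul ht) (Mat.bdy z), S.clp_mul (Mat.bdy y) ht, S.clp_bdy,
    S.clp_bdy, zero_add, add_zero]

theorem exists_of_clp {q : ℕ} {t : Fin (q + 3) → S.Γ (q + 1)} (ht : S.Mat q t)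
    (h : S.clp t = 0) : ∃ y : S.Γ (q + 2), ∀ i, S.d (q + 1) i y = t i := by
  rw [S.clp_eq ht] at h
  exact S.exists_of_cl t ht (ofMul_eq_zero.1 h)

/-- additive class of a spherical element -/
noncomputable def ac {q : ℕ} (x : S.N q) : Additive (S.Pg q) := Additive.ofMul (S.cls q x)

theorem ac_surj {q : ℕ} (c : Additive (S.Pg q)) : ∃ x : S.N q, S.ac x = c := by
  obtain ⟨x, hx⟩ := S.cls_surj q c.toMul
  exact ⟨x, congrArg Additive.ofMul hx⟩

theorem ac_conj {q : ℕ} (x : S.N q) (g : S.Γ (q + 1))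
    (h : g⁻¹ * (x : S.Γ (q + 1)) * g ∈ S.N q) :
    S.ac ⟨g⁻¹ * (x : S.Γ (q + 1)) * g, h⟩ = S.ac x := by
  unfold ac
  congr 1
  apply S.cls_eq_of
  have h1 := S.comm_mem q _ h g
  rw [commutatorElement_def] at h1
  have : (g⁻¹ * (x : S.Γ (q + 1)) * g) * (x : S.Γ (q + 1))⁻¹ =
      (g⁻¹ * (x : S.Γ (q + 1)) * g) * g * (g⁻¹ * (x : S.Γ (q + 1)) * g)⁻¹ * g⁻¹ := by
    group
  rw [this]
  exact h1

theorem clp_sph {q : ℕ} (χ : Fin (q + 3) → S.N q) :
    S.clp (fun i => (χ i : S.Γ (q + 1))) = ∑ i : Fin (q + 3), ((-1 : ℤ) ^ (i : ℕ)) • S.ac (χ i) := by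
  rw [S.clp_eq (Mat.sph χ), S.cl_sph, ofMul_prod]
  rfl

theorem hal' {q : ℕ} (t : Fin (q + 4) → Fin (q + 3) → S.Γ (q + 1)) (ht : ∀ j, S.Mat q (t j))
    (hc : ∀ i j : Fin (q + 3), i ≤ j → t j.succ i = t i.castSucc j) :
    ∑ j : Fin (q + 4), ((-1 : ℤ) ^ (j : ℕ)) • S.clp (t j) = 0 := by
  have h := congrArg Additive.ofMul (S.hal t ht hc)
  rw [ofMul_prod, ofMul_one] at h
  simp only [S.clp_eq (ht _)]
  exact h

end SymGrp

/-- a twisted extension problem: simplices `K` with faces, closed under faces subset `A`, twisting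
functions `β`, `γ`. -/
structure Tw (S : SymGrp) where
  K : ℕ → Type
  fc : ∀ n, Fin (n + 2) → K (n + 1) → K n
  hfc : ∀ n (i j : Fin (n + 2)) (σ : K (n + 2)), i ≤ j →
    fc n i (fc (n + 1) j.succ σ) = fc n j (fc (n + 1) i.castSucc σ)
  β : ∀ n, Fin (n + 2) → K (n + 1) → S.Γ n
  γ : ∀ n, Fin (n + 2) → K (n + 1) → S.Γ n
  hβ : ∀ n (i j : Fin (n + 2)) (σ : K (n + 2)), i ≤ j →
    β n i (fc (n + 1) j.succ σ) * S.d n i (β (n + 1) j.succ σ) =
      β n j (fc (n + 1) i.castSucc σ) * S.d n j (β (n + 1) i.castSucc σ)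
  hγ : ∀ n (i j : Fin (n + 2)) (σ : K (n + 2)), i ≤ j →
    γ n i (fc (n + 1) j.succ σ) * S.d n i (γ (n + 1) j.succ σ) =
      γ n j (fc (n + 1) i.castSucc σ) * S.d n j (γ (n + 1) i.castSucc σ)

namespace Tw

variable {S : SymGrp} (W : Tw S)

/-- compatibility with faces in degree `n` -/
def Cmp (x : ∀ n, W.K n → S.Γ n) (n : ℕ) : Prop :=
  ∀ (σ : W.K (n + 1)) (i : Fin (n + 2)),
    W.β n i σ * S.d n i (x (n + 1) σ) * (W.γ n i σ)⁻¹ = x n (W.fc n i σ)

/-- the family of faces prescribed for `x σ` -/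
def tup (x : ∀ n, W.K n → S.Γ n) (n : ℕ) (σ : W.K (n + 1)) (i : Fin (n + 2)) : S.Γ n :=
  (W.β n i σ)⁻¹ * x n (W.fc n i σ) * W.γ n i σ

theorem cmp_iff (x : ∀ n, W.K n → S.Γ n) (n : ℕ) :
    W.Cmp x n ↔ ∀ (σ : W.K (n + 1)) (i : Fin (n + 2)), S.d n i (x (n + 1) σ) = W.tup x n σ i := by
  unfold Cmp tup
  constructor
  · intro h σ i
    rw [← h σ i]
    group
  · intro h σ i
    rw [h σ i]
    group

theorem tup_face {x : ∀ n, W.K n → S.Γ n} {q : ℕ} (hx : W.Cmp x q) (σ : W.K (q + 2))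
    (i : Fin (q + 2)) (j : Fin (q + 3)) :
    S.d q i (W.tup x (q + 1) σ j) =
      (W.β q i (W.fc (q + 1) j σ) * S.d q i (W.β (q + 1) j σ))⁻¹ * x q (W.fc q i (W.fc (q + 1) j σ)) *
        (W.γ q i (W.fc (q + 1) j σ) * S.d q i (W.γ (q + 1) j σ)) := by
  rw [cmp_iff] at hx
  unfold tup
  rw [map_mul, map_mul, map_inv, hx (W.fc (q + 1) j σ) i]
  unfold tup
  group

theorem tup_mat {x : ∀ n, W.K n → S.Γ n} {q : ℕ} (hx : W.Cmp x q) (σ : W.K (q + 2)) :
    S.Mat q (W.tup x (q + 1) σ) := by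
  intro i j h
  rw [W.tup_face hx, W.tup_face hx, W.hβ q i j σ h, W.hγ q i j σ h, W.hfc q i j σ h]

/-- obstruction cochain -/
noncomputable def ob (x : ∀ n, W.K n → S.Γ n) (q : ℕ) (σ : W.K (q + 2)) : Additive (S.Pg q) :=
  S.clp (W.tup x (q + 1) σ)

theorem ob_coc {x : ∀ n, W.K n → S.Γ n} {q : ℕ} (hx : W.Cmp x q) (τ : W.K (q + 3)) :
    dlt W.fc (q + 2) (W.ob x q) τ = 0 := by
  have h := S.hal' (q := q) (fun j i => S.d (q + 1) i (W.β (q + 2) j τ)⁻¹ *
    W.tup x (q + 1) (W.fc (q + 2) j τ) i * S.d (q + 1) i (W.γ (q + 2) j τ)) (by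
      intro j
      exact ((SymGrp.Mat.bdy _).mul (W.tup_mat hx _)).mul (SymGrp.Mat.bdy _)) (by
      intro i j hij
      have h1 := W.hβ (q + 1) i j τ hij
      have h2 := W.hγ (q + 1) i j τ hij
      have h3 := W.hfc (q + 1) i j τ hij
      unfold tup
      rw [h3, map_inv, map_inv]
      have e1 : (S.d (q + 1) i (W.β (q + 2) j.succ τ))⁻¹ * (W.β (q + 1) i (W.fc (q + 2) j.succ τ))⁻¹ =
          (S.d (q + 1) j (W.β (q + 2) i.castSucc τ))⁻¹ *
            (W.β (q + 1) j (W.fc (q + 2) i.castSucc τ))⁻¹ := by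
        rw [← mul_inv_rev, ← mul_inv_rev, h1]
      calc _ = ((S.d (q + 1) i (W.β (q + 2) j.succ τ))⁻¹ *
            (W.β (q + 1) i (W.fc (q + 2) j.succ τ))⁻¹) *
            x (q + 1) (W.fc (q + 1) j (W.fc (q + 2) i.castSucc τ)) *
            (W.γ (q + 1) i (W.fc (q + 2) j.succ τ) * S.d (q + 1) i (W.γ (q + 2) j.succ τ)) := by
              group
        _ = _ := by
          rw [e1, h2]
          group)
  rw [← h]
  unfold dlt ob
  refine Finset.sum_congr rfl fun j _ => ?_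
  rw [S.clp_bdy_mul (W.tup_mat hx _)]

/-- one step of obstruction theory: change in degree `q+1`, extend in degree `q+2`. -/
theorem ob_step {x : ∀ n, W.K n → S.Γ n} {q : ℕ} (hx : ∀ n, n ≤ q → W.Cmp x n)
    (A : ∀ n, Set (W.K n)) (hA : ∀ n i σ, σ ∈ A (n + 1) → W.fc n i σ ∈ A n)
    (hxA : ∀ σ ∈ A (q + 2), ∀ i, S.d (q + 1) i (x (q + 2) σ) = W.tup x (q + 1) σ i)
    (η : W.K (q + 1) → Additive (S.Pg q)) (hηA : ∀ σ ∈ A (q + 1), η σ = 0)
    (hη : ∀ σ, W.ob x q σ + dlt W.fc (q + 1) η σ = 0) :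
    ∃ x' : ∀ n, W.K n → S.Γ n, (∀ n, n ≤ q + 1 → W.Cmp x' n) ∧
      (∀ n, n ≤ q → x' n = x n) ∧ (∀ σ, η σ = 0 → x' (q + 1) σ = x (q + 1) σ) ∧
      (∀ n, ∀ σ ∈ A n, x' n σ = x n σ) := by
  classical
  have hψ : ∀ σ : W.K (q + 1), ∃ y : S.N q, S.ac y = η σ ∧ (η σ = 0 → y = 1) := by
    intro σ
    by_cases h : η σ = 0
    · refine ⟨1, ?_, fun _ => rfl⟩
      rw [h]
      simp [SymGrp.ac]
    · obtain ⟨y, hy⟩ := S.ac_surj (η σ)
      exact ⟨y, hy, fun h' => absurd h' h⟩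
  choose ψ hψ1 hψ3 using hψ
  have hψ2 : ∀ σ ∈ A (q + 1), ψ σ = 1 := fun σ h => hψ3 σ (hηA σ h)
  -- modification in degree q+1
  let x1 : ∀ n, W.K n → S.Γ n :=
    Function.update x (q + 1) (fun σ => x (q + 1) σ * (ψ σ : S.Γ (q + 1)))
  have hx1 : x1 (q + 1) = fun σ => x (q + 1) σ * (ψ σ : S.Γ (q + 1)) := by
    simp [x1]
  have hx1' : ∀ n, n ≠ q + 1 → x1 n = x n := fun n hn => by
    simp [x1, Function.update_of_ne hn]
  have hx1q : W.Cmp x1 q := by
    rw [cmp_iff]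
    intro σ i
    have h1 := (W.cmp_iff x q).1 (hx q le_rfl) σ i
    unfold tup
    rw [hx1, hx1' q (by omega), map_mul, h1, (S.mem_N q _).1 (ψ σ).2 i, mul_one]
    rfl
  have hmat := W.tup_mat hx1q
  have hcl : ∀ σ : W.K (q + 2), S.clp (W.tup x1 (q + 1) σ) = 0 := by
    intro σ
    have hconj : ∀ i : Fin (q + 3), (W.γ (q + 1) i σ)⁻¹ * (ψ (W.fc (q + 1) i σ) : S.Γ (q + 1)) *
        W.γ (q + 1) i σ ∈ S.N q := by
      intro i
      have := (inferInstance : (S.N q).Normal).conj_mem _ (ψ (W.fc (q + 1) i σ)).2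
        (W.γ (q + 1) i σ)⁻¹
      rwa [inv_inv] at this
    have e : W.tup x1 (q + 1) σ = W.tup x (q + 1) σ *
        (fun i => ((⟨_, hconj i⟩ : S.N q) : S.Γ (q + 1))) := by
      funext i
      rw [Pi.mul_apply]
      unfold tup
      rw [hx1]
      group
    rw [e, S.clp_mul (W.tup_mat (hx q le_rfl) σ) (SymGrp.Mat.sph _), S.clp_sph, ← hη σ]
    congr 1
    unfold dlt
    refine Finset.sum_congr rfl fun i _ => ?_
    rw [S.ac_conj, hψ1]
  have hy : ∀ σ : W.K (q + 2), ∃ y : S.Γ (q + 2), (∀ i, S.d (q + 1) i y = W.tup x1 (q + 1) σ i) ∧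
      (σ ∈ A (q + 2) → y = x (q + 2) σ) := by
    intro σ
    by_cases h : σ ∈ A (q + 2)
    · refine ⟨x (q + 2) σ, ?_, fun _ => rfl⟩
      intro i
      rw [hxA σ h i]
      unfold tup
      rw [hx1]
      change _ = (W.β (q + 1) i σ)⁻¹ * (x (q + 1) (W.fc (q + 1) i σ) *
        (ψ (W.fc (q + 1) i σ) : S.Γ (q + 1))) * W.γ (q + 1) i σ
      rw [hψ2 _ (hA _ i σ h)]
      simp
    · obtain ⟨y, hy⟩ := S.exists_of_clp (hmat σ) (hcl σ)
      exact ⟨y, hy, fun h' => absurd h' h⟩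
  choose Y hY1 hY2 using hy
  refine ⟨Function.update x1 (q + 2) Y, ?_, ?_, ?_, ?_⟩
  · intro n hn
    rw [cmp_iff]
    intro σ i
    rcases eq_or_lt_of_le hn with h | h
    · subst h
      unfold tup
      rw [Function.update_self, Function.update_of_ne (by omega : q + 1 ≠ q + 2), hY1]
      rfl
    · have hn' : n ≤ q := by omega
      unfold tup
      rw [Function.update_of_ne (by omega : n + 1 ≠ q + 2), Function.update_of_ne (by omega : n ≠ q + 2)]
      rcases eq_or_lt_of_le hn' with h' | h'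
      · subst h'
        exact (W.cmp_iff x1 n).1 hx1q σ i
      · rw [hx1' n (by omega), hx1' (n + 1) (by omega)]
        exact (W.cmp_iff x n).1 (hx n hn') σ i
  · intro n hn
    rw [Function.update_of_ne (by omega : n ≠ q + 2), hx1' n (by omega)]
  · intro σ hσ
    rw [Function.update_of_ne (by omega : q + 1 ≠ q + 2), hx1]
    change x (q + 1) σ * (ψ σ : S.Γ (q + 1)) = x (q + 1) σ
    rw [hψ3 σ hσ]
    simp
  · intro n σ hσ
    by_cases h2 : n = q + 2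
    · subst h2
      rw [Function.update_self, hY2 σ hσ]
    · rw [Function.update_of_ne h2]
      by_cases h1 : n = q + 1
      · subst h1
        rw [hx1]
        change x (q + 1) σ * (ψ σ : S.Γ (q + 1)) = x (q + 1) σ
        rw [hψ2 σ hσ]
        simp
      · rw [hx1' n h1]

/-- extension in degrees `0, 1`. -/
theorem ext_one (x : ∀ n, W.K n → S.Γ n)
    (A : ∀ n, Set (W.K n)) (hxA : ∀ σ ∈ A 1, ∀ i, S.d 0 i (x 1 σ) = W.tup x 0 σ i) :
    ∃ x' : ∀ n, W.K n → S.Γ n, W.Cmp x' 0 ∧ (∀ n, ∀ σ ∈ A n, x' n σ = x n σ) := by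
  classical
  have hy : ∀ σ : W.K 1, ∃ y : S.Γ 1, (∀ i, S.d 0 i y = W.tup x 0 σ i) ∧
      (σ ∈ A 1 → y = x 1 σ) := by
    intro σ
    by_cases h : σ ∈ A 1
    · exact ⟨x 1 σ, hxA σ h, fun _ => rfl⟩
    · obtain ⟨p, hp0, hp1⟩ := S.conn (W.tup x 0 σ 0)
      obtain ⟨p', hp0', hp1'⟩ := S.conn (W.tup x 0 σ 1)
      refine ⟨S.pull (m := 1) (n := 1) (Equiv.swap (0 : Fin 2) 1) p * p', ?_, fun h' => absurd h' h⟩
      have e0 : (0 : Fin 2).succAbove = fun _ : Fin 1 => (1 : Fin 2) := by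
        funext k
        fin_cases k
        rfl
      have e1 : (1 : Fin 2).succAbove = fun _ : Fin 1 => (0 : Fin 2) := by
        funext k
        fin_cases k
        rfl
      have s0 : (Equiv.swap (0 : Fin 2) 1 : Fin 2 → Fin 2) ∘ (fun _ : Fin 1 => (1 : Fin 2)) =
          fun _ : Fin 1 => (0 : Fin 2) := by
        funext k
        simp
      have s1 : (Equiv.swap (0 : Fin 2) 1 : Fin 2 → Fin 2) ∘ (fun _ : Fin 1 => (0 : Fin 2)) =
          fun _ : Fin 1 => (1 : Fin 2) := by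
        funext k
        simp
      intro i
      fin_cases i
      · change S.pull (0 : Fin 2).succAbove _ = W.tup x 0 σ 0
        rw [e0, map_mul, hp1', S.pull_comp, s0, hp0, mul_one]
      · change S.pull (1 : Fin 2).succAbove _ = W.tup x 0 σ 1
        rw [e1, map_mul, hp0', S.pull_comp, s1, hp1, one_mul]
  choose Y hY1 hY2 using hy
  refine ⟨Function.update x 1 Y, ?_, ?_⟩
  · rw [cmp_iff]
    intro σ i
    unfold tup
    rw [Function.update_self, Function.update_of_ne (by omega : (0 : ℕ) ≠ 1), hY1]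
    rfl
  · intro n σ hσ
    by_cases h1 : n = 1
    · subst h1
      rw [Function.update_self, hY2 σ hσ]
    · rw [Function.update_of_ne h1]

/-- relative extension theorem -/
theorem ext_all (x : ∀ n, W.K n → S.Γ n)
    (A : ∀ n, Set (W.K n)) (hA : ∀ n i σ, σ ∈ A (n + 1) → W.fc n i σ ∈ A n)
    (hxA : ∀ n, ∀ σ ∈ A (n + 1), ∀ i, S.d n i (x (n + 1) σ) = W.tup x n σ i) (D : ℕ)
    (hH : ∀ q, q < D → ∀ θ : W.K (q + 2) → Additive (S.Pg q), (∀ σ ∈ A (q + 2), θ σ = 0) →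
      (∀ τ, dlt W.fc (q + 2) θ τ = 0) → ∃ η : W.K (q + 1) → Additive (S.Pg q),
        (∀ σ ∈ A (q + 1), η σ = 0) ∧ ∀ σ, dlt W.fc (q + 1) η σ = θ σ) :
    ∃ x' : ∀ n, W.K n → S.Γ n, (∀ n, n ≤ D → W.Cmp x' n) ∧ (∀ n, ∀ σ ∈ A n, x' n σ = x n σ) := by
  induction D with
  | zero =>
    obtain ⟨x', h1, h2⟩ := W.ext_one x A (hxA 0)
    refine ⟨x', ?_, h2⟩
    intro n hn
    have : n = 0 := by omega
    subst this
    exact h1
  | succ D ih =>
    obtain ⟨x', h1, h2⟩ := ih (fun q hq => hH q (by omega))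
    have hx'A : ∀ n, ∀ σ ∈ A (n + 1), ∀ i, S.d n i (x' (n + 1) σ) = W.tup x' n σ i := by
      intro n σ hσ i
      rw [h2 _ σ hσ, hxA n σ hσ i]
      unfold tup
      rw [h2 n _ (hA n i σ hσ)]
    obtain ⟨η, hη1, hη2⟩ := hH D (by omega) (fun σ => - W.ob x' D σ) (by
      intro σ hσ
      have : W.tup x' (D + 1) σ = fun i => S.d (D + 1) i (x' (D + 2) σ) := by
        funext i
        rw [hx'A (D + 1) σ hσ i]
      unfold ob
      rw [this, S.clp_bdy, neg_zero]) (by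
      intro τ
      have := W.ob_coc (h1 D le_rfl) τ
      unfold dlt at this ⊢
      simp only [smul_neg, Finset.sum_neg_distrib, this, neg_zero])
    obtain ⟨x'', h3, _, _, h4⟩ := W.ob_step h1 A hA (hx'A (D + 1)) η hη1 (by
      intro σ
      rw [hη2 σ]
      simp)
    exact ⟨x'', h3, fun n σ hσ => (h4 n σ hσ).trans (h2 n σ hσ)⟩

end Tw

end Pool.Agent.H904R2
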