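import Pool.Agent.H904R2.EM
import Pool.Agent.H904R2.Obs

/-! Maps from the cocycle model of `K(ℤ, n)` to a symmetric simplicial group. -/

set_option autoImplicit false

namespace Pool.Agent.H904R2

namespace SymGrp

variable (S : SymGrp)

/-- matching families form a group -/
def matG (q : ℕ) : Subgroup (Fin (q + 3) → S.Γ (q + 1)) where
  carrier := {t | S.Mat q t}
  mul_mem' := fun h h' => Mat.mul h h'
  one_mem' := by intro i j _; simp
  inv_mem' := by
    intro t ht i j h
    simp only [Pi.inv_apply, map_inv]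
    rw [ht i j h]

/-- the class as a homomorphism -/
noncomputable def clH (q : ℕ) : S.matG q →* S.Pg q where
  toFun t := S.cl t.1 t.2
  map_one' := by
    have h := S.cl_bdy (q := q) 1
    rw [← h]
    apply S.cl_congr
    funext i
    simp
  map_mul' a b := S.cl_mul a.1 b.1 a.2 b.2

theorem clp_listprod {q : ℕ} {ι : Type} (l : List ι) (t : ι → Fin (q + 3) → S.Γ (q + 1)) (c : ι → ℤ)
    (ht : ∀ k, S.Mat q (t k)) :
    S.Mat q (fun i => (l.map fun k => t k i ^ c k).prod) ∧
      S.clp (fun i => (l.map fun k => t k i ^ c k).prod) = (l.map fun k => c k • S.clp (t k)).sum := by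
  let T : ι → S.matG q := fun k => ⟨t k, ht k⟩
  have e : ((l.map fun k => T k ^ c k).prod : S.matG q).1 =
      fun i => (l.map fun k => t k i ^ c k).prod := by
    induction l with
    | nil => rfl
    | cons a l ih =>
      simp only [List.map_cons, List.prod_cons]
      rw [Subgroup.coe_mul, ih]
      rfl
  have hm : S.Mat q (fun i => (l.map fun k => t k i ^ c k).prod) := by
    rw [← e]
    exact ((l.map fun k => T k ^ c k).prod : S.matG q).2
  refine ⟨hm, ?_⟩
  rw [S.clp_eq hm, ← S.cl_congr ((l.map fun k => T k ^ c k).prod : S.matG q).2 e]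
  change Additive.ofMul (S.clH q (l.map fun k => T k ^ c k).prod) = _
  rw [map_list_prod, List.map_map]
  clear hm e
  induction l with
  | nil => rfl
  | cons a l ih =>
    simp only [List.map_cons, List.prod_cons, List.sum_cons, ofMul_mul, ih]
    congr 1
    rw [S.clp_eq (ht a)]
    simp only [Function.comp_apply, map_zpow]
    rfl

end SymGrp

variable (S : SymGrp)

theorem kface_kface (n q : ℕ) (i j : Fin (q + 2)) (σ : KZ n (q + 2)) (h : i ≤ j) :
    kface n q i (kface n (q + 1) j.succ σ) = kface n q j (kface n (q + 1) i.castSucc σ) := by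
  apply Subtype.ext
  funext v
  simp only [kface]
  exact congrArg (fun f => σ.1 (f ∘ v)) (funext fun k => SymGrp.succAbove_comm' i j h k)

/-- the untwisted problem on `K(ℤ, n)` -/
abbrev KTw (n : ℕ) : Tw S where
  K := fun q => KZ n q
  fc := kface n
  hfc := kface_kface n
  β := fun _ _ _ => 1
  γ := fun _ _ _ => 1
  hβ := by intros; simp
  hγ := by intros; simp

theorem KTw_tup (n : ℕ) (x : ∀ q, KZ n q → S.Γ q) (q : ℕ) (σ : KZ n (q + 1)) :
    (KTw S n).tup x q σ = fun i => x q (kface n q i σ) := by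
  funext i
  simp [Tw.tup, KTw]

theorem KTw_cmp (n : ℕ) (x : ∀ q, KZ n q → S.Γ q) (q : ℕ) :
    (KTw S n).Cmp x q ↔ ∀ (σ : KZ n (q + 1)) (i : Fin (q + 2)),
      S.d q i (x (q + 1) σ) = x q (kface n q i σ) := by
  rw [Tw.cmp_iff]
  simp only [KTw_tup]

/-- the operation `∏ (F ∘ 2^k)^{T_k}` -/
noncomputable def lp {n : ℕ} (F : ∀ q, KZ n q → S.Γ q) (T : Polynomial ℤ) (q : ℕ) (z : KZ n q) :
    S.Γ q :=
  ((List.range (T.natDegree + 1)).map fun k => F q ((2 : ℤ) ^ k • z) ^ T.coeff k).prod

theorem kface_smul (n q : ℕ) (i : Fin (q + 2)) (c : ℤ) (z : KZ n (q + 1)) :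
    kface n q i (c • z) = c • kface n q i z := by
  apply Subtype.ext
  funext v
  simp [kface]

theorem lp_cmp {n : ℕ} (F : ∀ q, KZ n q → S.Γ q) (T : Polynomial ℤ) (q : ℕ)
    (h : (KTw S n).Cmp F q) : (KTw S n).Cmp (lp S F T) q := by
  rw [KTw_cmp] at h ⊢
  intro σ i
  unfold lp
  rw [map_list_prod, List.map_map]
  congr 1
  apply List.map_congr_left
  intro k _
  simp only [Function.comp_apply, map_zpow, h, kface_smul]

theorem list_sum_range {M : Type} [AddCommMonoid M] (f : ℕ → M) (n : ℕ) :
    ((List.range n).map f).sum = ∑ k ∈ Finset.range n, f k := by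
  rw [Finset.sum_range]
  rw [List.sum_ofFn.symm]
  congr 1
  apply List.ext_getElem <;> simp

theorem ob_lp {n : ℕ} (F : ∀ q, KZ n q → S.Γ q) (T : Polynomial ℤ) (q : ℕ)
    (h : (KTw S n).Cmp F q) (σ : KZ n (q + 2)) :
    (KTw S n).ob (lp S F T) q σ =
      ∑ k ∈ Finset.range (T.natDegree + 1), T.coeff k • (KTw S n).ob F q ((2 : ℤ) ^ k • σ) := by
  have h1 := (S.clp_listprod (List.range (T.natDegree + 1))
    (fun k i => F (q + 1) (kface n (q + 1) i ((2 : ℤ) ^ k • σ))) T.coeff (by
      intro k
      have := (KTw S n).tup_mat h ((2 : ℤ) ^ k • σ : KZ n (q + 2))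
      rw [KTw_tup] at this
      exact this)).2
  rw [list_sum_range] at h1
  unfold Tw.ob
  rw [KTw_tup]
  simp only [KTw_tup]
  rw [← h1]
  unfold lp
  simp only [kface_smul]

theorem list_prod_zpow {G : Type} [Group G] (a : G) (l : List ℕ) (f : ℕ → ℤ) :
    (l.map fun k => a ^ f k).prod = a ^ (l.map f).sum := by
  induction l with
  | nil => simp
  | cons b l ih => simp [ih, zpow_add]

/-- the identity tuple -/
def kid {n : ℕ} (z : KZ n n) : ℤ := z.1 id

/-- Maps from `K(ℤ,n)`, `n = m+1`, to `S` of nonzero degree, defined up to dimension `D+1`. -/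
theorem exists_F (m : ℕ) (α : S.Γ (m + 1)) (hα : α ∈ S.N m) (D : ℕ) :
    ∃ (N : ℤ) (F : ∀ q, KZ (m + 1) q → S.Γ q), N ≠ 0 ∧
      (∀ q, q ≤ D → ∀ (σ : KZ (m + 1) (q + 1)) (i : Fin (q + 2)),
        S.d q i (F (q + 1) σ) = F q (kface (m + 1) q i σ)) ∧
      (∀ q, q ≤ m → ∀ z, F q z = 1) ∧
      (∀ z : KZ (m + 1) (m + 1), F (m + 1) z = α ^ (N * kid z)) := by
  have key : ∀ D : ℕ, ∃ (N : ℤ) (F : ∀ q, KZ (m + 1) q → S.Γ q), N ≠ 0 ∧
      (∀ q, q ≤ m + 1 + D → (KTw S (m + 1)).Cmp F q) ∧
      (∀ q, q ≤ m → ∀ z, F q z = 1) ∧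
      (∀ z : KZ (m + 1) (m + 1), F (m + 1) z = α ^ (N * kid z)) := by
    intro D
    induction D with
    | zero =>
      let F0 : ∀ q, KZ (m + 1) q → S.Γ q :=
        Function.update (fun q _ => (1 : S.Γ q)) (m + 1) (fun z => α ^ (kid z))
      have hF1 : F0 (m + 1) = fun z => α ^ (kid z) := by simp [F0]
      have hF0 : ∀ q, q ≠ m + 1 → F0 q = fun _ => 1 := fun q hq => by
        simp [F0, Function.update_of_ne hq]
      have hc : ∀ q, q ≤ m → (KTw S (m + 1)).Cmp F0 q := by
        intro q hq
        rw [KTw_cmp]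
        intro σ i
        rw [hF0 q (by omega)]
        by_cases h : q + 1 = m + 1
        · have : q = m := by omega
          subst this
          rw [hF1]
          simp only [map_zpow]
          rw [(S.mem_N q α).1 hα i, one_zpow]
        · rw [hF0 (q + 1) h]
          simp
      obtain ⟨F', h1, h2, h3, _⟩ := (KTw S (m + 1)).ob_step (x := F0) (q := m) hc
        (fun n => ∅) (by intro n i σ h; exact h.elim) (by intro σ h; exact h.elim)
        (fun _ => 0) (by intro σ h; exact h.elim) (by
          intro σ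
          have hz : dlt (KTw S (m + 1)).fc (m + 1) (fun _ => (0 : Additive (S.Pg m))) σ = 0 := by
            simp [dlt]
          rw [hz, add_zero]
          unfold Tw.ob
          rw [KTw_tup, hF1]
          have := S.clp_sph (q := m) (fun i =>
            ⟨α ^ (kid (kface (m + 1) (m + 1) i σ)), (S.N m).zpow_mem hα _⟩)
          simp only at this
          rw [this]
          have e : ∀ i : Fin (m + 3), S.ac (q := m) ⟨α ^ (kid (kface (m + 1) (m + 1) i σ)),
              (S.N m).zpow_mem hα _⟩ = (kid (kface (m + 1) (m + 1) i σ)) • S.ac ⟨α, hα⟩ := by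
            intro i
            have : (⟨α ^ (kid (kface (m + 1) (m + 1) i σ)), (S.N m).zpow_mem hα _⟩ : S.N m) =
              (⟨α, hα⟩ : S.N m) ^ (kid (kface (m + 1) (m + 1) i σ)) := rfl
            rw [this]
            unfold SymGrp.ac
            rw [map_zpow, ofMul_zpow]
          simp only [e, smul_smul]
          rw [← Finset.sum_smul]
          have h0 := σ.2 id
          have : ∑ i : Fin (m + 3), (-1 : ℤ) ^ (i : ℕ) * kid (kface (m + 1) (m + 1) i σ) = 0 := h0
          rw [this, zero_smul])
      refine ⟨1, F', one_ne_zero, ?_, ?_, ?_⟩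
      · intro q hq
        exact h1 q (by omega)
      · intro q hq z
        rw [h2 q hq, hF0 q (by omega)]
      · intro z
        rw [h3 z rfl, hF1]
        simp
    | succ D ih =>
      obtain ⟨N, F, hN, hc, hF0, hF1⟩ := ih
      obtain ⟨T, hT, η, hη⟩ := W2 (Additive (S.Pg (m + 1 + D))) (m + 1) (m + 1 + D + 1) (by omega)
        (by omega) ((KTw S (m + 1)).ob F (m + 1 + D)) (fun x => (KTw S (m + 1)).ob_coc
          (hc (m + 1 + D) le_rfl) x)
      obtain ⟨F', h1, h2, _, _⟩ := (KTw S (m + 1)).ob_step (x := lp S F T) (q := m + 1 + D)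
        (fun q hq => lp_cmp S F T q (hc q hq))
        (fun n => ∅) (by intro n i σ h; exact h.elim) (by intro σ h; exact h.elim)
        (fun z => - η z) (by intro σ h; exact h.elim) (by
          intro σ
          rw [ob_lp S F T _ (hc _ le_rfl), hη]
          unfold dlt
          simp only [smul_neg, Finset.sum_neg_distrib]
          exact add_neg_cancel _)
      refine ⟨N * T.eval 2, F', mul_ne_zero hN hT, ?_, ?_, ?_⟩
      · intro q hq
        exact h1 q (by omega)
      · intro q hq z
        rw [h2 q (by omega)]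
        unfold lp
        simp [hF0 q hq]
      · intro z
        rw [h2 (m + 1) (by omega)]
        unfold lp
        simp only [hF1]
        have : ∀ k : ℕ, (α ^ (N * kid ((2 : ℤ) ^ k • z))) ^ T.coeff k =
            α ^ (N * kid z * (T.coeff k * 2 ^ k)) := by
          intro k
          rw [← zpow_mul]
          congr 1
          have : kid ((2 : ℤ) ^ k • z) = 2 ^ k * kid z := by
            simp [kid]
          rw [this]
          ring
        simp only [this]
        rw [list_prod_zpow, list_sum_range, ← Finset.mul_sum, Polynomial.eval_eq_sum_range]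
        congr 1
        ring
  obtain ⟨N, F, hN, hc, hF0, hF1⟩ := key D
  refine ⟨N, F, hN, ?_, hF0, hF1⟩
  intro q hq
  exact (KTw_cmp S (m + 1) F q).1 (hc q (by omega))

end Pool.Agent.H904R2
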