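import Pool.Agent.H904R2.EM4

/-! The weight operators on polynomial functions, and additive cocycles. -/

set_option autoImplicit false

namespace Pool.Agent.H904R2

namespace EM

universe u v w

section Lam

variable {M : Type v} [AddCommGroup M] {B B' : Type} [AddCommGroup B] [AddCommGroup B']

/-- multiplication by two -/
def dbl (B : Type) [AddCommGroup B] : B →+ B := (2 : ℤ) • AddMonoidHom.id B

theorem dbl_apply (x : B) : dbl B x = (2 : ℤ) • x := rfl

variable (M B) in
/-- the operator `f ↦ f (2 x)` -/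
def lam : (B → M) →ₗ[ℤ] (B → M) := (aff (dbl B) 0).toIntLinearMap

theorem lam_apply (f : B → M) (x : B) : lam M B f x = f ((2 : ℤ) • x) := by
  change f (dbl B x + 0) = _
  rw [add_zero, dbl_apply]

theorem lam_Dg (Q : ℕ) (f : B → M) (hf : f ∈ Dg M B Q) : lam M B f ∈ Dg M B Q :=
  Dg_aff _ _ _ _ hf

theorem dif_lam (a : B) (f : B → M) : dif a (lam M B f) =
    lam M B ((2 : ℤ) • dif a f + dif a (dif a f)) := by
  funext x
  rw [dif_apply, lam_apply, lam_apply, lam_apply]
  simp only [Pi.add_apply, Pi.smul_apply, dif_apply]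
  have h1 : (2 : ℤ) • (x + a) = (2 : ℤ) • x + a + a := by
    rw [smul_add, two_smul ℤ a]; abel
  rw [h1, two_smul]
  abel

theorem lam_sub (Q : ℕ) (f : B → M) (hf : f ∈ Dg M B (Q + 1)) :
    lam M B f - ((2 : ℤ) ^ Q) • f ∈ Dg M B Q := by
  induction Q generalizing f with
  | zero =>
    rw [mem_Dg_zero]
    rw [mem_Dg_succ] at hf
    funext x
    have h := congrFun (mem_Dg_zero.mp (hf x)) x
    rw [dif_apply, Pi.zero_apply] at h
    rw [Pi.sub_apply, lam_apply, pow_zero, one_smul, two_smul, Pi.zero_apply, h]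
  | succ Q ih =>
    rw [mem_Dg_succ] at hf ⊢
    intro a
    have h1 := ih (dif a f) (hf a)
    have h2 : dif a (lam M B f - ((2 : ℤ) ^ (Q + 1)) • f) =
        (2 : ℤ) • (lam M B (dif a f) - ((2 : ℤ) ^ Q) • dif a f) + lam M B (dif a (dif a f)) := by
      rw [map_sub, map_zsmul, dif_lam, map_add, map_smul, smul_sub, smul_smul, pow_succ']
      abel
    rw [h2]
    exact AddSubgroup.add_mem _ (AddSubgroup.zsmul_mem _ h1 _)
      (lam_Dg _ _ (mem_Dg_succ.mp (hf a) a))

theorem exists_T2 (Q : ℕ) : ∃ T : Polynomial ℤ, T.eval 2 ≠ 0 ∧ ∀ f : B → M, f ∈ Dg M B Q →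
    Polynomial.aeval (lam M B) T f ∈ Dg M B 2 := by
  rcases Nat.lt_or_ge Q 2 with hQ | hQ
  · refine ⟨1, by simp, fun f hf => ?_⟩
    rw [map_one]
    exact Dg_mono hQ.le hf
  · induction Q, hQ using Nat.le_induction with
    | base =>
      refine ⟨1, by simp, fun f hf => ?_⟩
      rw [map_one]
      exact hf
    | succ Q hQ ih =>
      obtain ⟨T, hT, h⟩ := ih
      refine ⟨T * (Polynomial.X - Polynomial.C ((2 : ℤ) ^ Q)), ?_, fun f hf => ?_⟩
      · rw [Polynomial.eval_mul, Polynomial.eval_sub, Polynomial.eval_X, Polynomial.eval_C]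
        refine mul_ne_zero hT ?_
        have h4 : (2 : ℤ) ^ 2 ≤ 2 ^ Q := pow_le_pow_right₀ (by norm_num) hQ
        intro h0
        have : (2 : ℤ) ^ Q = 2 := by linarith
        rw [this] at h4
        norm_num at h4
      · rw [map_mul, Module.End.mul_apply]
        apply h
        have h5 := lam_sub Q f hf
        rw [map_sub, Polynomial.aeval_X, Polynomial.aeval_C]
        exact h5

/-- the operator attached to a polynomial -/
def op (T : Polynomial ℤ) (f : B → M) : B → M := fun x =>
  ∑ k ∈ Finset.range (T.natDegree + 1), T.coeff k • f ((2 : ℤ) ^ k • x)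

theorem lam_pow (k : ℕ) (f : B → M) (x : B) : (lam M B ^ k) f x = f ((2 : ℤ) ^ k • x) := by
  induction k generalizing x with
  | zero => simp
  | succ k ih =>
    rw [pow_succ', Module.End.mul_apply, lam_apply, ih, smul_smul]
    congr 2

theorem op_eq (T : Polynomial ℤ) (f : B → M) : op T f = Polynomial.aeval (lam M B) T f := by
  funext x
  rw [Polynomial.aeval_eq_sum_range, LinearMap.sum_apply, Finset.sum_apply]
  apply Finset.sum_congr rfl
  intro k _
  rw [LinearMap.smul_apply, Pi.smul_apply, lam_pow]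

theorem op_add (T : Polynomial ℤ) (f g : B → M) : op T (f + g) = op T f + op T g := by
  rw [op_eq, map_add, ← op_eq, ← op_eq]

theorem op_zero (T : Polynomial ℤ) : op T (0 : B → M) = 0 := by
  rw [op_eq, map_zero]

theorem exists_T (f : B → M) (hf : f ∈ Pol M B) : ∃ T : Polynomial ℤ, T.eval 2 ≠ 0 ∧
    ∃ h : B →+ M, ∀ x, op T f x = h x := by
  obtain ⟨Q, hQ⟩ := hf
  obtain ⟨T, hT, h⟩ := exists_T2 (M := M) (B := B) Q
  have hg := h f hQ
  set g := Polynomial.aeval (lam M B) T f with hgdef
  rw [mem_Dg_succ] at hg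
  have hg2 : ∀ x a : B, g (x + a) - g x = g a - g 0 := by
    intro x a
    have h1 := hg a
    rw [mem_Dg_succ] at h1
    have h2 := congrFun (mem_Dg_zero.mp (h1 x)) 0
    rw [dif_apply, dif_apply, dif_apply, Pi.zero_apply, zero_add, zero_add] at h2
    exact sub_eq_zero.mp h2
  refine ⟨(Polynomial.X - 1) * T, ?_, ?_⟩
  · rw [Polynomial.eval_mul, Polynomial.eval_sub, Polynomial.eval_X, Polynomial.eval_one]
    exact mul_ne_zero (by norm_num) hT
  · refine ⟨{ toFun := fun x => g x - g 0, map_zero' := sub_self _, map_add' := ?_ }, ?_⟩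
    · intro x y
      have := hg2 x y
      have h3 : g (x + y) = g x + (g y - g 0) := by rw [← this]; abel
      rw [h3]
      abel
    · intro x
      rw [op_eq, map_mul, Module.End.mul_apply, ← hgdef, map_sub, map_one, Polynomial.aeval_X]
      change (lam M B g - g) x = g x - g 0
      rw [Pi.sub_apply, lam_apply, two_smul]
      exact hg2 x x

end Lam

/-! ### additive cocycles -/

section Hom

variable (M : Type v) [AddCommGroup M]

/-- precomposition -/
def preH {B B' : Type} [AddCommGroup B] [AddCommGroup B'] (φ : B →+ B') : (B' →+ M) →+ (B →+ M) where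
  toFun h := h.comp φ
  map_zero' := rfl
  map_add' _ _ := rfl

theorem preH_apply {B B' : Type} [AddCommGroup B] [AddCommGroup B'] (φ : B →+ B') (h : B' →+ M)
    (x : B) : preH M φ h x = h (φ x) := rfl

theorem hom_C (m : ℕ) : Ex (C := fun q => ((Fin m → Fin q) → ℤ) →+ M)
    (ds (fun _q i => preH M (pC (Fin.succAbove i)))) := by
  refine ex_of_extra _ (fun q => preH M (ex0 m q)) ?_ ?_
  · intro q x
    apply AddMonoidHom.ext
    intro c
    rw [preH_apply, preH_apply, ex0_face0]
  · intro q i x
    apply AddMonoidHom.ext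
    intro c
    rw [preH_apply, preH_apply, preH_apply, preH_apply, ex0_face_succ]

theorem hom_Z (m : ℕ) : ∀ q, m ≤ q → ∀ x : Zc m (Fin (q + 1)) ℤ →+ M,
    ds (C := fun q => Zc m (Fin q) ℤ →+ M) (fun _q i => preH M (pZ (Fin.succAbove i))) (q + 1) x = 0 →
    ∃ y, ds (C := fun q => Zc m (Fin q) ℤ →+ M)
      (fun _q i => preH M (pZ (Fin.succAbove i))) q y = x := by
  induction m with
  | zero =>
    intro q _ x _
    refine ⟨0, ?_⟩
    rw [map_zero]
    apply AddMonoidHom.ext
    intro z
    have hz : z = 0 := by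
      apply Subtype.ext
      funext v
      have h := congrFun (mem_Zc.mp z.2) (fun _ => 0)
      rw [cdf_apply] at h
      simp only [Nat.reduceAdd, Fin.sum_univ_one, Fin.val_zero, pow_zero, one_smul] at h
      have hv : v = (fun _ => 0) ∘ Fin.succAbove (0 : Fin 1) := Subsingleton.elim _ _
      rw [hv]
      exact h
    rw [hz, map_zero, map_zero]
  | succ m ih =>
    intro q hq x hx
    obtain ⟨q, rfl⟩ : ∃ q', q = q' + 1 := ⟨q - 1, by omega⟩
    have key := ex_shift (A := fun q => Zc (m + 1) (Fin q) ℤ →+ M)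
      (B := fun q => ((Fin m → Fin q) → ℤ) →+ M) (C := fun q => Zc m (Fin q) ℤ →+ M)
      (ds (fun _q i => preH M (pZ (Fin.succAbove i))))
      (ds (fun _q i => preH M (pC (Fin.succAbove i))))
      (ds (fun _q i => preH M (pZ (Fin.succAbove i)))) ?_
      (fun q => preH M (cdZ m)) (fun q => preH M (Zc m (Fin q) ℤ).subtype)
      ?_ ?_ ?_ ?_ ?_ ?_ (hom_C M m)
    · exact key.2.2.2 q (ih q (by omega)) x hx
    · intro q x
      apply ds_ds
      intro q i j hij x
      apply AddMonoidHom.ext
      intro c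
      rw [preH_apply, preH_apply, preH_apply, preH_apply]
      congr 1
      funext v
      refine congrArg c (funext fun l => ?_)
      simp only [Function.comp_apply]
      rw [succAbove_comm i j hij]
    · intro q x
      apply map_ds (C := fun q => Zc (m + 1) (Fin q) ℤ →+ M)
        (D := fun q => ((Fin m → Fin q) → ℤ) →+ M) (f := fun q => preH M (cdZ m))
      intro q j x
      rfl
    · intro q x
      apply map_ds (D := fun q => Zc m (Fin q) ℤ →+ M)
        (C := fun q => ((Fin m → Fin q) → ℤ) →+ M)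
        (f := fun q => preH M (Zc m (Fin q) ℤ).subtype)
      intro q j x
      rfl
    · intro q x y hxy
      obtain ⟨s, hs⟩ := exists_sec m q ℤ
      apply AddMonoidHom.ext
      intro z
      have h1 := DFunLike.congr_fun hxy (s z)
      rw [preH_apply, preH_apply] at h1
      have h2 : cdZ m (s z) = z := Subtype.ext (hs z)
      rw [h2] at h1
      exact h1
    · intro q φ
      obtain ⟨s, hs⟩ := exists_sec m q ℤ
      have hr : ∀ c : (Fin m → Fin q) → ℤ, c - s (cdZ m c) ∈ Zc m (Fin q) ℤ := by
        intro c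
        rw [mem_Zc, map_sub, hs, sub_eq_zero]
        rfl
      refine ⟨{ toFun := fun c => φ ⟨c - s (cdZ m c), hr c⟩, map_zero' := ?_, map_add' := ?_ }, ?_⟩
      · have : (⟨0 - s (cdZ m 0), hr 0⟩ : Zc m (Fin q) ℤ) = 0 := by
          apply Subtype.ext
          change 0 - s (cdZ m 0) = 0
          rw [map_zero, map_zero, sub_zero]
        rw [this, map_zero]
      · intro a b
        rw [← map_add]
        congr 1
        apply Subtype.ext
        change (a + b) - s (cdZ m (a + b)) = (a - s (cdZ m a)) + (b - s (cdZ m b))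
        rw [map_add, map_add]
        abel
      · apply AddMonoidHom.ext
        intro z
        change φ ⟨z.1 - s (cdZ m z.1), hr z.1⟩ = φ z
        congr 1
        apply Subtype.ext
        change z.1 - s (cdZ m z.1) = z.1
        have : cdZ m z.1 = 0 := Subtype.ext (mem_Zc.mp z.2)
        rw [this, map_zero, sub_zero]
    · intro q x
      apply AddMonoidHom.ext
      intro z
      change x (cdZ m z.1) = 0
      have : cdZ m z.1 = 0 := Subtype.ext (mem_Zc.mp z.2)
      rw [this, map_zero]
    · intro q h hh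
      obtain ⟨s, hs⟩ := exists_sec m q ℤ
      refine ⟨h.comp s, ?_⟩
      apply AddMonoidHom.ext
      intro c
      change h (s (cdZ m c)) = h c
      have hr : c - s (cdZ m c) ∈ Zc m (Fin q) ℤ := by
        rw [mem_Zc, map_sub, hs, sub_eq_zero]
        rfl
      have h1 := DFunLike.congr_fun hh ⟨c - s (cdZ m c), hr⟩
      change h (c - s (cdZ m c)) = 0 at h1
      rw [map_sub, sub_eq_zero] at h1
      exact h1.symm

end Hom

end EM

end Pool.Agent.H904R2
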