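import Pool.Agent.H904R2.Base
import Pool.Agent.H904R2.EM5

/-! Task T1: the torsion/weight theorem for the cohomology of `K(ℤ,n)`. -/

set_option autoImplicit false

namespace Pool.Agent.H904R2

universe u v w

/-- `n`-cocycles on the full simplex with vertices `0..q` (all `(n+1)`-tuples of vertices) -/
def KZ (n q : ℕ) : AddSubgroup ((Fin (n + 1) → Fin (q + 1)) → ℤ) where
  carrier := {z | ∀ v : Fin (n + 2) → Fin (q + 1),
    ∑ i : Fin (n + 2), (-1 : ℤ) ^ (i : ℕ) * z (v ∘ i.succAbove) = 0}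
  add_mem' := by
    intro a b ha hb v
    simp only [Pi.add_apply, mul_add, Finset.sum_add_distrib, ha v, hb v, add_zero]
  zero_mem' := by intro v; simp
  neg_mem' := by
    intro a ha v
    simp only [Pi.neg_apply, mul_neg, Finset.sum_neg_distrib, ha v, neg_zero]

/-- restriction to the `i`-th face -/
def kface (n q : ℕ) (i : Fin (q + 2)) (z : KZ n (q + 1)) : KZ n q :=
  ⟨fun v => z.1 (i.succAbove ∘ v), fun v => z.2 (i.succAbove ∘ v)⟩

namespace EM

theorem mem_KZ {n q : ℕ} {z : (Fin (n + 1) → Fin (q + 1)) → ℤ} :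
    z ∈ KZ n q ↔ z ∈ Zc (n + 1) (Fin (q + 1)) ℤ := by
  rw [mem_Zc]
  constructor
  · intro h
    funext v
    rw [cdf_apply]
    simp only [smul_eq_mul]
    exact h v
  · intro h v
    have h1 := congrFun h v
    rw [cdf_apply] at h1
    simp only [smul_eq_mul] at h1
    exact h1

/-- comparison -/
def toKZ {n q : ℕ} (z : Zc (n + 1) (Fin (q + 1)) ℤ) : KZ n q := ⟨z.1, mem_KZ.mpr z.2⟩

/-- comparison -/
def ofKZ {n q : ℕ} (z : KZ n q) : Zc (n + 1) (Fin (q + 1)) ℤ := ⟨z.1, mem_KZ.mp z.2⟩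

end EM

open EM in
theorem W2 (M : Type v) [AddCommGroup M] (n j : ℕ) (hn : 1 ≤ n) (hj : n ≤ j)
    (θ : KZ n (j + 1) → M)
    (hθ : ∀ x, dlt (S := fun q => KZ n q) (kface n) (j + 1) θ x = 0) :
    ∃ T : Polynomial ℤ, T.eval 2 ≠ 0 ∧ ∃ η : KZ n j → M, ∀ x : KZ n (j + 1),
      (∑ k ∈ Finset.range (T.natDegree + 1), T.coeff k • θ ((2 : ℤ) ^ k • x)) =
        dlt (S := fun q => KZ n q) (kface n) j η x := by
  -- function level complex
  let F : ℕ → Type v := fun q => Zc (n + 1) (Fin q) ℤ → M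
  let dF : ∀ q, Fin (q + 1) → (F q →+ F (q + 1)) := fun q i => aff (pZ (Fin.succAbove i)) 0
  have hFF : ∀ q (x : F q), ds dF (q + 1) (ds dF q x) = 0 := by
    intro q x
    apply ds_ds
    intro q i j hij x
    funext z
    change x _ = x _
    simp only [add_zero]
    congr 1
    apply Subtype.ext
    funext v
    refine congrArg z.1 (funext fun l => ?_)
    simp only [Function.comp_apply]
    rw [succAbove_comm i j hij]
  have hFapp : ∀ q (x : F q) (z : Zc (n + 1) (Fin (q + 1)) ℤ), ds dF q x z =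
      ∑ i : Fin (q + 1), ((-1 : ℤ) ^ (i : ℕ)) • x (pZ (Fin.succAbove i) z) := by
    intro q x z
    rw [ds_apply, Finset.sum_apply]
    apply Finset.sum_congr rfl
    intro i _
    rw [Pi.smul_apply]
    congr 1
    change x (pZ (Fin.succAbove i) z + 0) = _
    rw [add_zero]
  -- the cocycle
  let f0 : F (j + 2) := fun z => θ (toKZ z)
  have hf0 : ds dF (j + 2) f0 = 0 := by
    funext z
    rw [hFapp]
    exact hθ (toKZ z)
  have hP := Pex_all M (n + 1) (by omega) ℤ
  have hmk : ∀ q (x : F q), QuotientAddGroup.mk' (Pol M (Zc (n + 1) (Fin (q + 1)) ℤ)) (ds dF q x) =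
      ds (C := fun q => R M (Zc (n + 1) (Fin q) ℤ)) (fun q i => Rm (pZ (Fin.succAbove i))) q
        (QuotientAddGroup.mk' _ x) := by
    intro q x
    apply map_ds (C := F) (D := fun q => R M (Zc (n + 1) (Fin q) ℤ))
      (f := fun q => QuotientAddGroup.mk' (Pol M (Zc (n + 1) (Fin q) ℤ)))
    intro q i x
    rfl
  obtain ⟨y, hy⟩ := hP.2 (j + 1) (QuotientAddGroup.mk' _ f0) (by
    rw [← hmk, hf0, map_zero])
  obtain ⟨η0, rfl⟩ := QuotientAddGroup.mk'_surjective _ y
  rw [← hmk, ← sub_eq_zero, ← map_sub, QuotientAddGroup.mk'_apply,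
    QuotientAddGroup.eq_zero_iff] at hy
  set p : F (j + 2) := f0 - ds dF (j + 1) η0 with hp
  have hpP : p ∈ Pol M (Zc (n + 1) (Fin (j + 2)) ℤ) := by
    have := AddSubgroup.neg_mem _ hy
    rw [neg_sub] at this
    exact this
  have hdp : ds dF (j + 2) p = 0 := by
    rw [hp, map_sub, hf0, hFF, sub_zero]
  obtain ⟨T, hT, h, hh⟩ := exists_T p hpP
  -- `op T` commutes with the coboundary
  have hop : ∀ q (x : F q), op T (ds dF q x) = ds dF q (op T x) := by
    intro q x
    funext z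
    simp only [op, hFapp, map_zsmul, Finset.smul_sum]
    rw [Finset.sum_comm]
    apply Finset.sum_congr rfl
    intro i _
    apply Finset.sum_congr rfl
    intro k _
    rw [smul_comm]
  -- the additive cocycle
  have hdh : ds (C := fun q => Zc (n + 1) (Fin q) ℤ →+ M)
      (fun q i => preH M (pZ (Fin.succAbove i))) (j + 2) h = 0 := by
    apply AddMonoidHom.ext
    intro z
    rw [ds_apply]
    have h1 : (∑ i : Fin (j + 3), ((-1 : ℤ) ^ (i : ℕ)) • preH M (pZ (Fin.succAbove i)) h) z =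
        ∑ i : Fin (j + 3), ((-1 : ℤ) ^ (i : ℕ)) • h (pZ (Fin.succAbove i) z) := by
      simp [preH_apply]
    refine h1.trans ?_
    have h2 := congrFun (hop (j + 2) p) z
    rw [hdp, op_zero, Pi.zero_apply, hFapp] at h2
    simp only [hh] at h2
    exact h2.symm
  obtain ⟨g, hg⟩ := hom_Z M (n + 1) (j + 1) (by omega) h hdh
  refine ⟨T, hT, fun z => g (ofKZ z) + op T η0 (ofKZ z), ?_⟩
  intro x
  have hL : (∑ k ∈ Finset.range (T.natDegree + 1), T.coeff k • θ ((2 : ℤ) ^ k • x)) =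
      op T f0 (ofKZ x) := rfl
  have hf : f0 = p + ds dF (j + 1) η0 := by rw [hp]; abel
  rw [hL, hf, op_add, Pi.add_apply, hh, hop, hFapp, ← hg, ds_apply]
  have h1 : (∑ i : Fin (j + 2), ((-1 : ℤ) ^ (i : ℕ)) • preH M (pZ (Fin.succAbove i)) g) (ofKZ x) =
        ∑ i : Fin (j + 2), ((-1 : ℤ) ^ (i : ℕ)) • g (pZ (Fin.succAbove i) (ofKZ x)) := by
      simp [preH_apply]
  rw [h1, ← Finset.sum_add_distrib]
  rw [dlt]
  apply Finset.sum_congr rfl
  intro i _
  rw [smul_add]
  rfl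

end Pool.Agent.H904R2
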