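import Pool.Agent.H904R2.Base

/-! The bundle of `k`-frames of a complex vector bundle: space, projection, fibres. -/

set_option autoImplicit false

namespace Pool.Agent.H904R2

section Bundles

open Bundle

/-- `k`-frames (linearly independent `k`-tuples of vectors in one fibre) of a vector bundle `E` of
rank `r` -/
def FrE {X : Type} (_r : ℕ) (E : X → Type) [∀ x, AddCommGroup (E x)] [∀ x, Module ℂ (E x)]
    (k : ℕ) : Type :=
  {w : Σ x : X, (Fin k → E x) // LinearIndependent ℂ w.2}

variable {X : Type} [TopologicalSpace X] (r : ℕ) (E : X → Type)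
  [TopologicalSpace (TotalSpace (Fin r → ℂ) E)] [∀ x, AddCommGroup (E x)] [∀ x, Module ℂ (E x)]

/-- topology of the space of frames: induced by the inclusion into `k`-tuples of points of the
total space -/
instance (k : ℕ) : TopologicalSpace (FrE r E k) :=
  TopologicalSpace.induced
    (fun w (j : Fin k) => (⟨w.1.1, w.1.2 j⟩ : TotalSpace (Fin r → ℂ) E)) inferInstance

variable [∀ x, TopologicalSpace (E x)] [FiberBundle (Fin r → ℂ) E]

/-- projection of the bundle of `(k+1)`-frames -/
def prE (k : ℕ) : C(FrE r E (k + 1), X) where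
  toFun w := w.1.1
  continuous_toFun := by
    have h1 : Continuous (fun (w : FrE r E (k + 1)) (j : Fin (k + 1)) =>
        (⟨w.1.1, w.1.2 j⟩ : TotalSpace (Fin r → ℂ) E)) := continuous_induced_dom
    exact (FiberBundle.continuous_proj (Fin r → ℂ) E).comp ((continuous_apply 0).comp h1)

/-- the inclusion of the fibre over `x`, through a linear isomorphism `φ : ℂ^r ≃ E x` -/
noncomputable def fibE (k : ℕ) (x : X) (φ : (Fin r → ℂ) ≃L[ℂ] E x) :
    C(St (k + 1) r, FrE r E (k + 1)) where
  toFun w := ⟨⟨x, fun j => φ (w.1 j)⟩, w.2.map' φ.toLinearEquiv.toLinearMap φ.toLinearEquiv.ker⟩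
  continuous_toFun := continuous_induced_rng.2 (continuous_pi fun j =>
    (FiberBundle.continuous_totalSpaceMk (Fin r → ℂ) E x).comp
      (φ.continuous.comp ((continuous_apply j).comp continuous_subtype_val)))

end Bundles

end Pool.Agent.H904R2
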