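import Pool.Agent.H904R2.PF
import Pool.Agent.H904R2.FrBundle
import Pool.Agent.H904R2.EM
import Pool.Agent.H904R2.E

/-! Definitions: action on Stiefel manifolds, frames in the image of an idempotent-valued map. -/

set_option autoImplicit false

namespace Pool.Agent.H904R2

open Pool.Agent.Helper922.HB.Sc (Sing sface altd bd sbd)

/-- a matrix with a left inverse preserves linear independence -/
theorem li_mulVec {m n k : Type} [Fintype m] [Fintype n] [DecidableEq n] (A : Matrix m n ℂ)
    (B : Matrix n m ℂ) (h : B * A = 1) (w : k → n → ℂ) (hw : LinearIndependent ℂ w) :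
    LinearIndependent ℂ (fun j => A.mulVec (w j)) := by
  have h1 : LinearMap.ker (Matrix.mulVecLin A) = ⊥ := by
    rw [LinearMap.ker_eq_bot']
    intro v hv
    have h2 : A.mulVec v = 0 := hv
    have h3 : B.mulVec (A.mulVec v) = 0 := by
      rw [h2, Matrix.mulVec_zero]
    rwa [Matrix.mulVec_mulVec, h, Matrix.one_mulVec] at h3
  exact hw.map' (Matrix.mulVecLin A) h1

/-- action of `GL_r(ℂ)` on frames -/
noncomputable def actSt (k r : ℕ) : C(GLr r × St k r, St k r) where
  toFun x := ⟨fun j => (x.1 : Matrix (Fin r) (Fin r) ℂ).mulVec (x.2.1 j),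
    li_mulVec (x.1 : Matrix (Fin r) (Fin r) ℂ) ((x.1⁻¹ : GLr r) : Matrix (Fin r) (Fin r) ℂ) (by
      rw [← Units.val_mul, inv_mul_cancel, Units.val_one]) x.2.1 x.2.2⟩
  continuous_toFun := by
    apply Continuous.subtype_mk
    refine continuous_pi fun j => ?_
    exact (Units.continuous_val.comp continuous_fst).matrix_mulVec
      ((continuous_apply j).comp (continuous_subtype_val.comp continuous_snd))

theorem actSt_val (k r : ℕ) (g : GLr r) (w : St k r) (j : Fin k) :
    (actSt k r (g, w)).1 j = (g : Matrix (Fin r) (Fin r) ℂ).mulVec (w.1 j) := rfl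

theorem actSt_one (k r : ℕ) (w : St k r) : actSt k r (1, w) = w := by
  apply Subtype.ext
  funext j
  rw [actSt_val, Units.val_one, Matrix.one_mulVec]

theorem actSt_mul (k r : ℕ) (g h : GLr r) (w : St k r) :
    actSt k r (g * h, w) = actSt k r (g, actSt k r (h, w)) := by
  apply Subtype.ext
  funext j
  rw [actSt_val, actSt_val, actSt_val, Units.val_mul, Matrix.mulVec_mulVec]

/-- the base frame `(e_i, e_{i+1}, …, e_{r-1})`, `r = i + 1 + k` -/
noncomputable def w0 (i k r : ℕ) (hr : i + 1 + k = r) : St (k + 1) r :=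
  ⟨fun j => Pi.single ⟨i + j, by omega⟩ 1, by
    rw [Fintype.linearIndependent_iff]
    intro g hg j
    have h1 := congrFun hg ⟨i + j, by omega⟩
    simp only [Finset.sum_apply, Pi.smul_apply, smul_eq_mul, Pi.zero_apply] at h1
    rw [Finset.sum_eq_single j] at h1
    · simpa using h1
    · intro b _ hb
      rw [Pi.single_eq_of_ne, mul_zero]
      intro he
      have := congrArg Fin.val he
      simp at this
      exact hb (Fin.ext (by omega))
    · simp⟩

/-- the cochain `g ↦ ι(g w₀)` -/
noncomputable def uu (i k r : ℕ) (hr : i + 1 + k = r) {q : ℕ} (ι : Sing (St (k + 1) r) q → ℤ)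
    (g : Sing (GLr r) q) : ℤ :=
  ι ((actSt (k + 1) r).comp (g.prodMk (ContinuousMap.const _ (w0 i k r hr))))

section WF

variable {X : Type} [TopologicalSpace X] {κ : Type} [Fintype κ] {r : ℕ}

/-- `k`-frames in the image of `f` -/
abbrev WF (k : ℕ) (f : C(X, Matrix κ κ ℂ)) : Type :=
  {w : X × (Fin k → κ → ℂ) // LinearIndependent ℂ w.2 ∧ ∀ j, (f w.1).mulVec (w.2 j) = w.2 j}

/-- the projection -/
def prW {k : ℕ} (f : C(X, Matrix κ κ ℂ)) : C(WF k f, X) :=
  ⟨fun w => w.1.1, continuous_fst.comp continuous_subtype_val⟩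

/-- the fibre over `x`, through a frame of the image of `f x` -/
noncomputable def fibW (f : C(X, Matrix κ κ ℂ)) (x : X) (p : PF κ r) (hp : p.P = f x) (k : ℕ) :
    C(St k r, WF k f) where
  toFun w := ⟨(x, fun j => p.1.1.mulVec (w.1 j)), li_mulVec p.1.1 p.1.2 p.2 w.1 w.2, by
    intro j
    change (f x).mulVec (p.1.1.mulVec (w.1 j)) = p.1.1.mulVec (w.1 j)
    rw [← hp, Matrix.mulVec_mulVec, p.P_mul_fst]⟩
  continuous_toFun := by
    apply Continuous.subtype_mk
    refine continuous_const.prodMk (continuous_pi fun j => ?_)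
    exact continuous_const.matrix_mulVec ((continuous_apply j).comp continuous_subtype_val)

end WF


end Pool.Agent.H904R2
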