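import Pool.Agent.H904R2.FrBundle

/-! Chern classes of a complex vector bundle, through the transgression in Stiefel bundles. -/

set_option autoImplicit false

namespace Pool.Agent.H904R2

open Pool.Agent.Helper922.HB.Sc (Sing sface altd bd sbd cocycles coboundaries SingularCohomology)

open Bundle

/-- `IsChern r E i k hr c`: the class `c ∈ H^{2(i+1)}(X; ℤ)` is the Chern class `c_{i+1}(E)` of the
complex vector bundle `E → X` of rank `r = i + 1 + k`.

This is the definition of Chern classes as primary obstructions, in transgression form. Let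
`p : V → X` be the bundle of `(k+1)`-frames of `E`, `k + 1 = r - (i+1) + 1`; its fibre, the Stiefel
manifold of `(k+1)`-frames in `ℂ^r`, is `2i`-connected, and its homology in degree `2i+1` is
infinite cyclic, generated by the sphere `v ↦ (v, e_{i+1}, …, e_{r-1})`, `v ∈ ℂ^{i+1} ∖ 0`.
Then `c` is the Chern class if the generator of the cohomology of the fibre in degree `2i+1`
transgresses to `-c`: there are a cocycle `z` representing `c`, zero on constant simplices, and a
cochain `κ` of degree `2i+1` on `V` with `δκ = - p^* z`, taking the value `1` on the fundamental cycle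
of the sphere `v ↦ (φ v, φ e_{i+1}, …, φ e_{r-1})` in the fibre over `x`, for all `x : X` and all
linear isomorphisms `φ : ℂ^r ≃ E x`. For `i + 1 = r` (`V` is the complement of the zero section) this
says that `c` is the Euler class of `E` with its complex orientation: if `u` is a Thom cocycle,
`z` its restriction to the zero section and `u - π^* z = δβ`, take for `κ` the restriction of `β`. -/
def IsChern {X : Type} [TopologicalSpace X] (r : ℕ) (E : X → Type)
    [TopologicalSpace (TotalSpace (Fin r → ℂ) E)] [∀ x, AddCommGroup (E x)]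
    [∀ x, Module ℂ (E x)] [∀ x, TopologicalSpace (E x)] [FiberBundle (Fin r → ℂ) E]
    (i k : ℕ) (hr : i + 1 + k = r) (c : SingularCohomology ℤ X (2 * i + 2)) : Prop :=
  ∃ z : cocycles ℤ X (2 * i + 2), Submodule.Quotient.mk z = c ∧
    (∀ x : X, z.1 (ContinuousMap.const _ x) = 0) ∧
    ∃ κ : Sing (FrE r E (k + 1)) (2 * i + 1) → ℤ,
      (∀ τ : Sing (FrE r E (k + 1)) (2 * i + 2),
        altd ℤ (sface (X := FrE r E (k + 1))) (2 * i + 1) κ τ = - z.1 ((prE r E k).comp τ)) ∧
      ∀ (x : X) (φ : (Fin r → ℂ) ≃L[ℂ] E x),
        evm κ (psh ((fibE r E k x φ).comp (jC (i + 1) k r hr)) (2 * i + 1) (fund (2 * i + 1))) = 1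

end Pool.Agent.H904R2
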