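import Mathlib

/-! Abstract complexes (families of abelian groups), used for the torsion/weight theorem `W2`. -/

set_option autoImplicit false

namespace Pool.Agent.H904R2

namespace EM

universe u v w

/-! ### Abstract complexes -/

section Abs

/-- exactness of a complex `0 → C 0 → C 1 → …` -/
def Ex {C : ℕ → Type u} [∀ q, AddCommGroup (C q)] (δ : ∀ q, C q →+ C (q + 1)) : Prop :=
  (∀ x : C 0, δ 0 x = 0 → x = 0) ∧ ∀ q (x : C (q + 1)), δ (q + 1) x = 0 → ∃ y, δ q y = x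

/-- alternating sum of cofaces -/
def ds {C : ℕ → Type u} [∀ q, AddCommGroup (C q)] (d : ∀ q, Fin (q + 1) → (C q →+ C (q + 1)))
    (q : ℕ) : C q →+ C (q + 1) :=
  ∑ i : Fin (q + 1), ((-1 : ℤ) ^ (i : ℕ)) • d q i

theorem ds_apply {C : ℕ → Type u} [∀ q, AddCommGroup (C q)]
    (d : ∀ q, Fin (q + 1) → (C q →+ C (q + 1))) (q : ℕ) (x : C q) :
    ds d q x = ∑ i : Fin (q + 1), ((-1 : ℤ) ^ (i : ℕ)) • d q i x := by
  simp [ds]

theorem ex_of_extra {C : ℕ → Type u} [∀ q, AddCommGroup (C q)]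
    (d : ∀ q, Fin (q + 1) → (C q →+ C (q + 1))) (s : ∀ q, C (q + 1) →+ C q)
    (h0 : ∀ q x, s q (d q 0 x) = x)
    (h1 : ∀ q (i : Fin (q + 1)) x, s (q + 1) (d (q + 1) i.succ x) = d q i (s q x)) :
    Ex (ds d) := by
  constructor
  · intro x hx
    have h := h0 0 x
    rw [ds_apply] at hx
    simp only [Nat.reduceAdd, Fin.sum_univ_one, Fin.val_zero, pow_zero, one_smul] at hx
    rw [← h]
    change s 0 (d 0 0 x) = 0
    rw [show d 0 0 x = 0 from hx, map_zero]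
  · intro q x hx
    refine ⟨s q x, ?_⟩
    have h := congrArg (s (q + 1)) hx
    rw [map_zero, ds_apply, map_sum, Fin.sum_univ_succ] at h
    simp only [map_zsmul, map_neg, Fin.val_zero, pow_zero, one_smul, Fin.val_succ, pow_succ, mul_neg,
      mul_one, neg_smul, h1, h0, Finset.sum_neg_distrib] at h
    rw [ds_apply]
    exact (add_neg_eq_zero.mp h).symm

theorem alt_cancel {M : Type u} [AddCommGroup M] (n : ℕ) (F : Fin (n + 1) → Fin (n + 2) → M)
    (h : ∀ i j : Fin (n + 1), i ≤ j → F i j.succ = F j i.castSucc) :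
    ∑ j : Fin (n + 2), ∑ i : Fin (n + 1),
      ((-1 : ℤ) ^ (j : ℕ)) • ((-1 : ℤ) ^ (i : ℕ)) • F i j = 0 := by
  classical
  rw [← Finset.sum_product']
  let S : Finset (Fin (n + 2) × Fin (n + 1)) := Finset.univ.filter (fun ij => (ij.1 : ℕ) ≤ (ij.2 : ℕ))
  rw [Finset.univ_product_univ, ← Finset.sum_add_sum_compl S, ← eq_neg_iff_add_eq_zero,
    ← Finset.sum_neg_distrib]
  let φ : ∀ ij : Fin (n + 2) × Fin (n + 1), ij ∈ S → Fin (n + 2) × Fin (n + 1) := fun ij hij =>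
    (ij.2.succ, Fin.castLT ij.1 (lt_of_le_of_lt (Finset.mem_filter.mp hij).right (Fin.is_lt ij.2)))
  apply Finset.sum_bij φ
  · intro ij hij
    simp only [S, φ, Finset.mem_compl, Finset.mem_filter, Finset.mem_univ, true_and,
      Fin.val_succ, Fin.val_castLT] at hij ⊢
    omega
  · rintro ⟨i, j⟩ hij ⟨i', j'⟩ hij' h
    simp only [φ, Prod.mk.injEq, Fin.succ_inj] at h
    obtain ⟨h1, h2⟩ := h
    have h3 : (i : ℕ) = (i' : ℕ) := by
      have := congrArg (fun x : Fin (n + 1) => (x : ℕ)) h2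
      simpa using this
    rw [Prod.mk.injEq]
    exact ⟨Fin.ext h3, h1⟩
  · rintro ⟨i, j⟩ hij
    simp only [S, Finset.mem_compl, Finset.mem_filter, Finset.mem_univ, true_and, not_le] at hij
    have hi : 0 < (i : ℕ) := by omega
    have hi0 : i ≠ 0 := by
      intro h; rw [h] at hi; simp at hi
    refine ⟨(j.castSucc, i.pred hi0), ?_, ?_⟩
    · simp only [S, Finset.mem_filter, Finset.mem_univ, true_and, Fin.val_castSucc, Fin.val_pred]
      omega
    · simp only [φ, Prod.mk.injEq, Fin.succ_pred, true_and]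
      apply Fin.ext
      simp
  · rintro ⟨j, i⟩ hij
    simp only [S, Finset.mem_filter, Finset.mem_univ, true_and] at hij
    have h1 : (Fin.castLT j (lt_of_le_of_lt hij (Fin.is_lt i)) : Fin (n + 1)) ≤ i := by
      rw [Fin.le_def]; simpa using hij
    have h2 := h _ _ h1
    have h3 : (Fin.castLT j (lt_of_le_of_lt hij (Fin.is_lt i)) : Fin (n + 1)).castSucc = j := by
      apply Fin.ext; simp
    rw [h3] at h2
    simp only [φ, Fin.val_succ, Fin.val_castLT]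
    rw [h2, smul_smul, smul_smul, ← neg_smul]
    congr 1
    ring

theorem ds_ds {C : ℕ → Type u} [∀ q, AddCommGroup (C q)]
    (d : ∀ q, Fin (q + 1) → (C q →+ C (q + 1)))
    (h : ∀ q (i j : Fin (q + 1)), i ≤ j → ∀ x : C q,
      d (q + 1) j.succ (d q i x) = d (q + 1) i.castSucc (d q j x)) (q : ℕ) (x : C q) :
    ds d (q + 1) (ds d q x) = 0 := by
  rw [ds_apply]
  simp only [ds_apply, map_sum, map_zsmul, Finset.smul_sum]
  exact alt_cancel q (fun i j => d (q + 1) j (d q i x)) (fun i j hij => h q i j hij x)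

theorem succAbove_comm {n : ℕ} (i j : Fin (n + 1)) (h : i ≤ j) (x : Fin n) :
    (j.succ).succAbove (i.succAbove x) = (i.castSucc).succAbove (j.succAbove x) := by
  rw [Fin.le_def] at h
  apply Fin.ext
  simp only [Fin.succAbove, Fin.lt_def]
  split_ifs <;> simp_all <;> omega

/-- a column of a double complex with exact rows and exact other columns is exact -/
theorem ex_double {C : ℕ → ℕ → Type u} [∀ p q, AddCommGroup (C p q)]
    (dh : ∀ p q, C p q →+ C (p + 1) q) (dv : ∀ p q, C p q →+ C p (q + 1))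
    (hh : ∀ p q x, dh (p + 1) q (dh p q x) = 0) (vv : ∀ p q x, dv p (q + 1) (dv p q x) = 0)
    (comm : ∀ p q x, dv (p + 1) q (dh p q x) = dh p (q + 1) (dv p q x))
    (rows : ∀ q, Ex (C := fun p => C p q) (fun p => dh p q))
    (cols : ∀ p, Ex (C := fun q => C (p + 1) q) (fun q => dv (p + 1) q)) :
    Ex (C := fun q => C 0 q) (fun q => dv 0 q) := by
  have T0 : ∀ p (y : C (p + 1) 0), dv (p + 2) 0 (dh (p + 1) 0 y) = 0 → ∃ w, y = dh p 0 w := by
    intro p y hy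
    have h1 := (cols (p + 1)).1 _ hy
    obtain ⟨w, hw⟩ := (rows 0).2 p y h1
    exact ⟨w, hw.symm⟩
  have T : ∀ q p (y : C (p + 1) (q + 1)), dv (p + 2) (q + 1) (dh (p + 1) (q + 1) y) = 0 →
      ∃ w v, y = dh p (q + 1) w + dv (p + 1) q v := by
    intro q
    induction q with
    | zero =>
      intro p y hy
      obtain ⟨u, hu⟩ := (cols (p + 1)).2 0 _ hy
      have h1 : dv (p + 3) 0 (dh (p + 2) 0 u) = 0 := by
        rw [comm, hu, hh]
      obtain ⟨w', hw'⟩ := T0 (p + 1) u h1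
      have h2 : dh (p + 1) 1 (y - dv (p + 1) 0 w') = 0 := by
        rw [map_sub, ← comm, ← hw', hu, sub_self]
      obtain ⟨w, hw⟩ := (rows 1).2 p _ h2
      exact ⟨w, w', by rw [hw]; abel⟩
    | succ q ih =>
      intro p y hy
      obtain ⟨u, hu⟩ := (cols (p + 1)).2 (q + 1) _ hy
      have h1 : dv (p + 3) (q + 1) (dh (p + 2) (q + 1) u) = 0 := by
        rw [comm, hu, hh]
      obtain ⟨w', v', hw'⟩ := ih (p + 1) u h1
      have h2 : dh (p + 1) (q + 2) (y - dv (p + 1) (q + 1) w') = 0 := by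
        rw [map_sub, ← comm, ← hu, hw', map_add, vv, add_zero, sub_self]
      obtain ⟨w, hw⟩ := (rows (q + 2)).2 p _ h2
      exact ⟨w, w', by rw [hw]; abel⟩
  constructor
  · intro x hx
    have h1 : dv 1 0 (dh 0 0 x) = 0 := by
      rw [comm, hx, map_zero]
    exact (rows 0).1 x ((cols 0).1 _ h1)
  · intro q x hx
    have h1 : dv 1 (q + 1) (dh 0 (q + 1) x) = 0 := by
      rw [comm, hx, map_zero]
    obtain ⟨y, hy⟩ := (cols 0).2 q _ h1
    have h2 : dv 2 q (dh 1 q y) = 0 := by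
      rw [comm, hy, hh]
    cases q with
    | zero =>
      obtain ⟨w, hw⟩ := T0 0 y h2
      refine ⟨w, ?_⟩
      have h3 : dh 0 1 (x - dv 0 0 w) = 0 := by
        rw [map_sub, ← comm, ← hw, hy, sub_self]
      exact (sub_eq_zero.mp ((rows 1).1 _ h3)).symm
    | succ q =>
      obtain ⟨w, v, hw⟩ := T q 0 y h2
      refine ⟨w, ?_⟩
      have h3 : dh 0 (q + 2) (x - dv 0 (q + 1) w) = 0 := by
        rw [map_sub, ← comm, ← hy, hw, map_add, vv, add_zero, sub_self]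
      exact (sub_eq_zero.mp ((rows (q + 2)).1 _ h3)).symm

/-- retracts of exact complexes are exact -/
theorem ex_retract {C : ℕ → Type u} {D : ℕ → Type v} [∀ q, AddCommGroup (C q)]
    [∀ q, AddCommGroup (D q)] (δ : ∀ q, C q →+ C (q + 1)) (ε : ∀ q, D q →+ D (q + 1))
    (i : ∀ q, D q →+ C q) (r : ∀ q, C q →+ D q) (hri : ∀ q x, r q (i q x) = x)
    (hi : ∀ q x, i (q + 1) (ε q x) = δ q (i q x)) (hr : ∀ q x, r (q + 1) (δ q x) = ε q (r q x))
    (h : Ex δ) : Ex ε := by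
  constructor
  · intro x hx
    have h1 : δ 0 (i 0 x) = 0 := by rw [← hi, hx, map_zero]
    have h2 := h.1 _ h1
    rw [← hri 0 x, h2, map_zero]
  · intro q x hx
    have h1 : δ (q + 1) (i (q + 1) x) = 0 := by rw [← hi, hx, map_zero]
    obtain ⟨y, hy⟩ := h.2 q _ h1
    exact ⟨r q y, by rw [← hr, hy, hri]⟩

/-- the shift in a short exact sequence of complexes with exact middle term: pointwise version -/
theorem ex_shift {A : ℕ → Type u} {B : ℕ → Type v} {C : ℕ → Type w} [∀ q, AddCommGroup (A q)]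
    [∀ q, AddCommGroup (B q)] [∀ q, AddCommGroup (C q)]
    (δA : ∀ q, A q →+ A (q + 1)) (δB : ∀ q, B q →+ B (q + 1)) (δC : ∀ q, C q →+ C (q + 1))
    (hBB : ∀ q x, δB (q + 1) (δB q x) = 0)
    (ι : ∀ q, A q →+ B q) (π : ∀ q, B q →+ C q) (hι : ∀ q x, ι (q + 1) (δA q x) = δB q (ι q x))
    (hπ : ∀ q x, π (q + 1) (δB q x) = δC q (π q x))
    (hinj : ∀ q, Function.Injective (ι q)) (hsurj : ∀ q, Function.Surjective (π q))
    (hπι : ∀ q x, π q (ι q x) = 0) (hker : ∀ q x, π q x = 0 → ∃ a, ι q a = x)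
    (hB : Ex δB) :
    (∀ x : A 0, δA 0 x = 0 → x = 0) ∧
    (∀ x : C 0, (δC 0 x = 0 → x = 0) → ∀ a : A 1, ∀ b : B 0, ι 1 a = δB 0 b → π 0 b = x →
      ∃ y, δA 0 y = a) ∧
    ((∀ x : C 0, δC 0 x = 0 → x = 0) → ∀ x : A 1, δA 1 x = 0 → ∃ y, δA 0 y = x) ∧
    ∀ q, (∀ x : C (q + 1), δC (q + 1) x = 0 → ∃ y, δC q y = x) →
      ∀ x : A (q + 2), δA (q + 2) x = 0 → ∃ y, δA (q + 1) y = x := by
  have key0 : ∀ x : C 0, (δC 0 x = 0 → x = 0) → ∀ a : A 1, ∀ b : B 0, ι 1 a = δB 0 b → π 0 b = x →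
      ∃ y, δA 0 y = a := by
    intro x hx a b hab hb
    have h1 : δC 0 x = 0 := by rw [← hb, ← hπ, ← hab, hπι]
    have h2 := hx h1
    rw [h2] at hb
    obtain ⟨a', ha'⟩ := hker 0 b hb
    refine ⟨a', hinj 1 ?_⟩
    rw [hι, ha', hab]
  refine ⟨?_, key0, ?_, ?_⟩
  · intro x hx
    apply hinj 0
    rw [map_zero]
    apply hB.1
    rw [← hι, hx, map_zero]
  · intro h x hx
    have h1 : δB 1 (ι 1 x) = 0 := by rw [← hι, hx, map_zero]
    obtain ⟨b, hb⟩ := hB.2 0 _ h1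
    exact key0 _ (h _) x b hb.symm rfl
  · intro q h x hx
    have h1 : δB (q + 2) (ι (q + 2) x) = 0 := by rw [← hι, hx, map_zero]
    obtain ⟨b, hb⟩ := hB.2 (q + 1) _ h1
    have h2 : δC (q + 1) (π (q + 1) b) = 0 := by rw [← hπ, hb, hπι]
    obtain ⟨c, hc⟩ := h _ h2
    obtain ⟨c', rfl⟩ := hsurj q c
    have h3 : π (q + 1) (b - δB q c') = 0 := by rw [map_sub, hπ, hc, sub_self]
    obtain ⟨a', ha'⟩ := hker _ _ h3
    refine ⟨a', hinj _ ?_⟩
    rw [hι, ha', map_sub, hBB, sub_zero, hb]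

theorem ex_shift_all {A : ℕ → Type u} {B : ℕ → Type v} {C : ℕ → Type w}
    [∀ q, AddCommGroup (A q)] [∀ q, AddCommGroup (B q)] [∀ q, AddCommGroup (C q)]
    (δA : ∀ q, A q →+ A (q + 1)) (δB : ∀ q, B q →+ B (q + 1)) (δC : ∀ q, C q →+ C (q + 1))
    (hBB : ∀ q x, δB (q + 1) (δB q x) = 0)
    (ι : ∀ q, A q →+ B q) (π : ∀ q, B q →+ C q) (hι : ∀ q x, ι (q + 1) (δA q x) = δB q (ι q x))
    (hπ : ∀ q x, π (q + 1) (δB q x) = δC q (π q x))
    (hinj : ∀ q, Function.Injective (ι q)) (hsurj : ∀ q, Function.Surjective (π q))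
    (hπι : ∀ q x, π q (ι q x) = 0) (hker : ∀ q x, π q x = 0 → ∃ a, ι q a = x)
    (hB : Ex δB) (hC : Ex δC) : Ex δA := by
  obtain ⟨h1, _, h3, h4⟩ := ex_shift δA δB δC hBB ι π hι hπ hinj hsurj hπι hker hB
  refine ⟨h1, fun q => ?_⟩
  cases q with
  | zero => exact h3 hC.1
  | succ q => exact h4 q (hC.2 q)

end Abs

end EM

end Pool.Agent.H904R2
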