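import Pool.Agent.H904R2.EM1

/-! Polynomial functions on abelian groups and the quotient functor `R`. -/

set_option autoImplicit false

namespace Pool.Agent.H904R2

namespace EM

universe u v w

section Pol

variable {M : Type v} [AddCommGroup M] {B B' B'' : Type} [AddCommGroup B] [AddCommGroup B']
  [AddCommGroup B'']

/-- difference operator -/
def dif (a : B) : (B → M) →+ (B → M) where
  toFun f := fun x => f (x + a) - f x
  map_zero' := by
    ext x; simp
  map_add' f g := by
    ext x
    simp only [Pi.add_apply]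
    abel

theorem dif_apply (a : B) (f : B → M) (x : B) : dif a f x = f (x + a) - f x := rfl

/-- affine pull back -/
def aff (φ : B →+ B') (b : B') : (B' → M) →+ (B → M) where
  toFun f := fun x => f (φ x + b)
  map_zero' := rfl
  map_add' _ _ := rfl

theorem aff_apply (φ : B →+ B') (b : B') (f : B' → M) (x : B) : aff φ b f x = f (φ x + b) := rfl

variable (M B) in
/-- polynomial functions of degree `< Q` -/
def Dg : ℕ → AddSubgroup (B → M)
  | 0 => ⊥
  | (Q + 1) => ⨅ a : B, (Dg Q).comap (dif a)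

theorem mem_Dg_zero {f : B → M} : f ∈ Dg M B 0 ↔ f = 0 := Iff.rfl

theorem mem_Dg_succ {Q : ℕ} {f : B → M} : f ∈ Dg M B (Q + 1) ↔ ∀ a, dif a f ∈ Dg M B Q := by
  rw [Dg, AddSubgroup.mem_iInf]
  rfl

theorem Dg_le_succ (Q : ℕ) : Dg M B Q ≤ Dg M B (Q + 1) := by
  induction Q with
  | zero => exact bot_le
  | succ Q ih =>
    intro f hf
    rw [mem_Dg_succ] at hf ⊢
    exact fun a => ih (hf a)

theorem Dg_mono : Monotone (Dg M B) := monotone_nat_of_le_succ Dg_le_succ

theorem dif_aff (φ : B →+ B') (b : B') (a : B) (f : B' → M) :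
    dif a (aff φ b f) = aff φ b (dif (φ a) f) := by
  funext x
  simp only [dif_apply, aff_apply, map_add]
  congr 2
  abel

theorem Dg_aff (φ : B →+ B') (b : B') (Q : ℕ) (f : B' → M) (hf : f ∈ Dg M B' Q) :
    aff φ b f ∈ Dg M B Q := by
  induction Q generalizing f with
  | zero =>
    rw [mem_Dg_zero] at hf ⊢
    rw [hf, map_zero]
  | succ Q ih =>
    rw [mem_Dg_succ] at hf ⊢
    intro a
    rw [dif_aff]
    exact ih _ (hf _)

variable (M B) in
/-- polynomial functions -/
def Pol : AddSubgroup (B → M) where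
  carrier := {f | ∃ Q, f ∈ Dg M B Q}
  zero_mem' := ⟨0, rfl⟩
  add_mem' := by
    rintro f g ⟨Q, hf⟩ ⟨Q', hg⟩
    exact ⟨max Q Q', AddSubgroup.add_mem _ (Dg_mono (le_max_left _ _) hf)
      (Dg_mono (le_max_right _ _) hg)⟩
  neg_mem' := by
    rintro f ⟨Q, hf⟩
    exact ⟨Q, AddSubgroup.neg_mem _ hf⟩

theorem Pol_aff (φ : B →+ B') (b : B') (f : B' → M) (hf : f ∈ Pol M B') :
    aff φ b f ∈ Pol M B := by
  obtain ⟨Q, hf⟩ := hf
  exact ⟨Q, Dg_aff φ b Q f hf⟩

variable (M B) in
/-- functions modulo polynomial functions -/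
abbrev R : Type v := (B → M) ⧸ Pol M B

/-- affine maps act on `R` -/
def Ra (φ : B →+ B') (b : B') : R M B' →+ R M B :=
  QuotientAddGroup.map (Pol M B') (Pol M B) (aff φ b) (fun f hf => Pol_aff φ b f hf)

theorem Ra_mk (φ : B →+ B') (b : B') (f : B' → M) :
    Ra φ b (QuotientAddGroup.mk' (Pol M B') f) = QuotientAddGroup.mk' (Pol M B) (aff φ b f) := rfl

/-- homs act on `R` -/
def Rm (φ : B →+ B') : R M B' →+ R M B := Ra φ 0

theorem Rm_comp (φ : B →+ B') (ψ : B' →+ B'') (x : R M B'') :
    Rm φ (Rm ψ x) = Rm (ψ.comp φ) x := by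
  obtain ⟨f, rfl⟩ := QuotientAddGroup.mk'_surjective _ x
  simp only [Rm, Ra_mk]
  congr 1
  funext x
  simp [aff_apply]

theorem Rm_id (x : R M B) : Rm (AddMonoidHom.id B) x = x := by
  obtain ⟨f, rfl⟩ := QuotientAddGroup.mk'_surjective _ x
  simp only [Rm, Ra_mk]
  congr 1
  funext x
  simp [aff_apply]

/-- `Ra` and `Rm` -/
theorem Rm_Ra (φ : B →+ B') (ψ : B' →+ B'') (b : B'') (x : R M B'') :
    Rm φ (Ra ψ b x) = Ra (ψ.comp φ) b x := by
  obtain ⟨f, rfl⟩ := QuotientAddGroup.mk'_surjective _ x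
  simp only [Rm, Ra_mk]
  congr 1
  funext x
  simp [aff_apply]

theorem Ra_Rm (φ : B →+ B') (b : B') (ψ : B' →+ B'') (x : R M B'') :
    Ra φ b (Rm ψ x) = Ra (ψ.comp φ) (ψ b) x := by
  obtain ⟨f, rfl⟩ := QuotientAddGroup.mk'_surjective _ x
  simp only [Rm, Ra_mk]
  congr 1
  funext x
  simp [aff_apply]

theorem const_mem_Pol (m : M) : (fun _ : B => m) ∈ Pol M B := by
  refine ⟨1, ?_⟩
  rw [mem_Dg_succ]
  intro a
  rw [mem_Dg_zero]
  funext x
  simp [dif_apply]

theorem R_zero_of_subsingleton [Subsingleton B] (x : R M B) : x = 0 := by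
  obtain ⟨f, rfl⟩ := QuotientAddGroup.mk'_surjective _ x
  rw [QuotientAddGroup.mk'_apply, QuotientAddGroup.eq_zero_iff]
  have : f = fun _ => f 0 := by
    funext b
    rw [Subsingleton.elim b 0]
  rw [this]
  exact const_mem_Pol _

/-! ### Newton: the discrete integral -/

/-- the primitive of a function on `ℤ` vanishing at `0` -/
def prim (h : ℤ → M) : ℤ → M
  | Int.ofNat n => ∑ k ∈ Finset.range n, h k
  | Int.negSucc n => -∑ k ∈ Finset.range (n + 1), h (-((k : ℤ) + 1))

theorem prim_zero (h : ℤ → M) : prim h 0 = 0 := by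
  change prim h (Int.ofNat 0) = 0
  simp [prim]

theorem prim_succ (h : ℤ → M) (n : ℤ) : prim h (n + 1) - prim h n = h n := by
  rcases n with n | n
  · have : Int.ofNat n + 1 = Int.ofNat (n + 1) := rfl
    rw [this]
    simp only [prim, Finset.sum_range_succ]
    simp
  · rcases n with _ | n
    · have : Int.negSucc 0 + 1 = Int.ofNat 0 := rfl
      rw [this]
      simp only [prim, Finset.sum_range_succ]
      simp
    · have : Int.negSucc (n + 1) + 1 = Int.negSucc n := rfl
      rw [this]
      simp only [prim, Finset.sum_range_succ]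
      have h2 : Int.negSucc (n + 1) = -(((n + 1 : ℕ) : ℤ) + 1) := by
        rw [Int.negSucc_eq]
      rw [h2]
      abel

section Newton

variable {W : Type} [AddCommGroup W] (π : B →+ W) (s : W →+ B) (c : B →+ ℤ) (u : B)
  (hdec : ∀ b, b = c b • u + s (π b)) (hπu : π u = 0) (hcu : c u = 1) (hcs : ∀ w, c (s w) = 0)
  (hπs : ∀ w, π (s w) = w)

include hdec hπu hcu in
theorem newton_exists (g : B → M) : ∃ f : B → M, dif u f = g ∧ ∀ b, c b = 0 → f b = 0 := by
  refine ⟨fun b => prim (fun k => g (k • u + s (π b))) (c b), ?_, ?_⟩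
  · funext b
    rw [dif_apply, map_add π, hπu, add_zero, map_add c, hcu, prim_succ, ← hdec]
  · intro b hb
    simp only [hb]
    exact prim_zero _

include hcu in
theorem newton_step (g f : B → M) (hf : dif u f = g) (hf0 : ∀ b, c b = 0 → f b = 0)
    (hcs : ∀ w, c (s w) = 0)
    (Q : ℕ) (hg : g ∈ Dg M B Q) (n : ℤ) : ∀ a : B, c a = n →
      (fun b => f (s (π b) + a)) ∈ Dg M B Q := by
  have hrec : ∀ x : B, f (x + u) = f x + g x := by
    intro x
    rw [← hf, dif_apply]; abel
  induction n using Int.induction_on with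
  | zero =>
    intro a ha
    have : (fun b => f (s (π b) + a)) = 0 := by
      funext b
      apply hf0
      rw [map_add, hcs, ha, add_zero]
    rw [this]
    exact AddSubgroup.zero_mem _
  | succ i ih =>
    intro a ha
    have h1 := ih (a - u) (by rw [map_sub, ha, hcu]; ring)
    have h2 : (fun b => f (s (π b) + a)) =
        (fun b => f (s (π b) + (a - u))) + aff (s.comp π) (a - u) g := by
      funext b
      rw [Pi.add_apply, aff_apply, AddMonoidHom.comp_apply, ← hrec]
      congr 1
      abel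
    rw [h2]
    exact AddSubgroup.add_mem _ h1 (Dg_aff _ _ _ _ hg)
  | pred i ih =>
    intro a ha
    have h1 := ih (a + u) (by rw [map_add, ha, hcu]; ring)
    have h2 : (fun b => f (s (π b) + a)) =
        (fun b => f (s (π b) + (a + u))) - aff (s.comp π) a g := by
      funext b
      rw [Pi.sub_apply, aff_apply, AddMonoidHom.comp_apply, ← add_assoc, hrec]
      abel
    rw [h2]
    exact AddSubgroup.sub_mem _ h1 (Dg_aff _ _ _ _ hg)

include hdec in
theorem newton_inv (f : B → M) (hf : dif u f = 0) (b : B) : f b = f (s (π b)) := by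
  have hrec : ∀ x : B, f (x + u) = f x := by
    intro x
    have := congrFun hf x
    rw [dif_apply, Pi.zero_apply] at this
    exact sub_eq_zero.mp this
  have h1 : ∀ (n : ℤ) (x : B), f (n • u + x) = f x := by
    intro n
    induction n using Int.induction_on with
    | zero => intro x; simp
    | succ i ih =>
      intro x
      rw [add_smul, one_smul]
      have : (i : ℤ) • u + u + x = ((i : ℤ) • u + x) + u := by abel
      rw [this, hrec, ih]
    | pred i ih =>
      intro x
      rw [← hrec]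
      have : ((-(i : ℤ) - 1) • u + x) + u = (-(i : ℤ)) • u + x := by
        rw [sub_smul, one_smul]; abel
      rw [this, ih]
  conv_lhs => rw [hdec b]
  rw [h1]

include hdec hπu hcu hcs in
theorem newton_Dg (Q : ℕ) : ∀ g f : B → M, dif u f = g → (∀ b, c b = 0 → f b = 0) →
    g ∈ Dg M B Q → f ∈ Dg M B (Q + 1) := by
  induction Q with
  | zero =>
    intro g f hf hf0 hg
    rw [mem_Dg_zero] at hg
    subst hg
    have : f = 0 := by
      funext b
      rw [newton_inv π s c u hdec f hf b]
      exact hf0 _ (hcs _)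
    rw [this]
    exact AddSubgroup.zero_mem _
  | succ Q ih =>
    intro g f hf hf0 hg
    rw [mem_Dg_succ]
    intro a
    obtain ⟨f', hf', hf'0⟩ := newton_exists π s c u hdec hπu hcu (dif a g)
    have h1 : f' ∈ Dg M B (Q + 1) := ih (dif a g) f' hf' hf'0 (mem_Dg_succ.mp hg a)
    have h2 : dif u (dif a f - f') = 0 := by
      rw [map_sub, hf', ← hf]
      funext x
      simp only [dif_apply, Pi.sub_apply, Pi.zero_apply]
      have : x + u + a = x + a + u := by abel
      rw [this]
      abel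
    have h3 : dif a f - f' = fun b => f (s (π b) + a) := by
      funext b
      rw [newton_inv π s c u hdec _ h2 b, Pi.sub_apply, dif_apply, hf'0 _ (hcs _), sub_zero,
        hf0 (s (π b)) (hcs _), sub_zero]
    have h4 : dif a f = f' + fun b => f (s (π b) + a) := by
      rw [← h3]; abel
    rw [h4]
    exact AddSubgroup.add_mem _ h1 (newton_step π s c u hcu g f hf hf0 hcs (Q + 1) hg (c a) a rfl)

/-- `τ = (translation by u) - 1` on `R` -/
def tauR (u : B) : R M B →+ R M B := Ra (AddMonoidHom.id B) u - AddMonoidHom.id _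

theorem tauR_mk (u : B) (f : B → M) :
    tauR u (QuotientAddGroup.mk' (Pol M B) f) = QuotientAddGroup.mk' (Pol M B) (dif u f) := by
  rw [tauR, AddMonoidHom.sub_apply, Ra_mk, AddMonoidHom.id_apply, ← map_sub]
  rfl

include hdec hπu hcu in
theorem tauR_surj : Function.Surjective (tauR (M := M) u) := by
  intro x
  obtain ⟨g, rfl⟩ := QuotientAddGroup.mk'_surjective _ x
  obtain ⟨f, hf, _⟩ := newton_exists π s c u hdec hπu hcu g
  exact ⟨QuotientAddGroup.mk' _ f, by rw [tauR_mk, hf]⟩

include hdec hπu hcu hcs in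
theorem tauR_ker (x : R M B) (hx : tauR u x = 0) : ∃ y : R M W, Rm π y = x := by
  obtain ⟨f, rfl⟩ := QuotientAddGroup.mk'_surjective _ x
  rw [tauR_mk, QuotientAddGroup.mk'_apply, QuotientAddGroup.eq_zero_iff] at hx
  obtain ⟨p, hp, hp0⟩ := newton_exists π s c u hdec hπu hcu (dif u f)
  have hpP : p ∈ Pol M B := by
    obtain ⟨Q, hQ⟩ := hx
    exact ⟨Q + 1, newton_Dg π s c u hdec hπu hcu hcs Q _ p hp hp0 hQ⟩
  have h2 : dif u (f - p) = 0 := by rw [map_sub, hp, sub_self]
  refine ⟨QuotientAddGroup.mk' _ (fun w => (f - p) (s w)), ?_⟩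
  rw [Rm, Ra_mk, ← sub_eq_zero, ← map_sub, QuotientAddGroup.mk'_apply,
    QuotientAddGroup.eq_zero_iff]
  have h3 : aff π 0 (fun w => (f - p) (s w)) - f = -p := by
    funext b
    rw [Pi.sub_apply, aff_apply, add_zero, ← newton_inv π s c u hdec _ h2 b, Pi.sub_apply,
      Pi.neg_apply]
    abel
  rw [h3]
  exact AddSubgroup.neg_mem _ hpP

include hπs in
theorem Rm_inj : Function.Injective (Rm (M := M) π) := by
  intro x y hxy
  have := congrArg (Rm s) hxy
  rw [Rm_comp, Rm_comp] at this
  have h2 : π.comp s = AddMonoidHom.id W := by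
    ext w; exact hπs w
  rw [h2, Rm_id, Rm_id] at this
  exact this

include hπu in
theorem tauR_Rm (y : R M W) : tauR u (Rm π y) = 0 := by
  rw [tauR, AddMonoidHom.sub_apply, AddMonoidHom.id_apply, Ra_Rm, hπu, sub_eq_zero]
  rfl

end Newton

end Pol

end EM

end Pool.Agent.H904R2
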