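import Pool.Agent.H904R2.EM2

/-! Acyclicity of functions modulo polynomial functions on the Eilenberg --MacLane groups. -/

set_option autoImplicit false

namespace Pool.Agent.H904R2

namespace EM

universe u v w

/-! ### General facts on `Rm` -/

section RmFacts

variable {M : Type v} [AddCommGroup M] {B₁ B₂ B₂' B₃ : Type} [AddCommGroup B₁] [AddCommGroup B₂]
  [AddCommGroup B₂'] [AddCommGroup B₃]

theorem Rm_Rm_eq (φ : B₁ →+ B₂) (ψ : B₂ →+ B₃) (φ' : B₁ →+ B₂') (ψ' : B₂' →+ B₃)
    (h : ∀ b, ψ (φ b) = ψ' (φ' b)) (x : R M B₃) : Rm φ (Rm ψ x) = Rm φ' (Rm ψ' x) := by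
  rw [Rm_comp, Rm_comp]
  congr 1
  exact congrArg _ (AddMonoidHom.ext h)

theorem Rm_Rm_id (φ : B₁ →+ B₂) (ψ : B₂ →+ B₁) (h : ∀ b, ψ (φ b) = b) (x : R M B₁) :
    Rm φ (Rm ψ x) = x := by
  rw [Rm_comp]
  have : ψ.comp φ = AddMonoidHom.id B₁ := AddMonoidHom.ext h
  rw [this, Rm_id]

end RmFacts

theorem ds_comm {C : ℕ → ℕ → Type u} [∀ p q, AddCommGroup (C p q)]
    (d1 : ∀ p q, Fin (p + 1) → (C p q →+ C (p + 1) q))
    (d2 : ∀ p q, Fin (q + 1) → (C p q →+ C p (q + 1)))
    (h : ∀ p q i j x, d2 (p + 1) q j (d1 p q i x) = d1 p (q + 1) i (d2 p q j x))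
    (p q : ℕ) (x : C p q) :
    ds (C := fun q => C (p + 1) q) (fun q => d2 (p + 1) q) q
      (ds (C := fun p => C p q) (fun p => d1 p q) p x) =
    ds (C := fun p => C p (q + 1)) (fun p => d1 p (q + 1)) p
      (ds (C := fun q => C p q) (fun q => d2 p q) q x) := by
  simp only [ds_apply, map_sum, map_zsmul, Finset.smul_sum]
  rw [Finset.sum_comm]
  apply Finset.sum_congr rfl
  intro i _
  apply Finset.sum_congr rfl
  intro j _
  rw [h, smul_comm]

theorem map_ds {C : ℕ → Type u} {D : ℕ → Type v} [∀ q, AddCommGroup (C q)]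
    [∀ q, AddCommGroup (D q)] (d : ∀ q, Fin (q + 1) → (C q →+ C (q + 1)))
    (e : ∀ q, Fin (q + 1) → (D q →+ D (q + 1))) (f : ∀ q, C q →+ D q)
    (h : ∀ q i x, f (q + 1) (d q i x) = e q i (f q x)) (q : ℕ) (x : C q) :
    f (q + 1) (ds d q x) = ds e q (f q x) := by
  simp only [ds_apply, map_sum, map_zsmul, h]

/-! ### Cochains -/

section Cochains

variable {V V' V'' A A' : Type} [AddCommGroup A] [AddCommGroup A'] {m : ℕ}

/-- coboundary -/
def cdf (m : ℕ) {V A : Type} [AddCommGroup A] :
    ((Fin m → V) → A) →+ ((Fin (m + 1) → V) → A) where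
  toFun c := fun v => ∑ i : Fin (m + 1), ((-1 : ℤ) ^ (i : ℕ)) • c (v ∘ i.succAbove)
  map_zero' := by
    funext v
    simp
  map_add' c c' := by
    funext v
    simp [Finset.sum_add_distrib]

theorem cdf_apply (c : (Fin m → V) → A) (v : Fin (m + 1) → V) :
    cdf m c v = ∑ i : Fin (m + 1), ((-1 : ℤ) ^ (i : ℕ)) • c (v ∘ i.succAbove) := rfl

theorem cdf_cdf (c : (Fin m → V) → A) : cdf (m + 1) (cdf m c) = 0 := by
  funext v
  rw [cdf_apply]
  simp only [cdf_apply, Finset.smul_sum]
  apply alt_cancel m (fun i j => c ((v ∘ j.succAbove) ∘ i.succAbove))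
  intro i j hij
  congr 1
  funext x
  simp only [Function.comp_apply]
  rw [succAbove_comm i j hij]

/-- cocycles -/
def Zc (m : ℕ) (V A : Type) [AddCommGroup A] : AddSubgroup ((Fin m → V) → A) := (cdf m).ker

theorem mem_Zc {c : (Fin m → V) → A} : c ∈ Zc m V A ↔ cdf m c = 0 := Iff.rfl

/-- pull back of cochains -/
def pC (f : V → V') : ((Fin m → V') → A) →+ ((Fin m → V) → A) where
  toFun c := fun v => c (f ∘ v)
  map_zero' := rfl
  map_add' _ _ := rfl

theorem pC_apply (f : V → V') (c : (Fin m → V') → A) (v : Fin m → V) : pC f c v = c (f ∘ v) := rfl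

theorem cdf_pC (f : V → V') (c : (Fin m → V') → A) : cdf m (pC f c) = pC f (cdf m c) := rfl

/-- pull back of cocycles -/
def pZ (f : V → V') : Zc m V' A →+ Zc m V A :=
  ((pC f).comp (Zc m V' A).subtype).codRestrict (Zc m V A) (by
    rintro ⟨z, hz⟩
    rw [mem_Zc, AddMonoidHom.comp_apply, cdf_pC]
    change pC f (cdf m z) = 0
    rw [mem_Zc.mp hz, map_zero])

theorem pZ_val (f : V → V') (z : Zc m V' A) : (pZ f z).1 = pC f z.1 := rfl

/-- change of coefficients -/
def coef (g : A →+ A') : Zc m V A →+ Zc m V A' where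
  toFun z := ⟨fun v => g (z.1 v), by
    rw [mem_Zc]
    funext v
    have h := congrFun (mem_Zc.mp z.2) v
    rw [cdf_apply] at h ⊢
    simp only [← map_zsmul, ← map_sum]
    rw [h, Pi.zero_apply, map_zero, Pi.zero_apply]⟩
  map_zero' := by
    apply Subtype.ext
    funext v
    exact map_zero g
  map_add' z z' := by
    apply Subtype.ext
    funext v
    exact map_add g _ _

/-- the coboundary as a cocycle -/
def cdZ (m : ℕ) {V A : Type} [AddCommGroup A] : ((Fin m → V) → A) →+ Zc (m + 1) V A :=
  (cdf m).codRestrict (Zc (m + 1) V A) (fun c => mem_Zc.mpr (cdf_cdf c))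

/-- extension by zero -/
def ex0 (m q : ℕ) : ((Fin m → Fin q) → A) →+ ((Fin m → Fin (q + 1)) → A) where
  toFun c := fun v => if h : ∀ i, v i ≠ 0 then c (fun i => (v i).pred (h i)) else 0
  map_zero' := by
    funext v
    simp
  map_add' c c' := by
    funext v
    by_cases h : ∀ i, v i ≠ 0
    · simp only [Pi.add_apply, dif_pos h]
    · simp only [Pi.add_apply, dif_neg h, add_zero]

theorem ex0_face0 (q : ℕ) (c : (Fin m → Fin q) → A) :
    pC (Fin.succAbove (0 : Fin (q + 1))) (ex0 m q c) = c := by
  funext v
  have h : ∀ i, ((Fin.succAbove (0 : Fin (q + 1))) ∘ v) i ≠ 0 := by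
    intro i
    simp
  change (if h : ∀ i, ((Fin.succAbove (0 : Fin (q + 1))) ∘ v) i ≠ 0 then _ else 0) = _
  rw [dif_pos h]
  congr 1

theorem ex0_face_succ (q : ℕ) (j : Fin (q + 1)) (c : (Fin m → Fin (q + 1)) → A) :
    pC (Fin.succAbove j.succ) (ex0 m (q + 1) c) = ex0 m q (pC (Fin.succAbove j) c) := by
  funext v
  change (if h : ∀ i, ((Fin.succAbove j.succ) ∘ v) i ≠ 0 then
    c (fun i => (((Fin.succAbove j.succ) ∘ v) i).pred (h i)) else 0) =
    (if h : ∀ i, v i ≠ 0 then c ((Fin.succAbove j) ∘ (fun i => (v i).pred (h i))) else 0)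
  by_cases h : ∀ i, v i ≠ 0
  · have h' : ∀ i, ((Fin.succAbove j.succ) ∘ v) i ≠ 0 := by
      intro i h0
      exact h i ((Fin.succAbove_eq_zero_iff (Fin.succ_ne_zero j)).mp h0)
    rw [dif_pos h, dif_pos h']
    congr 1
    funext i
    apply Fin.succ_injective
    rw [Fin.succ_pred, Function.comp_apply, Function.comp_apply, ← Fin.succ_succAbove_succ,
      Fin.succ_pred]
  · have h' : ¬ ∀ i, ((Fin.succAbove j.succ) ∘ v) i ≠ 0 := by
      intro h0
      apply h
      intro i hi
      apply h0 i
      rw [Function.comp_apply, hi]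
      exact Fin.succAbove_ne_zero_zero (Fin.succ_ne_zero j)
    rw [dif_neg h, dif_neg h']

end Cochains

/-! ### The complexes of functions modulo polynomials -/

section Complexes

variable (M : Type v) [AddCommGroup M]

/-- the complex `R(Z^m(Fin q; A))` is exact -/
def Pex (m : ℕ) (A : Type) [AddCommGroup A] : Prop :=
  Ex (C := fun q => R M (Zc m (Fin q) A))
    (ds (fun q i => Rm (pZ (Fin.succAbove i))))

/-- retraction of coefficients -/
theorem Pex_retract (m : ℕ) (A A' : Type) [AddCommGroup A] [AddCommGroup A'] (i : A' →+ A)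
    (r : A →+ A') (hri : ∀ a, r (i a) = a) (h : Pex M m A) : Pex M m A' := by
  unfold Pex at h ⊢
  refine ex_retract _ _ (fun q => Rm (coef r)) (fun q => Rm (coef i)) ?_ ?_ ?_ h
  · intro q x
    apply Rm_Rm_id
    intro b
    apply Subtype.ext
    funext v
    exact hri _
  · intro q x
    apply map_ds (C := fun q => R M (Zc m (Fin q) A')) (D := fun q => R M (Zc m (Fin q) A))
      (f := fun q => Rm (coef r))
    intro q j x
    apply Rm_Rm_eq
    intro b
    rfl
  · intro q x
    apply map_ds (C := fun q => R M (Zc m (Fin q) A)) (D := fun q => R M (Zc m (Fin q) A'))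
      (f := fun q => Rm (coef i))
    intro q j x
    apply Rm_Rm_eq
    intro b
    rfl

/-- the product of `Z^m(V;A)` with the contractible `C^{m'}(V;A')` -/
theorem contr (m m' : ℕ) (hm' : 1 ≤ m') (A A' : Type) [AddCommGroup A] [AddCommGroup A']
    (hY : Pex M m A) :
    Ex (C := fun q => R M (Zc m (Fin q) A × ((Fin m' → Fin q) → A')))
      (ds (fun q i => Rm ((pZ (Fin.succAbove i)).prodMap (pC (Fin.succAbove i))))) := by
  have hsucc : ∀ (q : ℕ) (i j : Fin (q + 1)), i ≤ j →
      (Fin.succAbove j.succ) ∘ (Fin.succAbove i) =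
        (Fin.succAbove i.castSucc) ∘ (Fin.succAbove j) := by
    intro q i j hij
    funext x
    exact succAbove_comm i j hij x
  -- the double complex
  let C : ℕ → ℕ → Type v := fun p q => R M (Zc m (Fin q ⊕ Fin p) A × ((Fin m' → Fin q) → A'))
  let d1 : ∀ p q, Fin (p + 1) → (C p q →+ C (p + 1) q) := fun p q i =>
    Rm ((pZ (Sum.map id (Fin.succAbove i))).prodMap (AddMonoidHom.id _))
  let d2 : ∀ p q, Fin (q + 1) → (C p q →+ C p (q + 1)) := fun p q i =>
    Rm ((pZ (Sum.map (Fin.succAbove i) id)).prodMap (pC (Fin.succAbove i)))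
  have key := ex_double (C := C) (fun p q => ds (C := fun p => C p q) (fun p => d1 p q) p)
    (fun p q => ds (C := fun q => C p q) (fun q => d2 p q) q) ?_ ?_ ?_ ?_ ?_
  · refine ex_retract _ _
      (fun q => Rm ((pZ (Sum.inl : Fin q → Fin q ⊕ Fin 0)).prodMap (AddMonoidHom.id _)))
      (fun q => Rm ((pZ (Sum.elim id Fin.elim0 : Fin q ⊕ Fin 0 → Fin q)).prodMap
        (AddMonoidHom.id _))) ?_ ?_ ?_ key
    · intro q x
      apply Rm_Rm_id
      intro b
      rfl
    · intro q x
      apply map_ds (e := fun q => d2 0 q)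
        (f := fun q => Rm ((pZ (Sum.inl : Fin q → Fin q ⊕ Fin 0)).prodMap (AddMonoidHom.id _)))
      intro q j x
      apply Rm_Rm_eq
      intro b
      rfl
    · intro q x
      apply map_ds (d := fun q => d2 0 q)
        (f := fun q => Rm ((pZ (Sum.elim id Fin.elim0 : Fin q ⊕ Fin 0 → Fin q)).prodMap
          (AddMonoidHom.id _)))
      intro q j x
      apply Rm_Rm_eq
      rintro ⟨z, e⟩
      apply Prod.ext
      · apply Subtype.ext
        funext v
        refine congrArg z.1 (funext fun l => ?_)
        simp only [Function.comp_apply]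
        rcases v l with a | a
        · rfl
        · exact a.elim0
      · rfl
  · intro p q x
    apply ds_ds
    intro p i j hij x
    apply Rm_Rm_eq
    rintro ⟨z, e⟩
    apply Prod.ext
    · apply Subtype.ext
      funext v
      refine congrArg z.1 (funext fun l => ?_)
      simp only [Function.comp_apply]
      rcases v l with a | a
      · rfl
      · simp only [Sum.map_inr]
        rw [succAbove_comm i j hij]
    · rfl
  · intro p q x
    apply ds_ds
    intro q i j hij x
    apply Rm_Rm_eq
    rintro ⟨z, e⟩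
    apply Prod.ext
    · apply Subtype.ext
      funext v
      refine congrArg z.1 (funext fun l => ?_)
      simp only [Function.comp_apply]
      rcases v l with a | a
      · simp only [Sum.map_inl]
        rw [succAbove_comm i j hij]
      · rfl
    · funext v
      refine congrArg e (funext fun l => ?_)
      simp only [Function.comp_apply]
      rw [succAbove_comm i j hij]
  · intro p q x
    apply ds_comm d1 d2
    intro p q i j x
    apply Rm_Rm_eq
    rintro ⟨z, e⟩
    apply Prod.ext
    · apply Subtype.ext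
      funext v
      refine congrArg z.1 (funext fun l => ?_)
      simp only [Function.comp_apply]
      rcases v l with a | a <;> rfl
    · rfl
  · -- rows
    intro q
    cases q with
    | zero =>
      -- retract of `hY`
      have hemp : IsEmpty (Fin m' → Fin 0) := ⟨fun f => (f ⟨0, hm'⟩).elim0⟩
      refine ex_retract _ _
        (fun p => Rm (AddMonoidHom.prod (pZ (Sum.elim Fin.elim0 id : Fin 0 ⊕ Fin p → Fin p)) 0))
        (fun p => Rm ((pZ (Sum.inr : Fin p → Fin 0 ⊕ Fin p)).comp (AddMonoidHom.fst _ _)))
        ?_ ?_ ?_ hY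
      · intro p x
        apply Rm_Rm_id
        rintro ⟨z, e⟩
        apply Prod.ext
        · apply Subtype.ext
          funext v
          refine congrArg z.1 (funext fun l => ?_)
          simp only [Function.comp_apply]
          rcases v l with a | a
          · exact a.elim0
          · rfl
        · funext v
          exact (hemp.false v).elim
      · intro p x
        apply map_ds (d := fun p => d1 p 0) (f := fun p => Rm (AddMonoidHom.prod
          (pZ (Sum.elim Fin.elim0 id : Fin 0 ⊕ Fin p → Fin p)) 0))
        intro q j x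
        apply Rm_Rm_eq
        intro z
        apply Prod.ext
        · apply Subtype.ext
          funext v
          refine congrArg z.1 (funext fun l => ?_)
          simp only [Function.comp_apply]
          rcases v l with a | a
          · exact a.elim0
          · rfl
        · rfl
      · intro p x
        apply map_ds (e := fun p => d1 p 0) (f := fun p => Rm
          ((pZ (Sum.inr : Fin p → Fin 0 ⊕ Fin p)).comp (AddMonoidHom.fst _ _)))
        intro q j x
        apply Rm_Rm_eq
        rintro ⟨z, e⟩
        rfl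
    | succ q =>
      refine ex_of_extra (C := fun p => C p (q + 1)) (fun p => d1 p (q + 1))
        (fun p => Rm ((pZ (Sum.elim Sum.inl (fun j => Fin.cases (Sum.inl 0) Sum.inr j) :
          Fin (q + 1) ⊕ Fin (p + 1) → Fin (q + 1) ⊕ Fin p)).prodMap (AddMonoidHom.id _))) ?_ ?_
      · intro p x
        apply Rm_Rm_id
        rintro ⟨z, e⟩
        apply Prod.ext
        · apply Subtype.ext
          funext v
          refine congrArg z.1 (funext fun l => ?_)
          simp only [Function.comp_apply]
          rcases v l with a | a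
          · rfl
          · simp
        · rfl
      · intro p i x
        apply Rm_Rm_eq
        rintro ⟨z, e⟩
        apply Prod.ext
        · apply Subtype.ext
          funext v
          refine congrArg z.1 (funext fun l => ?_)
          simp only [Function.comp_apply]
          rcases v l with a | a
          · rfl
          · refine Fin.cases ?_ (fun a => ?_) a
            · simp
            · simp [Fin.succ_succAbove_succ]
        · rfl
  · -- columns
    intro p
    refine ex_of_extra (C := fun q => C (p + 1) q) (fun q => d2 (p + 1) q)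
      (fun q => Rm ((pZ (Sum.elim (fun j => Fin.cases (Sum.inr 0) Sum.inl j) Sum.inr :
          Fin (q + 1) ⊕ Fin (p + 1) → Fin q ⊕ Fin (p + 1))).prodMap (ex0 m' q))) ?_ ?_
    · intro q x
      apply Rm_Rm_id
      rintro ⟨z, e⟩
      apply Prod.ext
      · apply Subtype.ext
        funext v
        refine congrArg z.1 (funext fun l => ?_)
        simp only [Function.comp_apply]
        rcases v l with a | a
        · simp
        · rfl
      · exact ex0_face0 q e
    · intro q i x
      apply Rm_Rm_eq
      rintro ⟨z, e⟩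
      apply Prod.ext
      · apply Subtype.ext
        funext v
        refine congrArg z.1 (funext fun l => ?_)
        simp only [Function.comp_apply]
        rcases v l with a | a
        · refine Fin.cases ?_ (fun a => ?_) a
          · simp
          · simp [Fin.succ_succAbove_succ]
        · rfl
      · exact ex0_face_succ q i e

end Complexes

end EM

end Pool.Agent.H904R2
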