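import Pool.Agent.H904R2.EM3

/-! Acyclicity of functions modulo polynomial functions on the Eilenberg --MacLane groups:
induction steps. -/

set_option autoImplicit false

namespace Pool.Agent.H904R2

namespace EM

universe u v w

/-! ### sections of the coboundary -/

section Sec

variable {A : Type} [AddCommGroup A] {m : ℕ}

theorem Fin.cons_comp_succAbove_succ' {V : Type} {m : ℕ} (a : V) (v : Fin (m + 1) → V)
    (i : Fin (m + 1)) :
    (Fin.cons a v : Fin (m + 2) → V) ∘ (i.succ).succAbove =
      (Fin.cons a (v ∘ i.succAbove) : Fin (m + 1) → V) := by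
  funext l
  refine Fin.cases ?_ (fun l => ?_) l
  · simp
  · simp [Fin.succ_succAbove_succ]

theorem cdf_cons {V : Type} (a : V) (z : (Fin (m + 1) → V) → A) (hz : z ∈ Zc (m + 1) V A) :
    cdf m (fun v => z (Fin.cons a v)) = z := by
  funext v
  have h := congrFun (mem_Zc.mp hz) (Fin.cons a v : Fin (m + 2) → V)
  rw [cdf_apply, Fin.sum_univ_succ] at h
  simp only [Fin.cons_comp_succAbove_succ'] at h
  have h0 : (Fin.cons a v : Fin (m + 2) → V) ∘ Fin.succAbove 0 = v := by
    funext l
    simp
  rw [h0] at h
  simp only [Fin.val_zero, pow_zero, one_smul, Fin.val_succ, pow_succ, mul_neg, mul_one, neg_smul,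
    Finset.sum_neg_distrib, Pi.zero_apply] at h
  rw [cdf_apply]
  exact (add_neg_eq_zero.mp h).symm

/-- linear section of the coboundary -/
theorem exists_sec (m : ℕ) (q : ℕ) (A : Type) [AddCommGroup A] :
    ∃ s : Zc (m + 1) (Fin q) A →+ ((Fin m → Fin q) → A), ∀ z, cdf m (s z) = z.1 := by
  cases q with
  | zero =>
    refine ⟨0, fun z => ?_⟩
    funext v
    exact (v 0).elim0
  | succ q =>
    refine ⟨{ toFun := fun z => fun v => z.1 (Fin.cons 0 v)
              map_zero' := rfl
              map_add' := fun _ _ => rfl }, fun z => ?_⟩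
    exact cdf_cons (0 : Fin (q + 1)) z.1 z.2

end Sec

section Step3

variable (M : Type v) [AddCommGroup M]

/-- the Čech nerve of `C^m → Z^{m+1}` -/
def Gr (m p : ℕ) (V A : Type) [AddCommGroup A] :
    AddSubgroup (((Fin (m + 1) → V) → A) × (Fin p → (Fin m → V) → A)) where
  carrier := {x | x.1 ∈ Zc (m + 1) V A ∧ ∀ i, cdf m (x.2 i) = x.1}
  zero_mem' := ⟨AddSubgroup.zero_mem _, fun i => by
    change cdf m 0 = 0
    exact map_zero _⟩
  add_mem' := by
    rintro a b ⟨h1, h2⟩ ⟨h3, h4⟩
    refine ⟨AddSubgroup.add_mem _ h1 h3, fun i => ?_⟩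
    change cdf m (a.2 i + b.2 i) = a.1 + b.1
    rw [map_add, h2, h4]
  neg_mem' := by
    rintro a ⟨h1, h2⟩
    refine ⟨AddSubgroup.neg_mem _ h1, fun i => ?_⟩
    change cdf m (-a.2 i) = -a.1
    rw [map_neg, h2]

variable {m : ℕ} {A : Type} [AddCommGroup A]

/-- horizontal faces -/
def grH {V : Type} {p p' : ℕ} (g : Fin p → Fin p') : Gr m p' V A →+ Gr m p V A where
  toFun x := ⟨(x.1.1, fun i => x.1.2 (g i)), ⟨x.2.1, fun i => x.2.2 (g i)⟩⟩
  map_zero' := rfl
  map_add' _ _ := rfl

/-- vertical maps -/
def grV {V V' : Type} {p : ℕ} (f : V → V') : Gr m p V' A →+ Gr m p V A where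
  toFun x := ⟨(pC f x.1.1, fun i => pC f (x.1.2 i)), ⟨(pZ f ⟨x.1.1, x.2.1⟩).2, fun i => by
    change cdf m (pC f (x.1.2 i)) = pC f x.1.1
    rw [cdf_pC, x.2.2 i]⟩⟩
  map_zero' := rfl
  map_add' _ _ := rfl

/-- the extra degeneracy -/
def grS {V : Type} {p : ℕ} (s : Zc (m + 1) V A →+ ((Fin m → V) → A))
    (hs : ∀ z, cdf m (s z) = z.1) : Gr m p V A →+ Gr m (p + 1) V A where
  toFun x := ⟨(x.1.1, Fin.cons (s ⟨x.1.1, x.2.1⟩) x.1.2), ⟨x.2.1, fun i => by
    refine Fin.cases ?_ (fun i => ?_) i
    · exact hs _
    · exact x.2.2 i⟩⟩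
  map_zero' := by
    apply Subtype.ext
    apply Prod.ext
    · rfl
    · funext i
      refine Fin.cases ?_ (fun i => ?_) i
      · exact map_zero s
      · rfl
  map_add' x y := by
    apply Subtype.ext
    apply Prod.ext
    · rfl
    · funext i
      refine Fin.cases ?_ (fun i => ?_) i
      · exact map_add s ⟨x.1.1, x.2.1⟩ ⟨y.1.1, y.2.1⟩
      · rfl

/-- comparison of the columns with products -/
def grPhi (V : Type) (p : ℕ) : Gr m (p + 1) V A →+ Zc m V (Fin p → A) × ((Fin m → V) → A) where
  toFun x := (⟨fun v i => x.1.2 i.succ v - x.1.2 0 v, by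
    rw [mem_Zc]
    funext v
    funext i
    have h1 := congrFun (x.2.2 i.succ) v
    have h2 := congrFun (x.2.2 0) v
    rw [cdf_apply] at h1 h2 ⊢
    simp only [Finset.sum_apply, Pi.smul_apply, smul_sub, Finset.sum_sub_distrib, h1, h2, sub_self,
      Pi.zero_apply]⟩, x.1.2 0)
  map_zero' := by
    apply Prod.ext
    · apply Subtype.ext
      funext v i
      exact sub_zero _
    · rfl
  map_add' x y := by
    apply Prod.ext
    · apply Subtype.ext
      funext v i
      exact add_sub_add_comm _ _ _ _
    · rfl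

/-- comparison of the columns with products -/
def grPsi (V : Type) (p : ℕ) : Zc m V (Fin p → A) × ((Fin m → V) → A) →+ Gr m (p + 1) V A where
  toFun y := ⟨(cdf m y.2, Fin.cons y.2 (fun i v => y.2 v + y.1.1 v i)), ⟨(cdZ m y.2).2, fun i => by
    refine Fin.cases ?_ (fun i => ?_) i
    · rfl
    · change cdf m (fun v => y.2 v + y.1.1 v i) = cdf m y.2
      have h1 := mem_Zc.mp y.1.2
      have h2 : (fun v => y.2 v + y.1.1 v i) = y.2 + (fun v => y.1.1 v i) := rfl
      rw [h2, map_add]
      have h3 : cdf m (fun v => y.1.1 v i) = 0 := by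
        funext v
        have h4 := congrFun (congrFun h1 v) i
        rw [cdf_apply] at h4 ⊢
        simp only [Finset.sum_apply, Pi.smul_apply, Pi.zero_apply] at h4
        simpa using h4
      rw [h3, add_zero]⟩⟩
  map_zero' := by
    apply Subtype.ext
    apply Prod.ext
    · exact map_zero _
    · funext i
      refine Fin.cases ?_ (fun i => ?_) i
      · rfl
      · funext v
        exact add_zero _
  map_add' x y := by
    apply Subtype.ext
    apply Prod.ext
    · exact map_add _ _ _
    · funext i
      refine Fin.cases ?_ (fun i => ?_) i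
      · rfl
      · funext v
        exact add_add_add_comm _ _ _ _

theorem step3 (m : ℕ) (hm : 1 ≤ m) (A : Type) [AddCommGroup A]
    (h : ∀ p : ℕ, Pex M m (Fin p → A)) : Pex M (m + 1) A := by
  let C : ℕ → ℕ → Type v := fun p q => R M (Gr m p (Fin q) A)
  let d1 : ∀ p q, Fin (p + 1) → (C p q →+ C (p + 1) q) := fun p q i =>
    Rm (grH (Fin.succAbove i))
  let d2 : ∀ p q, Fin (q + 1) → (C p q →+ C p (q + 1)) := fun p q i =>
    Rm (grV (Fin.succAbove i))
  have key := ex_double (C := C) (fun p q => ds (C := fun p => C p q) (fun p => d1 p q) p)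
    (fun p q => ds (C := fun q => C p q) (fun q => d2 p q) q) ?_ ?_ ?_ ?_ ?_
  · unfold Pex
    refine ex_retract _ _
      (fun q => Rm { toFun := fun x : Gr m 0 (Fin q) A => (⟨x.1.1, x.2.1⟩ : Zc (m + 1) (Fin q) A)
                     map_zero' := rfl
                     map_add' := fun _ _ => rfl })
      (fun q => Rm { toFun := fun z : Zc (m + 1) (Fin q) A =>
                       (⟨(z.1, Fin.elim0), ⟨z.2, fun i => i.elim0⟩⟩ : Gr m 0 (Fin q) A)
                     map_zero' := by
                      apply Subtype.ext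
                      apply Prod.ext
                      · rfl
                      · funext i; exact i.elim0
                     map_add' := by
                      intro x y
                      apply Subtype.ext
                      apply Prod.ext
                      · rfl
                      · funext i; exact i.elim0 }) ?_ ?_ ?_ key
    · intro q x
      apply Rm_Rm_id
      intro b
      rfl
    · intro q x
      apply map_ds (C := fun q => R M (Zc (m + 1) (Fin q) A)) (e := fun q => d2 0 q)
        (f := fun q => Rm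
          { toFun := fun x : Gr m 0 (Fin q) A => (⟨x.1.1, x.2.1⟩ : Zc (m + 1) (Fin q) A)
            map_zero' := rfl
            map_add' := fun _ _ => rfl })
      intro q j x
      apply Rm_Rm_eq
      intro b
      rfl
    · intro q x
      apply map_ds (D := fun q => R M (Zc (m + 1) (Fin q) A)) (d := fun q => d2 0 q)
        (f := fun q => Rm
          { toFun := fun z : Zc (m + 1) (Fin q) A =>
                       (⟨(z.1, Fin.elim0), ⟨z.2, fun i => i.elim0⟩⟩ : Gr m 0 (Fin q) A)
            map_zero' := by
              apply Subtype.ext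
              apply Prod.ext
              · rfl
              · funext i; exact i.elim0
            map_add' := by
              intro x y
              apply Subtype.ext
              apply Prod.ext
              · rfl
              · funext i; exact i.elim0 })
      intro q j x
      apply Rm_Rm_eq
      intro b
      apply Subtype.ext
      apply Prod.ext
      · rfl
      · funext i; exact i.elim0
  · intro p q x
    apply ds_ds
    intro p i j hij x
    apply Rm_Rm_eq
    intro z
    apply Subtype.ext
    apply Prod.ext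
    · rfl
    · funext l
      change z.1.2 _ = z.1.2 _
      rw [succAbove_comm i j hij]
  · intro p q x
    apply ds_ds
    intro q i j hij x
    apply Rm_Rm_eq
    intro z
    apply Subtype.ext
    apply Prod.ext
    · funext v
      refine congrArg z.1.1 (funext fun l => ?_)
      simp only [Function.comp_apply]
      rw [succAbove_comm i j hij]
    · funext l v
      refine congrArg (z.1.2 l) (funext fun l => ?_)
      simp only [Function.comp_apply]
      rw [succAbove_comm i j hij]
  · intro p q x
    apply ds_comm d1 d2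
    intro p q i j x
    apply Rm_Rm_eq
    intro z
    rfl
  · -- rows
    intro q
    obtain ⟨s, hs⟩ := exists_sec m q A
    refine ex_of_extra (C := fun p => C p q) (fun p => d1 p q)
      (fun p => Rm (grS s hs)) ?_ ?_
    · intro p x
      apply Rm_Rm_id
      intro z
      apply Subtype.ext
      apply Prod.ext
      · rfl
      · funext l
        change (Fin.cons (s ⟨z.1.1, z.2.1⟩) z.1.2 : Fin (p + 1) → (Fin m → Fin q) → A)
          (Fin.succAbove 0 l) = z.1.2 l
        rw [Fin.succAbove_zero, Fin.cons_succ]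
    · intro p i x
      apply Rm_Rm_eq
      intro z
      apply Subtype.ext
      apply Prod.ext
      · rfl
      · funext l
        change (Fin.cons (s ⟨z.1.1, z.2.1⟩) z.1.2 : Fin (p + 2) → (Fin m → Fin q) → A)
          (Fin.succAbove i.succ l) = (Fin.cons (s ⟨z.1.1, z.2.1⟩)
            (fun i' => z.1.2 (Fin.succAbove i i')) : Fin (p + 1) → (Fin m → Fin q) → A) l
        refine Fin.cases ?_ (fun l => ?_) l
        · simp
        · rw [Fin.succ_succAbove_succ, Fin.cons_succ, Fin.cons_succ]
  · -- columns
    intro p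
    have h1 := contr M m m hm (Fin p → A) A (h p)
    refine ex_retract _ _ (fun q => Rm (grPsi (Fin q) p)) (fun q => Rm (grPhi (Fin q) p))
      ?_ ?_ ?_ h1
    · intro q x
      apply Rm_Rm_id
      intro z
      apply Subtype.ext
      apply Prod.ext
      · exact z.2.2 0
      · funext l
        refine Fin.cases ?_ (fun l => ?_) l
        · rfl
        · funext v
          change z.1.2 0 v + (z.1.2 l.succ v - z.1.2 0 v) = z.1.2 l.succ v
          abel
    · intro q x
      apply map_ds (C := fun q => C (p + 1) q) (d := fun q => d2 (p + 1) q)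
        (D := fun q => R M (Zc m (Fin q) (Fin p → A) × ((Fin m → Fin q) → A)))
        (f := fun q => Rm (grPsi (Fin q) p))
      intro q j x
      apply Rm_Rm_eq
      intro z
      apply Subtype.ext
      apply Prod.ext
      · rfl
      · funext l
        refine Fin.cases ?_ (fun l => ?_) l
        · rfl
        · rfl
    · intro q x
      apply map_ds (D := fun q => C (p + 1) q) (e := fun q => d2 (p + 1) q)
        (C := fun q => R M (Zc m (Fin q) (Fin p → A) × ((Fin m → Fin q) → A)))
        (f := fun q => Rm (grPhi (Fin q) p))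
      intro q j x
      apply Rm_Rm_eq
      intro z
      rfl

end Step3

/-! ### the base case -/

section Step2

variable (M : Type v) [AddCommGroup M]

theorem subsingleton_Zc_zero (m : ℕ) (A : Type) [AddCommGroup A] :
    Subsingleton (Zc (m + 1) (Fin 0) A) := by
  refine ⟨fun a b => ?_⟩
  apply Subtype.ext
  funext v
  exact (v 0).elim0

theorem base_prod (A : Type) [AddCommGroup A] (h : Pex M 2 A) :
    Ex (C := fun q => R M (Zc 2 (Fin q) A × Zc 2 (Fin q) ℤ))
      (ds (fun _q i => Rm ((pZ (Fin.succAbove i)).prodMap (pZ (Fin.succAbove i))))) := by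
  have hB := contr M 2 1 le_rfl A ℤ h
  have hsub0 : Subsingleton (Zc 2 (Fin 0) A × Zc 2 (Fin 0) ℤ) := by
    have := subsingleton_Zc_zero 1 A
    have := subsingleton_Zc_zero 1 ℤ
    infer_instance
  have hsub1 : Subsingleton (Zc 2 (Fin 0) A × ((Fin 1 → Fin 0) → ℤ)) := by
    have := subsingleton_Zc_zero 1 A
    have : Subsingleton ((Fin 1 → Fin 0) → ℤ) := ⟨fun a b => by
      funext v
      exact (v 0).elim0⟩
    infer_instance
  -- data for Newton's lemma
  let π : ∀ q, (Zc 2 (Fin q) A × ((Fin 1 → Fin q) → ℤ)) →+ Zc 2 (Fin q) A × Zc 2 (Fin q) ℤ :=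
    fun q => (AddMonoidHom.id _).prodMap (cdZ 1)
  let u : ∀ q, Zc 2 (Fin q) A × ((Fin 1 → Fin q) → ℤ) := fun q => (0, fun _ => 1)
  have hπu : ∀ q, π q (u q) = 0 := by
    intro q
    apply Prod.ext
    · rfl
    · apply Subtype.ext
      funext v
      change cdf 1 (fun _ => (1 : ℤ)) v = 0
      rw [cdf_apply, Fin.sum_univ_two]
      simp
  have newt : ∀ q, ∃ (s : Zc 2 (Fin (q + 1)) A × Zc 2 (Fin (q + 1)) ℤ →+
      Zc 2 (Fin (q + 1)) A × ((Fin 1 → Fin (q + 1)) → ℤ))
      (c : Zc 2 (Fin (q + 1)) A × ((Fin 1 → Fin (q + 1)) → ℤ) →+ ℤ),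
      (∀ b, b = c b • u (q + 1) + s (π (q + 1) b)) ∧ c (u (q + 1)) = 1 ∧ (∀ w, c (s w) = 0) ∧
        ∀ w, π (q + 1) (s w) = w := by
    intro q
    let s1 : Zc 2 (Fin (q + 1)) ℤ →+ ((Fin 1 → Fin (q + 1)) → ℤ) :=
      { toFun := fun z => fun v => z.1 (Fin.cons 0 v)
        map_zero' := rfl
        map_add' := fun _ _ => rfl }
    let c1 : Zc 2 (Fin (q + 1)) A × ((Fin 1 → Fin (q + 1)) → ℤ) →+ ℤ :=
      { toFun := fun z => z.2 (fun _ => 0)
        map_zero' := rfl
        map_add' := fun _ _ => rfl }
    refine ⟨(AddMonoidHom.id _).prodMap s1, c1, ?_, rfl, ?_, ?_⟩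
    · rintro ⟨y, e⟩
      apply Prod.ext
      · change y = c1 (y, e) • (0 : Zc 2 (Fin (q + 1)) A) + y
        rw [smul_zero, zero_add]
      · funext v
        change e v = e (fun _ => 0) • (1 : ℤ) + cdf 1 e (Fin.cons 0 v)
        rw [cdf_apply, Fin.sum_univ_two, smul_eq_mul, mul_one]
        have h1 : (Fin.cons 0 v : Fin 2 → Fin (q + 1)) ∘ Fin.succAbove 0 = v := by
          funext l
          simp
        have h2 : (Fin.cons 0 v : Fin 2 → Fin (q + 1)) ∘ Fin.succAbove 1 = fun _ => 0 := by
          funext l
          have : l = 0 := Subsingleton.elim _ _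
          subst this
          rfl
        rw [h1, h2]
        simp
    · rintro ⟨y, z⟩
      change z.1 (Fin.cons 0 (fun _ => 0)) = 0
      have h1 := congrFun (mem_Zc.mp z.2) (fun _ => 0)
      rw [cdf_apply, Fin.sum_univ_three] at h1
      have h2 : (Fin.cons 0 (fun _ => 0) : Fin 2 → Fin (q + 1)) = fun _ => 0 := by
        funext l
        refine Fin.cases ?_ (fun l => ?_) l <;> rfl
      rw [h2]
      have h3 : ∀ i : Fin 3, (fun _ => 0 : Fin 3 → Fin (q + 1)) ∘ Fin.succAbove i = fun _ => 0 :=
        fun i => rfl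
      simp only [h3] at h1
      simpa using h1
    · rintro ⟨y, z⟩
      apply Prod.ext
      · rfl
      · apply Subtype.ext
        exact cdf_cons (0 : Fin (q + 1)) z.1 z.2
  refine ex_shift_all (B := fun q => R M (Zc 2 (Fin q) A × ((Fin 1 → Fin q) → ℤ)))
    (C := fun q => R M (Zc 2 (Fin q) A × ((Fin 1 → Fin q) → ℤ))) _ _ _ ?_
    (fun q => Rm (π q)) (fun q => tauR (u q)) ?_ ?_ ?_ ?_ ?_ ?_ hB hB
  · intro q x
    apply ds_ds
    intro q i j hij x
    apply Rm_Rm_eq
    rintro ⟨z, e⟩
    apply Prod.ext
    · apply Subtype.ext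
      funext v
      refine congrArg z.1 (funext fun l => ?_)
      simp only [Function.comp_apply]
      rw [succAbove_comm i j hij]
    · funext v
      refine congrArg e (funext fun l => ?_)
      simp only [Function.comp_apply]
      rw [succAbove_comm i j hij]
  · intro q x
    apply map_ds (C := fun q => R M (Zc 2 (Fin q) A × Zc 2 (Fin q) ℤ))
      (D := fun q => R M (Zc 2 (Fin q) A × ((Fin 1 → Fin q) → ℤ))) (f := fun q => Rm (π q))
    intro q j x
    apply Rm_Rm_eq
    intro z
    rfl
  · intro q x
    apply map_ds (C := fun q => R M (Zc 2 (Fin q) A × ((Fin 1 → Fin q) → ℤ)))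
      (D := fun q => R M (Zc 2 (Fin q) A × ((Fin 1 → Fin q) → ℤ))) (f := fun q => tauR (u q))
    intro q j x
    simp only [tauR, AddMonoidHom.sub_apply, AddMonoidHom.id_apply, map_sub]
    congr 1
    rw [Ra_Rm, Rm_Ra]
    rfl
  · intro q
    cases q with
    | zero =>
      intro x y _
      rw [R_zero_of_subsingleton x, R_zero_of_subsingleton y]
    | succ q =>
      obtain ⟨s, c, _, _, _, h4⟩ := newt q
      exact Rm_inj (π (q + 1)) s h4
  · intro q
    cases q with
    | zero =>
      intro x
      exact ⟨0, by rw [R_zero_of_subsingleton x, map_zero]⟩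
    | succ q =>
      obtain ⟨s, c, h1, h2, _, _⟩ := newt q
      exact tauR_surj (π (q + 1)) s c (u (q + 1)) h1 (hπu _) h2
  · intro q x
    exact tauR_Rm (π q) (u q) (hπu q) x
  · intro q x hx
    cases q with
    | zero => exact ⟨0, by rw [R_zero_of_subsingleton x, map_zero]⟩
    | succ q =>
      obtain ⟨s, c, h1, h2, h3, _⟩ := newt q
      exact tauR_ker (π (q + 1)) s c (u (q + 1)) h1 (hπu _) h2 h3 x hx

theorem base_fin (N : ℕ) : Pex M 2 (Fin N → ℤ) := by
  induction N with
  | zero =>
    have hs : ∀ q, Subsingleton (Zc 2 (Fin q) (Fin 0 → ℤ)) := by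
      intro q
      refine ⟨fun a b => ?_⟩
      apply Subtype.ext
      funext v i
      exact i.elim0
    constructor
    · intro x _
      have := hs 0
      exact R_zero_of_subsingleton x
    · intro q x _
      have := hs (q + 1)
      exact ⟨0, by rw [R_zero_of_subsingleton x, map_zero]⟩
  | succ N ih =>
    have h := base_prod M _ ih
    let tl : (Fin (N + 1) → ℤ) →+ (Fin N → ℤ) :=
      { toFun := fun a i => a i.succ
        map_zero' := rfl
        map_add' := fun _ _ => rfl }
    let hd : (Fin (N + 1) → ℤ) →+ ℤ := Pi.evalAddMonoidHom _ 0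
    let itl : (Fin N → ℤ) →+ (Fin (N + 1) → ℤ) :=
      { toFun := fun a => Fin.cons 0 a
        map_zero' := by
          funext i
          refine Fin.cases ?_ (fun i => ?_) i <;> rfl
        map_add' := by
          intro a b
          funext i
          refine Fin.cases ?_ (fun i => ?_) i <;> rfl }
    let ihd : ℤ →+ (Fin (N + 1) → ℤ) :=
      { toFun := fun a => Fin.cons a 0
        map_zero' := by
          funext i
          refine Fin.cases ?_ (fun i => ?_) i <;> rfl
        map_add' := by
          intro a b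
          funext i
          refine Fin.cases ?_ (fun i => ?_) i <;> rfl }
    unfold Pex
    refine ex_retract _ _
      (fun q => Rm ((coef itl).coprod (coef ihd)))
      (fun q => Rm ((coef tl).prod (coef hd))) ?_ ?_ ?_ h
    · intro q x
      apply Rm_Rm_id
      intro z
      apply Subtype.ext
      funext v i
      change (Fin.cons 0 (fun i : Fin N => z.1 v i.succ) : Fin (N + 1) → ℤ) i +
        (Fin.cons (z.1 v 0) 0 : Fin (N + 1) → ℤ) i = z.1 v i
      refine Fin.cases ?_ (fun i => ?_) i
      · simp
      · simp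
    · intro q x
      apply map_ds (C := fun q => R M (Zc 2 (Fin q) (Fin (N + 1) → ℤ)))
        (D := fun q => R M (Zc 2 (Fin q) (Fin N → ℤ) × Zc 2 (Fin q) ℤ))
        (f := fun q => Rm ((coef itl).coprod (coef ihd)))
      intro q j x
      apply Rm_Rm_eq
      intro z
      rfl
    · intro q x
      apply map_ds (D := fun q => R M (Zc 2 (Fin q) (Fin (N + 1) → ℤ)))
        (C := fun q => R M (Zc 2 (Fin q) (Fin N → ℤ) × Zc 2 (Fin q) ℤ))
        (f := fun q => Rm ((coef tl).prod (coef hd)))
      intro q j x
      apply Rm_Rm_eq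
      intro z
      rfl

theorem Pex_all (m : ℕ) (hm : 2 ≤ m) : ∀ (A : Type) [AddCommGroup A] [Module.Finite ℤ A]
    [Module.Free ℤ A], Pex M m A := by
  induction m, hm using Nat.le_induction with
  | base =>
    intro A _ _ _
    let e : A ≃ₗ[ℤ] (Fin (Module.finrank ℤ A) → ℤ) := (Module.finBasis ℤ A).equivFun
    exact Pex_retract M 2 _ A e.toAddEquiv.toAddMonoidHom e.symm.toAddEquiv.toAddMonoidHom
      (fun a => e.symm_apply_apply a) (base_fin M _)
  | succ m hm ih =>
    intro A _ _ _
    exact step3 M m (by omega) A (fun p => ih _)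

end Step2

end EM

end Pool.Agent.H904R2
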