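import Pool.Agent.H904R2.Ultra
import Pool.Agent.H904R2.SingG
import Pool.Agent.H904R2.EM
import Pool.Agent.H904R2.E

/-! Restriction of cocycles to simplices, exhaustion, reduction of coefficients. -/

set_option autoImplicit false

namespace Pool.Agent.H904R2

open Pool.Agent.Helper922.HB.Sc (Sing sface altd bd sbd)

section

variable {X : Type} [TopologicalSpace X]

theorem exists_Tz (m : ℕ) (hm : Odd m) (z : Sing X (m + 1) → ℤ)
    (hdiv : ∀ k : ℕ, 0 < k → ∃ (y : Sing X (m + 1) → ℤ) (a : Sing X m → ℤ),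
      z = (k : ℤ) • y + dlt Pool.Agent.Helper922.HB.Sc.sface m a) (N : ℤ) (hN : N ≠ 0) :
    ∃ (z' : Sing X (m + 1) → ℤ) (e : Sing X m → ℤ) (T : ℕ → Set (Sing X m))
      (a : ℕ → Sing X m → ℤ),
      z = N • z' + dlt Pool.Agent.Helper922.HB.Sc.sface m e ∧ Monotone T ∧ (∀ σ, ∃ n, σ ∈ T n) ∧
      ∀ n (σ : Sing X (m + 1)), (∀ i, sface m i σ ∈ T n) → dlt Pool.Agent.Helper922.HB.Sc.sface m (a n) σ = z' σ := by
  obtain ⟨z', e, T, a, _, _, h3, h4, h5, h6⟩ := exists_T m hm z hdiv N.natAbs (by omega)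
  rcases Int.natAbs_eq N with h | h
  · refine ⟨z', e, T, a, ?_, h4, h5, h6⟩
    rw [h3, ← h]
  · refine ⟨-z', e, T, fun n => - a n, ?_, h4, h5, ?_⟩
    · rw [h3]
      have : ((N.natAbs : ℕ) : ℤ) = -N := by omega
      rw [this]
      simp
    · intro n σ hσ
      rw [dlt_neg]
      simp only [Pi.neg_apply]
      rw [h6 n σ hσ]

/-- the cocycle `b` restricted to the vertices of `σ` -/
noncomputable def resK (m : ℕ) (b : Sing X m → ℤ) (q : ℕ) (σ : Sing X q) : KZ m q :=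
  open Classical in
  if h : (∀ v : Fin (m + 2) → Fin (q + 1),
      ∑ i : Fin (m + 2), (-1 : ℤ) ^ (i : ℕ) * b (spull (v ∘ i.succAbove) σ) = 0) then
    ⟨fun v => b (spull v σ), h⟩ else 0

theorem resK_val (m : ℕ) (b : Sing X m → ℤ) (q : ℕ) (σ : Sing X q)
    (h : ∀ v : Fin (m + 2) → Fin (q + 1), dlt Pool.Agent.Helper922.HB.Sc.sface m b (spull v σ) = 0) (v : Fin (m + 1) → Fin (q + 1)) :
    (resK m b q σ).1 v = b (spull v σ) := by
  have h' : ∀ v : Fin (m + 2) → Fin (q + 1),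
      ∑ i : Fin (m + 2), (-1 : ℤ) ^ (i : ℕ) * b (spull (v ∘ i.succAbove) σ) = 0 := by
    intro v
    rw [← h v]
    unfold dlt
    refine Finset.sum_congr rfl fun i _ => ?_
    rw [sface_eq_spull, spull_spull, smul_eq_mul]
  unfold resK
  rw [dif_pos h']

theorem resK_face (m : ℕ) (b : Sing X m → ℤ) (q : ℕ) (σ : Sing X (q + 1)) (l : Fin (q + 2))
    (h : ∀ v : Fin (m + 2) → Fin (q + 2), dlt Pool.Agent.Helper922.HB.Sc.sface m b (spull v σ) = 0) :
    kface m q l (resK m b (q + 1) σ) = resK m b q (sface q l σ) := by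
  apply Subtype.ext
  funext v
  rw [resK_val m b q (sface q l σ) (by
    intro v
    rw [sface_eq_spull, spull_spull]
    exact h _)]
  change (resK m b (q + 1) σ).1 (l.succAbove ∘ v) = _
  rw [resK_val m b (q + 1) σ h, sface_eq_spull, spull_spull]

end

end Pool.Agent.H904R2
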