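import Pool.Agent.H904R2.StInd
import Pool.Agent.H904R2.Sphere

/-! Task 5: homology of Stiefel manifolds in low degrees. -/

set_option autoImplicit false

namespace Pool.Agent.H904R2

open Finsupp
open Pool.Agent.Helper922.HB.Sc (Sing sface altd bd sbd)

theorem st_acyc (i k r : ℕ) (hr : i + 1 + k = r) (j : ℕ) (hj : j < 2 * i + 1) :
    RAcyc (St (k + 1) r) j :=
  Sti.st_acyc_of (fun n m h => pc_acyc n m h) i k r hr j hj

theorem st_coc (i k r : ℕ) (hr : i + 1 + k = r) : ∃ ι : Sing (St (k + 1) r) (2 * i + 1) → ℤ,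
    altd ℤ (sface (X := St (k + 1) r)) (2 * i + 1) ι = 0 ∧
      evm ι (psh (jC (i + 1) k r hr) (2 * i + 1) (fund (2 * i + 1))) = 1 :=
  Sti.st_coc_of (fun n m h => pc_acyc n m h) (fun n => fund_cyc n) (fun n => pc_coc n) i k r hr

end Pool.Agent.H904R2
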