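import Pool.Agent.H904R2.Defs2
import Pool.Agent.H904R2.Alpha
import Pool.Agent.H904R2.Stiefel

/-! # Task T16 (helper55): verification of the Chern class. -/

set_option autoImplicit false

namespace Pool.Agent.H904R2

open Finsupp
open Pool.Agent.Helper922.HB.Sc (Sing sface altd bd sbd)

namespace LM

section Rel

variable {X : Type} [TopologicalSpace X] {κ : Type} [Fintype κ] {r : ℕ} {f : C(X, Matrix κ κ ℂ)}

/-- coordinates of a simplex of frames with respect to a simplex of bases -/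
noncomputable def rel {k q : ℕ} (s : Sing (PF κ r) q) (τ : Sing (WF k f) q)
    (h : ∀ t, (s t).P = f (prW f (τ t))) : Sing (St k r) q where
  toFun t := ⟨fun j => (s t).1.2.mulVec ((τ t).1.2 j), by
    refine LinearIndependent.of_comp (Matrix.mulVecLin (s t).1.1) ?_
    have e : (⇑(Matrix.mulVecLin (s t).1.1) ∘ fun j => (s t).1.2.mulVec ((τ t).1.2 j)) =
        (τ t).1.2 := by
      funext j
      change (s t).1.1.mulVec ((s t).1.2.mulVec ((τ t).1.2 j)) = _
      rw [Matrix.mulVec_mulVec]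
      change (s t).P.mulVec _ = _
      rw [h t]
      exact (τ t).2.2 j
    rw [e]
    exact (τ t).2.1⟩
  continuous_toFun := by
    apply Continuous.subtype_mk
    refine continuous_pi fun j => ?_
    exact (continuous_snd.comp (continuous_subtype_val.comp s.continuous)).matrix_mulVec
      ((continuous_apply j).comp (continuous_snd.comp
        (continuous_subtype_val.comp τ.continuous)))

theorem rel_face {k q : ℕ} (s : Sing (PF κ r) (q + 1)) (τ : Sing (WF k f) (q + 1))
    (h : ∀ t, (s t).P = f (prW f (τ t))) (l : Fin (q + 2)) :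
    sface q l (rel s τ h) = rel (sface q l s) (sface q l τ) (fun _ => h _) := rfl

theorem rel_act {k q : ℕ} (s s' : Sing (PF κ r) q) (g : Sing (GLr r) q)
    (hg : ∀ t, s' t = (s t).act (g t)) (τ : Sing (WF k f) q)
    (h : ∀ t, (s t).P = f (prW f (τ t))) (h' : ∀ t, (s' t).P = f (prW f (τ t))) :
    rel s τ h = (actSt k r).comp (g.prodMk (rel s' τ h')) := by
  ext1 t
  apply Subtype.ext
  funext j
  change (s t).1.2.mulVec ((τ t).1.2 j) =
    (g t : Matrix (Fin r) (Fin r) ℂ).mulVec ((s' t).1.2.mulVec ((τ t).1.2 j))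
  rw [hg t]
  change _ = (g t : Matrix (Fin r) (Fin r) ℂ).mulVec
    (((((g t)⁻¹ : GLr r) : Matrix (Fin r) (Fin r) ℂ) * (s t).1.2).mulVec ((τ t).1.2 j))
  rw [Matrix.mulVec_mulVec, ← Matrix.mul_assoc, ← Units.val_mul, mul_inv_cancel, Units.val_one,
    Matrix.one_mul]

/-- the simplex of base changes -/
noncomputable def difS {q : ℕ} (s : Sing (PF κ r) q) (p : PF κ r) (h : ∀ t, (s t).P = p.P) :
    Sing (GLr r) q where
  toFun t := (s t).dif p (h t)
  continuous_toFun := by
    apply continuous_GLr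
    exact (continuous_snd.comp (continuous_subtype_val.comp s.continuous)).matrix_mul
      continuous_const

theorem rel_fib {k q : ℕ} (s : Sing (PF κ r) q) (x : X) (p : PF κ r) (hp : p.P = f x)
    (w : Sing (St k r) q) (hs : ∀ t, (s t).P = p.P)
    (h : ∀ t, (s t).P = f (prW f (((fibW f x p hp k).comp w) t))) :
    rel s ((fibW f x p hp k).comp w) h = (actSt k r).comp ((difS s p hs).prodMk w) := by
  ext1 t
  apply Subtype.ext
  funext j
  change (s t).1.2.mulVec (p.1.1.mulVec ((w t).1 j)) = ((s t).1.2 * p.1.1).mulVec ((w t).1 j)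
  rw [Matrix.mulVec_mulVec]

open Classical in
/-- coordinates, total version -/
noncomputable def RR {k : ℕ} (w₀ : St k r) (s : ∀ q, Sing X q → Sing (PF κ r) q) (q : ℕ)
    (τ : Sing (WF k f) q) : Sing (St k r) q :=
  if h : ∀ t, (s q ((prW f).comp τ) t).P = f (prW f (τ t)) then rel (s q ((prW f).comp τ)) τ h
  else ContinuousMap.const _ w₀

theorem RR_eq {k : ℕ} (w₀ : St k r) (s : ∀ q, Sing X q → Sing (PF κ r) q) (q : ℕ)
    (τ : Sing (WF k f) q) (h : ∀ t, (s q ((prW f).comp τ) t).P = f (prW f (τ t))) :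
    RR w₀ s q τ = rel (s q ((prW f).comp τ)) τ h := by
  rw [RR, dif_pos h]

end Rel

end LM

open LM in
theorem L_main {X : Type} [TopologicalSpace X] {κ : Type} [Fintype κ] {r : ℕ}
    (f : C(X, Matrix κ κ ℂ)) (i k : ℕ) (hr : i + 1 + k = r)
    (ι : Sing (St (k + 1) r) (2 * i + 1) → ℤ) (hι : dlt Pool.Agent.Helper922.HB.Sc.sface (2 * i + 1) ι = 0)
    (hι1 : evm ι (psh (jC (i + 1) k r hr) (2 * i + 1) (fund (2 * i + 1))) = 1)
    (z : Sing X (2 * i + 2) → ℤ) (hz0 : ∀ x, z (cst (2 * i + 2) x) = 0)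
    (S : ℕ → ∀ q, Set (Sing X q)) (hS : ∀ n q, S n q ⊆ S (n + 1) q)
    (hSf : ∀ n q (l : Fin (q + 2)) (σ : Sing X (q + 1)), σ ∈ S n (q + 1) → sface q l σ ∈ S n q)
    (hSe : ∀ q (σ : Sing X q), ∃ n, σ ∈ S n q)
    (s : ℕ → ∀ q, Sing X q → Sing (PF κ r) q)
    (hs : ∀ n q, q ≤ 2 * i + 2 → ∀ σ ∈ S n q, ∀ t, (s n q σ t).P = f (σ t))
    (hsf : ∀ n q, q < 2 * i + 2 → ∀ σ ∈ S n (q + 1), ∀ l,
      sface q l (s n (q + 1) σ) = s n q (sface q l σ))
    (a : ℕ → Sing X (2 * i + 1) → ℤ)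
    (ha : ∀ n, ∀ σ ∈ S n (2 * i + 2), dlt Pool.Agent.Helper922.HB.Sc.sface (2 * i + 1) (a n) σ = z σ)
    (h : ℕ → ∀ q, Sing X q → Sing (GLr r) q)
    (hh : ∀ n q, q ≤ 2 * i + 2 → ∀ σ ∈ S n q, ∀ t, s (n + 1) q σ t = (s n q σ t).act (h n q σ t))
    (η : ℕ → Sing X (2 * i) → ℤ)
    (hη : ∀ n, ∀ σ ∈ S n (2 * i + 1), uu i k r hr ι (h n (2 * i + 1) σ) =
      a n σ - a (n + 1) σ + dlt Pool.Agent.Helper922.HB.Sc.sface (2 * i) (η n) σ) :
    ∃ κ' : Sing (WF (k + 1) f) (2 * i + 1) → ℤ,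
      dlt Pool.Agent.Helper922.HB.Sc.sface (2 * i + 1) κ' = (fun τ => - z ((prW f).comp τ)) ∧
      ∀ (x : X) (p : PF κ r) (hp : p.P = f x),
        evm κ' (psh (fibW f x p hp (k + 1)) (2 * i + 1)
          (psh (jC (i + 1) k r hr) (2 * i + 1) (fund (2 * i + 1)))) = 1 := by
  classical
  obtain ⟨ε, hε, -⟩ := prod_formula (GLr r) (St (k + 1) r) 1 (w0 i k r hr) (actSt (k + 1) r)
    (actSt_one (k + 1) r) (2 * i) (even_two_mul i)
    (fun j hj => st_acyc i k r hr j hj) ι hι
  have hSm : ∀ q {m n : ℕ}, m ≤ n → S m q ⊆ S n q := by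
    intro q m n hmn
    induction hmn with
    | refl => exact subset_rfl
    | step _ ih => exact ih.trans (hS _ q)
  -- the relative coordinates
  set R : ℕ → ∀ q, Sing (WF (k + 1) f) q → Sing (St (k + 1) r) q :=
    fun n q τ => RR (w0 i k r hr) (s n) q τ with hR
  have hRe : ∀ n q (τ : Sing (WF (k + 1) f) q) (hq : q ≤ 2 * i + 2)
      (hτ : (prW f).comp τ ∈ S n q), R n q τ = rel (s n q ((prW f).comp τ)) τ
        (fun t => hs n q hq _ hτ t) := by
    intro n q τ hq hτ
    exact RR_eq _ _ _ _ _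
  have hRf : ∀ n q (τ : Sing (WF (k + 1) f) (q + 1)) (_ : q < 2 * i + 2)
      (_ : (prW f).comp τ ∈ S n (q + 1)) (l : Fin (q + 2)),
      sface q l (R n (q + 1) τ) = R n q (sface q l τ) := by
    intro n q τ hq hτ l
    have hτ' : (prW f).comp (sface q l τ) ∈ S n q := hSf n q l _ hτ
    rw [hRe n (q + 1) τ hq hτ, hRe n q _ (by omega) hτ', rel_face]
    have e := hsf n q hq _ hτ l
    have e2 : sface q l ((prW f).comp τ) = (prW f).comp (sface q l τ) := rfl
    rw [e2] at e
    congr 1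
  have hRa : ∀ n q (τ : Sing (WF (k + 1) f) q) (_ : q ≤ 2 * i + 2)
      (_ : (prW f).comp τ ∈ S n q), R n q τ =
        (actSt (k + 1) r).comp ((h n q ((prW f).comp τ)).prodMk (R (n + 1) q τ)) := by
    intro n q τ hq hτ
    rw [hRe n q τ hq hτ, hRe (n + 1) q τ hq (hS n q hτ)]
    exact rel_act _ _ _ (fun t => hh n q hq _ hτ t) _ _ _
  have hhf : ∀ n q, q < 2 * i + 2 → ∀ σ ∈ S n (q + 1), ∀ l,
      sface q l (h n (q + 1) σ) = h n q (sface q l σ) := by
    intro n q hq σ hσ l
    ext1 t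
    have hσ' := hSf n q l σ hσ
    apply PF.act_inj (s n q (sface q l σ) t)
    rw [← hh n q (by omega) _ hσ' t, ← hsf (n + 1) q hq σ (hS n _ hσ) l, ← hsf n q hq σ hσ l]
    exact (hh n (q + 1) hq σ hσ _).symm
  set κn : ℕ → Sing (WF (k + 1) f) (2 * i + 1) → ℤ :=
    fun n τ => - a n ((prW f).comp τ) + ι (R n (2 * i + 1) τ) with hκn
  set E : ℕ → Sing (WF (k + 1) f) (2 * i) → ℤ := fun n τ =>
    if (prW f).comp τ ∈ S n (2 * i) then
      η n ((prW f).comp τ) + ε (h n (2 * i) ((prW f).comp τ)) (R (n + 1) (2 * i) τ)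
    else 0 with hE
  have step : ∀ n τ, (prW f).comp τ ∈ S n (2 * i + 1) →
      κn n τ = κn (n + 1) τ + dlt Pool.Agent.Helper922.HB.Sc.sface (2 * i) (E n) τ := by
    intro n τ hτ
    have h1 := hε (h n (2 * i + 1) ((prW f).comp τ)) (R (n + 1) (2 * i + 1) τ)
    rw [← hRa n (2 * i + 1) τ (by omega) hτ] at h1
    have h2 := hη n _ hτ
    rw [uu] at h2
    have h3 : dlt Pool.Agent.Helper922.HB.Sc.sface (2 * i) (E n) τ = dlt Pool.Agent.Helper922.HB.Sc.sface (2 * i) (η n) ((prW f).comp τ) +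
        ∑ l : Fin (2 * i + 2), (-1 : ℤ) ^ (l : ℕ) *
          ε (sface (2 * i) l (h n (2 * i + 1) ((prW f).comp τ)))
            (sface (2 * i) l (R (n + 1) (2 * i + 1) τ)) := by
      unfold dlt
      rw [← Finset.sum_add_distrib]
      refine Finset.sum_congr rfl fun l _ => ?_
      have hτ' : (prW f).comp (sface (2 * i) l τ) ∈ S n (2 * i) := hSf n (2 * i) l _ hτ
      simp only [hE, if_pos hτ']
      rw [hhf n (2 * i) (by omega) _ hτ l, hRf (n + 1) (2 * i) τ (by omega) (hS n _ hτ) l]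
      rw [smul_eq_mul, smul_eq_mul, mul_add]
      rfl
    simp only [hκn]
    rw [h3, h1, h2]
    ring
  -- the glued cochain
  set N : Sing (WF (k + 1) f) (2 * i + 1) → ℕ := fun τ => Nat.find (hSe _ ((prW f).comp τ)) with hN
  set κ' : Sing (WF (k + 1) f) (2 * i + 1) → ℤ := fun τ =>
    κn (N τ) τ + ∑ m ∈ Finset.range (N τ), dlt Pool.Agent.Helper922.HB.Sc.sface (2 * i) (E m) τ with hκ'
  have stab : ∀ n τ, (prW f).comp τ ∈ S n (2 * i + 1) →
      κ' τ = κn n τ + ∑ m ∈ Finset.range n, dlt Pool.Agent.Helper922.HB.Sc.sface (2 * i) (E m) τ := by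
    intro n τ hτ
    have hle : N τ ≤ n := Nat.find_min' _ hτ
    have hN0 : (prW f).comp τ ∈ S (N τ) (2 * i + 1) := Nat.find_spec (hSe _ ((prW f).comp τ))
    induction hle with
    | refl => rfl
    | @step m hm ih =>
      have hm' : (prW f).comp τ ∈ S m (2 * i + 1) := hSm _ hm hN0
      rw [ih hm', Finset.sum_range_succ, step m τ hm']
      ring
  refine ⟨κ', ?_, ?_⟩
  · funext τ
    obtain ⟨n, hn⟩ := hSe _ ((prW f).comp τ)
    have h1 : dlt Pool.Agent.Helper922.HB.Sc.sface (2 * i + 1) κ' τ = dlt Pool.Agent.Helper922.HB.Sc.sface (2 * i + 1) (κn n) τ +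
        dlt Pool.Agent.Helper922.HB.Sc.sface (2 * i + 1) (∑ m ∈ Finset.range n, dlt Pool.Agent.Helper922.HB.Sc.sface (2 * i) (E m)) τ := by
      rw [← Pi.add_apply, ← dlt_add]
      unfold dlt
      refine Finset.sum_congr rfl fun l _ => ?_
      rw [stab n (sface (2 * i + 1) l τ) (hSf n _ l _ hn)]
      simp only [Pi.add_apply, Finset.sum_apply]
      rfl
    have h2 : dlt Pool.Agent.Helper922.HB.Sc.sface (2 * i + 1) (∑ m ∈ Finset.range n, dlt Pool.Agent.Helper922.HB.Sc.sface (2 * i) (E m)) = 0 := by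
      rw [dlt_sum]
      exact Finset.sum_eq_zero fun m _ => dltX_dltX (2 * i) (E m)
    have h3 : dlt Pool.Agent.Helper922.HB.Sc.sface (2 * i + 1) (κn n) τ = - dlt Pool.Agent.Helper922.HB.Sc.sface (2 * i + 1) (a n) ((prW f).comp τ) +
        dlt Pool.Agent.Helper922.HB.Sc.sface (2 * i + 1) ι (R n (2 * i + 2) τ) := by
      unfold dlt
      rw [← Finset.sum_neg_distrib, ← Finset.sum_add_distrib]
      refine Finset.sum_congr rfl fun l _ => ?_
      rw [hRf n (2 * i + 1) τ (by omega) hn l]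
      simp only [hκn]
      rw [smul_add, smul_neg]
      rfl
    rw [h1, h2, h3, ha n _ hn, hι]
    simp
  · intro x p hp
    obtain ⟨n, hn⟩ := hSe _ (cst (2 * i + 2) x)
    have hn1 : cst (2 * i + 1) x ∈ S n (2 * i + 1) := hSf n (2 * i + 1) 0 _ hn
    have hn0 : cst (2 * i) x ∈ S n (2 * i) := hSf n (2 * i) 0 _ hn1
    set c : Ch (St (k + 1) r) (2 * i + 1) :=
      psh (jC (i + 1) k r hr) (2 * i + 1) (fund (2 * i + 1)) with hc
    have hcyc : sbd (St (k + 1) r) (2 * i) c = 0 := by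
      have h1 : sbd (Pc (2 * i + 1 + 1)) (2 * i) (fund (2 * i + 1)) = 0 := fund_cyc (2 * i + 1)
      have h2 := Sph.sbd_psh (jC (i + 1) k r hr) (2 * i) (fund (2 * i + 1))
      rw [hc]
      refine h2.trans ?_
      exact (congrArg (psh (jC (i + 1) k r hr) (2 * i)) h1).trans (map_zero _)
    have hpr : ∀ w : Sing (St (k + 1) r) (2 * i + 1),
        (prW f).comp ((fibW f x p hp (k + 1)).comp w) = cst (2 * i + 1) x := fun w => rfl
    -- base changes
    have hs2 : ∀ t, (s n (2 * i + 2) (cst (2 * i + 2) x) t).P = p.P := fun t =>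
      (hs n _ le_rfl _ hn t).trans hp.symm
    have hs1 : ∀ t, (s n (2 * i + 1) (cst (2 * i + 1) x) t).P = p.P := fun t =>
      (hs n _ (by omega) _ hn1 t).trans hp.symm
    have hs0 : ∀ t, (s n (2 * i) (cst (2 * i) x) t).P = p.P := fun t =>
      (hs n _ (by omega) _ hn0 t).trans hp.symm
    set G2 : Sing (GLr r) (2 * i + 2) := difS _ p hs2 with hG2
    set G1 : Sing (GLr r) (2 * i + 1) := difS _ p hs1 with hG1
    set G0 : Sing (GLr r) (2 * i) := difS _ p hs0 with hG0
    have hf2 : ∀ l, sface (2 * i + 1) l G2 = G1 := by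
      intro l
      ext1 t
      apply Units.ext
      have e := hsf n (2 * i + 1) (by omega) _ hn l
      have e2 : sface (2 * i + 1) l (cst (2 * i + 2) x) = cst (2 * i + 1) x := rfl
      rw [e2] at e
      have e3 := DFunLike.congr_fun e t
      exact congrArg (fun y : PF κ r => y.1.2 * p.1.1) e3
    have hf1 : ∀ l, sface (2 * i) l G1 = G0 := by
      intro l
      ext1 t
      apply Units.ext
      have e := hsf n (2 * i) (by omega) _ hn1 l
      have e2 : sface (2 * i) l (cst (2 * i + 1) x) = cst (2 * i) x := rfl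
      rw [e2] at e
      have e3 := DFunLike.congr_fun e t
      exact congrArg (fun y : PF κ r => y.1.2 * p.1.1) e3
    have hu : ι ((actSt (k + 1) r).comp (G1.prodMk (ContinuousMap.const _ (w0 i k r hr)))) = 0 := by
      have h1 : dlt Pool.Agent.Helper922.HB.Sc.sface (2 * i + 1) ι ((actSt (k + 1) r).comp
          (G2.prodMk (ContinuousMap.const _ (w0 i k r hr)))) = 0 := by
        rw [hι]; rfl
      have h2 : dlt Pool.Agent.Helper922.HB.Sc.sface (2 * i + 1) ι ((actSt (k + 1) r).comp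
          (G2.prodMk (ContinuousMap.const _ (w0 i k r hr)))) =
          ∑ l : Fin (2 * i + 1 + 2), ((-1 : ℤ) ^ (l : ℕ)) •
            ι ((actSt (k + 1) r).comp (G1.prodMk (ContinuousMap.const _ (w0 i k r hr)))) := by
        unfold dlt
        refine Finset.sum_congr rfl fun l _ => ?_
        rw [← hf2 l]
        rfl
      rw [h2, sum_alt, if_pos (odd_two_mul_add_one i)] at h1
      exact h1
    have han : a n (cst (2 * i + 1) x) = 0 := by
      have h1 := dltX_cst (2 * i + 1) (a n) x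
      rw [if_pos (odd_two_mul_add_one i), ha n _ hn, hz0] at h1
      exact h1.symm
    -- evaluation on a simplex
    have hev : ∀ w : Sing (St (k + 1) r) (2 * i + 1),
        κ' ((fibW f x p hp (k + 1)).comp w) = ι w + dlt Pool.Agent.Helper922.HB.Sc.sface (2 * i) (ε G0) w +
          ∑ m ∈ Finset.range n, dlt Pool.Agent.Helper922.HB.Sc.sface (2 * i) (E m) ((fibW f x p hp (k + 1)).comp w) := by
      intro w
      rw [stab n _ (by rw [hpr]; exact hn1)]
      congr 1
      simp only [hκn]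
      rw [hpr, han, hRe n (2 * i + 1) _ (by omega) (by rw [hpr]; exact hn1)]
      have e1 : rel (s n (2 * i + 1) ((prW f).comp ((fibW f x p hp (k + 1)).comp w)))
          ((fibW f x p hp (k + 1)).comp w) (fun t => hs n (2 * i + 1) (by omega) _
            (by rw [hpr]; exact hn1) t) = (actSt (k + 1) r).comp (G1.prodMk w) :=
        rel_fib _ x p hp w hs1 _
      rw [e1, hε G1 w, hu]
      have e2 : ∑ l : Fin (2 * i + 2), (-1 : ℤ) ^ (l : ℕ) *
          ε (sface (2 * i) l G1) (sface (2 * i) l w) = dlt Pool.Agent.Helper922.HB.Sc.sface (2 * i) (ε G0) w := by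
        unfold dlt
        refine Finset.sum_congr rfl fun l _ => ?_
        rw [hf1 l, smul_eq_mul]
      rw [e2]
      ring
    have hev2 : evm κ' (psh (fibW f x p hp (k + 1)) (2 * i + 1) c) =
        evm (fun w => κ' ((fibW f x p hp (k + 1)).comp w)) c :=
      (Alp.evm_psh' (fibW f x p hp (k + 1)) κ' c).symm
    have hev3 : (fun w => κ' ((fibW f x p hp (k + 1)).comp w)) =
        ι + dlt Pool.Agent.Helper922.HB.Sc.sface (2 * i) (ε G0 + ∑ m ∈ Finset.range n,
          fun w => E m ((fibW f x p hp (k + 1)).comp w)) := by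
      funext w
      rw [hev w, dlt_add, dlt_sum]
      simp only [Pi.add_apply, Finset.sum_apply]
      rw [add_assoc]
      rfl
    rw [hev2, hev3]
    have hadd : evm (ι + dlt Pool.Agent.Helper922.HB.Sc.sface (2 * i) (ε G0 + ∑ m ∈ Finset.range n,
        fun w => E m ((fibW f x p hp (k + 1)).comp w))) c = evm ι c +
        evm (dlt Pool.Agent.Helper922.HB.Sc.sface (2 * i) (ε G0 + ∑ m ∈ Finset.range n,
        fun w => E m ((fibW f x p hp (k + 1)).comp w))) c := by
      simp only [evm, Finsupp.linearCombination_apply, Finsupp.sum, Pi.add_apply, smul_add,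
        Finset.sum_add_distrib]
    rw [hadd, hι1, evm_dlt, hcyc, map_zero, add_zero]

end Pool.Agent.H904R2
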