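import Pool.Agent.H904R2.Fin1
import Pool.Agent.H904R2.Rho

/-! Normalised representatives of infinitely divisible classes. -/

set_option autoImplicit false

namespace Pool.Agent.H904R2

open Pool.Agent.Helper922.HB.Sc (Sing sface altd bd sbd cocycles coboundaries SingularCohomology)

section Reduction

variable {X : Type} [TopologicalSpace X]

/-- a class killed by all reductions is represented by a normalised, infinitely divisible cocycle -/
theorem exists_rep (n : ℕ) (hn : Odd n) (c : SingularCohomology ℤ X (n + 1))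
    (hc : ∀ m : ℕ, 1 ≤ m → rho m (n + 1) c = 0) :
    ∃ z : cocycles ℤ X (n + 1), Submodule.Quotient.mk z = c ∧
      (∀ x : X, z.1 (cst (n + 1) x) = 0) ∧
      ∀ k : ℕ, 0 < k → ∃ (y : Sing X (n + 1) → ℤ) (a : Sing X n → ℤ),
        z.1 = (k : ℤ) • y + dlt Pool.Agent.Helper922.HB.Sc.sface n a := by
  obtain ⟨z0, rfl⟩ := Submodule.Quotient.mk_surjective _ c
  let f : Sing X n → ℤ := fun σ => z0.1 (cst (n + 1) (bpt σ))
  have hcyc : dlt Pool.Agent.Helper922.HB.Sc.sface (n + 1) (z0.1 - dlt Pool.Agent.Helper922.HB.Sc.sface n f) = 0 := by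
    rw [dlt_sub, dltX_dltX, sub_zero, ← altd_eq_dlt]
    exact z0.2
  let z : cocycles ℤ X (n + 1) := ⟨z0.1 - dlt Pool.Agent.Helper922.HB.Sc.sface n f, by
    change altd ℤ (sface (X := X)) (n + 1) _ = 0
    rw [altd_eq_dlt]
    exact hcyc⟩
  have hzc : (Submodule.Quotient.mk z : SingularCohomology ℤ X (n + 1)) =
      Submodule.Quotient.mk z0 := by
    refine (Submodule.Quotient.eq _).2 ?_
    change z.1 - z0.1 ∈ coboundaries ℤ X (n + 1)
    refine ⟨-f, ?_⟩
    change altd ℤ (sface (X := X)) n (-f) = (z0.1 - dlt Pool.Agent.Helper922.HB.Sc.sface n f) - z0.1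
    rw [altd_eq_dlt, dlt_neg]
    abel
  refine ⟨z, hzc, ?_, ?_⟩
  · intro x
    change z0.1 (cst (n + 1) x) - dlt Pool.Agent.Helper922.HB.Sc.sface n f (cst (n + 1) x) = 0
    rw [dltX_cst, if_pos hn]
    exact sub_self _
  · intro k hk
    have h1 := hc k hk
    rw [← hzc] at h1
    have h2 : (Submodule.Quotient.mk (redC k (n + 1) z) : SingularCohomology (ZMod k) X (n + 1)) = 0 :=
      h1
    have h3 := (Submodule.Quotient.mk_eq_zero _).1 h2
    replace h3 : (redC k (n + 1) z).1 ∈ coboundaries (ZMod k) X (n + 1) := h3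
    obtain ⟨b, hb⟩ := h3
    choose a ha using fun σ : Sing X n => ZMod.intCast_surjective (b σ)
    have h4 : ∀ σ, (k : ℤ) ∣ (z.1 - dlt Pool.Agent.Helper922.HB.Sc.sface n a) σ := by
      intro σ
      have : NeZero k := ⟨hk.ne'⟩
      rw [← ZMod.intCast_zmod_eq_zero_iff_dvd _ k]
      have h5 := congrFun hb σ
      rw [Pool.Agent.Helper922.HB.Sc.altd_apply] at h5
      change _ = ((z.1 σ : ℤ) : ZMod k) at h5
      simp only [Pi.sub_apply, Int.cast_sub]
      rw [← h5, sub_eq_zero]
      unfold dlt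
      simp only [Int.cast_sum, smul_eq_mul, Int.cast_mul, Int.cast_pow, Int.cast_neg, Int.cast_one,
        ha]
    choose y hy using h4
    refine ⟨y, a, ?_⟩
    funext σ
    have := hy σ
    simp only [Pi.sub_apply, Pi.add_apply, Pi.smul_apply, smul_eq_mul] at this ⊢
    linarith

end Reduction

end Pool.Agent.H904R2
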