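import Pool.Agent.H904R2.Kstep

/-! Frames over a telescope. -/

set_option autoImplicit false

namespace Pool.Agent.H904R2

open Pool.Agent.Helper922.HB.Sc (Sing sface altd bd sbd)
open Topology

section

variable {X : Type} [TopologicalSpace X] {r : ℕ}

/-- partial products -/
noncomputable def QQ (h : ℕ → ∀ q, Sing X q → Sing (GLr r) q) : ℕ → ∀ q, Sing X q → Sing (GLr r) q
  | 0, _, _ => 1
  | (n + 1), q, σ => QQ h n q σ * h n q σ

theorem sface_mulG {q : ℕ} (l : Fin (q + 2)) (a b : Sing (GLr r) (q + 1)) :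
    sface q l (a * b) = sface q l a * sface q l b := rfl

theorem sface_invG {q : ℕ} (l : Fin (q + 2)) (a : Sing (GLr r) (q + 1)) :
    sface q l (a⁻¹) = (sface q l a)⁻¹ := rfl

theorem QQ_nat (S : ℕ → ∀ q, Set (Sing X q)) (hS : ∀ n q, S n q ⊆ S (n + 1) q)
    (h : ℕ → ∀ q, Sing X q → Sing (GLr r) q) (q : ℕ) (l : Fin (q + 2)) (σ : Sing X (q + 1))
    (hf : ∀ n, σ ∈ S n (q + 1) → sface q l (h n (q + 1) σ) = h n q (sface q l σ))
    (n k : ℕ) (hσ : σ ∈ S n (q + 1)) :
    sface q l ((QQ h n (q + 1) σ)⁻¹ * QQ h (n + k) (q + 1) σ) =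
      (QQ h n q (sface q l σ))⁻¹ * QQ h (n + k) q (sface q l σ) := by
  have hmem : ∀ k, σ ∈ S (n + k) (q + 1) := by
    intro k
    induction k with
    | zero => exact hσ
    | succ k ih => exact hS _ _ ih
  induction k with
  | zero =>
    change sface q l ((QQ h n (q + 1) σ)⁻¹ * QQ h n (q + 1) σ) =
      (QQ h n q (sface q l σ))⁻¹ * QQ h n q (sface q l σ)
    rw [inv_mul_cancel, inv_mul_cancel]
    rfl
  | succ k ih =>
    have e : ∀ (q' : ℕ) (σ' : Sing X q'), (QQ h n q' σ')⁻¹ * QQ h (n + (k + 1)) q' σ' =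
        ((QQ h n q' σ')⁻¹ * QQ h (n + k) q' σ') * h (n + k) q' σ' := by
      intro q' σ'
      rw [mul_assoc]
      rfl
    rw [e, e, sface_mulG, ih, hf _ (hmem k)]

theorem tel_main [T2Space X] [CWComplex (Set.univ : Set X)]
    (d : ℕ) (hd : ∀ n, d < n → IsEmpty (RelCWComplex.cell (Set.univ : Set X) n)) (D : ℕ)
    (hdD : d ≤ D + 1) (S : ℕ → ∀ q, Set (Sing X q)) (hS : ∀ n q, S n q ⊆ S (n + 1) q)
    (hSf : ∀ n q (l : Fin (q + 2)) (σ : Sing X (q + 1)), σ ∈ S n (q + 1) → sface q l σ ∈ S n q)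
    (hSe : ∀ q (σ : Sing X q), ∃ n, σ ∈ S n q) (h : ℕ → ∀ q, Sing X q → Sing (GLr r) q)
    (hf : ∀ n q, q ≤ D → ∀ σ ∈ S n (q + 1), ∀ l : Fin (q + 2),
      sface q l (h n (q + 1) σ) = h n q (sface q l σ)) :
    ∃ (κ : Type) (_ : Fintype κ) (_ : DecidableEq κ) (f : C(X, Matrix κ κ ℂ))
      (s : ℕ → ∀ q, Sing X q → Sing (PF κ r) q),
      (∀ n q, q ≤ D + 1 → ∀ (σ : Sing X q) t, (s n q σ t).P = f (σ t)) ∧
      (∀ n q, q ≤ D → ∀ σ ∈ S n (q + 1), ∀ l : Fin (q + 2),
        sface q l (s n (q + 1) σ) = s n q (sface q l σ)) ∧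
      (∀ n q (σ : Sing X q) t, s (n + 1) q σ t = (s n q σ t).act (h n q σ t)) := by
  classical
  let nn : ∀ q, Sing X q → ℕ := fun q σ => Nat.find (hSe q σ)
  have hnn : ∀ q σ, σ ∈ S (nn q σ) q := fun q σ => Nat.find_spec (hSe q σ)
  have hle : ∀ q σ n, σ ∈ S n q → nn q σ ≤ n := fun q σ n hn => Nat.find_min' _ hn
  have hnat : ∀ q, q ≤ D → ∀ (l : Fin (q + 2)) (σ : Sing X (q + 1)) (n m : ℕ), n ≤ m →
      σ ∈ S n (q + 1) → sface q l ((QQ h n (q + 1) σ)⁻¹ * QQ h m (q + 1) σ) =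
      (QQ h n q (sface q l σ))⁻¹ * QQ h m q (sface q l σ) := by
    intro q hq l σ n m hnm hσ
    obtain ⟨k, rfl⟩ := Nat.exists_eq_add_of_le hnm
    exact QQ_nat S hS h q l σ (fun n hn => hf n q hq σ hn l) n k hσ
  obtain ⟨κ, i1, i2, f, s', hs1, hs2⟩ := K_main d hd r D hdD
    (fun n l σ => (QQ h (nn n (sface n l σ)) n (sface n l σ))⁻¹ *
      QQ h (nn (n + 1) σ) n (sface n l σ)) (by
      intro n hn i j σ hij
      have hle1 : ∀ (q : ℕ) (l : Fin (q + 2)) (σ : Sing X (q + 1)),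
          nn q (sface q l σ) ≤ nn (q + 1) σ := fun q l σ => hle _ _ _ (hSf _ _ _ _ (hnn _ _))
      have e : sface n i (sface (n + 1) j.succ σ) = sface n j (sface (n + 1) i.castSucc σ) :=
        Pool.Agent.Helper922.HB.Sc.sface_sface n i j σ hij
      have key : ∀ (l : Fin (n + 2)) (m : Fin (n + 3)),
          ((QQ h (nn n (sface n l (sface (n + 1) m σ))) n (sface n l (sface (n + 1) m σ)))⁻¹ *
            QQ h (nn (n + 1) (sface (n + 1) m σ)) n (sface n l (sface (n + 1) m σ))) *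
          sface n l ((QQ h (nn (n + 1) (sface (n + 1) m σ)) (n + 1) (sface (n + 1) m σ))⁻¹ *
            QQ h (nn (n + 2) σ) (n + 1) (sface (n + 1) m σ)) =
          (QQ h (nn n (sface n l (sface (n + 1) m σ))) n (sface n l (sface (n + 1) m σ)))⁻¹ *
            QQ h (nn (n + 2) σ) n (sface n l (sface (n + 1) m σ)) := by
        intro l m
        rw [hnat n hn l _ _ _ (hle1 _ _ _) (hnn _ _)]
        group
      rw [key i j.succ, key j i.castSucc, e])
  refine ⟨κ, i1, i2, f, fun n q σ => ⟨fun t => (s' q σ t).act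
    (((QQ h (nn q σ) q σ)⁻¹ * QQ h n q σ : Sing (GLr r) q) t), ?_⟩, ?_, ?_, ?_⟩
  · have hc : Continuous (fun x : PF κ r × GLr r => x.1.act x.2) := by
      apply Continuous.subtype_mk
      refine Continuous.prodMk ?_ ?_
      · exact (continuous_fst.comp (continuous_subtype_val.comp continuous_fst)).matrix_mul
          (Units.continuous_val.comp continuous_snd)
      · exact (Units.continuous_val.comp (continuous_inv.comp continuous_snd)).matrix_mul
          (continuous_snd.comp (continuous_subtype_val.comp continuous_fst))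
    exact hc.comp ((s' q σ).continuous.prodMk
      (((QQ h (nn q σ) q σ)⁻¹ * QQ h n q σ : Sing (GLr r) q)).continuous)
  · intro n q hq σ t
    change ((s' q σ t).act _).P = _
    rw [PF.P_act]
    exact hs1 q hq σ t
  · intro n q hq σ hσ l
    have hle1 : nn (q + 1) σ ≤ n := hle _ _ _ hσ
    have h1 := hnat q hq l σ _ _ hle1 (hnn _ _)
    apply ContinuousMap.ext
    intro t
    have h2 := congrArg (fun g : Sing (GLr r) q => g t) h1
    have h3 := hs2 q hq σ l t
    change (sface q l (s' (q + 1) σ) t).act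
      (sface q l ((QQ h (nn (q + 1) σ) (q + 1) σ)⁻¹ * QQ h n (q + 1) σ) t) =
      (s' q (sface q l σ) t).act (((QQ h (nn q (sface q l σ)) q (sface q l σ))⁻¹ *
        QQ h n q (sface q l σ) : Sing (GLr r) q) t)
    rw [h3, h1, PF.act_act]
    congr 1
    simp only [ContinuousMap.mul_apply, ContinuousMap.inv_apply]
    group
  · intro n q σ t
    change (s' q σ t).act _ = ((s' q σ t).act _).act _
    rw [PF.act_act]
    congr 1
    simp only [ContinuousMap.mul_apply, ContinuousMap.inv_apply, QQ]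
    group

end

end Pool.Agent.H904R2
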