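import Pool.Agent.H904R2.Defs2
import Pool.Agent.H904R2.Alpha
import Pool.Agent.H904R2.Stiefel

/-! # Task T15 (helper143): the universal map `∏ K(ℤ, 2j+1) → GL_r(ℂ)`. -/

set_option autoImplicit false

namespace Pool.Agent.H904R2

open Finsupp
open Pool.Agent.Helper922.HB.Sc (Sing sface altd bd sbd)

namespace Unv

/-! ## The embeddings `GL_a → GL_r`, `A ↦ diag (A, 1)` -/

/-- `A ↦ diag (A, 1)` -/
noncomputable def embM (a k r : ℕ) (hr : a + k = r) :
    Matrix (Fin a) (Fin a) ℂ →* Matrix (Fin r) (Fin r) ℂ where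
  toFun A := (Matrix.fromBlocks A 0 0 (1 : Matrix (Fin k) (Fin k) ℂ)).submatrix
    (finSumFinEquiv.trans (finCongr hr)).symm (finSumFinEquiv.trans (finCongr hr)).symm
  map_one' := by rw [Matrix.fromBlocks_one, Matrix.submatrix_one_equiv]
  map_mul' A B := by
    rw [Matrix.submatrix_mul_equiv, Matrix.fromBlocks_multiply]
    simp

theorem continuous_embM (a k r : ℕ) (hr : a + k = r) : Continuous (embM a k r hr) := by
  change Continuous fun A : Matrix (Fin a) (Fin a) ℂ =>
    (Matrix.fromBlocks A 0 0 (1 : Matrix (Fin k) (Fin k) ℂ)).submatrix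
    (finSumFinEquiv.trans (finCongr hr)).symm (finSumFinEquiv.trans (finCongr hr)).symm
  exact (continuous_id.matrix_fromBlocks continuous_const continuous_const
    continuous_const).matrix_submatrix _ _

theorem embM_ge (a k r : ℕ) (hr : a + k = r) (A : Matrix (Fin a) (Fin a) ℂ) (m : Fin r)
    (hm : a ≤ m) : (embM a k r hr A).mulVec (Pi.single m 1) = Pi.single m 1 := by
  subst hr
  funext l
  rw [Matrix.mulVec_single_one]
  change (Matrix.fromBlocks A 0 0 (1 : Matrix (Fin k) (Fin k) ℂ))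
    (finSumFinEquiv.symm l) (finSumFinEquiv.symm m) = _
  obtain ⟨m, rfl⟩ := finSumFinEquiv.surjective m
  obtain ⟨l, rfl⟩ := finSumFinEquiv.surjective l
  rw [Equiv.symm_apply_apply, Equiv.symm_apply_apply]
  rcases m with m | m
  · simp at hm
    omega
  · rcases l with l | l
    · rw [Matrix.fromBlocks_apply₁₂, Pi.single_eq_of_ne]
      · rfl
      · intro h
        have := finSumFinEquiv.injective h
        simp at this
    · rw [Matrix.fromBlocks_apply₂₂]
      by_cases h : l = m
      · subst h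
        rw [Matrix.one_apply_eq, Pi.single_eq_same]
      · rw [Matrix.one_apply_ne h, Pi.single_eq_of_ne]
        intro h'
        have := finSumFinEquiv.injective h'
        simp at this
        exact h this

theorem embM_lt (a k r : ℕ) (hr : a + k = r) (A : Matrix (Fin a) (Fin a) ℂ) (m : Fin r)
    (hm : (m : ℕ) < a) : (embM a k r hr A).mulVec (Pi.single m 1) =
      jvec a r (fun l => A l ⟨m, hm⟩) := by
  subst hr
  funext l
  rw [Matrix.mulVec_single_one]
  change (Matrix.fromBlocks A 0 0 (1 : Matrix (Fin k) (Fin k) ℂ))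
    (finSumFinEquiv.symm l) (finSumFinEquiv.symm m) = _
  obtain ⟨m, rfl⟩ := finSumFinEquiv.surjective m
  obtain ⟨l, rfl⟩ := finSumFinEquiv.surjective l
  rw [Equiv.symm_apply_apply, Equiv.symm_apply_apply]
  rcases m with m | m
  · rcases l with l | l
    · rw [Matrix.fromBlocks_apply₁₁]
      have h1 : ((finSumFinEquiv (Sum.inl l) : Fin (a + k)) : ℕ) < a := by simp
      unfold jvec
      rw [dif_pos h1]
      congr 1
    · rw [Matrix.fromBlocks_apply₂₁]
      have h1 : ¬ ((finSumFinEquiv (Sum.inr l) : Fin (a + k)) : ℕ) < a := by simp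
      unfold jvec
      rw [dif_neg h1]
      rfl
  · simp at hm

/-- the embedding of groups -/
noncomputable def embG (a k r : ℕ) (hr : a + k = r) : GLr a →* GLr r := Units.map (embM a k r hr)

theorem embG_val (a k r : ℕ) (hr : a + k = r) (g : GLr a) :
    (embG a k r hr g : Matrix (Fin r) (Fin r) ℂ) = embM a k r hr g := rfl

theorem continuous_embG (a k r : ℕ) (hr : a + k = r) : Continuous (embG a k r hr) := by
  apply continuous_GLr
  exact (continuous_embM a k r hr).comp Units.continuous_val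

theorem act_ge (a k' i k r : ℕ) (hr' : a + k' = r) (hr : i + 1 + k = r) (h : a ≤ i) (g : GLr a) :
    actSt (k + 1) r (embG a k' r hr' g, w0 i k r hr) = w0 i k r hr := by
  apply Subtype.ext
  funext j
  rw [actSt_val, embG_val]
  exact embM_ge a k' r hr' _ _ (by
    change a ≤ i + (j : ℕ)
    omega)

theorem act_eq (i k r : ℕ) (hr : i + 1 + k = r) (g : GLr (i + 1)) :
    actSt (k + 1) r (embG (i + 1) k r hr g, w0 i k r hr) = jC (i + 1) k r hr (lcol i g) := by
  apply Subtype.ext
  funext j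
  rw [actSt_val, embG_val]
  refine Fin.cases ?_ (fun j => ?_) j
  · have h1 := embM_lt (i + 1) k r hr (g : Matrix (Fin (i + 1)) (Fin (i + 1)) ℂ)
      ⟨i + 0, by omega⟩ (by change i + 0 < i + 1; omega)
    refine Eq.trans h1 ?_
    change _ = jvec (i + 1) r (toC (i + 1) (lcol i g).1)
    congr 1
    funext l
    rw [toC_lcol]
    rfl
  · have h1 := embM_ge (i + 1) k r hr (g : Matrix (Fin (i + 1)) (Fin (i + 1)) ℂ)
      ⟨i + (j + 1), by omega⟩ (by change i + 1 ≤ i + (j + 1); omega)
    refine Eq.trans h1 ?_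
    change _ = (Pi.single (⟨i + 1 + j, by omega⟩ : Fin r) (1 : ℂ) : Fin r → ℂ)
    congr 1
    apply Fin.ext
    change i + ((j : ℕ) + 1) = i + 1 + j
    omega

/-- the embedding on singular simplices -/
noncomputable def embS (a k r : ℕ) (hr : a + k = r) (q : ℕ) :
    (SingG (GLr a)).Γ q →* (SingG (GLr r)).Γ q :=
  (embG a k r hr).compLeftContinuous (stdSimplex ℝ (Fin (q + 1))) (continuous_embG a k r hr)

theorem embS_d (a k r : ℕ) (hr : a + k = r) (q : ℕ) (l : Fin (q + 2)) (g : (SingG (GLr a)).Γ (q + 1)) :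
    (SingG (GLr r)).d q l (embS a k r hr (q + 1) g) =
      embS a k r hr q ((SingG (GLr a)).d q l g) := rfl

/-! ## The cochain `u` -/

variable (i k r : ℕ) (hr : i + 1 + k = r) (ι : Sing (St (k + 1) r) (2 * i + 1) → ℤ)

/-- `u` on the simplicial group -/
noncomputable def uS (g : (SingG (GLr r)).Γ (2 * i + 1)) : ℤ :=
  uu i k r hr ι (show Sing (GLr r) (2 * i + 1) from g)

theorem uS_mul (hι : dlt Pool.Agent.Helper922.HB.Sc.sface (2 * i + 1) ι = 0) :
    ∃ ε : (SingG (GLr r)).Γ (2 * i) → (SingG (GLr r)).Γ (2 * i) → ℤ,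
      (∀ g h, uS i k r hr ι (g * h) = uS i k r hr ι g + uS i k r hr ι h +
        ∑ l : Fin (2 * i + 2), (-1 : ℤ) ^ (l : ℕ) *
          ε ((SingG (GLr r)).d (2 * i) l g) ((SingG (GLr r)).d (2 * i) l h)) ∧
      ∀ g, ε g 1 = 0 := by
  obtain ⟨ε, hε, hε0⟩ := prod_formula (GLr r) (St (k + 1) r) 1 (w0 i k r hr) (actSt (k + 1) r)
    (actSt_one (k + 1) r) (2 * i) (even_two_mul i) (fun j hj => st_acyc i k r hr j hj) ι hι
  refine ⟨fun g h => ε (show Sing (GLr r) (2 * i) from g)
    ((actSt (k + 1) r).comp (ContinuousMap.prodMk (show Sing (GLr r) (2 * i) from h)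
      (ContinuousMap.const _ (w0 i k r hr)))), ?_, ?_⟩
  · intro g h
    have e1 : (actSt (k + 1) r).comp (ContinuousMap.prodMk
        (show Sing (GLr r) (2 * i + 1) from g * h) (ContinuousMap.const _ (w0 i k r hr))) =
        (actSt (k + 1) r).comp (ContinuousMap.prodMk (show Sing (GLr r) (2 * i + 1) from g)
          ((actSt (k + 1) r).comp (ContinuousMap.prodMk (show Sing (GLr r) (2 * i + 1) from h)
            (ContinuousMap.const _ (w0 i k r hr))))) := by
      apply ContinuousMap.ext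
      intro x
      exact actSt_mul _ _ _ _ _
    have e2 := hε (show Sing (GLr r) (2 * i + 1) from g)
      ((actSt (k + 1) r).comp (ContinuousMap.prodMk (show Sing (GLr r) (2 * i + 1) from h)
            (ContinuousMap.const _ (w0 i k r hr))))
    change ι ((actSt (k + 1) r).comp (ContinuousMap.prodMk
        (show Sing (GLr r) (2 * i + 1) from g * h) (ContinuousMap.const _ (w0 i k r hr)))) = _
    rw [e1, e2]
    change ι _ + ι _ + _ = ι _ + ι _ + _
    rw [add_comm (ι _) (ι _)]
    rfl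
  · intro g
    have e1 : (actSt (k + 1) r).comp (ContinuousMap.prodMk
        (show Sing (GLr r) (2 * i) from (1 : (SingG (GLr r)).Γ (2 * i)))
          (ContinuousMap.const _ (w0 i k r hr))) = ContinuousMap.const _ (w0 i k r hr) := by
      apply ContinuousMap.ext
      intro x
      exact actSt_one _ _ _
    change ε _ _ = 0
    rw [e1, hε0]

theorem ι_const (hι : dlt Pool.Agent.Helper922.HB.Sc.sface (2 * i + 1) ι = 0) (w : St (k + 1) r) :
    ι (ContinuousMap.const _ w) = 0 := by
  have h2 := dltX_cst (2 * i + 1) ι w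
  rw [if_pos (odd_two_mul_add_one i), hι] at h2
  exact h2.symm

theorem uS_one (hι : dlt Pool.Agent.Helper922.HB.Sc.sface (2 * i + 1) ι = 0) : uS i k r hr ι 1 = 0 := by
  have e1 : (actSt (k + 1) r).comp (ContinuousMap.prodMk
        (show Sing (GLr r) (2 * i + 1) from (1 : (SingG (GLr r)).Γ (2 * i + 1)))
          (ContinuousMap.const _ (w0 i k r hr))) = ContinuousMap.const _ (w0 i k r hr) := by
    apply ContinuousMap.ext
    intro x
    exact actSt_one _ _ _
  change ι _ = 0
  rw [e1]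
  exact ι_const i k r ι hι _

/-- the sum formula for products of natural families -/
theorem uS_prod (hι : dlt Pool.Agent.Helper922.HB.Sc.sface (2 * i + 1) ι = 0) {Y1 Y0 : Type} (δ : Fin (2 * i + 2) → Y1 → Y0)
    {J : Type} (f1 : J → Y1 → (SingG (GLr r)).Γ (2 * i + 1))
    (f0 : J → Y0 → (SingG (GLr r)).Γ (2 * i))
    (hf : ∀ j y l, (SingG (GLr r)).d (2 * i) l (f1 j y) = f0 j (δ l y)) (L : List J) :
    ∃ η : Y0 → ℤ, ∀ y, uS i k r hr ι (L.map fun j => f1 j y).prod =
      (L.map fun j => uS i k r hr ι (f1 j y)).sum +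
        ∑ l : Fin (2 * i + 2), (-1 : ℤ) ^ (l : ℕ) * η (δ l y) := by
  obtain ⟨ε, hε, -⟩ := uS_mul i k r hr ι hι
  induction L with
  | nil =>
    refine ⟨fun _ => 0, fun y => ?_⟩
    simp only [List.map_nil, List.prod_nil, List.sum_nil, mul_zero, Finset.sum_const_zero,
      add_zero]
    exact uS_one i k r hr ι hι
  | cons a L ih =>
    obtain ⟨η, hη⟩ := ih
    refine ⟨fun y => η y + ε (f0 a y) (L.map fun j => f0 j y).prod, fun y => ?_⟩
    have h1 : ∀ l, (SingG (GLr r)).d (2 * i) l (L.map fun j => f1 j y).prod =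
        (L.map fun j => f0 j (δ l y)).prod := by
      intro l
      rw [map_list_prod, List.map_map]
      congr 1
      apply List.map_congr_left
      intro j _
      exact hf j y l
    rw [List.map_cons, List.prod_cons, hε, hη, List.map_cons, List.sum_cons]
    simp only [h1, hf, mul_add, Finset.sum_add_distrib]
    ring

/-- the family `F` is trivial after embedding of a smaller group -/
theorem uS_lt (hι : dlt Pool.Agent.Helper922.HB.Sc.sface (2 * i + 1) ι = 0) (a k' : ℕ) (hr' : a + k' = r) (h : a ≤ i)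
    (g : (SingG (GLr a)).Γ (2 * i + 1)) : uS i k r hr ι (embS a k' r hr' (2 * i + 1) g) = 0 := by
  have e1 : (actSt (k + 1) r).comp (ContinuousMap.prodMk
        (show Sing (GLr r) (2 * i + 1) from embS a k' r hr' (2 * i + 1) g)
          (ContinuousMap.const _ (w0 i k r hr))) = ContinuousMap.const _ (w0 i k r hr) := by
    apply ContinuousMap.ext
    intro x
    exact act_ge a k' i k r hr' hr h _
  change ι _ = 0
  rw [e1]
  exact ι_const i k r ι hι _

theorem uS_eq (g : (SingG (GLr (i + 1))).Γ (2 * i + 1)) :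
    uS i k r hr ι (embS (i + 1) k r hr (2 * i + 1) g) =
      ι ((jC (i + 1) k r hr).comp ((lcol i).comp (show Sing (GLr (i + 1)) (2 * i + 1) from g))) := by
  have e1 : (actSt (k + 1) r).comp (ContinuousMap.prodMk
        (show Sing (GLr r) (2 * i + 1) from embS (i + 1) k r hr (2 * i + 1) g)
          (ContinuousMap.const _ (w0 i k r hr))) =
      (jC (i + 1) k r hr).comp
        ((lcol i).comp (show Sing (GLr (i + 1)) (2 * i + 1) from g)) := by
    apply ContinuousMap.ext
    intro x
    exact act_eq i k r hr _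
  change ι _ = _
  rw [e1]

/-- `u` is additive on spherical elements -/
theorem uS_zpow (hι : dlt Pool.Agent.Helper922.HB.Sc.sface (2 * i + 1) ι = 0) (α : (SingG (GLr (i + 1))).Γ (2 * i + 1))
    (hα : α ∈ (SingG (GLr (i + 1))).N (2 * i)) (n : ℤ) :
    uS i k r hr ι (embS (i + 1) k r hr (2 * i + 1) (α ^ n)) =
      n * uS i k r hr ι (embS (i + 1) k r hr (2 * i + 1) α) := by
  obtain ⟨ε, hε, hε0⟩ := uS_mul i k r hr ι hι
  let V : (SingG (GLr (i + 1))).N (2 * i) →* Multiplicative ℤ :=
    { toFun := fun ψ => Multiplicative.ofAdd (uS i k r hr ι (embS (i + 1) k r hr (2 * i + 1) ψ.1))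
      map_one' := by
        rw [Subgroup.coe_one, map_one, uS_one i k r hr ι hι]
        rfl
      map_mul' := by
        intro g h
        rw [← ofAdd_add, Subgroup.coe_mul, map_mul, hε, Finset.sum_eq_zero, add_zero]
        intro l _
        have h1 := (SymGrp.mem_N _ _ _).1 h.2 l
        rw [embS_d, embS_d, h1, map_one, hε0, mul_zero] }
  have h1 := map_zpow V ⟨α, hα⟩ n
  have h2 := congrArg Multiplicative.toAdd h1
  rw [toAdd_zpow] at h2
  exact h2

end Unv

open Unv in
theorem exists_U (r D : ℕ) (ι : ∀ i k : ℕ, i + 1 + k = r → Sing (St (k + 1) r) (2 * i + 1) → ℤ)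
    (hι : ∀ i k (hr : i + 1 + k = r), dlt Pool.Agent.Helper922.HB.Sc.sface (2 * i + 1) (ι i k hr) = 0 ∧
      evm (ι i k hr) (psh (jC (i + 1) k r hr) (2 * i + 1) (fund (2 * i + 1))) = 1) :
    ∃ (M : Fin r → ℤ) (F : ∀ q, (∀ j : Fin r, KZ (2 * j + 1) q) → Sing (GLr r) q),
      (∀ i, M i ≠ 0) ∧
      (∀ q, q ≤ D → ∀ (x : ∀ j : Fin r, KZ (2 * j + 1) (q + 1)) (l : Fin (q + 2)),
        sface q l (F (q + 1) x) = F q (fun j => kface (2 * j + 1) q l (x j))) ∧
      ∀ (i : Fin r) (k : ℕ) (hr : (i : ℕ) + 1 + k = r), 2 * (i : ℕ) ≤ D →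
        ∃ η : (∀ j : Fin r, KZ (2 * j + 1) (2 * i)) → ℤ,
        ∀ x : (∀ j : Fin r, KZ (2 * j + 1) (2 * i + 1)),
          uu i k r hr (ι i k hr) (F (2 * i + 1) x) = M i * kid (x i) +
            ∑ l : Fin (2 * (i : ℕ) + 2), (-1 : ℤ) ^ (l : ℕ) *
              η (fun j => kface (2 * j + 1) (2 * i) l (x j)) := by
  have hk : ∀ j : Fin r, (j : ℕ) + 1 + (r - 1 - j) = r := fun j => by
    have := j.2
    omega
  -- the spherical elements
  have hα : ∀ j : Fin r, ∃ α : (SingG (GLr ((j : ℕ) + 1))).Γ (2 * j + 1),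
      α ∈ (SingG (GLr ((j : ℕ) + 1))).N (2 * j) ∧
      uS j (r - 1 - j) r (hk j) (ι j (r - 1 - j) (hk j))
        (embS (j + 1) (r - 1 - j) r (hk j) (2 * j + 1) α) ≠ 0 := by
    intro j
    obtain ⟨h1, h2⟩ := hι j (r - 1 - j) (hk j)
    let ω : Sing (Pc (2 * ((j : ℕ) + 1))) (2 * j + 1) → ℤ := fun σ =>
      ι j (r - 1 - j) (hk j) ((jC ((j : ℕ) + 1) (r - 1 - j) r (hk j)).comp σ)
    have hω : dlt Pool.Agent.Helper922.HB.Sc.sface (2 * (j : ℕ) + 1) ω = 0 := by
      funext σ
      exact congrFun h1 ((jC ((j : ℕ) + 1) (r - 1 - j) r (hk j)).comp σ)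
    have hω1 : evm ω (fund (2 * (j : ℕ) + 1)) = 1 := by
      rw [← h2]
      exact Alp.evm_psh' _ _ _
    obtain ⟨α, hα, hα'⟩ := exists_alpha j ω hω hω1
    exact ⟨α, hα, fun h => hα'
      ((uS_eq j (r - 1 - j) r (hk j) (ι j (r - 1 - j) (hk j)) α).symm.trans h)⟩
  choose α hαN hα0 using hα
  have hF := fun j : Fin r => exists_F (SingG (GLr ((j : ℕ) + 1))) (2 * j) (α j) (hαN j) D
  choose N F hN hFd hF1 hFα using hF
  let E : ∀ (q : ℕ) (j : Fin r), (∀ j : Fin r, KZ (2 * j + 1) q) → (SingG (GLr r)).Γ q :=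
    fun q j x => embS (j + 1) (r - 1 - j) r (hk j) q (F j q (x j))
  refine ⟨fun j => N j * uS j (r - 1 - j) r (hk j) (ι j (r - 1 - j) (hk j))
        (embS (j + 1) (r - 1 - j) r (hk j) (2 * j + 1) (α j)),
    fun q x => ((List.finRange r).map fun j => E q j x).prod, fun j => mul_ne_zero (hN j) (hα0 j),
      ?_, ?_⟩
  · intro q hq x l
    have h1 : (SingG (GLr r)).d q l ((List.finRange r).map fun j => E (q + 1) j x).prod =
        ((List.finRange r).map fun j => E q j (fun j => kface (2 * j + 1) q l (x j))).prod := by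
      rw [map_list_prod, List.map_map]
      congr 1
      apply List.map_congr_left
      intro j _
      change (SingG (GLr r)).d q l (embS (j + 1) (r - 1 - j) r (hk j) (q + 1) (F j (q + 1) (x j))) =
        embS (j + 1) (r - 1 - j) r (hk j) q (F j q (kface (2 * j + 1) q l (x j)))
      rw [embS_d, hFd j q hq]
    exact h1
  · intro i k hr hiD
    have hkk : k = r - 1 - i := by omega
    subst hkk
    have hι0 := (hι i (r - 1 - i) hr).1
    obtain ⟨η, hη⟩ := uS_prod i (r - 1 - i) r hr (ι i (r - 1 - i) hr) hι0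
      (Y1 := ∀ j : Fin r, KZ (2 * j + 1) (2 * i + 1)) (Y0 := ∀ j : Fin r, KZ (2 * j + 1) (2 * i))
      (fun l x j => kface (2 * j + 1) (2 * i) l (x j)) (E (2 * i + 1) · ·) (E (2 * i) · ·) (by
        intro j x l
        change (SingG (GLr r)).d (2 * i) l
          (embS (j + 1) (r - 1 - j) r (hk j) (2 * i + 1) (F j (2 * i + 1) (x j))) =
            embS (j + 1) (r - 1 - j) r (hk j) (2 * i) (F j (2 * i) (kface (2 * j + 1) (2 * i) l (x j)))
        rw [embS_d, hFd j (2 * i) hiD]) (List.finRange r)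
    refine ⟨η, fun x => ?_⟩
    refine Eq.trans (hη x) ?_
    congr 1
    rw [← Fin.sum_univ_def, Finset.sum_eq_single i]
    · change uS i (r - 1 - i) r hr (ι i (r - 1 - i) hr)
        (embS (i + 1) (r - 1 - i) r (hk i) (2 * i + 1) (F i (2 * i + 1) (x i))) = _
      rw [hFα, uS_zpow _ _ _ _ _ hι0 _ (hαN i)]
      ring
    · intro j _ hj
      change uS i (r - 1 - i) r hr (ι i (r - 1 - i) hr)
        (embS (j + 1) (r - 1 - j) r (hk j) (2 * i + 1) (F j (2 * i + 1) (x j))) = 0
      rcases lt_or_gt_of_ne hj with h | h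
      · exact uS_lt i (r - 1 - i) r hr _ hι0 (j + 1) (r - 1 - j) (hk j) h _
      · have h2 : 2 * (i : ℕ) + 1 ≤ 2 * j := by
          have : (i : ℕ) < j := h
          omega
        rw [hF1 j _ h2, map_one]
        exact uS_one _ _ _ _ _ hι0
    · intro h
      exact absurd (Finset.mem_univ i) h

end Pool.Agent.H904R2
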