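import Pool.Agent.H904R2.Fin1
import Pool.Agent.H904R2.Rep
import Pool.Agent.H904R2.Tel
import Pool.Agent.H904R2.Bundle
import Pool.Agent.H904R2.Univ
import Pool.Agent.H904R2.Lmain
import Pool.Agent.H904R2.Defs3
import Pool.Agent.H904R2.Stiefel
import Pool.Agent.H904R2.Prod

/-! Final assembly. -/

set_option autoImplicit false

namespace Pool.Agent.H904R2

open Bundle Topology
open Pool.Agent.Helper922.HB.Sc (Sing sface altd bd sbd cocycles coboundaries SingularCohomology)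


section Main

/-- the exhaustion of the singular set -/
def SS {X : Type} [TopologicalSpace X] {r : ℕ} (T : ∀ i : Fin r, ℕ → Set (Sing X (2 * i + 1)))
    (n q : ℕ) : Set (Sing X q) :=
  {σ | ∀ (i : Fin r) (v : Fin (2 * (i : ℕ) + 1 + 1) → Fin (q + 1)), spull v σ ∈ T i n}

theorem main {X : Type} [TopologicalSpace X] [T2Space X] [CWComplex (Set.univ : Set X)]
    (d : ℕ) (hd : ∀ n, d < n → IsEmpty (RelCWComplex.cell (Set.univ : Set X) n)) (r : ℕ)
    (c : ∀ i : Fin r, SingularCohomology ℤ X (2 * (i : ℕ) + 2))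
    (hc : ∀ (i : Fin r) (m : ℕ), 1 ≤ m → rho m _ (c i) = 0) :
    ∃ (E : X → Type) (_ : TopologicalSpace (TotalSpace (Fin r → ℂ) E))
      (_ : ∀ x, AddCommGroup (E x)) (_ : ∀ x, Module ℂ (E x)) (_ : ∀ x, TopologicalSpace (E x))
      (_ : FiberBundle (Fin r → ℂ) E) (_ : VectorBundle ℂ (Fin r → ℂ) E),
      ∀ (i : Fin r) (k : ℕ) (hr : (i : ℕ) + 1 + k = r), IsChern r E i k hr (c i) := by
  classical
  choose ι hι hι1 using fun (i k : ℕ) (hr : i + 1 + k = r) => st_coc i k r hr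
  have hι' : ∀ i k hr, dlt Pool.Agent.Helper922.HB.Sc.sface (2 * i + 1) (ι i k hr) = 0 := by
    intro i k hr
    rw [← altd_eq_dlt]
    exact hι i k hr
  let D := d + 2 * r
  obtain ⟨M, F, hM, hF, hU⟩ := exists_U r D ι (fun i k hr => ⟨hι' i k hr, hι1 i k hr⟩)
  choose z hz hz0 hzd using fun i : Fin r =>
    exists_rep (2 * (i : ℕ) + 1) ⟨(i : ℕ), rfl⟩ (c i) (hc i)
  choose z' e T a h1 h2 h3 h4 using fun i : Fin r =>
    exists_Tz (2 * (i : ℕ) + 1) ⟨(i : ℕ), rfl⟩ (z i).1 (hzd i) (M i) (hM i)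
  -- the exhaustion
  have hSmono : ∀ n q, SS T n q ⊆ SS T (n + 1) q := by
    intro n q σ hσ i v
    exact h2 i (Nat.le_succ n) (hσ i v)
  have hSpull : ∀ n p q (θ : Fin (p + 1) → Fin (q + 1)) (σ : Sing X q), σ ∈ SS T n q →
      spull θ σ ∈ SS T n p := by
    intro n p q θ σ hσ i v
    rw [spull_spull]
    exact hσ i _
  have hSf : ∀ n q (l : Fin (q + 2)) (σ : Sing X (q + 1)), σ ∈ SS T n (q + 1) →
      sface q l σ ∈ SS T n q := by
    intro n q l σ hσ
    rw [sface_eq_spull]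
    exact hSpull _ _ _ _ _ hσ
  have hSe : ∀ q (σ : Sing X q), ∃ n, σ ∈ SS T n q := by
    intro q σ
    choose n hn using fun (x : Σ i : Fin r, (Fin (2 * (i : ℕ) + 1 + 1) → Fin (q + 1))) =>
      h3 x.1 (spull x.2 σ)
    refine ⟨Finset.univ.sup n, ?_⟩
    intro i v
    exact h2 i (Finset.le_sup (f := n) (Finset.mem_univ ⟨i, v⟩)) (hn ⟨i, v⟩)
  -- the differences
  let b : ∀ (i : Fin r), ℕ → Sing X (2 * (i : ℕ) + 1) → ℤ := fun i n => a i n - a i (n + 1)
  have hTS : ∀ n (i : Fin r) (σ : Sing X (2 * (i : ℕ) + 1)), σ ∈ SS T n _ → σ ∈ T i n := by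
    intro n i σ hσ
    have := hσ i id
    rwa [spull_id] at this
  have ha : ∀ n (i : Fin r), ∀ σ ∈ SS T n (2 * (i : ℕ) + 1 + 1), dlt Pool.Agent.Helper922.HB.Sc.sface _ (a i n) σ = z' i σ := by
    intro n i σ hσ
    exact h4 i n σ fun l => hTS n i _ (hSf _ _ _ _ hσ)
  have hb : ∀ n (i : Fin r) q (σ : Sing X q), σ ∈ SS T n q →
      ∀ v : Fin (2 * (i : ℕ) + 1 + 2) → Fin (q + 1),
        dlt Pool.Agent.Helper922.HB.Sc.sface (2 * (i : ℕ) + 1) (b i n) (spull v σ) = 0 := by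
    intro n i q σ hσ v
    have h5 : spull v σ ∈ SS T n (2 * (i : ℕ) + 1 + 1) := hSpull _ _ _ _ _ hσ
    have h6 : dlt Pool.Agent.Helper922.HB.Sc.sface (2 * (i : ℕ) + 1) (b i n) = dlt Pool.Agent.Helper922.HB.Sc.sface (2 * (i : ℕ) + 1) (a i n) -
      dlt Pool.Agent.Helper922.HB.Sc.sface (2 * (i : ℕ) + 1) (a i (n + 1)) := dlt_sub _ _ _ _
    rw [h6, Pi.sub_apply, ha n i _ h5, ha (n + 1) i _ (hSmono _ _ h5), sub_self]
  let h : ℕ → ∀ q, Sing X q → Sing (GLr r) q := fun n q σ =>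
    F q (fun j => resK (2 * (j : ℕ) + 1) (b j n) q σ)
  have hf : ∀ n q, q ≤ D → ∀ σ ∈ SS T n (q + 1), ∀ l : Fin (q + 2),
      sface q l (h n (q + 1) σ) = h n q (sface q l σ) := by
    intro n q hq σ hσ l
    change sface q l (F (q + 1) _) = F q _
    rw [hF q hq]
    congr 1
    funext j
    exact resK_face _ _ _ _ _ (hb n j _ σ hσ)
  obtain ⟨κ, i1, i2, f, s, hs1, hs2, hs3⟩ := tel_main d hd D (by omega) (SS T) hSmono hSf hSe h hf
  obtain ⟨E, j1, j2, j3, j4, j5, j6, hE⟩ := bundle_main (r := r) f (fun x =>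
    ⟨s 0 0 (cst 0 x) (stdSimplex.vertex 0), by
      rw [hs1 0 0 (by omega)]
      rfl⟩)
  refine ⟨E, j1, j2, j3, j4, j5, j6, ?_⟩
  intro i k hr
  have hi2 : (i : ℕ) < r := i.2
  obtain ⟨η, hη⟩ := hU i k hr (by omega)
  obtain ⟨κ', hκ1, hκ2⟩ := L_main f i k hr (ι i k hr) (hι' i k hr) (hι1 i k hr) (z i).1 (hz0 i)
    (SS T) hSmono hSf hSe s (fun n q hq σ _ t => hs1 n q (by omega) σ t)
    (fun n q hq σ hσ l => hs2 n q (by omega) σ hσ l)
    (fun n => M i • a i n + e i) (by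
      intro n σ hσ
      rw [dlt_add, dlt_smul, h1 i]
      simp only [Pi.add_apply, Pi.smul_apply]
      rw [ha n i σ hσ]) h (fun n q _ σ _ t => hs3 n q σ t)
    (fun n σ => η (fun j => resK (2 * (j : ℕ) + 1) (b j n) (2 * (i : ℕ)) σ)) (by
      intro n σ hσ
      have h5 := hη (fun j => resK (2 * (j : ℕ) + 1) (b j n) (2 * (i : ℕ) + 1) σ)
      refine h5.trans ?_
      have h6 : kid (resK (2 * (i : ℕ) + 1) (b i n) (2 * (i : ℕ) + 1) σ) = a i n σ - a i (n + 1) σ := by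
        unfold kid
        rw [resK_val _ _ _ _ (hb n i _ σ hσ), spull_id]
        rfl
      rw [h6]
      congr 1
      · simp only [Pi.add_apply, Pi.smul_apply, smul_eq_mul]
        ring
      · unfold dlt
        refine Finset.sum_congr rfl fun l _ => ?_
        rw [smul_eq_mul]
        congr 2
        funext j
        exact resK_face _ _ _ _ _ (hb n j _ σ hσ))
  obtain ⟨g, hg1, hg2⟩ := hE k
  refine ⟨z i, hz i, hz0 i, fun τ => κ' (g.comp τ), ?_, ?_⟩
  · intro τ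
    have h7 : altd ℤ (sface (X := FrE r E (k + 1))) (2 * (i : ℕ) + 1) (fun τ => κ' (g.comp τ)) τ =
        altd ℤ (sface (X := WF (k + 1) f)) (2 * (i : ℕ) + 1) κ' (g.comp τ) := rfl
    rw [h7, altd_eq_dlt, hκ1]
    have h8 : (prW f).comp (g.comp τ) = (prE r E k).comp τ := by
      apply ContinuousMap.ext
      intro t
      exact hg1 (τ t)
    change - (z i).1 ((prW f).comp (g.comp τ)) = _
    rw [h8]
  · intro x φ
    obtain ⟨p, hp, hpw⟩ := hg2 x φ
    rw [← hκ2 x p hp]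
    have h9 : g.comp ((fibE r E k x φ).comp (jC ((i : ℕ) + 1) k r hr)) =
        (fibW f x p hp (k + 1)).comp (jC ((i : ℕ) + 1) k r hr) := by
      apply ContinuousMap.ext
      intro w
      exact hpw _
    rw [Sph.psh_comp, ← h9, ← Sph.psh_comp _ g]
    exact (evm_psh g κ' _).symm

end Main

end Pool.Agent.H904R2
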