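import Pool.Agent.H904R2.Fin2
import Pool.Agent.H904R2.Chern

/-! The theorem in terms of the bundled definitions. -/

set_option autoImplicit false

namespace Pool.Agent.H904R2

open Bundle Topology
open Pool.Agent.Helper922.HB.Sc (Sing sface altd bd sbd cocycles coboundaries SingularCohomology)

theorem cobd_eq {X : Type} [TopologicalSpace X] (n : ℕ) (f : Sing X n → ℤ) :
    cobd n f = altd ℤ (sface (X := X)) n f := rfl

theorem evl_eq {X : Type} [TopologicalSpace X] {n : ℕ} (f : Sing X n → ℤ) (z : Ch X n) :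
    evl f z = evm f z := rfl

theorem pushc_eq {X Y : Type} [TopologicalSpace X] [TopologicalSpace Y] (f : C(X, Y)) (n : ℕ)
    (z : Ch X n) : pushc f n z = psh f n z := rfl

theorem fundc_eq (n : ℕ) : fundc n = fund n := by
  unfold fundc fund
  refine Finset.sum_congr rfl fun i _ => ?_
  rw [Finsupp.smul_single, smul_eq_mul, mul_one]

theorem isChern_iff {X : Type} [TopologicalSpace X] {r : ℕ} (V : CVB X r) (i k : ℕ)
    (hr : i + 1 + k = r) (c : SingularCohomology ℤ X (2 * i + 2)) :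
    V.IsChern i k hr c ↔ IsChern r V.E i k hr c := by
  constructor
  · rintro ⟨z, ⟨hz, hzc⟩, hz0, κ, h1, h2⟩
    refine ⟨⟨z, hz⟩, hzc, hz0, κ, h1, ?_⟩
    intro x φ
    have h3 := h2 x φ
    rw [evl_eq, CVB.cyc, pushc_eq, fundc_eq] at h3
    exact h3
  · rintro ⟨z, hzc, hz0, κ, h1, h2⟩
    refine ⟨z.1, ⟨z.2, hzc⟩, hz0, κ, h1, ?_⟩
    intro x φ
    rw [evl_eq, CVB.cyc, pushc_eq, fundc_eq]
    exact h2 x φ

theorem main' {X : Type} [TopologicalSpace X] [T2Space X] [CWComplex (Set.univ : Set X)]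
    (d : ℕ) (hd : ∀ n, d < n → IsEmpty (RelCWComplex.cell (Set.univ : Set X) n)) (r : ℕ)
    (c : ∀ i : Fin r, SingularCohomology ℤ X (2 * (i : ℕ) + 2))
    (hc : ∀ (i : Fin r) (m : ℕ), 1 ≤ m → rho m _ (c i) = 0) :
    ∃ V : CVB X r, ∀ (i : Fin r) (k : ℕ) (hr : (i : ℕ) + 1 + k = r), V.IsChern i k hr (c i) := by
  obtain ⟨E, j1, j2, j3, j4, j5, j6, h⟩ := main d hd r c hc
  refine ⟨@CVB.mk X _ r E j1 j2 j3 j4 j5 j6, ?_⟩
  intro i k hr
  exact (isChern_iff _ i k hr (c i)).2 (h i k hr)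

end Pool.Agent.H904R2
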