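import Pool.Agent.H904R2.PF

/-! T11: matching families on the faces and the extension of a frame from the boundary. -/

set_option autoImplicit false

namespace Pool.Agent.H904R2

open Pool.Agent.Helper922.HB.Sc (Sing sface altd bd sbd)

namespace FrExt

theorem map_at {n : ℕ} (i : Fin (n + 2)) (x : stdSimplex ℝ (Fin (n + 1))) :
    (stdSimplex.map i.succAbove x).1 i = 0 := by
  change (FunOnFinite.linearMap ℝ ℝ i.succAbove x.1) i = 0
  rw [FunOnFinite.linearMap_apply_apply]
  apply Finset.sum_eq_zero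
  intro j hj
  simp only [Finset.mem_filter] at hj
  exact absurd hj.2 (Fin.succAbove_ne i j)

theorem map_succ {n : ℕ} (i : Fin (n + 2)) (x : stdSimplex ℝ (Fin (n + 1))) (l : Fin (n + 1)) :
    (stdSimplex.map i.succAbove x).1 (i.succAbove l) = x.1 l := by
  change (FunOnFinite.linearMap ℝ ℝ i.succAbove x.1) (i.succAbove l) = x.1 l
  rw [FunOnFinite.linearMap_apply_apply]
  rw [Finset.sum_eq_single l]
  · intro j hj hne
    simp only [Finset.mem_filter] at hj
    exact absurd (Fin.succAbove_right_injective hj.2) hne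
  · intro h
    simp at h

/-- the preimage of a point of the face -/
noncomputable def zz {n : ℕ} (i : Fin (n + 2)) (x : stdSimplex ℝ (Fin (n + 2))) (h : x.1 i = 0) :
    stdSimplex ℝ (Fin (n + 1)) :=
  ⟨fun l => x.1 (i.succAbove l), fun l => x.2.1 _, by
    have h1 := x.2.2
    rw [Fin.sum_univ_succAbove _ i, h, zero_add] at h1
    exact h1⟩

theorem ext_face {n : ℕ} (i : Fin (n + 2)) (x y : stdSimplex ℝ (Fin (n + 2)))
    (h1 : x.1 i = y.1 i) (h2 : ∀ l, x.1 (i.succAbove l) = y.1 (i.succAbove l)) : x = y := by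
  apply Subtype.ext
  funext k
  by_cases hk : k = i
  · rw [hk, h1]
  · obtain ⟨l, rfl⟩ := Fin.exists_succAbove_eq hk
    exact h2 l

theorem map_zz {n : ℕ} (i : Fin (n + 2)) (x : stdSimplex ℝ (Fin (n + 2))) (h : x.1 i = 0) :
    stdSimplex.map i.succAbove (zz i x h) = x := by
  apply ext_face i
  · rw [map_at, h]
  · intro l
    rw [map_succ]
    rfl

theorem map_inj {n : ℕ} (i : Fin (n + 2)) (x y : stdSimplex ℝ (Fin (n + 1)))
    (h : stdSimplex.map i.succAbove x = stdSimplex.map i.succAbove y) : x = y := by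
  apply Subtype.ext
  funext k
  rw [← map_succ i x k, ← map_succ i y k, h]

end FrExt

open FrExt

theorem match_pt_lt {Y : Type} [TopologicalSpace Y] (m : ℕ) (b : Fin (m + 3) → Sing Y (m + 1))
    (hb : ∀ i j : Fin (m + 2), i ≤ j → sface m i (b j.succ) = sface m j (b i.castSucc))
    (i j : Fin (m + 2)) (hij : i ≤ j) (x y : stdSimplex ℝ (Fin (m + 2)))
    (h : stdSimplex.map i.castSucc.succAbove x = stdSimplex.map j.succ.succAbove y) :
    b i.castSucc x = b j.succ y := by
  have hx : x.1 j = 0 := by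
    rw [← map_succ i.castSucc x j, h]
    have : i.castSucc.succAbove j = j.succ := Fin.succAbove_of_le_castSucc _ _
      (Fin.castSucc_le_castSucc_iff.2 hij)
    rw [this, map_at]
  have hy : y.1 i = 0 := by
    rw [← map_succ j.succ y i, ← h]
    have : j.succ.succAbove i = i.castSucc := Fin.succAbove_of_castSucc_lt _ _
      (by rw [Fin.lt_def]; simp only [Fin.val_castSucc, Fin.val_succ]; rw [Fin.le_def] at hij; omega)
    rw [this, map_at]
  have hz : zz j x hx = zz i y hy := by
    apply Subtype.ext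
    funext l
    change x.1 (j.succAbove l) = y.1 (i.succAbove l)
    rw [← map_succ i.castSucc x, h,
      ← Pool.Agent.Helper922.HB.Sc.succAbove_comm i j hij l, map_succ]
  have h1 : (sface m j (b i.castSucc)) (zz j x hx) = b i.castSucc x := by
    change b i.castSucc (stdSimplex.map j.succAbove (zz j x hx)) = _
    rw [map_zz]
  have h2 : (sface m i (b j.succ)) (zz i y hy) = b j.succ y := by
    change b j.succ (stdSimplex.map i.succAbove (zz i y hy)) = _
    rw [map_zz]
  rw [← h1, ← h2, hb i j hij, hz]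

/-- T11 (file FrExt.lean): a matching family on the faces agrees pointwise -/
theorem match_pt {Y : Type} [TopologicalSpace Y] (m : ℕ) (b : Fin (m + 3) → Sing Y (m + 1))
    (hb : ∀ i j : Fin (m + 2), i ≤ j → sface m i (b j.succ) = sface m j (b i.castSucc)) :
    ∀ (i j : Fin (m + 3)) (x y : stdSimplex ℝ (Fin (m + 2))),
      stdSimplex.map i.succAbove x = stdSimplex.map j.succAbove y → b i x = b j y := by
  have key : ∀ (i j : Fin (m + 3)) (x y : stdSimplex ℝ (Fin (m + 2))), i < j →
      stdSimplex.map i.succAbove x = stdSimplex.map j.succAbove y → b i x = b j y := by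
    intro i j x y hij h
    have hi : i ≠ Fin.last (m + 2) := fun h' => by
      rw [h'] at hij; exact absurd hij (not_lt.2 (Fin.le_last j))
    have hj : j ≠ 0 := fun h' => by rw [h'] at hij; exact absurd hij (Fin.not_lt_zero i)
    obtain ⟨i', rfl⟩ := Fin.exists_castSucc_eq.2 hi
    obtain ⟨j', rfl⟩ := Fin.exists_succ_eq.2 hj
    refine match_pt_lt m b hb i' j' ?_ x y h
    rw [Fin.lt_def] at hij
    rw [Fin.le_def]
    simp only [Fin.val_castSucc, Fin.val_succ] at hij
    omega
  intro i j x y h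
  rcases lt_trichotomy i j with hij | hij | hij
  · exact key i j x y hij h
  · subst hij
    rw [map_inj i x y h]
  · exact (key j i y x hij h.symm).symm

/-- T11: the case of dimension `0` -/
theorem match_pt0 {Y : Type} [TopologicalSpace Y] (b : Fin 2 → Sing Y 0) :
    ∀ (i j : Fin 2) (x y : stdSimplex ℝ (Fin 1)),
      stdSimplex.map i.succAbove x = stdSimplex.map j.succAbove y → b i x = b j y := by
  intro i j x y h
  have hx : ∀ x : stdSimplex ℝ (Fin 1), x.1 0 = 1 := fun x => by
    have := x.2.2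
    simpa using this
  have hxy : x = y := by
    apply Subtype.ext
    funext k
    rw [Subsingleton.elim k 0, hx x, hx y]
  have hij : i = j := by
    by_contra hne
    obtain ⟨l, hl⟩ := Fin.exists_succAbove_eq hne
    have h1 : (stdSimplex.map i.succAbove x).1 i = 0 := map_at i x
    rw [h, ← hl, map_succ, Subsingleton.elim l 0, hx y] at h1
    exact one_ne_zero h1
  rw [hij, hxy]

namespace FrExt

/-- the closed set of the points of the face -/
def Fc {n : ℕ} (i : Fin (n + 2)) : Set (stdSimplex ℝ (Fin (n + 2))) := {x | x.1 i = 0}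

theorem isClosed_Fc {n : ℕ} (i : Fin (n + 2)) : IsClosed (Fc i) :=
  isClosed_eq ((continuous_apply i).comp continuous_subtype_val) continuous_const

theorem continuous_zz {n : ℕ} (i : Fin (n + 2)) :
    Continuous (fun x : Fc i => zz i x.1 x.2) := by
  apply Continuous.subtype_mk
  refine continuous_pi fun l => ?_
  exact (continuous_apply _).comp (continuous_subtype_val.comp continuous_subtype_val)

/-- the boundary -/
def Bd (n : ℕ) : Set (stdSimplex ℝ (Fin (n + 2))) := ⋃ i, Fc i

/-- gluing -/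
theorem glue {Y : Type} [TopologicalSpace Y] (n : ℕ) (b : Fin (n + 2) → Sing Y n)
    (hb : ∀ (i j : Fin (n + 2)) (x y : stdSimplex ℝ (Fin (n + 1))),
      stdSimplex.map i.succAbove x = stdSimplex.map j.succAbove y → b i x = b j y) :
    ∃ g : C(Bd n, Y),
      ∀ (i : Fin (n + 2)) (t : stdSimplex ℝ (Fin (n + 1)))
        (h : stdSimplex.map i.succAbove t ∈ Bd n),
        g ⟨stdSimplex.map i.succAbove t, h⟩ = b i t := by
  classical
  have hx1 : Nonempty (stdSimplex ℝ (Fin (n + 1))) := inferInstance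
  have hx0 : Nonempty Y := hx1.map (b 0)
  let G : stdSimplex ℝ (Fin (n + 2)) → Y := fun x =>
    if h : ∃ i, x.1 i = 0 then b h.choose (zz h.choose x h.choose_spec) else Classical.arbitrary Y
  have hG : ∀ (i : Fin (n + 2)) (x : stdSimplex ℝ (Fin (n + 2))) (h : x.1 i = 0),
      G x = b i (zz i x h) := by
    intro i x h
    have hex : ∃ i, x.1 i = 0 := ⟨i, h⟩
    simp only [G, dif_pos hex]
    apply hb
    rw [map_zz, map_zz]
  have hc : ContinuousOn G (Bd n) := by
    unfold Bd
    apply LocallyFinite.continuousOn_iUnion (locallyFinite_of_finite _) isClosed_Fc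
    intro i
    rw [continuousOn_iff_continuous_domRestrict]
    have : (Fc i).domRestrict G = fun x : Fc i => b i (zz i x.1 x.2) := by
      funext x
      exact hG i x.1 x.2
    rw [this]
    exact (b i).continuous.comp (continuous_zz i)
  refine ⟨⟨(Bd n).domRestrict G, continuousOn_iff_continuous_domRestrict.1 hc⟩, ?_⟩
  intro i t h
  change G (stdSimplex.map i.succAbove t) = b i t
  rw [hG i _ (map_at i t)]
  apply hb
  rw [map_zz]


variable {κ : Type} [Fintype κ]

theorem cfst {r : ℕ} : Continuous (fun p : PF κ r => p.1.1) :=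
  continuous_fst.comp continuous_subtype_val

theorem csnd {r : ℕ} : Continuous (fun p : PF κ r => p.1.2) :=
  continuous_snd.comp continuous_subtype_val

theorem nu_cont {X : Type} [TopologicalSpace X] {r : ℕ} (M : X → Matrix (Fin r) (Fin r) ℂ)
    (hM : Continuous M) : Continuous (fun t => ∑ i, ∑ j, ‖(1 - M t) i j‖) := by
  refine continuous_finsetSum _ fun i _ => continuous_finsetSum _ fun j _ => ?_
  exact ((continuous_const.sub hM).matrix_elem i j).norm

theorem nu_zero {r : ℕ} (M : Matrix (Fin r) (Fin r) ℂ) (h : ∑ i, ∑ j, ‖(1 - M) i j‖ = 0) :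
    M = 1 := by
  have h1 := (Finset.sum_eq_zero_iff_of_nonneg (fun i _ => Finset.sum_nonneg
    fun j _ => norm_nonneg ((1 - M) i j))).1 h
  ext i j
  have h2 := (Finset.sum_eq_zero_iff_of_nonneg (fun j _ => norm_nonneg ((1 - M) i j))).1
    (h1 i (Finset.mem_univ i)) j (Finset.mem_univ j)
  rw [norm_eq_zero, Matrix.sub_apply, sub_eq_zero] at h2
  exact h2.symm

theorem le_nu {r : ℕ} (M : Matrix (Fin r) (Fin r) ℂ) (i j : Fin r) :
    ‖(1 - M) i j‖ ≤ ∑ i, ∑ j, ‖(1 - M) i j‖ := by
  refine le_trans ?_ (Finset.single_le_sum (f := fun i => ∑ j, ‖(1 - M) i j‖)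
    (fun i _ => Finset.sum_nonneg fun j _ => norm_nonneg _) (Finset.mem_univ i))
  exact Finset.single_le_sum (f := fun j => ‖(1 - M) i j‖) (fun j _ => norm_nonneg _)
    (Finset.mem_univ j)

/-- factorisation of `1 - M` -/
theorem factor {X : Type} [TopologicalSpace X] {r : ℕ} (M : X → Matrix (Fin r) (Fin r) ℂ)
    (hM : Continuous M) : ∃ C D : X → Matrix (Fin r) (Fin r) ℂ, Continuous C ∧ Continuous D ∧
      (∀ t, M t + D t * C t = 1) ∧ (∀ t, M t = 1 → C t = 0 ∧ D t = 0) := by
  set ν : X → ℝ := fun t => ∑ i, ∑ j, ‖(1 - M t) i j‖ with hν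
  have hνc : Continuous ν := nu_cont M hM
  have hν0 : ∀ t, 0 ≤ ν t := fun t =>
    Finset.sum_nonneg fun i _ => Finset.sum_nonneg fun j _ => norm_nonneg _
  have hsc : Continuous (fun t => Real.sqrt (ν t)) := hνc.sqrt
  refine ⟨fun t => ((Real.sqrt (ν t) : ℂ)⁻¹) • (1 - M t),
    fun t => (Real.sqrt (ν t) : ℂ) • (1 : Matrix (Fin r) (Fin r) ℂ), ?_, ?_, ?_, ?_⟩
  · refine continuous_matrix fun i j => ?_
    rw [continuous_iff_continuousAt]
    intro t0
    by_cases h0 : ν t0 = 0
    · have h1 : Real.sqrt (ν t0) = 0 := by rw [h0, Real.sqrt_zero]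
      have h2 : (((Real.sqrt (ν t0) : ℂ)⁻¹) • (1 - M t0)) i j = 0 := by
        rw [h1]; simp
      change Filter.Tendsto _ _ (nhds _)
      simp only [h2]
      apply squeeze_zero_norm (a := fun t => Real.sqrt (ν t))
      · intro t
        rw [Matrix.smul_apply, norm_smul, norm_inv, Complex.norm_real,
          Real.norm_of_nonneg (Real.sqrt_nonneg _)]
        by_cases h3 : ν t = 0
        · rw [h3]; simp
        · have h4 : 0 < ν t := lt_of_le_of_ne (hν0 t) (Ne.symm h3)
          have h5 : 0 < Real.sqrt (ν t) := Real.sqrt_pos.2 h4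
          rw [inv_mul_le_iff₀ h5, Real.mul_self_sqrt (hν0 t)]
          exact le_nu (M t) i j
      · have := hsc.tendsto t0
        rw [h1] at this
        exact this
    · have h1 : (Real.sqrt (ν t0) : ℂ) ≠ 0 := by
        rw [Ne, Complex.ofReal_eq_zero, Real.sqrt_eq_zero (hν0 t0)]
        exact h0
      simp only [Matrix.smul_apply, smul_eq_mul]
      apply ContinuousAt.mul
      · exact ContinuousAt.inv₀ (Complex.continuous_ofReal.comp hsc).continuousAt h1
      · exact ((continuous_const.sub hM).matrix_elem i j).continuousAt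
  · exact (Complex.continuous_ofReal.comp hsc).smul continuous_const
  · intro t
    rw [Matrix.smul_mul, Matrix.one_mul, smul_smul]
    by_cases h0 : ν t = 0
    · rw [nu_zero (M t) h0]; simp
    · have h1 : (Real.sqrt (ν t) : ℂ) ≠ 0 := by
        rw [Ne, Complex.ofReal_eq_zero, Real.sqrt_eq_zero (hν0 t)]
        exact h0
      rw [mul_inv_cancel₀ h1, one_smul, add_sub_cancel]
  · intro t ht
    have h1 : ν t = 0 := by simp only [hν, ht]; simp
    constructor
    · simp only [h1]; simp
    · simp only [h1]; simp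

end FrExt

open FrExt in
/-- T11 (file FrExt.lean): extension of a frame from the boundary of a simplex -/
theorem frame_ext {κ : Type} [Fintype κ] (r n : ℕ) (b : Fin (n + 2) → Sing (PF κ r) n)
    (hb : ∀ (i j : Fin (n + 2)) (x y : stdSimplex ℝ (Fin (n + 1))),
      stdSimplex.map i.succAbove x = stdSimplex.map j.succAbove y → b i x = b j y) :
    ∃ B : Sing (PF (κ ⊕ Fin r) r) (n + 1), ∀ i t, sface n i B t = (b i t).pad := by
  obtain ⟨g, hg⟩ := glue n b hb
  have hcl : IsClosed (Bd n) :=
    isClosed_iUnion_of_finite isClosed_Fc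
  let gA : C(Bd n, κ → Fin r → ℂ) :=
    ⟨fun x => (g x).1.1, cfst.comp g.continuous⟩
  let gB : C(Bd n, Fin r → κ → ℂ) :=
    ⟨fun x => (g x).1.2, csnd.comp g.continuous⟩
  obtain ⟨A', hA'⟩ := ContinuousMap.exists_restrict_eq hcl gA
  obtain ⟨B', hB'⟩ := ContinuousMap.exists_restrict_eq hcl gB
  let A1 : stdSimplex ℝ (Fin (n + 2)) → Matrix κ (Fin r) ℂ := fun x => A' x
  let B1 : stdSimplex ℝ (Fin (n + 2)) → Matrix (Fin r) κ ℂ := fun x => B' x
  have hA1 : Continuous A1 := A'.continuous
  have hB1 : Continuous B1 := B'.continuous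
  have hA1g : ∀ x (hx : x ∈ Bd n),
      A1 x = (g ⟨x, hx⟩).1.1 := fun x hx => DFunLike.congr_fun hA' ⟨x, hx⟩
  have hB1g : ∀ x (hx : x ∈ Bd n),
      B1 x = (g ⟨x, hx⟩).1.2 := fun x hx => DFunLike.congr_fun hB' ⟨x, hx⟩
  obtain ⟨C, D, hC, hD, h1, h2⟩ := factor (fun x => B1 x * A1 x) (hB1.matrix_mul hA1)
  have hM : ∀ x (hx : x ∈ Bd n), B1 x * A1 x = 1 := by
    intro x hx
    rw [hA1g x hx, hB1g x hx]
    exact (g ⟨x, hx⟩).2
  have hrow : Continuous fun x => Matrix.fromRows (A1 x) (C x) := by
    refine continuous_matrix fun i j => ?_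
    rcases i with i | i
    · exact hA1.matrix_elem i j
    · exact hC.matrix_elem i j
  have hcol : Continuous fun x => Matrix.fromCols (B1 x) (D x) := by
    refine continuous_matrix fun i j => ?_
    rcases j with j | j
    · exact hB1.matrix_elem i j
    · exact hD.matrix_elem i j
  have hmul : ∀ x, Matrix.fromCols (B1 x) (D x) * Matrix.fromRows (A1 x) (C x) = 1 := by
    intro x
    rw [Matrix.fromCols_mul_fromRows]
    exact h1 x
  let F : stdSimplex ℝ (Fin (n + 2)) → PF (κ ⊕ Fin r) r := fun x =>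
    ⟨(Matrix.fromRows (A1 x) (C x), Matrix.fromCols (B1 x) (D x)), hmul x⟩
  have hF : Continuous F := Continuous.subtype_mk (hrow.prodMk hcol) hmul
  refine ⟨⟨F, hF⟩, ?_⟩
  intro i t
  have hx : stdSimplex.map i.succAbove t ∈ Bd n :=
    Set.mem_iUnion.2 ⟨i, map_at i t⟩
  apply Subtype.ext
  have e1 := hA1g _ hx
  have e2 := hB1g _ hx
  rw [hg i t hx] at e1 e2
  obtain ⟨e3, e4⟩ := h2 _ (hM _ hx)
  change (Matrix.fromRows (A1 (stdSimplex.map i.succAbove t)) (C (stdSimplex.map i.succAbove t)),
    Matrix.fromCols (B1 (stdSimplex.map i.succAbove t)) (D (stdSimplex.map i.succAbove t))) =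
    (Matrix.fromRows (b i t).1.1 0, Matrix.fromCols (b i t).1.2 0)
  rw [e1, e2, e3, e4]

end Pool.Agent.H904R2
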