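import Pool.Agent.H904R2.PF

/-! Task T12: frames of idempotent-valued maps on a simplex. -/

set_option autoImplicit false

namespace Pool.Agent.H904R2

open Pool.Agent.Helper922.HB.Sc (Sing sface altd bd sbd)

namespace Frm

variable {κ : Type} [Fintype κ] [DecidableEq κ] {r : ℕ}

omit [DecidableEq κ] in
theorem P_idem (p : PF κ r) : p.P * p.P = p.P := by
  rw [PF.P, ← Matrix.mul_assoc, Matrix.mul_assoc p.1.1, p.2, Matrix.mul_one]

/-- the intertwiner of two idempotents -/
def U (Q P : Matrix κ κ ℂ) : Matrix κ κ ℂ := Q * P + (1 - Q) * (1 - P)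

theorem U_mul (Q P : Matrix κ κ ℂ) (hP : P * P = P) (hQ : Q * Q = Q) : U Q P * P = Q * U Q P := by
  have h1 : U Q P * P = Q * P := by
    rw [U, add_mul, Matrix.mul_assoc, hP, Matrix.mul_assoc, sub_mul 1 P P, one_mul, hP, sub_self,
      mul_zero, add_zero]
  have h2 : Q * U Q P = Q * P := by
    rw [U, mul_add, ← Matrix.mul_assoc, hQ, ← Matrix.mul_assoc Q (1 - Q), mul_sub Q 1 Q, mul_one,
      hQ, sub_self, zero_mul, add_zero]
  rw [h1, h2]

theorem U_self (P : Matrix κ κ ℂ) (hP : P * P = P) : U P P = 1 := by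
  rw [U, hP, mul_sub, mul_one, sub_mul, one_mul, hP, sub_self, sub_zero]
  abel

theorem continuous_U : Continuous (fun x : Matrix κ κ ℂ × Matrix κ κ ℂ => U x.1 x.2) := by
  unfold U
  exact (continuous_fst.matrix_mul continuous_snd).add
    ((continuous_const.sub continuous_fst).matrix_mul (continuous_const.sub continuous_snd))

theorem continuous_inv' {X : Type*} [TopologicalSpace X] {f : X → Matrix κ κ ℂ}
    (h : Continuous f) (h0 : ∀ x, (f x).det ≠ 0) : Continuous fun x => (f x)⁻¹ := by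
  have e : (fun x => (f x)⁻¹) = fun x => ((f x).det)⁻¹ • (f x).adjugate := by
    funext x
    rw [Matrix.inv_def, Ring.inverse_eq_inv']
  rw [e]
  exact (Continuous.inv₀ h.matrix_det h0).smul h.matrix_adjugate

/-- moving a frame -/
theorem step {X : Type} [TopologicalSpace X] (s : C(X, PF κ r)) (P Q : C(X, Matrix κ κ ℂ))
    (hs : ∀ t, (s t).P = P t) (hQ : ∀ t, Q t * Q t = Q t)
    (hU : ∀ t, (U (Q t) (P t)).det ≠ 0) : ∃ s' : C(X, PF κ r), ∀ t, (s' t).P = Q t := by
  have hinv : ∀ t, (U (Q t) (P t))⁻¹ * U (Q t) (P t) = 1 := fun t =>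
    Matrix.nonsing_inv_mul _ (isUnit_iff_ne_zero.2 (hU t))
  have hinv' : ∀ t, U (Q t) (P t) * (U (Q t) (P t))⁻¹ = 1 := fun t =>
    Matrix.mul_nonsing_inv _ (isUnit_iff_ne_zero.2 (hU t))
  have hUc : Continuous fun t => U (Q t) (P t) :=
    continuous_U.comp (Q.continuous.prodMk P.continuous)
  refine ⟨⟨fun t => ⟨(U (Q t) (P t) * (s t).1.1, (s t).1.2 * (U (Q t) (P t))⁻¹), ?_⟩, ?_⟩, ?_⟩
  · change (s t).1.2 * (U (Q t) (P t))⁻¹ * (U (Q t) (P t) * (s t).1.1) = 1
    rw [Matrix.mul_assoc, ← Matrix.mul_assoc (U (Q t) (P t))⁻¹, hinv, Matrix.one_mul, (s t).2]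
  · apply Continuous.subtype_mk
    have h1 : Continuous fun t => (s t).1 := continuous_subtype_val.comp s.continuous
    exact (hUc.matrix_mul (continuous_fst.comp h1)).prodMk
      ((continuous_snd.comp h1).matrix_mul (continuous_inv' hUc hU))
  · intro t
    change U (Q t) (P t) * (s t).1.1 * ((s t).1.2 * (U (Q t) (P t))⁻¹) = Q t
    have hPt : (s t).1.1 * (s t).1.2 = P t := hs t
    have hPP : P t * P t = P t := by rw [← hs t, P_idem]
    rw [Matrix.mul_assoc, ← Matrix.mul_assoc (s t).1.1, hPt, ← Matrix.mul_assoc,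
      U_mul _ _ hPP (hQ t), Matrix.mul_assoc, hinv', Matrix.mul_one]

/-- the segment from the first vertex -/
noncomputable def seg (q : ℕ) (v : stdSimplex ℝ (Fin (q + 1))) :
    C(stdSimplex ℝ (Fin (q + 1)) × unitInterval, stdSimplex ℝ (Fin (q + 1))) :=
  ⟨fun p => ⟨(1 - (p.2 : ℝ)) • v.1 + (p.2 : ℝ) • p.1.1,
      convex_stdSimplex ℝ (Fin (q + 1)) v.2 p.1.2 (by linarith [p.2.2.2]) p.2.2.1 (by ring)⟩, by
    apply Continuous.subtype_mk
    fun_prop⟩

theorem exists_frame_aux (q : ℕ) (f : C(stdSimplex ℝ (Fin (q + 1)), Matrix κ κ ℂ))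
    (hf : ∀ t, ∃ p : PF κ r, p.P = f t) : ∃ s : C(stdSimplex ℝ (Fin (q + 1)), PF κ r),
      ∀ t, (s t).P = f t := by
  have hidem : ∀ t, f t * f t = f t := by
    intro t
    obtain ⟨p, hp⟩ := hf t
    rw [← hp, P_idem]
  let v : stdSimplex ℝ (Fin (q + 1)) := stdSimplex.vertex 0
  let H : C(stdSimplex ℝ (Fin (q + 1)) × unitInterval, Matrix κ κ ℂ) := f.comp (seg q v)
  let D : stdSimplex ℝ (Fin (q + 1)) × unitInterval × unitInterval → ℂ := fun x =>
    (U (H (x.1, x.2.2)) (H (x.1, x.2.1))).det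
  have hDc : Continuous D := by
    apply Continuous.matrix_det
    refine continuous_U.comp (Continuous.prodMk ?_ ?_)
    · exact H.continuous.comp (continuous_fst.prodMk (continuous_snd.comp continuous_snd))
    · exact H.continuous.comp (continuous_fst.prodMk (continuous_fst.comp continuous_snd))
  have huc : UniformContinuous D := CompactSpace.uniformContinuous_of_continuous hDc
  rw [Metric.uniformContinuous_iff] at huc
  obtain ⟨δ, hδ, hD⟩ := huc 1 one_pos
  obtain ⟨N, hN⟩ := exists_nat_one_div_lt hδ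
  have hN0 : (0 : ℝ) < (N : ℝ) + 1 := by positivity
  -- the times
  let tm : ℕ → unitInterval := fun k => Set.projIcc 0 1 zero_le_one ((k : ℝ) / ((N : ℝ) + 1))
  have htm : ∀ k, dist (tm (k + 1)) (tm k) < δ := by
    intro k
    refine lt_of_le_of_lt ?_ hN
    have h1 : dist (tm (k + 1)) (tm k) ≤
        dist (((k + 1 : ℕ) : ℝ) / ((N : ℝ) + 1)) ((k : ℝ) / ((N : ℝ) + 1)) := by
      exact (Set.abs_projIcc_sub_projIcc zero_le_one)
    refine h1.trans (le_of_eq ?_)
    rw [Real.dist_eq, ← sub_div]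
    push_cast
    rw [add_sub_cancel_left, abs_of_pos (by positivity)]
  have key : ∀ k : ℕ, ∃ s : C(stdSimplex ℝ (Fin (q + 1)), PF κ r), ∀ t, (s t).P = H (t, tm k) := by
    intro k
    induction k with
    | zero =>
      obtain ⟨p, hp⟩ := hf v
      refine ⟨ContinuousMap.const _ p, fun t => ?_⟩
      have h0 : tm 0 = 0 := by
        change Set.projIcc (0 : ℝ) 1 zero_le_one (((0 : ℕ) : ℝ) / ((N : ℝ) + 1)) = 0
        rw [Nat.cast_zero, zero_div]
        exact Set.projIcc_left zero_le_one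
      rw [h0, ContinuousMap.const_apply, hp]
      change f v = f (seg q v (t, 0))
      congr 1
      apply Subtype.ext
      simp [seg]
    | succ k ih =>
      obtain ⟨s, hs⟩ := ih
      have hcont : ∀ k, Continuous fun t => H (t, tm k) := fun k =>
        H.continuous.comp (continuous_id.prodMk continuous_const)
      refine step s ⟨fun t => H (t, tm k), hcont k⟩ ⟨fun t => H (t, tm (k + 1)), hcont (k + 1)⟩ hs
        (fun t => hidem _) ?_
      intro t h0
      have h1 : dist (t, tm k, tm (k + 1)) (t, tm k, tm k) < δ := by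
        rw [Prod.dist_eq, Prod.dist_eq, dist_self, dist_self]
        simp only [max_lt_iff]
        exact ⟨hδ, hδ, htm k⟩
      have h2 := hD h1
      have h3 : D (t, tm k, tm (k + 1)) = 0 := h0
      have h4 : D (t, tm k, tm k) = 1 := by
        change (U (H (t, tm k)) (H (t, tm k))).det = 1
        rw [U_self (H (t, tm k)) (hidem _), Matrix.det_one]
      rw [h3, h4] at h2
      simp at h2
  obtain ⟨s, hs⟩ := key (N + 1)
  refine ⟨s, fun t => ?_⟩
  rw [hs t]
  have h1 : tm (N + 1) = 1 := by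
    change Set.projIcc (0 : ℝ) 1 zero_le_one (((N + 1 : ℕ) : ℝ) / ((N : ℝ) + 1)) = 1
    push_cast
    rw [div_self hN0.ne']
    exact Set.projIcc_right zero_le_one
  rw [h1]
  change f (seg q v (t, 1)) = f t
  congr 1
  apply Subtype.ext
  simp [seg]

end Frm

/-- T12 (file Frames.lean): existence of frames over a simplex -/
theorem exists_frame {κ : Type} [Fintype κ] [DecidableEq κ] (r q : ℕ)
    (f : C(stdSimplex ℝ (Fin (q + 1)), Matrix κ κ ℂ)) (hf : ∀ t, ∃ p : PF κ r, p.P = f t) :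
    ∃ s : Sing (PF κ r) q, ∀ t, (s t).P = f t :=
  Frm.exists_frame_aux q f hf

end Pool.Agent.H904R2
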