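import Pool.Agent.H904R2.Skel
import Pool.Agent.H904R2.Frames
import Pool.Agent.H904R2.Obs
import Pool.Agent.H904R2.FrExt

/-!
# Task T14 (helper461): the induction over the skeleta
-/

set_option autoImplicit false

namespace Pool.Agent.H904R2

open Pool.Agent.Helper922.HB.Sc (Sing sface altd bd sbd sface_sface range_sface)
open Topology

namespace PF

variable {κ : Type} [Fintype κ] {r : ℕ}

theorem pad_P (p : PF κ r) : p.pad.P = Matrix.fromBlocks p.P 0 0 0 := by
  change Matrix.fromRows p.1.1 0 * Matrix.fromCols p.1.2 0 = _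
  rw [Matrix.fromRows_mul_fromCols, Matrix.mul_zero, Matrix.zero_mul, Matrix.zero_mul]
  rfl

theorem pad_act (p : PF κ r) (g : GLr r) : p.pad.act g = (p.act g).pad := by
  apply Subtype.ext
  apply Prod.ext
  · change Matrix.fromRows p.1.1 0 * (g : Matrix (Fin r) (Fin r) ℂ) =
      Matrix.fromRows (p.1.1 * (g : Matrix (Fin r) (Fin r) ℂ)) 0
    rw [Matrix.fromRows_mul, Matrix.zero_mul]
  · change ((g⁻¹ : GLr r) : Matrix (Fin r) (Fin r) ℂ) * Matrix.fromCols p.1.2 0 =
      Matrix.fromCols (((g⁻¹ : GLr r) : Matrix (Fin r) (Fin r) ℂ) * p.1.2) 0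
    rw [Matrix.mul_fromCols, Matrix.mul_zero]

theorem continuous_pad : Continuous (pad : PF κ r → PF (κ ⊕ Fin r) r) := by
  apply Continuous.subtype_mk
  refine Continuous.prodMk ?_ ?_
  · refine continuous_pi fun i => continuous_pi fun j => ?_
    rcases i with i | i
    · exact ((continuous_apply j).comp ((continuous_apply i).comp
        (continuous_fst.comp continuous_subtype_val)))
    · exact continuous_const
  · refine continuous_pi fun i => continuous_pi fun j => ?_
    rcases j with j | j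
    · exact ((continuous_apply j).comp ((continuous_apply i).comp
        (continuous_snd.comp continuous_subtype_val)))
    · exact continuous_const

end PF

section Sg

variable {Y : Type*} [TopologicalSpace Y] {κ : Type} [Fintype κ] {r : ℕ}

/-- pointwise action -/
noncomputable def actS (p : C(Y, PF κ r)) (g : C(Y, GLr r)) : C(Y, PF κ r) :=
  ⟨fun t => (p t).act (g t), by
    apply Continuous.subtype_mk
    refine Continuous.prodMk ?_ ?_
    · exact (continuous_fst.comp (continuous_subtype_val.comp p.continuous)).matrix_mul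
        (Units.continuous_val.comp g.continuous)
    · exact (Units.continuous_val.comp (g⁻¹).continuous).matrix_mul
        (continuous_snd.comp (continuous_subtype_val.comp p.continuous))⟩

theorem actS_apply (p : C(Y, PF κ r)) (g : C(Y, GLr r)) (t : Y) :
    actS p g t = (p t).act (g t) := rfl

/-- pointwise padding -/
noncomputable def padS (p : C(Y, PF κ r)) : C(Y, PF (κ ⊕ Fin r) r) :=
  ⟨fun t => (p t).pad, PF.continuous_pad.comp p.continuous⟩

theorem padS_apply (p : C(Y, PF κ r)) (t : Y) : padS p t = (p t).pad := rfl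

/-- pointwise change of frame -/
theorem exists_dif (p p' : C(Y, PF κ r)) (h : ∀ t, (p t).P = (p' t).P) :
    ∃ g : C(Y, GLr r), actS p g = p' := by
  refine ⟨⟨fun t => (p t).dif (p' t) (h t), ?_⟩, ?_⟩
  · apply continuous_GLr
    exact (continuous_snd.comp (continuous_subtype_val.comp p.continuous)).matrix_mul
      (continuous_fst.comp (continuous_subtype_val.comp p'.continuous))
  · ext1 t
    exact (p t).act_dif (p' t) (h t)

theorem actS_inj {p : C(Y, PF κ r)} {g h : C(Y, GLr r)} (hh : actS p g = actS p h) : g = h := by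
  ext1 t
  exact (p t).act_inj _ _ (DFunLike.congr_fun hh t)

theorem actS_actS (p : C(Y, PF κ r)) (g h : C(Y, GLr r)) : actS (actS p g) h = actS p (g * h) := by
  ext1 t
  exact (p t).act_act _ _

theorem actS_P (p : C(Y, PF κ r)) (g : C(Y, GLr r)) (t : Y) : (actS p g t).P = (p t).P :=
  (p t).P_act _

end Sg

section CW

variable {X : Type} [TopologicalSpace X] [T2Space X] [CWComplex (Set.univ : Set X)]

theorem sk_zero : sk X 0 = ∅ := by
  unfold sk
  exact_mod_cast CWComplex.skeletonLT_zero_eq_empty (C := (Set.univ : Set X))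

theorem sk_succ (k : ℕ) (x : X) (hx : x ∈ sk X (k + 1)) : x ∈ sk X k ∨
    ∃ (e : RelCWComplex.cell (Set.univ : Set X) k) (t : stdSimplex ℝ (Fin (k + 1))),
      cellS k e t = x := by
  have h := RelCWComplex.skeletonLT_union_iUnion_closedCell_eq_skeletonLT_succ
    (C := (Set.univ : Set X)) k
  have hx' : x ∈ (RelCWComplex.skeletonLT (Set.univ : Set X) ((k : ℕ∞) + 1) : Set X) := by
    unfold sk at hx
    push_cast at hx
    exact hx
  rw [← h] at hx'
  rcases hx' with h1 | h1
  · exact Or.inl h1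
  · obtain ⟨e, he⟩ := Set.mem_iUnion.1 h1
    rw [← range_cellS] at he
    obtain ⟨t, ht⟩ := he
    exact Or.inr ⟨e, t, ht⟩

theorem closedCell_sub_lt (m k : ℕ) (h : m < k) (e : RelCWComplex.cell (Set.univ : Set X) m) :
    RelCWComplex.closedCell m e ⊆ sk X k := by
  refine (closedCell_sub m e).trans ?_
  unfold sk
  exact RelCWComplex.skeletonLT_mono (by exact_mod_cast h)

theorem disj_sk_lt (m k : ℕ) (h : k ≤ m) (e : RelCWComplex.cell (Set.univ : Set X) m) :
    Disjoint (sk X k) (RelCWComplex.openCell m e) :=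
  RelCWComplex.disjoint_skeletonLT_openCell (by exact_mod_cast h)

/-- gluing a continuous map on the skeleton with maps on the cells -/
theorem glue {Y : Type} [TopologicalSpace Y] (k : ℕ) (g : X → Y) (hg : ContinuousOn g (sk X k))
    (b : ∀ _ : RelCWComplex.cell (Set.univ : Set X) k, Sing Y k)
    (hb : ∀ e t, (∃ i, t.1 i = 0) → b e t = g (cellS k e t)) :
    ∃ g' : X → Y, (∀ x ∈ sk X k, g' x = g x) ∧ (∀ e t, g' (cellS k e t) = b e t) ∧
      ContinuousOn g' (sk X (k + 1)) := by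
  classical
  let g' : X → Y := fun x => if x ∈ sk X k then g x else
    if h : ∃ p : RelCWComplex.cell (Set.univ : Set X) k × stdSimplex ℝ (Fin (k + 1)),
      cellS k p.1 p.2 = x then b h.choose.1 h.choose.2 else g x
  have h1 : ∀ x ∈ sk X k, g' x = g x := fun x hx => if_pos hx
  have h2 : ∀ e t, g' (cellS k e t) = b e t := by
    intro e t
    by_cases hx : cellS k e t ∈ sk X k
    · rw [h1 _ hx, hb e t]
      by_contra hne
      push Not at hne
      exact Set.disjoint_left.1 (disj_sk k e) hx (cellS_int k e t hne)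
    · have h : ∃ p : RelCWComplex.cell (Set.univ : Set X) k × stdSimplex ℝ (Fin (k + 1)),
          cellS k p.1 p.2 = cellS k e t := ⟨(e, t), rfl⟩
      have e1 : g' (cellS k e t) = b h.choose.1 h.choose.2 := by
        simp only [g', if_neg hx, dif_pos h]
      have hc := h.choose_spec
      have hint : ∀ (e' : RelCWComplex.cell (Set.univ : Set X) k)
          (t' : stdSimplex ℝ (Fin (k + 1))), cellS k e' t' = cellS k e t → ∀ i, t'.1 i ≠ 0 := by
        intro e' t' h' i hi
        apply hx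
        rw [← h']
        exact cellS_bd k e' t' ⟨i, hi⟩
      have hi' := hint _ _ hc
      have hi := hint e t rfl
      rw [e1]
      generalize h.choose = p at hc hi'
      obtain ⟨e', t'⟩ := p
      have he : e' = e := by
        by_contra hne
        have hne' : (⟨k, e'⟩ : Σ n, RelCWComplex.cell (Set.univ : Set X) n) ≠ ⟨k, e⟩ := by
          intro heq
          exact hne (eq_of_heq (Sigma.mk.inj_iff.mp heq).2)
        have h3 := RelCWComplex.disjoint_openCell_of_ne hne'
        have h4 := cellS_int k e' t' hi'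
        rw [hc] at h4
        exact Set.disjoint_left.1 h3 h4 (cellS_int k e t hi)
      subst he
      have ht : t' = t := cellS_inj k e' t' t hi' hi hc
      subst ht
      rfl
  refine ⟨g', h1, h2, ?_⟩
  rw [continuousOn_iff_isClosed]
  intro F hF
  refine ⟨sk X (k + 1) ∩ g' ⁻¹' F, ?_, ?_⟩
  · apply CWComplex.isClosed_of_disjoint_openCell_or_isClosed_inter_closedCell
      (C := (Set.univ : Set X)) (Set.subset_univ _)
    intro m _ e
    rcases lt_trichotomy m k with hm | hm | hm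
    · right
      have hsub := closedCell_sub_lt (X := X) m k hm e
      have : sk X (k + 1) ∩ g' ⁻¹' F ∩ RelCWComplex.closedCell m e =
          RelCWComplex.closedCell m e ∩ g ⁻¹' F := by
        ext x
        constructor
        · rintro ⟨⟨_, h4⟩, h5⟩
          refine ⟨h5, ?_⟩
          have h6 : g' x ∈ F := h4
          rw [h1 x (hsub h5)] at h6
          exact h6
        · rintro ⟨h5, h4⟩
          refine ⟨⟨sk_mono_succ k (hsub h5), ?_⟩, h5⟩
          change g' x ∈ F
          rw [h1 x (hsub h5)]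
          exact h4
      rw [this]
      exact (hg.mono hsub).preimage_isClosed_of_isClosed RelCWComplex.isClosed_closedCell hF
    · subst hm
      right
      have : sk X (m + 1) ∩ g' ⁻¹' F ∩ RelCWComplex.closedCell m e =
          cellS m e '' {t | b e t ∈ F} := by
        ext x
        constructor
        · rintro ⟨⟨_, h4⟩, h5⟩
          rw [← range_cellS] at h5
          obtain ⟨t, rfl⟩ := h5
          refine ⟨t, ?_, rfl⟩
          have h6 : g' (cellS m e t) ∈ F := h4
          rw [h2] at h6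
          exact h6
        · rintro ⟨t, ht, rfl⟩
          have h5 : cellS m e t ∈ RelCWComplex.closedCell m e := by
            rw [← range_cellS]
            exact ⟨t, rfl⟩
          refine ⟨⟨closedCell_sub m e h5, ?_⟩, h5⟩
          change g' (cellS m e t) ∈ F
          rw [h2]
          exact ht
      rw [this]
      have hcl : IsClosed {t | b e t ∈ F} := hF.preimage (b e).continuous
      exact (hcl.isCompact.image (cellS m e).continuous).isClosed
    · left
      exact (disj_sk_lt m (k + 1) hm e).mono_left Set.inter_subset_left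
  · rw [Set.inter_comm (sk X (k + 1)) (g' ⁻¹' F), Set.inter_assoc, Set.inter_self]

variable {κ : Type} [Fintype κ] {r : ℕ}

/-- the faces of the frame `p` over `σ` are the prescribed ones -/
def FOK (γ : ∀ n, Fin (n + 2) → Sing X (n + 1) → Sing (GLr r) n)
    (s : ∀ q, Sing X q → Sing (PF κ r) q) :
    ∀ m, Sing X m → Sing (PF (κ ⊕ Fin r) r) m → Prop
  | 0, _, _ => True
  | n + 1, σ, p => ∀ i, sface n i p = padS (actS (s n (sface n i σ)) (γ n i σ))

/-- the frame over a new cell -/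
theorem exists_B (D k : ℕ) (hk : k ≤ D + 1)
    (γ : ∀ n, Fin (n + 2) → Sing X (n + 1) → Sing (GLr r) n)
    (hγ : ∀ n, n ≤ D → ∀ (i j : Fin (n + 2)) (σ : Sing X (n + 2)), i ≤ j →
      γ n i (sface (n + 1) j.succ σ) * sface n i (γ (n + 1) j.succ σ) =
        γ n j (sface (n + 1) i.castSucc σ) * sface n j (γ (n + 1) i.castSucc σ))
    (s : ∀ q, Sing X q → Sing (PF κ r) q)
    (hs : ∀ q, q ≤ D → ∀ (σ : Sing X (q + 1)), Set.range σ ⊆ sk X k → ∀ (i : Fin (q + 2)),
        sface q i (s (q + 1) σ) = actS (s q (sface q i σ)) (γ q i σ))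
    (e : RelCWComplex.cell (Set.univ : Set X) k) :
    ∃ B : Sing (PF (κ ⊕ Fin r) r) k, FOK γ s k (cellS k e) B := by
  have hface : ∀ n (Φ : Sing X (n + 1)), (⟨n + 1, Φ⟩ : Σ q, Sing X q) = ⟨k, cellS k e⟩ →
      ∀ i, Set.range (sface n i Φ) ⊆ sk X k := fun n Φ h i => sig_face h i
  revert hface
  generalize cellS k e = Φ
  clear e
  intro hface
  match k, hk, Φ, hface, hs with
  | 0, _, _, _, _ =>
    refine ⟨ContinuousMap.const _ ⟨(Matrix.fromRows 0 1, Matrix.fromCols 0 1), ?_⟩, trivial⟩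
    change Matrix.fromCols (0 : Matrix (Fin r) κ ℂ) (1 : Matrix (Fin r) (Fin r) ℂ) *
      Matrix.fromRows (0 : Matrix κ (Fin r) ℂ) (1 : Matrix (Fin r) (Fin r) ℂ) = 1
    rw [Matrix.fromCols_mul_fromRows, Matrix.mul_one, Matrix.zero_mul, zero_add]
  | 1, _, Φ, hface, hs =>
    obtain ⟨B, hB⟩ := frame_ext r 0 (fun i => actS (s 0 (sface 0 i Φ)) (γ 0 i Φ))
      (match_pt0 _)
    refine ⟨B, fun i => ?_⟩
    ext1 t
    exact hB i t
  | m + 2, hk, Φ, hface, hs =>
    obtain ⟨B, hB⟩ := frame_ext r (m + 1)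
      (fun i => actS (s (m + 1) (sface (m + 1) i Φ)) (γ (m + 1) i Φ)) (match_pt m _ (by
        intro i j hij
        change actS (sface m i (s (m + 1) (sface (m + 1) j.succ Φ)))
            (sface m i (γ (m + 1) j.succ Φ)) =
          actS (sface m j (s (m + 1) (sface (m + 1) i.castSucc Φ)))
            (sface m j (γ (m + 1) i.castSucc Φ))
        rw [hs m (by omega) _ (hface (m + 1) Φ rfl _), hs m (by omega) _ (hface (m + 1) Φ rfl _),
          actS_actS, actS_actS, hγ m (by omega) i j Φ hij, sface_sface m i j Φ hij]))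
    refine ⟨B, fun i => ?_⟩
    ext1 t
    exact hB i t

/-- a point of the boundary of a simplex lies on a face -/
theorem exists_face (n : ℕ) (t : stdSimplex ℝ (Fin (n + 2))) (i : Fin (n + 2)) (hi : t.1 i = 0) :
    ∃ t' : stdSimplex ℝ (Fin (n + 1)), stdSimplex.map i.succAbove t' = t := by
  refine ⟨⟨fun j => t.1 (i.succAbove j), fun j => t.2.1 _, ?_⟩, ?_⟩
  · have h := t.2.2
    rw [Fin.sum_univ_succAbove _ i, hi, zero_add] at h
    exact h
  · apply Subtype.ext
    funext l
    change (FunOnFinite.linearMap ℝ ℝ i.succAbove (fun j => t.1 (i.succAbove j))) l = t.1 l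
    rw [FunOnFinite.linearMap_apply_apply]
    by_cases hl : l = i
    · subst hl
      rw [hi]
      apply Finset.sum_eq_zero
      intro j hj
      simp only [Finset.mem_filter] at hj
      exact absurd hj.2 (Fin.succAbove_ne l j)
    · obtain ⟨j, rfl⟩ := Fin.exists_succAbove_eq hl
      rw [Finset.sum_eq_single j]
      · intro b hb hne
        simp only [Finset.mem_filter] at hb
        exact absurd (Fin.succAbove_right_injective hb.2) hne
      · intro h
        simp at h

/-- the idempotent of the new frame on the boundary -/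
theorem FOK_bd {k : ℕ} (γ : ∀ n, Fin (n + 2) → Sing X (n + 1) → Sing (GLr r) n)
    (s : ∀ q, Sing X q → Sing (PF κ r) q) (f : X → Matrix κ κ ℂ) (D : ℕ) (hk : k ≤ D + 1)
    (hs : ∀ q, q ≤ D + 1 → ∀ σ : Sing X q, Set.range σ ⊆ sk X k → ∀ t, (s q σ t).P = f (σ t))
    (e : RelCWComplex.cell (Set.univ : Set X) k) (B : Sing (PF (κ ⊕ Fin r) r) k)
    (hB : FOK γ s k (cellS k e) B) (t : stdSimplex ℝ (Fin (k + 1))) (ht : ∃ i, t.1 i = 0) :
    (B t).P = Matrix.fromBlocks (f (cellS k e t)) 0 0 0 := by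
  have hface : ∀ n (Φ : Sing X (n + 1)), (⟨n + 1, Φ⟩ : Σ q, Sing X q) = ⟨k, cellS k e⟩ →
      ∀ i, Set.range (sface n i Φ) ⊆ sk X k := fun n Φ h i => sig_face h i
  revert hface hB
  generalize cellS k e = Φ
  clear e
  intro hB hface
  match k, hk, Φ, hface, hs, B, hB, t, ht with
  | 0, _, _, _, _, _, _, t, ⟨i, hi⟩ =>
    rw [dl0] at hi
    exact absurd hi one_ne_zero
  | n + 1, hk, Φ, hface, hs, B, hB, t, ⟨i, hi⟩ =>
    obtain ⟨t', rfl⟩ := exists_face n t i hi
    have h1 : B (stdSimplex.map i.succAbove t') = sface n i B t' := rfl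
    have h2 : Φ (stdSimplex.map i.succAbove t') = sface n i Φ t' := rfl
    rw [h1, h2, hB i, padS_apply, PF.pad_P, actS_P, hs n (by omega) _ (hface n Φ rfl i)]

/-- simplices of dimension `≤ D + 2` in the skeleton -/
abbrev KK (X : Type) [TopologicalSpace X] [T2Space X] [CWComplex (Set.univ : Set X)] (k D n : ℕ) :
    Type :=
  {σ : Sing X n // Set.range σ ⊆ sk X (k + 1) ∧ n ≤ D + 2}

/-- faces -/
noncomputable def KKf (k D : ℕ) (n : ℕ) (i : Fin (n + 2)) (σ : KK X k D (n + 1)) : KK X k D n :=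
  ⟨sface n i σ.1, (range_sface n i σ.1).trans σ.2.1, by have := σ.2.2; omega⟩

theorem KKf_KKf (k D : ℕ) (n : ℕ) (i j : Fin (n + 2)) (σ : KK X k D (n + 2)) (h : i ≤ j) :
    KKf k D n i (KKf k D (n + 1) j.succ σ) = KKf k D n j (KKf k D (n + 1) i.castSucc σ) :=
  Subtype.ext (sface_sface n i j σ.1 h)

/-- extension of the frames over the `k`-cells, with twisted faces -/
theorem lift_step (k D : ℕ) (γ : ∀ n, Fin (n + 2) → Sing X (n + 1) → Sing (GLr r) n)
    (hγ : ∀ n, n ≤ D → ∀ (i j : Fin (n + 2)) (σ : Sing X (n + 2)), i ≤ j →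
      γ n i (sface (n + 1) j.succ σ) * sface n i (γ (n + 1) j.succ σ) =
        γ n j (sface (n + 1) i.castSucc σ) * sface n j (γ (n + 1) i.castSucc σ))
    {κ' : Type} [Fintype κ'] [DecidableEq κ'] (f' : X → Matrix κ' κ' ℂ)
    (hf' : ContinuousOn f' (sk X (k + 1)))
    (hfr : ∀ x ∈ sk X (k + 1), ∃ p : PF κ' r, p.P = f' x)
    (sA : ∀ m, Sing X m → Sing (PF κ' r) m)
    (hsA1 : ∀ m, m ≤ D + 1 → ∀ σ ∈ skA (X := X) k m, ∀ t, (sA m σ t).P = f' (σ t))
    (hsA2 : ∀ n, n ≤ D → ∀ σ ∈ skA (X := X) k (n + 1), ∀ i,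
      sface n i (sA (n + 1) σ) = actS (sA n (sface n i σ)) (γ n i σ)) :
    ∃ s' : ∀ q, Sing X q → Sing (PF κ' r) q,
      (∀ q, q ≤ D + 1 → ∀ σ : Sing X q, Set.range σ ⊆ sk X (k + 1) →
        ∀ t, (s' q σ t).P = f' (σ t)) ∧
      ∀ q, q ≤ D → ∀ σ : Sing X (q + 1), Set.range σ ⊆ sk X (k + 1) → ∀ i,
        sface q i (s' (q + 1) σ) = actS (s' q (sface q i σ)) (γ q i σ) := by
  classical
  have hτ : ∀ q (σ : KK X k D q), ∃ p : Sing (PF κ' r) q, ∀ t, (p t).P = f' (σ.1 t) := by
    intro q σ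
    have hc : Continuous fun t => f' (σ.1 t) := by
      rw [← continuousOn_univ]
      refine hf'.comp σ.1.continuous.continuousOn ?_
      intro t _
      exact σ.2.1 ⟨t, rfl⟩
    exact exists_frame r q ⟨fun t => f' (σ.1 t), hc⟩ (fun t => hfr _ (σ.2.1 ⟨t, rfl⟩))
  choose τ hτ using hτ
  have hβ : ∀ n (i : Fin (n + 2)) (σ : KK X k D (n + 1)), ∃ g : Sing (GLr r) n,
      actS (τ n (KKf k D n i σ)) g = sface n i (τ (n + 1) σ) := by
    intro n i σ
    apply exists_dif
    intro t
    rw [hτ]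
    exact (hτ (n + 1) σ (stdSimplex.map i.succAbove t)).symm
  choose β hβ using hβ
  let W : Tw (SingG (GLr r)) :=
    { K := KK X k D
      fc := KKf k D
      hfc := fun n i j σ h => KKf_KKf k D n i j σ h
      β := β
      γ := fun n i σ => γ n i σ.1
      hβ := by
        intro n i j σ hij
        change β n i (KKf k D (n + 1) j.succ σ) * sface n i (β (n + 1) j.succ σ) =
          β n j (KKf k D (n + 1) i.castSucc σ) * sface n j (β (n + 1) i.castSucc σ)
        apply actS_inj (p := τ n (KKf k D n i (KKf k D (n + 1) j.succ σ)))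
        rw [← actS_actS, hβ]
        have h1 : actS (sface n i (τ (n + 1) (KKf k D (n + 1) j.succ σ)))
            (sface n i (β (n + 1) j.succ σ)) = sface n i (actS (τ (n + 1) (KKf k D (n + 1) j.succ σ))
              (β (n + 1) j.succ σ)) := rfl
        rw [h1, hβ, KKf_KKf k D n i j σ hij, ← actS_actS, hβ]
        have h2 : actS (sface n j (τ (n + 1) (KKf k D (n + 1) i.castSucc σ)))
            (sface n j (β (n + 1) i.castSucc σ)) =
              sface n j (actS (τ (n + 1) (KKf k D (n + 1) i.castSucc σ))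
              (β (n + 1) i.castSucc σ)) := rfl
        rw [h2, hβ, sface_sface n i j _ hij]
      hγ := fun n i j σ hij => hγ n (by have := σ.2.2; omega) i j σ.1 hij }
  let A : ∀ n, Set (W.K n) := fun n => {σ | n ≤ D + 1 ∧ σ.1 ∈ skA (X := X) k n}
  have hx : ∀ n (σ : W.K n), ∃ g : Sing (GLr r) n, σ ∈ A n → actS (τ n σ) g = sA n σ.1 := by
    intro n σ
    by_cases h : σ ∈ A n
    · obtain ⟨g, hg⟩ := exists_dif (τ n σ) (sA n σ.1) (fun t => by
        rw [hτ, hsA1 n h.1 σ.1 h.2])
      exact ⟨g, fun _ => hg⟩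
    · exact ⟨1, fun h' => absurd h' h⟩
  choose x hx using hx
  have hA : ∀ n i σ, σ ∈ A (n + 1) → W.fc n i σ ∈ A n := by
    intro n i σ h
    exact ⟨by have := h.1; omega, skA_face k n i σ.1 h.2⟩
  obtain ⟨x', hx', -⟩ := W.ext_all x A hA (by
    intro n σ hσ i
    have h1 : β n i σ * sface n i (x (n + 1) σ) = x n (KKf k D n i σ) * γ n i σ.1 := by
      apply actS_inj (p := τ n (KKf k D n i σ))
      rw [← actS_actS, ← actS_actS, hβ, hx n (KKf k D n i σ) (hA n i σ hσ)]
      have h2 : actS (sface n i (τ (n + 1) σ)) (sface n i (x (n + 1) σ)) =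
        sface n i (actS (τ (n + 1) σ) (x (n + 1) σ)) := rfl
      rw [h2, hx (n + 1) σ hσ]
      exact hsA2 n (by have := hσ.1; omega) σ.1 hσ.2 i
    change sface n i (x (n + 1) σ) = (β n i σ)⁻¹ * x n (KKf k D n i σ) * γ n i σ.1
    rw [mul_assoc, ← h1, inv_mul_cancel_left]) D (by
    intro q hq θ hθA hθ
    let θ' : Sing X (q + 2) → Additive ((SingG (GLr r)).Pg q) := fun σ =>
      if h : Set.range σ ⊆ sk X (k + 1) then θ ⟨σ, h, by omega⟩ else 0
    have hθ' : ∀ σ : W.K (q + 2), θ' σ.1 = θ σ := fun σ => dif_pos σ.2.1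
    obtain ⟨η, h1, h2⟩ := skel_coc (X := X) k _ (q + 1) θ' (by
      intro σ hσ
      by_cases h : Set.range σ ⊆ sk X (k + 1)
      · rw [hθ' ⟨σ, h, by omega⟩]
        exact hθA _ ⟨by omega, hσ⟩
      · exact dif_neg h) (by
      intro ρ hρ
      rw [← hθ ⟨ρ, hρ, by omega⟩]
      unfold dlt
      refine Finset.sum_congr rfl fun i _ => ?_
      rw [← hθ']
      rfl)
    refine ⟨fun σ => η σ.1, fun σ hσ => h1 σ.1 hσ.2, ?_⟩
    intro σ
    rw [← hθ', ← h2 σ.1 σ.2.1]
    rfl)
  obtain ⟨y, hy⟩ : ∃ y : ∀ n, KK X k D n → Sing (GLr r) n, ∀ n, n ≤ D →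
      ∀ (σ : KK X k D (n + 1)) (i : Fin (n + 2)),
        β n i σ * sface n i (y (n + 1) σ) * (γ n i σ.1)⁻¹ = y n (KKf k D n i σ) :=
    ⟨x', fun n hn σ i => hx' n hn σ i⟩
  let s' : ∀ q, Sing X q → Sing (PF κ' r) q := fun q σ =>
    if h : Set.range σ ⊆ sk X (k + 1) ∧ q ≤ D + 2 then actS (τ q ⟨σ, h⟩) (y q ⟨σ, h⟩) else sA q σ
  have hs' : ∀ q (σ : Sing X q) (h : Set.range σ ⊆ sk X (k + 1) ∧ q ≤ D + 2),
      s' q σ = actS (τ q ⟨σ, h⟩) (y q ⟨σ, h⟩) := fun q σ h => dif_pos h
  refine ⟨s', ?_, ?_⟩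
  · intro q hq σ hσ t
    have h : Set.range σ ⊆ sk X (k + 1) ∧ q ≤ D + 2 := ⟨hσ, by omega⟩
    rw [hs' q σ h, actS_P, hτ]
  · intro q hq σ hσ i
    have h : Set.range σ ⊆ sk X (k + 1) ∧ q + 1 ≤ D + 2 := ⟨hσ, by omega⟩
    have h0 : Set.range (sface q i σ) ⊆ sk X (k + 1) ∧ q ≤ D + 2 :=
      ⟨(range_sface q i σ).trans hσ, by omega⟩
    rw [hs' _ σ h, hs' _ (sface q i σ) h0]
    have h1 : β q i ⟨σ, h⟩ * sface q i (y (q + 1) ⟨σ, h⟩) * (γ q i σ)⁻¹ =
      y q ⟨sface q i σ, h0⟩ := hy q hq ⟨σ, h⟩ i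
    have h2 : actS (τ q ⟨sface q i σ, h0⟩) (β q i ⟨σ, h⟩) = sface q i (τ (q + 1) ⟨σ, h⟩) :=
      hβ q i ⟨σ, h⟩
    rw [← h1, actS_actS, mul_assoc, inv_mul_cancel, mul_one, ← actS_actS, h2]
    rfl

/-- induction hypothesis -/
def KP (X : Type) [TopologicalSpace X] [T2Space X] [CWComplex (Set.univ : Set X)] (r D : ℕ)
    (γ : ∀ n, Fin (n + 2) → Sing X (n + 1) → Sing (GLr r) n) (k : ℕ) : Prop :=
  ∃ (κ : Type) (_ : Fintype κ) (_ : DecidableEq κ) (f : X → Matrix κ κ ℂ)
    (s : ∀ q, Sing X q → Sing (PF κ r) q), ContinuousOn f (sk X k) ∧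
    (∀ q, q ≤ D + 1 → ∀ σ : Sing X q, Set.range σ ⊆ sk X k → ∀ t, (s q σ t).P = f (σ t)) ∧
    ∀ q, q ≤ D → ∀ σ : Sing X (q + 1), Set.range σ ⊆ sk X k → ∀ i,
      sface q i (s (q + 1) σ) = actS (s q (sface q i σ)) (γ q i σ)

theorem KP_zero (r D : ℕ) (γ : ∀ n, Fin (n + 2) → Sing X (n + 1) → Sing (GLr r) n) :
    KP X r D γ 0 := by
  have hne : ∀ q (σ : Sing X q), ¬ Set.range σ ⊆ sk X 0 := by
    intro q σ h
    rw [sk_zero] at h
    exact h ⟨stdSimplex.vertex 0, rfl⟩
  refine ⟨Fin r, inferInstance, inferInstance, fun _ => 1,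
    fun q _ => ContinuousMap.const _ ⟨(1, 1), Matrix.one_mul 1⟩, ?_, ?_, ?_⟩
  · exact continuousOn_const
  · intro q _ σ hσ
    exact absurd hσ (hne q σ)
  · intro q _ σ hσ
    exact absurd hσ (hne _ σ)

theorem KP_succ (r D k : ℕ) (hk : k ≤ D + 1)
    (γ : ∀ n, Fin (n + 2) → Sing X (n + 1) → Sing (GLr r) n)
    (hγ : ∀ n, n ≤ D → ∀ (i j : Fin (n + 2)) (σ : Sing X (n + 2)), i ≤ j →
      γ n i (sface (n + 1) j.succ σ) * sface n i (γ (n + 1) j.succ σ) =
        γ n j (sface (n + 1) i.castSucc σ) * sface n j (γ (n + 1) i.castSucc σ))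
    (h : KP X r D γ k) : KP X r D γ (k + 1) := by
  classical
  obtain ⟨κ, _, _, f, s, hf, hs1, hs2⟩ := h
  choose B hB using exists_B D k hk γ hγ s hs2
  have hpad : Continuous fun M : Matrix κ κ ℂ =>
      (Matrix.fromBlocks M 0 0 0 : Matrix (κ ⊕ Fin r) (κ ⊕ Fin r) ℂ) :=
    continuous_id.matrix_fromBlocks continuous_const continuous_const continuous_const
  obtain ⟨f', hf1, hf2, hf3⟩ := glue (X := X) k
    (fun x => (Matrix.fromBlocks (f x) 0 0 0 : Matrix (κ ⊕ Fin r) (κ ⊕ Fin r) ℂ))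
    (hpad.comp_continuousOn hf) (fun e => ⟨fun t => (B e t).P, PF.continuous_P.comp (B e).continuous⟩)
    (fun e t ht => FOK_bd γ s f D hk hs1 e (B e) (hB e) t ht)
  have hsA : ∀ m (σ : Sing X m), ∃ p : Sing (PF (κ ⊕ Fin r) r) m,
      m ≤ D + 1 → σ ∈ skA (X := X) k m →
      (∀ t, (p t).P = f' (σ t)) ∧ (Set.range σ ⊆ sk X k → p = padS (s m σ)) ∧ FOK γ s m σ p := by
    intro m σ
    by_cases hr : Set.range σ ⊆ sk X k
    · refine ⟨padS (s m σ), fun hm _ => ⟨?_, fun _ => rfl, ?_⟩⟩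
      · intro t
        rw [padS_apply, PF.pad_P, hs1 m hm σ hr, hf1 _ (hr ⟨t, rfl⟩)]
      · match m, σ, hm, hr with
        | 0, _, _, _ => trivial
        | n + 1, σ, hm, hr =>
          intro i
          rw [← hs2 n (by omega) σ hr i]
          rfl
    · by_cases hA : σ ∈ skA (X := X) k m
      · rcases hA with h | ⟨e, he⟩
        · exact absurd h hr
        · obtain ⟨h1, h2⟩ := Sigma.mk.inj_iff.mp he
          subst h1
          have h3 := eq_of_heq h2
          subst h3
          exact ⟨B e, fun _ _ => ⟨fun t => (hf2 e t).symm, fun h' => absurd h' hr, hB e⟩⟩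
      · exact ⟨padS (s m σ), fun _ h => absurd h hA⟩
  choose sA hsA using hsA
  have hfr : ∀ x ∈ sk X (k + 1), ∃ p : PF (κ ⊕ Fin r) r, p.P = f' x := by
    intro x hx
    rcases sk_succ k x hx with h | ⟨e, t, rfl⟩
    · have hr : Set.range (cst 0 x : Sing X 0) ⊆ sk X k := by
        rintro _ ⟨t, rfl⟩
        exact h
      refine ⟨(s 0 (cst 0 x) (stdSimplex.vertex 0)).pad, ?_⟩
      rw [PF.pad_P, hs1 0 (by omega) _ hr, hf1 x h]
      rfl
    · exact ⟨B e t, (hf2 e t).symm⟩
  obtain ⟨s', h1, h2⟩ := lift_step k D γ hγ f' hf3 hfr sA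
    (fun m hm σ hσ => (hsA m σ hm hσ).1) (by
      intro n hn σ hσ i
      have hF := (hsA (n + 1) σ (by omega) hσ).2.2 i
      have hr : Set.range (sface n i σ) ⊆ sk X k := by
        rcases hσ with h | ⟨e, he⟩
        · exact (range_sface n i σ).trans h
        · exact sig_face he i
      have hF' := (hsA n (sface n i σ) (by omega) (skA_face k n i σ hσ)).2.1 hr
      rw [hF, hF']
      ext1 t
      exact (PF.pad_act _ _).symm)
  exact ⟨κ ⊕ Fin r, inferInstance, inferInstance, f', s', hf3, h1, h2⟩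

end CW

theorem K_main {X : Type} [TopologicalSpace X] [T2Space X] [CWComplex (Set.univ : Set X)]
    (d : ℕ) (hd : ∀ n, d < n → IsEmpty (RelCWComplex.cell (Set.univ : Set X) n)) (r D : ℕ)
    (hdD : d ≤ D + 1) (γ : ∀ n, Fin (n + 2) → Sing X (n + 1) → Sing (GLr r) n)
    (hγ : ∀ n, n ≤ D → ∀ (i j : Fin (n + 2)) (σ : Sing X (n + 2)), i ≤ j →
      γ n i (sface (n + 1) j.succ σ) * sface n i (γ (n + 1) j.succ σ) =
        γ n j (sface (n + 1) i.castSucc σ) * sface n j (γ (n + 1) i.castSucc σ)) :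
    ∃ (κ : Type) (_ : Fintype κ) (_ : DecidableEq κ) (f : C(X, Matrix κ κ ℂ))
      (s : ∀ q, Sing X q → Sing (PF κ r) q),
      (∀ q, q ≤ D + 1 → ∀ (σ : Sing X q) t, (s q σ t).P = f (σ t)) ∧
      ∀ q, q ≤ D → ∀ (σ : Sing X (q + 1)) (i : Fin (q + 2)) t,
        sface q i (s (q + 1) σ) t = (s q (sface q i σ) t).act (γ q i σ t) := by
  have hall : ∀ k, k ≤ d + 1 → KP X r D γ k := by
    intro k
    induction k with
    | zero => exact fun _ => KP_zero r D γ
    | succ k ih => exact fun hk => KP_succ r D k (by omega) γ hγ (ih (by omega))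
  have huniv : sk X (d + 1) = Set.univ := by
    apply Set.eq_univ_of_forall
    intro x
    have hx : x ∈ ⋃ (n : ℕ) (j : RelCWComplex.cell (Set.univ : Set X) n),
        RelCWComplex.closedCell n j := by
      rw [CWComplex.union]
      trivial
    obtain ⟨n, hn⟩ := Set.mem_iUnion.1 hx
    obtain ⟨e, he⟩ := Set.mem_iUnion.1 hn
    have hnd : n ≤ d := by
      by_contra hlt
      exact (hd n (by omega)).false e
    exact closedCell_sub_lt n (d + 1) (by omega) e he
  obtain ⟨κ, i1, i2, f, s, hf, h1, h2⟩ := hall (d + 1) le_rfl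
  rw [huniv] at hf
  refine ⟨κ, i1, i2, ⟨f, continuousOn_univ.1 hf⟩, s, ?_, ?_⟩
  · intro q hq σ t
    exact h1 q hq σ (by rw [huniv]; exact Set.subset_univ _) t
  · intro q hq σ i t
    rw [h2 q hq σ (by rw [huniv]; exact Set.subset_univ _) i]
    rfl

end Pool.Agent.H904R2
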