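import Pool.Agent.H904R2.Prod

/-! Mayer-Vietoris for chains and cochains (two open sets). -/

set_option autoImplicit false

namespace Pool.Agent.H904R2

open Finsupp
open Prd Pool.Agent.Helper922.HB.Sc

namespace MV

variable {X : Type} [TopologicalSpace X]

/-- inclusion of a subset -/
def inc (U : Set X) : C(U, X) := ⟨Subtype.val, continuous_subtype_val⟩

/-- inclusion of a subset in a subset -/
def incl {U V : Set X} (h : U ⊆ V) : C(U, V) := ⟨Set.inclusion h, continuous_inclusion h⟩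

theorem inc_incl {U V : Set X} (h : U ⊆ V) : (inc V).comp (incl h) = inc U := rfl

/-- restriction of the codomain of a simplex -/
def cod {U : Set X} {m : ℕ} (σ : Sing X m) (h : Set.range σ ⊆ U) : Sing U m :=
  ⟨fun t => ⟨σ t, h ⟨t, rfl⟩⟩, σ.continuous.subtype_mk _⟩

theorem inc_cod {U : Set X} {m : ℕ} (σ : Sing X m) (h : Set.range σ ⊆ U) :
    (inc U).comp (cod σ h) = σ := rfl

theorem inc_inj {U : Set X} {m : ℕ} {σ τ : Sing U m} (h : (inc U).comp σ = (inc U).comp τ) :
    σ = τ := by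
  ext t
  exact congrArg (fun f => f t) h

theorem range_inc {U : Set X} {m : ℕ} (σ : Sing U m) : Set.range ((inc U).comp σ) ⊆ U := by
  rintro _ ⟨t, rfl⟩
  exact (σ t).2

theorem lin_congr {S : Type} {M : Type} [AddCommGroup M] (s : Set S) (L L' : (S →₀ ℤ) →ₗ[ℤ] M)
    (h : ∀ a ∈ s, L (single a 1) = L' (single a 1)) (z : S →₀ ℤ)
    (hz : z ∈ supported ℤ ℤ s) : L z = L' z := by
  have := supported_map s (L - L') ⊥ (by
    intro a ha
    rw [LinearMap.sub_apply, h a ha, sub_self]
    exact Submodule.zero_mem _) z hz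
  rw [Submodule.mem_bot, LinearMap.sub_apply, sub_eq_zero] at this
  exact this

/-- simplices inside a set -/
def inS (U : Set X) (m : ℕ) : Set (Sing X m) := {σ | Set.range σ ⊆ U}

open Classical in
theorem lift_ch (U : Set X) (m : ℕ) (z : Ch X m) (hz : z ∈ supported ℤ ℤ (inS U m)) :
    ∃ z' : Ch U m, psh (inc U) m z' = z := by
  let L : Ch X m →ₗ[ℤ] Ch U m := linearCombination ℤ
    (fun σ => if h : Set.range σ ⊆ U then single (cod σ h) (1 : ℤ) else 0)
  refine ⟨L z, ?_⟩
  refine lin_congr (inS U m) ((psh (inc U) m).comp L) LinearMap.id ?_ z hz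
  intro σ hσ
  have hσ' : Set.range σ ⊆ U := hσ
  simp only [LinearMap.comp_apply, L, linearCombination_single, one_smul, dif_pos hσ',
    psh_single, inc_cod, LinearMap.id_apply]

theorem psh_inc_inj (U : Set X) (m : ℕ) : Function.Injective (psh (inc U) m) := by
  unfold psh
  exact Finsupp.mapDomain_injective (fun _ _ h => inc_inj h)

theorem psh_inc_mem (U : Set X) (m : ℕ) (z : Ch U m) :
    psh (inc U) m z ∈ supported ℤ ℤ (inS U m) := by
  have hz : z ∈ supported ℤ ℤ (Set.univ : Set (Sing U m)) := by simp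
  refine supported_map _ (psh (inc U) m) _ ?_ z hz
  intro σ _
  rw [psh_single]
  exact single_mem_supported' (range_inc σ)

theorem psh_incl_inj {U V : Set X} (h : U ⊆ V) (m : ℕ) : Function.Injective (psh (incl h) m) := by
  intro a b hab
  apply psh_inc_inj U m
  rw [← inc_incl h, ← psh_psh, ← psh_psh, hab]

theorem inS_small {U V : Set X} (m : ℕ) (z : Ch X m)
    (hz : z ∈ supported ℤ ℤ (smallSet {U, V} m)) :
    ∃ (a : Ch U m) (b : Ch V m), z = psh (inc U) m a + psh (inc V) m b := by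
  classical
  have h1 : z.filter (fun σ : Sing X m => Set.range σ ⊆ U) ∈ supported ℤ ℤ (inS U m) := by
    rw [mem_supported']
    intro σ hσ
    exact filter_apply_neg _ _ hσ
  have h2 : z.filter (fun σ : Sing X m => ¬ Set.range σ ⊆ U) ∈ supported ℤ ℤ (inS V m) := by
    rw [mem_supported']
    intro σ hσ
    by_cases h : Set.range σ ⊆ U
    · exact filter_apply_neg _ _ (not_not.mpr h)
    · refine (filter_apply_pos (fun σ : Sing X m => ¬ Set.range σ ⊆ U) z h).trans ?_
      rw [mem_supported'] at hz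
      apply hz
      rintro ⟨C, hC, h'⟩
      rcases hC with rfl | hC
      · exact h h'
      · rw [Set.mem_singleton_iff] at hC
        subst hC
        exact hσ h'
  obtain ⟨a, ha⟩ := lift_ch U m _ h1
  obtain ⟨b, hb⟩ := lift_ch V m _ h2
  refine ⟨a, b, ?_⟩
  rw [ha, hb, filter_add_filter_not]

theorem both {U V : Set X} (m : ℕ) (a : Ch U m) (b : Ch V m)
    (h : psh (inc U) m a = psh (inc V) m b) :
    ∃ c : Ch (U ∩ V : Set X) m, psh (incl Set.inter_subset_left) m c = a ∧
      psh (incl Set.inter_subset_right) m c = b := by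
  have h1 := psh_inc_mem U m a
  have h2 := psh_inc_mem V m b
  rw [← h] at h2
  have h3 : psh (inc U) m a ∈ supported ℤ ℤ (inS (U ∩ V) m) := by
    rw [mem_supported'] at h1 h2 ⊢
    intro σ hσ
    by_cases hu : Set.range σ ⊆ U
    · apply h2
      intro hv
      exact hσ (Set.subset_inter hu hv)
    · exact h1 σ hu
  obtain ⟨c, hc⟩ := lift_ch (U ∩ V) m _ h3
  refine ⟨c, ?_, ?_⟩
  · apply psh_inc_inj U m
    rw [psh_psh, inc_incl, hc]
  · apply psh_inc_inj V m
    rw [psh_psh, inc_incl, hc, h]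

theorem isCyc_of_psh {Y : Type} [TopologicalSpace Y] (f : C(X, Y))
    (m : ℕ) (hf : ∀ m, Function.Injective (psh f m)) (z : Ch X m)
    (hz : IsCyc m (psh f m z)) : IsCyc m z := by
  cases m with
  | zero =>
    change (psh f 0 z).sum (fun _ a => a) = 0 at hz
    rw [psh, Finsupp.lmapDomain_apply, Finsupp.sum_mapDomain_index (by simp) (by simp)] at hz
    exact hz
  | succ m =>
    change sbd Y m (psh f (m + 1) z) = 0 at hz
    rw [sbd_psh] at hz
    apply hf m
    rw [map_zero]
    exact hz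

theorem isCyc_sbd (m : ℕ) (z : Ch X (m + 1)) : IsCyc m (sbd X m z) := by
  cases m with
  | zero =>
    have h1 : ∀ w : Ch X 0, w.sum (fun _ a => a) = linearCombination ℤ (fun _ : Sing X 0 => (1 : ℤ)) w := by
      intro w
      rw [linearCombination_apply]
      simp
    change (sbd X 0 z).sum (fun _ a => a) = 0
    rw [h1]
    refine ext_ch (L := (linearCombination ℤ (fun _ : Sing X 0 => (1 : ℤ))).comp (sbd X 0))
      (L' := 0) ?_ z
    intro σ
    simp only [LinearMap.comp_apply, LinearMap.zero_apply]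
    rw [sbd, bd_single, Fin.sum_univ_two]
    simp
  | succ m => exact sbd_sbd m z

theorem isBdy_neg {m : ℕ} {z : Ch X m} (hz : IsBdy m z) : IsBdy m (-z) := by
  obtain ⟨y, rfl⟩ := hz
  exact ⟨-y, map_neg _ _⟩

/-- homotopy invariance of acyclicity (domination) -/
theorem racyc_of_htpy {Y : Type} [TopologicalSpace Y] (f : C(X, Y)) (g : C(Y, X))
    (H : C(X × unitInterval, X)) (h0 : slice H 0 = g.comp f) (h1 : slice H 1 = ContinuousMap.id X)
    (m : ℕ) (hY : RAcyc Y m) : RAcyc X m := by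
  intro z hz
  have h2 := htpy_bdy H m z hz
  rw [h0, h1, psh_id, ← psh_psh] at h2
  have h3 := isBdy_psh g m _ (hY _ (isCyc_psh f m z hz))
  have := isBdy_add h2 h3
  rwa [sub_add_cancel] at this

/-- transfer along a retraction -/
theorem racyc_of_retract {Y : Type} [TopologicalSpace Y] (f : C(X, Y)) (g : C(Y, X))
    (h : g.comp f = ContinuousMap.id X) (m : ℕ) (hY : RAcyc Y m) : RAcyc X m := by
  intro z hz
  have h3 := isBdy_psh g m _ (hY _ (isCyc_psh f m z hz))
  rwa [psh_psh, h, psh_id] at h3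

theorem small_open {U V : Set X} (hU : IsOpen U) (hV : IsOpen V) :
    ∀ C ∈ ({U, V} : Set (Set X)), IsOpen C := by
  rintro C (rfl | hC)
  · exact hU
  · rw [Set.mem_singleton_iff] at hC
    rw [hC]
    exact hV

omit [TopologicalSpace X] in
theorem small_cov {U V : Set X} (hc : ∀ x, x ∈ U ∨ x ∈ V) :
    ∀ x : X, ∃ C ∈ ({U, V} : Set (Set X)), x ∈ C := by
  intro x
  rcases hc x with h | h
  · exact ⟨U, by simp, h⟩
  · exact ⟨V, by simp, h⟩

theorem mv_acyc_zero {U V : Set X} (hU : IsOpen U) (hV : IsOpen V) (hc : ∀ x, x ∈ U ∨ x ∈ V)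
    (p : X) (hpU : p ∈ U) (hpV : p ∈ V) (h0U : RAcyc U 0) (h0V : RAcyc V 0) : RAcyc X 0 := by
  intro z hz
  have h1 : z ∈ supported ℤ ℤ (smallSet {U, V} 0) :=
    rho_small {U, V} (small_open hU hV) (small_cov hc) 0 z
  obtain ⟨a, b, rfl⟩ := inS_small 0 z h1
  set s : Ch X 0 →ₗ[ℤ] ℤ := linearCombination ℤ (fun _ : Sing X 0 => (1 : ℤ)) with hs
  have hcy : ∀ (Y : Type) [TopologicalSpace Y] (w : Ch Y 0), IsCyc 0 w ↔
      linearCombination ℤ (fun _ : Sing Y 0 => (1 : ℤ)) w = 0 := by
    intro Y _ w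
    change w.sum (fun _ a => a) = 0 ↔ _
    rw [linearCombination_apply]
    simp
  set α := linearCombination ℤ (fun _ : Sing U 0 => (1 : ℤ)) a with hα
  have hpsh : ∀ (Y Z : Type) [TopologicalSpace Y] [TopologicalSpace Z] (f : C(Y, Z)) (w : Ch Y 0),
      linearCombination ℤ (fun _ : Sing Z 0 => (1 : ℤ)) (psh f 0 w) =
      linearCombination ℤ (fun _ : Sing Y 0 => (1 : ℤ)) w := by
    intro Y Z _ _ f w
    exact evm_psh f (fun _ : Sing Z 0 => (1 : ℤ)) w
  have hsum : α + linearCombination ℤ (fun _ : Sing V 0 => (1 : ℤ)) b = 0 := by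
    rw [hcy, map_add, hpsh, hpsh] at hz
    exact hz
  set pU : Sing U 0 := ContinuousMap.const _ ⟨p, hpU⟩
  set pV : Sing V 0 := ContinuousMap.const _ ⟨p, hpV⟩
  have ha : IsCyc 0 (a - α • single pU (1 : ℤ)) := by
    rw [hcy, map_sub, map_smul, linearCombination_single, ← hα]
    simp
  have hb : IsCyc 0 (b + α • single pV (1 : ℤ)) := by
    rw [hcy, map_add, map_smul, linearCombination_single]
    simp only [smul_eq_mul, mul_one]
    linarith
  have := isBdy_add (isBdy_psh (inc U) 0 _ (h0U _ ha)) (isBdy_psh (inc V) 0 _ (h0V _ hb))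
  rw [map_sub, map_add, map_smul, map_smul, psh_single, psh_single] at this
  have he : (inc U).comp pU = (inc V).comp pV := rfl
  rw [he] at this
  have h2 : psh (inc U) 0 a - α • single ((inc V).comp pV) (1 : ℤ) +
      (psh (inc V) 0 b + α • single ((inc V).comp pV) (1 : ℤ)) =
      psh (inc U) 0 a + psh (inc V) 0 b := by abel
  rwa [h2] at this

theorem mv_acyc_succ {U V : Set X} (hU : IsOpen U) (hV : IsOpen V) (hc : ∀ x, x ∈ U ∨ x ∈ V)
    (j : ℕ) (h1U : RAcyc U (j + 1)) (h1V : RAcyc V (j + 1)) (h2 : RAcyc (U ∩ V : Set X) j) :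
    RAcyc X (j + 1) := by
  intro z hz
  have hz' : sbd X j z = 0 := hz
  have h1 : rho {U, V} (j + 1) z ∈ supported ℤ ℤ (smallSet {U, V} (j + 1)) :=
    rho_small {U, V} (small_open hU hV) (small_cov hc) (j + 1) z
  have h3 : rho {U, V} (j + 1) z = z - sbd X (j + 1) (DD {U, V} (j + 1) z) := by
    rw [rho_succ, hz', map_zero, sub_zero]
  obtain ⟨a, b, hab⟩ := inS_small (j + 1) _ h1
  have h4 : psh (inc U) j (sbd U j a) = psh (inc V) j (sbd V j (-b)) := by
    rw [← sbd_psh, ← sbd_psh, map_neg, map_neg, ← sub_eq_zero, sub_neg_eq_add, ← map_add, ← hab,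
      h3, map_sub, hz', sbd_sbd, sub_zero]
  obtain ⟨c, hca, hcb⟩ := both j _ _ h4
  have hcc : IsCyc j c := by
    apply isCyc_of_psh _ j (psh_incl_inj Set.inter_subset_left)
    rw [hca]
    exact isCyc_sbd j a
  obtain ⟨u, hu⟩ := h2 c hcc
  have ha : IsCyc (j + 1) (a - psh (incl Set.inter_subset_left) (j + 1) u) := by
    change sbd U j _ = 0
    rw [map_sub, sbd_psh, hu, hca, sub_self]
  have hb : IsCyc (j + 1) (b + psh (incl Set.inter_subset_right) (j + 1) u) := by
    change sbd V j _ = 0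
    rw [map_add, sbd_psh, hu, hcb, map_neg, add_neg_cancel]
  have h5 := isBdy_add (isBdy_psh (inc U) _ _ (h1U _ ha)) (isBdy_psh (inc V) _ _ (h1V _ hb))
  rw [map_sub, map_add, psh_psh, psh_psh, inc_incl, inc_incl] at h5
  have h6 : psh (inc U) (j + 1) a - psh (inc (U ∩ V)) (j + 1) u +
      (psh (inc V) (j + 1) b + psh (inc (U ∩ V)) (j + 1) u) =
      z - sbd X (j + 1) (DD {U, V} (j + 1) z) := by
    rw [← h3, hab]
    abel
  rw [h6] at h5
  have h7 : IsBdy (j + 1) (sbd X (j + 1) (DD {U, V} (j + 1) z)) := ⟨_, rfl⟩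
  have := isBdy_add h5 h7
  rwa [sub_add_cancel] at this

theorem altd_add {n : ℕ} (c c' : Sing X n → ℤ) : altd ℤ (sface (X := X)) n (c + c') =
    altd ℤ (sface (X := X)) n c + altd ℤ (sface (X := X)) n c' := map_add _ _ _

theorem altd_altd' {n : ℕ} (c : Sing X n → ℤ) :
    altd ℤ (sface (X := X)) (n + 1) (altd ℤ (sface (X := X)) n c) = 0 := by
  funext σ
  rw [← evm_single (altd ℤ (sface (X := X)) (n + 1) _) σ, ← ev_sbd, ← ev_sbd, sbd_sbd, map_zero]
  rfl

open Classical in
theorem mv_coc {U V : Set X} (hU : IsOpen U) (hV : IsOpen V) (hc : ∀ x, x ∈ U ∨ x ∈ V)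
    (n : ℕ) (ιU : Sing U (n + 1) → ℤ) (hιU : altd ℤ (sface (X := U)) (n + 1) ιU = 0)
    (ιV : Sing V (n + 1) → ℤ) (hιV : altd ℤ (sface (X := V)) (n + 1) ιV = 0)
    (ε : Sing (U ∩ V : Set X) n → ℤ)
    (hε : pb (incl Set.inter_subset_right) ιV - pb (incl Set.inter_subset_left) ιU =
      altd ℤ (sface (X := (U ∩ V : Set X))) n ε) :
    ∃ ι : Sing X (n + 1) → ℤ, altd ℤ (sface (X := X)) (n + 1) ι = 0 ∧
      ∀ z : Ch U (n + 1), sbd U n z = 0 → evm ι (psh (inc U) (n + 1) z) = evm ιU z := by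
  set ε' : Sing X n → ℤ := fun σ => if h : Set.range σ ⊆ U ∩ V then ε (cod σ h) else 0 with hε'
  have hε'2 : pb (inc (U ∩ V)) ε' = ε := by
    funext σ
    change ε' ((inc (U ∩ V)).comp σ) = ε σ
    rw [hε']
    simp only [range_inc σ, dif_pos]
    rfl
  set ι' : Sing X (n + 1) → ℤ := fun σ =>
    if h : Set.range σ ⊆ U then ιU (cod σ h) + altd ℤ (sface (X := X)) n ε' σ
    else if h : Set.range σ ⊆ V then ιV (cod σ h) else 0 with hι'
  have hA : pb (inc U) ι' = ιU + pb (inc U) (altd ℤ (sface (X := X)) n ε') := by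
    funext σ
    change ι' ((inc U).comp σ) = ιU σ + altd ℤ (sface (X := X)) n ε' ((inc U).comp σ)
    rw [hι']
    simp only [range_inc σ, dif_pos]
    rfl
  have hB : pb (inc V) ι' = ιV := by
    funext σ
    change ι' ((inc V).comp σ) = ιV σ
    rw [hι']
    by_cases h : Set.range ((inc V).comp σ) ⊆ U
    · simp only [h, dif_pos]
      have h' : Set.range ((inc V).comp σ) ⊆ U ∩ V := Set.subset_inter h (range_inc σ)
      have h1 := congrFun hε (cod _ h')
      have h2 : altd ℤ (sface (X := X)) n ε' ((inc V).comp σ) =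
          altd ℤ (sface (X := (U ∩ V : Set X))) n ε (cod _ h') := by
        rw [← hε'2]
        rfl
      rw [h2, ← h1]
      change ιU (cod _ h) + (ιV σ - ιU (cod _ h)) = ιV σ
      ring
    · simp only [h, dif_neg, not_false_eq_true, range_inc σ, dif_pos]
      rfl
  have hsm : ∀ τ ∈ smallSet {U, V} (n + 2), altd ℤ (sface (X := X)) (n + 1) ι' τ = 0 := by
    rintro τ ⟨C, hC, h⟩
    rcases hC with rfl | hC
    · have h1 : altd ℤ (sface (X := X)) (n + 1) ι' τ =
          altd ℤ (sface (X := C)) (n + 1) (pb (inc C) ι') (cod τ h) := rfl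
      rw [h1, hA, altd_add, hιU, zero_add, altd_pb, altd_altd']
      rfl
    · rw [Set.mem_singleton_iff] at hC
      subst hC
      have h1 : altd ℤ (sface (X := X)) (n + 1) ι' τ =
          altd ℤ (sface (X := C)) (n + 1) (pb (inc C) ι') (cod τ h) := rfl
      rw [h1, hB, hιV]
      rfl
  refine ⟨fun σ => evm ι' (rho {U, V} (n + 1) (single σ 1)), ?_, ?_⟩
  · funext τ
    have hlin : evm (fun σ => evm ι' (rho {U, V} (n + 1) (single σ 1))) =
        (evm ι').comp (rho {U, V} (n + 1)) := by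
      apply Finsupp.lhom_ext'
      intro σ
      apply LinearMap.ext_ring
      simp only [LinearMap.comp_apply, lsingle_apply, linearCombination_single, one_smul]
    rw [← evm_single (altd ℤ (sface (X := X)) (n + 1) _) τ, ← ev_sbd, hlin, LinearMap.comp_apply,
      ← sbd_rho, ev_sbd]
    have h1 := rho_small {U, V} (small_open hU hV) (small_cov hc) (n + 2) (single τ (1 : ℤ))
    have h2 := lin_congr (smallSet {U, V} (n + 2))
      (evm (altd ℤ (sface (X := X)) (n + 1) ι')) 0 (by
        intro a ha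
        rw [evm_single, hsm a ha]
        rfl) _ h1
    rw [h2]
    rfl
  · intro z hz
    have hlin : evm (fun σ => evm ι' (rho {U, V} (n + 1) (single σ 1))) =
        (evm ι').comp (rho {U, V} (n + 1)) := by
      apply Finsupp.lhom_ext'
      intro σ
      apply LinearMap.ext_ring
      simp only [LinearMap.comp_apply, lsingle_apply, linearCombination_single, one_smul]
    rw [hlin, LinearMap.comp_apply, rho_id]
    · rw [evm_psh, hA]
      have h1 : evm (ιU + pb (inc U) (altd ℤ (sface (X := X)) n ε')) z =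
          evm ιU z + evm (pb (inc U) (altd ℤ (sface (X := X)) n ε')) z := by
        refine ext_ch (L := evm (ιU + pb (inc U) (altd ℤ (sface (X := X)) n ε')))
          (L' := evm ιU + evm (pb (inc U) (altd ℤ (sface (X := X)) n ε'))) ?_ z
        intro σ
        rw [LinearMap.add_apply, evm_single, evm_single, evm_single]
        rfl
      rw [h1, ← altd_pb, ← ev_sbd, hz, map_zero, add_zero]
    · refine supported_mono (M := ℤ) (R := ℤ) ?_ (psh_inc_mem U (n + 1) z)
      intro σ hσ
      exact ⟨U, by simp, hσ⟩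

end MV

end Pool.Agent.H904R2
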