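import Pool.Agent.H904R2.SingG
import Pool.Agent.H904R2.Cc

/-! Frames of idempotent matrices. -/

set_option autoImplicit false

namespace Pool.Agent.H904R2

open Pool.Agent.Helper922.HB.Sc (Sing sface altd bd sbd)

/-- pairs `(A, B)` of a `κ × r` and an `r × κ` matrix with `B A = 1`: a frame `A` of the image of
the idempotent matrix `A B` -/
abbrev PF (κ : Type) [Fintype κ] (r : ℕ) : Type :=
  {p : Matrix κ (Fin r) ℂ × Matrix (Fin r) κ ℂ // p.2 * p.1 = 1}

namespace PF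

variable {κ : Type} [Fintype κ] {r : ℕ}

/-- the idempotent -/
def P (p : PF κ r) : Matrix κ κ ℂ := p.1.1 * p.1.2

theorem P_mul_fst (p : PF κ r) : p.P * p.1.1 = p.1.1 := by
  rw [P, Matrix.mul_assoc, p.2, Matrix.mul_one]

theorem snd_mul_P (p : PF κ r) : p.1.2 * p.P = p.1.2 := by
  rw [P, ← Matrix.mul_assoc, p.2, Matrix.one_mul]

theorem continuous_P : Continuous (P : PF κ r → Matrix κ κ ℂ) := by
  unfold P
  exact (continuous_fst.comp continuous_subtype_val).matrix_mul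
    (continuous_snd.comp continuous_subtype_val)

/-- change of frame -/
def act (p : PF κ r) (g : GLr r) : PF κ r :=
  ⟨(p.1.1 * (g : Matrix (Fin r) (Fin r) ℂ), ((g⁻¹ : GLr r) : Matrix (Fin r) (Fin r) ℂ) * p.1.2), by
    change ((g⁻¹ : GLr r) : Matrix (Fin r) (Fin r) ℂ) * p.1.2 *
      (p.1.1 * (g : Matrix (Fin r) (Fin r) ℂ)) = 1
    rw [Matrix.mul_assoc, ← Matrix.mul_assoc p.1.2, p.2, Matrix.one_mul, ← Units.val_mul,
      inv_mul_cancel, Units.val_one]⟩

theorem P_act (p : PF κ r) (g : GLr r) : (p.act g).P = p.P := by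
  change p.1.1 * (g : Matrix (Fin r) (Fin r) ℂ) *
    (((g⁻¹ : GLr r) : Matrix (Fin r) (Fin r) ℂ) * p.1.2) = p.1.1 * p.1.2
  rw [Matrix.mul_assoc, ← Matrix.mul_assoc (g : Matrix (Fin r) (Fin r) ℂ), ← Units.val_mul,
    mul_inv_cancel, Units.val_one, Matrix.one_mul]

theorem act_act (p : PF κ r) (g h : GLr r) : (p.act g).act h = p.act (g * h) := by
  apply Subtype.ext
  apply Prod.ext
  · change p.1.1 * (g : Matrix (Fin r) (Fin r) ℂ) * (h : Matrix (Fin r) (Fin r) ℂ) =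
      p.1.1 * ((g * h : GLr r) : Matrix (Fin r) (Fin r) ℂ)
    rw [Units.val_mul, Matrix.mul_assoc]
  · change ((h⁻¹ : GLr r) : Matrix (Fin r) (Fin r) ℂ) * (((g⁻¹ : GLr r) : Matrix (Fin r) (Fin r) ℂ) *
      p.1.2) = (((g * h)⁻¹ : GLr r) : Matrix (Fin r) (Fin r) ℂ) * p.1.2
    rw [mul_inv_rev, Units.val_mul, Matrix.mul_assoc]

theorem act_one (p : PF κ r) : p.act 1 = p := by
  apply Subtype.ext
  apply Prod.ext
  · change p.1.1 * ((1 : GLr r) : Matrix (Fin r) (Fin r) ℂ) = p.1.1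
    rw [Units.val_one, Matrix.mul_one]
  · change (((1 : GLr r)⁻¹ : GLr r) : Matrix (Fin r) (Fin r) ℂ) * p.1.2 = p.1.2
    rw [inv_one, Units.val_one, Matrix.one_mul]

theorem mul_dif (p p' : PF κ r) (h : p.P = p'.P) : p.1.1 * (p.1.2 * p'.1.1) = p'.1.1 := by
  rw [← Matrix.mul_assoc]
  change p.P * p'.1.1 = p'.1.1
  rw [h, P_mul_fst]

/-- the change of frame between two frames of the same idempotent -/
def dif (p p' : PF κ r) (h : p.P = p'.P) : GLr r :=
  ⟨p.1.2 * p'.1.1, p'.1.2 * p.1.1, by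
    rw [Matrix.mul_assoc, mul_dif p' p h.symm, p.2], by
    rw [Matrix.mul_assoc, mul_dif p p' h, p'.2]⟩

theorem act_dif (p p' : PF κ r) (h : p.P = p'.P) : p.act (p.dif p' h) = p' := by
  apply Subtype.ext
  apply Prod.ext
  · exact mul_dif p p' h
  · change p'.1.2 * p.1.1 * p.1.2 = p'.1.2
    rw [Matrix.mul_assoc]
    change p'.1.2 * p.P = p'.1.2
    rw [h, snd_mul_P]

theorem act_inj (p : PF κ r) (g h : GLr r) (hh : p.act g = p.act h) : g = h := by
  apply Units.ext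
  have h1 : p.1.1 * (g : Matrix (Fin r) (Fin r) ℂ) = p.1.1 * (h : Matrix (Fin r) (Fin r) ℂ) :=
    congrArg (fun x => x.1.1) hh
  have h2 := congrArg (fun x => p.1.2 * x) h1
  simp only [← Matrix.mul_assoc, p.2, Matrix.one_mul] at h2
  exact h2

/-- add zero rows -/
def pad (p : PF κ r) : PF (κ ⊕ Fin r) r :=
  ⟨(Matrix.fromRows p.1.1 0, Matrix.fromCols p.1.2 0), by
    change Matrix.fromCols p.1.2 0 * Matrix.fromRows p.1.1 0 = 1
    rw [Matrix.fromCols_mul_fromRows, p.2, Matrix.zero_mul, add_zero]⟩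

end PF

end Pool.Agent.H904R2
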