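import Pool.Agent.H904R2.Cc
import Pool.Agent.H904R2.Ball
import Pool.Agent.H904R2.Sphere
import Pool.Agent.H904R2.Cell

/-!
# Task T9 (helper498): relative acyclicity of skeleta of a CW complex
-/

set_option autoImplicit false
set_option linter.unusedSectionVars false

namespace Pool.Agent.H904R2

open Finsupp Topology
open Pool.Agent.Helper922.HB.Sc (Sing sface altd bd sbd supported_map single_mem_supported'
  sbd_sbd range_sface)
open Pool.Agent.H904R2.Sph (sup inc exists_lift psh_inc_mem psh_single sbd_single sbd_psh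
  sbd_mem_sup sup_mono inc_injective liftS)

/-- the chosen homeomorphism -/
noncomputable def sball (n : ℕ) : C(stdSimplex ℝ (Fin (n + 1)), Fin n → ℝ) :=
  (exists_simplex_ball n).choose

theorem sball_spec (n : ℕ) : Function.Injective (sball n) ∧
    Set.range (sball n) = Metric.closedBall (0 : Fin n → ℝ) 1 ∧
      ∀ t, (∃ i, t.1 i = 0) ↔ sball n t ∈ Metric.sphere (0 : Fin n → ℝ) 1 :=
  (exists_simplex_ball n).choose_spec

/-- boundary condition -/
def BC {X : Type} [TopologicalSpace X] (A : ∀ m, Set (Sing X m)) : ∀ m, Ch X m → Prop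
  | 0, _ => True
  | (m + 1), z => sbd X m z ∈ supported ℤ ℤ (A m)

theorem cell_acyc' {X : Type} [TopologicalSpace X] [T2Space X] (Y : Set X) (hY : IsClosed Y)
    (n : ℕ) (Φ : Sing X n) (hcov : Y ∪ Set.range Φ = Set.univ)
    (hbd : ∀ t : stdSimplex ℝ (Fin (n + 1)), (∃ i, t.1 i = 0) → Φ t ∈ Y)
    (hint : ∀ t : stdSimplex ℝ (Fin (n + 1)), (∀ i, t.1 i ≠ 0) → Φ t ∉ Y)
    (hinj : ∀ s t : stdSimplex ℝ (Fin (n + 1)), (∀ i, s.1 i ≠ 0) → (∀ i, t.1 i ≠ 0) →
      Φ s = Φ t → s = t) (m : ℕ) (z : Ch X m) (hz : BC (cellSet Y Φ) m z) :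
    ∃ y : Ch X (m + 1), z - sbd X m y ∈ supported ℤ ℤ (cellSet Y Φ m) := by
  obtain ⟨h1, h2⟩ := cell_acyc Y hY n Φ hcov hbd hint hinj
  cases m with
  | zero => exact h1 z
  | succ m => exact h2 m z hz

section CW

variable (X : Type) [TopologicalSpace X] [T2Space X] [CWComplex (Set.univ : Set X)]

/-- union of the cells of dimension `< k` -/
def sk (k : ℕ) : Set X := (RelCWComplex.skeletonLT (Set.univ : Set X) (k : ℕ∞) : Set X)

variable {X}

/-- the characteristic map of a cell, as a singular simplex -/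
noncomputable def cellS (k : ℕ) (e : RelCWComplex.cell (Set.univ : Set X) k) : Sing X k :=
  ⟨fun t => RelCWComplex.map k e (sball k t), by
    rw [← continuousOn_univ]
    refine (RelCWComplex.continuousOn k e).comp (sball k).continuous.continuousOn ?_
    intro t _
    rw [← (sball_spec k).2.1]
    exact ⟨t, rfl⟩⟩

/-- simplices in the union of the cells of dimension `< k` and the characteristic maps of the
`k`-cells -/
def skA (k m : ℕ) : Set (Sing X m) :=
  {σ | Set.range σ ⊆ sk X k ∨ ∃ e : RelCWComplex.cell (Set.univ : Set X) k,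
    (⟨m, σ⟩ : Σ q, Sing X q) = ⟨k, cellS k e⟩}

/-- chains in the union of the cells of dimension `< k` -/
def skC (k m : ℕ) : Submodule ℤ (Ch X m) := supported ℤ ℤ {σ : Sing X m | Set.range σ ⊆ sk X k}

/-! ### the cells -/

theorem range_cellS (k : ℕ) (e : RelCWComplex.cell (Set.univ : Set X) k) :
    Set.range (cellS k e) = RelCWComplex.closedCell k e := by
  have h : Set.range (cellS k e) = RelCWComplex.map k e '' (Set.range (sball k)) := by
    rw [← Set.range_comp]
    rfl
  rw [h, (sball_spec k).2.1]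
  rfl

theorem cellS_bd (k : ℕ) (e : RelCWComplex.cell (Set.univ : Set X) k)
    (t : stdSimplex ℝ (Fin (k + 1))) (ht : ∃ i, t.1 i = 0) : cellS k e t ∈ sk X k := by
  apply RelCWComplex.cellFrontier_subset_skeletonLT k e
  exact ⟨sball k t, ((sball_spec k).2.2 t).mp ht, rfl⟩

theorem sball_mem_ball (k : ℕ) (t : stdSimplex ℝ (Fin (k + 1))) (ht : ∀ i, t.1 i ≠ 0) :
    sball k t ∈ Metric.ball (0 : Fin k → ℝ) 1 := by
  have h1 : sball k t ∈ Metric.closedBall (0 : Fin k → ℝ) 1 := by
    rw [← (sball_spec k).2.1]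
    exact ⟨t, rfl⟩
  have h2 : sball k t ∉ Metric.sphere (0 : Fin k → ℝ) 1 := by
    rw [← (sball_spec k).2.2 t]
    rintro ⟨i, hi⟩
    exact ht i hi
  rw [Metric.mem_closedBall] at h1
  rw [Metric.mem_sphere] at h2
  exact lt_of_le_of_ne h1 h2

theorem cellS_int (k : ℕ) (e : RelCWComplex.cell (Set.univ : Set X) k)
    (t : stdSimplex ℝ (Fin (k + 1))) (ht : ∀ i, t.1 i ≠ 0) :
    cellS k e t ∈ RelCWComplex.openCell k e :=
  ⟨sball k t, sball_mem_ball k t ht, rfl⟩

theorem cellS_inj (k : ℕ) (e : RelCWComplex.cell (Set.univ : Set X) k)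
    (s t : stdSimplex ℝ (Fin (k + 1))) (hs : ∀ i, s.1 i ≠ 0) (ht : ∀ i, t.1 i ≠ 0)
    (h : cellS k e s = cellS k e t) : s = t := by
  apply (sball_spec k).1
  have hinj := (RelCWComplex.map (C := (Set.univ : Set X)) k e).injOn
  rw [RelCWComplex.source_eq] at hinj
  exact hinj (sball_mem_ball k s hs) (sball_mem_ball k t ht) h

theorem disj_sk (k : ℕ) (e : RelCWComplex.cell (Set.univ : Set X) k) :
    Disjoint (sk X k) (RelCWComplex.openCell k e) :=
  RelCWComplex.disjoint_skeletonLT_openCell le_rfl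

theorem sk_closed (k : ℕ) : IsClosed (sk X k) :=
  (RelCWComplex.skeletonLT (Set.univ : Set X) (k : ℕ∞)).closed

theorem sk_mono_succ (k : ℕ) : sk X k ⊆ sk X (k + 1) :=
  RelCWComplex.skeletonLT_mono (by exact_mod_cast Nat.le_succ k)

theorem closedCell_sub (k : ℕ) (e : RelCWComplex.cell (Set.univ : Set X) k) :
    RelCWComplex.closedCell k e ⊆ sk X (k + 1) := by
  have := RelCWComplex.closedCell_subset_skeletonLT (C := (Set.univ : Set X)) k e
  intro x hx
  have h := this hx
  unfold sk
  push_cast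
  exact h

theorem closedCell_eq (k : ℕ) (e : RelCWComplex.cell (Set.univ : Set X) k) (x : X)
    (hx : x ∈ RelCWComplex.closedCell k e) : x ∈ sk X k ∨ x ∈ RelCWComplex.openCell k e := by
  rw [← RelCWComplex.cellFrontier_union_openCell_eq_closedCell] at hx
  rcases hx with h | h
  · exact Or.inl (RelCWComplex.cellFrontier_subset_skeletonLT k e h)
  · exact Or.inr h

/-- `X_k` together with finitely many `k`-cells -/
def YF (k : ℕ) (F : Finset (RelCWComplex.cell (Set.univ : Set X) k)) : Set X :=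
  sk X k ∪ ⋃ e ∈ F, RelCWComplex.closedCell k e

theorem YF_closed (k : ℕ) (F : Finset (RelCWComplex.cell (Set.univ : Set X) k)) :
    IsClosed (YF k F) := by
  refine (sk_closed k).union ?_
  exact F.finite_toSet.isClosed_biUnion fun e _ => RelCWComplex.isClosed_closedCell

theorem YF_sub (k : ℕ) (F : Finset (RelCWComplex.cell (Set.univ : Set X) k)) :
    YF k F ⊆ sk X (k + 1) := by
  refine Set.union_subset (sk_mono_succ k) ?_
  exact Set.iUnion₂_subset fun e _ => closedCell_sub k e

theorem YF_mem (k : ℕ) (F : Finset (RelCWComplex.cell (Set.univ : Set X) k))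
    (e : RelCWComplex.cell (Set.univ : Set X) k) (he : e ∈ F) :
    RelCWComplex.closedCell k e ⊆ YF k F := by
  intro x hx
  refine Or.inr ?_
  exact Set.mem_iUnion₂.mpr ⟨e, he, hx⟩

theorem YF_disj (k : ℕ) (F : Finset (RelCWComplex.cell (Set.univ : Set X) k))
    (e : RelCWComplex.cell (Set.univ : Set X) k) (he : e ∉ F) :
    Disjoint (YF k F) (RelCWComplex.openCell k e) := by
  rw [Set.disjoint_left]
  intro x hx hxe
  rcases hx with h | h
  · exact Set.disjoint_left.mp (disj_sk k e) h hxe
  · obtain ⟨e', he', hx'⟩ := Set.mem_iUnion₂.mp h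
    rcases closedCell_eq k e' x hx' with h1 | h1
    · exact Set.disjoint_left.mp (disj_sk k e) h1 hxe
    · have hne : (⟨k, e'⟩ : Σ n, RelCWComplex.cell (Set.univ : Set X) n) ≠ ⟨k, e⟩ := by
        intro heq
        have := eq_of_heq (Sigma.mk.inj_iff.mp heq).2
        exact he (this ▸ he')
      exact Set.disjoint_left.mp (RelCWComplex.disjoint_openCell_of_ne hne) h1 hxe

theorem openCell_ne (k : ℕ) (e : RelCWComplex.cell (Set.univ : Set X) k) :
    (RelCWComplex.openCell (C := (Set.univ : Set X)) k e).Nonempty :=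
  RelCWComplex.openCell_nonempty k e

/-! ### compact sets meet finitely many cells -/

theorem finite_cells (k : ℕ) (K : Set X) (hK : IsCompact K) :
    {e : RelCWComplex.cell (Set.univ : Set X) k | (K ∩ RelCWComplex.openCell k e).Nonempty}.Finite := by
  classical
  set T := {e : RelCWComplex.cell (Set.univ : Set X) k |
    (K ∩ RelCWComplex.openCell k e).Nonempty} with hT
  choose p hp using (fun e : T => e.2)
  have hpinj : Function.Injective p := by
    intro e e' h
    by_contra hne
    have hne' : (⟨k, e.1⟩ : Σ n, RelCWComplex.cell (Set.univ : Set X) n) ≠ ⟨k, e'.1⟩ := by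
      intro heq
      exact hne (Subtype.ext (eq_of_heq (Sigma.mk.inj_iff.mp heq).2))
    have h1 := (hp e).2
    have h2 := (hp e').2
    rw [← h] at h2
    exact Set.disjoint_left.mp (RelCWComplex.disjoint_openCell_of_ne hne') h1 h2
  have hclosed : ∀ B : Set T, IsClosed (p '' B) := by
    intro B
    rw [CWComplex.closed (Set.univ : Set X) _ (Set.subset_univ _)]
    intro n j
    apply Set.Finite.isClosed
    obtain ⟨I, hI⟩ := CWComplex.cellFrontier_subset_finite_openCell (C := (Set.univ : Set X)) n j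
    have hfin : {e : T | e.1 ∈ I k ∨
        (⟨n, j⟩ : Σ n, RelCWComplex.cell (Set.univ : Set X) n) = ⟨k, e.1⟩}.Finite := by
      have h1 : {e : T | e.1 ∈ I k}.Finite :=
        ((I k).finite_toSet).preimage Subtype.val_injective.injOn
      have h2 : {e : T | (⟨n, j⟩ : Σ n, RelCWComplex.cell (Set.univ : Set X) n) =
          ⟨k, e.1⟩}.Finite := by
        apply Set.Subsingleton.finite
        intro a ha b hb
        have h3 := ha.symm.trans hb
        exact Subtype.ext (eq_of_heq (Sigma.mk.inj_iff.mp h3).2)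
      exact h1.union h2
    refine (hfin.image p).subset ?_
    rintro x ⟨⟨e, _, rfl⟩, hx⟩
    refine ⟨e, ?_, rfl⟩
    rw [← RelCWComplex.cellFrontier_union_openCell_eq_closedCell] at hx
    rcases hx with h | h
    · obtain ⟨m, hx2⟩ := Set.mem_iUnion.mp (hI h)
      obtain ⟨hm, hx3⟩ := Set.mem_iUnion.mp hx2
      obtain ⟨i, hi, hx4⟩ := Set.mem_iUnion₂.mp hx3
      left
      have heq : (⟨m, i⟩ : Σ n, RelCWComplex.cell (Set.univ : Set X) n) = ⟨k, e.1⟩ := by
        by_contra hne
        exact Set.disjoint_left.mp (RelCWComplex.disjoint_openCell_of_ne hne) hx4 (hp e).2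
      obtain ⟨h5, h6⟩ := Sigma.mk.inj_iff.mp heq
      subst h5
      rw [← eq_of_heq h6]
      exact hi
    · right
      by_contra hne
      exact Set.disjoint_left.mp (RelCWComplex.disjoint_openCell_of_ne hne) h (hp e).2
  have hcomp : IsCompact (Set.range p) := by
    refine hK.of_isClosed_subset ?_ ?_
    · have := hclosed Set.univ
      rwa [Set.image_univ] at this
    · rintro _ ⟨e, rfl⟩
      exact (hp e).1
  have hdisc : IsDiscrete (Set.range p) := by
    refine ⟨discreteTopology_iff_forall_isClosed.mpr fun U => ?_⟩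
    have h1 : U = Subtype.val ⁻¹' (p '' {e | p e ∈ Subtype.val '' U}) := by
      ext ⟨x, hx⟩
      constructor
      · intro hU
        obtain ⟨e, rfl⟩ := hx
        exact ⟨e, ⟨_, hU, rfl⟩, rfl⟩
      · rintro ⟨e, ⟨u, hu, hue⟩, hex⟩
        have : u = ⟨x, hx⟩ := Subtype.ext (hue.trans hex)
        rw [← this]
        exact hu
    rw [h1]
    exact (hclosed _).preimage continuous_subtype_val
  have hfin := hcomp.finite hdisc
  have : Finite T := by
    have := hfin.to_subtype
    exact Finite.of_injective (Set.rangeFactorization p) (fun a b h => hpinj (congrArg Subtype.val h))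
  exact Set.toFinite T

theorem exists_YF (k : ℕ) (K : Set X) (hK : IsCompact K) (hKs : K ⊆ sk X (k + 1)) :
    ∃ F, K ⊆ YF k F := by
  refine ⟨(finite_cells k K hK).toFinset, ?_⟩
  intro x hx
  have h1 := hKs hx
  have h2 : x ∈ RelCWComplex.skeletonLT (Set.univ : Set X) ((k + 1 : ℕ) : ℕ∞) := h1
  rw [CWComplex.mem_skeletonLT_iff] at h2
  obtain ⟨m, hm, j, hj⟩ := h2
  have hm' : m < k + 1 := by exact_mod_cast hm
  rcases Nat.lt_succ_iff_lt_or_eq.mp hm' with h | h
  · left
    have h3 : x ∈ RelCWComplex.skeletonLT (Set.univ : Set X) (k : ℕ∞) := by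
      rw [CWComplex.mem_skeletonLT_iff]
      exact ⟨m, by exact_mod_cast h, j, hj⟩
    exact h3
  · subst h
    apply YF_mem m _ j
    · rw [Set.Finite.mem_toFinset]
      exact ⟨x, hx, hj⟩
    · exact RelCWComplex.openCell_subset_closedCell m j hj

theorem exists_YF_chain (k m : ℕ) (z : Ch X m) (hz : z ∈ skC (X := X) (k + 1) m) :
    ∃ F, z ∈ sup (YF (X := X) k F) m := by
  obtain ⟨F, hF⟩ := exists_YF k (⋃ σ ∈ z.support, Set.range σ)
    (z.support.finite_toSet.isCompact_biUnion fun σ _ => isCompact_range σ.continuous) (by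
      refine Set.iUnion₂_subset fun σ hσ => ?_
      exact (Finsupp.mem_supported _ _).mp hz hσ)
  refine ⟨F, ?_⟩
  rw [sup, Finsupp.mem_supported]
  intro σ hσ
  refine Set.Subset.trans ?_ hF
  exact Set.subset_biUnion_of_mem (u := fun σ : Sing X m => Set.range σ) hσ

/-! ### the induction over finitely many cells -/

/-- the set of simplices relative to which `YF k F` is acyclic -/
def skAF (k : ℕ) (F : Finset (RelCWComplex.cell (Set.univ : Set X) k)) (m : ℕ) :
    Set (Sing X m) :=
  {σ | Set.range σ ⊆ sk X k ∨ ∃ e ∈ F, (⟨m, σ⟩ : Σ q, Sing X q) = ⟨k, cellS k e⟩}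

theorem skAF_sub (k : ℕ) (F : Finset (RelCWComplex.cell (Set.univ : Set X) k)) (m : ℕ) :
    skAF k F m ⊆ skA (X := X) k m := by
  rintro σ (h | ⟨e, _, h⟩)
  · exact Or.inl h
  · exact Or.inr ⟨e, h⟩

theorem sig_range {k m : ℕ} {σ : Sing X m} {e : RelCWComplex.cell (Set.univ : Set X) k}
    (h : (⟨m, σ⟩ : Σ q, Sing X q) = ⟨k, cellS k e⟩) :
    Set.range σ = RelCWComplex.closedCell k e := by
  obtain ⟨h1, h2⟩ := Sigma.mk.inj_iff.mp h
  subst h1
  rw [eq_of_heq h2, range_cellS]

theorem sig_face {k m : ℕ} {σ : Sing X (m + 1)} {e : RelCWComplex.cell (Set.univ : Set X) k}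
    (h : (⟨m + 1, σ⟩ : Σ q, Sing X q) = ⟨k, cellS k e⟩) (i : Fin (m + 2)) :
    Set.range (sface m i σ) ⊆ sk X k := by
  obtain ⟨h1, h2⟩ := Sigma.mk.inj_iff.mp h
  subst h1
  rw [eq_of_heq h2]
  rintro _ ⟨t, rfl⟩
  show cellS (m + 1) e (stdSimplex.map i.succAbove t) ∈ _
  apply cellS_bd
  refine ⟨i, ?_⟩
  change (FunOnFinite.linearMap ℝ ℝ i.succAbove t.1) i = 0
  rw [FunOnFinite.linearMap_apply_apply]
  apply Finset.sum_eq_zero
  intro j hj
  simp only [Finset.mem_filter] at hj
  exact absurd hj.2 (Fin.succAbove_ne i j)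

theorem skA_face (k m : ℕ) (i : Fin (m + 2)) (σ : Sing X (m + 1)) (h : σ ∈ skA (X := X) k (m + 1)) :
    sface m i σ ∈ skA (X := X) k m := by
  rcases h with h | ⟨e, h⟩
  · exact Or.inl ((range_sface m i σ).trans h)
  · exact Or.inl (sig_face h i)

theorem skA_bd (k m : ℕ) (z : Ch X (m + 1)) (hz : z ∈ supported ℤ ℤ (skA (X := X) k (m + 1))) :
    sbd X m z ∈ supported ℤ ℤ (skA (X := X) k m) := by
  refine supported_map _ (sbd X m) _ ?_ z hz
  intro σ hσ
  rw [sbd_single]
  apply Submodule.sum_mem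
  intro i _
  apply Submodule.smul_mem
  exact single_mem_supported' (skA_face k m i σ hσ)

/-- a simplex of `skA` inside `YF k F` belongs to `skAF k F` -/
theorem skA_inter {k m : ℕ} {F : Finset (RelCWComplex.cell (Set.univ : Set X) k)}
    {σ : Sing X m} (h : σ ∈ skA (X := X) k m) (hr : Set.range σ ⊆ YF k F) : σ ∈ skAF k F m := by
  rcases h with h | ⟨e, h⟩
  · exact Or.inl h
  · refine Or.inr ⟨e, ?_, h⟩
    by_contra he
    obtain ⟨x, hx⟩ := openCell_ne k e
    have h1 : x ∈ Set.range σ := by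
      rw [sig_range h]
      exact RelCWComplex.openCell_subset_closedCell k e hx
    exact Set.disjoint_left.mp (YF_disj k F e he) (hr h1) hx

theorem supported_inter {α : Type} {s t : Set α} {z : α →₀ ℤ} (h1 : z ∈ supported ℤ ℤ s)
    (h2 : z ∈ supported ℤ ℤ t) : z ∈ supported ℤ ℤ (s ∩ t) := by
  rw [Finsupp.mem_supported] at *
  exact Set.subset_inter h1 h2

theorem lift_supported {O : Set X} {m : ℕ} (A : Set (Sing X m)) (w : Ch O m)
    (h : psh (inc O) m w ∈ supported ℤ ℤ A) :
    w ∈ supported ℤ ℤ {σ : Sing O m | (inc O).comp σ ∈ A} := by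
  classical
  rw [Finsupp.mem_supported] at *
  intro σ hσ
  apply h
  have hinj : Function.Injective (fun σ : Sing O m => (inc O).comp σ) := by
    intro a b hab
    apply ContinuousMap.ext
    intro t
    exact inc_injective O (congrArg (fun f : Sing X m => f t) hab)
  have h1 : (psh (inc O) m w) = Finsupp.mapDomain (fun σ : Sing O m => (inc O).comp σ) w := rfl
  rw [h1, Finset.mem_coe, Finsupp.mapDomain_support_of_injective hinj, Finset.mem_image]
  exact ⟨σ, hσ, rfl⟩

theorem sig_lift {O : Set X} {m k : ℕ} {σ : Sing O m} {τ : Sing X k} (hτ : Set.range τ ⊆ O)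
    (h : (⟨m, (inc O).comp σ⟩ : Σ q, Sing X q) = ⟨k, τ⟩) :
    (⟨m, σ⟩ : Σ q, Sing O q) = ⟨k, liftS τ hτ⟩ := by
  obtain ⟨h1, h2⟩ := Sigma.mk.inj_iff.mp h
  subst h1
  have h3 := eq_of_heq h2
  refine Sigma.mk.inj_iff.mpr ⟨rfl, heq_of_eq ?_⟩
  apply ContinuousMap.ext
  intro t
  apply Subtype.ext
  exact congrArg (fun f : Sing X m => f t) h3

theorem skel_step (k : ℕ) (F : Finset (RelCWComplex.cell (Set.univ : Set X) k)) :
    ∀ (m : ℕ), ∀ z ∈ sup (YF (X := X) k F) m, BC (skAF k F) m z →
      ∃ y ∈ sup (YF (X := X) k F) (m + 1), z - sbd X m y ∈ supported ℤ ℤ (skAF k F m) := by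
  classical
  induction F using Finset.induction_on with
  | empty =>
    intro m z hz _
    refine ⟨0, Submodule.zero_mem _, ?_⟩
    rw [map_zero, sub_zero]
    refine Finsupp.supported_mono ?_ hz
    intro σ hσ
    left
    have : YF (X := X) k ∅ = sk X k := by simp [YF]
    rw [← this]
    exact hσ
  | insert e F he ih =>
    intro m z hz hBC
    set Z : Set X := YF (X := X) k (insert e F) with hZ
    have hcell : Set.range (cellS k e) ⊆ Z := by
      rw [range_cellS]
      exact YF_mem k _ e (Finset.mem_insert_self e F)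
    have hFZ : YF (X := X) k F ⊆ Z := by
      refine Set.union_subset_union_right _ ?_
      intro x hx
      obtain ⟨e', he', hx'⟩ := Set.mem_iUnion₂.mp hx
      exact Set.mem_iUnion₂.mpr ⟨e', Finset.mem_insert_of_mem he', hx'⟩
    let Y : Set Z := Subtype.val ⁻¹' (YF (X := X) k F)
    have hY : IsClosed Y := (YF_closed k F).preimage continuous_subtype_val
    let Φ : Sing Z k := liftS (cellS k e) hcell
    have key := cell_acyc' (X := Z) Y hY k Φ (by
      ext ⟨x, hx⟩
      simp only [Set.mem_univ, iff_true]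
      rcases hx with h | h
      · exact Or.inl (Or.inl h)
      · obtain ⟨e', he', hx'⟩ := Set.mem_iUnion₂.mp h
        rcases Finset.mem_insert.mp he' with rfl | h1
        · right
          rw [← range_cellS] at hx'
          obtain ⟨t, ht⟩ := hx'
          exact ⟨t, Subtype.ext ht⟩
        · left
          exact YF_mem k F e' h1 hx')
      (fun t ht => Or.inl (cellS_bd k e t ht))
      (fun t ht h => Set.disjoint_left.mp (YF_disj k F e he) h (cellS_int k e t ht))
      (fun s t hs ht h => cellS_inj k e s t hs ht (congrArg Subtype.val h)) m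
    obtain ⟨z', hz'⟩ := exists_lift hz
    have hBC' : BC (cellSet Y Φ) m z' := by
      cases m with
      | zero => trivial
      | succ m =>
        show sbd Z m z' ∈ supported ℤ ℤ (cellSet Y Φ m)
        have h1 : psh (inc Z) m (sbd Z m z') ∈ supported ℤ ℤ (skAF k (insert e F) m) := by
          rw [← sbd_psh, hz']
          exact hBC
        refine Finsupp.supported_mono ?_ (lift_supported _ _ h1)
        rintro σ (h | ⟨e', he', h⟩)
        · left
          rintro _ ⟨t, rfl⟩
          exact Or.inl (h ⟨t, rfl⟩)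
        · rcases Finset.mem_insert.mp he' with rfl | h2
          · right
            exact sig_lift hcell h
          · left
            rintro _ ⟨t, rfl⟩
            apply YF_mem k F e' h2
            rw [← sig_range h]
            exact ⟨t, rfl⟩
    obtain ⟨y', hy'⟩ := key z' hBC'
    set w : Ch X m := z - sbd X m (psh (inc Z) (m + 1) y') with hw
    have hw1 : w = psh (inc Z) m (z' - sbd Z m y') := by
      rw [hw, map_sub, hz', sbd_psh]
    have hw2 : w ∈ supported ℤ ℤ ({σ : Sing X m | Set.range σ ⊆ YF (X := X) k F} ∪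
        {σ : Sing X m | (⟨m, σ⟩ : Σ q, Sing X q) = ⟨k, cellS k e⟩}) := by
      rw [hw1]
      refine supported_map _ (psh (inc Z) m) _ ?_ _ hy'
      intro σ hσ
      rw [psh_single]
      apply single_mem_supported'
      rcases hσ with h | h
      · left
        rintro _ ⟨t, rfl⟩
        exact h ⟨t, rfl⟩
      · right
        obtain ⟨h1, h2⟩ := Sigma.mk.inj_iff.mp h
        subst h1
        rw [eq_of_heq h2]
        rfl
    rw [Finsupp.supported_union, Submodule.mem_sup] at hw2
    obtain ⟨w1, hw1m, w2, hw2m, hw12⟩ := hw2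
    have hw2A : w2 ∈ supported ℤ ℤ (skAF k (insert e F) m) := by
      refine Finsupp.supported_mono ?_ hw2m
      intro σ hσ
      exact Or.inr ⟨e, Finset.mem_insert_self e F, hσ⟩
    have hBCw1 : BC (skAF k F) m w1 := by
      cases m with
      | zero => trivial
      | succ m =>
        show sbd X m w1 ∈ supported ℤ ℤ (skAF k F m)
        have h1 : sbd X m w1 = sbd X m z - sbd X m w2 := by
          have h2 : w1 = w - w2 := by rw [← hw12]; abel
          rw [h2, map_sub, hw, map_sub, sbd_sbd, sub_zero]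
        have h3 : sbd X m w1 ∈ supported ℤ ℤ (skA (X := X) k m) := by
          rw [h1]
          refine Submodule.sub_mem _ ?_ ?_
          · exact Finsupp.supported_mono (skAF_sub k _ m) hBC
          · exact skA_bd k m w2 (Finsupp.supported_mono (skAF_sub k _ (m + 1)) hw2A)
        have h4 : sbd X m w1 ∈ sup (YF (X := X) k F) m := sbd_mem_sup hw1m
        refine Finsupp.supported_mono ?_ (supported_inter h3 h4)
        rintro σ ⟨h5, h6⟩
        exact skA_inter h5 h6
    obtain ⟨y2, hy2, hy2'⟩ := ih m w1 hw1m hBCw1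
    refine ⟨psh (inc Z) (m + 1) y' + y2, ?_, ?_⟩
    · exact Submodule.add_mem _ (psh_inc_mem Z y') (sup_mono hFZ (m + 1) hy2)
    · have h1 : z - sbd X m (psh (inc Z) (m + 1) y' + y2) = (w1 - sbd X m y2) + w2 := by
        rw [map_add]
        have : z = w + sbd X m (psh (inc Z) (m + 1) y') := by rw [hw]; abel
        rw [this, ← hw12]
        abel
      rw [h1]
      refine Submodule.add_mem _ (Finsupp.supported_mono ?_ hy2') hw2A
      rintro σ (h | ⟨e', he', h⟩)
      · exact Or.inl h
      · exact Or.inr ⟨e', Finset.mem_insert_of_mem he', h⟩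

theorem skel_acyc' (k m : ℕ) (z : Ch X m) (hz : z ∈ skC (X := X) (k + 1) m)
    (hBC : BC (skA (X := X) k) m z) :
    ∃ y ∈ skC (X := X) (k + 1) (m + 1), z - sbd X m y ∈ supported ℤ ℤ (skA (X := X) k m) := by
  obtain ⟨F, hF⟩ := exists_YF_chain k m z hz
  have hBC' : BC (skAF k F) m z := by
    cases m with
    | zero => trivial
    | succ m =>
      refine Finsupp.supported_mono ?_ (supported_inter hBC (sbd_mem_sup hF))
      rintro σ ⟨h5, h6⟩
      exact skA_inter h5 h6
  obtain ⟨y, hy, hy'⟩ := skel_step k F m z hF hBC'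
  exact ⟨y, sup_mono (YF_sub k F) (m + 1) hy, Finsupp.supported_mono (skAF_sub k F m) hy'⟩

theorem skel_acyc (k : ℕ) :
    (∀ z ∈ skC (X := X) (k + 1) 0, ∃ y ∈ skC (X := X) (k + 1) 1,
      z - sbd X 0 y ∈ supported ℤ ℤ (skA (X := X) k 0)) ∧
    ∀ (m : ℕ), ∀ z ∈ skC (X := X) (k + 1) (m + 1),
      sbd X m z ∈ supported ℤ ℤ (skA (X := X) k m) →
      ∃ y ∈ skC (X := X) (k + 1) (m + 2),
        z - sbd X (m + 1) y ∈ supported ℤ ℤ (skA (X := X) k (m + 1)) :=
  ⟨fun z hz => skel_acyc' k 0 z hz trivial, fun m z hz hb => skel_acyc' k (m + 1) z hz hb⟩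

/-! ### the chain contraction -/

/-- properties of one level of the contraction -/
structure Contr (k m : ℕ) (H : Ch X m →ₗ[ℤ] Ch X (m + 1)) : Prop where
  zero : ∀ c ∈ supported ℤ ℤ (skA (X := X) k m), H c = 0
  mem : ∀ c ∈ skC (X := X) (k + 1) m, H c ∈ skC (X := X) (k + 1) (m + 1)
  rel : ∀ c ∈ skC (X := X) (k + 1) m, BC (skA (X := X) k) m c →
    c - sbd X m (H c) ∈ supported ℤ ℤ (skA (X := X) k m)

/-- extension of a choice on simplices -/
theorem exists_ext (k m : ℕ) (G : Ch X m →ₗ[ℤ] Ch X m)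
    (hG0 : ∀ σ ∈ skA (X := X) k m, G (single σ 1) ∈ supported ℤ ℤ (skA (X := X) k m))
    (hG1 : ∀ σ : Sing X m, Set.range σ ⊆ sk X (k + 1) →
      G (single σ 1) ∈ skC (X := X) (k + 1) m ∧ BC (skA (X := X) k) m (G (single σ 1))) :
    ∃ H : Ch X m →ₗ[ℤ] Ch X (m + 1),
      (∀ c ∈ supported ℤ ℤ (skA (X := X) k m), H c = 0) ∧
      (∀ c ∈ skC (X := X) (k + 1) m, H c ∈ skC (X := X) (k + 1) (m + 1)) ∧
      ∀ c ∈ skC (X := X) (k + 1) m,
        G c - sbd X m (H c) ∈ supported ℤ ℤ (skA (X := X) k m) := by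
  classical
  have hex : ∀ σ : Sing X m, ∃ y : Ch X (m + 1), (σ ∈ skA (X := X) k m → y = 0) ∧
      (Set.range σ ⊆ sk X (k + 1) → y ∈ skC (X := X) (k + 1) (m + 1) ∧
        G (single σ 1) - sbd X m y ∈ supported ℤ ℤ (skA (X := X) k m)) := by
    intro σ
    by_cases h1 : σ ∈ skA (X := X) k m
    · refine ⟨0, fun _ => rfl, fun _ => ⟨Submodule.zero_mem _, ?_⟩⟩
      rw [map_zero, sub_zero]
      exact hG0 σ h1
    · by_cases h2 : Set.range σ ⊆ sk X (k + 1)
      · obtain ⟨h3, h4⟩ := hG1 σ h2
        obtain ⟨y, hy, hy'⟩ := skel_acyc' k m _ h3 h4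
        exact ⟨y, fun h => absurd h h1, fun _ => ⟨hy, hy'⟩⟩
      · exact ⟨0, fun _ => rfl, fun h => absurd h h2⟩
  choose f hf1 hf2 using hex
  refine ⟨Finsupp.linearCombination ℤ f, ?_, ?_, ?_⟩
  · intro c hc
    have := supported_map _ (Finsupp.linearCombination ℤ f) ⊥ (by
      intro σ hσ
      rw [linearCombination_single, one_smul, hf1 σ hσ]
      exact Submodule.zero_mem _) c hc
    exact this
  · intro c hc
    refine supported_map _ (Finsupp.linearCombination ℤ f) _ ?_ c hc
    intro σ hσ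
    rw [linearCombination_single, one_smul]
    exact (hf2 σ hσ).1
  · intro c hc
    have := supported_map _ (G - (sbd X m).comp (Finsupp.linearCombination ℤ f))
      (supported ℤ ℤ (skA (X := X) k m)) (by
      intro σ hσ
      rw [LinearMap.sub_apply, LinearMap.comp_apply, linearCombination_single, one_smul]
      exact (hf2 σ hσ).2) c hc
    exact this

theorem contr_succ (k m : ℕ) (H : Ch X m →ₗ[ℤ] Ch X (m + 1)) (hH : Contr k m H) :
    ∃ H' : Ch X (m + 1) →ₗ[ℤ] Ch X (m + 2), Contr k (m + 1) H' ∧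
      ∀ c ∈ skC (X := X) (k + 1) (m + 1),
        c - H (sbd X m c) - sbd X (m + 1) (H' c) ∈ supported ℤ ℤ (skA (X := X) k (m + 1)) := by
  obtain ⟨H', h1, h2, h3⟩ := exists_ext k (m + 1) (LinearMap.id - H.comp (sbd X m)) (by
      intro σ hσ
      rw [LinearMap.sub_apply, LinearMap.id_apply, LinearMap.comp_apply,
        hH.zero _ (skA_bd k m _ (single_mem_supported' hσ)), sub_zero]
      exact single_mem_supported' hσ) (by
      intro σ hσ
      have hs : single σ (1 : ℤ) ∈ skC (X := X) (k + 1) (m + 1) := single_mem_supported' hσ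
      have hb : sbd X m (single σ 1) ∈ skC (X := X) (k + 1) m := sbd_mem_sup hs
      constructor
      · exact Submodule.sub_mem _ hs (hH.mem _ hb)
      · show sbd X m (single σ 1 - H (sbd X m (single σ 1))) ∈ _
        rw [map_sub]
        refine hH.rel _ hb ?_
        cases m with
        | zero => trivial
        | succ m =>
          show sbd X m (sbd X (m + 1) (single σ 1)) ∈ _
          rw [sbd_sbd]
          exact Submodule.zero_mem _)
  refine ⟨H', ⟨h1, h2, ?_⟩, ?_⟩
  · intro c hc hBC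
    have h4 := h3 c hc
    rw [LinearMap.sub_apply, LinearMap.id_apply, LinearMap.comp_apply, hH.zero _ hBC,
      sub_zero] at h4
    exact h4
  · intro c hc
    exact h3 c hc

theorem contr_exists (k m : ℕ) : ∃ H : Ch X m →ₗ[ℤ] Ch X (m + 1), Contr k m H := by
  induction m with
  | zero =>
    obtain ⟨H, h1, h2, h3⟩ := exists_ext (X := X) k 0 LinearMap.id (by
      intro σ hσ
      exact single_mem_supported' hσ) (by
      intro σ hσ
      exact ⟨single_mem_supported' hσ, trivial⟩)
    exact ⟨H, h1, h2, fun c hc _ => h3 c hc⟩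
  | succ m ih =>
    obtain ⟨H, hH⟩ := ih
    obtain ⟨H', hH', _⟩ := contr_succ k m H hH
    exact ⟨H', hH'⟩

theorem skel_coc (k : ℕ) (M : Type) [AddCommGroup M] (q : ℕ) (θ : Sing X (q + 1) → M)
    (hA : ∀ σ ∈ skA (X := X) k (q + 1), θ σ = 0)
    (hθ : ∀ τ : Sing X (q + 2), Set.range τ ⊆ sk X (k + 1) → dlt Pool.Agent.Helper922.HB.Sc.sface (q + 1) θ τ = 0) :
    ∃ η : Sing X q → M, (∀ σ ∈ skA (X := X) k q, η σ = 0) ∧
      ∀ σ : Sing X (q + 1), Set.range σ ⊆ sk X (k + 1) → dlt Pool.Agent.Helper922.HB.Sc.sface q η σ = θ σ := by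
  obtain ⟨H, hH⟩ := contr_exists (X := X) k q
  obtain ⟨H', hH', hrel⟩ := contr_succ k q H hH
  refine ⟨fun σ => evm θ (H (single σ 1)), ?_, ?_⟩
  · intro σ hσ
    show evm θ (H (single σ 1)) = 0
    rw [hH.zero _ (single_mem_supported' hσ), map_zero]
  · intro ρ hρ
    have hs : single ρ (1 : ℤ) ∈ skC (X := X) (k + 1) (q + 1) := single_mem_supported' hρ
    have hev : evm (fun σ => evm θ (H (single σ 1))) = (evm θ).comp H := by
      apply Finsupp.lhom_ext'
      intro σ
      apply LinearMap.ext_ring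
      simp only [LinearMap.comp_apply, lsingle_apply, linearCombination_single, one_smul]
    rw [dlt_eq_evm, hev, LinearMap.comp_apply]
    have h1 := hrel _ hs
    have h2 : evm θ (single ρ 1 - H (sbd X q (single ρ 1)) - sbd X (q + 1) (H' (single ρ 1))) = 0 := by
      have := supported_map _ (evm θ) ⊥ (by
        intro σ hσ
        rw [linearCombination_single, one_smul, hA σ hσ]
        exact Submodule.zero_mem _) _ h1
      exact this
    have h3 : evm θ (sbd X (q + 1) (H' (single ρ 1))) = 0 := by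
      have h4 : evm (dlt Pool.Agent.Helper922.HB.Sc.sface (q + 1) θ) (H' (single ρ 1)) = evm θ (sbd X (q + 1) (H' (single ρ 1))) :=
        evm_dlt _ _ _ _
      rw [← h4]
      have := supported_map _ (evm (dlt Pool.Agent.Helper922.HB.Sc.sface (q + 1) θ)) ⊥ (by
        intro σ hσ
        rw [linearCombination_single, one_smul, hθ σ hσ]
        exact Submodule.zero_mem _) _ (hH'.mem _ hs)
      exact this
    rw [map_sub, map_sub, h3, sub_zero, linearCombination_single, one_smul, sub_eq_zero] at h2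
    exact h2.symm

end CW

end Pool.Agent.H904R2
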