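import Pool.Agent.H904R2.StGeo

/-! Frames: local triviality (up to homotopy) of the last-vector fibration. -/

set_option autoImplicit false

namespace Pool.Agent.H904R2

open Finsupp
open Prd Pool.Agent.Helper922.HB.Sc

namespace Sti

open MV

variable {k r : ℕ}

theorem li_PR (w : Fin (k + 2) → (Fin (r + 1) → ℂ)) (hw : LinearIndependent ℂ w)
    (v : Fin (r + 1) → ℂ) (hv : v ∈ OO r) (c : ℂ) (hc : v = c • w (Fin.last (k + 1))) :
    LinearIndependent ℂ (fun j : Fin (k + 1) => PR' v (w j.castSucc)) := by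
  rw [Fintype.linearIndependent_iff] at hw ⊢
  intro g hg j
  have h1 : PR' v (∑ j : Fin (k + 1), g j • w j.castSucc) = 0 := by
    change PRL v _ = 0
    rw [map_sum]
    simp only [map_smul]
    exact hg
  have h2 := sec_PR v hv (∑ j : Fin (k + 1), g j • w j.castSucc)
  rw [h1] at h2
  have h3 : sec v (0 : Fin r → ℂ) = 0 := by
    funext l
    refine Fin.lastCases ?_ (fun l => ?_) l
    · simp [sec]
    · simp [sec]
  rw [h3] at h2
  have h4 := hw (Fin.snoc g (-(lam v (∑ j : Fin (k + 1), g j • w j.castSucc) * c))) (by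
    rw [Fin.sum_univ_castSucc]
    simp only [Fin.snoc_castSucc, Fin.snoc_last]
    rw [neg_smul, mul_smul, ← hc, ← sub_eq_add_neg]
    exact h2.symm) j.castSucc
  simpa using h4

theorem li_sec (g : Fin (k + 1) → (Fin r → ℂ)) (hg : LinearIndependent ℂ g)
    (v : Fin (r + 1) → ℂ) (hv : v ∈ OO r) :
    LinearIndependent ℂ (Fin.snoc (fun j : Fin (k + 1) => sec v (g j)) v :
      Fin (k + 2) → (Fin (r + 1) → ℂ)) := by
  rw [Fintype.linearIndependent_iff] at hg ⊢
  intro a ha
  rw [Fin.sum_univ_castSucc] at ha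
  simp only [Fin.snoc_castSucc, Fin.snoc_last] at ha
  have h1 := congrArg (PRL v) ha
  rw [map_add, map_sum, map_zero] at h1
  simp only [map_smul] at h1
  have h2 : ∀ x, PRL v x = PR' v x := fun _ => rfl
  simp only [h2, PR_sec, PR_self v hv, smul_zero, add_zero] at h1
  have h3 := hg _ h1
  have h4 := congrArg (lamL v) ha
  rw [map_add, map_sum, map_zero] at h4
  simp only [map_smul] at h4
  have h5 : ∀ x, lamL v x = lam v x := fun _ => rfl
  simp only [h5, lam_sec, lam_self v hv, smul_eq_mul, mul_zero, Finset.sum_const_zero, zero_add,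
    mul_one] at h4
  intro i
  refine Fin.lastCases h4 (fun j => h3 j) i

theorem li_hom (w : Fin (k + 2) → (Fin (r + 1) → ℂ)) (hw : LinearIndependent ℂ w)
    (s : Fin (k + 1) → ℂ) :
    LinearIndependent ℂ (Fin.snoc (fun j : Fin (k + 1) => w j.castSucc - s j • w (Fin.last (k + 1)))
      (w (Fin.last (k + 1))) : Fin (k + 2) → (Fin (r + 1) → ℂ)) := by
  rw [Fintype.linearIndependent_iff] at hw ⊢
  intro a ha
  rw [Fin.sum_univ_castSucc] at ha
  simp only [Fin.snoc_castSucc, Fin.snoc_last, smul_sub, Finset.sum_sub_distrib] at ha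
  have h1 := hw (Fin.snoc (fun j : Fin (k + 1) => a j.castSucc)
    (a (Fin.last (k + 1)) - ∑ j : Fin (k + 1), a j.castSucc * s j)) (by
      rw [Fin.sum_univ_castSucc]
      simp only [Fin.snoc_castSucc, Fin.snoc_last]
      rw [sub_smul, Finset.sum_smul]
      simp only [mul_smul]
      rw [← ha]
      abel)
  have h2 : ∀ j : Fin (k + 1), a j.castSucc = 0 := by
    intro j
    have := h1 j.castSucc
    simpa using this
  intro i
  refine Fin.lastCases ?_ h2 i
  have := h1 (Fin.last (k + 1))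
  simpa [h2] using this

/-- frames whose last vector lies in `O` -/
def Wf (k r : ℕ) (O : Set (Fin (r + 1) → ℂ)) : Set (St (k + 2) (r + 1)) :=
  {w | w.1 (Fin.last (k + 1)) ∈ O}

theorem cont_vec {Z : Type} [TopologicalSpace Z] (f : Z → St (k + 2) (r + 1)) (hf : Continuous f)
    (j : Fin (k + 2)) : Continuous (fun z => (f z).1 j) :=
  (continuous_apply j).comp (continuous_subtype_val.comp hf)

/-- projection to `St (k+1) r` over the part with last vector, multiplied by `c`, in `OO r` -/
noncomputable def piM (c : ℂ) (W : Set (St (k + 2) (r + 1)))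
    (hW : ∀ w ∈ W, c • w.1 (Fin.last (k + 1)) ∈ OO r) : C(W, St (k + 1) r) where
  toFun w := ⟨fun j => PR' (c • w.1.1 (Fin.last (k + 1))) (w.1.1 j.castSucc),
    li_PR w.1.1 w.1.2 _ (hW w.1 w.2) c rfl⟩
  continuous_toFun := by
    refine Continuous.subtype_mk (continuous_pi fun j => ?_) _
    exact cont_PR _ _ ((cont_vec _ continuous_subtype_val _).const_smul c)
      (cont_vec _ continuous_subtype_val _) (fun w => hW w.1 w.2)

variable (O : Set (Fin (r + 1) → ℂ)) (hO : O ⊆ OO r) (W : Set (St (k + 2) (r + 1)))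
  (hW : ∀ w, w ∈ W ↔ w.1 (Fin.last (k + 1)) ∈ O)

include hO hW in
theorem hW1 : ∀ w ∈ W, (1 : ℂ) • w.1 (Fin.last (k + 1)) ∈ OO r := by
  intro w hw
  rw [one_smul]
  exact hO ((hW w).mp hw)

noncomputable def prM : C(W, St (k + 1) r × O) :=
  (piM 1 W (hW1 O hO W hW)).prodMk
    ⟨fun w => ⟨w.1.1 (Fin.last (k + 1)), (hW w.1).mp w.2⟩,
      (cont_vec _ continuous_subtype_val _).subtype_mk _⟩

noncomputable def seM : C(St (k + 1) r × O, W) where
  toFun p := ⟨⟨Fin.snoc (fun j : Fin (k + 1) => sec p.2.1 (p.1.1 j)) p.2.1,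
    li_sec p.1.1 p.1.2 p.2.1 (hO p.2.2)⟩, by
      rw [hW]
      simp only [Fin.snoc_last]
      exact p.2.2⟩
  continuous_toFun := by
    refine Continuous.subtype_mk (Continuous.subtype_mk (continuous_pi fun j => ?_) _) _
    refine Fin.lastCases ?_ (fun j => ?_) j
    · simp only [Fin.snoc_last]
      exact continuous_subtype_val.comp continuous_snd
    · simp only [Fin.snoc_castSucc]
      refine cont_sec _ _ (continuous_subtype_val.comp continuous_snd) ?_ (fun p => hO p.2.2)
      exact (continuous_apply j).comp (continuous_subtype_val.comp continuous_fst)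

noncomputable def hoM : C(W × unitInterval, W) where
  toFun p := ⟨⟨Fin.snoc (fun j : Fin (k + 1) => p.1.1.1 j.castSucc -
      (((1 - (p.2 : ℝ) : ℝ) : ℂ) * lam (p.1.1.1 (Fin.last (k + 1))) (p.1.1.1 j.castSucc)) •
        p.1.1.1 (Fin.last (k + 1))) (p.1.1.1 (Fin.last (k + 1))),
    li_hom p.1.1.1 p.1.1.2 _⟩, by
      rw [hW]
      simp only [Fin.snoc_last]
      exact (hW _).mp p.1.2⟩
  continuous_toFun := by
    have hc : ∀ j, Continuous (fun p : W × unitInterval => p.1.1.1 j) := fun j =>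
      cont_vec _ (continuous_subtype_val.comp continuous_fst) j
    refine Continuous.subtype_mk (Continuous.subtype_mk (continuous_pi fun j => ?_) _) _
    refine Fin.lastCases ?_ (fun j => ?_) j
    · simp only [Fin.snoc_last]
      exact hc _
    · simp only [Fin.snoc_castSucc]
      have h1 : Continuous (fun p : W × unitInterval => (((1 - (p.2 : ℝ) : ℝ) : ℂ))) :=
        Complex.continuous_ofReal.comp (by fun_prop)
      have h2 : Continuous (fun p : W × unitInterval =>
          lam (p.1.1.1 (Fin.last (k + 1))) (p.1.1.1 j.castSucc)) :=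
        cont_lam _ _ (hc _) (hc _) (fun p => hO ((hW _).mp p.1.2))
      exact (hc _).sub ((h1.mul h2).smul (hc _))

theorem seM_castSucc (p : St (k + 1) r × O) (j : Fin (k + 1)) :
    (seM O hO W hW p).1.1 j.castSucc = sec p.2.1 (p.1.1 j) := by
  simp [seM]

theorem hoM_castSucc (p : W × unitInterval) (j : Fin (k + 1)) :
    (hoM O hO W hW p).1.1 j.castSucc = p.1.1.1 j.castSucc -
      (((1 - (p.2 : ℝ) : ℝ) : ℂ) * lam (p.1.1.1 (Fin.last (k + 1))) (p.1.1.1 j.castSucc)) •
        p.1.1.1 (Fin.last (k + 1)) := by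
  simp [hoM]

theorem slice_one : slice (hoM O hO W hW) 1 = ContinuousMap.id W := by
  ext w : 1
  apply Subtype.ext
  apply Subtype.ext
  funext j
  refine Fin.lastCases ?_ (fun j => ?_) j
  · simp [slice, hoM]
  · simp [slice, hoM]

theorem slice_zero : slice (hoM O hO W hW) 0 = (seM O hO W hW).comp (prM O hO W hW) := by
  ext w : 1
  apply Subtype.ext
  apply Subtype.ext
  funext j
  refine Fin.lastCases ?_ (fun j => ?_) j
  · simp [slice, hoM, seM, prM]
  · have h := sec_PR (w.1.1 (Fin.last (k + 1))) (hO ((hW w.1).mp w.2)) (w.1.1 j.castSucc)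
    have h1 := seM_castSucc O hO W hW (prM O hO W hW w) j
    have h2 := hoM_castSucc O hO W hW (w, 0) j
    refine h2.trans (Eq.trans ?_ h1.symm)
    change _ = sec (w.1.1 (Fin.last (k + 1)))
      (PR' ((1 : ℂ) • w.1.1 (Fin.last (k + 1))) (w.1.1 j.castSucc))
    rw [one_smul, h]
    simp

theorem pr_se (p : St (k + 1) r × O) :
    piM 1 W (hW1 O hO W hW) (seM O hO W hW p) = p.1 := by
  apply Subtype.ext
  funext j
  simp only [piM, seM, ContinuousMap.coe_mk, Fin.snoc_castSucc, Fin.snoc_last, one_smul, PR_sec]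

include hO hW in
theorem racyc_W (v0 : O) (m j : ℕ) (hV : ∀ j < m, RAcyc O j) (hj : j < m)
    (hX : RAcyc (St (k + 1) r) j) : RAcyc W j :=
  racyc_of_htpy (prM O hO W hW) (seM O hO W hW) (hoM O hO W hW) (slice_zero O hO W hW)
    (slice_one O hO W hW) j (prod_acyc (St (k + 1) r) O v0 m j hV hj hX)

include hO hW in
/-- cocycles on `W` which vanish over the base point are coboundaries -/
theorem coc_W (v0 : O) (m j : ℕ) (hV : ∀ j < m, RAcyc O j) (hj : j + 1 < m)
    (D : Sing W (j + 1) → ℤ) (hD : altd ℤ (sface (X := W)) (j + 1) D = 0)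
    (hD0 : ∀ σ : Sing (St (k + 1) r) (j + 1),
      D ((seM O hO W hW).comp (σ.prodMk (ContinuousMap.const _ v0))) = 0) :
    ∃ ε : Sing W j → ℤ, D = altd ℤ (sface (X := W)) j ε := by
  obtain ⟨ε', hε'⟩ := prod_coc (St (k + 1) r) O v0 m j hV hj (pb (seM O hO W hW) D) (by
    rw [altd_pb, hD]
    rfl) ⟨0, fun σ => by
      rw [map_zero]
      exact hD0 σ⟩
  obtain ⟨b, hb⟩ := exists_altd_eq_pb_sub (hoM O hO W hW) D hD
  rw [slice_one, slice_zero] at hb
  refine ⟨pb (prM O hO W hW) ε' + b, ?_⟩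
  rw [altd_add, altd_pb, ← hε', ← hb]
  funext σ
  change D σ = D (((seM O hO W hW).comp (prM O hO W hW)).comp σ) +
    (D ((ContinuousMap.id W).comp σ) - D (((seM O hO W hW).comp (prM O hO W hW)).comp σ))
  rw [ContinuousMap.id_comp]
  ring

end Sti

end Pool.Agent.H904R2
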