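import Pool.Agent.H904R2.Stiefel

/-! The first nonzero homology group of a Stiefel manifold is generated by the standard sphere. -/

set_option autoImplicit false

namespace Pool.Agent.H904R2

open Finsupp
open Prd Pool.Agent.Helper922.HB.Sc

namespace Sti

open MV

theorem isBdy_smul {X : Type} [TopologicalSpace X] {m : ℕ} {z : Ch X m} (a : ℤ) (hz : IsBdy m z) :
    IsBdy m (a • z) := by
  obtain ⟨y, rfl⟩ := hz
  exact ⟨a • y, map_smul _ _ _⟩

theorem mv_gen {X : Type} [TopologicalSpace X] {U V : Set X} (hU : IsOpen U) (hV : IsOpen V)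
    (hc : ∀ x, x ∈ U ∨ x ∈ V) (j : ℕ) (h2 : RAcyc (U ∩ V : Set X) j) (z : Ch X (j + 1))
    (hz : IsCyc (j + 1) z) : ∃ (a : Ch U (j + 1)) (b : Ch V (j + 1)), IsCyc (j + 1) a ∧
      IsCyc (j + 1) b ∧ IsBdy (j + 1) (z - (psh (inc U) (j + 1) a + psh (inc V) (j + 1) b)) := by
  have hz' : sbd X j z = 0 := hz
  have h1 : rho {U, V} (j + 1) z ∈ supported ℤ ℤ (smallSet {U, V} (j + 1)) :=
    rho_small {U, V} (small_open hU hV) (small_cov hc) (j + 1) z
  have h3 : rho {U, V} (j + 1) z = z - sbd X (j + 1) (DD {U, V} (j + 1) z) := by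
    rw [rho_succ, hz', map_zero, sub_zero]
  obtain ⟨a, b, hab⟩ := inS_small (j + 1) _ h1
  have h4 : psh (inc U) j (sbd U j a) = psh (inc V) j (sbd V j (-b)) := by
    rw [← sbd_psh, ← sbd_psh, map_neg, map_neg, ← sub_eq_zero, sub_neg_eq_add, ← map_add, ← hab,
      h3, map_sub, hz', sbd_sbd, sub_zero]
  obtain ⟨c, hca, hcb⟩ := both j _ _ h4
  have hcc : IsCyc j c := by
    apply isCyc_of_psh _ j (psh_incl_inj Set.inter_subset_left)
    rw [hca]
    exact isCyc_sbd j a
  obtain ⟨u, hu⟩ := h2 c hcc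
  refine ⟨a - psh (incl Set.inter_subset_left) (j + 1) u,
    b + psh (incl Set.inter_subset_right) (j + 1) u, ?_, ?_, ?_⟩
  · change sbd U j _ = 0
    rw [map_sub, sbd_psh, hu, hca, sub_self]
  · change sbd V j _ = 0
    rw [map_add, sbd_psh, hu, hcb, map_neg, add_neg_cancel]
  · refine ⟨DD {U, V} (j + 1) z, ?_⟩
    rw [map_sub, map_add, psh_psh, psh_psh, inc_incl, inc_incl]
    have h6 : psh (inc U) (j + 1) a - psh (inc (U ∩ V)) (j + 1) u +
        (psh (inc V) (j + 1) b + psh (inc (U ∩ V)) (j + 1) u) =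
        z - sbd X (j + 1) (DD {U, V} (j + 1) z) := by
      rw [← h3, hab]
      abel
    rw [h6]
    abel

/-- inverse of the standard sphere for `k = 0` -/
theorem exists_gC (i : ℕ) (hr : i + 1 + 0 = i + 1) : ∃ g : C(St (0 + 1) (i + 1), Pc (2 * (i + 1))),
    (jC (i + 1) 0 (i + 1) hr).comp g = ContinuousMap.id _ := by
  let g : C(St (0 + 1) (i + 1), Pc (2 * (i + 1))) :=
    ⟨fun w => ⟨fun m => if (m : ℕ) % 2 = 0 then (w.1 0 ⟨m / 2, by omega⟩).re
      else (w.1 0 ⟨m / 2, by omega⟩).im, by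
        intro h
        apply w.2.ne_zero 0
        funext l
        apply Complex.ext
        · have := congrFun h ⟨2 * l, by omega⟩
          simp only [Pi.zero_apply] at this
          rw [if_pos (by omega)] at this
          rw [Pi.zero_apply, Complex.zero_re, ← this]
          apply reE
          simp only
          omega
        · have := congrFun h ⟨2 * l + 1, by omega⟩
          simp only [Pi.zero_apply] at this
          rw [if_neg (by omega)] at this
          rw [Pi.zero_apply, Complex.zero_im, ← this]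
          apply imE
          simp only
          omega⟩, by
      refine Continuous.subtype_mk (continuous_pi fun m => ?_) _
      have hc : ∀ l, Continuous (fun w : St (0 + 1) (i + 1) => w.1 0 l) := fun l =>
        (continuous_apply l).comp ((continuous_apply 0).comp continuous_subtype_val)
      split_ifs
      · exact Complex.continuous_re.comp (hc _)
      · exact Complex.continuous_im.comp (hc _)⟩
  refine ⟨g, ?_⟩
  ext w : 1
  apply Subtype.ext
  funext a
  have ha : a = 0 := Subsingleton.elim (α := Fin 1) _ _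
  subst ha
  change jvec (i + 1) (i + 1) (toC (i + 1) (g w).1) = w.1 0
  funext l
  simp only [jvec, Fin.is_lt, dif_pos, toC]
  apply Complex.ext
  · simp only [Complex.add_re, Complex.ofReal_re, Complex.mul_re, Complex.I_re, mul_zero,
      Complex.ofReal_im, Complex.I_im, mul_one, sub_self, add_zero, g, ContinuousMap.coe_mk]
    rw [if_pos (by omega)]
    apply reE
    simp only
    omega
  · simp only [Complex.add_im, Complex.ofReal_im, Complex.mul_im, Complex.I_re, mul_zero,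
      Complex.ofReal_re, Complex.I_im, mul_one, zero_add, add_zero, g, ContinuousMap.coe_mk]
    rw [if_neg (by omega)]
    apply imE
    simp only
    omega

theorem sec_ee {r : ℕ} (g : Fin r → ℂ) : sec (ee' r) g = Fin.snoc g 0 := by
  unfold sec
  congr 1
  simp [ee_castSucc]

/-- the part of a frame sphere in the last coordinate -/
theorem jC_last (i k r : ℕ) (hr : i + 1 + (k + 1) = r + 1) (x : Pc (2 * (i + 1))) :
    (jC (i + 1) (k + 1) (r + 1) hr x).1 (Fin.last (k + 1)) = ee' r := by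
  change jmap (i + 1) (k + 1) (r + 1) hr (toC (i + 1) x.1) (Fin.last (k + 1)) = _
  rw [← Fin.succ_last, jmap, Fin.cons_succ]
  unfold ee'
  congr 1
  apply Fin.ext
  simp only [Fin.val_last]
  omega

theorem jC_castSucc (i k r : ℕ) (hr : i + 1 + (k + 1) = r + 1) (hr' : i + 1 + k = r)
    (x : Pc (2 * (i + 1))) (j : Fin (k + 1)) :
    (jC (i + 1) (k + 1) (r + 1) hr x).1 j.castSucc =
      Fin.snoc ((jC (i + 1) k r hr' x).1 j) (0 : ℂ) := by
  refine Fin.cases ?_ (fun j => ?_) j
  · change jvec (i + 1) (r + 1) (toC (i + 1) x.1) =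
      (Fin.snoc (jvec (i + 1) r (toC (i + 1) x.1)) 0 : Fin (r + 1) → ℂ)
    funext l
    refine Fin.lastCases ?_ (fun l => ?_) l
    · rw [Fin.snoc_last, jvec, dif_neg]
      simp only [Fin.val_last]
      omega
    · rw [Fin.snoc_castSucc]
      rfl
  · change (Pi.single (⟨i + 1 + (j.castSucc : Fin (k + 1)), by simp; omega⟩ : Fin (r + 1)) (1 : ℂ) :
      Fin (r + 1) → ℂ) = (Fin.snoc (Pi.single (⟨i + 1 + j, by omega⟩ : Fin r) (1 : ℂ) :
        Fin r → ℂ) 0 : Fin (r + 1) → ℂ)
    funext l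
    refine Fin.lastCases ?_ (fun l => ?_) l
    · rw [Fin.snoc_last, Pi.single_apply, if_neg]
      intro h
      have := congrArg Fin.val h
      simp at this
      omega
    · rw [Fin.snoc_castSucc, Pi.single_apply, Pi.single_apply]
      congr 1
      rw [Fin.ext_iff, Fin.ext_iff]
      simp

theorem jC_mem (i k r : ℕ) (hr : i + 1 + (k + 1) = r + 1) (x : Pc (2 * (i + 1))) :
    jC (i + 1) (k + 1) (r + 1) hr x ∈ UU k r := by
  change (jC (i + 1) (k + 1) (r + 1) hr x).1 (Fin.last (k + 1)) ∈ OO r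
  rw [jC_last]
  exact ee_mem

/-- the standard sphere in the open piece `UU` -/
noncomputable def jU (i k r : ℕ) (hr : i + 1 + (k + 1) = r + 1) :
    C(Pc (2 * (i + 1)), UU k r) :=
  ⟨fun x => ⟨jC (i + 1) (k + 1) (r + 1) hr x, jC_mem i k r hr x⟩,
    (jC (i + 1) (k + 1) (r + 1) hr).continuous.subtype_mk _⟩

theorem li_smul {n r : ℕ} (c : ℂ) (hc : c ≠ 0) (w : Fin n → (Fin r → ℂ))
    (hw : LinearIndependent ℂ w) : LinearIndependent ℂ (fun j => c • w j) := by
  rw [Fintype.linearIndependent_iff] at hw ⊢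
  intro g hg j
  have := hw (fun j => g j * c) (by
    rw [← hg]
    refine Finset.sum_congr rfl fun i _ => ?_
    rw [mul_smul]) j
  rcases mul_eq_zero.1 this with h | h
  · exact h
  · exact absurd h hc

/-- rotation of the standard sphere by `e^{iπt}` -/
noncomputable def rotH (i k r : ℕ) (hr : i + 1 + k = r) :
    C(Pc (2 * (i + 1)) × unitInterval, St (k + 1) r) where
  toFun p := ⟨fun j => Complex.exp ((Real.pi * (p.2 : ℝ) : ℝ) * Complex.I) •
    (jC (i + 1) k r hr p.1).1 j,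
    li_smul _ (Complex.exp_ne_zero _) _ (jC (i + 1) k r hr p.1).2⟩
  continuous_toFun := by
    refine Continuous.subtype_mk (continuous_pi fun j => ?_) _
    have h1 : Continuous (fun p : Pc (2 * (i + 1)) × unitInterval =>
        Complex.exp ((Real.pi * (p.2 : ℝ) : ℝ) * Complex.I)) := by fun_prop
    have h2 : Continuous (fun p : Pc (2 * (i + 1)) × unitInterval => (jC (i + 1) k r hr p.1).1 j) :=
      (continuous_apply j).comp
        (continuous_subtype_val.comp ((jC (i + 1) k r hr).continuous.comp continuous_fst))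
    exact h1.smul h2

theorem rotH_zero (i k r : ℕ) (hr : i + 1 + k = r) : slice (rotH i k r hr) 0 = jC (i + 1) k r hr := by
  ext x : 1
  apply Subtype.ext
  funext j
  change Complex.exp ((Real.pi * ((0 : unitInterval) : ℝ) : ℝ) * Complex.I) •
    (jC (i + 1) k r hr x).1 j = _
  simp

theorem rotH_one (i k r : ℕ) (hr : i + 1 + (k + 1) = r + 1) : slice (rotH i (k + 1) (r + 1) hr) 1 =
    ((inc (VV k r)).comp (ngU k r)).comp (jU i k r hr) := by
  ext x : 1
  apply Subtype.ext
  funext j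
  change Complex.exp ((Real.pi * ((1 : unitInterval) : ℝ) : ℝ) * Complex.I) •
    (jC (i + 1) (k + 1) (r + 1) hr x).1 j = - (jC (i + 1) (k + 1) (r + 1) hr x).1 j
  simp

theorem mem_UU (k r : ℕ) : ∀ w, w ∈ UU k r ↔ w.1 (Fin.last (k + 1)) ∈ OO r := fun _ => Iff.rfl

/-- generation on `UU` -/
theorem gen_UU (i k r : ℕ) (hr : i + 1 + (k + 1) = r + 1) (hr' : i + 1 + k = r)
    (ih : ∀ y : Ch (St (k + 1) r) (2 * i + 1), IsCyc (2 * i + 1) y → ∃ a : ℤ, IsBdy (2 * i + 1)
      (y - a • psh (jC (i + 1) k r hr') (2 * i + 1) (fund (2 * i + 1))))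
    (a : Ch (UU k r) (2 * i + 1)) (ha : IsCyc (2 * i + 1) a) : ∃ a0 : ℤ, IsBdy (2 * i + 1)
        (a - a0 • psh (jU i k r hr) (2 * i + 1) (fund (2 * i + 1))) := by
  have h1 := htpy_bdy (hoM (k := k) (OO r) subset_rfl (UU k r) (mem_UU k r)) _ a ha
  rw [slice_one, slice_zero, psh_id, ← psh_psh] at h1
  obtain ⟨y', hy'⟩ : ∃ y', y' = psh (prM (OO r) subset_rfl (UU k r) (mem_UU k r)) (2 * i + 1) a :=
    ⟨_, rfl⟩
  rw [← hy'] at h1
  have hyc : IsCyc (2 * i + 1) y' := by
    rw [hy']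
    exact isCyc_psh _ _ _ ha
  obtain ⟨h, hs⟩ := exists_spec (V := OO r) ⟨ee' r, ee_mem⟩ (2 * i + 2)
    (fun j _ => racyc_OO r j)
  have h2 : IsBdy (2 * i + 1) (y' - psh (PP (St (k + 1) r) (⟨ee' r, ee_mem⟩ : OO r))
      (2 * i + 1) y') := by
    refine ⟨ext h (St (k + 1) r) (2 * i + 1) y', ?_⟩
    rw [spec_succ _ h (2 * i) (hs (2 * i + 1) (by omega)), show sbd _ (2 * i) y' = 0 from hyc,
      map_zero, sub_zero]
  obtain ⟨a0, ha0⟩ := ih (psh ContinuousMap.fst (2 * i + 1) y') (isCyc_psh _ _ _ hyc)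
  refine ⟨a0, ?_⟩
  have h3 := isBdy_psh (seM (OO r) subset_rfl (UU k r) (mem_UU k r)) _ _ h2
  have h4 := isBdy_psh ((seM (OO r) subset_rfl (UU k r) (mem_UU k r)).comp
    ((ContinuousMap.id (St (k + 1) r)).prodMk
      (ContinuousMap.const _ (⟨ee' r, ee_mem⟩ : OO r)))) _ _ ha0
  have e1 : ((seM (OO r) subset_rfl (UU k r) (mem_UU k r)).comp
    ((ContinuousMap.id (St (k + 1) r)).prodMk
      (ContinuousMap.const _ (⟨ee' r, ee_mem⟩ : OO r)))).comp (jC (i + 1) k r hr') =
      jU i k r hr := by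
    ext x : 1
    apply Subtype.ext
    apply Subtype.ext
    funext j
    refine Fin.lastCases ?_ (fun j => ?_) j
    · change (Fin.snoc (fun j : Fin (k + 1) => sec (ee' r) ((jC (i + 1) k r hr' x).1 j)) (ee' r) :
        Fin (k + 2) → Fin (r + 1) → ℂ) (Fin.last (k + 1)) =
        (jC (i + 1) (k + 1) (r + 1) hr x).1 (Fin.last (k + 1))
      rw [Fin.snoc_last, jC_last]
    · change (Fin.snoc (fun j : Fin (k + 1) => sec (ee' r) ((jC (i + 1) k r hr' x).1 j)) (ee' r) :
        Fin (k + 2) → Fin (r + 1) → ℂ) j.castSucc =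
        (jC (i + 1) (k + 1) (r + 1) hr x).1 j.castSucc
      rw [Fin.snoc_castSucc, jC_castSucc i k r hr hr', sec_ee]
  have e2 : ((seM (OO r) subset_rfl (UU k r) (mem_UU k r)).comp
    ((ContinuousMap.id (St (k + 1) r)).prodMk
      (ContinuousMap.const _ (⟨ee' r, ee_mem⟩ : OO r)))).comp ContinuousMap.fst =
      (seM (OO r) subset_rfl (UU k r) (mem_UU k r)).comp
        (PP (St (k + 1) r) (⟨ee' r, ee_mem⟩ : OO r)) := rfl
  rw [map_sub, map_smul, psh_psh, psh_psh, e1, e2] at h4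
  rw [map_sub, psh_psh] at h3
  have h5 := isBdy_add h1 (isBdy_add h3 h4)
  rwa [sub_add_sub_cancel, sub_add_sub_cancel] at h5

theorem st_gen_of (hpc : ∀ n m : ℕ, m ≠ n → RAcyc (Pc (n + 1)) m)
    (hfund : ∀ n : ℕ, IsCyc n (fund n))
    (hgen : ∀ (n : ℕ) (z : Ch (Pc (n + 1)) n), IsCyc n z → ∃ a : ℤ, IsBdy n (z - a • fund n))
    (i k r : ℕ) (hr : i + 1 + k = r) (y : Ch (St (k + 1) r) (2 * i + 1))
    (hy : IsCyc (2 * i + 1) y) : ∃ a : ℤ, IsBdy (2 * i + 1)
      (y - a • psh (jC (i + 1) k r hr) (2 * i + 1) (fund (2 * i + 1))) := by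
  induction k generalizing r with
  | zero =>
    have hr' : r = i + 1 := by omega
    subst hr'
    obtain ⟨g, hg⟩ := exists_gC i hr
    obtain ⟨a, ha⟩ := hgen (2 * i + 1) (psh g (2 * i + 1) y) (isCyc_psh g _ _ hy)
    refine ⟨a, ?_⟩
    have h1 := isBdy_psh (jC (i + 1) 0 (i + 1) hr) _ _ ha
    rw [map_sub, map_smul, psh_psh, hg, psh_id] at h1
    exact h1
  | succ k ih =>
    obtain ⟨r, rfl⟩ : ∃ r', r = r' + 1 := ⟨r - 1, by omega⟩
    have hr' : i + 1 + k = r := by omega
    have hgU := gen_UU i k r hr hr' (ih r hr')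
    have hW : RAcyc (UU k r ∩ VV k r : Set _) (2 * i) :=
      racyc_W (Opm r) (Opm_sub r) (UU k r ∩ VV k r) (mem_UV k r) ⟨vI r, vI_mem⟩ (2 * r) (2 * i)
        (fun p hp => racyc_Opm hpc r p hp) (by omega) (st_acyc_of hpc i k r hr' (2 * i) (by omega))
    obtain ⟨a, b, ha, hb, hab⟩ := mv_gen (isOpen_UU k r) (isOpen_VV k r) (cov_UV k r) (2 * i) hW y hy
    obtain ⟨a0, ha0⟩ := hgU a ha
    obtain ⟨b0, hb0⟩ := hgU (psh (ngV k r) (2 * i + 1) b) (isCyc_psh _ _ _ hb)
    refine ⟨a0 + b0, ?_⟩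
    have h1 := isBdy_psh (inc (UU k r)) _ _ ha0
    have h2 := isBdy_psh ((inc (VV k r)).comp (ngU k r)) _ _ hb0
    have e1 : (((inc (VV k r)).comp (ngU k r)).comp (ngV k r)) = inc (VV k r) := by
      ext w : 1
      apply Subtype.ext
      change -(-w.1.1) = w.1.1
      exact neg_neg _
    rw [map_sub, map_smul, psh_psh] at h1 h2
    rw [psh_psh, e1] at h2
    have h3 := htpy_bdy (rotH i (k + 1) (r + 1) hr) (2 * i + 1) (fund (2 * i + 1)) (hfund _)
    rw [rotH_one, rotH_zero] at h3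
    have h4 := isBdy_add hab (isBdy_add h1 (isBdy_add h2 (isBdy_smul b0 h3)))
    have e2 : (inc (UU k r)).comp (jU i k r hr) = jC (i + 1) (k + 1) (r + 1) hr := rfl
    rw [e2] at h4
    convert h4 using 1
    rw [smul_sub, add_smul]
    abel

end Sti

/-- the first nonzero homology group of a Stiefel manifold is generated by the standard sphere -/
theorem st_gen (i k r : ℕ) (hr : i + 1 + k = r) (y : Ch (St (k + 1) r) (2 * i + 1))
    (hy : IsCyc (2 * i + 1) y) : ∃ a : ℤ, IsBdy (2 * i + 1)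
      (y - a • psh (jC (i + 1) k r hr) (2 * i + 1) (fund (2 * i + 1))) :=
  Sti.st_gen_of (fun n m h => pc_acyc n m h) (fun n => fund_cyc n) (fun n z hz => pc_gen n z hz)
    i k r hr y hy

end Pool.Agent.H904R2
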