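import Pool.Agent.H904R2.MV

/-! The geometry of the last-vector fibration of Stiefel manifolds. -/

set_option autoImplicit false

namespace Pool.Agent.H904R2

open Finsupp
open Prd Pool.Agent.Helper922.HB.Sc

namespace Sti

open MV

variable {r : ℕ}

noncomputable def TT (v : Fin (r + 1) → ℂ) : ℝ := ∑ l : Fin r, ‖v l.castSucc‖ ^ 2

noncomputable def AA (v : Fin (r + 1) → ℂ) : ℝ := TT v + (v (Fin.last r)).im ^ 2

noncomputable def nn (v : Fin (r + 1) → ℂ) : ℝ := Real.sqrt (AA v + (v (Fin.last r)).re ^ 2)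

/-- complement of the ray `ℝ_{≤ 0} e` -/
def OO (r : ℕ) : Set (Fin (r + 1) → ℂ) := {v | 0 < nn v + (v (Fin.last r)).re}

theorem TT_nonneg (v : Fin (r + 1) → ℂ) : 0 ≤ TT v := Finset.sum_nonneg fun _ _ => by positivity

theorem AA_nonneg (v : Fin (r + 1) → ℂ) : 0 ≤ AA v := by
  have := TT_nonneg v
  unfold AA
  positivity

theorem nn_nonneg (v : Fin (r + 1) → ℂ) : 0 ≤ nn v := Real.sqrt_nonneg _

theorem nn_sq (v : Fin (r + 1) → ℂ) : nn v ^ 2 = AA v + (v (Fin.last r)).re ^ 2 := by
  have := AA_nonneg v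
  exact Real.sq_sqrt (by positivity)

theorem cont_TT : Continuous (TT (r := r)) := by unfold TT; fun_prop
theorem cont_AA : Continuous (AA (r := r)) := by
  unfold AA
  have := cont_TT (r := r)
  fun_prop
theorem cont_nn : Continuous (nn (r := r)) := by
  unfold nn
  have := cont_AA (r := r)
  fun_prop

theorem isOpen_OO : IsOpen (OO r) := by
  unfold OO
  have := cont_nn (r := r)
  exact isOpen_lt continuous_const (by fun_prop)

theorem mem_OO (v : Fin (r + 1) → ℂ) : v ∈ OO r ↔ 0 < AA v ∨ 0 < (v (Fin.last r)).re := by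
  have h0 := AA_nonneg v
  have h1 := nn_sq v
  have h2 := nn_nonneg v
  constructor
  · intro h
    by_contra hcon
    push Not at hcon
    have hA : AA v = 0 := le_antisymm hcon.1 h0
    have h' : 0 < nn v + (v (Fin.last r)).re := h
    rw [hA, zero_add] at h1
    nlinarith [hcon.2]
  · rintro (h | h)
    · change 0 < nn v + (v (Fin.last r)).re
      by_contra hcon
      push Not at hcon
      nlinarith
    · change 0 < nn v + (v (Fin.last r)).re
      linarith

theorem AA_neg (v : Fin (r + 1) → ℂ) : AA (-v) = AA v := by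
  unfold AA TT
  simp

theorem mem_Opm (v : Fin (r + 1) → ℂ) : (v ∈ OO r ∧ -v ∈ OO r) ↔ 0 < AA v := by
  rw [mem_OO, mem_OO, AA_neg]
  constructor
  · rintro ⟨h1 | h1, h2 | h2⟩
    · exact h1
    · exact h1
    · exact h2
    · simp only [Pi.neg_apply, Complex.neg_re] at h2
      linarith
  · intro h
    exact ⟨Or.inl h, Or.inl h⟩

theorem mem_or (v : Fin (r + 1) → ℂ) (hv : v ≠ 0) : v ∈ OO r ∨ -v ∈ OO r := by
  rw [mem_OO, mem_OO, AA_neg]
  by_contra hcon
  push Not at hcon
  obtain ⟨⟨h1, h2⟩, h3, h4⟩ := hcon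
  simp only [Pi.neg_apply, Complex.neg_re] at h4
  apply hv
  have hA : AA v = 0 := le_antisymm h1 (AA_nonneg v)
  have hT : TT v = 0 := by
    have := TT_nonneg v
    unfold AA at hA
    nlinarith [sq_nonneg (v (Fin.last r)).im]
  have him : (v (Fin.last r)).im = 0 := by
    unfold AA at hA
    rw [hT, zero_add] at hA
    exact pow_eq_zero_iff (two_ne_zero) |>.mp hA
  unfold TT at hT
  rw [Finset.sum_eq_zero_iff_of_nonneg (fun _ _ => by positivity)] at hT
  funext l
  refine Fin.lastCases ?_ (fun l => ?_) l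
  · apply Complex.ext
    · simp only [Pi.zero_apply, Complex.zero_re]
      linarith
    · simpa using him
  · have := hT l (Finset.mem_univ _)
    simpa using this

/-- the function `β` -/
noncomputable def be (v : Fin (r + 1) → ℂ) : ℂ := (((nn v + (v (Fin.last r)).re)⁻¹ : ℝ) : ℂ)

noncomputable def SS (v x : Fin (r + 1) → ℂ) : ℂ :=
  ∑ l : Fin r, x l.castSucc * (starRingEnd ℂ) (v l.castSucc)

theorem SS_self (v : Fin (r + 1) → ℂ) : SS v v = ((TT v : ℝ) : ℂ) := by
  unfold SS TT
  push_cast
  refine Finset.sum_congr rfl fun l _ => ?_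
  rw [Complex.mul_conj, Complex.normSq_eq_norm_sq]
  push_cast
  rfl

noncomputable def hh (v : Fin (r + 1) → ℂ) : ℂ := v (Fin.last r) + be v * SS v v

theorem hh_ne (v : Fin (r + 1) → ℂ) (hv : v ∈ OO r) : hh v ≠ 0 := by
  intro h
  have hpos : 0 < nn v + (v (Fin.last r)).re := hv
  unfold hh be at h
  rw [SS_self] at h
  have h1 := congrArg Complex.re h
  have h2 := congrArg Complex.im h
  rw [← Complex.ofReal_mul, Complex.add_re, Complex.ofReal_re] at h1
  rw [← Complex.ofReal_mul, Complex.add_im, Complex.ofReal_im] at h2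
  simp only [add_zero, Complex.zero_im] at h2
  simp only [Complex.zero_re] at h1
  have h3 := nn_sq v
  unfold AA at h3
  rw [h2] at h3
  have h4 : TT v = (nn v - (v (Fin.last r)).re) * (nn v + (v (Fin.last r)).re) := by
    nlinarith
  rw [h4, mul_comm, mul_assoc, mul_inv_cancel₀ hpos.ne', mul_one] at h1
  have h5 : nn v = 0 := by linarith
  rw [h5] at h3 h4 hpos
  have := TT_nonneg v
  nlinarith

noncomputable def lam (v x : Fin (r + 1) → ℂ) : ℂ := (x (Fin.last r) + be v * SS v x) / hh v

/-- projection along `v` -/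
noncomputable def PR' (v x : Fin (r + 1) → ℂ) : Fin r → ℂ :=
  fun l => x l.castSucc - lam v x * v l.castSucc

/-- section -/
noncomputable def sec (v : Fin (r + 1) → ℂ) (g : Fin r → ℂ) : Fin (r + 1) → ℂ :=
  Fin.snoc g (-(be v * ∑ l : Fin r, g l * (starRingEnd ℂ) (v l.castSucc)))

theorem SS_add (v x y : Fin (r + 1) → ℂ) : SS v (x + y) = SS v x + SS v y := by
  unfold SS
  simp [add_mul, Finset.sum_add_distrib]

theorem SS_smul (v : Fin (r + 1) → ℂ) (a : ℂ) (x : Fin (r + 1) → ℂ) :
    SS v (a • x) = a * SS v x := by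
  unfold SS
  simp [Finset.mul_sum, mul_assoc]

/-- `lam v` as a linear map -/
noncomputable def lamL (v : Fin (r + 1) → ℂ) : (Fin (r + 1) → ℂ) →ₗ[ℂ] ℂ where
  toFun := lam v
  map_add' x y := by
    unfold lam
    rw [SS_add, Pi.add_apply]
    ring
  map_smul' a x := by
    unfold lam
    rw [SS_smul, Pi.smul_apply]
    simp only [smul_eq_mul, RingHom.id_apply]
    ring

noncomputable def PRL (v : Fin (r + 1) → ℂ) : (Fin (r + 1) → ℂ) →ₗ[ℂ] (Fin r → ℂ) where
  toFun := PR' v
  map_add' x y := by
    funext l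
    have := map_add (lamL v) x y
    change lam v (x + y) = lam v x + lam v y at this
    simp only [PR', this, Pi.add_apply]
    ring
  map_smul' a x := by
    funext l
    have := map_smul (lamL v) a x
    change lam v (a • x) = a • lam v x at this
    simp only [PR', this, Pi.smul_apply, smul_eq_mul, RingHom.id_apply]
    ring

theorem lam_self (v : Fin (r + 1) → ℂ) (hv : v ∈ OO r) : lam v v = 1 :=
  div_self (hh_ne v hv)

theorem PR_self (v : Fin (r + 1) → ℂ) (hv : v ∈ OO r) : PR' v v = 0 := by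
  funext l
  simp [PR', lam_self v hv]

theorem lam_sec (v : Fin (r + 1) → ℂ) (g : Fin r → ℂ) : lam v (sec v g) = 0 := by
  unfold lam sec SS
  simp

theorem PR_sec (v : Fin (r + 1) → ℂ) (g : Fin r → ℂ) : PR' v (sec v g) = g := by
  funext l
  rw [PR', lam_sec]
  simp [sec]

theorem sec_PR (v : Fin (r + 1) → ℂ) (hv : v ∈ OO r) (x : Fin (r + 1) → ℂ) :
    sec v (PR' v x) = x - lam v x • v := by
  have hne := hh_ne v hv
  funext l
  refine Fin.lastCases ?_ (fun l => ?_) l
  · simp only [sec, Fin.snoc_last, PR', Pi.sub_apply, Pi.smul_apply, smul_eq_mul]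
    have h1 : ∑ l : Fin r, (x l.castSucc - lam v x * v l.castSucc) *
        (starRingEnd ℂ) (v l.castSucc) = SS v x - lam v x * SS v v := by
      unfold SS
      rw [Finset.mul_sum, ← Finset.sum_sub_distrib]
      refine Finset.sum_congr rfl fun l _ => ?_
      ring
    rw [h1]
    have h2 : lam v x * hh v = x (Fin.last r) + be v * SS v x := by
      unfold lam
      rw [div_mul_cancel₀ _ hne]
    unfold hh at h2
    linear_combination h2
  · simp [sec, PR']

theorem cont_be {Z : Type} [TopologicalSpace Z] (v : Z → Fin (r + 1) → ℂ) (hv : Continuous v)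
    (hO : ∀ z, v z ∈ OO r) : Continuous (fun z => be (v z)) := by
  unfold be
  have h1 := cont_nn (r := r)
  refine Complex.continuous_ofReal.comp ?_
  refine Continuous.inv₀ (by fun_prop) ?_
  intro z
  exact ne_of_gt (hO z)

theorem cont_SS {Z : Type} [TopologicalSpace Z] (v x : Z → Fin (r + 1) → ℂ) (hv : Continuous v)
    (hx : Continuous x) : Continuous (fun z => SS (v z) (x z)) := by
  unfold SS
  refine continuous_finsetSum _ fun l _ => ?_
  refine Continuous.mul (by fun_prop) (Complex.continuous_conj.comp (by fun_prop))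

theorem cont_lam {Z : Type} [TopologicalSpace Z] (v x : Z → Fin (r + 1) → ℂ) (hv : Continuous v)
    (hx : Continuous x) (hO : ∀ z, v z ∈ OO r) : Continuous (fun z => lam (v z) (x z)) := by
  unfold lam
  have h1 := cont_be v hv hO
  have h2 := cont_SS v x hv hx
  have h3 := cont_SS v v hv hv
  refine Continuous.div (by fun_prop) (by unfold hh; fun_prop) ?_
  intro z
  exact hh_ne _ (hO z)

theorem cont_PR {Z : Type} [TopologicalSpace Z] (v x : Z → Fin (r + 1) → ℂ) (hv : Continuous v)
    (hx : Continuous x) (hO : ∀ z, v z ∈ OO r) : Continuous (fun z => PR' (v z) (x z)) := by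
  unfold PR'
  have h1 := cont_lam v x hv hx hO
  fun_prop

theorem cont_sec {Z : Type} [TopologicalSpace Z] (v : Z → Fin (r + 1) → ℂ) (g : Z → Fin r → ℂ)
    (hv : Continuous v) (hg : Continuous g) (hO : ∀ z, v z ∈ OO r) :
    Continuous (fun z => sec (v z) (g z)) := by
  refine continuous_pi fun l => ?_
  have h1 := cont_be v hv hO
  refine Fin.lastCases ?_ (fun l => ?_) l
  · simp only [sec, Fin.snoc_last]
    refine (h1.mul ?_).neg
    refine continuous_finsetSum _ fun l _ => ?_
    exact Continuous.mul (by fun_prop) (Complex.continuous_conj.comp (by fun_prop))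
  · simp only [sec, Fin.snoc_castSucc]
    fun_prop

end Sti

end Pool.Agent.H904R2
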