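import Pool.Agent.H904R2.StFr

/-! Homology of Stiefel manifolds in low degrees, from the homology of spheres. -/

set_option autoImplicit false

namespace Pool.Agent.H904R2

open Finsupp
open Prd Pool.Agent.Helper922.HB.Sc

namespace Sti

open MV

/-! ### points and convex pieces -/

theorem racyc_pt (m : ℕ) : RAcyc Unit m := by
  have hss : ∀ (m : ℕ) (σ τ : Sing Unit m), σ = τ := by
    intro m σ τ
    ext t
  have hz : ∀ (m : ℕ) (z : Ch Unit m), z = z (ContinuousMap.const _ ()) •
      single (ContinuousMap.const _ () : Sing Unit m) (1 : ℤ) := by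
    intro m z
    ext σ
    rw [hss m σ (ContinuousMap.const _ ())]
    simp
  have hb : ∀ (m : ℕ), sbd Unit m (single (ContinuousMap.const _ () : Sing Unit (m + 1)) (1 : ℤ)) =
      (if Even (m + 2) then (0 : ℤ) else 1) • single (ContinuousMap.const _ () : Sing Unit m)
        (1 : ℤ) := by
    intro m
    rw [sbd, bd_single, ← neg_one_geom_sum, Finset.sum_smul,
      ← Fin.sum_univ_eq_sum_range (fun i => (-1 : ℤ) ^ i • single (ContinuousMap.const _ () :
        Sing Unit m) (1 : ℤ))]
    rfl
  intro z hc
  rw [hz m z] at hc ⊢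
  set a := z (ContinuousMap.const _ ()) with ha
  cases m with
  | zero =>
    change (a • single (ContinuousMap.const _ () : Sing Unit 0) (1 : ℤ)).sum (fun _ a => a) = 0
      at hc
    rw [smul_single, smul_eq_mul, mul_one, sum_single_index rfl] at hc
    rw [hc, zero_smul]
    exact ⟨0, map_zero _⟩
  | succ m =>
    change sbd Unit m _ = 0 at hc
    rw [map_smul, hb] at hc
    by_cases he : Even (m + 2)
    · refine ⟨a • single (ContinuousMap.const _ () : Sing Unit (m + 2)) (1 : ℤ), ?_⟩
      rw [map_smul, hb, if_neg, one_smul]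
      rw [Nat.even_add_one, not_not]
      exact he
    · rw [if_neg he, one_smul] at hc
      have h1 := congrArg (fun w : Ch Unit m => w (ContinuousMap.const _ ())) hc
      simp at h1
      rw [h1, zero_smul]
      exact ⟨0, map_zero _⟩

theorem reE {n : ℕ} (v : Fin n → ℂ) {a b : Fin n} (h : (a : ℕ) = b) : (v a).re = (v b).re := by
  rw [Fin.ext h]

theorem imE {n : ℕ} (v : Fin n → ℂ) {a b : Fin n} (h : (a : ℕ) = b) : (v a).im = (v b).im := by
  rw [Fin.ext h]

section

variable {r : ℕ}

/-- the last basis vector -/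
noncomputable def ee' (r : ℕ) : Fin (r + 1) → ℂ := Pi.single (Fin.last r) 1

theorem ee_castSucc (l : Fin r) : ee' r l.castSucc = 0 := by
  unfold ee'
  rw [Pi.single_eq_of_ne]
  exact (Fin.castSucc_lt_last l).ne

theorem ee_last : ee' r (Fin.last r) = 1 := by simp [ee']

theorem seg_mem (v : Fin (r + 1) → ℂ) (hv : v ∈ OO r) (t : ℝ) (h0 : 0 ≤ t) (h1 : t ≤ 1) :
    (t : ℂ) • v + ((1 - t : ℝ) : ℂ) • ee' r ∈ OO r := by
  have hA : AA ((t : ℂ) • v + ((1 - t : ℝ) : ℂ) • ee' r) = t ^ 2 * AA v := by
    unfold AA TT
    simp only [Pi.add_apply, Pi.smul_apply, smul_eq_mul, ee_castSucc, mul_zero, add_zero,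
      norm_mul, ee_last, mul_one, Complex.add_im, Complex.ofReal_im, Complex.mul_im,
      Complex.ofReal_re, zero_mul, Complex.norm_real, Real.norm_eq_abs, mul_pow, sq_abs]
    rw [mul_add, Finset.mul_sum]
  have hR : (((t : ℂ) • v + ((1 - t : ℝ) : ℂ) • ee' r) (Fin.last r)).re =
      t * (v (Fin.last r)).re + (1 - t) := by
    simp [ee_last]
  rw [mem_OO] at hv ⊢
  rw [hA, hR]
  rcases h0.eq_or_lt with rfl | h0
  · right; simp
  · rcases hv with hv | hv
    · left; positivity
    · right
      have : 0 < t * (v (Fin.last r)).re := by positivity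
      linarith

noncomputable def HO (r : ℕ) : C(OO r × unitInterval, OO r) where
  toFun p := ⟨((p.2 : ℝ) : ℂ) • p.1.1 + ((1 - (p.2 : ℝ) : ℝ) : ℂ) • ee' r,
    seg_mem p.1.1 p.1.2 p.2 p.2.2.1 p.2.2.2⟩
  continuous_toFun := by
    refine Continuous.subtype_mk ?_ _
    have h1 : Continuous (fun p : OO r × unitInterval => ((p.2 : ℝ) : ℂ)) :=
      Complex.continuous_ofReal.comp (by fun_prop)
    have h2 : Continuous (fun p : OO r × unitInterval => (((1 - (p.2 : ℝ) : ℝ)) : ℂ)) :=
      Complex.continuous_ofReal.comp (by fun_prop)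
    have h3 : Continuous (fun p : OO r × unitInterval => p.1.1) :=
      continuous_subtype_val.comp continuous_fst
    exact (h1.smul h3).add (h2.smul continuous_const)

theorem ee_mem : ee' r ∈ OO r := by
  rw [mem_OO]
  right
  simp [ee_last]

theorem racyc_OO (r m : ℕ) : RAcyc (OO r) m := by
  refine racyc_of_htpy (ContinuousMap.const _ ()) (ContinuousMap.const _ ⟨ee' r, ee_mem⟩) (HO r)
    ?_ ?_ m (racyc_pt m)
  · ext p : 1
    apply Subtype.ext
    simp [slice, HO]
  · ext p : 1
    apply Subtype.ext
    simp [slice, HO]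

/-- complement of the line `ℝ e` -/
def Opm (r : ℕ) : Set (Fin (r + 1) → ℂ) := {v | v ∈ OO r ∧ -v ∈ OO r}

theorem mem_Opm' (v : Fin (r + 1) → ℂ) : v ∈ Opm r ↔ 0 < AA v := mem_Opm v

theorem AA_pos_of (v : Fin (r + 1) → ℂ)
    (h : ¬ ((∀ l : Fin r, v l.castSucc = 0) ∧ (v (Fin.last r)).im = 0)) : 0 < AA v := by
  by_contra hcon
  push Not at hcon
  have hA : AA v = 0 := le_antisymm hcon (AA_nonneg v)
  have hT : TT v = 0 := by
    have := TT_nonneg v
    unfold AA at hA
    nlinarith [sq_nonneg (v (Fin.last r)).im]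
  have him : (v (Fin.last r)).im = 0 := by
    unfold AA at hA
    rw [hT, zero_add] at hA
    exact pow_eq_zero_iff (two_ne_zero) |>.mp hA
  unfold TT at hT
  rw [Finset.sum_eq_zero_iff_of_nonneg (fun _ _ => by positivity)] at hT
  exact h ⟨fun l => by simpa using hT l (Finset.mem_univ _), him⟩

theorem AA_eq_zero (v : Fin (r + 1) → ℂ) (h : ∀ l : Fin r, v l.castSucc = 0)
    (h' : (v (Fin.last r)).im = 0) : AA v = 0 := by
  unfold AA TT
  simp [h, h']

noncomputable def fP (r : ℕ) : C(Opm r, Pc (2 * r + 1)) where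
  toFun v := ⟨fun m => if (m : ℕ) % 2 = 0 then (v.1 ⟨m / 2, by omega⟩).im
      else (v.1 ⟨m / 2, by omega⟩).re, by
    intro h
    have h1 : AA v.1 = 0 := by
      apply AA_eq_zero
      · intro l
        apply Complex.ext
        · have := congrFun h ⟨2 * l + 1, by omega⟩
          simp only [Pi.zero_apply] at this
          rw [if_neg (by omega)] at this
          rw [Complex.zero_re, ← this]
          apply reE
          simp only [Fin.val_castSucc]
          omega
        · have := congrFun h ⟨2 * l, by omega⟩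
          simp only [Pi.zero_apply] at this
          rw [if_pos (by omega)] at this
          rw [Complex.zero_im, ← this]
          apply imE
          simp only [Fin.val_castSucc]
          omega
      · have := congrFun h ⟨2 * r, by omega⟩
        simp only [Pi.zero_apply] at this
        rw [if_pos (by omega)] at this
        rw [← this]
        apply imE
        simp only [Fin.val_last]
        omega
    have h2 := (mem_Opm' v.1).mp v.2
    linarith⟩
  continuous_toFun := by
    refine Continuous.subtype_mk (continuous_pi fun m => ?_) _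
    split_ifs
    · exact Complex.continuous_im.comp ((continuous_apply _).comp continuous_subtype_val)
    · exact Complex.continuous_re.comp ((continuous_apply _).comp continuous_subtype_val)

noncomputable def gvec (r : ℕ) (x : Fin (2 * r + 1) → ℝ) : Fin (r + 1) → ℂ :=
  fun l => ((if h : (l : ℕ) < r then x ⟨2 * l + 1, by omega⟩ else 0 : ℝ) : ℂ) +
    (x ⟨2 * l, by omega⟩ : ℂ) * Complex.I

theorem gvec_re (x : Fin (2 * r + 1) → ℝ) (l : Fin (r + 1)) : (gvec r x l).re =
    if h : (l : ℕ) < r then x ⟨2 * l + 1, by omega⟩ else 0 := by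
  simp only [gvec, Complex.add_re, Complex.ofReal_re, Complex.mul_re, Complex.I_re, mul_zero,
    Complex.ofReal_im, Complex.I_im, mul_one, sub_self, add_zero]

theorem gvec_im (x : Fin (2 * r + 1) → ℝ) (l : Fin (r + 1)) : (gvec r x l).im =
    x ⟨2 * l, by omega⟩ := by
  simp only [gvec, Complex.add_im, Complex.ofReal_re, Complex.mul_im, Complex.I_re, mul_zero,
    Complex.ofReal_im, Complex.I_im, mul_one, zero_add, add_zero]

noncomputable def gP (r : ℕ) : C(Pc (2 * r + 1), Opm r) where
  toFun x := ⟨gvec r x.1, by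
    rw [mem_Opm']
    apply AA_pos_of
    rintro ⟨h1, h2⟩
    apply x.2
    have h3 : ∀ l : Fin (r + 1), x.1 ⟨2 * l, by omega⟩ = 0 := by
      intro l
      rw [← gvec_im x.1 l]
      refine Fin.lastCases h2 (fun l => ?_) l
      rw [h1 l]
      rfl
    funext m
    rcases Nat.even_or_odd' (m : ℕ) with ⟨c, hc | hc⟩
    · have := h3 ⟨c, by omega⟩
      have he : m = ⟨2 * c, by omega⟩ := Fin.ext hc
      rw [he]
      exact this
    · have hcr : c < r := by omega
      have := gvec_re x.1 (Fin.castSucc ⟨c, hcr⟩)
      rw [h1] at this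
      simp only [Complex.zero_re, Fin.val_castSucc, hcr, dif_pos] at this
      have he : m = ⟨2 * c + 1, by omega⟩ := Fin.ext hc
      rw [he]
      exact this.symm⟩
  continuous_toFun := by
    refine Continuous.subtype_mk (continuous_pi fun l => ?_) _
    unfold gvec
    refine Continuous.add ?_ (Continuous.mul ?_ continuous_const)
    · refine Complex.continuous_ofReal.comp ?_
      by_cases h : (l : ℕ) < r
      · simp only [h, dif_pos]
        exact (continuous_apply _).comp continuous_subtype_val
      · simp only [h, dif_neg, not_false_eq_true]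
        exact continuous_const
    · exact Complex.continuous_ofReal.comp ((continuous_apply _).comp continuous_subtype_val)

noncomputable def HP (r : ℕ) : C(Opm r × unitInterval, Opm r) where
  toFun p := ⟨p.1.1 - (((1 - (p.2 : ℝ)) * (p.1.1 (Fin.last r)).re : ℝ) : ℂ) • ee' r, by
    have h := (mem_Opm' p.1.1).mp p.1.2
    rw [mem_Opm']
    convert h using 1
    unfold AA TT
    simp [ee_castSucc, ee_last]⟩
  continuous_toFun := by
    refine Continuous.subtype_mk ?_ _
    have h3 : Continuous (fun p : Opm r × unitInterval => p.1.1) :=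
      continuous_subtype_val.comp continuous_fst
    have h4 : Continuous (fun p : Opm r × unitInterval => (p.1.1 (Fin.last r)).re) :=
      Complex.continuous_re.comp ((continuous_apply _).comp h3)
    have h5 : Continuous (fun p : Opm r × unitInterval => (1 - (p.2 : ℝ))) := by fun_prop
    exact h3.sub ((Complex.continuous_ofReal.comp (h5.mul h4)).smul continuous_const)

theorem racyc_Opm (hpc : ∀ n m : ℕ, m ≠ n → RAcyc (Pc (n + 1)) m) (r m : ℕ) (hm : m < 2 * r) :
    RAcyc (Opm r) m := by
  refine racyc_of_htpy (fP r) (gP r) (HP r) ?_ ?_ m (hpc (2 * r) m hm.ne)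
  · ext p : 1
    apply Subtype.ext
    funext l
    refine Fin.lastCases ?_ (fun l => ?_) l
    · change (p.1 - (((1 - ((0 : unitInterval) : ℝ)) * (p.1 (Fin.last r)).re : ℝ) : ℂ) • ee' r)
        (Fin.last r) = gvec r (fP r p).1 (Fin.last r)
      apply Complex.ext
      · rw [gvec_re, dif_neg (by simp)]
        simp [ee_last]
      · rw [gvec_im]
        simp only [Pi.sub_apply, Pi.smul_apply, ee_last, smul_eq_mul, mul_one, Complex.sub_im,
          Complex.ofReal_im, sub_zero]
        simp only [fP, ContinuousMap.coe_mk, Fin.val_last]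
        rw [if_pos (by omega)]
        apply imE
        simp only [Fin.val_last]
        omega
    · change (p.1 - (((1 - ((0 : unitInterval) : ℝ)) * (p.1 (Fin.last r)).re : ℝ) : ℂ) • ee' r)
        l.castSucc = gvec r (fP r p).1 l.castSucc
      rw [Pi.sub_apply, Pi.smul_apply, ee_castSucc, smul_zero, sub_zero]
      apply Complex.ext
      · rw [gvec_re, dif_pos (by simp)]
        simp only [fP, ContinuousMap.coe_mk, Fin.val_castSucc]
        rw [if_neg (by omega)]
        apply reE
        simp only [Fin.val_castSucc]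
        omega
      · rw [gvec_im]
        simp only [fP, ContinuousMap.coe_mk, Fin.val_castSucc]
        rw [if_pos (by omega)]
        apply imE
        simp only [Fin.val_castSucc]
        omega
  · ext p : 1
    apply Subtype.ext
    simp [slice, HP]

/-- the base point -/
noncomputable def vI (r : ℕ) : Fin (r + 1) → ℂ := Pi.single (Fin.last r) Complex.I

theorem vI_castSucc (l : Fin r) : vI r l.castSucc = 0 := by
  unfold vI
  rw [Pi.single_eq_of_ne]
  exact (Fin.castSucc_lt_last l).ne

theorem vI_mem : vI r ∈ Opm r := by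
  rw [mem_Opm']
  apply AA_pos_of
  rintro ⟨_, h⟩
  simp [vI] at h

end

/-! ### the induction -/

variable (k r : ℕ)

def UU : Set (St (k + 2) (r + 1)) := {w | w.1 (Fin.last (k + 1)) ∈ OO r}
def VV : Set (St (k + 2) (r + 1)) := {w | -w.1 (Fin.last (k + 1)) ∈ OO r}

theorem isOpen_UU : IsOpen (UU k r) :=
  isOpen_OO.preimage (cont_vec id continuous_id (Fin.last (k + 1)))

theorem isOpen_VV : IsOpen (VV k r) :=
  isOpen_OO.preimage (cont_vec id continuous_id (Fin.last (k + 1))).neg

theorem cov_UV : ∀ w, w ∈ UU k r ∨ w ∈ VV k r := fun w =>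
  mem_or _ (w.2.ne_zero (Fin.last (k + 1)))

theorem mem_UV : ∀ w, w ∈ UU k r ∩ VV k r ↔ w.1 (Fin.last (k + 1)) ∈ Opm r := fun _ => Iff.rfl

theorem Opm_sub : Opm r ⊆ OO r := fun _ h => h.1

theorem li_neg {n : ℕ} (w : Fin n → (Fin (r + 1) → ℂ)) (hw : LinearIndependent ℂ w) :
    LinearIndependent ℂ (-w) := by
  rw [Fintype.linearIndependent_iff] at hw ⊢
  intro g hg j
  have := hw (-g) (by
    rw [← hg]
    refine Finset.sum_congr rfl fun i _ => ?_
    simp) j
  simpa using this

noncomputable def ngV : C(VV k r, UU k r) where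
  toFun w := ⟨⟨-w.1.1, li_neg r _ w.1.2⟩, w.2⟩
  continuous_toFun := by
    refine Continuous.subtype_mk (Continuous.subtype_mk ?_ _) _
    exact (continuous_subtype_val.comp continuous_subtype_val).neg

noncomputable def ngU : C(UU k r, VV k r) where
  toFun w := ⟨⟨-w.1.1, li_neg r _ w.1.2⟩, by
    change -(-w.1.1 (Fin.last (k + 1))) ∈ OO r
    rw [neg_neg]
    exact w.2⟩
  continuous_toFun := by
    refine Continuous.subtype_mk (Continuous.subtype_mk ?_ _) _
    exact (continuous_subtype_val.comp continuous_subtype_val).neg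

theorem st_acyc_of (hpc : ∀ n m : ℕ, m ≠ n → RAcyc (Pc (n + 1)) m) (i k r : ℕ)
    (hr : i + 1 + k = r) (j : ℕ) (hj : j < 2 * i + 1) : RAcyc (St (k + 1) r) j := by
  induction k generalizing r j with
  | zero =>
    have hr' : r = i + 1 := by omega
    subst hr'
    -- inverse of the standard sphere
    let g : C(St (0 + 1) (i + 1), Pc (2 * (i + 1))) :=
      ⟨fun w => ⟨fun m => if (m : ℕ) % 2 = 0 then (w.1 0 ⟨m / 2, by omega⟩).re
        else (w.1 0 ⟨m / 2, by omega⟩).im, by
          intro h
          apply w.2.ne_zero 0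
          funext l
          apply Complex.ext
          · have := congrFun h ⟨2 * l, by omega⟩
            simp only [Pi.zero_apply] at this
            rw [if_pos (by omega)] at this
            rw [Pi.zero_apply, Complex.zero_re, ← this]
            apply reE
            simp only
            omega
          · have := congrFun h ⟨2 * l + 1, by omega⟩
            simp only [Pi.zero_apply] at this
            rw [if_neg (by omega)] at this
            rw [Pi.zero_apply, Complex.zero_im, ← this]
            apply imE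
            simp only
            omega⟩, by
        refine Continuous.subtype_mk (continuous_pi fun m => ?_) _
        have hc : ∀ l, Continuous (fun w : St (0 + 1) (i + 1) => w.1 0 l) := fun l =>
          (continuous_apply l).comp ((continuous_apply 0).comp continuous_subtype_val)
        split_ifs
        · exact Complex.continuous_re.comp (hc _)
        · exact Complex.continuous_im.comp (hc _)⟩
    refine racyc_of_retract g (jC (i + 1) 0 (i + 1) hr) ?_ j (hpc (2 * i + 1) j hj.ne)
    ext w : 1
    apply Subtype.ext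
    funext a
    have ha : a = 0 := Subsingleton.elim (α := Fin 1) _ _
    subst ha
    change jvec (i + 1) (i + 1) (toC (i + 1) (g w).1) = w.1 0
    funext l
    simp only [jvec, Fin.is_lt, dif_pos, toC]
    apply Complex.ext
    · simp only [Complex.add_re, Complex.ofReal_re, Complex.mul_re, Complex.I_re, mul_zero,
        Complex.ofReal_im, Complex.I_im, mul_one, sub_self, add_zero, g, ContinuousMap.coe_mk]
      rw [if_pos (by omega)]
      apply reE
      simp only
      omega
    · simp only [Complex.add_im, Complex.ofReal_im, Complex.mul_im, Complex.I_re, mul_zero,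
        Complex.ofReal_re, Complex.I_im, mul_one, zero_add, add_zero, g, ContinuousMap.coe_mk]
      rw [if_neg (by omega)]
      apply imE
      simp only
      omega
  | succ k ih =>
    obtain ⟨r, rfl⟩ : ∃ r', r = r' + 1 := ⟨r - 1, by omega⟩
    have hr' : i + 1 + k = r := by omega
    have hS := ih r hr' j hj
    have hU : RAcyc (UU k r) j := racyc_W (OO r) subset_rfl (UU k r) (fun _ => Iff.rfl)
      ⟨ee' r, ee_mem⟩ (j + 1) j (fun p _ => racyc_OO r p) (Nat.lt_succ_self j) hS
    have hV : RAcyc (VV k r) j := by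
      refine racyc_of_retract (ngV k r) (ngU k r) ?_ j hU
      ext w : 1
      apply Subtype.ext
      apply Subtype.ext
      simp [ngV, ngU]
    cases j with
    | zero =>
      let p0 : St (k + 1) r := jC (i + 1) k r hr' ⟨fun _ => 1, by
        intro h
        have := congrFun h ⟨0, by omega⟩
        simp at this⟩
      let p := seM (Opm r) (Opm_sub r) (UU k r ∩ VV k r) (mem_UV k r) (p0, ⟨vI r, vI_mem⟩)
      exact mv_acyc_zero (isOpen_UU k r) (isOpen_VV k r) (cov_UV k r) p.1 p.2.1 p.2.2 hU hV
    | succ j =>
      refine mv_acyc_succ (isOpen_UU k r) (isOpen_VV k r) (cov_UV k r) j hU hV ?_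
      exact racyc_W (Opm r) (Opm_sub r) (UU k r ∩ VV k r) (mem_UV k r) ⟨vI r, vI_mem⟩ (2 * r) j
        (fun p hp => racyc_Opm hpc r p hp) (by omega) (ih r hr' j (by omega))

theorem sec_vI (g : Fin r → ℂ) : sec (vI r) g = Fin.snoc g 0 := by
  unfold sec
  congr 1
  simp [vI_castSucc]

theorem PR_of_castSucc (v x : Fin (r + 1) → ℂ) (hv : ∀ l : Fin r, v l.castSucc = 0) :
    PR' v x = fun l => x l.castSucc := by
  funext l
  simp [PR', hv]

theorem st_coc_of (hpc : ∀ n m : ℕ, m ≠ n → RAcyc (Pc (n + 1)) m)
    (hfund : ∀ n : ℕ, IsCyc n (fund n))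
    (hcoc : ∀ n : ℕ, ∃ ω : Sing (Pc (n + 1)) n → ℤ,
      altd ℤ (sface (X := Pc (n + 1))) n ω = 0 ∧ evm ω (fund n) = 1) (i k r : ℕ)
    (hr : i + 1 + k = r) : ∃ ι : Sing (St (k + 1) r) (2 * i + 1) → ℤ,
    altd ℤ (sface (X := St (k + 1) r)) (2 * i + 1) ι = 0 ∧
      evm ι (psh (jC (i + 1) k r hr) (2 * i + 1) (fund (2 * i + 1))) = 1 := by
  induction k generalizing r with
  | zero =>
    have hr' : r = i + 1 := by omega
    subst hr'
    let g : C(St (0 + 1) (i + 1), Pc (2 * (i + 1))) :=
      ⟨fun w => ⟨fun m => if (m : ℕ) % 2 = 0 then (w.1 0 ⟨m / 2, by omega⟩).re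
        else (w.1 0 ⟨m / 2, by omega⟩).im, by
          intro h
          apply w.2.ne_zero 0
          funext l
          apply Complex.ext
          · have := congrFun h ⟨2 * l, by omega⟩
            simp only [Pi.zero_apply] at this
            rw [if_pos (by omega)] at this
            rw [Pi.zero_apply, Complex.zero_re, ← this]
            apply reE
            simp only
            omega
          · have := congrFun h ⟨2 * l + 1, by omega⟩
            simp only [Pi.zero_apply] at this
            rw [if_neg (by omega)] at this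
            rw [Pi.zero_apply, Complex.zero_im, ← this]
            apply imE
            simp only
            omega⟩, by
        refine Continuous.subtype_mk (continuous_pi fun m => ?_) _
        have hc : ∀ l, Continuous (fun w : St (0 + 1) (i + 1) => w.1 0 l) := fun l =>
          (continuous_apply l).comp ((continuous_apply 0).comp continuous_subtype_val)
        split_ifs
        · exact Complex.continuous_re.comp (hc _)
        · exact Complex.continuous_im.comp (hc _)⟩
    have hg : g.comp (jC (i + 1) 0 (i + 1) hr) = ContinuousMap.id (Pc (2 * (i + 1))) := by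
      ext x : 1
      apply Subtype.ext
      funext m
      have h0 : (jC (i + 1) 0 (i + 1) hr x).1 0 = toC (i + 1) x.1 := by
        change jvec (i + 1) (i + 1) (toC (i + 1) x.1) = toC (i + 1) x.1
        funext l
        simp only [jvec, Fin.is_lt, dif_pos]
      change (if (m : ℕ) % 2 = 0 then ((jC (i + 1) 0 (i + 1) hr x).1 0 ⟨m / 2, by omega⟩).re
        else ((jC (i + 1) 0 (i + 1) hr x).1 0 ⟨m / 2, by omega⟩).im) = x.1 m
      rw [h0]
      split_ifs with hm
      · simp only [toC, Complex.add_re, Complex.ofReal_re, Complex.mul_re, Complex.I_re, mul_zero,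
          Complex.ofReal_im, Complex.I_im, mul_one, sub_self, add_zero]
        exact congrArg x.1 (Fin.ext (by simp only; omega))
      · simp only [toC, Complex.add_im, Complex.ofReal_im, Complex.mul_im, Complex.I_re, mul_zero,
          Complex.ofReal_re, Complex.I_im, mul_one, zero_add, add_zero]
        exact congrArg x.1 (Fin.ext (by simp only; omega))
    obtain ⟨ω, h1, h2⟩ := hcoc (2 * i + 1)
    refine ⟨pb g ω, ?_, ?_⟩
    · rw [altd_pb, h1]
      rfl
    · rw [← evm_psh, psh_psh, hg, psh_id]
      exact h2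
  | succ k ih =>
    obtain ⟨r, rfl⟩ : ∃ r', r = r' + 1 := ⟨r - 1, by omega⟩
    have hr' : i + 1 + k = r := by omega
    obtain ⟨ι₀, h1, h2⟩ := ih r hr'
    have hUm : ∀ w ∈ UU k r, (1 : ℂ) • w.1 (Fin.last (k + 1)) ∈ OO r := by
      intro w hw
      rw [one_smul]
      exact hw
    have hVm : ∀ w ∈ VV k r, (-1 : ℂ) • w.1 (Fin.last (k + 1)) ∈ OO r := by
      intro w hw
      rw [neg_one_smul]
      exact hw
    set ιU := pb (piM 1 (UU k r) hUm) ι₀ with hιU
    set ιV := pb (piM (-1) (VV k r) hVm) ι₀ with hιV
    have hcU : altd ℤ (sface (X := UU k r)) (2 * i + 1) ιU = 0 := by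
      rw [hιU, altd_pb, h1]
      rfl
    have hcV : altd ℤ (sface (X := VV k r)) (2 * i + 1) ιV = 0 := by
      rw [hιV, altd_pb, h1]
      rfl
    set D := pb (incl (Set.inter_subset_right (s := UU k r) (t := VV k r))) ιV -
      pb (incl (Set.inter_subset_left (s := UU k r) (t := VV k r))) ιU with hD
    have hcD : altd ℤ (sface (X := (UU k r ∩ VV k r : Set _))) (2 * i + 1) D = 0 := by
      rw [hD, map_sub, altd_pb (incl (Set.inter_subset_right (s := UU k r) (t := VV k r))) ιV,
        altd_pb (incl (Set.inter_subset_left (s := UU k r) (t := VV k r))) ιU, hcU, hcV]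
      exact sub_self _
    obtain ⟨ε, hε⟩ := coc_W (Opm r) (Opm_sub r) (UU k r ∩ VV k r) (mem_UV k r) ⟨vI r, vI_mem⟩
      (2 * r) (2 * i) (fun p hp => racyc_Opm hpc r p hp) (by omega) D hcD (by
        intro σ
        have e1 : (piM (-1) (VV k r) hVm).comp ((incl Set.inter_subset_right).comp
            ((seM (Opm r) (Opm_sub r) (UU k r ∩ VV k r) (mem_UV k r)).comp
              (σ.prodMk (ContinuousMap.const _ (⟨vI r, vI_mem⟩ : Opm r))))) = σ := by
          ext t : 1
          apply Subtype.ext
          funext j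
          change PR' ((-1 : ℂ) • (Fin.snoc (fun j : Fin (k + 1) => sec (vI r) ((σ t).1 j)) (vI r) :
            Fin (k + 2) → Fin (r + 1) → ℂ) (Fin.last (k + 1)))
            ((Fin.snoc (fun j : Fin (k + 1) => sec (vI r) ((σ t).1 j)) (vI r) :
              Fin (k + 2) → Fin (r + 1) → ℂ) j.castSucc) = (σ t).1 j
          rw [Fin.snoc_last, Fin.snoc_castSucc, sec_vI, PR_of_castSucc]
          · simp
          · intro l
            simp [vI_castSucc]
        have e2 : (piM 1 (UU k r) hUm).comp ((incl Set.inter_subset_left).comp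
            ((seM (Opm r) (Opm_sub r) (UU k r ∩ VV k r) (mem_UV k r)).comp
              (σ.prodMk (ContinuousMap.const _ (⟨vI r, vI_mem⟩ : Opm r))))) = σ := by
          ext t : 1
          apply Subtype.ext
          funext j
          change PR' ((1 : ℂ) • (Fin.snoc (fun j : Fin (k + 1) => sec (vI r) ((σ t).1 j)) (vI r) :
            Fin (k + 2) → Fin (r + 1) → ℂ) (Fin.last (k + 1)))
            ((Fin.snoc (fun j : Fin (k + 1) => sec (vI r) ((σ t).1 j)) (vI r) :
              Fin (k + 2) → Fin (r + 1) → ℂ) j.castSucc) = (σ t).1 j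
          rw [Fin.snoc_last, Fin.snoc_castSucc, one_smul, PR_sec]
        change ι₀ _ - ι₀ _ = 0
        rw [e1, e2, sub_self])
    obtain ⟨ι, hι1, hι2⟩ := mv_coc (isOpen_UU k r) (isOpen_VV k r) (cov_UV k r) (2 * i) ιU hcU ιV
      hcV ε hε
    refine ⟨ι, hι1, ?_⟩
    have hlast : ∀ x : Pc (2 * (i + 1)), (jC (i + 1) (k + 1) (r + 1) hr x).1 (Fin.last (k + 1)) =
        ee' r := by
      intro x
      change jmap (i + 1) (k + 1) (r + 1) hr (toC (i + 1) x.1) (Fin.last (k + 1)) = _
      rw [← Fin.succ_last, jmap, Fin.cons_succ]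
      unfold ee'
      congr 1
      apply Fin.ext
      simp only [Fin.val_last]
      omega
    have hmem : ∀ x : Pc (2 * (i + 1)), jC (i + 1) (k + 1) (r + 1) hr x ∈ UU k r := by
      intro x
      change (jC (i + 1) (k + 1) (r + 1) hr x).1 (Fin.last (k + 1)) ∈ OO r
      rw [hlast]
      exact ee_mem
    let jU : C(Pc (2 * (i + 1)), UU k r) :=
      ⟨fun x => ⟨jC (i + 1) (k + 1) (r + 1) hr x, hmem x⟩,
        (jC (i + 1) (k + 1) (r + 1) hr).continuous.subtype_mk hmem⟩
    have hj1 : (inc (UU k r)).comp jU = jC (i + 1) (k + 1) (r + 1) hr := rfl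
    have hj2 : (piM 1 (UU k r) hUm).comp jU = jC (i + 1) k r hr' := by
      ext x : 1
      apply Subtype.ext
      funext j
      change PR' ((1 : ℂ) • (jC (i + 1) (k + 1) (r + 1) hr x).1 (Fin.last (k + 1)))
        ((jC (i + 1) (k + 1) (r + 1) hr x).1 j.castSucc) = (jC (i + 1) k r hr' x).1 j
      rw [hlast, one_smul, PR_of_castSucc _ _ _ (fun l => ee_castSucc l)]
      refine Fin.cases ?_ (fun j => ?_) j
      · funext l
        change jvec (i + 1) (r + 1) (toC (i + 1) x.1) l.castSucc =
          jvec (i + 1) r (toC (i + 1) x.1) l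
        rfl
      · funext l
        change (Pi.single (⟨i + 1 + (j.castSucc : Fin (k + 1)), by simp; omega⟩ : Fin (r + 1)) (1 : ℂ) :
          Fin (r + 1) → ℂ) l.castSucc = (Pi.single (⟨i + 1 + j, by omega⟩ : Fin r) (1 : ℂ) :
          Fin r → ℂ) l
        simp only [Pi.single_apply]
        congr 1
        rw [Fin.ext_iff, Fin.ext_iff]
        simp
    have hz : sbd (UU k r) (2 * i) (psh jU (2 * i + 1) (fund (2 * i + 1))) = 0 :=
      isCyc_psh jU (2 * i + 1) _ (hfund (2 * i + 1))
    have h3 := hι2 _ hz
    rw [psh_psh, hj1] at h3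
    rw [h3, hιU, ← evm_psh, psh_psh, hj2]
    exact h2

end Sti

end Pool.Agent.H904R2
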