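import Pool.Agent.H904R2.Stiefel

/-! The transgression determines the class: abstract form (acyclic models). -/

set_option autoImplicit false

namespace Pool.Agent.H904R2

open Finsupp
open Prd Pool.Agent.Helper922.HB.Sc

namespace Trs

open MV

variable {X V S Y Y' P : Type} [TopologicalSpace X] [TopologicalSpace V] [TopologicalSpace S]
  [TopologicalSpace Y] [TopologicalSpace Y'] [TopologicalSpace P]

theorem racyc_Dl (q m : ℕ) : RAcyc (Dl q) m :=
  racyc_of_retract ((ContinuousMap.id (Dl q)).prodMk (ContinuousMap.const (Dl q) ()))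
    ContinuousMap.fst rfl m (racyc_contr q m (Sti.racyc_pt m))

/-- the pull back of `p` along `f` -/
def VS (p : C(V, X)) (f : C(Y, X)) : Set (Y × V) := {x | p x.2 = f x.1}

/-- a trivialization of the pull back along a simplex, with fibre `S` -/
structure Triv (p : C(V, X)) {q : ℕ} (σ : Sing X q) (S : Type) [TopologicalSpace S] where
  f : C(VS p σ, Dl q × S)
  g : C(Dl q × S, VS p σ)
  gf : g.comp f = ContinuousMap.id _
  fst : ∀ x, (g x).1.1 = x.1

/-- the section of a trivialization through a point of the fibre -/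
noncomputable def Triv.sec {p : C(V, X)} {q : ℕ} {σ : Sing X q} (T : Triv p σ S) (w0 : S) :
    C(Dl q, VS p σ) :=
  T.g.comp ((ContinuousMap.id _).prodMk (ContinuousMap.const _ w0))

theorem Triv.fst_sec {p : C(V, X)} {q : ℕ} {σ : Sing X q} (T : Triv p σ S) (w0 : S) :
    (ContinuousMap.fst.comp (inc (VS p σ))).comp (T.sec w0) = ContinuousMap.id (Dl q) := by
  ext t : 1
  exact T.fst (t, w0)

theorem p_snd (p : C(V, X)) (f : C(Y, X)) :
    p.comp (ContinuousMap.snd.comp (inc (VS p f))) = f.comp (ContinuousMap.fst.comp (inc (VS p f))) := by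
  ext x : 1
  exact x.2

theorem isCyc_zero_of_psh (f : C(X, Y)) (z : Ch X 0) (hz : IsCyc 0 (psh f 0 z)) : IsCyc 0 z := by
  change (psh f 0 z).sum (fun _ a => a) = 0 at hz
  rw [psh, Finsupp.lmapDomain_apply, Finsupp.sum_mapDomain_index (by simp) (by simp)] at hz
  exact hz

theorem isCyc_of_fst (j : ℕ) (f : C(X, Y)) (u : Ch X j) (hf : psh f j u = 0)
    (hc : ∀ m (h : j = m + 1), sbd X m (h ▸ u) = 0) : IsCyc j u := by
  cases j with
  | zero =>
    apply isCyc_zero_of_psh f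
    rw [hf]
    exact Finsupp.sum_zero_index
  | succ j => exact hc j rfl

theorem psh_supp (g : C(X, Y)) (A : Set X) (B : Set Y) (h : ∀ x ∈ A, g x ∈ B) (m : ℕ) (z : Ch X m)
    (hz : z ∈ supported ℤ ℤ (inS A m)) : psh g m z ∈ supported ℤ ℤ (inS B m) := by
  refine supported_map _ (psh g m) _ ?_ z hz
  intro σ hσ
  rw [psh_single]
  apply single_mem_supported'
  rintro _ ⟨t, rfl⟩
  exact h _ (hσ ⟨t, rfl⟩)

theorem sbd_supp (A : Set X) (m : ℕ) (z : Ch X (m + 1)) (hz : z ∈ supported ℤ ℤ (inS A (m + 1))) :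
    sbd X m z ∈ supported ℤ ℤ (inS A m) := by
  obtain ⟨z', rfl⟩ := lift_ch A _ z hz
  rw [sbd_psh]
  exact psh_inc_mem _ _ _

theorem K1 (p : C(V, X)) {q : ℕ} (σ : Sing X q) (T : Triv p σ S) (w0 : S) (j : ℕ)
    (hS : RAcyc S j) (u : Ch (Dl q × V) j) (hu : u ∈ supported ℤ ℤ (inS (VS p σ) j))
    (hf : psh ContinuousMap.fst j u = 0) (hc : IsCyc j u) :
    ∃ w : Ch (Dl q × V) (j + 1), w ∈ supported ℤ ℤ (inS (VS p σ) (j + 1)) ∧
      psh ContinuousMap.fst (j + 1) w = 0 ∧ sbd _ j w = u := by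
  obtain ⟨u', rfl⟩ := lift_ch _ _ u hu
  have hc' : IsCyc j u' := isCyc_of_psh (inc _) j (fun m => psh_inc_inj _ m) u' hc
  have hA : RAcyc (VS p σ) j := racyc_of_retract T.f T.g T.gf j (racyc_contr q j hS)
  obtain ⟨w', hw'⟩ := hA u' hc'
  rw [psh_psh] at hf
  have hb : IsCyc (j + 1) (psh (ContinuousMap.fst.comp (inc (VS p σ))) (j + 1) w') := by
    change sbd _ j _ = 0
    rw [sbd_psh, hw', hf]
  obtain ⟨b, hb⟩ := racyc_Dl q (j + 1) _ hb
  refine ⟨psh (inc _) (j + 1) (w' - sbd _ (j + 1) (psh (T.sec w0) (j + 2) b)),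
    psh_inc_mem _ _ _, ?_, ?_⟩
  · rw [psh_psh, map_sub, ← sbd_psh, psh_psh, T.fst_sec, psh_id, hb, sub_self]
  · rw [sbd_psh, map_sub, sbd_sbd, sub_zero, hw']

theorem psh_const (x : Y) (m : ℕ) (y : Ch P m) : ∃ b : ℤ,
    psh (ContinuousMap.const P x) m y = b • single (ContinuousMap.const _ x : Sing Y m) (1 : ℤ) := by
  refine ⟨linearCombination ℤ (fun _ : Sing P m => (1 : ℤ)) y, ?_⟩
  refine ext_ch (L := psh (ContinuousMap.const P x) m)
    (L' := (linearCombination ℤ (fun _ : Sing P m => (1 : ℤ))).smulRight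
      (single (ContinuousMap.const _ x : Sing Y m) (1 : ℤ))) ?_ y
  intro τ
  rw [psh_single, LinearMap.smulRight_apply, linearCombination_single, one_smul, one_smul]
  rfl

theorem sbd_const (x : Y) (n : ℕ) (hn : Odd n) :
    sbd Y n (single (ContinuousMap.const _ x : Sing Y (n + 1)) (1 : ℤ)) =
      single (ContinuousMap.const _ x : Sing Y n) (1 : ℤ) := by
  have h1 : (∑ j : Fin (n + 2), (-1 : ℤ) ^ (j : ℕ)) = 1 := by
    rw [Fin.sum_univ_eq_sum_range (fun j => (-1 : ℤ) ^ j), neg_one_geom_sum, if_neg]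
    rw [Nat.not_even_iff_odd]
    obtain ⟨i, rfl⟩ := hn
    exact ⟨i + 1, by ring⟩
  rw [sbd, bd_single]
  have h2 : ∀ j : Fin (n + 2), sface n j
      (ContinuousMap.const _ x : Sing Y (n + 1)) = ContinuousMap.const _ x := fun _ => rfl
  simp only [h2]
  rw [← Finset.sum_smul, h1, one_smul]

theorem K2 (p : C(V, X)) {q : ℕ} (σ : Sing X q) (T : Triv p σ S) (n : ℕ) (hn : Odd n) (s : C(P, S))
    (fd : Ch P (n))
    (hgen : ∀ y : Ch S (n), IsCyc (n) y →
      ∃ a : ℤ, IsBdy (n) (y - a • psh s (n) fd))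
    (z : Sing X (n + 1) → ℤ) (hz : altd ℤ (sface (X := X)) (n + 1) z = 0)
    (hz0 : ∀ x, z (ContinuousMap.const _ x) = 0) (κ : Sing V (n) → ℤ)
    (hκ : altd ℤ (sface (X := V)) (n) κ = - pb p z)
    (hfib : evm κ (psh ((ContinuousMap.snd.comp (inc (VS p σ))).comp
      (T.g.comp ((ContinuousMap.const _ (vert q 0)).prodMk s))) (n) fd) = 0)
    (u : Ch (Dl q × V) (n)) (hu : u ∈ supported ℤ ℤ (inS (VS p σ) (n)))
    (hf : psh ContinuousMap.fst (n) u = 0) (hc : IsCyc (n) u) :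
    evm κ (psh ContinuousMap.snd (n) u) = 0 := by
  obtain ⟨u', rfl⟩ := lift_ch _ _ u hu
  have hc' : IsCyc (n) u' := isCyc_of_psh (inc _) _ (fun m => psh_inc_inj _ m) u' hc
  set y := psh T.f n u' with hy
  have hyc : IsCyc n y := isCyc_psh _ _ _ hc'
  obtain ⟨w1, hw1⟩ := hom_contr q n y hyc
  obtain ⟨a, w2, hw2⟩ := hgen (psh ContinuousMap.snd n y) (isCyc_psh _ _ _ hyc)
  set C0 : C(S, Dl q × S) := (ContinuousMap.const S (vert q 0)).prodMk (ContinuousMap.id S) with hC0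
  set G : C(P, VS p σ) := T.g.comp ((ContinuousMap.const _ (vert q 0)).prodMk s) with hG
  set w3 := psh T.g (n + 1) (w1 + psh C0 (n + 1) w2) with hw3
  have h3 : sbd _ n w3 = u' - a • psh G n fd := by
    have e1 : sbd _ n (w1 + psh C0 (n + 1) w2) = y - a • psh C0 n (psh s n fd) := by
      rw [map_add, hw1, sbd_psh, hw2, map_sub, map_smul]
      abel
    rw [hw3, sbd_psh, e1, map_sub, map_smul, hy, psh_psh, T.gf, psh_id, psh_psh, psh_psh]
    rfl
  have h4 : u' = sbd _ n w3 + a • psh G n fd := by rw [h3]; abel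
  rw [psh_psh] at hf ⊢
  -- the projection of w3 to the simplex
  set c := psh (ContinuousMap.fst.comp (inc (VS p σ))) (n + 1) w3 with hcdef
  obtain ⟨b, hb⟩ := psh_const (vert q 0) n fd
  have hfG : (ContinuousMap.fst.comp (inc (VS p σ))).comp G = ContinuousMap.const P (vert q 0) := by
    ext t : 1
    exact T.fst (vert q 0, s t)
  have h5 : sbd _ n c = - ((a * b) • single (ContinuousMap.const _ (vert q 0) : Sing (Dl q) n) (1 : ℤ)) := by
    rw [hcdef, sbd_psh, h3, map_sub, hf, map_smul, psh_psh, hfG, hb, zero_sub, mul_smul]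
  have h6 : IsCyc (n + 1) (c + (a * b) •
      single (ContinuousMap.const _ (vert q 0) : Sing (Dl q) (n + 1)) (1 : ℤ)) := by
    change sbd _ n _ = 0
    rw [map_add, map_smul, h5, sbd_const _ _ hn]
    abel
  obtain ⟨e, he⟩ := racyc_Dl q (n + 1) _ h6
  have h7 : evm z (psh σ (n + 1) c) = 0 := by
    have e1 := congrArg (fun w => evm z (psh σ (n + 1) w)) he
    simp only [map_add, map_smul] at e1
    rw [← sbd_psh, ev_sbd, hz, psh_single, evm_single] at e1
    have e2 : evm (0 : Sing X (n + 1 + 1) → ℤ) (psh σ (n + 1 + 1) e) = 0 := by simp [evm]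
    have e3 : z (σ.comp (ContinuousMap.const _ (vert q 0))) = 0 := hz0 (σ (vert q 0))
    rw [e2, e3, smul_zero, add_zero] at e1
    exact e1.symm
  -- evaluation
  have hlin : ∀ w : Ch V (n + 1), evm (altd ℤ (sface (X := V)) n κ) w = - evm z (psh p (n + 1) w) := by
    intro w
    refine ext_ch (L := evm (altd ℤ (sface (X := V)) n κ)) (L' := - (evm z).comp (psh p (n + 1))) ?_ w
    intro τ
    rw [evm_single, LinearMap.neg_apply, LinearMap.comp_apply, psh_single, evm_single, hκ]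
    rfl
  clear_value w3
  rw [h4, map_add, map_add, map_smul, map_smul, ← sbd_psh, ev_sbd, hlin, psh_psh, p_snd,
    ← psh_psh, h7, neg_zero, zero_add, psh_psh, hfib, smul_zero]

/-! ### the construction -/

/-- natural extension of a family of chains to all spaces over `X` -/
noncomputable def Ext (φ : ∀ q : ℕ, Sing X q → Ch (Dl q × V) q) (f : C(Y, X)) (q : ℕ) :
    Ch Y q →ₗ[ℤ] Ch (Y × V) q :=
  Finsupp.linearCombination ℤ (fun τ : Sing Y q =>
    psh (τ.prodMap (ContinuousMap.id V)) q (φ q (f.comp τ)))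

theorem Ext_single (φ : ∀ q : ℕ, Sing X q → Ch (Dl q × V) q) (f : C(Y, X)) (q : ℕ) (τ : Sing Y q) :
    Ext φ f q (single τ 1) = psh (τ.prodMap (ContinuousMap.id V)) q (φ q (f.comp τ)) := by
  rw [Ext, linearCombination_single, one_smul]

theorem Ext_nat (φ : ∀ q : ℕ, Sing X q → Ch (Dl q × V) q) (f : C(Y, X)) (g : C(Y', Y)) (q : ℕ)
    (z : Ch Y' q) : Ext φ f q (psh g q z) =
      psh (g.prodMap (ContinuousMap.id V)) q (Ext φ (f.comp g) q z) := by
  refine ext_ch (L := (Ext φ f q).comp (psh g q))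
    (L' := (psh (g.prodMap (ContinuousMap.id V)) q).comp (Ext φ (f.comp g) q)) ?_ z
  intro σ
  simp only [LinearMap.comp_apply]
  rw [psh_single, Ext_single, Ext_single, psh_psh]
  rfl

theorem Ext_congr (φ φ' : ∀ q : ℕ, Sing X q → Ch (Dl q × V) q) (f : C(Y, X)) (q : ℕ)
    (h : φ q = φ' q) : Ext φ f q = Ext φ' f q := by
  rw [Ext, Ext, h]

/-- the identity simplex -/
noncomputable def idc (q : ℕ) : Ch (Dl q) q := single (ContinuousMap.id (Dl q)) 1

theorem psh_idc (q : ℕ) (σ : Sing X q) : psh σ q (idc q) = single σ 1 := by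
  rw [idc, psh_single]
  rfl

section

variable (p : C(V, X)) (𝒞 : Set (Set X))

def Spec1 (φ : ∀ q : ℕ, Sing X q → Ch (Dl q × V) q) (q : ℕ) : Prop :=
  ∀ σ : Sing X q, σ ∈ smallSet 𝒞 q → φ q σ ∈ supported ℤ ℤ (inS (VS p σ) q) ∧
    psh ContinuousMap.fst q (φ q σ) = idc q

def Spec2 (φ : ∀ q : ℕ, Sing X q → Ch (Dl q × V) q) (q : ℕ) : Prop :=
  ∀ σ : Sing X (q + 1), σ ∈ smallSet 𝒞 (q + 1) →
    sbd _ q (φ (q + 1) σ) = Ext φ σ q (sbd _ q (idc (q + 1)))

variable {p 𝒞}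

theorem E1 {φ : ∀ q : ℕ, Sing X q → Ch (Dl q × V) q} {q : ℕ} (h : Spec1 p 𝒞 φ q) (f : C(Y, X))
    (hf : ∃ C ∈ 𝒞, Set.range f ⊆ C) (z : Ch Y q) : Ext φ f q z ∈ supported ℤ ℤ (inS (VS p f) q) := by
  have hz : z ∈ supported ℤ ℤ (Set.univ : Set (Sing Y q)) := by simp
  refine supported_map _ (Ext φ f q) _ ?_ z hz
  intro τ _
  rw [Ext_single]
  obtain ⟨C, hC, hr⟩ := hf
  refine psh_supp _ (VS p (f.comp τ)) _ ?_ _ _ (h (f.comp τ) ⟨C, hC, ?_⟩).1
  · intro x hx
    exact hx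
  · rintro _ ⟨t, rfl⟩
    exact hr ⟨τ t, rfl⟩

theorem E2 {φ : ∀ q : ℕ, Sing X q → Ch (Dl q × V) q} {q : ℕ} (h : Spec1 p 𝒞 φ q) (f : C(Y, X))
    (hf : ∃ C ∈ 𝒞, Set.range f ⊆ C) (z : Ch Y q) : psh ContinuousMap.fst q (Ext φ f q z) = z := by
  refine ext_ch (L := (psh ContinuousMap.fst q).comp (Ext φ f q)) (L' := LinearMap.id) ?_ z
  intro τ
  obtain ⟨C, hC, hr⟩ := hf
  have h1 := (h (f.comp τ) ⟨C, hC, by rintro _ ⟨t, rfl⟩; exact hr ⟨τ t, rfl⟩⟩).2
  rw [LinearMap.comp_apply, Ext_single, psh_psh]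
  have h2 : (ContinuousMap.fst : C(Y × V, Y)).comp (τ.prodMap (ContinuousMap.id V)) =
      τ.comp ContinuousMap.fst := rfl
  rw [h2, ← psh_psh, h1, psh_idc, LinearMap.id_apply]

theorem E3 {φ : ∀ q : ℕ, Sing X q → Ch (Dl q × V) q} {q : ℕ} (h : Spec2 𝒞 φ q) (f : C(Y, X))
    (hf : ∃ C ∈ 𝒞, Set.range f ⊆ C) (z : Ch Y (q + 1)) :
    sbd _ q (Ext φ f (q + 1) z) = Ext φ f q (sbd _ q z) := by
  refine ext_ch (L := (sbd _ q).comp (Ext φ f (q + 1))) (L' := (Ext φ f q).comp (sbd _ q)) ?_ z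
  intro τ
  obtain ⟨C, hC, hr⟩ := hf
  have h1 := h (f.comp τ) ⟨C, hC, by rintro _ ⟨t, rfl⟩; exact hr ⟨τ t, rfl⟩⟩
  rw [LinearMap.comp_apply, LinearMap.comp_apply, Ext_single, sbd_psh, h1, ← Ext_nat, ← sbd_psh,
    psh_idc]

theorem exists_phi (w0 : S) (n : ℕ) (hS : ∀ j < n, RAcyc S j)
    (hT : ∀ (q : ℕ) (σ : Sing X q), σ ∈ smallSet 𝒞 q → Nonempty (Triv p σ S)) (m : ℕ) (hm : m ≤ n) :
    ∃ φ : ∀ q : ℕ, Sing X q → Ch (Dl q × V) q, (∀ q ≤ m, Spec1 p 𝒞 φ q) ∧
      ∀ q < m, Spec2 𝒞 φ q := by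
  induction m with
  | zero =>
    have h1 : ∀ σ : Sing X 0, ∃ y : Ch (Dl 0 × V) 0, σ ∈ smallSet 𝒞 0 →
        y ∈ supported ℤ ℤ (inS (VS p σ) 0) ∧ psh ContinuousMap.fst 0 y = idc 0 := by
      intro σ
      by_cases hσ : σ ∈ smallSet 𝒞 0
      · obtain ⟨T⟩ := hT 0 σ hσ
        refine ⟨psh (inc _) 0 (psh (T.sec w0) 0 (idc 0)), fun _ => ⟨psh_inc_mem _ _ _, ?_⟩⟩
        rw [psh_psh, psh_psh, T.fst_sec, psh_id]
      · exact ⟨0, fun h => absurd h hσ⟩
    choose g hg using h1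
    refine ⟨Function.update (fun _ _ => 0) 0 g, ?_, fun q hq => absurd hq (Nat.not_lt_zero q)⟩
    intro q hq σ hσ
    obtain rfl : q = 0 := Nat.le_zero.1 hq
    rw [Function.update_self]
    exact hg σ hσ
  | succ m ih =>
    obtain ⟨φ, hs1, hs2⟩ := ih (Nat.le_of_succ_le hm)
    have h1 : ∀ σ : Sing X (m + 1), ∃ y : Ch (Dl (m + 1) × V) (m + 1), σ ∈ smallSet 𝒞 (m + 1) →
        (y ∈ supported ℤ ℤ (inS (VS p σ) (m + 1)) ∧ psh ContinuousMap.fst (m + 1) y = idc (m + 1)) ∧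
        sbd _ m y = Ext φ σ m (sbd _ m (idc (m + 1))) := by
      intro σ
      by_cases hσ : σ ∈ smallSet 𝒞 (m + 1)
      · obtain ⟨T⟩ := hT _ σ hσ
        set y := Ext φ σ m (sbd _ m (idc (m + 1))) with hy
        have hy1 : y ∈ supported ℤ ℤ (inS (VS p σ) m) := E1 (hs1 m le_rfl) σ hσ _
        have hy2 : psh ContinuousMap.fst m y = sbd _ m (idc (m + 1)) := E2 (hs1 m le_rfl) σ hσ _
        set v := psh (inc _) (m + 1) (psh (T.sec w0) (m + 1) (idc (m + 1))) with hv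
        have hv1 : v ∈ supported ℤ ℤ (inS (VS p σ) (m + 1)) := psh_inc_mem _ _ _
        have hv2 : psh ContinuousMap.fst (m + 1) v = idc (m + 1) := by
          rw [hv, psh_psh, psh_psh, T.fst_sec, psh_id]
        have hu1 : y - sbd _ m v ∈ supported ℤ ℤ (inS (VS p σ) m) :=
          Submodule.sub_mem _ hy1 (sbd_supp _ _ _ hv1)
        have hu2 : psh ContinuousMap.fst m (y - sbd _ m v) = 0 := by
          rw [map_sub, hy2, ← sbd_psh, hv2, sub_self]
        have hu3 : IsCyc m (y - sbd _ m v) := by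
          refine isCyc_of_fst m ContinuousMap.fst _ hu2 ?_
          intro m' hm'
          subst hm'
          change sbd _ m' (y - sbd _ (m' + 1) v) = 0
          rw [map_sub, sbd_sbd, sub_zero, hy, E3 (hs2 m' (Nat.lt_succ_self m')) σ hσ, sbd_sbd,
            map_zero]
        obtain ⟨w, hw1, hw2, hw3⟩ := K1 p σ T w0 m (hS m hm) _ hu1 hu2 hu3
        refine ⟨v + w, fun _ => ⟨⟨Submodule.add_mem _ hv1 hw1, ?_⟩, ?_⟩⟩
        · rw [map_add, hv2, hw2, add_zero]
        · rw [map_add, hw3]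
          abel
      · exact ⟨0, fun h => absurd h hσ⟩
    choose g hg using h1
    refine ⟨Function.update φ (m + 1) g, ?_, ?_⟩
    · intro q hq σ hσ
      rcases Nat.lt_succ_iff_lt_or_eq.1 (Nat.lt_succ_of_le hq) with hq | rfl
      · rw [Function.update_of_ne (by omega)]
        exact hs1 q (by omega) σ hσ
      · rw [Function.update_self]
        exact (hg σ hσ).1
    · intro q hq σ hσ
      rw [← Ext_congr φ (Function.update φ (m + 1) g) σ q
          (by rw [Function.update_of_ne (by omega)])]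
      rcases Nat.lt_succ_iff_lt_or_eq.1 hq with hq | rfl
      · rw [Function.update_of_ne (by omega)]
        exact hs2 q hq σ hσ
      · rw [Function.update_self]
        exact (hg σ hσ).2

end

/-- a cocycle which is a coboundary on small simplices is a coboundary -/
theorem cob_of_small (𝒞 : Set (Set X)) (hopen : ∀ C ∈ 𝒞, IsOpen C) (hcov : ∀ x : X, ∃ C ∈ 𝒞, x ∈ C)
    (n : ℕ) (z : Sing X (n + 1) → ℤ) (hz : altd ℤ (sface (X := X)) (n + 1) z = 0)
    (β : Sing X n → ℤ) (h : ∀ σ ∈ smallSet 𝒞 (n + 1), z σ = altd ℤ (sface (X := X)) n β σ) :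
    ∃ β' : Sing X n → ℤ, z = altd ℤ (sface (X := X)) n β' := by
  refine exists_of_ev z ((evm β).comp (rho 𝒞 n) + (evm z).comp (DD 𝒞 n)) ?_
  intro σ
  have h1 := rho_succ 𝒞 n (single σ (1 : ℤ))
  have h2 : single σ (1 : ℤ) = rho 𝒞 (n + 1) (single σ 1) + sbd X (n + 1) (DD 𝒞 (n + 1) (single σ 1)) +
      DD 𝒞 n (sbd X n (single σ 1)) := by
    rw [h1]; abel
  have h3 : evm z (rho 𝒞 (n + 1) (single σ 1)) = evm β (rho 𝒞 n (sbd X n (single σ 1))) := by
    rw [← sbd_rho, ev_sbd]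
    exact lin_congr (smallSet 𝒞 (n + 1)) (evm z) (evm (altd ℤ (sface (X := X)) n β)) (by
      intro a ha
      rw [evm_single, evm_single, h a ha]) _ (rho_small 𝒞 hopen hcov (n + 1) _)
  have h4 : evm z (sbd X (n + 1) (DD 𝒞 (n + 1) (single σ 1))) = 0 := by
    rw [ev_sbd, hz]
    simp [evm]
  rw [← evm_single z σ]
  conv_lhs => rw [h2]
  rw [map_add, map_add, h3, h4, add_zero]
  rfl

/-- a transgressive class is determined by the value of the transgression on the fibres -/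
theorem trs_main (p : C(V, X)) (𝒞 : Set (Set X)) (hopen : ∀ C ∈ 𝒞, IsOpen C)
    (hcov : ∀ x : X, ∃ C ∈ 𝒞, x ∈ C) (n : ℕ) (hn : Odd n) (w0 : S) (hS : ∀ j < n, RAcyc S j)
    (s : C(P, S)) (fd : Ch P (n))
    (hgen : ∀ y : Ch S (n), IsCyc (n) y →
      ∃ a : ℤ, IsBdy (n) (y - a • psh s (n) fd))
    (z : Sing X (n + 1) → ℤ) (hz : altd ℤ (sface (X := X)) (n + 1) z = 0)
    (hz0 : ∀ x, z (ContinuousMap.const _ x) = 0) (κ : Sing V (n) → ℤ)
    (hκ : altd ℤ (sface (X := V)) (n) κ = - pb p z)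
    (hT : ∀ (q : ℕ) (σ : Sing X q), σ ∈ smallSet 𝒞 q → ∃ T : Triv p σ S,
      evm κ (psh ((ContinuousMap.snd.comp (inc (VS p σ))).comp
        (T.g.comp ((ContinuousMap.const _ (vert q 0)).prodMk s))) (n) fd) = 0) :
    ∃ β : Sing X (n) → ℤ, z = altd ℤ (sface (X := X)) (n) β := by
  obtain ⟨φ, hs1, hs2⟩ := exists_phi (p := p) (𝒞 := 𝒞) w0 (n) hS
    (fun q σ hσ => ⟨(hT q σ hσ).choose⟩) (n) le_rfl
  refine cob_of_small 𝒞 hopen hcov (n) z hz
    (fun τ => - evm κ (psh ContinuousMap.snd (n) (φ (n) τ))) ?_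
  intro σ hσ
  obtain ⟨T, hT⟩ := hT _ σ hσ
  set y := Ext φ σ n (sbd _ n (idc (n + 1))) with hy
  have hy1 : y ∈ supported ℤ ℤ (inS (VS p σ) n) := E1 (hs1 n le_rfl) σ hσ _
  have hy2 : psh ContinuousMap.fst n y = sbd _ n (idc (n + 1)) := E2 (hs1 n le_rfl) σ hσ _
  set v := psh (inc _) (n + 1) (psh (T.sec w0) (n + 1) (idc (n + 1))) with hv
  have hv1 : v ∈ supported ℤ ℤ (inS (VS p σ) (n + 1)) := psh_inc_mem _ _ _
  have hv2 : psh ContinuousMap.fst (n + 1) v = idc (n + 1) := by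
    rw [hv, psh_psh, psh_psh, T.fst_sec, psh_id]
  have hu1 : y - sbd _ n v ∈ supported ℤ ℤ (inS (VS p σ) n) :=
    Submodule.sub_mem _ hy1 (sbd_supp _ _ _ hv1)
  have hu2 : psh ContinuousMap.fst n (y - sbd _ n v) = 0 := by
    rw [map_sub, hy2, ← sbd_psh, hv2, sub_self]
  have hu3 : IsCyc n (y - sbd _ n v) := by
    refine isCyc_of_fst n ContinuousMap.fst _ hu2 ?_
    intro m' hm'
    subst hm'
    change sbd _ m' (y - sbd _ (m' + 1) v) = 0
    rw [map_sub, sbd_sbd, sub_zero, hy, E3 (hs2 m' (Nat.lt_succ_self m')) σ hσ, sbd_sbd,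
      map_zero]
  have h1 := K2 p σ T n hn s fd hgen z hz hz0 κ hκ hT _ hu1 hu2 hu3
  rw [map_sub, map_sub, sub_eq_zero, ← sbd_psh, ev_sbd, hv, psh_psh, psh_psh, idc, psh_single,
    evm_single, hκ] at h1
  have h2 : (-pb p z) (((ContinuousMap.snd.comp (inc (VS p σ))).comp (T.sec w0)).comp
      (ContinuousMap.id (Dl (n + 1)))) = - z σ := by
    change - z _ = - z σ
    congr 2
    ext t : 1
    change p (T.g (t, w0)).1.2 = σ t
    have h3 : p (T.g (t, w0)).1.2 = σ (T.g (t, w0)).1.1 := (T.g (t, w0)).2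
    rw [h3, T.fst]
  rw [h2] at h1
  have h3 : ∀ w : Ch (Dl (n + 1)) n, evm κ (psh ContinuousMap.snd n (Ext φ σ n w)) =
      - evm (fun τ => - evm κ (psh ContinuousMap.snd n (φ n τ))) (psh σ n w) := by
    intro w
    refine ext_ch (L := (evm κ).comp ((psh ContinuousMap.snd n).comp (Ext φ σ n)))
      (L' := - (evm (fun τ => - evm κ (psh ContinuousMap.snd n (φ n τ)))).comp (psh σ n)) ?_ w
    intro τ
    rw [LinearMap.comp_apply, LinearMap.comp_apply, Ext_single, psh_psh, LinearMap.neg_apply,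
      LinearMap.comp_apply, psh_single, evm_single, neg_neg]
    rfl
  rw [hy, h3, ← sbd_psh, ev_sbd, psh_idc, evm_single, neg_inj] at h1
  exact h1.symm

end Trs

end Pool.Agent.H904R2
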