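import Pool.Agent.H904R2.Cc

/-! Infinitely divisible classes, through an ultraproduct of the integers. -/

set_option autoImplicit false

namespace Pool.Agent.H904R2

open Filter

/-- the ultraproduct of the integers -/
abbrev Zs : Type := Filter.Germ (Filter.hyperfilter ℕ : Filter ℕ) ℤ

theorem Zs_tf (k : ℤ) (hk : k ≠ 0) (x : Zs) (h : k • x = 0) : x = 0 := by
  induction x using Filter.Germ.inductionOn with
  | _ f =>
    have h1 : ((k • f : ℕ → ℤ) : Zs) = ((0 : ℕ → ℤ) : Zs) := h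
    rw [Filter.Germ.coe_eq] at h1
    change (f : Zs) = ((0 : ℕ → ℤ) : Zs)
    rw [Filter.Germ.coe_eq]
    filter_upwards [h1] with n hn
    simp only [Pi.smul_apply, smul_eq_mul, Pi.zero_apply, mul_eq_zero] at hn
    exact hn.resolve_left hk

theorem Zs_mod (k : ℕ) (hk : 0 < k) (x : Zs) : ∃ (j : ℤ) (y : Zs), x = (j : Zs) + (k : ℤ) • y := by
  induction x using Filter.Germ.inductionOn with
  | _ f =>
    have key : ∀ m : ℕ, (∀ᶠ n in (Filter.hyperfilter ℕ : Filter ℕ), f n % k < m) →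
        ∃ j : ℕ, ∀ᶠ n in (Filter.hyperfilter ℕ : Filter ℕ), f n % k = j := by
      intro m
      induction m with
      | zero =>
        intro h
        exfalso
        obtain ⟨n, hn⟩ := h.exists
        have := Int.emod_nonneg (f n) (show (k : ℤ) ≠ 0 by omega)
        simp at hn
        omega
      | succ m ih =>
        intro h
        have : ∀ᶠ n in (Filter.hyperfilter ℕ : Filter ℕ), f n % k < m ∨ f n % k = m := by
          filter_upwards [h] with n hn
          push_cast at hn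
          omega
        rcases Ultrafilter.eventually_or.1 this with h1 | h1
        · exact ih h1
        · exact ⟨m, h1⟩
    obtain ⟨j, hj⟩ := key k (Filter.Eventually.of_forall fun n =>
      Int.emod_lt_of_pos _ (by exact_mod_cast hk))
    refine ⟨j, ((fun n => f n / k : ℕ → ℤ) : Zs), ?_⟩
    change (f : Zs) = (((fun _ => (j : ℤ)) + (k : ℤ) • (fun n => f n / k) : ℕ → ℤ) : Zs)
    rw [Filter.Germ.coe_eq]
    filter_upwards [hj] with n hn
    simp only [Pi.add_apply, Pi.smul_apply, smul_eq_mul]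
    rw [← hn]
    exact (Int.emod_add_mul_ediv (f n) k).symm

theorem Zs_int (k l : ℤ) (y : Zs) (h : (l : Zs) = k • y) : k ∣ l := by
  induction y using Filter.Germ.inductionOn with
  | _ f =>
    have h1 : (((fun _ => l) : ℕ → ℤ) : Zs) = ((k • f : ℕ → ℤ) : Zs) := h
    rw [Filter.Germ.coe_eq] at h1
    obtain ⟨n, hn⟩ := h1.exists
    exact ⟨f n, hn⟩

/-- infinitely divisible elements -/
noncomputable def Dv : Submodule ℤ Zs where
  carrier := {x | ∀ k : ℕ, 0 < k → ∃ y : Zs, x = (k : ℤ) • y}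
  add_mem' := by
    intro a b ha hb k hk
    obtain ⟨y, hy⟩ := ha k hk
    obtain ⟨y', hy'⟩ := hb k hk
    exact ⟨y + y', by rw [hy, hy', smul_add]⟩
  zero_mem' := by
    intro k hk
    exact ⟨0, by simp⟩
  smul_mem' := by
    intro c x hx k hk
    obtain ⟨y, hy⟩ := hx k hk
    exact ⟨c • y, by rw [hy, smul_comm]⟩

theorem Dv_div (k : ℕ) (hk : 0 < k) (x : Zs) (hx : x ∈ Dv) : ∃ y ∈ Dv, x = (k : ℤ) • y := by
  obtain ⟨y, hy⟩ := hx k hk
  refine ⟨y, ?_, hy⟩
  intro k' hk'
  obtain ⟨y', hy'⟩ := hx (k * k') (Nat.mul_pos hk hk')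
  refine ⟨y', ?_⟩
  have h1 : (k : ℤ) • (y - (k' : ℤ) • y') = 0 := by
    rw [smul_sub, ← hy, hy', smul_smul]
    push_cast
    rw [sub_self]
  exact sub_eq_zero.1 (Zs_tf k (by omega) _ h1)

/-- the quotient of the ultraproduct by the infinitely divisible elements -/
abbrev Wh : Type := Zs ⧸ Dv

/-- the inclusion of the integers -/
noncomputable def io : ℤ →ₗ[ℤ] Wh := Dv.mkQ ∘ₗ (LinearMap.toSpanSingleton ℤ Zs (1 : Zs))

theorem io_apply (l : ℤ) : io l = Dv.mkQ (l : Zs) := by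
  simp [io, LinearMap.toSpanSingleton_apply]

theorem io_inj : Function.Injective io := by
  rw [← LinearMap.ker_eq_bot, LinearMap.ker_eq_bot']
  intro l hl
  rw [io_apply, Submodule.mkQ_apply, Submodule.Quotient.mk_eq_zero] at hl
  by_contra hne
  obtain ⟨y, hy⟩ := hl (l.natAbs + 1) (by omega)
  have h1 := Zs_int _ _ _ hy
  have h2 := Int.le_of_dvd (Int.natAbs_pos.2 hne |> fun h => by exact_mod_cast h)
    ((Int.dvd_natAbs).2 h1)
  push_cast at h2
  omega

/-- the rational vector space `Wh / ℤ` -/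
abbrev Vq : Type := Wh ⧸ LinearMap.range io

/-- the projection -/
noncomputable abbrev pV : Wh →ₗ[ℤ] Vq := (LinearMap.range io).mkQ

theorem pV_io (l : ℤ) : pV (io l) = 0 := by
  rw [Submodule.mkQ_apply, Submodule.Quotient.mk_eq_zero]
  exact ⟨l, rfl⟩

theorem pV_zero (w : Wh) (h : pV w = 0) : ∃ l, io l = w := by
  rw [Submodule.mkQ_apply, Submodule.Quotient.mk_eq_zero] at h
  exact h

theorem Vq_tf (k : ℕ) (hk : 0 < k) (v : Vq) (h : (k : ℤ) • v = 0) : v = 0 := by
  obtain ⟨w, rfl⟩ := Submodule.mkQ_surjective _ v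
  obtain ⟨x, rfl⟩ := Submodule.mkQ_surjective _ w
  rw [← map_smul, ← map_smul] at h
  obtain ⟨l, hl⟩ := pV_zero _ h
  rw [io_apply] at hl
  have h1 : (k : ℤ) • x - (l : Zs) ∈ Dv := by
    rw [← Submodule.Quotient.mk_eq_zero, ← Submodule.mkQ_apply, map_sub, hl, sub_self]
  obtain ⟨d, hd, hd'⟩ := Dv_div k hk _ h1
  have h2 : (l : Zs) = (k : ℤ) • (x - d) := by
    rw [smul_sub, ← hd']
    abel
  obtain ⟨l', rfl⟩ := Zs_int _ _ _ h2
  have h3 : (k : ℤ) • (x - d - (l' : Zs)) = 0 := by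
    rw [smul_sub, ← h2]
    push_cast
    rw [zsmul_eq_mul]
    push_cast
    rw [sub_self]
  have h4 := sub_eq_zero.1 (Zs_tf k (by omega) _ h3)
  have h5 : x = d + (l' : Zs) := by
    rw [← h4]
    abel
  have h6 : Dv.mkQ x = io l' := by
    rw [h5, map_add, io_apply, Submodule.mkQ_apply _ d, (Submodule.Quotient.mk_eq_zero _).2 hd,
      zero_add]
  rw [h6, pV_io]

theorem Vq_div (k : ℕ) (hk : 0 < k) (v : Vq) : ∃ w : Wh, (k : ℤ) • pV w = v := by
  obtain ⟨w, rfl⟩ := Submodule.mkQ_surjective _ v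
  obtain ⟨x, rfl⟩ := Submodule.mkQ_surjective _ w
  obtain ⟨j, y, hy⟩ := Zs_mod k hk x
  refine ⟨Dv.mkQ y, ?_⟩
  rw [hy, map_add, map_add, ← io_apply, pV_io, zero_add, map_smul, map_smul]

/-- a linearly independent set with torsion quotient -/
theorem exists_L : ∃ s : Set Vq, LinearIndepOn ℤ id s ∧
    ∀ v : Vq, ∃ a : ℕ, 0 < a ∧ (a : ℤ) • v ∈ Submodule.span ℤ s := by
  obtain ⟨s, hs, h⟩ := exists_maximal_linearIndepOn ℤ (id : Vq → Vq)
  refine ⟨s, hs, ?_⟩
  intro v
  by_cases hv : v ∈ s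
  · exact ⟨1, one_pos, by simpa using Submodule.subset_span hv⟩
  · obtain ⟨a, ha, ha'⟩ := h v hv
    simp only [id, Set.image_id'] at ha'
    refine ⟨a.natAbs, Int.natAbs_pos.2 ha, ?_⟩
    rcases Int.natAbs_eq a with h | h
    · rw [← h]
      exact ha'
    · have : ((a.natAbs : ℕ) : ℤ) = -a := by omega
      rw [this, neg_smul]
      exact Submodule.neg_mem _ ha'

/-- retractions onto the integers on a countable exhaustion of `Wh` by subgroups -/
theorem exists_ret : ∃ (U : ℕ → Submodule ℤ Wh) (π : ∀ n, U n →ₗ[ℤ] ℤ), Monotone U ∧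
    (∀ w, ∃ n, w ∈ U n) ∧ ∀ n (w : U n) (l : ℤ), (w : Wh) = io l → π n w = l := by
  obtain ⟨s, hs, hs'⟩ := exists_L
  let L : Submodule ℤ Vq := Submodule.span ℤ (Set.range fun x : s => (x : Vq))
  have hLs : L = Submodule.span ℤ s := by
    change Submodule.span ℤ (Set.range fun x : s => (x : Vq)) = _
    rw [Subtype.range_coe]
  rw [← hLs] at hs'
  let b : Module.Basis s ℤ L := Module.Basis.span (v := fun x : s => (x : Vq)) hs
  have hb : ∀ i : s, (b i : Vq) = i := by
    intro i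
    exact congrArg Subtype.val (Module.Basis.span_apply (v := fun x : s => (x : Vq)) hs i)
  -- lifts of n!-th parts
  have hlift : ∀ n : ℕ, ∃ t : L →ₗ[ℤ] Wh, ∀ l : L, ((n.factorial : ℕ) : ℤ) • pV (t l) = l := by
    intro n
    choose w hw using fun i : s => Vq_div n.factorial (Nat.factorial_pos n) (i : Vq)
    refine ⟨b.constr ℤ w, ?_⟩
    intro l
    have : (((n.factorial : ℕ) : ℤ) • (pV ∘ₗ b.constr ℤ w)) = L.subtype := by
      apply b.ext
      intro i
      simp only [LinearMap.smul_apply, LinearMap.comp_apply, Module.Basis.constr_basis,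
        Submodule.subtype_apply, hb]
      exact hw i
    exact LinearMap.congr_fun this l
  choose t ht using hlift
  let U : ℕ → Submodule ℤ Wh := fun n =>
    (L.comap (((n.factorial : ℕ) : ℤ) • pV))
  have hU : ∀ n w, w ∈ U n ↔ ((n.factorial : ℕ) : ℤ) • pV w ∈ L := fun n w => Iff.rfl
  let θ : ∀ n, U n →ₗ[ℤ] L := fun n =>
    LinearMap.codRestrict L ((((n.factorial : ℕ) : ℤ) • pV) ∘ₗ (U n).subtype) fun w => w.2
  have hθ : ∀ n (w : U n), (θ n w : Vq) = ((n.factorial : ℕ) : ℤ) • pV w := fun n w => rfl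
  have hr : ∀ n (w : U n), pV ((w : Wh) - t n (θ n w)) = 0 := by
    intro n w
    apply Vq_tf n.factorial (Nat.factorial_pos n)
    rw [map_sub, smul_sub, ht n, hθ, sub_self]
  choose π hπ using fun n (w : U n) => pV_zero _ (hr n w)
  refine ⟨U, fun n => { toFun := π n, map_add' := ?_, map_smul' := ?_ }, ?_, ?_, ?_⟩
  · intro x y
    apply io_inj
    rw [map_add, hπ, hπ, hπ]
    simp only [map_add, Submodule.coe_add]
    abel
  · intro c x
    apply io_inj
    rw [map_smul, hπ, hπ]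
    simp only [map_smul, Submodule.coe_smul, RingHom.id_apply, smul_sub]
  · apply monotone_nat_of_le_succ
    intro n w hw
    rw [hU] at hw ⊢
    rw [Nat.factorial_succ]
    push_cast
    rw [mul_smul]
    exact Submodule.smul_mem _ _ hw
  · intro w
    obtain ⟨a, ha, ha'⟩ := hs' (pV w)
    refine ⟨a, ?_⟩
    rw [hU]
    obtain ⟨c, hc⟩ := Nat.dvd_factorial ha le_rfl
    rw [hc]
    push_cast
    rw [mul_comm, mul_smul]
    exact Submodule.smul_mem _ _ ha'
  · intro n w l hl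
    change π n w = l
    apply io_inj
    rw [hπ]
    have : θ n w = 0 := by
      apply Subtype.ext
      rw [hθ, hl, pV_io, smul_zero]
      rfl
    rw [this, map_zero, sub_zero, hl]

section Main

open Pool.Agent.Helper922.HB.Sc (Sing sface altd bd sbd)

variable {X : Type} [TopologicalSpace X]

/-- a vertex of a simplex -/
noncomputable def bpt {n : ℕ} (σ : Sing X n) : X := σ (stdSimplex.vertex 0)

theorem exists_T (m : ℕ) (hm : Odd m) (z : Sing X (m + 1) → ℤ)
    (hdiv : ∀ k : ℕ, 0 < k → ∃ (y : Sing X (m + 1) → ℤ) (a : Sing X m → ℤ),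
      z = (k : ℤ) • y + dlt Pool.Agent.Helper922.HB.Sc.sface m a) (N : ℕ) (hN : 0 < N) :
    ∃ (z' : Sing X (m + 1) → ℤ) (e : Sing X m → ℤ) (T : ℕ → Set (Sing X m))
      (a : ℕ → Sing X m → ℤ), dlt Pool.Agent.Helper922.HB.Sc.sface (m + 1) z' = 0 ∧ (∀ x, z' (cst (m + 1) x) = 0) ∧
      z = (N : ℤ) • z' + dlt Pool.Agent.Helper922.HB.Sc.sface m e ∧ Monotone T ∧ (∀ σ, ∃ n, σ ∈ T n) ∧
      ∀ n (σ : Sing X (m + 1)), (∀ i, sface m i σ ∈ T n) → dlt Pool.Agent.Helper922.HB.Sc.sface m (a n) σ = z' σ := by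
  obtain ⟨U, π, hUm, hUe, hπ⟩ := exists_ret
  choose y a hya using fun n : ℕ => hdiv n.factorial (Nat.factorial_pos n)
  -- the cochain `v` with `δ v = io ∘ z`
  have hv : ∃ v : Sing X m → Wh, ∀ σ, dlt Pool.Agent.Helper922.HB.Sc.sface m v σ = io (z σ) := by
    refine ⟨fun σ => Dv.mkQ ((fun n => a n σ : ℕ → ℤ) : Zs), ?_⟩
    intro σ
    rw [io_apply]
    have h1 := dlt_map (sface (X := X)) m (Dv.mkQ.toAddMonoidHom)
      (fun σ => ((fun n => a n σ : ℕ → ℤ) : Zs)) σ
    refine h1.trans ?_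
    change Dv.mkQ _ = Dv.mkQ _
    rw [← sub_eq_zero, ← map_sub, Submodule.mkQ_apply, Submodule.Quotient.mk_eq_zero]
    have h2 : dlt Pool.Agent.Helper922.HB.Sc.sface m (fun σ => ((fun n => a n σ : ℕ → ℤ) : Zs)) σ =
        ((fun n => dlt Pool.Agent.Helper922.HB.Sc.sface m (a n) σ : ℕ → ℤ) : Zs) := by
      have h3 := dlt_map (sface (X := X)) m
        ({ toFun := fun f => (f : Zs), map_zero' := rfl, map_add' := fun f g => rfl } :
          (ℕ → ℤ) →+ Zs) (fun σ => (fun n => a n σ : ℕ → ℤ)) σ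
      refine h3.trans ?_
      change ((_ : ℕ → ℤ) : Zs) = ((_ : ℕ → ℤ) : Zs)
      congr 1
      funext n
      simp only [dlt, Finset.sum_apply, Pi.smul_apply]
    change _ ∈ Dv
    rw [h2]
    intro k hk
    refine ⟨((fun n => if k ≤ n then -((n.factorial / k : ℕ) : ℤ) * y n σ else 0 : ℕ → ℤ) : Zs), ?_⟩
    change (((fun n => dlt Pool.Agent.Helper922.HB.Sc.sface m (a n) σ) - (fun _ => z σ) : ℕ → ℤ) : Zs) = (((k : ℤ) •
      (fun n => if k ≤ n then -((n.factorial / k : ℕ) : ℤ) * y n σ else 0) : ℕ → ℤ) : Zs)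
    rw [Filter.Germ.coe_eq]
    have hev : ∀ᶠ n in (Filter.hyperfilter ℕ : Filter ℕ), k ≤ n := by
      have h5 : ∀ᶠ n in Filter.cofinite, k ≤ n := by
        rw [Nat.cofinite_eq_atTop]
        exact Filter.eventually_ge_atTop k
      exact Filter.Eventually.filter_mono Filter.hyperfilter_le_cofinite h5
    filter_upwards [hev] with n hn
    simp only [Pi.sub_apply, Pi.smul_apply, smul_eq_mul, if_pos hn]
    have h6 := congrFun (hya n) σ
    simp only [Pi.add_apply, Pi.smul_apply, smul_eq_mul] at h6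
    have h7 : ((n.factorial : ℕ) : ℤ) = (k : ℤ) * ((n.factorial / k : ℕ) : ℤ) := by
      exact_mod_cast (Nat.mul_div_cancel' (Nat.dvd_factorial hk hn)).symm
    rw [h6, h7]
    ring
  obtain ⟨v, hv⟩ := hv
  choose v' hv' using fun σ => Vq_div N hN (pV (v σ))
  have h1 : ∀ σ, pV (v σ - (N : ℤ) • v' σ) = 0 := by
    intro σ
    rw [map_sub, map_smul, hv', sub_self]
  choose e he using fun σ => pV_zero _ (h1 σ)
  have h2 : ∀ σ, (N : ℤ) • pV (dlt Pool.Agent.Helper922.HB.Sc.sface m v' σ) = 0 := by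
    intro σ
    have h3 := dlt_map (sface (X := X)) m (pV.toAddMonoidHom) (fun τ => v τ - (N : ℤ) • v' τ) σ
    have h4 : dlt Pool.Agent.Helper922.HB.Sc.sface m (fun τ => v τ - (N : ℤ) • v' τ) = dlt Pool.Agent.Helper922.HB.Sc.sface m v - (N : ℤ) • dlt Pool.Agent.Helper922.HB.Sc.sface m v' := by
      rw [← dlt_smul, ← dlt_sub]
      rfl
    have h5 : dlt (sface (X := X)) m (fun τ => pV.toAddMonoidHom (v τ - (N : ℤ) • v' τ)) σ = 0 := by
      have : (fun τ => pV.toAddMonoidHom (v τ - (N : ℤ) • v' τ)) = 0 := by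
        funext τ
        exact h1 τ
      rw [this, dlt_zero]
      rfl
    rw [h5, h4] at h3
    change 0 = pV (dlt Pool.Agent.Helper922.HB.Sc.sface m v σ - (N : ℤ) • dlt Pool.Agent.Helper922.HB.Sc.sface m v' σ) at h3
    rw [map_sub, hv, pV_io, zero_sub, map_smul] at h3
    exact neg_eq_zero.1 h3.symm
  choose z1 hz1 using fun σ => pV_zero _ (Vq_tf N hN _ (h2 σ))
  -- normalisation
  let f : Sing X m → ℤ := fun σ => z1 (cst (m + 1) (bpt σ))
  let v'' : Sing X m → Wh := fun σ => v' σ - io (f σ)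
  let z' : Sing X (m + 1) → ℤ := z1 - dlt Pool.Agent.Helper922.HB.Sc.sface m f
  have hioF : ∀ (n : ℕ) (g : Sing X n → ℤ) σ, dlt Pool.Agent.Helper922.HB.Sc.sface n (fun τ => io (g τ)) σ = io (dlt Pool.Agent.Helper922.HB.Sc.sface n g σ) := by
    intro n g σ
    exact dlt_map (sface (X := X)) n (io.toAddMonoidHom) g σ
  have hv'' : ∀ σ, dlt Pool.Agent.Helper922.HB.Sc.sface m v'' σ = io (z' σ) := by
    intro σ
    have h4 : dlt Pool.Agent.Helper922.HB.Sc.sface m v'' = dlt Pool.Agent.Helper922.HB.Sc.sface m v' - dlt Pool.Agent.Helper922.HB.Sc.sface m (fun τ => io (f τ)) := by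
      rw [← dlt_sub]
      rfl
    rw [h4, Pi.sub_apply, hioF, ← hz1, ← map_sub]
    rfl
  refine ⟨z', e + (N : ℤ) • f, fun n => {σ | v'' σ ∈ U n},
    fun n σ => by classical exact if h : v'' σ ∈ U n then π n ⟨v'' σ, h⟩ else 0, ?_, ?_, ?_, ?_, ?_, ?_⟩
  · funext τ
    apply io_inj
    rw [← hioF]
    have : (fun τ => io (z' τ)) = dlt Pool.Agent.Helper922.HB.Sc.sface m v'' := by
      funext τ
      exact (hv'' τ).symm
    rw [this, dltX_dltX]
    simp
  · intro x
    change z1 (cst (m + 1) x) - dlt Pool.Agent.Helper922.HB.Sc.sface m f (cst (m + 1) x) = 0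
    rw [dltX_cst, if_pos hm]
    exact sub_self _
  · funext σ
    apply io_inj
    rw [← hv]
    have h4 : v = (N : ℤ) • v' + fun τ => io (e τ) := by
      funext τ
      rw [Pi.add_apply, he, Pi.smul_apply]
      abel
    have h5 : dlt Pool.Agent.Helper922.HB.Sc.sface m v σ = (N : ℤ) • io (z1 σ) + io (dlt Pool.Agent.Helper922.HB.Sc.sface m e σ) := by
      rw [h4, dlt_add, dlt_smul, Pi.add_apply, hioF, Pi.smul_apply, ← hz1]
    rw [h5]
    change _ = io (((N : ℤ) • (z1 - dlt Pool.Agent.Helper922.HB.Sc.sface m f) + dlt Pool.Agent.Helper922.HB.Sc.sface m (e + (N : ℤ) • f)) σ)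
    rw [dlt_add, dlt_smul]
    simp only [Pi.add_apply, Pi.smul_apply, Pi.sub_apply, ← map_smul, ← map_add]
    congr 1
    rw [smul_sub]
    abel
  · intro n n' hnn' σ hσ
    exact hUm hnn' hσ
  · intro σ
    exact hUe _
  · intro n σ hσ
    classical
    have h4 : dlt Pool.Agent.Helper922.HB.Sc.sface m v'' σ = ((∑ i : Fin (m + 2), ((-1 : ℤ) ^ (i : ℕ)) •
        (⟨v'' (sface m i σ), hσ i⟩ : U n) : U n) : Wh) := by
      rw [Submodule.coe_sum]
      rfl
    have h5 := hπ n _ (z' σ) (h4.symm.trans (hv'' σ))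
    rw [← h5, map_sum]
    unfold dlt
    refine Finset.sum_congr rfl fun i _ => ?_
    rw [map_smul]
    congr 1
    exact dif_pos (hσ i)

end Main

end Pool.Agent.H904R2
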