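import Pool.Agent.H904R2.Defs3
import Pool.Agent.H904R2.Chern
import Pool.Agent.H904R2.Trs
import Pool.Agent.H904R2.StGen

/-! Uniqueness of the Chern class in the definition through the transgression. -/

set_option autoImplicit false

namespace Pool.Agent.H904R2

open Bundle Finsupp
open Prd Pool.Agent.Helper922.HB.Sc

namespace Trs

section Geo

variable {X : Type} [TopologicalSpace X] {r : ℕ} {E : X → Type}
  [TopologicalSpace (TotalSpace (Fin r → ℂ) E)] [∀ x, AddCommGroup (E x)]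
  [∀ x, Module ℂ (E x)]

omit [TopologicalSpace X] [TopologicalSpace (TotalSpace (Fin r → ℂ) E)] in
theorem FrE_ext {k : ℕ} {w w' : FrE r E (k + 1)}
    (h : ∀ j, (⟨w.1.1, w.1.2 j⟩ : TotalSpace (Fin r → ℂ) E) = ⟨w'.1.1, w'.1.2 j⟩) : w = w' := by
  obtain ⟨⟨x, v⟩, hv⟩ := w
  obtain ⟨⟨x', v'⟩, hv'⟩ := w'
  have h0 : x = x' := congrArg TotalSpace.proj (h 0)
  subst h0
  have h1 : v = v' := by
    funext j
    have := h j
    exact eq_of_heq (TotalSpace.mk.inj this).2
  subst h1
  rfl

variable [∀ x, TopologicalSpace (E x)] [FiberBundle (Fin r → ℂ) E] [VectorBundle ℂ (Fin r → ℂ) E]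

/-- the linear isomorphism of the fibre given by a trivialization -/
noncomputable def phi (b x : X) (h : x ∈ (trivializationAt (Fin r → ℂ) E b).baseSet) :
    (Fin r → ℂ) ≃L[ℂ] E x :=
  ((trivializationAt (Fin r → ℂ) E b).continuousLinearEquivAt ℂ x h).symm

theorem mk_phi (b x : X) (h : x ∈ (trivializationAt (Fin r → ℂ) E b).baseSet) (v : Fin r → ℂ) :
    (⟨x, phi b x h v⟩ : TotalSpace (Fin r → ℂ) E) =
      (trivializationAt (Fin r → ℂ) E b).toOpenPartialHomeomorph.symm (x, v) :=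
  (Trivialization.symm_apply_eq_mk_continuousLinearEquivAt_symm (R := ℂ)
    (trivializationAt (Fin r → ℂ) E b) x h v).symm

variable (k : ℕ) (b : X) {q : ℕ} (σ : Sing X q)
  (h : ∀ t, σ t ∈ (trivializationAt (Fin r → ℂ) E b).baseSet)

noncomputable def gM : C(Dl q × St (k + 1) r, VS (prE r E k) σ) where
  toFun x := ⟨(x.1, fibE r E k (σ x.1) (phi b (σ x.1) (h x.1)) x.2), rfl⟩
  continuous_toFun := by
    refine Continuous.subtype_mk (continuous_fst.prodMk
      (continuous_induced_rng.2 (continuous_pi fun j => ?_))) _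
    have h1 : (fun x : Dl q × St (k + 1) r =>
        (⟨σ x.1, phi b (σ x.1) (h x.1) (x.2.1 j)⟩ : TotalSpace (Fin r → ℂ) E)) =
        fun x => (trivializationAt (Fin r → ℂ) E b).toOpenPartialHomeomorph.symm
          (σ x.1, x.2.1 j) := by
      funext x
      exact mk_phi b (σ x.1) (h x.1) (x.2.1 j)
    change Continuous (fun x : Dl q × St (k + 1) r =>
        (⟨σ x.1, phi b (σ x.1) (h x.1) (x.2.1 j)⟩ : TotalSpace (Fin r → ℂ) E))
    rw [h1]
    refine (trivializationAt (Fin r → ℂ) E b).toOpenPartialHomeomorph.continuousOn_symm.comp_continuous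
      ?_ ?_
    · exact (σ.continuous.comp continuous_fst).prodMk ((continuous_apply j).comp
        (continuous_subtype_val.comp continuous_snd))
    · intro x
      exact (trivializationAt (Fin r → ℂ) E b).mem_target.2 (h x.1)

omit [VectorBundle ℂ (Fin r → ℂ) E] in
include h in
theorem mem_base (x : VS (prE r E k) σ) :
    x.1.2.1.1 ∈ (trivializationAt (Fin r → ℂ) E b).baseSet := by
  have h1 : x.1.2.1.1 = σ x.1.1 := x.2
  rw [h1]
  exact h _

noncomputable def fM : C(VS (prE r E k) σ, Dl q × St (k + 1) r) where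
  toFun x := (x.1.1, ⟨fun j => (trivializationAt (Fin r → ℂ) E b
      (⟨x.1.2.1.1, x.1.2.1.2 j⟩ : TotalSpace (Fin r → ℂ) E)).2,
    x.1.2.2.map' ((trivializationAt (Fin r → ℂ) E b).continuousLinearEquivAt ℂ x.1.2.1.1
      (mem_base k b σ h x)).toLinearEquiv.toLinearMap
      ((trivializationAt (Fin r → ℂ) E b).continuousLinearEquivAt ℂ x.1.2.1.1
      (mem_base k b σ h x)).toLinearEquiv.ker⟩)
  continuous_toFun := by
    refine (continuous_fst.comp continuous_subtype_val).prodMk
      (Continuous.subtype_mk (continuous_pi fun j => ?_) _)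
    refine continuous_snd.comp ?_
    refine (trivializationAt (Fin r → ℂ) E b).continuousOn.comp_continuous ?_ ?_
    · have h1 : Continuous (fun (w : FrE r E (k + 1)) (j : Fin (k + 1)) =>
        (⟨w.1.1, w.1.2 j⟩ : TotalSpace (Fin r → ℂ) E)) := continuous_induced_dom
      exact ((continuous_apply j).comp h1).comp (continuous_snd.comp continuous_subtype_val)
    · intro x
      exact (trivializationAt (Fin r → ℂ) E b).mem_source.2 (mem_base k b σ h x)

noncomputable def trivM : Triv (prE r E k) σ (St (k + 1) r) where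
  f := fM k b σ h
  g := gM k b σ h
  gf := by
    ext x : 1
    apply Subtype.ext
    refine Prod.ext rfl ?_
    apply FrE_ext
    intro j
    have h1 : x.1.2.1.1 = σ x.1.1 := x.2
    change (⟨σ x.1.1, phi b (σ x.1.1) (h x.1.1) (trivializationAt (Fin r → ℂ) E b
      (⟨x.1.2.1.1, x.1.2.1.2 j⟩ : TotalSpace (Fin r → ℂ) E)).2⟩ : TotalSpace (Fin r → ℂ) E) =
      ⟨x.1.2.1.1, x.1.2.1.2 j⟩
    rw [mk_phi]
    have h2 : (σ x.1.1, (trivializationAt (Fin r → ℂ) E b
        (⟨x.1.2.1.1, x.1.2.1.2 j⟩ : TotalSpace (Fin r → ℂ) E)).2) =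
        trivializationAt (Fin r → ℂ) E b
          (⟨x.1.2.1.1, x.1.2.1.2 j⟩ : TotalSpace (Fin r → ℂ) E) := by
      rw [← h1]
      exact (trivializationAt (Fin r → ℂ) E b).mk_proj_snd'
        (x := (⟨x.1.2.1.1, x.1.2.1.2 j⟩ : TotalSpace (Fin r → ℂ) E)) (mem_base k b σ h x)
    rw [h2]
    exact (trivializationAt (Fin r → ℂ) E b).symm_apply_apply
      ((trivializationAt (Fin r → ℂ) E b).mem_source.2 (mem_base k b σ h x))
  fst := fun _ => rfl

end Geo

end Trs

open Trs MV

/-- T18 (file Unique.lean): the Chern class is unique -/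
theorem IsChern_unique {X : Type} [TopologicalSpace X] (r : ℕ) (E : X → Type)
    [TopologicalSpace (TotalSpace (Fin r → ℂ) E)] [∀ x, AddCommGroup (E x)]
    [∀ x, Module ℂ (E x)] [∀ x, TopologicalSpace (E x)] [FiberBundle (Fin r → ℂ) E]
    [VectorBundle ℂ (Fin r → ℂ) E]
    (i k : ℕ) (hr : i + 1 + k = r) (c c' : SingularCohomology ℤ X (2 * i + 2))
    (h : IsChern r E i k hr c) (h' : IsChern r E i k hr c') : c = c' := by
  obtain ⟨z, rfl, hz0, κ, hκ, hκ1⟩ := h
  obtain ⟨z', rfl, hz0', κ', hκ', hκ1'⟩ := h'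
  have hz : altd ℤ (sface (X := X)) (2 * i + 1 + 1) z.1 = 0 := z.2
  have hz' : altd ℤ (sface (X := X)) (2 * i + 1 + 1) z'.1 = 0 := z'.2
  let 𝒞 : Set (Set X) := {U | ∃ b : X, U = (trivializationAt (Fin r → ℂ) E b).baseSet}
  obtain ⟨β, hβ⟩ := trs_main (prE r E k) 𝒞
    (by rintro _ ⟨b, rfl⟩; exact (trivializationAt (Fin r → ℂ) E b).open_baseSet)
    (fun x => ⟨_, ⟨x, rfl⟩, FiberBundle.mem_baseSet_trivializationAt' x⟩) (2 * i + 1) ⟨i, rfl⟩
    (jC (i + 1) k r hr ⟨fun _ => 1, by
        intro h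
        have := congrFun h ⟨0, by omega⟩
        simp at this⟩)
    (fun j hj => st_acyc i k r hr j hj) (jC (i + 1) k r hr) (fund (2 * i + 1))
    (fun y hy => st_gen i k r hr y hy) (z.1 - z'.1) (by rw [map_sub, hz, hz', sub_zero])
    (by
      intro x
      rw [Pi.sub_apply]
      exact (congrArg₂ (· - ·) (hz0 x) (hz0' x)).trans (sub_zero _)) (κ - κ')
    (by
      rw [map_sub]
      funext τ
      have e1 := hκ τ
      have e2 := hκ' τ
      change altd ℤ (sface (X := FrE r E (k + 1))) (2 * i + 1) κ τ -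
        altd ℤ (sface (X := FrE r E (k + 1))) (2 * i + 1) κ' τ =
          - (z.1 ((prE r E k).comp τ) - z'.1 ((prE r E k).comp τ))
      rw [e1, e2]
      ring)
    (by
      rintro q σ ⟨_, ⟨b, rfl⟩, hσ⟩
      have h1 : ∀ t, σ t ∈ (trivializationAt (Fin r → ℂ) E b).baseSet := fun t => hσ ⟨t, rfl⟩
      refine ⟨trivM k b σ h1, ?_⟩
      have e0 : (ContinuousMap.snd.comp (inc (VS (prE r E k) σ))).comp
          ((trivM k b σ h1).g.comp ((ContinuousMap.const _ (vert q 0)).prodMk (jC (i + 1) k r hr))) =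
          (fibE r E k (σ (vert q 0)) (phi b (σ (vert q 0)) (h1 _))).comp (jC (i + 1) k r hr) := rfl
      rw [e0]
      have e1 := hκ1 (σ (vert q 0)) (phi b (σ (vert q 0)) (h1 _))
      have e2 := hκ1' (σ (vert q 0)) (phi b (σ (vert q 0)) (h1 _))
      have e3 : ∀ w : Ch (FrE r E (k + 1)) (2 * i + 1), evm (κ - κ') w = evm κ w - evm κ' w := by
        intro w
        refine ext_ch (L := evm (κ - κ')) (L' := evm κ - evm κ') ?_ w
        intro τ
        rw [LinearMap.sub_apply, evm_single, evm_single, evm_single]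
        rfl
      rw [e3, e1, e2, sub_self])
  apply (Submodule.Quotient.eq _).2
  change (z - z').1 ∈ coboundaries ℤ X (2 * i + 1 + 1)
  exact ⟨β, hβ.symm⟩

end Pool.Agent.H904R2
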