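import Pool.Agent.H904R2.Fin3
import Pool.Agent.H904R2.Unique

/-! Uniqueness of the Chern class of a `CVB`. -/

set_option autoImplicit false

namespace Pool.Agent.H904R2

open Pool.Agent.Helper922.HB.Sc (SingularCohomology)

/-- the Chern class is unique (bundled form) -/
theorem CVB.IsChern_unique {X : Type} [TopologicalSpace X] {r : ℕ} (V : CVB X r) (i k : ℕ)
    (hr : i + 1 + k = r) (c c' : SingularCohomology ℤ X (2 * i + 2))
    (h : V.IsChern i k hr c) (h' : V.IsChern i k hr c') : c = c' :=
  Pool.Agent.H904R2.IsChern_unique r V.E i k hr c c' ((isChern_iff V i k hr c).1 h)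
    ((isChern_iff V i k hr c').1 h')

end Pool.Agent.H904R2
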